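import Pool.Agent.Helper445_GMF.Tor

/-!
The tilt of the heart of a simple-minded collection, with a length function which is not a
function of the central charge.
-/

set_option autoImplicit false
set_option linter.unusedSectionVars false

open CategoryTheory Pretriangulated Triangulated Limits ZeroObject

namespace Pool.Agent.Helper445_GMF

universe v u

variable {C : Type u} [Category.{v} C] [Preadditive C] [HasZeroObject C] [HasShift C ℤ]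
  [∀ n : ℤ, (shiftFunctor C n).Additive] [Pretriangulated C] [IsTriangulated C]

/-- an additive function -/
def Adf (φ : C → ℂ) : Prop := ∀ T ∈ distTriang C, φ T.obj₂ = φ T.obj₁ + φ T.obj₃

namespace Adf

variable {φ : C → ℂ} (H : Adf φ)

include H

theorem add' {X Y V : C} {f : X ⟶ Y} {g : Y ⟶ V} {h : V ⟶ X⟦(1 : ℤ)⟧}
    (hT : Triangle.mk f g h ∈ distTriang C) : φ Y = φ X + φ V := H _ hT

theorem z_zero {X : C} (h : IsZero X) : φ X = 0 := by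
  have h1 : Triangle.mk (0 : X ⟶ X) (0 : X ⟶ X) (0 : X ⟶ X⟦(1 : ℤ)⟧) ∈ distTriang C := by
    have h2 := contractible_distinguished X
    refine isomorphic_distinguished _ h2 _ (Triangle.isoMk _ _ (Iso.refl _) (Iso.refl _)
      (h.iso (isZero_zero C)) ?_ ?_ ?_)
    · exact h.eq_of_tgt _ _
    · exact (isZero_zero C).eq_of_tgt _ _
    · exact h.eq_of_src _ _
  have := H.add' h1
  simpa using this

theorem z_iso {X Y : C} (e : X ≅ Y) : φ X = φ Y := by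
  have h1 : Triangle.mk e.hom (0 : Y ⟶ (0 : C)) (0 : (0 : C) ⟶ X⟦(1 : ℤ)⟧) ∈ distTriang C := by
    rw [Triangle.distinguished_iff_of_isZero₃ _ (isZero_zero C)]
    exact (inferInstance : IsIso e.hom)
  have := H.add' h1
  rw [H.z_zero (isZero_zero C), add_zero] at this
  exact this.symm

theorem z_sh (X : C) : φ (X⟦(1 : ℤ)⟧) = - φ X := by
  have h1 := rot_of_distTriang _ (contractible_distinguished X)
  have h2 : φ (0 : C) = φ X + φ (X⟦(1 : ℤ)⟧) := H _ h1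
  rw [H.z_zero (isZero_zero C)] at h2
  linear_combination -h2

theorem z_shn (X : C) : φ (X⟦(-1 : ℤ)⟧) = - φ X := by
  have h1 := H.z_sh (X⟦(-1 : ℤ)⟧)
  rw [H.z_iso (shiftNegShift X (1 : ℤ))] at h1
  rw [h1, neg_neg]

end Adf

/-- the data used for tilting the heart -/
structure Tl2 {ι : Type} (S : ι → ℤ → C) (Zf ell : C → ℂ) : Prop where
  smc : Smc S
  gen : ∀ X : C, ∃ k m, Srt S k m X
  add : Adf Zf
  addl : Adf ell
  len : ∀ i, ell (S i 0) = 1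

theorem hp_ne {z : ℂ} (h : Hp 0 z) : z ≠ 0 := by
  rintro rfl
  rw [hp_zero] at h
  simp at h

/-- sums of elements of the closed half-plane -/
theorem hp_add0 {z w : ℂ} (hz : Hp 0 z ∨ z = 0) (hw : Hp 0 w ∨ w = 0) :
    Hp 0 (z + w) ∨ z = 0 ∧ w = 0 := by
  rcases hz with hz | hz <;> rcases hw with hw | hw
  · exact Or.inl (hz.add hw)
  · left; rw [hw, add_zero]; exact hz
  · left; rw [hz, zero_add]; exact hw
  · exact Or.inr ⟨hz, hw⟩

namespace Tl2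

variable {ι : Type} {S : ι → ℤ → C} {Zf ell : C → ℂ} (H : Tl2 S Zf ell)

include H

theorem hrt_len : ∀ (m : ℕ) {k : ℤ} {X : C}, Srt S k m X → 0 ≤ k → Vw S 1 X →
    ∃ r : ℕ, ell X = r ∧ (IsZero X ∨ 0 < r) := by
  intro m
  induction m with
  | zero =>
    intro k X hX _ _
    cases hX with
    | nil h0 => exact ⟨0, by rw [H.addl.z_zero h0]; simp, Or.inl h0⟩
  | succ m ih =>
    intro k X hX hk hV
    cases hX with
    | @snoc _ k' _ A _ i f g h hT hk' hA =>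
      rcases le_or_gt 1 k' with h1 | h1
      · have h0 : IsZero X := dv_zero ⟨_, Srt.snoc i f g h hT h1 hA⟩ hV
        exact ⟨0, by rw [H.addl.z_zero h0]; simp, Or.inl h0⟩
      · have h2 : k' = 0 := by omega
        subst h2
        have h3 : Vw S 1 A := Vw.first H.smc hT hV (Vw.letter H.smc (by norm_num) i)
        obtain ⟨r, hr, -⟩ := ih hA le_rfl h3
        refine ⟨r + 1, ?_, Or.inr (by omega)⟩
        rw [H.addl.add' hT, hr, H.len]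
        push_cast
        ring

theorem len_ex {X : C} (h : Hrt S X) : ∃ r : ℕ, ell X = r ∧ (IsZero X ∨ 0 < r) := by
  obtain ⟨⟨m, h1⟩, h2⟩ := h
  exact H.hrt_len m h1 le_rfl h2

/-- the top letter -/
theorem top {X : C} (h : Hrt S X) (h0 : ¬ IsZero X) : ∃ (i : ι) (f : X ⟶ S i 0), f ≠ 0 := by
  obtain ⟨⟨m, h1⟩, h2⟩ := h
  cases h1 with
  | nil h3 => exact absurd h3 h0
  | @snoc _ k' _ A _ i f g h hT hk hA =>
    rcases le_or_gt 1 k' with h3 | h3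
    · exact absurd (dv_zero ⟨_, Srt.snoc i f g h hT h3 hA⟩ h2) h0
    · have h4 : k' = 0 := by omega
      subst h4
      exact ⟨i, g, Srt.last_ne H.smc hT hA⟩

theorem img {X Y : C} (hX : Hrt S X) (hY : Hrt S Y) (f : X ⟶ Y) (hf : f ≠ 0) :
    ∃ (K I Q : C) (k : K ⟶ X) (p : X ⟶ I) (r : I ⟶ K⟦(1 : ℤ)⟧) (i : I ⟶ Y) (q : Y ⟶ Q)
      (s : Q ⟶ I⟦(1 : ℤ)⟧), Triangle.mk k p r ∈ distTriang C ∧ Triangle.mk i q s ∈ distTriang C ∧
      Hrt S K ∧ Hrt S I ∧ Hrt S Q ∧ ¬ IsZero I := by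
  obtain ⟨Cn, g, h, H1⟩ := distinguished_cocone_triangle f
  have R1 : Triangle.mk g h (-f⟦(1 : ℤ)⟧') ∈ distTriang C := rot_of_distTriang _ H1
  have hC1 : Dw S 0 Cn := Dw.third H.smc H.gen H1 hY.1 (hX.1.mono (by norm_num))
  have hC2 : Vw S 2 Cn := Ro_ext R1 (hY.2.mono (by norm_num)) (hX.2.sh1 H.smc)
  obtain ⟨P, Q, a, b, c, H2, hP, hQ⟩ := tr_ex H.smc H.gen 1 Cn
  have hP2 : Vw S 2 P := Vw.first H.smc H2 hC2 (hQ.mono (by norm_num))
  have hQ1 : Dw S 0 Q := Dw.third H.smc H.gen H2 hC1 (hP.mono (by norm_num))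
  obtain ⟨I, i, j, H3⟩ := distinguished_cocone_triangle₁ (g ≫ b)
  obtain ⟨p, q, r, H4, hpi⟩ := oct_co H1 H2 H3 rfl
  obtain ⟨k, r', H5⟩ := inv_rot_aux H4
  refine ⟨P⟦(-1 : ℤ)⟧, I, Q, k, p, r', i, g ≫ b, j, H5, H3, ⟨hP.shn H.smc, hP2.shn H.smc⟩,
    ⟨Dw.ext H.smc H.gen H4 hX.1 (hP.mono (by norm_num)),
      Vw.first H.smc H3 hY.2 (hQ.mono (by norm_num))⟩, ⟨hQ1, hQ⟩, ?_⟩
  intro h0
  apply hf
  rw [← hpi, h0.eq_zero_of_tgt p, zero_comp]

theorem hrt_iso {X Y : C} (e : X ≅ Y) (h : Hrt S X) : Hrt S Y := ⟨h.1.ofIso e, Ro_of_iso e h.2⟩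

theorem hrt_ext {X Y V : C} {f : X ⟶ Y} {g : Y ⟶ V} {h : V ⟶ X⟦(1 : ℤ)⟧}
    (hT : Triangle.mk f g h ∈ distTriang C) (hX : Hrt S X) (hV : Hrt S V) : Hrt S Y :=
  ⟨Dw.ext H.smc H.gen hT hX.1 hV.1, Ro_ext hT hX.2 hV.2⟩

/-- nonzero maps to a letter are epimorphisms -/
theorem epi_letter {X : C} (hX : Hrt S X) (i : ι) (f : X ⟶ S i 0) (hf : f ≠ 0) :
    ∃ (K : C) (k : K ⟶ X) (p : X ⟶ S i 0) (r : S i 0 ⟶ K⟦(1 : ℤ)⟧),
      Triangle.mk k p r ∈ distTriang C ∧ Hrt S K := by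
  have hL : Hrt S (S i 0) := ⟨Dw.letter i 0, Vw.letter H.smc (by norm_num) i⟩
  obtain ⟨K, I, Q, k, p, r, j, q, s, h1, h2, hK, hI, hQ, hI0⟩ := H.img hX hL f hf
  obtain ⟨l1, hl1, hl1'⟩ := H.len_ex hI
  obtain ⟨l2, hl2, hl2'⟩ := H.len_ex hQ
  have hl := H.addl.add' h2
  rw [H.len, hl1, hl2] at hl
  have hl3 : 1 = l1 + l2 := by exact_mod_cast hl
  have hl4 := hl1'.resolve_left hI0
  have hQ0 : IsZero Q := by
    rcases hl2' with h | h
    · exact h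
    · omega
  have : IsIso j := (Triangle.isZero₃_iff_isIso₁ _ h2).1 hQ0
  exact ⟨K, k, _, _, dist_third h1 (asIso j), hK⟩

theorem tors_ex : ∀ (m : ℕ) (X : C), Hrt S X → ell X = m → ∃ (T F : C) (f : T ⟶ X)
    (g : X ⟶ F) (h : F ⟶ T⟦(1 : ℤ)⟧), Triangle.mk f g h ∈ distTriang C ∧ Tor S Zf T ∧
      Fre S Zf F := by
  intro m
  induction m using Nat.strong_induction_on with
  | _ m ih =>
    intro X hX hm
    by_cases hT : Tor S Zf X
    · exact ⟨X, 0, 𝟙 X, 0, 0, contractible_distinguished X, hT,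
        Tlt.hrt_zero (isZero_zero C), Ro_zero (isZero_zero C)⟩
    · have h1 : ∃ r : ℕ, ∃ (K Q : C) (f : K ⟶ X) (g : X ⟶ Q) (h : Q ⟶ K⟦(1 : ℤ)⟧),
          Triangle.mk f g h ∈ distTriang C ∧ Hrt S K ∧ Hrt S Q ∧ ¬ IsZero Q ∧
            ¬ Hp 0 (Zf Q) ∧ ell Q = r := by
        by_contra hc
        push Not at hc
        apply hT
        refine ⟨hX, fun K Q f g h hd hK hQ h0 => ?_⟩
        by_contra hp
        obtain ⟨r, hr, -⟩ := H.len_ex hQ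
        exact hc r K Q f g h hd hK hQ h0 hp hr
      classical
      obtain ⟨K, Q, f, g, h, hd, hK, hQ, h0, hp, hr⟩ := Nat.find_spec h1
      have hmin := fun r hr => Nat.find_min h1 (m := r) hr
      set r := Nat.find h1 with hrdef
      obtain ⟨r', hr', hpos⟩ := H.len_ex hQ
      have hrr : r = r' := by exact_mod_cast hr.symm.trans hr'
      have hpos' : 0 < r' := hpos.resolve_left h0
      -- `Q` is torsion-free
      have hQF : Fre S Zf Q := by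
        refine ⟨hQ, fun T hT' φ => ?_⟩
        by_contra hφ
        obtain ⟨K1, I, Q1, k, p, s, i, q, t, hd1, hd2, hK1, hI, hQ1, hI0⟩ :=
          H.img hT'.1 hQ φ hφ
        have hZI : Hp 0 (Zf I) := hT'.2 _ _ _ _ _ hd1 hK1 hI hI0
        have hZ := H.add.add' hd2
        by_cases hQ0 : IsZero Q1
        · rw [H.add.z_zero hQ0, add_zero] at hZ
          exact hp (hZ ▸ hZI)
        · obtain ⟨K2, f2, h2, p2, q2, r2, hd3, hd4, -⟩ := assocL hd hd2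
          obtain ⟨l1, hl1, hl1'⟩ := H.len_ex hI
          obtain ⟨l2, hl2, -⟩ := H.len_ex hQ1
          have hl1p : 0 < l1 := hl1'.resolve_left hI0
          have e1 : (r : ℂ) = l1 + l2 := by
            rw [← hr, H.addl.add' hd2, hl1, hl2]
          have e2 : r = l1 + l2 := by exact_mod_cast e1
          have h3 := hmin l2 (by omega)
          have h4 : Hp 0 (Zf Q1) := by
            by_contra hc
            exact h3 ⟨K2, Q1, f2, g ≫ q, h2, hd3, H.hrt_ext hd4 hK hI, hQ1, hQ0, hc, hl2⟩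
          exact hp (hZ ▸ hZI.add h4)
      obtain ⟨mK, hmK, -⟩ := H.len_ex hK
      have e3 : (m : ℂ) = mK + r := by
        rw [← hm, H.addl.add' hd, hmK, hr]
      have e4 : m = mK + r := by exact_mod_cast e3
      obtain ⟨T, F, a, b, c, hd5, hTT, hFF⟩ := ih mK (by omega) K hK hmK
      obtain ⟨V, g', h', m₁, m₃, hd6, hd7, -⟩ := assocR hd5 hd
      exact ⟨T, V, a ≫ f, g', h', hd6, hTT, H.hrt_ext hd7 hFF.1 hQ,
        Ro_ext hd7 hFF.2 hQF.2⟩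

/-- subobjects of torsion-free objects -/
theorem fre_sub {K X Q : C} {f : K ⟶ X} {g : X ⟶ Q} {h : Q ⟶ K⟦(1 : ℤ)⟧}
    (hd : Triangle.mk f g h ∈ distTriang C) (hX : Fre S Zf X) (hK : Hrt S K) (hQ : Hrt S Q) :
    Fre S Zf K := by
  refine ⟨hK, fun T hT' φ => ?_⟩
  obtain ⟨a, b, hd'⟩ := inv_rot_aux hd
  obtain ⟨c, hc⟩ := ex_c2 hd' φ (hX.2 T hT' _)
  have h5 : Vw S 0 (Q⟦(-1 : ℤ)⟧) := by
    have := hQ.2.shn H.smc
    simpa using this
  rw [hc, h5 T hT'.1.1 c, zero_comp]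

theorem fre_neg : ∀ (m : ℕ) (X : C), Fre S Zf X → ell X = m → ¬ IsZero X →
    ¬ Hp 0 (Zf X) := by
  intro m
  induction m using Nat.strong_induction_on with
  | _ m ih =>
    intro X hX hm h0 hp
    have hT : ¬ Tor S Zf X := fun hT => h0 ((IsZero.iff_id_eq_zero X).2 (hX.2 X hT _))
    have h1 : ∃ (K Q : C) (f : K ⟶ X) (g : X ⟶ Q) (h : Q ⟶ K⟦(1 : ℤ)⟧),
        Triangle.mk f g h ∈ distTriang C ∧ Hrt S K ∧ Hrt S Q ∧ ¬ IsZero Q ∧
          ¬ Hp 0 (Zf Q) := by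
      by_contra hc
      push Not at hc
      exact hT ⟨hX.1, fun K Q f g h hd hK hQ h0 => hc K Q f g h hd hK hQ h0⟩
    obtain ⟨K, Q, f, g, h, hd, hK, hQ, hQ0, hpQ⟩ := h1
    have hZ := H.add.add' hd
    have h3 : Hp 0 (Zf K) := by
      have e : Zf K = Zf X + -Zf Q := by rw [hZ]; ring
      rw [e]
      by_cases hz : Zf Q = 0
      · rw [hz, neg_zero, add_zero]; exact hp
      · exact hp.add (hp_or hz hpQ)
    have hK0 : ¬ IsZero K := by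
      intro h4
      rw [H.add.z_zero h4] at h3
      exact hp_ne h3 rfl
    obtain ⟨mK, hmK, -⟩ := H.len_ex hK
    obtain ⟨mQ, hmQ, hmQ'⟩ := H.len_ex hQ
    have e3 : (m : ℂ) = mK + mQ := by
      rw [← hm, H.addl.add' hd, hmK, hmQ]
    have e4 : m = mK + mQ := by exact_mod_cast e3
    have e5 := hmQ'.resolve_left hQ0
    exact ih mK (by omega) K (H.fre_sub hd hX hK hQ) hmK hK0 h3

theorem fre_not {X : C} (h : Fre S Zf X) : ¬ Hp 0 (Zf X) := by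
  by_cases h0 : IsZero X
  · intro hp
    rw [H.add.z_zero h0] at hp
    exact hp_ne hp rfl
  · obtain ⟨m, hm, -⟩ := H.len_ex h.1
    exact H.fre_neg m X h hm h0

theorem fre_hp {X : C} (h : Fre S Zf X) : Hp 0 (-Zf X) ∨ -Zf X = 0 := by
  by_cases hz : Zf X = 0
  · right; rw [hz, neg_zero]
  · exact Or.inl (hp_or hz (H.fre_not h))

theorem tor_hp {X : C} (h : Tor S Zf X) (h0 : ¬ IsZero X) : Hp 0 (Zf X) :=
  h.2 0 X 0 (𝟙 X) 0 (contractible_distinguished₁ X) (Tlt.hrt_zero (isZero_zero C)) h.1 h0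

theorem tor_zero {X : C} (h : IsZero X) : Tor S Zf X := by
  refine ⟨Tlt.hrt_zero h, fun K Q f g k hd hK hQ h0 => ?_⟩
  exfalso
  have h1 : g = 0 := h.eq_of_src _ _
  obtain ⟨c, hc⟩ := ex_y3 hd (𝟙 Q) (by rw [h1, zero_comp])
  apply h0
  rw [IsZero.iff_id_eq_zero, hc, hQ.2 _ (by simpa using hK.1.sh1 H.smc) c, comp_zero]

theorem tor_iso {X Y : C} (e : X ≅ Y) (h : Tor S Zf X) : Tor S Zf Y := by
  refine ⟨H.hrt_iso e h.1, fun K Q f g k hd hK hQ h0 => ?_⟩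
  exact h.2 K Q _ _ _ (dist_mid hd e.symm) hK hQ h0

theorem fre_iso {X Y : C} (e : X ≅ Y) (h : Fre S Zf X) : Fre S Zf Y :=
  ⟨H.hrt_iso e h.1, Ro_of_iso e h.2⟩

/-- a letter has only trivial quotients -/
theorem letter_q (i : ι) {K Q : C} {f : K ⟶ S i 0} {g : S i 0 ⟶ Q} {h : Q ⟶ K⟦(1 : ℤ)⟧}
    (hd : Triangle.mk f g h ∈ distTriang C) (hK : Hrt S K) (hQ : Hrt S Q) (h0 : ¬ IsZero Q) :
    IsZero K := by
  obtain ⟨mK, hmK, hK'⟩ := H.len_ex hK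
  obtain ⟨mQ, hmQ, hmQ'⟩ := H.len_ex hQ
  have e5 := hmQ'.resolve_left h0
  have e3 : (1 : ℂ) = mK + mQ := by
    rw [← H.len i, H.addl.add' hd, hmK, hmQ]
  have e4 : 1 = mK + mQ := by exact_mod_cast e3
  rcases hK' with h | h
  · exact h
  · omega

/-- letters whose central charge is in the half-plane are torsion objects -/
theorem tor_letter (i : ι) (h : Hp 0 (Zf (S i 0))) : Tor S Zf (S i 0) := by
  have h1 : Hrt S (S i 0) := ⟨Dw.letter i 0, Vw.letter H.smc (by norm_num) i⟩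
  refine ⟨h1, fun K Q f g k hd hK hQ h0 => ?_⟩
  have h2 := H.letter_q i hd hK hQ h0
  have hZ := H.add.add' hd
  rw [H.add.z_zero h2, zero_add] at hZ
  rwa [← hZ]

/-- the other letters are torsion-free -/
theorem fre_letter (i : ι) (h : ¬ Hp 0 (Zf (S i 0))) : Fre S Zf (S i 0) := by
  have h1 : Hrt S (S i 0) := ⟨Dw.letter i 0, Vw.letter H.smc (by norm_num) i⟩
  refine ⟨h1, fun T hT φ => ?_⟩
  by_contra hφ
  obtain ⟨K, I, Q, k, p, r, j, q, s, hd1, hd2, hK, hI, hQ, hI0⟩ := H.img hT.1 h1 φ hφ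
  by_cases hQ0 : IsZero Q
  · have : IsIso j := (Triangle.isZero₃_iff_isIso₁ _ hd2).1 hQ0
    have h3 : Hp 0 (Zf I) := hT.2 _ _ _ _ _ hd1 hK hI hI0
    rw [H.add.z_iso (asIso j)] at h3
    exact h h3
  · exact hI0 (H.letter_q i hd2 hI hQ hQ0)

theorem ua_of_dw {X : C} (h : Dw S 1 X) : Ua S Zf X :=
  ⟨X, 0, 𝟙 X, 0, 0, contractible_distinguished X, h, H.tor_zero (isZero_zero C)⟩

theorem ua_of_tor {X : C} (h : Tor S Zf X) : Ua S Zf X :=
  ⟨0, X, 0, 𝟙 X, 0, contractible_distinguished₁ X, Dw.of_zero (isZero_zero C), h⟩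

theorem ua_iso {X Y : C} (e : X ≅ Y) (h : Ua S Zf X) : Ua S Zf Y := by
  obtain ⟨A, T, f, g, k, hd, hA, hT⟩ := h
  exact ⟨A, T, _, _, _, dist_mid hd e, hA, hT⟩

theorem ua_dw {X : C} (h : Ua S Zf X) : Dw S 0 X := by
  obtain ⟨A, T, f, g, k, hd, hA, hT⟩ := h
  exact Dw.ext H.smc H.gen hd (hA.mono (by norm_num)) hT.1.1

theorem ua_sh {X : C} (h : Ua S Zf X) : Ua S Zf (X⟦(1 : ℤ)⟧) :=
  H.ua_of_dw (by simpa using (H.ua_dw h).sh1 H.smc)

theorem ro_ua {B : C} (h1 : Vw S 1 B) (h2 : Ro (Tor S Zf) B) : Ro (Ua S Zf) B := by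
  rintro X ⟨A, T, f, g, k, hd, hA, hT⟩ φ
  obtain ⟨c, hc⟩ := ex_y2 hd φ (h1 A hA _)
  rw [hc, h2 T hT c, comp_zero]

theorem ro_of_fre {B : C} (h : Fre S Zf B) : Ro (Ua S Zf) B := H.ro_ua h.1.2 h.2

theorem ro_of_vw {B : C} (h : Vw S 0 B) : Ro (Ua S Zf) B := fun _ hX => h _ (H.ua_dw hX)

theorem ro_ua_v {B : C} (h : Ro (Ua S Zf) B) : Vw S 1 B := fun X hX => h X (H.ua_of_dw hX)

theorem ro_ua_t {B : C} (h : Ro (Ua S Zf) B) : Ro (Tor S Zf) B := fun X hX =>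
  h X (H.ua_of_tor hX)

theorem split0 {X : C} (hX : Dw S 0 X) : ∃ (A F : C) (f : A ⟶ X) (g : X ⟶ F)
    (h : F ⟶ A⟦(1 : ℤ)⟧), Triangle.mk f g h ∈ distTriang C ∧ Ua S Zf A ∧ Fre S Zf F := by
  obtain ⟨A, B, f, g, h, hd, hA, hB⟩ := tr_ex H.smc H.gen 1 X
  have hB' : Hrt S B := ⟨Dw.third H.smc H.gen hd hX (hA.mono (by norm_num)), hB⟩
  obtain ⟨m, hm, -⟩ := H.len_ex hB'
  obtain ⟨T, F, a, b, c, hd', hT, hF⟩ := H.tors_ex m B hB' hm
  obtain ⟨Y, f', h', p, q, r, h1, h2, -⟩ := assocL hd hd'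
  exact ⟨Y, F, f', g ≫ b, h', h1, ⟨A, T, p, q, r, h2, hA, hT⟩, hF⟩

theorem ua_tr (X : C) : ∃ (A B : C) (f : A ⟶ X) (g : X ⟶ B)
    (h : B ⟶ A⟦(1 : ℤ)⟧), Triangle.mk f g h ∈ distTriang C ∧ Ua S Zf A ∧ Ro (Ua S Zf) B := by
  obtain ⟨A0, B0, f0, g0, h0, hd0, hA0, hB0⟩ := tr_ex H.smc H.gen 0 X
  obtain ⟨A, F, f, g, h, hd, hA, hF⟩ := H.split0 hA0
  obtain ⟨V, g', h', m₁, m₃, h1, h2, -⟩ := assocR hd hd0
  refine ⟨A, V, f ≫ f0, g', h', h1, hA, Ro_ext h2 (H.ro_ua hF.1.2 hF.2) ?_⟩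
  exact fun Y hY => hB0 Y (H.ua_dw hY)

theorem ua_ext {X Y V : C} {f : X ⟶ Y} {g : Y ⟶ V} {h : V ⟶ X⟦(1 : ℤ)⟧}
    (hT : Triangle.mk f g h ∈ distTriang C) (hX : Ua S Zf X) (hV : Ua S Zf V) : Ua S Zf Y := by
  obtain ⟨A, B, f', g', h', H', hA, hB⟩ := H.ua_tr Y
  refine aisle_orth (U := Ua S Zf) (fun e h => H.ua_iso e h) (fun h => H.ua_sh h) H' hA hB ?_
  intro B hB φ
  obtain ⟨c, hc⟩ := ex_y2 hT φ (hB X hX _)
  rw [hc, hB V hV c, comp_zero]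

/-- positivity on the tilted heart, and the objects without central charge -/
theorem ua_pos {X : C} (h : Ua S Zf X) (h' : Ro (Ua S Zf) (X⟦(-1 : ℤ)⟧)) :
    Hp 0 (Zf X) ∨ Zf X = 0 ∧ Fre S Zf (X⟦(-1 : ℤ)⟧) := by
  obtain ⟨A, T, f, g, k, hd, hA, hT⟩ := h
  have hX2 : Vw S 2 X := by
    have h1 : Vw S 1 (X⟦(-1 : ℤ)⟧) := H.ro_ua_v h'
    exact Ro_of_iso (shiftNegShift X (1 : ℤ)) (h1.sh1 H.smc)
  have hA2 : Vw S 2 A := Vw.first H.smc hd hX2 (hT.1.2.mono (by norm_num))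
  have hAh : Hrt S (A⟦(-1 : ℤ)⟧) := ⟨hA.shn H.smc, hA2.shn H.smc⟩
  have hd1 := Triangle.shift_distinguished _ hd (-1 : ℤ)
  obtain ⟨a, b, hd2⟩ := inv_rot_aux hd1
  have hAF : Fre S Zf (A⟦(-1 : ℤ)⟧) := by
    refine ⟨hAh, Ro_ext hd2 ?_ (H.ro_ua_t h')⟩
    intro Y hY φ
    have h2 : Vw S 0 (T⟦(-1 : ℤ)⟧⟦(-1 : ℤ)⟧) :=
      ((hT.1.2.shn H.smc).shn H.smc).mono (by norm_num)
    exact h2 Y hY.1.1 φ
  have hZ := H.add.add' hd
  have e1 := H.add.z_shn A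
  have h3 := H.fre_hp hAF
  rw [e1, neg_neg] at h3
  have h4 : Hp 0 (Zf T) ∨ Zf T = 0 := by
    by_cases hT0 : IsZero T
    · exact Or.inr (H.add.z_zero hT0)
    · exact Or.inl (H.tor_hp hT hT0)
  rcases hp_add0 h3 h4 with h5 | ⟨h5, h6⟩
  · left; rw [hZ]; exact h5
  · right
    refine ⟨by rw [hZ, h5, h6, add_zero], ?_⟩
    have hT0 : IsZero T := by
      by_contra hT0
      exact hp_ne (H.tor_hp hT hT0) h6
    have : IsIso f := (Triangle.isZero₃_iff_isIso₁ _ hd).1 hT0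
    exact H.fre_iso ((shiftFunctor C (-1 : ℤ)).mapIso (asIso f)) hAF

end Tl2

end Pool.Agent.Helper445_GMF
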