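import Pool.Agent.Helper445_GMF.ZInv
import Pool.Agent.Helper445_GMF.Trs

/-!
Additive functions on matrix factorizations given by the degrees of the generators.
-/

set_option autoImplicit false
set_option linter.unusedSectionVars false

open CategoryTheory Matrix Pretriangulated Limits MvPolynomial

namespace Pool.Agent.Helper445_GMF

variable {n : ℕ} {a : Fin n → ℕ} {d : ℕ} {W : MvPolynomial (Fin n) ℂ}
  {hW : IsWeightedHomogeneous a W d}

/-- the sum over the generators -/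
noncomputable def Psi (ψ : Gd d → ℂ) (E : MF (lg a d W hW)) : ℂ := ∑ i, ψ (E.g i)

/-- the diagonal matrix of the contributions of the generators -/
noncomputable def Gmp (ψ : Gd d → ℂ) {I : Type} [DecidableEq I] (g : I → Gd d) : Matrix I I ℂ :=
  Matrix.diagonal fun i => ψ (g i)

theorem Gmp_trace (ψ : Gd d → ℂ) (X : MF (lg a d W hW)) : (Gmp ψ X.g).trace = Psi ψ X := by
  unfold Gmp
  rw [Matrix.trace_diagonal]
  rfl

theorem Gmp_comm0 (ψ : Gd d → ℂ) (ha : ∀ i, 0 < a i) (hd : 0 < d) {I J : Type} [Fintype I]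
    [DecidableEq I] [Fintype J] [DecidableEq J] {g : I → Gd d} {h : J → Gd d}
    {f : Matrix J I (MvPolynomial (Fin n) ℂ)} (hf : f ∈ Hg (L := lg a d W hW) g h 0) :
    Gmp ψ h * f.map constantCoeff = f.map constantCoeff * Gmp ψ g := by
  ext i j
  unfold Gmp
  rw [Matrix.diagonal_mul, Matrix.mul_diagonal, Matrix.map_apply]
  by_cases h0 : constantCoeff (f i j) = 0
  · rw [h0]; simp
  · have h1 : h i - g j + 0 = 0 := by
      refine ((aug ha hd hW).h _ _ (hf i j) ?_).1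
      show aeval (0 : Fin n → ℂ) (f i j) ≠ 0
      rw [aeval_zero]
      exact h0
    have h2 : h i = g j := by
      rw [add_zero] at h1
      exact sub_eq_zero.1 h1
    rw [h2, mul_comm]

theorem Gmp_comm1 (ψ : Gd d → ℂ) (hψ : ∀ g, ψ (g + sig d) = - ψ g) (ha : ∀ i, 0 < a i)
    (hd : 0 < d) {I : Type} [Fintype I] [DecidableEq I] {g : I → Gd d}
    {f : Matrix I I (MvPolynomial (Fin n) ℂ)} (hf : f ∈ Hg (L := lg a d W hW) g g (sig d)) :
    Gmp ψ g * f.map constantCoeff = -(f.map constantCoeff * Gmp ψ g) := by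
  ext i j
  unfold Gmp
  rw [Matrix.neg_apply, Matrix.diagonal_mul, Matrix.mul_diagonal, Matrix.map_apply]
  by_cases h0 : constantCoeff (f i j) = 0
  · rw [h0]; simp
  · have h1 : g i - g j + sig d = 0 := by
      refine ((aug ha hd hW).h _ _ (hf i j) ?_).1
      show aeval (0 : Fin n → ℂ) (f i j) ≠ 0
      rw [aeval_zero]
      exact h0
    have h2 : g j = g i + sig d := by
      rw [← sub_eq_zero, ← neg_eq_zero, ← h1]
      abel
    rw [h2, hψ]
    ring

theorem Psi_aux (ψ : Gd d → ℂ) (hψ : ∀ g, ψ (g + sig d) = - ψ g) (ha : ∀ i, 0 < a i)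
    (hd : 0 < d) {X Y : MF (lg a d W hW)}
    {f : Matrix Y.I X.I (MvPolynomial (Fin n) ℂ)} {f' : Matrix X.I Y.I (MvPolynomial (Fin n) ℂ)}
    (h : f' * f - 1 ∈ N X X) :
    Psi ψ X = (Gmp ψ X.g * (f'.map constantCoeff * f.map constantCoeff)).trace := by
  obtain ⟨s, hs, es⟩ := h
  have e1 : f'.map constantCoeff * f.map constantCoeff = 1 + (X.D.map constantCoeff *
      s.map constantCoeff + s.map constantCoeff * X.D.map constantCoeff) := by
    have e2 : f' * f = 1 + (X.D * s + s * X.D) := by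
      rw [← es]; abel
    have e3 := congrArg (fun M : Matrix X.I X.I (MvPolynomial (Fin n) ℂ) =>
      M.map (constantCoeff : MvPolynomial (Fin n) ℂ →+* ℂ)) e2
    simp only at e3
    rw [Matrix.map_mul, Matrix.map_add _ (fun a b => map_add _ a b),
      Matrix.map_add _ (fun a b => map_add _ a b), Matrix.map_mul, Matrix.map_mul,
      Matrix.map_one _ (map_zero _) (map_one _)] at e3
    exact e3
  have e4 := Gmp_comm1 ψ hψ ha hd (hW := hW) X.hD'
  rw [e1, Matrix.mul_add, Matrix.mul_one, Matrix.trace_add, Gmp_trace, Matrix.mul_add,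
    Matrix.trace_add, ← Matrix.mul_assoc, e4, ← Matrix.mul_assoc,
    Matrix.trace_mul_comm (Gmp ψ X.g * s.map constantCoeff), Matrix.neg_mul, Matrix.trace_neg,
    Matrix.mul_assoc]
  ring

theorem Psi_iso (ψ : Gd d → ℂ) (hψ : ∀ g, ψ (g + sig d) = - ψ g) (ha : ∀ i, 0 < a i)
    (hd : 0 < d) {X Y : MF (lg a d W hW)} (e : X ≅ Y) :
    Psi ψ X = Psi ψ Y := by
  obtain ⟨f, hf, f', hf', h, h'⟩ := heq_iff.2 ⟨e⟩
  rw [Psi_aux ψ hψ ha hd h, Psi_aux ψ hψ ha hd h']
  have e4 := Gmp_comm0 ψ ha hd (hW := hW) hf.1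
  rw [← Matrix.mul_assoc, ← Matrix.mul_assoc, e4, Matrix.mul_assoc (f.map constantCoeff),
    Matrix.trace_mul_comm (f.map constantCoeff)]

theorem Psi_cone (ψ : Gd d → ℂ) (hψ : ∀ g, ψ (g + sig d) = - ψ g) {X Y : MF (lg a d W hW)}
    (f : Matrix Y.I X.I (MvPolynomial (Fin n) ℂ)) (hf : f ∈ Z X Y) :
    Psi ψ (cone f hf) = Psi ψ Y - Psi ψ X := by
  have h2 : Psi ψ (cone f hf) = ∑ i : Y.I ⊕ X.I, ψ (Sum.elim Y.g (X.sh 1).g i) := rfl
  rw [h2, Fintype.sum_sum_type, sub_eq_add_neg]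
  congr 1
  have h3 : Psi ψ X = ∑ i, ψ (X.g i) := rfl
  rw [h3, ← Finset.sum_neg_distrib]
  refine Finset.sum_congr rfl fun i _ => ?_
  show ψ (X.g i + (1 : ℤ) • sig d) = _
  rw [one_smul, hψ]

theorem Psi_add (ψ : Gd d → ℂ) (hψ : ∀ g, ψ (g + sig d) = - ψ g) (ha : ∀ i, 0 < a i)
    (hd : 0 < d) : Adf (Psi ψ : MF (lg a d W hW) → ℂ) := by
  intro T hT
  obtain ⟨X, Y, f, hf, ⟨e⟩⟩ := hT
  have h1 : Psi ψ T.obj₁ = Psi ψ X := Psi_iso ψ hψ ha hd (Triangle.π₁.mapIso e)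
  have h2 : Psi ψ T.obj₂ = Psi ψ Y := Psi_iso ψ hψ ha hd (Triangle.π₂.mapIso e)
  have h3 : Psi ψ T.obj₃ = Psi ψ (cone f hf) := Psi_iso ψ hψ ha hd (Triangle.π₃.mapIso e)
  rw [h1, h2, h3, Psi_cone ψ hψ]
  ring

end Pool.Agent.Helper445_GMF
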