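import Pool.Agent.Helper445_GMF.Def

/-!
Graded matrix factorizations over a graded ring, and their homotopy category.
-/

set_option autoImplicit false

open CategoryTheory Matrix

namespace Pool.Agent.Helper445_GMF

variable {L : LG}

theorem Hg_add {I J : Type} {g : I → L.G} {h : J → L.G} {c : L.G} {a b : Matrix J I L.A}
    (ha : a ∈ Hg g h c) (hb : b ∈ Hg g h c) : a + b ∈ Hg g h c :=
  fun i j => Submodule.add_mem _ (ha i j) (hb i j)

theorem Hg_zero {I J : Type} {g : I → L.G} {h : J → L.G} {c : L.G} :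
    (0 : Matrix J I L.A) ∈ Hg g h c := fun _ _ => Submodule.zero_mem _

theorem Hg_neg {I J : Type} {g : I → L.G} {h : J → L.G} {c : L.G} {a : Matrix J I L.A}
    (ha : a ∈ Hg g h c) : -a ∈ Hg g h c := fun i j => Submodule.neg_mem _ (ha i j)

theorem Hg_csmul {I J : Type} {g : I → L.G} {h : J → L.G} {c : L.G} {a : Matrix J I L.A} (z : ℂ)
    (ha : a ∈ Hg g h c) : z • a ∈ Hg g h c := fun i j => Submodule.smul_mem _ z (ha i j)

theorem Hg_mul {I J K : Type} [Fintype J] {g : I → L.G} {h : J → L.G} {k : K → L.G} {a b c : L.G}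
    {f : Matrix J I L.A} {f' : Matrix K J L.A} (hf' : f' ∈ Hg h k b) (hf : f ∈ Hg g h a)
    (e : b + a = c) : f' * f ∈ Hg g k c := by
  intro i j
  rw [Matrix.mul_apply]
  refine Submodule.sum_mem _ (fun x _ => ?_)
  refine LG.mem_of_eq (SetLike.mul_mem_graded (hf' i x) (hf x j)) ?_
  rw [← e]; abel

theorem Hg_one {I : Type} [DecidableEq I] (g : I → L.G) : (1 : Matrix I I L.A) ∈ Hg g g 0 := by
  intro i j
  by_cases h : i = j
  · subst h
    rw [Matrix.one_apply_eq, sub_self, add_zero]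
    exact SetLike.one_mem_graded _
  · rw [Matrix.one_apply_ne h]
    exact Submodule.zero_mem _

theorem Hg_smul {I J : Type} {g : I → L.G} {h : J → L.G} {a b c : L.G} {f : Matrix J I L.A}
    {x : L.A} (hx : L.mem b x) (hf : f ∈ Hg g h a) (e : b + a = c) : x • f ∈ Hg g h c := by
  intro i j
  refine LG.mem_of_eq (SetLike.mul_mem_graded hx (hf i j)) ?_
  rw [← e]; abel

theorem Hg_eq {I J : Type} {g g' : I → L.G} {h h' : J → L.G} {a b : L.G} {f : Matrix J I L.A}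
    (hf : f ∈ Hg g h a) (e : ∀ i j, h i - g j + a = h' i - g' j + b) : f ∈ Hg g' h' b :=
  fun i j => LG.mem_of_eq (hf i j) (e i j)

theorem MF.hD' (X : MF L) : X.D ∈ Hg X.g X.g L.ς := X.hD

theorem mem_Z {X Y : MF L} {f : Matrix Y.I X.I L.A} :
    f ∈ Z X Y ↔ f ∈ Hg X.g Y.g 0 ∧ Y.D * f = f * X.D := Iff.rfl

theorem mem_N {X Y : MF L} {f : Matrix Y.I X.I L.A} :
    f ∈ N X Y ↔ ∃ s ∈ Hg X.g Y.g (-L.ς), f = Y.D * s + s * X.D := Iff.rfl

section

variable {X Y : MF L} {f f' : Matrix Y.I X.I L.A}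

theorem Z_add (hf : f ∈ Z X Y) (hf' : f' ∈ Z X Y) : f + f' ∈ Z X Y :=
  ⟨Hg_add hf.1 hf'.1, by rw [Matrix.mul_add, Matrix.add_mul, hf.2, hf'.2]⟩

theorem Z_zero : 0 ∈ Z X Y := ⟨Hg_zero, by simp⟩

theorem Z_neg (hf : f ∈ Z X Y) : -f ∈ Z X Y :=
  ⟨Hg_neg hf.1, by rw [Matrix.mul_neg, Matrix.neg_mul, hf.2]⟩

theorem Z_csmul (z : ℂ) (hf : f ∈ Z X Y) : z • f ∈ Z X Y :=
  ⟨Hg_csmul z hf.1, by rw [Matrix.mul_smul, Matrix.smul_mul, hf.2]⟩

theorem Z_sub (hf : f ∈ Z X Y) (hf' : f' ∈ Z X Y) : f - f' ∈ Z X Y := by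
  rw [sub_eq_add_neg]; exact Z_add hf (Z_neg hf')

theorem N_add (hf : f ∈ N X Y) (hf' : f' ∈ N X Y) : f + f' ∈ N X Y := by
  obtain ⟨s, hs, rfl⟩ := hf
  obtain ⟨t, ht, rfl⟩ := hf'
  exact ⟨s + t, Hg_add hs ht, by rw [Matrix.mul_add, Matrix.add_mul]; abel⟩

theorem N_zero : 0 ∈ N X Y := ⟨0, Hg_zero, by simp⟩

theorem N_csmul (z : ℂ) (hf : f ∈ N X Y) : z • f ∈ N X Y := by
  obtain ⟨s, hs, rfl⟩ := hf
  exact ⟨z • s, Hg_csmul z hs, by rw [Matrix.mul_smul, Matrix.smul_mul, smul_add]⟩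

theorem N_neg (hf : f ∈ N X Y) : -f ∈ N X Y := by
  have := N_csmul (-1) hf
  rwa [neg_smul, one_smul] at this

end

theorem N_le_Z (X Y : MF L) : N X Y ⊆ Z X Y := by
  rintro f ⟨s, hs, rfl⟩
  refine ⟨Hg_add (Hg_mul Y.hD' hs (by abel)) (Hg_mul hs X.hD' (by abel)), ?_⟩
  rw [Matrix.mul_add, Matrix.add_mul, ← Matrix.mul_assoc, Y.sq, Matrix.mul_assoc s, X.sq,
    Matrix.mul_assoc]
  simp only [Matrix.smul_mul, Matrix.one_mul, Matrix.mul_smul, Matrix.mul_one]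
  rw [add_comm]

theorem Z_mul {X Y V : MF L} {f : Matrix Y.I X.I L.A} {f' : Matrix V.I Y.I L.A}
    (hf' : f' ∈ Z Y V) (hf : f ∈ Z X Y) : f' * f ∈ Z X V :=
  ⟨Hg_mul hf'.1 hf.1 (by abel), by rw [← Matrix.mul_assoc, hf'.2, Matrix.mul_assoc, hf.2,
    Matrix.mul_assoc]⟩

theorem Z_one (X : MF L) : (1 : Matrix X.I X.I L.A) ∈ Z X X := ⟨Hg_one _, by simp⟩

theorem N_mul_left {X Y V : MF L} {f : Matrix Y.I X.I L.A} {f' : Matrix V.I Y.I L.A}
    (hf' : f' ∈ Z Y V) (hf : f ∈ N X Y) : f' * f ∈ N X V := by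
  obtain ⟨s, hs, rfl⟩ := hf
  exact ⟨f' * s, Hg_mul hf'.1 hs (by abel), by
    rw [Matrix.mul_add, ← Matrix.mul_assoc, ← hf'.2, Matrix.mul_assoc, Matrix.mul_assoc]⟩

theorem N_mul_right {X Y V : MF L} {f : Matrix Y.I X.I L.A} {f' : Matrix V.I Y.I L.A}
    (hf' : f' ∈ N Y V) (hf : f ∈ Z X Y) : f' * f ∈ N X V := by
  obtain ⟨s, hs, rfl⟩ := hf'
  exact ⟨s * f, Hg_mul hs hf.1 (by abel), by
    rw [Matrix.add_mul, Matrix.mul_assoc, Matrix.mul_assoc, hf.2, Matrix.mul_assoc]⟩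

/-- homotopy of closed morphisms -/
def stZ (X Y : MF L) : Setoid {f : Matrix Y.I X.I L.A // f ∈ Z X Y} where
  r f f' := f.1 - f'.1 ∈ N X Y
  iseqv :=
    { refl := fun f => by rw [sub_self]; exact N_zero
      symm := fun {f f'} h => by
        have := N_neg h
        rwa [neg_sub] at this
      trans := fun {f f' f''} h h' => by
        have := N_add h h'
        rwa [sub_add_sub_cancel] at this }

/-- morphisms of the homotopy category -/
def Hom (X Y : MF L) : Type := Quotient (stZ X Y)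

/-- the class of a closed morphism -/
def cl {X Y : MF L} (f : Matrix Y.I X.I L.A) (hf : f ∈ Z X Y) : Hom X Y :=
  Quotient.mk (stZ X Y) ⟨f, hf⟩

theorem cl_surj {X Y : MF L} (φ : Hom X Y) : ∃ f, ∃ hf : f ∈ Z X Y, φ = cl f hf := by
  obtain ⟨⟨f, hf⟩, rfl⟩ := Quotient.exists_rep φ
  exact ⟨f, hf, rfl⟩

theorem cl_eq_iff {X Y : MF L} {f f' : Matrix Y.I X.I L.A} {hf : f ∈ Z X Y} {hf' : f' ∈ Z X Y} :
    cl f hf = cl f' hf' ↔ f - f' ∈ N X Y :=
  Quotient.eq (r := stZ X Y) (x := ⟨f, hf⟩) (y := ⟨f', hf'⟩)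

theorem cl_congr {X Y : MF L} {f f' : Matrix Y.I X.I L.A} {hf : f ∈ Z X Y} {hf' : f' ∈ Z X Y}
    (e : f = f') : cl f hf = cl f' hf' := by subst e; rfl

/-- the sum of two classes -/
def hadd {X Y : MF L} (φ ψ : Hom X Y) : Hom X Y :=
  Quotient.liftOn₂ φ ψ (fun f f' => cl (f.1 + f'.1) (Z_add f.2 f'.2)) (by
    intro a b a' b' h h'
    rw [cl_eq_iff, add_sub_add_comm]
    exact N_add h h')

/-- the opposite of a class -/
def hneg {X Y : MF L} (φ : Hom X Y) : Hom X Y :=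
  Quotient.liftOn φ (fun f => cl (-f.1) (Z_neg f.2)) (by
    intro a a' h
    rw [cl_eq_iff]
    have e : -a.1 - -a'.1 = -(a.1 - a'.1) := by abel
    rw [e]
    exact N_neg h)

/-- the product of a class by a scalar -/
def hsmul {X Y : MF L} (c : ℂ) (φ : Hom X Y) : Hom X Y :=
  Quotient.liftOn φ (fun f => cl (c • f.1) (Z_csmul c f.2)) (by
    intro a a' h
    rw [cl_eq_iff, ← smul_sub]
    exact N_csmul c h)

instance (X Y : MF L) : Add (Hom X Y) := ⟨hadd⟩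

instance (X Y : MF L) : Zero (Hom X Y) := ⟨cl 0 Z_zero⟩

instance (X Y : MF L) : Neg (Hom X Y) := ⟨hneg⟩

instance (X Y : MF L) : AddCommGroup (Hom X Y) where
  nsmul := nsmulRec
  zsmul := zsmulRec
  add_assoc φ ψ χ := by
    obtain ⟨f, hf, rfl⟩ := cl_surj φ
    obtain ⟨f', hf', rfl⟩ := cl_surj ψ
    obtain ⟨f'', hf'', rfl⟩ := cl_surj χ
    exact cl_congr (add_assoc _ _ _)
  zero_add φ := by
    obtain ⟨f, hf, rfl⟩ := cl_surj φ
    exact cl_congr (zero_add _)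
  add_zero φ := by
    obtain ⟨f, hf, rfl⟩ := cl_surj φ
    exact cl_congr (add_zero _)
  neg_add_cancel φ := by
    obtain ⟨f, hf, rfl⟩ := cl_surj φ
    exact cl_congr (neg_add_cancel _)
  add_comm φ ψ := by
    obtain ⟨f, hf, rfl⟩ := cl_surj φ
    obtain ⟨f', hf', rfl⟩ := cl_surj ψ
    exact cl_congr (add_comm _ _)

instance (X Y : MF L) : Module ℂ (Hom X Y) where
  smul := hsmul
  one_smul φ := by
    obtain ⟨f, hf, rfl⟩ := cl_surj φ
    exact cl_congr (one_smul _ _)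
  mul_smul a b φ := by
    obtain ⟨f, hf, rfl⟩ := cl_surj φ
    exact cl_congr (mul_smul _ _ _)
  smul_zero a := cl_congr (smul_zero _)
  smul_add a φ ψ := by
    obtain ⟨f, hf, rfl⟩ := cl_surj φ
    obtain ⟨f', hf', rfl⟩ := cl_surj ψ
    exact cl_congr (smul_add _ _ _)
  add_smul a b φ := by
    obtain ⟨f, hf, rfl⟩ := cl_surj φ
    exact cl_congr (add_smul _ _ _)
  zero_smul φ := by
    obtain ⟨f, hf, rfl⟩ := cl_surj φ
    exact cl_congr (zero_smul _ _)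

theorem cl_add {X Y : MF L} {f f' : Matrix Y.I X.I L.A} (hf : f ∈ Z X Y) (hf' : f' ∈ Z X Y) :
    cl f hf + cl f' hf' = cl (f + f') (Z_add hf hf') := rfl

theorem cl_neg {X Y : MF L} {f : Matrix Y.I X.I L.A} (hf : f ∈ Z X Y) :
    - cl f hf = cl (-f) (Z_neg hf) := rfl

theorem cl_sub {X Y : MF L} {f f' : Matrix Y.I X.I L.A} (hf : f ∈ Z X Y) (hf' : f' ∈ Z X Y) :
    cl f hf - cl f' hf' = cl (f - f') (Z_sub hf hf') := by
  rw [sub_eq_add_neg, cl_neg, cl_add]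
  exact cl_congr (sub_eq_add_neg _ _).symm

theorem cl_smul {X Y : MF L} (c : ℂ) {f : Matrix Y.I X.I L.A} (hf : f ∈ Z X Y) :
    c • cl f hf = cl (c • f) (Z_csmul c hf) := rfl

theorem cl_zero {X Y : MF L} : (0 : Hom X Y) = cl 0 Z_zero := rfl

theorem cl_eq_zero_iff {X Y : MF L} {f : Matrix Y.I X.I L.A} {hf : f ∈ Z X Y} :
    cl f hf = 0 ↔ f ∈ N X Y := by
  rw [cl_zero, cl_eq_iff, sub_zero]

/-- composition -/
def comp {X Y V : MF L} (φ : Hom X Y) (ψ : Hom Y V) : Hom X V :=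
  Quotient.liftOn₂ φ ψ (fun f f' => cl (f'.1 * f.1) (Z_mul f'.2 f.2)) (by
    intro a₁ b₁ a₂ b₂ ha hb
    rw [cl_eq_iff]
    have : (b₁ : Matrix V.I Y.I L.A) * a₁.1 - b₂.1 * a₂.1 =
        b₁.1 * (a₁.1 - a₂.1) + (b₁.1 - b₂.1) * a₂.1 := by
      rw [Matrix.mul_sub, Matrix.sub_mul]; abel
    rw [this]
    exact N_add (N_mul_left b₁.2 ha) (N_mul_right hb a₂.2))

/-- The homotopy category of graded matrix factorizations: the objects are the graded matrix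
factorizations, the morphisms are the homotopy classes of closed morphisms of degree zero. -/
instance : Category.{0} (MF L) where
  Hom X Y := Hom X Y
  id X := cl (X := X) (Y := X) 1 (Z_one _)
  comp φ ψ := comp φ ψ
  id_comp φ := by
    obtain ⟨f, hf, rfl⟩ := cl_surj φ
    exact cl_congr (Matrix.mul_one _)
  comp_id φ := by
    obtain ⟨f, hf, rfl⟩ := cl_surj φ
    exact cl_congr (Matrix.one_mul _)
  assoc φ ψ χ := by
    obtain ⟨f, hf, rfl⟩ := cl_surj φ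
    obtain ⟨f', hf', rfl⟩ := cl_surj ψ
    obtain ⟨f'', hf'', rfl⟩ := cl_surj χ
    exact cl_congr (Matrix.mul_assoc _ _ _).symm

instance (X Y : MF L) : AddCommGroup (X ⟶ Y) :=
  inferInstanceAs (AddCommGroup (Hom X Y))

instance (X Y : MF L) : Module ℂ (X ⟶ Y) :=
  inferInstanceAs (Module ℂ (Hom X Y))

/-- the morphism of a closed matrix -/
def hm {X Y : MF L} (f : Matrix Y.I X.I L.A) (hf : f ∈ Z X Y) : X ⟶ Y := cl f hf

section

variable {X Y V : MF L}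

theorem hm_surj (φ : X ⟶ Y) : ∃ f, ∃ hf : f ∈ Z X Y, φ = hm f hf := cl_surj φ

theorem hm_eq_iff {f f' : Matrix Y.I X.I L.A} {hf : f ∈ Z X Y}
    {hf' : f' ∈ Z X Y} : hm f hf = hm f' hf' ↔ f - f' ∈ N X Y := cl_eq_iff

theorem hm_congr {f f' : Matrix Y.I X.I L.A} {hf : f ∈ Z X Y}
    {hf' : f' ∈ Z X Y} (e : f = f') : hm f hf = hm f' hf' := cl_congr e

theorem hm_add {f f' : Matrix Y.I X.I L.A} (hf : f ∈ Z X Y)
    (hf' : f' ∈ Z X Y) : hm f hf + hm f' hf' = hm (f + f') (Z_add hf hf') := rfl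

theorem hm_neg {f : Matrix Y.I X.I L.A} (hf : f ∈ Z X Y) :
    - hm f hf = hm (-f) (Z_neg hf) := rfl

theorem hm_sub {f f' : Matrix Y.I X.I L.A} (hf : f ∈ Z X Y)
    (hf' : f' ∈ Z X Y) : hm f hf - hm f' hf' = hm (f - f') (Z_sub hf hf') := cl_sub hf hf'

theorem hm_smul (c : ℂ) {f : Matrix Y.I X.I L.A} (hf : f ∈ Z X Y) :
    c • hm f hf = hm (c • f) (Z_csmul c hf) := rfl

theorem hm_zero : (0 : X ⟶ Y) = hm 0 Z_zero := rfl

theorem hm_eq_zero_iff {f : Matrix Y.I X.I L.A} {hf : f ∈ Z X Y} :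
    hm f hf = 0 ↔ f ∈ N X Y := cl_eq_zero_iff

theorem hm_id : 𝟙 X = hm 1 (Z_one _) := rfl

theorem hm_comp {f : Matrix Y.I X.I L.A} {f' : Matrix V.I Y.I L.A}
    (hf : f ∈ Z X Y) (hf' : f' ∈ Z Y V) :
    hm f hf ≫ hm f' hf' = hm (f' * f) (Z_mul hf' hf) := rfl

end

instance : Preadditive (MF L) where
  homGroup X Y := inferInstance
  add_comp X Y V φ φ' ψ := by
    obtain ⟨f, hf, rfl⟩ := hm_surj φ
    obtain ⟨f', hf', rfl⟩ := hm_surj φ'
    obtain ⟨f'', hf'', rfl⟩ := hm_surj ψ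
    exact hm_congr (Matrix.mul_add _ _ _)
  comp_add X Y V φ ψ ψ' := by
    obtain ⟨f, hf, rfl⟩ := hm_surj φ
    obtain ⟨f', hf', rfl⟩ := hm_surj ψ
    obtain ⟨f'', hf'', rfl⟩ := hm_surj ψ'
    exact hm_congr (Matrix.add_mul _ _ _)

instance : Linear ℂ (MF L) where
  homModule X Y := inferInstance
  smul_comp X Y V c φ ψ := by
    obtain ⟨f, hf, rfl⟩ := hm_surj φ
    obtain ⟨f', hf', rfl⟩ := hm_surj ψ
    exact hm_congr (Matrix.mul_smul _ _ _)
  comp_smul X Y V φ c ψ := by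
    obtain ⟨f, hf, rfl⟩ := hm_surj φ
    obtain ⟨f', hf', rfl⟩ := hm_surj ψ
    exact hm_congr (Matrix.smul_mul _ _ _)

/-- the zero object -/
def zeroMF (L : LG) : MF L where
  I := Empty
  g := fun x => x.elim
  D := 0
  hD := fun x => x.elim
  sq := by ext x; exact x.elim

instance : Limits.HasZeroObject (MF L) :=
  ⟨zeroMF L, by
    rw [Limits.IsZero.iff_id_eq_zero]
    rw [hm_id, hm_zero]
    exact hm_congr (by ext x; exact x.elim)⟩

/-- isomorphisms of the homotopy category from homotopy equivalences -/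
noncomputable def isoOf {X Y : MF L} (f : Matrix Y.I X.I L.A) (f' : Matrix X.I Y.I L.A)
    (hf : f ∈ Z X Y) (hf' : f' ∈ Z Y X) (h : f' * f - 1 ∈ N X X)
    (h' : f * f' - 1 ∈ N Y Y) : X ≅ Y where
  hom := hm f hf
  inv := hm f' hf'
  hom_inv_id := hm_eq_iff.2 h
  inv_hom_id := hm_eq_iff.2 h'

/-- isomorphisms of the homotopy category from isomorphisms -/
noncomputable def isoOf' {X Y : MF L} (f : Matrix Y.I X.I L.A)
    (f' : Matrix X.I Y.I L.A)
    (hf : f ∈ Z X Y) (hf' : f' ∈ Z Y X) (h : f' * f = 1) (h' : f * f' = 1) : X ≅ Y where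
  hom := hm f hf
  inv := hm f' hf'
  hom_inv_id := hm_congr h
  inv_hom_id := hm_congr h'

end Pool.Agent.Helper445_GMF
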