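import Pool.Agent.Helper445_GMF.Surj

/-!
Bounds for the total dimension of the morphism spaces.
-/

set_option autoImplicit false
set_option linter.unusedSectionVars false

open CategoryTheory Matrix Pretriangulated Limits MvPolynomial Cardinal

namespace Pool.Agent.Helper445_GMF

section lin

universe v

variable {V U B C : Type v} [AddCommGroup V] [Module ℂ V] [AddCommGroup U] [Module ℂ U]
  [AddCommGroup B] [Module ℂ B] [AddCommGroup C] [Module ℂ C]

theorem rank_step (μ : V →ₗ[ℂ] U) (α : B →ₗ[ℂ] V) (β : V →ₗ[ℂ] C)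
    (h : ∀ x, β x = 0 → ∃ y, α y = x) :
    Module.rank ℂ (LinearMap.range μ) ≤
      Module.rank ℂ (LinearMap.range (μ.comp α)) + Module.rank ℂ C := by
  obtain ⟨K', hK'⟩ := Submodule.exists_isCompl (LinearMap.ker β)
  have h1 : LinearMap.range μ ≤ LinearMap.range (μ.comp α) ⊔ Submodule.map μ K' := by
    rintro _ ⟨v, rfl⟩
    have hv : v ∈ LinearMap.ker β ⊔ K' := by rw [hK'.sup_eq_top]; trivial
    obtain ⟨y, hy, z, hz, rfl⟩ := Submodule.mem_sup.1 hv
    obtain ⟨w, rfl⟩ := h y (LinearMap.mem_ker.1 hy)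
    rw [map_add]
    exact Submodule.add_mem_sup ⟨w, rfl⟩ ⟨z, hz, rfl⟩
  have h2 : Module.rank ℂ K' ≤ Module.rank ℂ C := by
    refine LinearMap.rank_le_of_injective (β.comp K'.subtype) ?_
    rw [injective_iff_map_eq_zero]
    intro x hx
    have h3 : (x : V) ∈ LinearMap.ker β ⊓ K' := ⟨hx, x.2⟩
    rw [hK'.inf_eq_bot] at h3
    exact Subtype.ext h3
  refine (Submodule.rank_mono h1).trans ((Submodule.rank_add_le_rank_add_rank _ _).trans ?_)
  exact add_le_add le_rfl ((rank_map_le μ K').trans h2)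

end lin

variable {L : LG}

theorem rank_iso (E : MF L) {X Y : MF L} (e : X ≅ Y) :
    Module.rank ℂ (E ⟶ X) = Module.rank ℂ (E ⟶ Y) := by
  have key : ∀ {X Y : MF L} (e : X ≅ Y), Module.rank ℂ (E ⟶ X) ≤ Module.rank ℂ (E ⟶ Y) := by
    intro X Y e
    refine LinearMap.rank_le_of_injective (Linear.rightComp ℂ E e.hom) ?_
    intro x y hxy
    exact (cancel_mono e.hom).1 hxy
  exact le_antisymm (key e) (key e.symm)

/-- the sum of the dimensions of the spaces of morphisms from `E` to the twists of `T` is at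
most `B` -/
def Bd (E T : MF L) (B : ℕ) : Prop :=
  ∀ S : Finset L.G, ∑ γ ∈ S, Module.rank ℂ (E ⟶ T.ts γ 1 (one_mul 1)) ≤ (B : Cardinal)

theorem Bd.iso {E : MF L} {X Y : MF L} (e : X ≅ Y) {B : ℕ} (h : Bd E Y B) : Bd E X B := by
  intro S
  refine le_trans (le_of_eq (Finset.sum_congr rfl fun γ _ => ?_)) (h S)
  exact rank_iso E ((tsF γ 1 (one_mul 1)).mapIso e)

section pure

variable {A : Type} [CommRing A] [Algebra ℂ A] {I J : Type} [Fintype I] [DecidableEq I]
  [Fintype J] [DecidableEq J]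

theorem pu_ex (D : Matrix I I A) (F : Matrix J J A) (x : A) (f s1 s2 : Matrix I J A)
    (h : (fromRows 1 0 : Matrix (I ⊕ I) I A) * f =
      ((1 : ℂ) • fromBlocks D (x • (1 : Matrix I I A)) 0 (sgn 1 • ((1 : ℂ) • D))) *
        (fromRows s1 s2) + (fromRows s1 s2) * F) :
    f = D * s1 + x • s2 + s1 * F ∧ D * s2 = s2 * F := by
  rw [one_smul, one_smul, fromBlocks_mul_fromRows, fromRows_mul, fromRows_mul, rows_add,
    Matrix.one_mul, sgn_one] at h
  have h1 := fromRows_inj h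
  refine ⟨?_, ?_⟩
  · rw [h1.1]; simp
  · have h2 := h1.2
    simp only [Matrix.zero_mul, zero_add, Matrix.neg_mul, neg_smul, one_smul] at h2
    have h3 : 0 = -(D * s2) + s2 * F := h2
    rw [← sub_eq_zero]
    have : D * s2 - s2 * F = -(-(D * s2) + s2 * F) := by abel
    rw [this, ← h3, neg_zero]

end pure

section step

variable {T : MF L} {x : L.A} {b : L.G} (hx : x ∈ L.pc b)

include hx in
theorem xpow_mem (k : ℕ) : x ^ k ∈ L.pc (k • b) := SetLike.pow_mem_graded k hx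

theorem tz_Z (γ : L.G) {y : L.A} {c γ' : L.G} (hy : y ∈ L.pc c) (h : γ' + c = γ) :
    y • (1 : Matrix T.I T.I L.A) ∈ Z (T.ts γ' 1 (one_mul 1)) (T.ts γ 1 (one_mul 1)) :=
  ⟨Hg_eq (Hg_x T.g hy) (fun i j => by
    show T.g i - T.g j + c = T.g i + γ - (T.g j + γ') + 0
    rw [← h]; abel), by
    show ((1 : ℂ) • T.D) * (y • 1) = (y • 1) * ((1 : ℂ) • T.D)
    rw [one_smul, Matrix.mul_smul, Matrix.smul_mul, Matrix.mul_one, Matrix.one_mul]⟩

/-- exactness, for the multiplication by an element -/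
theorem exact_mul (E : MF L) (γ : L.G) (φ : E ⟶ T.ts γ 1 (one_mul 1))
    (h : φ ≫ (tsF γ 1 (one_mul 1)).map (cin (X := T.ts (-b) 1 (one_mul 1)) (Y := T) (x • 1)
      (twist_Z T hx)) = 0) {γ' : L.G} (hγ : γ' + b = γ) :
    ∃ ψ : E ⟶ T.ts γ' 1 (one_mul 1), ψ ≫ hm _ (tz_Z γ hx hγ) = φ := by
  obtain ⟨f, hf, rfl⟩ := hm_surj φ
  obtain ⟨s, hs, es⟩ := hm_eq_zero_iff.1 h
  obtain ⟨s1, s2, rfl⟩ : ∃ s1 s2 : Matrix T.I E.I L.A, s = fromRows s1 s2 :=
    ⟨_, _, (fromRows_toRows s).symm⟩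
  obtain ⟨e1, e2⟩ := pu_ex T.D E.D x f s1 s2 es
  have h2 : s2 ∈ Hg E.g (T.ts γ' 1 (one_mul 1)).g 0 := by
    intro i j
    refine LG.mem_of_eq (hs (Sum.inr i) j) ?_
    show T.g i + -b + (1 : ℤ) • L.ς + γ - E.g j + -L.ς = T.g i + γ' - E.g j + 0
    rw [← hγ, one_smul]; abel
  have h1 : s1 ∈ Hg E.g (T.ts γ 1 (one_mul 1)).g (-L.ς) := fun i j => hs (Sum.inl i) j
  refine ⟨hm s2 ⟨h2, ?_⟩, ?_⟩
  · show ((1 : ℂ) • T.D) * s2 = s2 * E.D
    rw [one_smul, e2]
  · refine hm_eq_iff.2 ⟨-s1, Hg_neg h1, ?_⟩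
    show (x • (1 : Matrix T.I T.I L.A)) * s2 - f = ((1 : ℂ) • T.D) * (-s1) + (-s1) * E.D
    rw [e1, one_smul, Matrix.smul_mul, Matrix.one_mul, Matrix.mul_neg, Matrix.neg_mul]
    abel

theorem rank_pow (E : MF L) (γ : L.G) (k : ℕ) :
    Module.rank ℂ (LinearMap.range (Linear.rightComp ℂ E
        (hm _ (tz_Z (T := T) γ (xpow_mem hx k) (sub_add_cancel γ (k • b)))))) ≤
      Module.rank ℂ (LinearMap.range (Linear.rightComp ℂ E
        (hm _ (tz_Z (T := T) γ (xpow_mem hx (k + 1)) (sub_add_cancel γ ((k + 1) • b)))))) +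
      Module.rank ℂ (E ⟶ (cone (X := T.ts (-b) 1 (one_mul 1)) (Y := T) (x • 1)
        (twist_Z T hx)).ts (γ - k • b) 1 (one_mul 1)) := by
  have hb : γ - (k + 1) • b + b = γ - k • b := by rw [add_smul, one_smul]; abel
  have h1 := rank_step (Linear.rightComp ℂ E
        (hm _ (tz_Z (T := T) γ (xpow_mem hx k) (sub_add_cancel γ (k • b)))))
    (Linear.rightComp ℂ E (hm _ (tz_Z (T := T) (γ - k • b) hx hb)))
    (Linear.rightComp ℂ E ((tsF (γ - k • b) 1 (one_mul 1)).map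
      (cin (X := T.ts (-b) 1 (one_mul 1)) (Y := T) (x • 1) (twist_Z T hx))))
    (fun φ hφ => exact_mul hx E (γ - k • b) φ hφ hb)
  refine h1.trans (le_of_eq ?_)
  have h2 : (Linear.rightComp ℂ E
        (hm _ (tz_Z (T := T) γ (xpow_mem hx k) (sub_add_cancel γ (k • b))))).comp
    (Linear.rightComp ℂ E (hm _ (tz_Z (T := T) (γ - k • b) hx hb))) = (Linear.rightComp ℂ E
        (hm _ (tz_Z (T := T) γ (xpow_mem hx (k + 1)) (sub_add_cancel γ ((k + 1) • b))))) := by
    ext φ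
    show (φ ≫ hm _ _) ≫ hm _ _ = φ ≫ hm _ _
    rw [Category.assoc]
    congr 1
    refine hm_congr ?_
    rw [Matrix.smul_mul, Matrix.one_mul, smul_smul, pow_succ]
  rw [h2]
  rfl

/-- If `x ^ N` is null-homotopic on `T` then the dimensions are bounded in terms of the
cone of `x`. -/
theorem Bd.step (E : MF L) (N' : ℕ) {B : ℕ}
    (hN : ∀ γ, x ^ N' • (1 : Matrix T.I T.I L.A) ∈
      N (T.ts (γ - N' • b) 1 (one_mul 1)) (T.ts γ 1 (one_mul 1)))
    (hB : Bd E (cone (X := T.ts (-b) 1 (one_mul 1)) (Y := T) (x • 1) (twist_Z T hx)) B) :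
    Bd E T (N' * B) := by
  classical
  have h1 : ∀ γ : L.G, ∀ k ≤ N', Module.rank ℂ (E ⟶ T.ts γ 1 (one_mul 1)) ≤
      Module.rank ℂ (LinearMap.range (Linear.rightComp ℂ E
        (hm _ (tz_Z (T := T) γ (xpow_mem hx k) (sub_add_cancel γ (k • b)))))) +
      ∑ j ∈ Finset.range k, Module.rank ℂ (E ⟶ (cone (X := T.ts (-b) 1 (one_mul 1)) (Y := T)
        (x • 1) (twist_Z T hx)).ts (γ - j • b) 1 (one_mul 1)) := by
    intro γ k
    induction k with
    | zero =>
      intro _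
      rw [Finset.sum_range_zero, add_zero, rank_range_of_surjective]
      intro φ
      obtain ⟨f, hf, rfl⟩ := hm_surj φ
      refine ⟨hm f ⟨Hg_eq hf.1 fun i j => ?_, hf.2⟩, ?_⟩
      · show T.g i + γ - E.g j + 0 = T.g i + (γ - 0 • b) - E.g j + 0
        rw [zero_smul, sub_zero]
      · refine hm_congr ?_
        show (x ^ 0 • (1 : Matrix T.I T.I L.A)) * f = f
        rw [pow_zero, one_smul, Matrix.one_mul]
    | succ k ih =>
      intro hk
      refine (ih (by omega)).trans ?_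
      rw [Finset.sum_range_succ, add_comm (∑ j ∈ Finset.range k, _), ← add_assoc]
      exact add_le_add (rank_pow hx E γ k) le_rfl
  have h2 : ∀ γ : L.G, Module.rank ℂ (E ⟶ T.ts γ 1 (one_mul 1)) ≤
      ∑ j ∈ Finset.range N', Module.rank ℂ (E ⟶ (cone (X := T.ts (-b) 1 (one_mul 1)) (Y := T)
        (x • 1) (twist_Z T hx)).ts (γ - j • b) 1 (one_mul 1)) := by
    intro γ
    refine (h1 γ N' le_rfl).trans (le_of_eq ?_)
    have h3 : Linear.rightComp ℂ E
        (hm _ (tz_Z (T := T) γ (xpow_mem hx N') (sub_add_cancel γ (N' • b)))) = 0 := by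
      ext φ
      show φ ≫ hm _ _ = 0
      have h4 : hm _ (tz_Z (T := T) γ (xpow_mem hx N') (sub_add_cancel γ (N' • b))) = 0 :=
        hm_eq_zero_iff.2 (hN γ)
      rw [h4, comp_zero]
    rw [h3, LinearMap.range_zero, rank_bot, zero_add]
  intro S
  refine (Finset.sum_le_sum fun γ _ => h2 γ).trans ?_
  rw [Finset.sum_comm]
  have h5 : ∀ j ∈ Finset.range N', ∑ γ ∈ S, Module.rank ℂ (E ⟶ (cone (X := T.ts (-b) 1
      (one_mul 1)) (Y := T) (x • 1) (twist_Z T hx)).ts (γ - j • b) 1 (one_mul 1)) ≤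
      (B : Cardinal) := by
    intro j _
    have h6 := hB (S.map (Equiv.subRight (j • b)).toEmbedding)
    rw [Finset.sum_map] at h6
    exact h6
  refine (Finset.sum_le_sum h5).trans ?_
  rw [Finset.sum_const, Finset.card_range, nsmul_eq_mul]
  push_cast
  exact le_rfl

end step

end Pool.Agent.Helper445_GMF
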