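import Pool.Agent.Helper445_GMF.Qn13

/-!
Binary forms of degree `d`: matrix factorizations of rank one and their triangles.
-/

set_option autoImplicit false
set_option linter.unusedSectionVars false

open CategoryTheory Matrix Pretriangulated Triangulated Limits MvPolynomial ZeroObject

namespace Pool.Agent.Helper445_GMF.Bf

variable {d : ℕ} {W : MvPolynomial (Fin 2) ℂ} {hW : IsWeightedHomogeneous a2 W d}

theorem wt_tau (i : Fin 2) : wt a2 d i = tau d := by
  show (1 : ℕ) • tau d = tau d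
  rw [one_smul]

/-- a factorization of `W` -/
structure Fac (hW : IsWeightedHomogeneous a2 W d) (c : Gd d) where
  /-- the first factor -/
  f : MvPolynomial (Fin 2) ℂ
  /-- the second factor -/
  h : MvPolynomial (Fin 2) ℂ
  hf : IsWeightedHomogeneous (wt a2 d) f c
  hh : IsWeightedHomogeneous (wt a2 d) h (sig d + sig d - c)
  e : f * h = W

variable {c : Gd d}

theorem Fac.ok (F : Fac hW c) : OK (lg a2 d W hW) [(F.f, F.h, c)] := by
  intro p hp
  rw [List.mem_singleton] at hp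
  subst hp
  exact ⟨F.hf, F.hh⟩

theorem Fac.sum (F : Fac hW c) : ([(F.f, F.h, c)].map
    fun p : (lg a2 d W hW).A × (lg a2 d W hW).A × (lg a2 d W hW).G => p.1 * p.2.1).sum =
    (lg a2 d W hW).W := by
  show F.f * F.h + 0 = W
  rw [add_zero, F.e]

/-- the matrix factorization of rank one -/
noncomputable abbrev Fac.E (F : Fac hW c) (g : Gd d) : MF (lg a2 d W hW) :=
  kos (L := lg a2 d W hW) (fun _ : Fin 1 => g) [(F.f, F.h, c)] F.ok F.sum

theorem Fac.E_ts (F : Fac hW c) (g r : Gd d) :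
    Nonempty ((F.E g).ts r 1 (one_mul 1) ≅ F.E (g + r)) :=
  kos_ts (L := lg a2 d W hW) [(F.f, F.h, c)] F.ok F.sum (fun _ : Fin 1 => g) r

theorem Fac.gl (F : Fac hW c) (g : Gd d) (i : Fin 1) : (F.E g).g (Sum.inl i) = g := rfl

theorem Fac.gr (F : Fac hW c) (g : Gd d) (i : Fin 1) :
    (F.E g).g (Sum.inr i) = g - c + sig d := by
  show g + -c + (1 : ℤ) • sig d = _
  rw [one_smul, sub_eq_add_neg]

theorem memg {x : MvPolynomial (Fin 2) ℂ} {r g : Gd d}
    (hx : IsWeightedHomogeneous (wt a2 d) x r) (h : g = r) {i j : Fin 1} :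
    (lg a2 d W hW).mem g ((x • (1 : Matrix (Fin 1) (Fin 1) (MvPolynomial (Fin 2) ℂ))) i j) := by
  subst h
  fin_cases i
  fin_cases j
  have e2 : (x • (1 : Matrix (Fin 1) (Fin 1) (MvPolynomial (Fin 2) ℂ))) 0 0 = x := by simp
  show IsWeightedHomogeneous (wt a2 d) ((x • (1 : Matrix (Fin 1) (Fin 1)
    (MvPolynomial (Fin 2) ℂ))) 0 0) g
  rw [e2]
  exact hx

theorem oneg {g : Gd d} (h : g = 0) {i j : Fin 1} :
    (lg a2 d W hW).mem g ((1 : Matrix (Fin 1) (Fin 1) (MvPolynomial (Fin 2) ℂ)) i j) := by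
  subst h
  fin_cases i
  fin_cases j
  exact isWeightedHomogeneous_one ℂ (wt a2 d)

theorem cone_gl {X Y : MF (lg a2 d W hW)} (f : Matrix Y.I X.I (lg a2 d W hW).A) (hf : f ∈ Z X Y)
    (i : Y.I) : (cone f hf).g (Sum.inl i) = Y.g i := rfl

theorem cone_gr {X Y : MF (lg a2 d W hW)} (f : Matrix Y.I X.I (lg a2 d W hW).A) (hf : f ∈ Z X Y)
    (i : X.I) : (cone f hf).g (Sum.inr i) = X.g i + sig d := by
  show X.g i + (1 : ℤ) • sig d = _
  rw [one_smul]

/-- the triangle of a product of two factors -/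
theorem Fac.tri {c₁ c₂ c₃ : Gd d} (F₁ : Fac hW c₁) (F₂ : Fac hW c₂) (F₃ : Fac hW c₃)
    (hk : c₃ = c₁ + c₂) (h3 : F₃.f = F₁.f * F₂.f) (h1 : F₁.h = F₂.f * F₃.h)
    (h2 : F₂.h = F₁.f * F₃.h) (m : Gd d) :
    ∃ (f : F₁.E (m - c₂) ⟶ F₃.E m) (g : F₃.E m ⟶ F₂.E m)
      (h : F₂.E m ⟶ (F₁.E (m - c₂))⟦(1 : ℤ)⟧), Triangle.mk f g h ∈
        distTriang (MF (lg a2 d W hW)) := by
  have hP : rP (I := Fin 1) F₂.f ∈ Z (F₁.E (m - c₂)) (F₃.E m) := by
    refine ⟨?_, ?_⟩
    · rintro (i | i) (j | j)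
      · refine memg F₂.hf ?_
        rw [Fac.gl, Fac.gl]
        abel
      · exact Submodule.zero_mem _
      · exact Submodule.zero_mem _
      · refine oneg ?_
        rw [Fac.gr, Fac.gr, hk]
        abel
    · have e := rP_comm (I := Fin 1) F₁.f F₂.f F₃.h
      rw [← h3, ← h1] at e
      exact e
  have hd := dist_tri (X := F₁.E (m - c₂)) (Y := F₃.E m) _ hP
  have hA : rA (I := Fin 1) F₃.h ∈
      Z (F₂.E m) (cone (X := F₁.E (m - c₂)) (Y := F₃.E m) _ hP) := by
    refine ⟨?_, ?_⟩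
    · rintro ((i | i) | (i | i)) (j | j)
      · refine oneg ?_
        rw [cone_gl, Fac.gl, Fac.gl]
        abel
      · exact Submodule.zero_mem _
      · exact Submodule.zero_mem _
      · exact Submodule.zero_mem _
      · exact Submodule.zero_mem _
      · refine oneg ?_
        rw [cone_gr, Fac.gl, Fac.gr]
        abel
      · refine Submodule.neg_mem _ (memg F₃.hh ?_)
        rw [cone_gr, Fac.gr, Fac.gl, hk]
        abel
      · exact Submodule.zero_mem _
    · have e := rA_comm (I := Fin 1) F₁.f F₂.f F₃.h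
      rw [rC, ← h3, ← h1, ← h2] at e
      exact e
  have hB : rB (I := Fin 1) F₁.f ∈
      Z (cone (X := F₁.E (m - c₂)) (Y := F₃.E m) _ hP) (F₂.E m) := by
    refine ⟨?_, ?_⟩
    · rintro (i | i) ((j | j) | (j | j))
      · refine oneg ?_
        rw [cone_gl, Fac.gl, Fac.gl]
        abel
      · exact Submodule.zero_mem _
      · exact Submodule.zero_mem _
      · exact Submodule.zero_mem _
      · exact Submodule.zero_mem _
      · refine memg F₁.hf ?_
        rw [cone_gl, Fac.gr, Fac.gr, hk]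
        abel
      · refine oneg ?_
        rw [cone_gr, Fac.gr, Fac.gl]
        abel
      · exact Submodule.zero_mem _
    · have e := rB_comm (I := Fin 1) F₁.f F₂.f F₃.h
      rw [rC, ← h3, ← h1, ← h2] at e
      exact e
  have hS : rA (I := Fin 1) F₃.h * rB (I := Fin 1) F₁.f - 1 ∈
      N (cone (X := F₁.E (m - c₂)) (Y := F₃.E m) _ hP)
        (cone (X := F₁.E (m - c₂)) (Y := F₃.E m) _ hP) := by
    refine ⟨rS (I := Fin 1), ?_, ?_⟩
    · rintro ((i | i) | (i | i)) ((j | j) | (j | j))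
      all_goals try exact Submodule.zero_mem _
      refine Submodule.neg_mem _ (oneg ?_)
      rw [cone_gr, cone_gl, Fac.gr, Fac.gr, hk]
      show m - c₂ - c₁ + sig d + sig d - (m - (c₁ + c₂) + sig d) + -sig d = 0
      abel
    · have e := rS_eq (I := Fin 1) F₁.f F₂.f F₃.h
      rw [rC, ← h3, ← h1] at e
      exact e
  have hT : rB (I := Fin 1) F₁.f * rA (I := Fin 1) F₃.h - 1 ∈ N (F₂.E m) (F₂.E m) := by
    rw [rBA, sub_self]
    exact N_zero
  have e : cone (X := F₁.E (m - c₂)) (Y := F₃.E m) _ hP ≅ F₂.E m :=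
    (isoOf _ _ hA hB hT hS).symm
  exact ⟨_, _, _, dist_third hd e⟩

end Pool.Agent.Helper445_GMF.Bf
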