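import Pool.Agent.Helper445_GMF.Bf9

/-!
Binary forms of degree `d`: a torsion-free Koszul matrix factorization.
-/

set_option autoImplicit false
set_option linter.unusedSectionVars false

open CategoryTheory Matrix Pretriangulated Triangulated Limits MvPolynomial ZeroObject

namespace Pool.Agent.Helper445_GMF.Bf

variable {d : ℕ} {W : MvPolynomial (Fin 2) ℂ} {hW : IsWeightedHomogeneous a2 W d}

theorem gg_ttss (j k : ℤ) : gg d j k + tau d + tau d - sig d - sig d =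
    gg d (j + 2) (k - 2) := by
  rw [tau_gg, sig_gg, gg_add, gg_add, gg_sub, gg_sub]
  congr 1 <;> ring

theorem P_gens (hd : 0 < d) (i : (Kk hd hW (gg d (3 - d) 0)).I) :
    (Kk hd hW (gg d (3 - d) 0)).g i = gg d (3 - d) 0 ∨
    (Kk hd hW (gg d (3 - d) 0)).g i = gg d 2 (-1) ∨
    (Kk hd hW (gg d (3 - d) 0)).g i = gg d 1 0 := by
  rcases Kk_gens (hW := hW) hd (gg d (3 - d) 0) i with h | h | h
  · exact Or.inl h
  · right; left
    rw [h, gg_tsn]
    exact gg_ext 1 (by ring) (by norm_num)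
  · right; right
    rw [h, gg_ttssn]
    exact gg_ext 1 (by ring) (by norm_num)

theorem gg_ne (h6 : 6 ≤ d) : gg d (3 - d) 0 ≠ gg d 2 (-1) ∧ gg d (3 - d) 0 ≠ gg d 1 0 ∧
    gg d 2 (-1) ≠ gg d 1 0 := by
  refine ⟨fun h => ?_, fun h => ?_, fun h => ?_⟩ <;>
  · have := congrArg (th d) h
    rw [th_gg, th_gg] at this
    omega

/-- the generators of the distinguished Koszul matrix factorization -/
theorem P_g (hd : 0 < d) : (∀ i : Fin 1, (Kk hd hW (gg d (3 - d) 0)).g (Sum.inl (Sum.inl i)) =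
      gg d (3 - d) 0) ∧
    (∀ i : Fin 1, (Kk hd hW (gg d (3 - d) 0)).g (Sum.inl (Sum.inr i)) = gg d 2 (-1)) ∧
    (∀ i : Fin 1, (Kk hd hW (gg d (3 - d) 0)).g (Sum.inr (Sum.inl i)) = gg d 2 (-1)) ∧
    (∀ i : Fin 1, (Kk hd hW (gg d (3 - d) 0)).g (Sum.inr (Sum.inr i)) = gg d 1 0) := by
  refine ⟨fun i => Kk_g1 hd _ i, fun i => ?_, fun i => ?_, fun i => ?_⟩
  · refine (Kk_g2 hd _ i).trans ?_
    rw [gg_tsn]
    exact gg_ext 1 (by ring) (by norm_num)
  · refine (Kk_g3 hd _ i).trans ?_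
    rw [gg_tsn]
    exact gg_ext 1 (by ring) (by norm_num)
  · refine (Kk_g4 hd _ i).trans ?_
    rw [gg_ttssn]
    exact gg_ext 1 (by ring) (by norm_num)

theorem card_aux {g : (Fin 1 ⊕ Fin 1) ⊕ (Fin 1 ⊕ Fin 1) → Gd d} {a b c : Gd d}
    (h1 : ∀ i, g (Sum.inl (Sum.inl i)) = a) (h2 : ∀ i, g (Sum.inl (Sum.inr i)) = b)
    (h3 : ∀ i, g (Sum.inr (Sum.inl i)) = b) (h4 : ∀ i, g (Sum.inr (Sum.inr i)) = c)
    (hab : a ≠ b) (hac : a ≠ c) (hbc : b ≠ c) :
    Fintype.card {j // g j = c} ≤ 1 ∧ Fintype.card {j // g j = b} ≤ 2 := by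
  constructor
  · rw [Fintype.card_le_one_iff_subsingleton]
    constructor
    rintro ⟨(i | i) | (i | i), hi⟩ ⟨(j | j) | (j | j), hj⟩
    all_goals simp only [h1, h2, h3, h4] at hi hj
    all_goals try exact absurd hi hac
    all_goals try exact absurd hi hbc
    all_goals try exact absurd hj hac
    all_goals try exact absurd hj hbc
    have : i = j := Subsingleton.elim _ _
    subst this
    rfl
  · have : Function.Injective (fun j : {j // g j = b} => j.1.isLeft) := by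
      rintro ⟨(i | i) | (i | i), hi⟩ ⟨(j | j) | (j | j), hj⟩ h
      all_goals simp only [h1, h2, h3, h4] at hi hj
      all_goals try exact absurd hi hab
      all_goals try exact absurd hi.symm hbc
      all_goals try exact absurd hj hab
      all_goals try exact absurd hj.symm hbc
      all_goals try (exfalso; revert h; simp; done)
      all_goals
        have : i = j := Subsingleton.elim _ _
        subst this
        rfl
    have h := Fintype.card_le_of_injective _ this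
    simpa using h

theorem P_card (hd : 0 < d) (h6 : 6 ≤ d) :
    Fintype.card {j : (Kk hd hW (gg d (3 - d) 0)).I //
      (Kk hd hW (gg d (3 - d) 0)).g j = gg d 1 0} ≤ 1 ∧
    Fintype.card {j : (Kk hd hW (gg d (3 - d) 0)).I //
      (Kk hd hW (gg d (3 - d) 0)).g j = gg d 2 (-1)} ≤ 2 := by
  obtain ⟨h1, h2, h3, h4⟩ := P_g (hW := hW) hd
  obtain ⟨n1, n2, n3⟩ := gg_ne h6
  exact card_aux h1 h2 h3 h4 n1 n2 n3

variable {Q : Qb hW} (h6 : 6 ≤ d) (h9 : d ≤ 9) (H : Tl2 Q.S ZG (Psi (psi d)))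

include h6 h9 H

theorem P_fre : Fre Q.S ZG (Kk Q.hd hW (gg d (3 - d) 0)) := by
  have hPH : Hrt Q.S (Kk Q.hd hW (gg d (3 - d) 0)) := by
    have := Q.H_K3 0
    exact ⟨this.1, this.2⟩
  obtain ⟨m, hm, -⟩ := H.len_ex hPH
  obtain ⟨T, F', f, g', h', hd', hT, hF'⟩ := H.tors_ex m _ hPH hm
  by_cases hT0 : IsZero T
  · have : IsIso g' := (Triangle.isZero₁_iff_isIso₂ _ hd').1 hT0
    exact H.fre_iso (asIso g').symm hF'
  exfalso
  obtain ⟨F, ⟨e⟩, hR⟩ := exists_red Q.hd F'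
  have hF : Fre Q.S ZG F := H.fre_iso e hF'
  obtain ⟨g, h, hT3⟩ : ∃ (g : Kk Q.hd hW (gg d (3 - d) 0) ⟶ F) (h : F ⟶ T⟦(1 : ℤ)⟧),
      Triangle.mk f g h ∈ distTriang _ := ⟨_, _, dist_third hd' e⟩
  have hT1 : Dw Q.S 1 (T⟦(1 : ℤ)⟧) := by simpa using hT.1.1.sh1 Q.smc
  have hPr := Kk_red (hW := hW) Q.hd Q.h2 (gg d (3 - d) 0)
  -- the charge of `T`
  have hPn : ¬ Hp 0 (ZG (Kk Q.hd hW (gg d (3 - d) 0))) := by
    refine nhpK Q.h2 Q.hd _ ?_ ?_
    · rw [th_gg]; omega
    · rw [th_gg]; omega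
  have hZ := H.add.add' hT3
  have hTp := H.tor_hp hT hT0
  have hF0 : ¬ IsZero F := by
    intro h0
    rw [H.add.z_zero h0, add_zero] at hZ
    rw [hZ] at hPn
    exact hPn hTp
  -- morphisms from `F`
  have ha : ∀ E : MF (lg a2 d W hW), Vw Q.S 1 E → ∀ φ : F ⟶ E, g ≫ φ = 0 → φ = 0 := by
    intro E hE φ hφ
    obtain ⟨c, hc⟩ := ex_y3 hT3 φ hφ
    rw [hc, hE _ hT1 c, comp_zero]
  have hV : ∀ {b : Gd d} {j k : ℤ}, b = gg d j k → 3 - (d : ℤ) ≤ j → j ≤ 1 → k ≤ 0 →
      Vw Q.S 1 (Kk Q.hd hW b) := by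
    intro b j k hb h1 h2 h3
    rw [hb]
    exact (Q.H_Kk (p := k) (Or.inl ⟨h1, h2, rfl⟩)).2.mono (by omega)
  -- the generator of degree `tau`
  have hn1 : ∃ φ : F ⟶ Kk Q.hd hW (gg d 1 0), φ ≠ 0 := by
    obtain ⟨i, φ, hφ⟩ := H.top hF.1 hF0
    have h1 : g ≫ φ ≠ 0 := fun hz => hφ (ha _ (Vw.letter Q.smc (by norm_num) i) φ hz)
    rcases i with i | q
    · have hi := i.2
      by_cases h0 : (i : ℕ) = 0
      · have e1 : Q.S (Sum.inl i) 0 = Kk Q.hd hW (gg d 1 0) := by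
          show Kk Q.hd hW (gg d (1 - ((i : ℕ) : ℤ)) 0) = _
          rw [h0]; norm_num
        rw [e1] at φ
        by_contra hc
        push Not at hc
        apply hφ
        have h2 : ∀ φ : F ⟶ Q.S (Sum.inl i) 0, φ = 0 := by
          rw [e1]; exact hc
        exact h2 _
      · exfalso
        refine h1 (KK_zero Q (fun m r h1 h2 h4 h5 => ?_) (g ≫ φ))
        have hm := ddm d m
        omega
    · exfalso
      refine h1 (KE_zero Q q (fun m r h1 h2 h4 h5 => ?_) (g ≫ φ))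
      have hm := ddm d m
      omega
  obtain ⟨hc1, hc2⟩ := P_card (hW := hW) Q.hd h6
  have hN1 : Fintype.card {j : F.I // F.g j = gg d 1 0} = 1 := by
    refine le_antisymm ((card_le Q.hd hPr hR Q.h2 (gg d 1 0) g
      (fun φ => ha _ (hV rfl (by omega) le_rfl le_rfl) φ)).trans hc1) ?_
    rw [Nat.one_le_iff_ne_zero, ← Nat.pos_iff_ne_zero, Fintype.card_pos_iff]
    by_contra hc
    obtain ⟨φ, hφ⟩ := hn1
    refine hφ (K_hom_zero Q.hd Q.h2 hR (fun j hj => hc ⟨⟨j, hj⟩⟩) φ)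
  have hN2 : Fintype.card {j : F.I // F.g j = gg d 2 (-1)} ≤ 2 := by
    refine (card_le Q.hd hPr hR Q.h2 (gg d 2 (-1)) g
      (fun φ => ha _ ?_ φ)).trans hc2
    have := (Q.H_K2 (-1)).2
    simpa using this
  have key : ∀ j, F.g j = gg d 1 0 ∨ F.g j = gg d 2 (-1) ∨ F.g j = gg d (3 - d) 1 ∨
      F.g j = gg d 0 1 ∨ (2 < th d (F.g j) ∧ th d (F.g j) ≤ d - 2) := by
    intro j
    obtain ⟨b, hb⟩ : ∃ b, F.g j = b := ⟨_, rfl⟩
    rw [hb]
    by_cases h1 : b = gg d 1 0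
    · exact Or.inl h1
    by_cases h2 : b = gg d 2 (-1)
    · exact Or.inr (Or.inl h2)
    obtain ⟨φ, hφ⟩ := K_hom Q.hd Q.h2 hR hb
    -- lower bound
    have hlow : b = gg d (3 - d) 1 ∨ 2 < th d b := by
      by_cases h3 : b = gg d (3 - d) 0
      · exfalso
        subst h3
        have h4 : g ≫ φ ≠ 0 := fun hz => hφ (ha _ hPH.2 φ hz)
        have h5 : IsIso (g ≫ φ) := (KK_end Q.hd Q.h3 _ (g ≫ φ)).resolve_left h4
        have h6 : f ≫ g = 0 := comp_distTriang_mor_zero₁₂ _ hT3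
        have h7 : f = 0 := by
          rw [← cancel_mono (g ≫ φ), ← Category.assoc, h6, zero_comp, zero_comp]
        have R := rot_of_distTriang _ (rot_of_distTriang _ hT3)
        have R' : Triangle.mk h (-f⟦(1 : ℤ)⟧') (-g⟦(1 : ℤ)⟧') ∈ distTriang _ := R
        obtain ⟨c, hc⟩ := ex_c2 R' (𝟙 _) (by
          rw [h7, Functor.map_zero, neg_zero, comp_zero])
        have h8 : c = 0 := hF.1.2 _ hT1 c
        rw [h8, zero_comp] at hc
        have h9 : IsZero (T⟦(1 : ℤ)⟧) := by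
          rw [IsZero.iff_id_eq_zero]
          exact hc
        exact hT0 (((shiftFunctor _ (-1 : ℤ)).map_isZero h9).of_iso
          (shiftShiftNeg T (1 : ℤ)).symm)
      · by_contra hn
        push Not at hn
        have h4 : g ≫ φ = 0 := by
          refine K_hom_zero Q.hd Q.h2 hPr (fun i hi => ?_) _
          rcases P_gens (hW := hW) Q.hd i with h5 | h5 | h5
          · exact h3 (hi.symm.trans h5)
          · exact h2 (hi.symm.trans h5)
          · exact h1 (hi.symm.trans h5)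
        obtain ⟨c, hc⟩ := ex_y3 hT3 φ h4
        have h5 : Ro (Ua Q.S ZG) (Kk Q.hd hW (b - sig d)) := by
          refine va_K0 h6 H ?_ ?_
          · rw [th_sub, th_sig]
            have := hn.2
            omega
          · intro h6
            apply hn.1
            rw [sub_eq_iff_eq_add] at h6
            rw [h6, gg_sig]
            norm_num
        obtain ⟨e2⟩ := K_sh (hW := hW) Q.hd (b - sig d)
        rw [sub_add_cancel] at e2
        have h7 : c ≫ e2.inv = 0 := by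
          obtain ⟨c', hc'⟩ := (shiftFunctor (MF (lg a2 d W hW)) (1 : ℤ)).map_surjective
            (c ≫ e2.inv)
          rw [← hc', h5 T (H.ua_of_tor hT) c', Functor.map_zero]
        have h8 : c = 0 := by
          rw [← cancel_mono e2.inv, h7, zero_comp]
        apply hφ
        rw [hc, h8, comp_zero]
    -- upper bound
    have hup : b = gg d 0 1 ∨ th d b ≤ d - 2 := by
      by_contra hn
      push Not at hn
      obtain ⟨ψ, hψ⟩ := hom_K Q.hd Q.h2 hR hb rfl
      refine hψ (H.ro_of_fre hF _ (ua_K h6 H ?_ ?_) ψ)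
      · rw [th_sub, th_sub, th_add, th_add, th_sig, th_tau]
        have := hn.2
        omega
      · intro h3
        apply hn.1
        have h4 : b = gg d 2 (-1) - tau d - tau d + sig d + sig d := by
          rw [← h3]; abel
        rw [h4, gg_ttssn]
        norm_num
    rcases hlow with h3 | h3
    · exact Or.inr (Or.inr (Or.inl h3))
    · rcases hup with h4 | h4
      · exact Or.inr (Or.inr (Or.inr (Or.inl h4)))
      · exact Or.inr (Or.inr (Or.inr (Or.inr ⟨h3, h4⟩)))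
  -- the numerical contradiction
  have hfin : ∀ δ : ℝ, 0 ≤ δ → δ ≤ 1 / 2 → fd d δ (ZG T) ≤ 0 := by
    intro δ h0 h1
    have h2 := fd_low h6 h9 Q.W_ne h0 h1 F key hN1 hN2
    have h3 : fd d δ (ZG (Kk Q.hd hW (gg d (3 - d) 0))) =
        sn d δ 2 - 2 * sn d δ 4 + sn d δ 6 := by
      rw [fd_Kk, th_gg]
      have e1 : 2 * (3 - (d : ℤ)) + d * 0 = 6 - d - d := by ring
      have e2 : 2 * (3 - (d : ℤ)) + d * 0 - 2 = 4 - d - d := by ring
      have e3 : 2 * (3 - (d : ℤ)) + d * 0 - 4 = 2 - d - d := by ring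
      rw [e2, e3, e1, sn_dd Q.hd, sn_dd Q.hd, sn_dd Q.hd, sn_dd Q.hd, sn_dd Q.hd, sn_dd Q.hd]
      ring
    rw [hZ, fd_add] at h3
    linarith
  exact hp_rot (by omega) hTp (hfin 0 le_rfl (by norm_num)) (hfin (1 / 2) (by norm_num) le_rfl)

/-- Koszul matrix factorizations in the coaisle -/
theorem va_K {m : Gd d} (h : th d m ≤ 2 - (d : ℤ)) : Ro (Ua Q.S ZG) (Kk Q.hd hW m) := by
  by_cases h' : m = gg d (3 - d) 0
  · rw [h']
    exact H.ro_of_fre (P_fre h6 h9 H)
  · exact va_K0 h6 H h h'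

end Pool.Agent.Helper445_GMF.Bf
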