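import Pool.Agent.Helper445_GMF.Bf10

/-!
Binary forms of degree `d`: the aisle is closed under twists.
-/

set_option autoImplicit false
set_option linter.unusedSectionVars false

open CategoryTheory Matrix Pretriangulated Triangulated Limits MvPolynomial ZeroObject

namespace Pool.Agent.Helper445_GMF.Bf

variable {d : ℕ} {W : MvPolynomial (Fin 2) ℂ} {hW : IsWeightedHomogeneous a2 W d}

/-- twisting a triangle back -/
theorem tw_tri {T A B : MF (lg a2 d W hW)} {r r' : Gd d} (hr : r' = sig d - r)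
    {f : A ⟶ T.ts r 1 (one_mul 1)}
    {g : T.ts r 1 (one_mul 1) ⟶ B} {h : B ⟶ A⟦(1 : ℤ)⟧}
    (H : Triangle.mk f g h ∈ distTriang (MF (lg a2 d W hW))) :
    ∃ (f' : T ⟶ B.ts (-r) 1 (one_mul 1))
      (g' : B.ts (-r) 1 (one_mul 1) ⟶ A.ts r' 1 (one_mul 1))
      (h' : A.ts r' 1 (one_mul 1) ⟶ T⟦(1 : ℤ)⟧),
      Triangle.mk f' g' h' ∈ distTriang (MF (lg a2 d W hW)) := by
  obtain ⟨f1, g1, h1, hd⟩ := ts_dist' (-r) _ H
  have R : Triangle.mk g1 h1 (-f1⟦(1 : ℤ)⟧') ∈ distTriang (MF (lg a2 d W hW)) :=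
    rot_of_distTriang _ hd
  obtain ⟨e1⟩ := ts_ts_iso T r
  obtain ⟨e2⟩ := shiftd (A.ts (-r) 1 (one_mul 1))
  obtain ⟨e3⟩ := ts_iso A (a := -r) (b := sig d) (c := r') (by rw [hr]; abel)
  exact ⟨_, _, _, dist_third (dist_first R e1) (e2 ≪≫ e3)⟩

theorem hzK (hd : 0 < d) {X : MF (lg a2 d W hW)} {g m m' : Gd d} (hm : m' = m + g) :
    (∀ f : X ⟶ Kk hd hW m, f = 0) ↔
      (∀ f : X.ts g 1 (one_mul 1) ⟶ Kk hd hW m', f = 0) := by
  subst hm
  constructor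
  · intro h f
    refine hz_of_ts (g := -g) ?_ f
    obtain ⟨e⟩ := Kk_ts (hW := hW) hd (m + g) (-g)
    rw [add_neg_cancel_right] at e
    exact hz_iso (ts_ts_iso X g) ⟨e⟩ h
  · intro h f
    refine hz_of_ts (g := g) ?_ f
    obtain ⟨e⟩ := Kk_ts (hW := hW) hd m g
    exact hz_iso ⟨Iso.refl _⟩ ⟨e⟩ h

theorem gens_gt (hd : 0 < d) (h2 : 2 ≤ d) {B : MF (lg a2 d W hW)} (hR : Red0 B) {r : Gd d}
    (h : ∀ m : Gd d, th d m ≤ 2 - d → ∀ f : B.ts (-r) 1 (one_mul 1) ⟶ Kk hd hW m, f = 0)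
    (j : B.I) : 2 - (d : ℤ) < th d (B.g j) - th d r := by
  by_contra hn
  push Not at hn
  obtain ⟨φ, hφ⟩ := K_hom hd h2 hR (j := j) rfl
  refine hφ ((hzK hd (g := -r) (m' := B.g j - r) (sub_eq_add_neg _ _)).2 (h _ ?_) φ)
  rw [th_sub]
  exact hn

/-- an object all of whose variables are null-homotopic is a retract of a Koszul matrix
factorization -/
theorem ret_kos (hd : 0 < d) {F : MF (lg a2 d W hW)} (hR : Red0 F)
    (h : ∀ i, (X i : MvPolynomial (Fin 2) ℂ) • (1 : Matrix F.I F.I (MvPolynomial (Fin 2) ℂ)) ∈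
      N (F.ts (-(wt a2 d i)) 1 (one_mul 1)) F) {P : MF (lg a2 d W hW) → Prop}
    (hP : Cls (L := lg a2 d W hW) P) (hK : ∀ i, P (Kk hd hW (F.g i))) :
    ∃ (Y : MF (lg a2 d W hW)) (i : F ⟶ Y) (q : Y ⟶ F), i ≫ q = 𝟙 F ∧ P Y := by
  obtain ⟨i, q, hiq⟩ := ret_tower h (List.finRange 2)
  refine ⟨_, i, q, hiq, ?_⟩
  have h0 : F.D.map (ev (List.finRange 2)) = 0 := by
    ext1 i j
    show ev (List.finRange 2) (F.D i j) = 0
    rw [ev_full, hR i j, map_zero]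
  have hc := chain hW F (List.finRange 2)
  rw [h0] at hc
  obtain ⟨e⟩ := tw_iso_kos (ps hW (List.finRange 2)) (ps_OK hW _) (full_sum hd hW) F hc
  refine hP.iso e.symm (Cls.kos (L := lg a2 d W hW) hP _ _ _ fun i => ?_)
  have h1 := hK i
  obtain ⟨e1⟩ := KK_iso (hW := hW) hd (F.g i)
  exact hP.iso e1.symm h1

theorem cls_ro {B : MF (lg a2 d W hW)} : Cls (L := lg a2 d W hW)
    (fun Y : MF (lg a2 d W hW) => ∀ f : Y ⟶ B, f = 0) where
  iso e h f := by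
    have := h (e.hom ≫ f)
    rw [← cancel_epi e.hom, this, comp_zero]
  zero h f := h.eq_of_src _ _
  ext := by
    intro X Y V f g h H hX hV φ
    obtain ⟨c, hc⟩ := ex_y2 H φ (hX _)
    rw [hc, hV c, comp_zero]

variable {Q : Qb hW} (h6 : 6 ≤ d) (h9 : d ≤ 9) (H : Tl2 Q.S ZG (Psi (psi d)))

include H

theorem nonempty_gens {B : MF (lg a2 d W hW)} (hB : Hrt Q.S B) (h0 : ¬ IsZero B) :
    Nonempty B.I := by
  by_contra hc
  rw [not_nonempty_iff] at hc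
  obtain ⟨r, hr, h⟩ := H.len_ex hB
  have h1 : Psi (psi d) B = 0 := Finset.sum_of_isEmpty _
  rw [h1] at hr
  have h2 : r = 0 := by exact_mod_cast hr.symm
  have h3 := h.resolve_left h0
  omega

include h6

theorem gens_up {B : MF (lg a2 d W hW)} (hR : Red0 B) (hB : Ro (Ua Q.S ZG) B) (j : B.I) :
    B.g j = gg d 0 1 ∨ th d (B.g j) ≤ d - 2 := by
  by_contra hn
  push Not at hn
  obtain ⟨ψ, hψ⟩ := hom_K Q.hd Q.h2 hR (j := j) rfl rfl
  refine hψ (hB _ (ua_K h6 H ?_ ?_) ψ)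
  · rw [th_sub, th_sub, th_add, th_add, th_sig, th_tau]
    have := hn.2
    omega
  · intro h3
    apply hn.1
    have h4 : B.g j = gg d 2 (-1) - tau d - tau d + sig d + sig d := by
      rw [← h3]; abel
    rw [h4, gg_ttssn]
    norm_num

include h9

/-- a criterion for the aisle -/
theorem aisle_of {Y : MF (lg a2 d W hW)} (hY : Dw Q.S 0 Y)
    (hK : ∀ m : Gd d, th d m ≤ 2 - d → ∀ f : Y ⟶ Kk Q.hd hW m, f = 0) :
    Ua Q.S ZG (Y.ts (gg d (-1) 1) 1 (one_mul 1)) := by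
  obtain ⟨A, B, f, g, h, hT, hA, hB⟩ := H.split0 (Q.dws hY)
  by_cases h0 : IsZero B
  · have : IsIso f := (Triangle.isZero₃_iff_isIso₁ _ hT).1 h0
    exact H.ua_iso (asIso f) hA
  exfalso
  obtain ⟨B0, ⟨e⟩, hR⟩ := exists_red Q.hd B
  have hB0 : Fre Q.S ZG B0 := H.fre_iso e hB
  have hz : ¬ IsZero B0 := fun hz => h0 (hz.of_iso e)
  obtain ⟨f', g', h', hT'⟩ := tw_tri (r' := tau d) (by
    rw [tau_gg, sig_gg, gg_sub]; norm_num) (dist_third hT e)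
  have h1 : ∀ m : Gd d, th d m ≤ 2 - d →
      ∀ φ : B0.ts (-gg d (-1) 1) 1 (one_mul 1) ⟶ Kk Q.hd hW m, φ = 0 := by
    intro m hm φ
    obtain ⟨c, hc⟩ := ex_y2 hT' φ (hK m hm _)
    have h2 : c = 0 := (hzK Q.hd (m := m - tau d) (g := tau d)
      (sub_add_cancel _ _).symm).1 (va_K h6 h9 H (by
        rw [th_sub, th_tau]; omega) A hA) c
    rw [hc, h2, comp_zero]
  have h2 : ∀ j, 0 < th d (B0.g j) ∧ (th d (B0.g j) < d ∨ B0.g j = gg d 0 1) := by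
    intro j
    have h3 := gens_gt Q.hd Q.h2 hR h1 j
    rw [th_gg] at h3
    refine ⟨by omega, ?_⟩
    rcases gens_up h6 H hR (H.ro_of_fre hB0) j with h4 | h4
    · exact Or.inr h4
    · left; omega
  have h3 := im_pos Q.hd Q.W_ne B0 (nonempty_gens H hB0.1 hz) h2
  exact H.fre_not hB0 (hp_zero.2 (Or.inl h3))

theorem ua_s {X : MF (lg a2 d W hW)} (hX : Ua Q.S ZG X) :
    Ua Q.S ZG (X.ts (gg d (-1) 1) 1 (one_mul 1)) :=
  aisle_of h6 h9 H (H.ua_dw hX) fun _ hm f => va_K h6 h9 H hm X hX f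

theorem ua_tor {T : MF (lg a2 d W hW)} (hT : Tor Q.S ZG T) :
    Ua Q.S ZG (T.ts (tau d) 1 (one_mul 1)) := by
  obtain ⟨A, B, f, g, h, hd, hA, hB⟩ := H.split0 (Q.dwt hT.1.1)
  by_cases h0 : IsZero B
  · have : IsIso f := (Triangle.isZero₃_iff_isIso₁ _ hd).1 h0
    exact H.ua_iso (asIso f) hA
  exfalso
  obtain ⟨B0, ⟨e⟩, hR⟩ := exists_red Q.hd B
  have hB0 : Fre Q.S ZG B0 := H.fre_iso e hB
  have hz : ¬ IsZero B0 := fun hz => h0 (hz.of_iso e)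
  obtain ⟨f', g', h', hT'⟩ := tw_tri (r' := gg d (-1) 1) (by
    rw [tau_gg, sig_gg, gg_sub]; norm_num) (dist_third hd e)
  have hB' : Ua Q.S ZG (B0.ts (-tau d) 1 (one_mul 1)) :=
    H.ua_ext hT' (H.ua_of_tor hT) (ua_s h6 h9 H hA)
  have hX : ∀ i, (X i : MvPolynomial (Fin 2) ℂ) • (1 : Matrix B0.I B0.I
      (MvPolynomial (Fin 2) ℂ)) ∈ N (B0.ts (-(wt a2 d i)) 1 (one_mul 1)) B0 := by
    intro i
    have h1 : Ua Q.S ZG (B0.ts (-(wt a2 d i)) 1 (one_mul 1)) := by rw [wt_tau]; exact hB'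
    have h2 := H.ro_of_fre hB0 _ h1 (hm _ (twist_Z (L := lg a2 d W hW) B0
      (isWeightedHomogeneous_X ℂ (wt a2 d) i)))
    exact hm_eq_zero_iff.1 h2
  obtain ⟨Y, i, q, hiq, hY⟩ := ret_kos Q.hd hR hX (cls_ro (B := B0)) (fun j => by
    have h3 := gens_gt Q.hd Q.h2 hR (r := tau d)
      (fun m hm φ => va_K h6 h9 H hm _ hB' φ) j
    rw [th_tau] at h3
    refine H.ro_of_fre hB0 _ (ua_K h6 H (by omega) ?_)
    intro h4
    rw [h4, th_gg] at h3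
    omega)
  apply hz
  rw [IsZero.iff_id_eq_zero, ← hiq, hY q, comp_zero]

/-- the aisle is closed under the twist by one -/
theorem ua_t {X : MF (lg a2 d W hW)} (hX : Ua Q.S ZG X) :
    Ua Q.S ZG (X.ts (tau d) 1 (one_mul 1)) := by
  obtain ⟨A, T, f, g, h, hd, hA, hT⟩ := hX
  obtain ⟨f2, g2, h2, hd2⟩ := ts_dist' (tau d) _ hd
  exact H.ua_ext hd2 (H.ua_of_dw (Q.dwt hA)) (ua_tor h6 h9 H hT)

end Pool.Agent.Helper445_GMF.Bf
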