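import Pool.Agent.Helper445_GMF.Bf11

/-!
Binary forms of degree `d`: objects without central charge and the stability condition.
-/

set_option autoImplicit false
set_option linter.unusedSectionVars false

open CategoryTheory Matrix Pretriangulated Triangulated Limits MvPolynomial ZeroObject

namespace Pool.Agent.Helper445_GMF.Bf

variable {d : ℕ} {W : MvPolynomial (Fin 2) ℂ} {hW : IsWeightedHomogeneous a2 W d}

theorem ZG_Kk_ne (hd : 2 ≤ d) (hd0 : 0 < d) (m : Gd d) : ZG (Kk hd0 hW m) ≠ 0 := by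
  rw [ZG_Kk]
  have := r_pos hd
  refine mul_ne_zero ?_ (Complex.exp_ne_zero _)
  intro h
  have h2 : (-(2 - 2 * Real.cos (2 * Real.pi / d)) : ℝ) = 0 := by exact_mod_cast h
  linarith

theorem tt_iso (X : MF (lg a2 d W hW)) {a b c : Gd d} (h : a + b = c) :
    Nonempty ((X.ts a 1 (one_mul 1)).ts b 1 (one_mul 1) ≅ X.ts c 1 (one_mul 1)) :=
  ts_iso X h

theorem shiftnd (X : MF (lg a2 d W hW)) :
    Nonempty (X⟦(-1 : ℤ)⟧ ≅ X.ts (-sig d) 1 (one_mul 1)) := by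
  obtain ⟨e1⟩ := shiftd (X.ts (-sig d) 1 (one_mul 1))
  obtain ⟨e2⟩ := ts_ts_iso' X (sig d)
  have e4 : (X.ts (-sig d) 1 (one_mul 1))⟦(1 : ℤ)⟧ ≅ X := e1 ≪≫ e2
  exact Srt.shiftNeg_iso e4

/-- torsion-free objects without central charge -/
def Zc (Q : Qb hW) (G : MF (lg a2 d W hW)) : Prop :=
  Fre Q.S ZG G ∧ ZG G = 0 ∧ ∀ f : G ⟶ Kk Q.hd hW (gg d (3 - d) 0), f = 0

variable {Q : Qb hW} (h6 : 6 ≤ d) (h9 : d ≤ 9) (H : Tl2 Q.S ZG (Psi (psi d)))

include H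

theorem Zc.ofIso {G G' : MF (lg a2 d W hW)} (e : G ≅ G') (h : Zc Q G) : Zc Q G' := by
  obtain ⟨h1, h2, h3⟩ := h
  refine ⟨H.fre_iso e h1, ?_, fun f => ?_⟩
  · rw [← H.add.z_iso e, h2]
  · have := h3 (e.hom ≫ f)
    rw [← cancel_epi e.hom, this, comp_zero]

include h6

theorem Zc.hom {G : MF (lg a2 d W hW)} (h : Zc Q G) (m : Gd d) (hm : th d m ≤ 2 - d)
    (f : G ⟶ Kk Q.hd hW m) : f = 0 := by
  obtain ⟨h1, h2, h3⟩ := h
  obtain ⟨j, k, hj1, hj2, rfl⟩ := exists_gg Q.hd m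
  rw [th_gg] at hm
  rcases eq_or_lt_of_le hj2 with h4 | h4
  · subst h4
    rcases le_or_gt k (-2) with h5 | h5
    · exact ((Q.H_K2 k).2.mono (by omega) : Vw Q.S 0 _) G h1.1.1 f
    · exfalso
      have : (d : ℤ) * (-1) ≤ d * k := mul_le_mul_of_nonneg_left (by omega) (by omega)
      omega
  · rcases lt_trichotomy k 0 with h5 | h5 | h5
    · exact ((Q.H_Kk (p := k) (Or.inl ⟨hj1, by omega, rfl⟩)).2.mono (by omega) :
        Vw Q.S 0 _) G h1.1.1 f
    · subst h5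
      rw [mul_zero, add_zero] at hm
      by_cases hj : j = 3 - d
      · subst hj; exact h3 f
      · obtain ⟨i, hi⟩ := Q.K_letter (j := j) (by omega) (by omega)
        by_contra hf
        have h5 : ∃ φ : G ⟶ Q.S (Sum.inl i) 0, φ ≠ 0 := by
          rw [hi]; exact ⟨f, hf⟩
        obtain ⟨φ, hφ⟩ := h5
        obtain ⟨K, k', p, r, hT, hK⟩ := H.epi_letter h1.1 _ φ hφ
        have hL : Hrt Q.S (Q.S (Sum.inl i) 0) :=
          ⟨Dw.letter _ 0, Vw.letter Q.smc (by norm_num) _⟩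
        have hZ := H.add.add' hT
        have hn : ¬ Hp 0 (ZG (Q.S (Sum.inl i) 0)) := by
          rw [hi]
          refine nhpK Q.h2 Q.hd _ ?_ ?_
          · rw [th_gg]; omega
          · rw [th_gg]; omega
        have hne : ZG (Q.S (Sum.inl i) 0) ≠ 0 := by
          rw [hi]; exact ZG_Kk_ne Q.h2 Q.hd _
        have hp : Hp 0 (ZG K) := by
          have e : ZG K = -ZG (Q.S (Sum.inl i) 0) := by
            rw [h2] at hZ
            linear_combination -hZ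
          rw [e]
          exact hp_or hne hn
        exact H.fre_not (H.fre_sub hT h1 hK hL) hp
    · exfalso
      have : (d : ℤ) * 1 ≤ d * k := mul_le_mul_of_nonneg_left (by omega) (by omega)
      omega

include h9

/-- objects of the tilted heart -/
theorem heart_aux {X : MF (lg a2 d W hW)} (hX : Ua Q.S ZG (X.ts (gg d (-1) 1) 1 (one_mul 1)))
    (hV : Ro (Ua Q.S ZG) (X.ts (-tau d) 1 (one_mul 1))) :
    Hp 0 (ZG (X.ts (gg d (-1) 1) 1 (one_mul 1))) ∨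
      ZG (X.ts (gg d (-1) 1) 1 (one_mul 1)) = 0 ∧ Fre Q.S ZG (X.ts (-tau d) 1 (one_mul 1)) := by
  obtain ⟨e1⟩ := shiftnd (X.ts (gg d (-1) 1) 1 (one_mul 1))
  obtain ⟨e2⟩ := tt_iso X (a := gg d (-1) 1) (b := -sig d) (c := -tau d) (by
    rw [sig_gg, tau_gg, gg_neg, gg_neg, gg_add]; norm_num)
  rcases H.ua_pos hX (Ro_of_iso (e1 ≪≫ e2).symm hV) with h | ⟨h, h'⟩
  · exact Or.inl h
  · exact Or.inr ⟨h, H.fre_iso (e1 ≪≫ e2) h'⟩

theorem ZG_tt (X : MF (lg a2 d W hW)) (g : Gd d) :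
    ZG (X.ts g 1 (one_mul 1)) = 0 ↔ ZG X = 0 := by
  rw [ZG_ts']
  constructor
  · intro h
    exact (mul_eq_zero.1 h).resolve_left (Complex.exp_ne_zero _)
  · intro h
    rw [h, mul_zero]

theorem Zc.step {G : MF (lg a2 d W hW)} (h : Zc Q G) : Zc Q (G.ts (-tau d) 1 (one_mul 1)) := by
  have h1 : Ua Q.S ZG (G.ts (gg d (-1) 1) 1 (one_mul 1)) :=
    aisle_of h6 h9 H h.1.1.1 (fun m hm f => Zc.hom h6 H h m hm f)
  have h2 : Ro (Ua Q.S ZG) (G.ts (-tau d) 1 (one_mul 1)) :=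
    ro_ts (fun _ h => ua_t h6 h9 H h) (H.ro_of_fre h.1)
  have h3 : ZG (G.ts (gg d (-1) 1) 1 (one_mul 1)) = 0 :=
    (ZG_tt h6 h9 H G _).2 h.2.1
  rcases heart_aux h6 h9 H h1 h2 with h4 | ⟨h4, h5⟩
  · exact absurd h3 (hp_ne h4)
  · refine ⟨h5, (ZG_tt h6 h9 H G _).2 h.2.1, fun f => ?_⟩
    refine (hzK Q.hd (m := gg d (4 - d) 0) (g := -tau d) ?_).1
      (Zc.hom h6 H h _ ?_) f
    · rw [tau_gg, gg_neg, gg_add]
      congr 1 <;> ring
    · rw [th_gg]; omega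

theorem Zc.iter {G : MF (lg a2 d W hW)} (h : Zc Q G) (n : ℕ) :
    Zc Q (G.ts (-(n • tau d)) 1 (one_mul 1)) := by
  induction n with
  | zero =>
    obtain ⟨e⟩ := ts_zero G
    have e2 : G.ts (-((0 : ℕ) • tau d)) 1 (one_mul 1) = G.ts 0 1 (one_mul 1) := by
      rw [zero_smul, neg_zero]
    rw [e2]
    exact Zc.ofIso H e.symm h
  | succ n ih =>
    obtain ⟨e⟩ := tt_iso G (a := -(n • tau d)) (b := -tau d) (c := -((n + 1) • tau d)) (by
      rw [add_smul, one_smul]; abel)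
    exact Zc.ofIso H e (Zc.step h6 h9 H ih)

theorem Zc.zero {G : MF (lg a2 d W hW)} (h : Zc Q G) : IsZero G := by
  have h1 := Zc.iter h6 h9 H h d
  have h2 := Q.dw_sig 2 h1.1.1.1
  obtain ⟨e⟩ := tt_iso G (a := -(d • tau d)) (b := (2 : ℤ) • sig d) (c := 0) (by
    rw [d_tau, two_smul]; abel)
  obtain ⟨e2⟩ := ts_zero G
  have h3 : Dw Q.S (0 + 2) G := h2.ofIso (e ≪≫ e2)
  exact dv_zero (h3.mono (by norm_num)) h.1.1.2

/-- positivity -/
theorem pos_aux {X : MF (lg a2 d W hW)} (hX : Ua Q.S ZG X)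
    (hV : Ro (Ua Q.S ZG) (X.ts (-tau d) 1 (one_mul 1))) (h0 : ¬ IsZero X) :
    Hp 0 (ZG X) ∧ Hp 0 (ZG (X.ts (gg d (-1) 1) 1 (one_mul 1))) := by
  have hX' := ua_s h6 h9 H hX
  have h2 : Hp 0 (ZG (X.ts (gg d (-1) 1) 1 (one_mul 1))) := by
    rcases heart_aux h6 h9 H hX' hV with h | ⟨h, h'⟩
    · exact h
    · exfalso
      have hG : Zc Q (X.ts (-tau d) 1 (one_mul 1)) := by
        refine ⟨h', (ZG_tt h6 h9 H X _).2 ((ZG_tt h6 h9 H X _).1 h), fun f => ?_⟩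
        refine (hzK Q.hd (m := gg d (4 - d) 0) (g := -tau d) ?_).1
          (fun f => va_K h6 h9 H ?_ X hX f) f
        · rw [tau_gg, gg_neg, gg_add]
          congr 1 <;> ring
        · rw [th_gg]; omega
      have h1 := Zc.zero h6 h9 H hG
      obtain ⟨e⟩ := ts_ts_iso' X (tau d)
      exact h0 ((ts_isZero (tau d) _ h1).of_iso e.symm)
  refine ⟨?_, h2⟩
  -- the object belongs to the heart
  have h1 : Ro (Ua Q.S ZG) (X⟦(-1 : ℤ)⟧) := by
    obtain ⟨e1⟩ := shiftnd X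
    obtain ⟨e2⟩ := tt_iso X (a := -tau d) (b := -gg d (-1) 1) (c := -sig d) (by
      rw [sig_gg, tau_gg, gg_neg, gg_neg, gg_neg, gg_add]; norm_num)
    exact Ro_of_iso (e2 ≪≫ e1.symm) (ro_ts (fun _ h => ua_s h6 h9 H h) hV)
  rcases H.ua_pos hX h1 with h | ⟨h, -⟩
  · exact h
  · exact absurd ((ZG_tt h6 h9 H X _).2 h) (hp_ne h2)

omit H in
/-- binary forms of degree between six and nine have a stability condition of Gepner type -/
theorem Qb.gepner (Q : Qb hW) (hs : ∀ x : Fin 2 → ℂ, (∀ i, eval x (pderiv i W) = 0) ↔ x = 0) :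
    HasGepner hW := by
  have hs' : ∀ x : Fin 2 → ℂ, (∀ i, eval x (pderiv i W) = 0) → x = 0 := fun x => (hs x).1
  have H := Q.tl2 hs'
  refine crit_mp (fun _ => by norm_num) Q.h3 hs
    { U := Ua Q.S ZG
      iso := fun e h => H.ua_iso e h
      m0 := fun X hX => ?_
      tr := fun X => H.ua_tr X
      up := fun X => ?_
      dn := fun X => ?_
      m1 := fun X hX => ua_t h6 h9 H hX
      pos := fun X hX hV h0 => ?_ }
  · obtain ⟨e⟩ := shift_iso X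
    exact H.ua_iso e (H.ua_sh hX)
  · obtain ⟨k, m, hX⟩ := Q.gen hs' X
    refine ⟨1 - k, H.ua_of_dw ?_⟩
    have := Q.dw_sig (1 - k) (t := k) ⟨m, hX⟩
    rwa [add_sub_cancel] at this
  · obtain ⟨k, m, hX⟩ := Q.gen hs' X
    obtain ⟨t, ht⟩ := Q.word_vw hX
    refine ⟨-t, fun Y hY => ?_⟩
    have := Q.vw_sig (-t) ht
    rw [add_neg_cancel] at this
    exact this Y (H.ua_dw hY)
  · obtain ⟨h2, h5⟩ := pos_aux h6 h9 H hX hV h0
    have h7 : Ph 0 1 (ZG X) := h2.polar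
    have h8 := TS.Ph_ts (show Ph 0 1 (ZG (X.ts (gg d (-1) 1) 1 (one_mul 1))) from h5.polar)
    rw [th_gg] at h8
    have hd' : (6 : ℝ) ≤ d := by exact_mod_cast h6
    have e0 : (((2 * (-1) + (d : ℤ) * 1 : ℤ) : ℝ) / d : ℝ) = 1 - 2 / d := by
      push_cast
      field_simp
      ring
    rw [e0] at h8
    have h10 : (2 : ℝ) / d ≤ 1 := by
      rw [div_le_one (by linarith)]; linarith
    have h11 : (0 : ℝ) < 2 / d := by positivity
    have h9 := Ph.inter h7 h8 (by linarith) (by linarith)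
    have e : (1 - (1 - 2 / d) : ℝ) = 2 / d := by ring
    rwa [e] at h9

end Pool.Agent.Helper445_GMF.Bf
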