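import Mathlib

/-!
Binary forms are products of linear forms.
-/

set_option autoImplicit false
set_option linter.unusedSectionVars false

open MvPolynomial

namespace Pool.Agent.Helper445_GMF

theorem hom_aeval {R : Type} [CommRing R] [Algebra ℂ R] {n : ℕ} {f : MvPolynomial (Fin 2) ℂ}
    (hf : f.IsHomogeneous n) (s : R) (v : Fin 2 → R) :
    aeval (fun i => s * v i) f = s ^ n * aeval v f := by
  rw [aeval_def, aeval_def, eval₂_eq', eval₂_eq', Finset.mul_sum]
  refine Finset.sum_congr rfl fun m hm => ?_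
  have h1 : ∑ i, m i = n := by
    have h2 := hf (mem_support_iff.1 hm)
    rw [Finsupp.weight_apply, Finsupp.sum_fintype _ _ (fun i => by simp)] at h2
    simpa using h2
  simp only [mul_pow, Finset.prod_mul_distrib, Finset.prod_pow_eq_pow_sum]
  rw [h1]
  ring

theorem eval_poly (f : MvPolynomial (Fin 2) ℂ) (v : Fin 2 → Polynomial ℂ) (t : ℂ) :
    (aeval v f : Polynomial ℂ).eval t = eval (fun i => (v i).eval t) f := by
  have h : ((Polynomial.aeval t).comp (MvPolynomial.aeval v)) =
      MvPolynomial.aeval (fun i => (v i).eval t) := by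
    apply MvPolynomial.algHom_ext
    intro i
    simp
  have h2 := AlgHom.congr_fun h f
  rw [AlgHom.comp_apply, Polynomial.coe_aeval_eq_eval] at h2
  rw [h2, MvPolynomial.aeval_eq_eval]

theorem poly_const {p : Polynomial ℂ} (h : ∀ t, p.eval t ≠ 0) (s t : ℂ) :
    p.eval s = p.eval t := by
  have h1 : p.degree = 0 := by
    by_contra hc
    obtain ⟨t, ht⟩ := IsAlgClosed.exists_root p hc
    exact h t ht
  rw [Polynomial.eq_C_of_degree_eq_zero h1]
  simp

/-- a binary form of positive degree has a nontrivial zero -/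
theorem exists_zero2 {n : ℕ} {f : MvPolynomial (Fin 2) ℂ} (hf : f.IsHomogeneous n)
    (hn : 0 < n) : ∃ x : Fin 2 → ℂ, x ≠ 0 ∧ eval x f = 0 := by
  by_contra hc
  push Not at hc
  have ha : ∀ t : ℂ, eval ![t, 1] f ≠ 0 := fun t => hc _ fun h => by
    have := congrFun h 1
    simp at this
  have hb : ∀ t : ℂ, eval ![1, t] f ≠ 0 := fun t => hc _ fun h => by
    have := congrFun h 0
    simp at this
  have ea : ∀ t : ℂ, (aeval (![Polynomial.X, 1] : Fin 2 → Polynomial ℂ) f).eval t =
      eval ![t, 1] f := by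
    intro t
    rw [eval_poly]
    congr 2
    funext i
    fin_cases i <;> simp
  have eb : ∀ t : ℂ, (aeval (![1, Polynomial.X] : Fin 2 → Polynomial ℂ) f).eval t =
      eval ![1, t] f := by
    intro t
    rw [eval_poly]
    congr 2
    funext i
    fin_cases i <;> simp
  have ca : ∀ s t : ℂ, eval ![s, 1] f = eval ![t, 1] f := by
    intro s t
    rw [← ea, ← ea]
    exact poly_const (fun t => by rw [ea]; exact ha t) s t
  have cb : ∀ s t : ℂ, eval ![1, s] f = eval ![1, t] f := by
    intro s t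
    rw [← eb, ← eb]
    exact poly_const (fun t => by rw [eb]; exact hb t) s t
  have h1 : eval ![1, 2] f = 2 ^ n * eval ![1 / 2, 1] f := by
    have := hom_aeval hf (2 : ℂ) ![1 / 2, 1]
    rw [MvPolynomial.aeval_eq_eval, MvPolynomial.aeval_eq_eval] at this
    rw [← this]
    congr 2
    funext i
    fin_cases i <;> simp
  rw [cb 2 1, ca (1 / 2) 1] at h1
  have h2 : (2 ^ n - 1 : ℂ) * eval ![1, 1] f = 0 := by linear_combination -h1
  rcases mul_eq_zero.1 h2 with h3 | h3
  · have h4 : ((2 ^ n : ℕ) : ℂ) = ((1 : ℕ) : ℂ) := by push_cast; linear_combination h3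
    have h5 : 2 ^ n = 1 := by exact_mod_cast h4
    have h6 := Nat.one_lt_two_pow hn.ne'
    omega
  · exact ha 1 h3

/-- a binary form vanishing at a point is divisible by the linear form of this point -/
theorem lin_dvd {n : ℕ} {f : MvPolynomial (Fin 2) ℂ} (hf : f.IsHomogeneous n)
    {x : Fin 2 → ℂ} (hx : x ≠ 0) (h : eval x f = 0) :
    (C (x 1) * X 0 - C (x 0) * X 1 : MvPolynomial (Fin 2) ℂ) ∣ f := by
  obtain ⟨k, hk⟩ := Function.ne_iff.1 hx
  have hk : x k ≠ 0 := hk
  set l : MvPolynomial (Fin 2) ℂ := C (x 1) * X 0 - C (x 0) * X 1 with hl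
  set I : Ideal (MvPolynomial (Fin 2) ℂ) := Ideal.span {l} with hI
  let A := MvPolynomial (Fin 2) ℂ ⧸ I
  let v : Fin 2 → A := fun i => Ideal.Quotient.mk I (X i)
  have hl0 : Ideal.Quotient.mk I l = 0 := Ideal.Quotient.eq_zero_iff_mem.2
    (Ideal.subset_span (Set.mem_singleton _))
  have h01 : algebraMap ℂ A (x 1) * v 0 = algebraMap ℂ A (x 0) * v 1 := by
    rw [hl, map_sub, map_mul, map_mul] at hl0
    exact sub_eq_zero.1 hl0
  have h1 : ∀ i, algebraMap ℂ A (x k) * v i = v k * algebraMap ℂ A (x i) := by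
    intro i
    have h2 : k = 0 ∨ k = 1 := by fin_cases k <;> simp
    have h3 : i = 0 ∨ i = 1 := by fin_cases i <;> simp
    rcases h2 with rfl | rfl <;> rcases h3 with rfl | rfl
    · ring
    · rw [← h01]; ring
    · rw [h01]; ring
    · ring
  have h2 := hom_aeval hf (algebraMap ℂ A (x k)) v
  have h3 := hom_aeval hf (v k) (fun i => algebraMap ℂ A (x i))
  have h4 : (fun i => algebraMap ℂ A (x k) * v i) = fun i => v k * algebraMap ℂ A (x i) :=
    funext h1
  rw [h4, h3] at h2
  have h5 : aeval (fun i => algebraMap ℂ A (x i)) f = algebraMap ℂ A (eval x f) := by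
    refine (MvPolynomial.aeval_algebraMap_apply A x f).trans ?_
    rw [MvPolynomial.aeval_eq_eval]
  have h6 : aeval v f = Ideal.Quotient.mk I f := by
    have : (aeval v : MvPolynomial (Fin 2) ℂ →ₐ[ℂ] A) = Ideal.Quotient.mkₐ ℂ I := by
      apply MvPolynomial.algHom_ext
      intro i
      rw [aeval_X]
      rfl
    rw [this]
    rfl
  rw [h5, h, map_zero, mul_zero, h6] at h2
  have h7 : Ideal.Quotient.mk I (C (x k ^ n) * f) = 0 := by
    rw [map_mul, h2]
    congr 1
    rw [C_pow, map_pow]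
    rfl
  have h8 := Ideal.mem_span_singleton.1 (Ideal.Quotient.eq_zero_iff_mem.1 h7)
  have h9 : f = C ((x k ^ n)⁻¹) * (C (x k ^ n) * f) := by
    rw [← mul_assoc, ← C_mul, inv_mul_cancel₀ (pow_ne_zero n hk), C_1, one_mul]
  rw [h9]
  exact Dvd.dvd.mul_left h8 _

theorem lin_hom (α β : ℂ) : (C α * X 0 + C β * X 1 : MvPolynomial (Fin 2) ℂ).IsHomogeneous 1 :=
  (isHomogeneous_C_mul_X α 0).add (isHomogeneous_C_mul_X β 1)

attribute [local instance] MvPolynomial.gradedAlgebra in
theorem hom_cofactor {n : ℕ} {l g : MvPolynomial (Fin 2) ℂ} (hl : l.IsHomogeneous 1)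
    (hf : (l * g).IsHomogeneous (n + 1)) : ∃ g' : MvPolynomial (Fin 2) ℂ, g'.IsHomogeneous n ∧
      l * g = l * g' := by
  refine ⟨homogeneousComponent n g, homogeneousComponent_isHomogeneous n g, ?_⟩
  have h1 := DirectSum.coe_decompose_mul_add_of_left_mem (homogeneousSubmodule (Fin 2) ℂ)
    (a := l) (b := g) (i := 1) (j := n) hl
  have h2 : homogeneousComponent (1 + n) (l * g) = l * homogeneousComponent n g :=
    (decomposition.decompose'_apply (l * g) (1 + n)).symm.trans
      (h1.trans (congrArg (l * ·) (decomposition.decompose'_apply g n)))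
  rw [← h2, add_comm 1 n]
  exact (homogeneousComponent_eq_self hf).symm

/-- binary forms are products of linear forms -/
theorem bin_fact : ∀ (n : ℕ) (f : MvPolynomial (Fin 2) ℂ), f.IsHomogeneous n →
    ∃ (c : ℂ) (α β : Fin n → ℂ), f = C c * ∏ i, (C (α i) * X 0 + C (β i) * X 1) := by
  intro n
  induction n with
  | zero =>
    intro f hf
    refine ⟨coeff 0 f, Fin.elim0, Fin.elim0, ?_⟩
    rw [Fin.prod_univ_zero, mul_one]
    exact totalDegree_eq_zero_iff_eq_C.1 (Nat.le_zero.1 hf.totalDegree_le)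
  | succ n ih =>
    intro f hf
    obtain ⟨x, hx, h0⟩ := exists_zero2 hf (Nat.succ_pos n)
    obtain ⟨g, hg⟩ := lin_dvd hf hx h0
    have e : (C (x 1) * X 0 - C (x 0) * X 1 : MvPolynomial (Fin 2) ℂ) =
        C (x 1) * X 0 + C (-x 0) * X 1 := by
      rw [C_neg]; ring
    rw [e] at hg
    rw [hg] at hf
    obtain ⟨g', hg', e'⟩ := hom_cofactor (lin_hom _ _) hf
    obtain ⟨c, α, β, h⟩ := ih g' hg'
    refine ⟨c, Fin.cons (x 1) α, Fin.cons (-x 0) β, ?_⟩
    rw [hg, e', h, Fin.prod_univ_succ]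
    simp only [Fin.cons_zero, Fin.cons_succ]
    ring

end Pool.Agent.Helper445_GMF
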