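import Pool.Agent.Helper445_GMF.Qn14
import Pool.Agent.Helper445_GMF.Bin

/-!
Binary quintics with an isolated singularity.
-/

set_option autoImplicit false
set_option linter.unusedSectionVars false

open CategoryTheory Matrix Pretriangulated Triangulated Limits MvPolynomial ZeroObject

namespace Pool.Agent.Helper445_GMF

/-- a common zero of two linear forms is a singular point of their product -/
theorem pderiv_zero {l l' g : MvPolynomial (Fin 2) ℂ} {x : Fin 2 → ℂ} (h : eval x l = 0)
    (h' : eval x l' = 0) (i : Fin 2) : eval x (pderiv i (l * l' * g)) = 0 := by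
  rw [Derivation.leibniz, Derivation.leibniz]
  simp [h, h']

theorem common_zero {α β α' β' : ℂ} (h : α * β' - α' * β = 0) : ∃ x : Fin 2 → ℂ, x ≠ 0 ∧
    α * x 0 + β * x 1 = 0 ∧ α' * x 0 + β' * x 1 = 0 := by
  by_cases h1 : α = 0 ∧ β = 0
  · by_cases h2 : α' = 0 ∧ β' = 0
    · refine ⟨![1, 0], fun h => ?_, ?_, ?_⟩
      · have := congrFun h 0
        simp at this
      · simp [h1.1]
      · simp [h2.1]
    · refine ⟨![β', -α'], fun h => h2 ?_, ?_, ?_⟩
      · have h3 := congrFun h 0
        have h4 := congrFun h 1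
        simp at h3 h4
        exact ⟨h4, h3⟩
      · simp [h1.1, h1.2]
      · simp; ring
  · refine ⟨![β, -α], fun h => h1 ?_, ?_, ?_⟩
    · have h3 := congrFun h 0
      have h4 := congrFun h 1
      simp at h3 h4
      exact ⟨h4, h3⟩
    · simp; ring
    · simp
      linear_combination -h

theorem Qd.exists {W : MvPolynomial (Fin 2) ℂ} (hW : IsWeightedHomogeneous a2 W 5)
    (hs : ∀ x : Fin 2 → ℂ, (∀ i, eval x (pderiv i W) = 0) ↔ x = 0) : Nonempty (Qd hW) := by
  obtain ⟨c, α0, β0, hW0⟩ := bin_fact 5 W hW
  obtain ⟨α, β, hWp⟩ : ∃ α β : Fin 5 → ℂ, W = ∏ p, (C (α p) * X 0 + C (β p) * X 1) := by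
    refine ⟨fun p => if p = 0 then c * α0 0 else α0 p, fun p => if p = 0 then c * β0 0 else β0 p,
      ?_⟩
    rw [hW0, Fin.prod_univ_five, Fin.prod_univ_five]
    simp
    ring
  -- independence
  have hind : ∀ p q, p ≠ q → α p * β q - α q * β p ≠ 0 := by
    intro p q hpq h
    obtain ⟨x, hx, h1, h2⟩ := common_zero h
    apply hx
    rw [← hs x]
    intro i
    have h3 : W = (C (α p) * X 0 + C (β p) * X 1) * (C (α q) * X 0 + C (β q) * X 1) *
        ∏ r ∈ (Finset.univ.erase p).erase q, (C (α r) * X 0 + C (β r) * X 1) := by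
      have h4 := Finset.mul_prod_erase (Finset.univ.erase p)
        (fun r => (C (α r) * X 0 + C (β r) * X 1 : MvPolynomial (Fin 2) ℂ))
        (Finset.mem_erase.2 ⟨hpq.symm, Finset.mem_univ q⟩)
      have h5 := Finset.mul_prod_erase Finset.univ
        (fun r => (C (α r) * X 0 + C (β r) * X 1 : MvPolynomial (Fin 2) ℂ))
        (Finset.mem_univ p)
      rw [mul_assoc]
      refine hWp.trans (h5.symm.trans ?_)
      rw [← h4]
    rw [h3]
    exact pderiv_zero (by simpa using h1) (by simpa using h2) i
  have hfac : ∀ p, (C (α p) * X 0 + C (β p) * X 1) *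
      ∏ r ∈ Finset.univ.erase p, (C (α r) * X 0 + C (β r) * X 1) = W := by
    intro p
    exact (Finset.mul_prod_erase Finset.univ
      (fun r => (C (α r) * X 0 + C (β r) * X 1 : MvPolynomial (Fin 2) ℂ))
      (Finset.mem_univ p)).trans hWp.symm
  have hprod : ∀ s : Finset (Fin 5), IsWeightedHomogeneous (wt a2 5)
      (∏ r ∈ s, (C (α r) * X 0 + C (β r) * X 1) : MvPolynomial (Fin 2) ℂ)
      (zz (2 * (s.card : ℤ))) := by
    intro s
    induction s using Finset.induction_on with
    | empty =>
      rw [Finset.prod_empty, Finset.card_empty]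
      exact isWeightedHomogeneous_one ℂ (wt a2 5)
    | insert p s hp ih =>
      rw [Finset.prod_insert hp, Finset.card_insert_of_notMem hp]
      have h1 := (lin_mem2 (α p) (β p)).mul ih
      rw [← zz_add] at h1
      have e : 2 + 2 * (s.card : ℤ) = 2 * ((s.card + 1 : ℕ) : ℤ) := by push_cast; ring
      rwa [e] at h1
  refine ⟨{ F := fun p =>
              { f := C (α p) * X 0 + C (β p) * X 1
                h := ∏ r ∈ Finset.univ.erase p, (C (α r) * X 0 + C (β r) * X 1)
                hf := lin_mem2 (α p) (β p)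
                hh := ?_
                e := hfac p
                α := α p
                β := β p
                ef := rfl
                ne := ?_ }
            prod := hWp
            ind := hind }⟩
  · have h1 := hprod (Finset.univ.erase p)
    have e : 2 * (((Finset.univ.erase p : Finset (Fin 5)).card : ℕ) : ℤ) = 10 - 2 * 1 := by
      rw [Finset.card_erase_of_mem (Finset.mem_univ p)]
      simp
    rwa [e] at h1
  · rintro ⟨h1, h2⟩
    obtain ⟨q, hq⟩ : ∃ q : Fin 5, p ≠ q := by
      by_cases h : p = 0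
      · exact ⟨1, by rw [h]; decide⟩
      · exact ⟨0, h⟩
    apply hind p q hq
    rw [h1, h2]
    ring

/-- every binary quintic form with an isolated singularity has a stability condition of Gepner
type -/
theorem quintic_gepner {W : MvPolynomial (Fin 2) ℂ} (hW : IsWeightedHomogeneous a2 W 5)
    (hs : ∀ x : Fin 2 → ℂ, (∀ i, eval x (pderiv i W) = 0) ↔ x = 0) : HasGepner hW := by
  obtain ⟨Q⟩ := Qd.exists hW hs
  exact Q.gepner hs

end Pool.Agent.Helper445_GMF
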