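import Pool.Agent.Helper445_GMF.Bf12
import Pool.Agent.Helper445_GMF.Qn15

/-!
Binary forms with an isolated singularity.
-/

set_option autoImplicit false
set_option linter.unusedSectionVars false

open CategoryTheory Matrix Pretriangulated Triangulated Limits MvPolynomial ZeroObject

namespace Pool.Agent.Helper445_GMF.Bf

theorem Qb.exists {d : ℕ} (h3 : 3 ≤ d) {W : MvPolynomial (Fin 2) ℂ}
    (hW : IsWeightedHomogeneous a2 W d)
    (hs : ∀ x : Fin 2 → ℂ, (∀ i, eval x (pderiv i W) = 0) ↔ x = 0) : Nonempty (Qb hW) := by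
  classical
  obtain ⟨c, α0, β0, hW0⟩ := bin_fact d W hW
  have hd : 0 < d := by omega
  let z : Fin d := ⟨0, hd⟩
  obtain ⟨α, β, hWp⟩ : ∃ α β : Fin d → ℂ, W = ∏ p, (C (α p) * X 0 + C (β p) * X 1) := by
    refine ⟨fun p => if p = z then c * α0 z else α0 p, fun p => if p = z then c * β0 z else β0 p,
      ?_⟩
    rw [hW0, ← Finset.mul_prod_erase Finset.univ _ (Finset.mem_univ z),
      ← Finset.mul_prod_erase Finset.univ _ (Finset.mem_univ z)]
    simp only [if_true]
    rw [C_mul, C_mul]
    have e : ∏ x ∈ Finset.univ.erase z, (C (if x = z then c * α0 z else α0 x) * X 0 +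
        C (if x = z then c * β0 z else β0 x) * X 1 : MvPolynomial (Fin 2) ℂ) =
        ∏ x ∈ Finset.univ.erase z, (C (α0 x) * X 0 + C (β0 x) * X 1) := by
      refine Finset.prod_congr rfl fun x hx => ?_
      rw [if_neg (Finset.ne_of_mem_erase hx), if_neg (Finset.ne_of_mem_erase hx)]
    rw [e]
    ring
  -- independence
  have hind : ∀ p q, p ≠ q → α p * β q - α q * β p ≠ 0 := by
    intro p q hpq h
    obtain ⟨x, hx, h1, h2⟩ := common_zero h
    apply hx
    rw [← hs x]
    intro i
    have h3 : W = (C (α p) * X 0 + C (β p) * X 1) * (C (α q) * X 0 + C (β q) * X 1) *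
        ∏ r ∈ (Finset.univ.erase p).erase q, (C (α r) * X 0 + C (β r) * X 1) := by
      have h4 := Finset.mul_prod_erase (Finset.univ.erase p)
        (fun r => (C (α r) * X 0 + C (β r) * X 1 : MvPolynomial (Fin 2) ℂ))
        (Finset.mem_erase.2 ⟨hpq.symm, Finset.mem_univ q⟩)
      have h5 := Finset.mul_prod_erase Finset.univ
        (fun r => (C (α r) * X 0 + C (β r) * X 1 : MvPolynomial (Fin 2) ℂ))
        (Finset.mem_univ p)
      rw [mul_assoc]
      refine hWp.trans (h5.symm.trans ?_)
      rw [← h4]
    rw [h3]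
    exact pderiv_zero (by simpa using h1) (by simpa using h2) i
  have hfac : ∀ p, (C (α p) * X 0 + C (β p) * X 1) *
      ∏ r ∈ Finset.univ.erase p, (C (α r) * X 0 + C (β r) * X 1) = W := by
    intro p
    exact (Finset.mul_prod_erase Finset.univ
      (fun r => (C (α r) * X 0 + C (β r) * X 1 : MvPolynomial (Fin 2) ℂ))
      (Finset.mem_univ p)).trans hWp.symm
  have hprod : ∀ s : Finset (Fin d), IsWeightedHomogeneous (wt a2 d)
      (∏ r ∈ s, (C (α r) * X 0 + C (β r) * X 1) : MvPolynomial (Fin 2) ℂ)
      (gg d (s.card : ℤ) 0) := by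
    intro s
    induction s using Finset.induction_on with
    | empty =>
      rw [Finset.prod_empty, Finset.card_empty, Nat.cast_zero, ← zero_gg]
      exact isWeightedHomogeneous_one ℂ (wt a2 d)
    | insert p s hp ih =>
      rw [Finset.prod_insert hp, Finset.card_insert_of_notMem hp]
      have h1 := (lin_memd (d := d) (α p) (β p)).mul ih
      rw [tau_gg, gg_add] at h1
      have e : (1 : ℤ) + (s.card : ℤ) = ((s.card + 1 : ℕ) : ℤ) := by push_cast; ring
      rwa [e, add_zero] at h1
  refine ⟨{ h3 := h3
            F := fun p =>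
              { f := C (α p) * X 0 + C (β p) * X 1
                h := ∏ r ∈ Finset.univ.erase p, (C (α r) * X 0 + C (β r) * X 1)
                hf := lin_memd (α p) (β p)
                hh := ?_
                e := hfac p
                α := α p
                β := β p
                ef := rfl
                ne := ?_ }
            prod := hWp
            ind := hind }⟩
  · have h1 := hprod (Finset.univ.erase p)
    have e : gg d ((Finset.univ.erase p : Finset (Fin d)).card : ℤ) 0 =
        sig d + sig d - tau d := by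
      rw [Finset.card_erase_of_mem (Finset.mem_univ p), tau_gg, sig_gg, gg_add, gg_sub,
        Finset.card_univ, Fintype.card_fin]
      refine gg_ext (-1) ?_ (by norm_num)
      rw [Nat.cast_sub (by omega)]
      push_cast
      ring
    rwa [e] at h1
  · rintro ⟨h1, h2⟩
    obtain ⟨q, hq⟩ : ∃ q : Fin d, p ≠ q := by
      by_cases h : p = z
      · refine ⟨⟨1, by omega⟩, ?_⟩
        rw [h]
        intro h'
        have := congrArg Fin.val h'
        simp [z] at this
      · exact ⟨z, h⟩
    apply hind p q hq
    rw [h1, h2]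
    ring

/-- every binary form of degree between five and nine with an isolated singularity has a stability
condition of Gepner type -/
theorem form_gepner {d : ℕ} (h5 : 5 ≤ d) (h9 : d ≤ 9) {W : MvPolynomial (Fin 2) ℂ}
    (hW : IsWeightedHomogeneous a2 W d)
    (hs : ∀ x : Fin 2 → ℂ, (∀ i, eval x (pderiv i W) = 0) ↔ x = 0) : HasGepner hW := by
  rcases Nat.eq_or_lt_of_le h5 with h | h
  · subst h
    exact quintic_gepner hW hs
  · obtain ⟨Q⟩ := Qb.exists (by omega) hW hs
    exact Q.gepner h h9 hs

end Pool.Agent.Helper445_GMF.Bf
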