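import Pool.Agent.Helper445_GMF.Bf2
import Pool.Agent.Helper445_GMF.Trs

/-!
Binary forms of degree `d`: the grading group and morphisms.
-/

set_option autoImplicit false
set_option linter.unusedSectionVars false

open CategoryTheory Matrix Pretriangulated Triangulated Limits MvPolynomial ZeroObject

namespace Pool.Agent.Helper445_GMF.Bf

/-- the elements of the grading group -/
def gg (d : ℕ) (j k : ℤ) : Gd d := j • tau d + k • sig d

section group

variable {d : ℕ}

theorem th_gg (j k : ℤ) : th d (gg d j k) = 2 * j + d * k := by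
  rw [gg, th_add, th_zsmul, th_zsmul, th_tau, th_sig]; ring

theorem snd_gg (j k : ℤ) : (gg d j k).1.2 = (k : ZMod 2) := by
  simp [gg, tau, sig]

theorem gext {g h : Gd d} (e : th d g = th d h) (e' : g.1.2 = h.1.2) : g = h := by
  ext
  · exact e
  · exact e'

theorem gg_ext {j k j' k' : ℤ} (m : ℤ) (h1 : j' = j + d * m) (h2 : k' = k - 2 * m) :
    gg d j k = gg d j' k' := by
  subst h1 h2
  refine gext ?_ ?_
  · rw [th_gg, th_gg]; ring
  · rw [snd_gg, snd_gg]
    push_cast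
    have : (2 : ZMod 2) = 0 := by decide
    rw [this]; ring

theorem gg_inj (hd : 0 < d) {j k j' k' : ℤ} (h : gg d j k = gg d j' k') :
    ∃ m : ℤ, j' = j + d * m ∧ k' = k - 2 * m := by
  have h1 := congrArg (th d) h
  rw [th_gg, th_gg] at h1
  have h2 : (gg d j k).1.2 = (gg d j' k').1.2 := by rw [h]
  rw [snd_gg, snd_gg, ZMod.intCast_eq_intCast_iff_dvd_sub] at h2
  obtain ⟨m, hm⟩ := h2
  refine ⟨-m, ?_, by push_cast at hm; linarith⟩
  push_cast at hm
  have h3 : k' = k + 2 * m := by linarith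
  rw [h3] at h1
  have h4 : 2 * j' = 2 * (j + d * -m) := by linarith
  linarith

theorem exists_gg (hd : 0 < d) (g : Gd d) : ∃ j k : ℤ, 3 - (d : ℤ) ≤ j ∧ j ≤ 2 ∧
    g = gg d j k := by
  obtain ⟨j0, k0, h0⟩ : ∃ j k : ℤ, g = gg d j k := by
    have h1 : ((g.1.1 : ℤ) : ZMod 2) = ((d : ℕ) : ZMod 2) * g.1.2 := g.2
    rcases zmod2 g.1.2 with h | h
    · rw [h, mul_zero, ZMod.intCast_zmod_eq_zero_iff_dvd] at h1
      obtain ⟨m, hm⟩ := h1
      refine ⟨m, 0, gext ?_ ?_⟩
      · rw [th_gg]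
        show g.1.1 = _
        rw [hm]; push_cast; ring
      · rw [snd_gg, h]; simp
    · rw [h, mul_one] at h1
      have h2 : ((d : ℕ) : ZMod 2) = ((d : ℤ) : ZMod 2) := by simp
      rw [h2, ZMod.intCast_eq_intCast_iff_dvd_sub] at h1
      obtain ⟨m, hm⟩ := h1
      refine ⟨-m, 1, gext ?_ ?_⟩
      · rw [th_gg]
        show g.1.1 = _
        push_cast at hm
        linarith
      · rw [snd_gg, h]; simp
  have hd' : (0 : ℤ) < d := by exact_mod_cast hd
  have e1 := Int.emod_add_mul_ediv (j0 - (3 - d)) d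
  have e2 := Int.emod_nonneg (j0 - (3 - d)) hd'.ne'
  have e3 := Int.emod_lt_of_pos (j0 - (3 - d)) hd'
  refine ⟨(j0 - (3 - d)) % d + (3 - d), k0 + 2 * ((j0 - (3 - d)) / d), by linarith, by omega, ?_⟩
  rw [h0]
  refine gg_ext (-((j0 - (3 - d)) / d)) ?_ (by ring)
  linear_combination e1

theorem gg_add (j k j' k' : ℤ) : gg d j k + gg d j' k' = gg d (j + j') (k + k') := by
  simp only [gg, add_smul]; abel

theorem gg_sub (j k j' k' : ℤ) : gg d j k - gg d j' k' = gg d (j - j') (k - k') := by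
  simp only [gg, sub_smul]; abel

theorem gg_neg (j k : ℤ) : -gg d j k = gg d (-j) (-k) := by
  simp only [gg, neg_smul]; abel

theorem tau_gg : tau d = gg d 1 0 := by simp [gg]
theorem sig_gg : sig d = gg d 0 1 := by simp [gg]
theorem zero_gg : (0 : Gd d) = gg d 0 0 := by simp [gg]

end group

variable {d : ℕ} {W : MvPolynomial (Fin 2) ℂ} {hW : IsWeightedHomogeneous a2 W d}

/-- degrees of the monomials -/
theorem deg_eq {p : MvPolynomial (Fin 2) ℂ} {g : Gd d}
    (hp : IsWeightedHomogeneous (wt a2 d) p g) {m : Fin 2 →₀ ℕ} (hm : coeff m p ≠ 0) :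
    (Finsupp.weight a2 m) • tau d = g := by
  have h1 := hp hm
  rwa [weight_wt] at h1

theorem th_nsmul_tau (m : ℕ) : th d (m • tau d) = 2 * m := by
  show (m • tau d).1.1 = _
  simp [tau]
  ring

theorem hom_z {p : MvPolynomial (Fin 2) ℂ} {g : Gd d}
    (hp : IsWeightedHomogeneous (wt a2 d) p g) (h : th d g < 0 ∨ g.1.2 ≠ 0) : p = 0 := by
  ext m
  rw [coeff_zero]
  by_contra hc
  have h1 := deg_eq hp hc
  rcases h with h | h
  · rw [← h1, th_nsmul_tau] at h
    omega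
  · apply h
    rw [← h1]
    exact smul_tau_snd _

theorem hom_c {p : MvPolynomial (Fin 2) ℂ} {g : Gd d}
    (hp : IsWeightedHomogeneous (wt a2 d) p g) (h : th d g = 0) : p = C (constantCoeff p) := by
  ext m
  rw [coeff_C]
  split_ifs with h0
  · rw [← h0]; rfl
  · by_contra hc
    have h1 := deg_eq hp hc
    rw [← h1, th_nsmul_tau] at h
    have h2 : Finsupp.weight a2 m = 0 := by omega
    apply h0
    rw [Finsupp.weight_apply, Finsupp.sum_fintype _ _ (fun i => by simp)] at h2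
    simp only [smul_eq_mul, mul_one, Finset.sum_eq_zero_iff] at h2
    ext i
    exact (h2 i (Finset.mem_univ i)).symm

/-- morphisms vanish for degree reasons -/
theorem hom_deg {X Y : MF (lg a2 d W hW)}
    (h : ∀ i j, th d (Y.g i) - th d (X.g j) < 0 ∨ (Y.g i).1.2 - (X.g j).1.2 ≠ 0)
    (f : X ⟶ Y) : f = 0 := by
  obtain ⟨f, hf, rfl⟩ := hm_surj f
  have h0 : f = 0 := by
    ext1 i j
    refine hom_z (hf.1 i j) ?_
    rcases h i j with h | h
    · left
      show th d (Y.g i - X.g j + 0) < 0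
      rw [add_zero, th_sub]
      exact h
    · right
      show (Y.g i - X.g j + 0).1.2 ≠ 0
      rw [add_zero]
      exact h
  subst h0
  exact hm_eq_zero_iff.2 N_zero

theorem JJ_Hg (hW : IsWeightedHomogeneous a2 W d) {m : Gd d}
    {g g' : (Fin 1 ⊕ Fin 1) ⊕ (Fin 1 ⊕ Fin 1) → Gd d} (hg : KG m g)
    (h1 : ∀ i, g' (Sum.inl (Sum.inl i)) = m - tau d - tau d + sig d + sig d)
    (h2 : ∀ i, g' (Sum.inl (Sum.inr i)) = m - tau d + sig d)
    (h3 : ∀ i, g' (Sum.inr (Sum.inl i)) = m - tau d + sig d)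
    (h4 : ∀ i, g' (Sum.inr (Sum.inr i)) = m) :
    JJ (I := Fin 1) ∈ Hg (L := lg a2 d W hW) g g' 0 ∧
      JJ (I := Fin 1) ∈ Hg (L := lg a2 d W hW) g' g 0 := by
  constructor
  · rintro ((i | i) | (i | i)) ((j | j) | (j | j))
    all_goals try exact Submodule.zero_mem _
    · refine oneg ?_
      rw [h1, (hg j).2.2.2]; abel
    · refine Submodule.neg_mem _ (oneg ?_)
      rw [h2, (hg j).2.2.1]; abel
    · refine oneg ?_
      rw [h3, (hg j).2.1]; abel
    · refine Submodule.neg_mem _ (oneg ?_)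
      rw [h4, (hg j).1]; abel
  · rintro ((i | i) | (i | i)) ((j | j) | (j | j))
    all_goals try exact Submodule.zero_mem _
    · refine oneg ?_
      rw [(hg i).1, h4]; abel
    · refine Submodule.neg_mem _ (oneg ?_)
      rw [(hg i).2.1, h3]; abel
    · refine oneg ?_
      rw [(hg i).2.2.1, h2]; abel
    · refine Submodule.neg_mem _ (oneg ?_)
      rw [(hg i).2.2.2, h1]; abel

theorem dl_D (X : MF (lg a2 d W hW)) : X.dl.D = X.Dᵀ := rfl

variable (hd : 0 < d)

/-- the dual of the Koszul matrix factorization -/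
theorem Kk_dual (m m' : Gd d) (hm : m' = -m + tau d + tau d - sig d - sig d) :
    Nonempty ((Kk hd hW m).dl ≅ Kk hd hW m') := by
  have hg : KG m' (Kk hd hW m').g := Kk_KG hd _
  obtain ⟨H1, H2⟩ := JJ_Hg hW hg (g' := (Kk hd hW m).dl.g)
    (fun i => (congrArg Neg.neg (Kk_g1 hd m i)).trans (by rw [hm]; abel))
    (fun i => (congrArg Neg.neg (Kk_g2 hd m i)).trans (by rw [hm]; abel))
    (fun i => (congrArg Neg.neg (Kk_g3 hd m i)).trans (by rw [hm]; abel))
    (fun i => (congrArg Neg.neg (Kk_g4 hd m i)).trans (by rw [hm]; abel))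
  have hZ1 : JJ (I := Fin 1) ∈ Z (Kk hd hW m') (Kk hd hW m).dl := by
    refine ⟨H1, ?_⟩
    rw [dl_D, Kk_D]
    exact kD_dual _ _ _ _
  have hZ2 : -JJ (I := Fin 1) ∈ Z (Kk hd hW m).dl (Kk hd hW m') := by
    refine ⟨Hg_neg H2, ?_⟩
    rw [dl_D, Kk_D]
    have h := kD_dual (X 0) (X 1) (wq hW 0 [1]) (wq hW 1 [])
    set D := kD (X 0) (X 1) (wq hW 0 [1]) (wq hW 1 []) with hD
    calc D * -JJ (I := Fin 1) = (-JJ (I := Fin 1) * JJ (I := Fin 1)) * (D * -JJ (I := Fin 1)) := by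
          rw [JJ_sq', Matrix.one_mul]
      _ = -JJ (I := Fin 1) * (JJ (I := Fin 1) * D) * -JJ (I := Fin 1) := by
          simp only [Matrix.mul_assoc]
      _ = -JJ (I := Fin 1) * (Dᵀ * JJ (I := Fin 1)) * -JJ (I := Fin 1) := by rw [h]
      _ = -JJ (I := Fin 1) * Dᵀ * (JJ (I := Fin 1) * -JJ (I := Fin 1)) := by
          simp only [Matrix.mul_assoc]
      _ = -JJ (I := Fin 1) * Dᵀ := by rw [JJ_sq, Matrix.mul_one]
  exact ⟨isoOf' _ _ hZ2 hZ1 JJ_sq JJ_sq'⟩

theorem KK_iso (b : Gd d) : Nonempty (KK (a := a2) (d := d) hd hW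
    (fun _ : Fin 1 => b) ≅ Kk hd hW b) := ⟨eqToIso (KK_eq (hW := hW) hd _)⟩

variable (h1 : 2 ≤ d)

include h1 in
theorem hadd : ∀ i : Fin 2, a2 i ≠ d := fun _ h => by
  have : (1 : ℕ) = d := h
  omega

include h1 in
theorem K_hom {E : MF (lg a2 d W hW)} (hE : Red0 E) {b : Gd d} {j : E.I} (hj : E.g j = b) :
    ∃ f : E ⟶ Kk hd hW b, f ≠ 0 := by
  obtain ⟨e⟩ := KK_iso (hW := hW) hd b
  let t := tope (hd := hd) (hW := hW) (hadd h1) (fun _ : Fin 1 => b) hE
  refine ⟨t.symm (fun _ => 1) ≫ e.hom, fun h => ?_⟩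
  have h1 : t.symm (fun _ => 1) = 0 := by
    rw [← cancel_mono e.hom, h, zero_comp]
  have h2 : (fun _ => 1 : {q : Fin 1 × E.I // E.g q.2 = b} → ℂ) = 0 := by
    rw [← t.apply_symm_apply (fun _ => 1), h1, map_zero]
  have h3 := congrFun h2 ⟨(0, j), hj⟩
  simp at h3

include h1 in
theorem K_hom_zero {E : MF (lg a2 d W hW)} (hE : Red0 E) {b : Gd d}
    (hj : ∀ j, E.g j ≠ b) (f : E ⟶ Kk hd hW b) : f = 0 := by
  obtain ⟨e⟩ := KK_iso (hW := hW) hd b
  let t := tope (hd := hd) (hW := hW) (hadd h1) (fun _ : Fin 1 => b) hE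
  have h1 : f ≫ e.inv = 0 := by
    apply t.injective
    funext q
    exact absurd q.2 (hj _)
  rw [← cancel_mono e.inv, h1, zero_comp]

/-- morphisms to a Koszul matrix factorization are counted by the generators -/
theorem K_equiv {E : MF (lg a2 d W hW)} (hE : Red0 E) (h1 : 2 ≤ d) (b : Gd d) :
    Nonempty ((E ⟶ Kk hd hW b) ≃ₗ[ℂ] ({j : E.I // E.g j = b} → ℂ)) := by
  obtain ⟨e⟩ := KK_iso (hW := hW) hd b
  let t := tope (hd := hd) (hW := hW) (hadd h1) (fun _ : Fin 1 => b) hE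
  let u : {j : E.I // E.g j = b} ≃ {q : Fin 1 × E.I // E.g q.2 = b} :=
    { toFun := fun j => ⟨(0, j.1), j.2⟩
      invFun := fun q => ⟨q.1.2, q.2⟩
      left_inv := fun j => rfl
      right_inv := fun q => by
        rcases q with ⟨⟨i, q⟩, hq⟩
        have : i = 0 := Subsingleton.elim _ _
        subst this
        rfl }
  let v : (E ⟶ Kk hd hW b) ≃ₗ[ℂ] (E ⟶ KK (a := a2) (d := d) hd hW (fun _ : Fin 1 => b)) :=
    { toFun := fun f => f ≫ e.inv
      invFun := fun f => f ≫ e.hom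
      left_inv := fun f => by simp
      right_inv := fun f => by simp
      map_add' := fun f g => by simp
      map_smul' := fun c f => by simp }
  exact ⟨(v.trans t).trans (LinearEquiv.funCongrLeft ℂ ℂ u)⟩

theorem card_le {E F : MF (lg a2 d W hW)} (hE : Red0 E) (hF : Red0 F) (h1 : 2 ≤ d) (b : Gd d)
    (f : E ⟶ F) (hf : ∀ g : F ⟶ Kk hd hW b, f ≫ g = 0 → g = 0) :
    Fintype.card {j : F.I // F.g j = b} ≤ Fintype.card {j : E.I // E.g j = b} := by
  obtain ⟨u⟩ := K_equiv hd hE h1 b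
  obtain ⟨v⟩ := K_equiv hd hF h1 b
  let φ : (F ⟶ Kk hd hW b) →ₗ[ℂ] (E ⟶ Kk hd hW b) :=
    { toFun := fun g => f ≫ g
      map_add' := fun g g' => by simp
      map_smul' := fun c g => by simp }
  have hφ : Function.Injective φ := by
    rw [injective_iff_map_eq_zero]
    exact hf
  let ψ : ({j : F.I // F.g j = b} → ℂ) →ₗ[ℂ] ({j : E.I // E.g j = b} → ℂ) :=
    u.toLinearMap ∘ₗ φ ∘ₗ v.symm.toLinearMap
  have hψ : Function.Injective ψ := by
    intro x y h
    exact v.symm.injective (hφ (u.injective h))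
  have h2 := LinearMap.finrank_le_finrank_of_injective hψ
  rwa [Module.finrank_fintype_fun_eq_card, Module.finrank_fintype_fun_eq_card] at h2

theorem dl_red' {E : MF (lg a2 d W hW)} (hE : Red0 E) : Red0 E.dl := fun i j => hE j i

include h1 in
theorem hom_K {E : MF (lg a2 d W hW)} (hE : Red0 E) {b c : Gd d} {j : E.I} (hj : E.g j = b)
    (hc : c = b + tau d + tau d - sig d - sig d) :
    ∃ f : Kk hd hW c ⟶ E, f ≠ 0 := by
  by_contra hn
  push Not at hn
  obtain ⟨e⟩ := Kk_dual (hW := hW) hd (-b) c (by rw [hc, neg_neg])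
  have h2 : ∀ f : (Kk hd hW (-b)).dl ⟶ E, f = 0 := fun f => by
    have := hn (e.inv ≫ f)
    rw [← cancel_epi e.inv, this, comp_zero]
  obtain ⟨f, hf⟩ := K_hom hd h1 (E := E.dl) (dl_red' hE) (b := -b) (j := j) (by
    show -E.g j = -b
    rw [hj])
  exact hf (dl_hom h2 f)

include h1 in
theorem hom_K_zero {E : MF (lg a2 d W hW)} (hE : Red0 E) {c : Gd d}
    (hj : ∀ j, E.g j ≠ c - tau d - tau d + sig d + sig d) (f : Kk hd hW c ⟶ E) : f = 0 := by
  obtain ⟨e⟩ := Kk_dual (hW := hW) hd (-(c - tau d - tau d + sig d + sig d)) c (by abel)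
  have h2 : ∀ f : E.dl ⟶ Kk hd hW (-(c - tau d - tau d + sig d + sig d)), f = 0 := by
    refine K_hom_zero hd h1 (dl_red' hE) fun j hj' => hj j ?_
    exact neg_injective hj'
  have h3 := dl_hom (X := Kk hd hW (-(c - tau d - tau d + sig d + sig d))) (Y := E) h2
    (e.hom ≫ f)
  rw [← cancel_epi e.hom, h3, comp_zero]

end Pool.Agent.Helper445_GMF.Bf
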