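import Pool.Agent.Helper445_GMF.Bf3

/-!
Binary forms of degree `d`: endomorphisms and the simple-minded collection.
-/

set_option autoImplicit false
set_option linter.unusedSectionVars false

open CategoryTheory Matrix Pretriangulated Triangulated Limits MvPolynomial ZeroObject

namespace Pool.Agent.Helper445_GMF.Bf

variable {d : ℕ} {W : MvPolynomial (Fin 2) ℂ} {hW : IsWeightedHomogeneous a2 W d}
  (hd : 0 < d) (h1 : 2 ≤ d)

include h1 in
theorem Kk_red (m : Gd d) : Red0 (Kk hd hW m) := kM_red hW (hadd h1) _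

theorem E_red {c : Gd d} (F : Fac hW c) (hk : c ≠ 0) (hk' : sig d + sig d - c ≠ 0) (m : Gd d) :
    Red0 (F.E m) := by
  have h1 : constantCoeff F.f = 0 := const_of_mem F.hf hk
  have h2 : constantCoeff F.h = 0 := const_of_mem F.hh hk'
  have h3 : ∀ i j, constantCoeff ((rD F.f F.h : Matrix (Fin 1 ⊕ Fin 1) (Fin 1 ⊕ Fin 1)
      (MvPolynomial (Fin 2) ℂ)) i j) = 0 := by
    rintro (i | i) (j | j)
    · show constantCoeff (0 : MvPolynomial (Fin 2) ℂ) = 0
      exact map_zero _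
    · exact const_smul_one h1 i j
    · refine const_smul_one ?_ i j
      rw [one_mul]; exact h2
    · show constantCoeff (-(0 : MvPolynomial (Fin 2) ℂ)) = 0
      rw [neg_zero]
      exact map_zero _
  exact h3

theorem tau_ne : tau d ≠ 0 := by
  intro h
  have := congrArg (th d) h
  rw [th_tau] at this
  have h0 : th d (0 : Gd d) = 0 := rfl
  omega

include h1 in
theorem ss_ne : sig d + sig d - tau d ≠ 0 := by
  intro h
  have := congrArg (th d) h
  rw [th_sub, th_add, th_sig, th_tau] at this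
  have h0 : th d (0 : Gd d) = 0 := rfl
  omega

include h1 in
theorem Lin2.red (F : Lin2 hW) (m : Gd d) : Red0 (F.E m) :=
  E_red F.toFac tau_ne (ss_ne h1) m

theorem Kk_gens (m : Gd d) (i : (Kk hd hW m).I) : (Kk hd hW m).g i = m ∨
    (Kk hd hW m).g i = m - tau d + sig d ∨
    (Kk hd hW m).g i = m - tau d - tau d + sig d + sig d := by
  rcases i with ((i | i) | (i | i))
  · exact Or.inl (Kk_g1 hd m i)
  · exact Or.inr (Or.inl (Kk_g2 hd m i))
  · exact Or.inr (Or.inl (Kk_g3 hd m i))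
  · exact Or.inr (Or.inr (Kk_g4 hd m i))

theorem E_gens (F : Fac hW (tau d)) (m : Gd d) (i : (F.E m).I) : (F.E m).g i = m ∨
    (F.E m).g i = m - tau d + sig d := by
  rcases i with (i | i)
  · exact Or.inl (F.gl m i)
  · exact Or.inr (F.gr m i)

theorem id_ne_zero {X Y : MF (lg a2 d W hW)} (f : X ⟶ Y) (hf : f ≠ 0) : 𝟙 X ≠ 0 := by
  intro h
  apply hf
  rw [← Category.id_comp f, h, zero_comp]

theorem not_zero_of_hom {X Y : MF (lg a2 d W hW)} (h : ∃ f : X ⟶ Y, f ≠ 0) : ¬ IsZero X := by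
  rintro h0
  obtain ⟨f, hf⟩ := h
  exact hf (h0.eq_of_src _ _)

theorem smul_iso {X Y : MF (lg a2 d W hW)} (f : X ⟶ Y) (c : ℂ) [IsIso f] :
    c • f = 0 ∨ IsIso (c • f) := by
  by_cases hc : c = 0
  · left; rw [hc, zero_smul]
  · right
    exact ⟨c⁻¹ • inv f, by simp [hc], by simp [hc]⟩

/-- morphisms to a Koszul matrix factorization, with only one generator -/
theorem K_hom_one {E : MF (lg a2 d W hW)} (hE : Red0 E) (h1 : 2 ≤ d) {b : Gd d} (j : E.I)
    (hj : ∀ j', E.g j' = b → j' = j) (f g : E ⟶ Kk hd hW b) (hg : g ≠ 0) :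
    ∃ c : ℂ, f = c • g := by
  obtain ⟨t⟩ := K_equiv hd hE h1 b
  have hs : ∀ q q' : {q : E.I // E.g q = b}, q = q' := by
    rintro ⟨q, hq⟩ ⟨q', hq'⟩
    have h1 := hj q hq
    have h2 := hj q' hq'
    subst h1
    subst h2
    rfl
  have h0 : t g ≠ 0 := by
    intro h
    apply hg
    rw [← t.symm_apply_apply g, h, map_zero]
  obtain ⟨q, hq⟩ := Function.ne_iff.1 h0
  refine ⟨t f q / t g q, ?_⟩
  apply t.injective
  rw [map_smul]
  funext q'
  rw [hs q' q]
  show _ = (t f q / t g q) * t g q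
  rw [div_mul_cancel₀]
  exact hq

include h1 in
theorem Kk_nz (a : Gd d) : ∃ f : Kk hd hW a ⟶ Kk hd hW a, f ≠ 0 :=
  K_hom hd h1 (Kk_red (hW := hW) hd h1 a) (b := a) (j := Sum.inl (Sum.inl (0 : Fin 1)))
    (Kk_g1 hd a 0)

theorem KK_end (h3 : 3 ≤ d) (a : Gd d) (f : Kk hd hW a ⟶ Kk hd hW a) : f = 0 ∨ IsIso f := by
  have h1 : 𝟙 (Kk hd hW a) ≠ 0 := by
    obtain ⟨f, hf⟩ := Kk_nz (hW := hW) hd (by omega) a
    exact id_ne_zero f hf
  have hn : ∀ b : Gd d, th d b ≠ th d a → b ≠ a := fun b h h' => h (by rw [h'])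
  obtain ⟨c, hc⟩ := K_hom_one hd (Kk_red (hW := hW) hd (by omega) a) (by omega) (b := a)
    (Sum.inl (Sum.inl (0 : Fin 1))) (by
    rintro ((i | i) | (i | i)) hi
    · exact congrArg (fun k : Fin 1 => Sum.inl (Sum.inl k)) (Subsingleton.elim (α := Fin 1) i 0)
    · exfalso
      refine hn _ ?_ ((Kk_g2 (hW := hW) hd a i).symm.trans hi)
      rw [th_add, th_sub, th_tau, th_sig]
      omega
    · exfalso
      refine hn _ ?_ ((Kk_g3 (hW := hW) hd a i).symm.trans hi)
      rw [th_add, th_sub, th_tau, th_sig]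
      omega
    · exfalso
      refine hn _ ?_ ((Kk_g4 (hW := hW) hd a i).symm.trans hi)
      rw [th_add, th_add, th_sub, th_sub, th_tau, th_sig]
      omega) f (𝟙 _) h1
  rw [hc]
  exact smul_iso _ _

theorem sn_sub (a b : Gd d) : (a - b).1.2 = a.1.2 - b.1.2 := rfl
theorem sn_add (a b : Gd d) : (a + b).1.2 = a.1.2 + b.1.2 := rfl
theorem sn_tau : (tau d).1.2 = 0 := rfl
theorem sn_sig : (sig d).1.2 = 1 := rfl
theorem th_zero : th d (0 : Gd d) = 0 := rfl

/-- morphisms between two matrix factorizations of rank one with the same twist are diagonal -/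
theorem EE_diag (h3 : 3 ≤ d) (F F' : Fac hW (tau d)) (a : Gd d)
    {f : Matrix (F'.E a).I (F.E a).I (lg a2 d W hW).A} (hf : f ∈ Z (F.E a) (F'.E a)) :
    ∃ c e : ℂ, f = dg c e := by
  have h11 : ∀ i j : Fin 1, ∃ c : ℂ, f (Sum.inl i) (Sum.inl j) = C c := by
    intro i j
    have h1 := hf.1 (Sum.inl i) (Sum.inl j)
    refine ⟨_, hom_c h1 ?_⟩
    rw [F'.gl, F.gl, add_zero, sub_self, th_zero]
  have h12 : ∀ i j : Fin 1, f (Sum.inl i) (Sum.inr j) = 0 := by
    intro i j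
    have h1 := hf.1 (Sum.inl i) (Sum.inr j)
    refine hom_z h1 (Or.inl ?_)
    rw [F'.gl, F.gr, th_add, th_sub, th_add, th_sub, th_zero, th_tau, th_sig]
    omega
  have h21 : ∀ i j : Fin 1, f (Sum.inr i) (Sum.inl j) = 0 := by
    intro i j
    have h1 := hf.1 (Sum.inr i) (Sum.inl j)
    refine hom_z h1 (Or.inr ?_)
    rw [F'.gr, F.gl, add_zero, sn_sub, sn_add, sn_sub, sn_tau, sn_sig]
    generalize a.1.2 = x
    revert x
    decide
  have h22 : ∀ i j : Fin 1, ∃ c : ℂ, f (Sum.inr i) (Sum.inr j) = C c := by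
    intro i j
    have h1 := hf.1 (Sum.inr i) (Sum.inr j)
    refine ⟨_, hom_c h1 ?_⟩
    rw [F'.gr, F.gr, add_zero, sub_self, th_zero]
  obtain ⟨c, hc⟩ := h11 0 0
  obtain ⟨e, he⟩ := h22 0 0
  refine ⟨c, e, ?_⟩
  ext1 i j
  rcases i with (i | i) <;> rcases j with (j | j)
  · have hi : i = (0 : Fin 1) := Subsingleton.elim (α := Fin 1) _ _
    have hj : j = (0 : Fin 1) := Subsingleton.elim (α := Fin 1) _ _
    subst hi hj
    rw [hc]
    show C c = (C c : MvPolynomial (Fin 2) ℂ) • (1 : Matrix (Fin 1) (Fin 1) _) 0 0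
    simp
  · rw [h12 i j]; rfl
  · rw [h21 i j]; rfl
  · have hi : i = (0 : Fin 1) := Subsingleton.elim (α := Fin 1) _ _
    have hj : j = (0 : Fin 1) := Subsingleton.elim (α := Fin 1) _ _
    subst hi hj
    rw [he]
    show C e = (C e : MvPolynomial (Fin 2) ℂ) • (1 : Matrix (Fin 1) (Fin 1) _) 0 0
    simp

end Pool.Agent.Helper445_GMF.Bf
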