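import Pool.Agent.Helper445_GMF.Bf4

/-!
Binary forms of degree `d`: the simple-minded collection.
-/

set_option autoImplicit false
set_option linter.unusedSectionVars false

open CategoryTheory Matrix Pretriangulated Triangulated Limits MvPolynomial ZeroObject

namespace Pool.Agent.Helper445_GMF.Bf

variable {d : ℕ} {W : MvPolynomial (Fin 2) ℂ} {hW : IsWeightedHomogeneous a2 W d}

/-- a product of `d` pairwise independent linear forms -/
structure Qb (hW : IsWeightedHomogeneous a2 W d) where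
  /-- the degree is at least three -/
  h3 : 3 ≤ d
  /-- the linear factors -/
  F : Fin d → Lin2 hW
  prod : W = ∏ p, (F p).f
  ind : ∀ p q, p ≠ q → (F p).α * (F q).β - (F q).α * (F p).β ≠ 0

theorem Qb.hd (Q : Qb hW) : 0 < d := by have := Q.h3; omega
theorem Qb.h2 (Q : Qb hW) : 2 ≤ d := by have := Q.h3; omega

/-- the letters -/
noncomputable def Qb.S (Q : Qb hW) : Fin (d - 2) ⊕ Fin d → ℤ → MF (lg a2 d W hW)
  | Sum.inl i, k => Kk Q.hd hW (gg d (1 - ((i : ℕ) : ℤ)) k)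
  | Sum.inr p, k => (Q.F p).E (gg d (3 - d) k)

theorem ddm (d : ℕ) (m : ℤ) : (m ≤ -1 ∧ (d : ℤ) * m ≤ -d) ∨ (m = 0 ∧ (d : ℤ) * m = 0) ∨
    (m = 1 ∧ (d : ℤ) * m = d) ∨ (2 ≤ m ∧ 2 * (d : ℤ) ≤ d * m) := by
  have hd : (0 : ℤ) ≤ d := Int.natCast_nonneg d
  rcases lt_trichotomy m 0 with h | h | h
  · left
    refine ⟨by omega, ?_⟩
    nlinarith
  · right; left
    exact ⟨h, by rw [h, mul_zero]⟩
  · right; right
    rcases eq_or_lt_of_le (show 1 ≤ m by omega) with h' | h'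
    · left
      exact ⟨h'.symm, by rw [← h', mul_one]⟩
    · right
      refine ⟨by omega, ?_⟩
      nlinarith

theorem gg_tsn (j k : ℤ) : gg d j k - tau d + sig d = gg d (j - 1) (k + 1) := by
  rw [tau_gg, sig_gg, gg_sub, gg_add]
  simp

theorem gg_ttssn (j k : ℤ) : gg d j k - tau d - tau d + sig d + sig d =
    gg d (j - 2) (k + 2) := by
  rw [tau_gg, sig_gg, gg_sub, gg_sub, gg_add, gg_add]
  congr 1 <;> ring

variable (Q : Qb hW)

theorem KK_zero {j k j' l : ℤ}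
    (h : ∀ m : ℤ, ∀ r : ℤ, 0 ≤ r → r ≤ 2 → j' = j - r + d * m → l = k + r - 2 * m → False)
    (f : Kk Q.hd hW (gg d j k) ⟶ Kk Q.hd hW (gg d j' l)) : f = 0 := by
  refine K_hom_zero Q.hd Q.h2 (Kk_red Q.hd Q.h2 _) (fun i hi => ?_) f
  rcases Kk_gens (hW := hW) Q.hd (gg d j k) i with h1 | h1 | h1
  · rw [h1] at hi
    obtain ⟨m, h2, h3⟩ := gg_inj Q.hd hi
    exact h m 0 (by norm_num) (by norm_num) (by omega) (by omega)
  · rw [h1, gg_tsn] at hi
    obtain ⟨m, h2, h3⟩ := gg_inj Q.hd hi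
    exact h m 1 (by norm_num) (by norm_num) (by omega) (by omega)
  · rw [h1, gg_ttssn] at hi
    obtain ⟨m, h2, h3⟩ := gg_inj Q.hd hi
    exact h m 2 (by norm_num) (by norm_num) (by omega) (by omega)

theorem EK_zero (p : Fin d) {j k j' l : ℤ}
    (h : ∀ m : ℤ, ∀ r : ℤ, 0 ≤ r → r ≤ 1 → j' = j - r + d * m → l = k + r - 2 * m → False)
    (f : (Q.F p).E (gg d j k) ⟶ Kk Q.hd hW (gg d j' l)) : f = 0 := by
  refine K_hom_zero Q.hd Q.h2 ((Q.F p).red Q.h2 _) (fun i hi => ?_) f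
  rcases E_gens (Q.F p).toFac (gg d j k) i with h1 | h1
  · rw [h1] at hi
    obtain ⟨m, h2, h3⟩ := gg_inj Q.hd hi
    exact h m 0 (by norm_num) (by norm_num) (by omega) (by omega)
  · rw [h1, gg_tsn] at hi
    obtain ⟨m, h2, h3⟩ := gg_inj Q.hd hi
    exact h m 1 (by norm_num) (by norm_num) (by omega) (by omega)

theorem KE_zero (p : Fin d) {j k j' l : ℤ}
    (h : ∀ m : ℤ, ∀ r : ℤ, 0 ≤ r → r ≤ 1 → j - 2 = j' - r + d * m → k + 2 = l + r - 2 * m →
      False)
    (f : Kk Q.hd hW (gg d j k) ⟶ (Q.F p).E (gg d j' l)) : f = 0 := by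
  refine hom_K_zero Q.hd Q.h2 ((Q.F p).red Q.h2 _) (fun i hi => ?_) f
  rw [gg_ttssn] at hi
  rcases E_gens (Q.F p).toFac (gg d j' l) i with h1 | h1
  · rw [h1] at hi
    obtain ⟨m, h2, h3⟩ := gg_inj Q.hd hi
    exact h m 0 (by norm_num) (by norm_num) (by omega) (by omega)
  · rw [h1, gg_tsn] at hi
    obtain ⟨m, h2, h3⟩ := gg_inj Q.hd hi
    exact h m 1 (by norm_num) (by norm_num) (by omega) (by omega)

theorem EE_zero (p q : Fin d) {j k l : ℤ} (h : l < k)
    (f : (Q.F p).E (gg d j k) ⟶ (Q.F q).E (gg d j l)) : f = 0 := by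
  refine hom_deg (fun i i' => Or.inl ?_) f
  have h3 := Q.h3
  have e : (d : ℤ) * l ≤ d * (k - 1) := mul_le_mul_of_nonneg_left (by omega) (by omega)
  have e2 : (d : ℤ) * (k - 1) = d * k - d := by ring
  have e3 : (d : ℤ) * (k + 1) = d * k + d := by ring
  have e4 : (d : ℤ) * (l + 1) = d * l + d := by ring
  rcases E_gens (Q.F q).toFac (gg d j l) i with h1 | h1 <;>
    rcases E_gens (Q.F p).toFac (gg d j k) i' with h2 | h2
  · rw [h1, h2, th_gg, th_gg]; omega
  · rw [h1, h2, gg_tsn, th_gg, th_gg]; omega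
  · rw [h1, h2, gg_tsn, th_gg, th_gg]; omega
  · rw [h1, h2, gg_tsn, gg_tsn, th_gg, th_gg]; omega

theorem dg_eq (p q : Fin d) (c e : ℂ)
    (h : (rD (I := Fin 1) (Q.F q).f (Q.F q).h) * dg c e = dg c e *
      rD (I := Fin 1) (Q.F p).f (Q.F p).h) : dg c e = 0 ∨ p = q ∧ c = e := by
  have h1 := congrFun (congrFun h (Sum.inl 0)) (Sum.inr 0)
  have h2 : (Q.F q).f * C e = C c * (Q.F p).f := by
    simpa [rD, dg, Matrix.mul_apply, Fintype.sum_sum_type] using h1
  rw [(Q.F q).ef, (Q.F p).ef] at h2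
  have h3 : (C ((Q.F q).α * e) * X 0 + C ((Q.F q).β * e) * X 1 : MvPolynomial (Fin 2) ℂ) =
      C (c * (Q.F p).α) * X 0 + C (c * (Q.F p).β) * X 1 := by
    simp only [C_mul]
    linear_combination h2
  obtain ⟨h4, h5⟩ := lin_coeff h3
  by_cases hpq : p = q
  · subst hpq
    right
    refine ⟨rfl, ?_⟩
    have h6 : (Q.F p).α * (e - c) = 0 := by linear_combination h4
    have h7 : (Q.F p).β * (e - c) = 0 := by linear_combination h5
    by_contra hce
    have hce' : e - c ≠ 0 := fun h => hce (by linear_combination -h)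
    exact (Q.F p).ne ⟨(mul_eq_zero.1 h6).resolve_right hce', (mul_eq_zero.1 h7).resolve_right hce'⟩
  · left
    have hi := Q.ind p q hpq
    have h6 : c * ((Q.F p).α * (Q.F q).β - (Q.F q).α * (Q.F p).β) = 0 := by
      linear_combination (Q.F q).α * h5 - (Q.F q).β * h4
    have h7 : e * ((Q.F p).α * (Q.F q).β - (Q.F q).α * (Q.F p).β) = 0 := by
      linear_combination (Q.F p).α * h5 - (Q.F p).β * h4
    have hc := (mul_eq_zero.1 h6).resolve_right hi
    have he := (mul_eq_zero.1 h7).resolve_right hi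
    rw [hc, he, dg]
    simp

theorem EE_end (p q : Fin d) (a : Gd d) (f : (Q.F p).E a ⟶ (Q.F q).E a) :
    f = 0 ∨ IsIso f := by
  obtain ⟨f, hf, rfl⟩ := hm_surj f
  obtain ⟨c, e, hfm⟩ := EE_diag Q.h3 (Q.F p).toFac (Q.F q).toFac a hf
  subst hfm
  rcases dg_eq Q p q c e hf.2 with h | ⟨h, h'⟩
  · left
    exact hm_eq_zero_iff.2 (by rw [h]; exact N_zero)
  · subst h h'
    have h1 : hm _ hf = c • 𝟙 ((Q.F p).E a) := by
      rw [hm_id, hm_smul]
      refine hm_congr ?_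
      show dg c c = c • 1
      ext i j
      rcases i with (i | i) <;> rcases j with (j | j) <;>
        simp [dg, Matrix.one_apply, MvPolynomial.smul_eq_C_mul]
    rw [h1]
    exact smul_iso _ _

theorem shiftd (X : MF (lg a2 d W hW)) :
    Nonempty (X⟦(1 : ℤ)⟧ ≅ X.ts (sig d) 1 (one_mul 1)) := shift_iso X

theorem E_sh {c : Gd d} (F : Fac hW c) (m : Gd d) :
    Nonempty ((F.E m)⟦(1 : ℤ)⟧ ≅ F.E (m + sig d)) := by
  obtain ⟨e⟩ := shiftd (F.E m)
  obtain ⟨e'⟩ := F.E_ts m (sig d)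
  exact ⟨e ≪≫ e'⟩

theorem K_sh (hd : 0 < d) (m : Gd d) :
    Nonempty ((Kk hd hW m)⟦(1 : ℤ)⟧ ≅ Kk hd hW (m + sig d)) := by
  obtain ⟨e⟩ := shiftd (Kk hd hW m)
  obtain ⟨e'⟩ := Kk_ts (hW := hW) hd m (sig d)
  exact ⟨e ≪≫ e'⟩

theorem gg_sig (j k : ℤ) : gg d j k + sig d = gg d j (k + 1) := by
  rw [sig_gg, gg_add, add_zero]

theorem Qb.smc : Smc Q.S where
  nz := by
    rintro (i | p) k
    · exact not_zero_of_hom (Kk_nz (hW := hW) Q.hd Q.h2 _)
    · exact not_zero_of_hom (K_hom Q.hd Q.h2 ((Q.F p).red Q.h2 (gg d (3 - d) k))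
        (j := Sum.inl (0 : Fin 1)) ((Q.F p).toFac.gl _ 0))
  sh := by
    rintro (i | p) k
    · have h := K_sh (hW := hW) Q.hd (gg d (1 - ((i : ℕ) : ℤ)) k)
      rw [gg_sig] at h
      exact h
    · have h := E_sh (Q.F p).toFac (gg d (3 - d) k)
      rw [gg_sig] at h
      exact h
  hom := by
    have h3 := Q.h3
    rintro (i | p) (j | q) k l hl f
    · refine KK_zero Q (fun m r h1 h2 h4 h5 => ?_) f
      have hi := i.2
      have hj := j.2
      have hm := ddm d m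
      omega
    · refine KE_zero Q q (fun m r h1 h2 h4 h5 => ?_) f
      have hi := i.2
      have hm := ddm d m
      omega
    · refine EK_zero Q p (fun m r h1 h2 h4 h5 => ?_) f
      have hj := j.2
      have hm := ddm d m
      omega
    · exact EE_zero Q p q hl f
  hom0 := by
    have h3 := Q.h3
    rintro (i | p) (j | q) k f
    · by_cases hij : i = j
      · subst hij
        exact KK_end Q.hd h3 _ f
      · left
        refine KK_zero Q (fun m r h1 h2 h4 h5 => ?_) f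
        have hi := i.2
        have hj := j.2
        have hm := ddm d m
        have hij' : (i : ℕ) ≠ (j : ℕ) := fun h => hij (Fin.ext h)
        omega
    · left
      refine KE_zero Q q (fun m r h1 h2 h4 h5 => ?_) f
      have hi := i.2
      have hm := ddm d m
      omega
    · left
      refine EK_zero Q p (fun m r h1 h2 h4 h5 => ?_) f
      have hj := j.2
      have hm := ddm d m
      omega
    · exact EE_end Q p q _ f

/-- the position of an object with respect to the collection -/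
def Qb.H (Q : Qb hW) (k : ℤ) (X : MF (lg a2 d W hW)) : Prop := Dw Q.S k X ∧ Vw Q.S (k + 1) X

theorem Qb.H_ex {t : ℤ} {X Y V : MF (lg a2 d W hW)} {f : X ⟶ Y} {g : Y ⟶ V} {h : V ⟶ X⟦(1 : ℤ)⟧}
    (H : Triangle.mk f g h ∈ distTriang (MF (lg a2 d W hW))) (hX : Q.H t X)
    (hV : Q.H t V) : Q.H t Y := Smc.ex Q.smc H hX hV

theorem Qb.H_iso {t : ℤ} {X Y : MF (lg a2 d W hW)} (e : X ≅ Y) (hX : Q.H t X) : Q.H t Y :=
  Smc.iso e hX

/-- the Koszul letters -/
theorem Qb.K_letter {j : ℤ} (h : 4 - (d : ℤ) ≤ j) (h' : j ≤ 1) :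
    ∃ i : Fin (d - 2), ∀ k, Q.S (Sum.inl i) k = Kk Q.hd hW (gg d j k) := by
  have h3 := Q.h3
  refine ⟨⟨(1 - j).toNat, by omega⟩, fun k => ?_⟩
  show Kk Q.hd hW (gg d (1 - (((1 - j).toNat : ℕ) : ℤ)) k) = _
  rw [show 1 - (((1 - j).toNat : ℕ) : ℤ) = j by omega]

theorem Qb.H_K {j : ℤ} (h : 4 - (d : ℤ) ≤ j) (h' : j ≤ 1) (k : ℤ) :
    Q.H k (Kk Q.hd hW (gg d j k)) := by
  obtain ⟨i, hi⟩ := Q.K_letter h h'
  rw [← hi]
  exact Smc.lt Q.smc (Sum.inl i) k

theorem Qb.H_E0 (p : Fin d) (k : ℤ) : Q.H k ((Q.F p).E (gg d (3 - d) k)) :=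
  Smc.lt Q.smc (Sum.inr p) k

theorem Qb.H_E (p : Fin d) (k : ℤ) {j : ℤ} (h : 3 - (d : ℤ) ≤ j) (h' : j ≤ 1) :
    Q.H k ((Q.F p).E (gg d j k)) := by
  revert h'
  induction j, h using Int.leInduction with
  | base => intro _; exact Q.H_E0 p k
  | succ j h ih =>
    intro h'
    obtain ⟨f, g, u, hT⟩ := (Q.F p).tri Q.hd (gg d (j + 1) k)
    have e : gg d (j + 1) k - tau d = gg d j k := by
      rw [tau_gg, gg_sub]
      congr 1 <;> ring
    refine Q.H_ex hT ?_ (Q.H_K (by omega) h' k)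
    rw [e]
    exact ih (by omega)

end Pool.Agent.Helper445_GMF.Bf
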