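import Pool.Agent.Helper445_GMF.Bf5

/-!
Binary forms of degree `d`: positions of the standard objects and generation.
-/

set_option autoImplicit false
set_option linter.unusedSectionVars false

open CategoryTheory Matrix Pretriangulated Triangulated Limits MvPolynomial ZeroObject

namespace Pool.Agent.Helper445_GMF.Bf

variable {d : ℕ} {W : MvPolynomial (Fin 2) ℂ} {hW : IsWeightedHomogeneous a2 W d} (Q : Qb hW)

include Q

theorem Qb.f_ne (p : Fin d) : (Q.F p).f ≠ 0 := by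
  intro h
  rw [(Q.F p).ef] at h
  have h2 : (C (Q.F p).α * X 0 + C (Q.F p).β * X 1 : MvPolynomial (Fin 2) ℂ) =
      C 0 * X 0 + C 0 * X 1 := by rw [h]; simp
  exact (Q.F p).ne (lin_coeff h2)

theorem Qb.W_ne : W ≠ 0 := by
  rw [Q.prod]
  exact Finset.prod_ne_zero_iff.2 fun p _ => Q.f_ne p

theorem Qb.cancel (p : Fin d) {c : MvPolynomial (Fin 2) ℂ} (h : (Q.F p).f * c = W) :
    (Q.F p).h = c := by
  have h1 := (Q.F p).e
  exact mul_left_cancel₀ (Q.f_ne p) (h1.trans h.symm)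

theorem Qb.prod_memd (s : Finset (Fin d)) : IsWeightedHomogeneous (wt a2 d)
    (∏ r ∈ s, (Q.F r).f) (gg d s.card 0) := by
  classical
  induction s using Finset.induction_on with
  | empty =>
    rw [Finset.prod_empty, Finset.card_empty, Nat.cast_zero, ← zero_gg]
    exact isWeightedHomogeneous_one ℂ (wt a2 d)
  | insert p s hp ih =>
    rw [Finset.prod_insert hp, Finset.card_insert_of_notMem hp]
    have h1 := (Q.F p).hf.mul ih
    have e : tau d + gg d s.card 0 = gg d ((s.card + 1 : ℕ) : ℤ) 0 := by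
      rw [tau_gg, gg_add]
      congr 1
      push_cast; ring
    rw [e] at h1
    exact h1

/-- products of the linear factors -/
noncomputable def Qb.P (s : Finset (Fin d)) : Fac hW (gg d s.card 0) where
  f := ∏ r ∈ s, (Q.F r).f
  h := ∏ r ∈ sᶜ, (Q.F r).f
  hf := Q.prod_memd s
  hh := by
    have h := Q.prod_memd sᶜ
    have e : gg d (sᶜ.card : ℕ) 0 = sig d + sig d - gg d s.card 0 := by
      rw [sig_gg, gg_add, gg_sub, Finset.card_compl, Fintype.card_fin]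
      have h2 : s.card ≤ d := by
        have := Finset.card_le_univ s
        rwa [Fintype.card_fin] at this
      refine gg_ext (-1) ?_ (by norm_num)
      rw [Nat.cast_sub h2]
      ring
    rw [e] at h
    exact h
  e := by
    rw [Finset.prod_mul_prod_compl]
    exact Q.prod.symm

omit Q in
theorem Fac.congr {c c' : Gd d} (F : Fac hW c) (F' : Fac hW c') (hc : c = c') (hf : F.f = F'.f)
    (hh : F.h = F'.h) (m : Gd d) : Nonempty (F.E m ≅ F'.E m) := by
  subst hc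
  cases F
  cases F'
  simp only at hf hh
  subst hf hh
  exact ⟨Iso.refl _⟩

theorem Qb.h_eq (p : Fin d) : (Q.F p).h = ∏ r ∈ Finset.univ.erase p, (Q.F r).f := by
  refine Q.cancel p ?_
  rw [Finset.mul_prod_erase Finset.univ (fun r => (Q.F r).f) (Finset.mem_univ p)]
  exact Q.prod.symm

theorem Qb.H_P (k : ℤ) (s : Finset (Fin d)) : s.Nonempty → s.card + 1 ≤ d →
    Q.H k ((Q.P s).E (gg d (2 - d + s.card) k)) := by
  classical
  have h3 := Q.h3
  induction s using Finset.induction_on with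
  | empty => intro h; exact absurd h (by simp)
  | insert p s hp ih =>
    intro _ hc
    have hcard := Finset.card_insert_of_notMem hp
    rw [hcard] at hc
    rcases Finset.eq_empty_or_nonempty s with h0 | h0
    · subst h0
      obtain ⟨e⟩ := Fac.congr (Q.F p).toFac (Q.P (insert p ∅)) (by
        rw [tau_gg, hcard]; simp) (by
        show _ = ∏ r ∈ insert p ∅, (Q.F r).f
        simp) (by
        show (Q.F p).h = ∏ r ∈ (insert p ∅)ᶜ, (Q.F r).f
        rw [Q.h_eq]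
        congr 1
        ext r
        simp) (gg d (2 - d + (insert p ∅ : Finset (Fin d)).card) k)
      refine Q.H_iso e (Q.H_E p k ?_ ?_)
      · rw [hcard]; simp; omega
      · rw [hcard]; simp; omega
    · have ih' := ih h0 (by omega)
      obtain ⟨f, g, u, hT⟩ := Fac.tri (Q.P s) (Q.F p).toFac (Q.P (insert p s)) (by
        rw [tau_gg, gg_add, hcard]
        push_cast
        simp) (by
        show ∏ r ∈ insert p s, (Q.F r).f = (∏ r ∈ s, (Q.F r).f) * (Q.F p).f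
        rw [Finset.prod_insert hp, mul_comm]) (by
        show ∏ r ∈ sᶜ, (Q.F r).f = (Q.F p).f * ∏ r ∈ (insert p s)ᶜ, (Q.F r).f
        rw [Finset.compl_insert, Finset.mul_prod_erase sᶜ (fun r => (Q.F r).f)]
        exact Finset.mem_compl.2 hp) (by
        show (Q.F p).h = (∏ r ∈ s, (Q.F r).f) * ∏ r ∈ (insert p s)ᶜ, (Q.F r).f
        refine Q.cancel p ?_
        rw [← mul_assoc, ← Finset.prod_insert (f := fun r => (Q.F r).f) hp,
          Finset.prod_mul_prod_compl]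
        exact Q.prod.symm) (gg d (2 - d + (insert p s : Finset (Fin d)).card) k)
      have e : gg d (2 - d + (insert p s : Finset (Fin d)).card) k - tau d =
          gg d (2 - d + s.card) k := by
        rw [tau_gg, gg_sub, hcard]
        push_cast
        congr 1 <;> ring
      refine Q.H_ex hT ?_ (Q.H_E p k ?_ ?_)
      · rw [e]; exact ih'
      · rw [hcard]; push_cast; omega
      · rw [hcard]; push_cast; omega

theorem Qb.H_E2 (p : Fin d) (k : ℤ) : Q.H (k + 1) ((Q.F p).E (gg d 2 k)) := by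
  classical
  have h3 := Q.h3
  have hcard : (Finset.univ.erase p).card = d - 1 := by
    rw [Finset.card_erase_of_mem (Finset.mem_univ p), Finset.card_univ, Fintype.card_fin]
  have h1 := Q.H_P (k + 1) (Finset.univ.erase p) (by
    rw [← Finset.card_pos, hcard]; omega) (by rw [hcard]; omega)
  obtain ⟨e⟩ := Fac.swap (Q.P (Finset.univ.erase p)) (Q.F p).toFac (by
    rw [tau_gg, sig_gg, gg_add, gg_sub, hcard]
    refine gg_ext (-1) ?_ (by norm_num)
    rw [Nat.cast_sub (by omega)]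
    push_cast
    ring) (by
    show (Q.F p).f = ∏ r ∈ (Finset.univ.erase p)ᶜ, (Q.F r).f
    rw [Finset.compl_erase]
    simp) (Q.h_eq p) (gg d (2 - d + (Finset.univ.erase p).card) (k + 1))
  have e2 : gg d (2 - d + (Finset.univ.erase p).card) (k + 1) + sig d -
      gg d (Finset.univ.erase p).card 0 = gg d 2 k := by
    rw [sig_gg, gg_add, gg_sub, hcard]
    refine gg_ext 1 ?_ (by ring)
    ring
  rw [e2] at e
  exact Q.H_iso e h1

omit Q in
/-- the rotated Koszul triangle -/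
theorem tri2 (hd : 0 < d) (F : Lin2 hW) (m : Gd d) : ∃ (f : F.E m ⟶ Kk hd hW m)
    (g : Kk hd hW m ⟶ F.E (m - tau d + sig d)) (h : F.E (m - tau d + sig d) ⟶ (F.E m)⟦(1 : ℤ)⟧),
    Triangle.mk f g h ∈ distTriang (MF (lg a2 d W hW)) := by
  obtain ⟨f, g, h, hT⟩ := F.tri hd m
  obtain ⟨e⟩ := E_sh F.toFac (m - tau d)
  have R : Triangle.mk g h (-f⟦(1 : ℤ)⟧') ∈ distTriang _ := rot_of_distTriang _ hT
  exact ⟨_, _, _, dist_third R e⟩

/-- an element of `Fin d` -/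
def Qb.p0 : Fin d := ⟨0, Q.hd⟩

theorem Qb.H_K3 (k : ℤ) : Q.H k (Kk Q.hd hW (gg d (3 - d) k)) := by
  obtain ⟨f, g, u, hT⟩ := tri2 Q.hd (Q.F Q.p0) (gg d (3 - d) k)
  refine Q.H_ex hT (Q.H_E0 _ k) ?_
  rw [gg_tsn, show gg d (3 - d - 1) (k + 1) = gg d 2 (k - 1) from
    gg_ext 1 (by ring) (by ring)]
  have := Q.H_E2 Q.p0 (k - 1)
  rwa [sub_add_cancel] at this

theorem Qb.H_K2 (k : ℤ) : Q.H (k + 1) (Kk Q.hd hW (gg d 2 k)) := by
  have h3 := Q.h3
  obtain ⟨f, g, u, hT⟩ := tri2 Q.hd (Q.F Q.p0) (gg d 2 k)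
  refine Q.H_ex hT (Q.H_E2 _ k) ?_
  rw [gg_tsn]
  exact Q.H_E _ _ (by omega) (by omega)

omit Q in
/-- the position of an element of the grading group -/
def Pos (d : ℕ) (j k p : ℤ) : Prop := (3 - (d : ℤ) ≤ j ∧ j ≤ 1 ∧ p = k) ∨ (j = 2 ∧ p = k + 1)

/-- the positions of the twists of the Koszul matrix factorization -/
theorem Qb.H_Kk {j k p : ℤ} (h : Pos d j k p) : Q.H p (Kk Q.hd hW (gg d j k)) := by
  rcases h with ⟨h1, h2, rfl⟩ | ⟨rfl, rfl⟩
  · rcases eq_or_lt_of_le h1 with h | h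
    · rw [← h]; exact Q.H_K3 _
    · exact Q.H_K (by omega) h2 _
  · exact Q.H_K2 k

theorem Qb.H_Ee (q : Fin d) {j k p : ℤ} (h : Pos d j k p) : Q.H p ((Q.F q).E (gg d j k)) := by
  rcases h with ⟨h1, h2, rfl⟩ | ⟨rfl, rfl⟩
  · exact Q.H_E q _ h1 h2
  · exact Q.H_E2 q k

omit Q in
theorem exists_pos {j : ℤ} (h : 3 - (d : ℤ) ≤ j) (h' : j ≤ 2) (k : ℤ) : ∃ p, Pos d j k p := by
  rcases eq_or_lt_of_le h' with h1 | h1
  · exact ⟨k + 1, Or.inr ⟨h1, rfl⟩⟩
  · exact ⟨k, Or.inl ⟨h, by omega, rfl⟩⟩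

/-- a word -/
def Qb.Wd (Q : Qb hW) (X : MF (lg a2 d W hW)) : Prop := ∃ k m, Srt Q.S k m X

theorem Qb.Wd_H {k : ℤ} {X : MF (lg a2 d W hW)} (h : Q.H k X) : Q.Wd X := ⟨k, h.1⟩

theorem Qb.cls : Cls (L := lg a2 d W hW) Q.Wd where
  iso e := by
    rintro ⟨k, m, h⟩
    exact ⟨k, m, h.ofIso e⟩
  zero h := ⟨0, 0, Srt.nil h⟩
  ext := by
    rintro X Y V f g h H ⟨k, m, hX⟩ ⟨k', m', hV⟩
    have h1 : Dw Q.S (min k k') X := ⟨m, hX.mono (min_le_left _ _)⟩
    obtain ⟨m'', h2⟩ := Dw.ext' Q.smc m' hV (min_le_right k k') h1 f g h H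
    exact ⟨_, _, h2⟩

theorem Qb.Wd_ret {X Y : MF (lg a2 d W hW)} (i : X ⟶ Y) (q : Y ⟶ X) (h : i ≫ q = 𝟙 X)
    (hY : Q.Wd Y) : Q.Wd X := by
  obtain ⟨V, ⟨e⟩⟩ := ret_biprod i q h
  obtain ⟨k, m, hY⟩ := hY
  exact (Srt.retract Q.smc m hY X V e).1

theorem Qb.Wd_K (m : Gd d) : Q.Wd (Kk Q.hd hW m) := by
  obtain ⟨j, k, h1, h2, rfl⟩ := exists_gg Q.hd m
  obtain ⟨p, hp⟩ := exists_pos h1 h2 k
  exact Q.Wd_H (Q.H_Kk hp)

theorem Qb.Wd_E (q : Fin d) (m : Gd d) : Q.Wd ((Q.F q).E m) := by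
  obtain ⟨j, k, h1, h2, rfl⟩ := exists_gg Q.hd m
  obtain ⟨p, hp⟩ := exists_pos h1 h2 k
  exact Q.Wd_H (Q.H_Ee q hp)

theorem Qb.Wd_ts (g : Gd d) (X : MF (lg a2 d W hW)) (h : Q.Wd X) :
    Q.Wd (X.ts g 1 (one_mul 1)) := by
  obtain ⟨k, m, h⟩ := h
  induction h with
  | nil h0 => exact Q.cls.zero (ts_isZero g _ h0)
  | @snoc k k' m A X i f g' h' hT hk hA ih =>
    obtain ⟨f2, g2, h2, hd⟩ := ts_dist' g _ hT
    refine Q.cls.ext hd ih ?_
    rcases i with i | p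
    · obtain ⟨e⟩ := Kk_ts (hW := hW) Q.hd (gg d (1 - ((i : ℕ) : ℤ)) k') g
      exact Q.cls.iso e.symm (Q.Wd_K _)
    · obtain ⟨e⟩ := (Q.F p).toFac.E_ts (gg d (3 - d) k') g
      exact Q.cls.iso e.symm (Q.Wd_E _ _)

theorem Qb.gen (hs : ∀ x : Fin 2 → ℂ, (∀ i, eval x (pderiv i W) = 0) → x = 0)
    (X : MF (lg a2 d W hW)) : ∃ k m, Srt Q.S k m X := by
  refine Cls.all (hd := Q.hd) (fun _ => by norm_num) Q.cls
    (fun i q h => Q.Wd_ret i q h) Q.Wd_ts hs (fun g => ?_) X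
  obtain ⟨e⟩ := KK_iso (hW := hW) Q.hd g
  exact Q.cls.iso e.symm (Q.Wd_K _)

end Pool.Agent.Helper445_GMF.Bf
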