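import Pool.Agent.Helper445_GMF.Bf6
import Pool.Agent.Helper445_GMF.Adv

/-!
Binary forms of degree `d`: twists of words and the length.
-/

set_option autoImplicit false
set_option linter.unusedSectionVars false

open CategoryTheory Matrix Pretriangulated Triangulated Limits MvPolynomial ZeroObject

namespace Pool.Agent.Helper445_GMF.Bf

variable {d : ℕ} {W : MvPolynomial (Fin 2) ℂ} {hW : IsWeightedHomogeneous a2 W d} (Q : Qb hW)

theorem Qb.dw_ts {g : Gd d} (hg : ∀ i k, Dw Q.S k ((Q.S i k).ts g 1 (one_mul 1))) {t : ℤ}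
    {X : MF (lg a2 d W hW)} (h : Dw Q.S t X) : Dw Q.S t (X.ts g 1 (one_mul 1)) := by
  obtain ⟨m, h⟩ := h
  induction h with
  | nil h0 => exact Dw.of_zero (ts_isZero g _ h0)
  | @snoc k k' m A X i f g' h' hT hk hA ih =>
    obtain ⟨f2, g2, h2, hd⟩ := ts_dist' g _ hT
    exact Dw.ex Q.smc hd (ih.mono hk) ((hg i k').mono hk)

theorem Qb.dwt {t : ℤ} {X : MF (lg a2 d W hW)} (h : Dw Q.S t X) :
    Dw Q.S t (X.ts (tau d) 1 (one_mul 1)) := by
  have h3 := Q.h3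
  refine Q.dw_ts ?_ h
  rintro (i | p) k
  · have hi := i.2
    obtain ⟨e⟩ := Kk_ts (hW := hW) Q.hd (gg d (1 - ((i : ℕ) : ℤ)) k) (tau d)
    refine Dw.ofIso e.symm ?_
    rw [tau_gg, gg_add]
    rcases Nat.eq_zero_or_pos (i : ℕ) with h | h
    · exact (Q.H_Kk (p := k + 0 + 1) (Or.inr ⟨by rw [h]; norm_num, rfl⟩)).1.mono (by omega)
    · exact (Q.H_Kk (p := k + 0) (Or.inl ⟨by omega, by omega, rfl⟩)).1.mono (by omega)
  · obtain ⟨e⟩ := (Q.F p).toFac.E_ts (gg d (3 - d) k) (tau d)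
    refine Dw.ofIso e.symm ?_
    rw [show gg d (3 - d) k + tau d = gg d (3 - d + 1) (k + 0) by rw [tau_gg, gg_add]]
    exact (Q.H_Ee p (p := k + 0) (Or.inl ⟨by omega, by omega, rfl⟩)).1.mono (by omega)

theorem Qb.dws {t : ℤ} {X : MF (lg a2 d W hW)} (h : Dw Q.S t X) :
    Dw Q.S t (X.ts (gg d (-1) 1) 1 (one_mul 1)) := by
  have h3 := Q.h3
  refine Q.dw_ts ?_ h
  rintro (i | p) k
  · have hi := i.2
    obtain ⟨e⟩ := Kk_ts (hW := hW) Q.hd (gg d (1 - ((i : ℕ) : ℤ)) k) (gg d (-1) 1)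
    refine Dw.ofIso e.symm ?_
    rw [gg_add]
    exact (Q.H_Kk (p := k + 1) (Or.inl ⟨by omega, by omega, rfl⟩)).1.mono (by omega)
  · obtain ⟨e⟩ := (Q.F p).toFac.E_ts (gg d (3 - d) k) (gg d (-1) 1)
    refine Dw.ofIso e.symm ?_
    rw [gg_add, show gg d (3 - d + -1) (k + 1) = gg d 2 (k - 1) from
      gg_ext 1 (by ring) (by ring)]
    exact (Q.H_Ee p (p := k - 1 + 1) (Or.inr ⟨rfl, rfl⟩)).1.mono (by omega)

theorem ro_ts {U : MF (lg a2 d W hW) → Prop} {g : Gd d}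
    (hU : ∀ X, U X → U (X.ts g 1 (one_mul 1))) {X : MF (lg a2 d W hW)} (h : Ro U X) :
    Ro U (X.ts (-g) 1 (one_mul 1)) := by
  intro Y hY f
  refine hz_of_ts (g := g) ?_ f
  exact hz_iso ⟨Iso.refl _⟩ (ts_ts_iso' X g) (h _ (hU Y hY))

theorem Qb.letter_ts (i : Fin (d - 2) ⊕ Fin d) (k j : ℤ) :
    Nonempty ((Q.S i k).ts (j • sig d) 1 (one_mul 1) ≅ Q.S i (k + j)) := by
  have e0 : (j • sig d : Gd d) = gg d 0 j := by simp [gg]
  rw [e0]
  rcases i with i | p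
  · have h := Kk_ts (hW := hW) Q.hd (gg d (1 - ((i : ℕ) : ℤ)) k) (gg d 0 j)
    rw [gg_add, add_zero] at h
    exact h
  · have h := (Q.F p).toFac.E_ts (gg d (3 - d) k) (gg d 0 j)
    rw [gg_add, add_zero] at h
    exact h

theorem Qb.srt_ts (j : ℤ) {k : ℤ} {m : ℕ} {X : MF (lg a2 d W hW)} (h : Srt Q.S k m X) :
    Srt Q.S (k + j) m (X.ts (j • sig d) 1 (one_mul 1)) := by
  induction h with
  | nil h0 => exact Srt.nil (ts_isZero _ _ h0)
  | @snoc k k' m A X i f g' h' hT hk hA ih =>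
    obtain ⟨f2, g2, h2, hd⟩ := ts_dist' (j • sig d) _ hT
    obtain ⟨e⟩ := Q.letter_ts i k' j
    exact Srt.snoc i _ _ _ (dist_third hd e) (by omega) ih

theorem Qb.dw_sig (j : ℤ) {t : ℤ} {X : MF (lg a2 d W hW)} (h : Dw Q.S t X) :
    Dw Q.S (t + j) (X.ts (j • sig d) 1 (one_mul 1)) := by
  obtain ⟨m, h⟩ := h
  exact ⟨m, Q.srt_ts j h⟩

theorem Qb.vw_sig (j : ℤ) {t : ℤ} {X : MF (lg a2 d W hW)} (h : Vw Q.S t X) :
    Vw Q.S (t + j) (X.ts (j • sig d) 1 (one_mul 1)) := by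
  intro Y hY f
  have h1 : Dw Q.S t (Y.ts (-(j • sig d)) 1 (one_mul 1)) := by
    have := Q.dw_sig (-j) hY
    rw [neg_smul, add_neg_cancel_right] at this
    exact this
  refine hz_of_ts (g := -(j • sig d)) ?_ f
  exact hz_iso ⟨Iso.refl _⟩ (ts_ts_iso X (j • sig d)) (h _ h1)

theorem Qb.word_vw {k : ℤ} {m : ℕ} {X : MF (lg a2 d W hW)} (h : Srt Q.S k m X) :
    ∃ t, Vw Q.S t X := by
  induction h with
  | nil h0 => exact ⟨0, Ro_zero h0⟩
  | @snoc k k' m A X i f g' h' hT hk hA ih =>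
    obtain ⟨t, ht⟩ := ih
    have h1 : Vw Q.S (k' + 1) (Q.S i k') := Vw.letter Q.smc (by omega) i
    exact ⟨max t (k' + 1), Ro_ext hT (ht.mono (le_max_left _ _)) (h1.mono (le_max_right _ _))⟩

section psi

/-- triangular numbers -/
noncomputable def tri (m : ℤ) : ℂ := (m : ℂ) * (m + 1) / 2

/-- the contribution of a generator to the length -/
noncomputable def psi (d : ℕ) (g : Gd d) : ℂ :=
  if g.1.2 = 0 then tri ((th d g / 2 - 2) % d) else - tri (((th d g - d) / 2 - 2) % d)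

theorem psi_sig (g : Gd d) : psi d (g + sig d) = - psi d g := by
  unfold psi
  rw [sn_add, sn_sig, th_add, th_sig]
  rcases zmod2 g.1.2 with h | h
  · rw [h, if_neg (by decide), if_pos rfl, add_sub_cancel_right]
  · rw [h, if_pos (by decide), if_neg (by decide), neg_neg]
    have e : (th d g + d) / 2 - 2 = (th d g - d) / 2 - 2 + d := by
      have : th d g + d = th d g - d + d * 2 := by ring
      rw [this, Int.add_mul_ediv_right _ _ (by norm_num)]
      ring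
    rw [e, Int.add_emod_right]

theorem psi_gg0 (j : ℤ) : psi d (gg d j 0) = tri ((j - 2) % d) := by
  unfold psi
  rw [snd_gg, th_gg, if_pos (by simp)]
  congr 2
  omega

theorem psi_gg1 (j : ℤ) : psi d (gg d j 1) = -tri ((j - 2) % d) := by
  rw [← psi_gg0, ← psi_sig, gg_sig]
  norm_num

theorem psi_gg2 (j : ℤ) : psi d (gg d j 2) = tri ((j - 2) % d) := by
  rw [← neg_neg (tri _), ← psi_gg1, ← psi_sig, gg_sig]
  norm_num

end psi

theorem Psi_Kk (ψ : Gd d → ℂ) (hd : 0 < d) (m : Gd d) : Psi ψ (Kk hd hW m) =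
    ψ m + ψ (m - tau d + sig d) + (ψ (m - tau d + sig d) +
      ψ (m - tau d - tau d + sig d + sig d)) := by
  show ∑ i : (Fin 1 ⊕ Fin 1) ⊕ (Fin 1 ⊕ Fin 1), ψ ((Kk hd hW m).g i) = _
  rw [Fintype.sum_sum_type, Fintype.sum_sum_type, Fintype.sum_sum_type]
  simp only [Finset.univ_unique, Finset.sum_singleton]
  exact congrArg₂ (· + ·) (congrArg₂ (· + ·) (congrArg ψ (Kk_g1 (hW := hW) hd m 0))
    (congrArg ψ (Kk_g2 (hW := hW) hd m 0)))
    (congrArg₂ (· + ·) (congrArg ψ (Kk_g3 (hW := hW) hd m 0))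
      (congrArg ψ (Kk_g4 (hW := hW) hd m 0)))

theorem Psi_E (ψ : Gd d → ℂ) (F : Fac hW (tau d)) (m : Gd d) : Psi ψ (F.E m) =
    ψ m + ψ (m - tau d + sig d) := by
  show ∑ i : Fin 1 ⊕ Fin 1, ψ ((F.E m).g i) = _
  rw [Fintype.sum_sum_type]
  simp only [Finset.univ_unique, Finset.sum_singleton]
  exact congrArg₂ (· + ·) (congrArg ψ (F.gl m 0)) (congrArg ψ (F.gr m 0))

theorem Qb.len (i : Fin (d - 2) ⊕ Fin d) : Psi (psi d) (Q.S i 0) = 1 := by
  have h3 := Q.h3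
  rcases i with i | p
  · have hi := i.2
    show Psi (psi d) (Kk Q.hd hW (gg d (1 - ((i : ℕ) : ℤ)) 0)) = 1
    obtain ⟨j, hj⟩ : ∃ j : ℤ, j = 1 - ((i : ℕ) : ℤ) := ⟨_, rfl⟩
    rw [← hj, Psi_Kk, gg_tsn, gg_ttssn, zero_add, zero_add, psi_gg0, psi_gg1, psi_gg2]
    have e1 : (j - 2) % (d : ℤ) = j - 2 + d := by
      rw [← Int.add_emod_right]
      exact Int.emod_eq_of_lt (by omega) (by omega)
    have e2 : (j - 1 - 2) % (d : ℤ) = j - 3 + d := by
      rw [← Int.add_emod_right]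
      rw [show j - 1 - 2 + (d : ℤ) = j - 3 + d by ring]
      exact Int.emod_eq_of_lt (by omega) (by omega)
    have e3 : (j - 2 - 2) % (d : ℤ) = j - 4 + d := by
      rw [← Int.add_emod_right]
      rw [show j - 2 - 2 + (d : ℤ) = j - 4 + d by ring]
      exact Int.emod_eq_of_lt (by omega) (by omega)
    rw [e1, e2, e3]
    unfold tri
    push_cast
    ring
  · show Psi (psi d) ((Q.F p).E (gg d (3 - d) 0)) = 1
    rw [Psi_E, gg_tsn, zero_add, psi_gg0, psi_gg1]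
    have e1 : (3 - (d : ℤ) - 2) % (d : ℤ) = 1 := by
      rw [← Int.add_emod_right]
      rw [show 3 - (d : ℤ) - 2 + (d : ℤ) = 1 by ring]
      exact Int.emod_eq_of_lt (by omega) (by omega)
    have e2 : (3 - (d : ℤ) - 1 - 2) % (d : ℤ) = 0 := by
      rw [← Int.add_emod_right]
      rw [show 3 - (d : ℤ) - 1 - 2 + (d : ℤ) = 0 by ring]
      exact Int.zero_emod _
    rw [e1, e2]
    unfold tri
    norm_num

/-- the data for the tilt -/
theorem Qb.tl2 (hs : ∀ x : Fin 2 → ℂ, (∀ i, eval x (pderiv i W) = 0) → x = 0) :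
    Tl2 Q.S ZG (Psi (psi d)) where
  smc := Q.smc
  gen := Q.gen hs
  add T hT := ZG_add (fun _ => by norm_num) Q.hd T hT
  addl := Psi_add _ psi_sig (fun _ => by norm_num) Q.hd
  len := Q.len

end Pool.Agent.Helper445_GMF.Bf
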