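import Pool.Agent.Helper445_GMF.Bf7

/-!
Binary forms of degree `d`: central charges.
-/

set_option autoImplicit false
set_option linter.unusedSectionVars false

open CategoryTheory Matrix Pretriangulated Triangulated Limits MvPolynomial ZeroObject

namespace Pool.Agent.Helper445_GMF.Bf

variable {d : ℕ}

/-- the rotated imaginary part of the contribution of a generator -/
noncomputable def sn (d : ℕ) (δ : ℝ) (x : ℤ) : ℝ := Real.sin (Real.pi * (x - δ) / d)

/-- the rotated imaginary part -/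
noncomputable def fd (d : ℕ) (δ : ℝ) (z : ℂ) : ℝ :=
  (Complex.exp (((-(Real.pi * δ / d) : ℝ) : ℂ) * Complex.I) * z).im

theorem fd_add (δ : ℝ) (z w : ℂ) : fd d δ (z + w) = fd d δ z + fd d δ w := by
  unfold fd
  rw [mul_add, Complex.add_im]

theorem fd_neg (δ : ℝ) (z : ℂ) : fd d δ (-z) = -fd d δ z := by
  unfold fd
  rw [mul_neg, Complex.neg_im]

theorem fd_sum (δ : ℝ) {I : Type} [Fintype I] (z : I → ℂ) :
    fd d δ (∑ i, z i) = ∑ i, fd d δ (z i) := by
  unfold fd
  rw [Finset.mul_sum, Complex.im_sum]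

theorem fd_zero (z : ℂ) : fd d 0 z = z.im := by
  unfold fd
  simp

theorem fd_gam (δ : ℝ) (g : Gd d) : fd d δ (gam d g) = sn d δ (th d g) := by
  unfold fd gam sn
  have e : Real.pi * Complex.I * (g.1.1 : ℂ) / d = ((Real.pi * g.1.1 / d : ℝ) : ℂ) * Complex.I := by
    push_cast; ring
  rw [e, ← Complex.exp_add, ← add_mul, ← Complex.ofReal_add, Complex.exp_ofReal_mul_I_im]
  congr 1
  show -(Real.pi * δ / d) + Real.pi * (th d g) / d = _
  ring

theorem sn_d (hd : 0 < d) (δ : ℝ) (x : ℤ) : sn d δ (x + d) = - sn d δ x := by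
  have hd' : (d : ℝ) ≠ 0 := Nat.cast_ne_zero.2 hd.ne'
  unfold sn
  rw [← Real.sin_add_pi]
  congr 1
  push_cast
  field_simp
  ring

theorem sn_nonneg (hd : 0 < d) {δ : ℝ} {x : ℤ} (h : δ ≤ x) (h' : (x : ℝ) ≤ d + δ) :
    0 ≤ sn d δ x := by
  have hd' : (0 : ℝ) < d := Nat.cast_pos.2 hd
  have hpi := Real.pi_pos
  refine Real.sin_nonneg_of_nonneg_of_le_pi ?_ ?_
  · apply div_nonneg _ hd'.le
    exact mul_nonneg hpi.le (by linarith)
  · rw [div_le_iff₀ hd']
    exact mul_le_mul_of_nonneg_left (by linarith) hpi.le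

theorem sn_pos (hd : 0 < d) {δ : ℝ} {x : ℤ} (h : δ < x) (h' : (x : ℝ) < d + δ) :
    0 < sn d δ x := by
  have hd' : (0 : ℝ) < d := Nat.cast_pos.2 hd
  have hpi := Real.pi_pos
  refine Real.sin_pos_of_pos_of_lt_pi ?_ ?_
  · apply div_pos _ hd'
    exact mul_pos hpi (by linarith)
  · rw [div_lt_iff₀ hd']
    exact mul_lt_mul_of_pos_left (by linarith) hpi

theorem sn_dd (hd : 0 < d) (δ : ℝ) (x : ℤ) : sn d δ (x - d) = - sn d δ x := by
  have := sn_d hd δ (x - d)
  rw [sub_add_cancel] at this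
  rw [this, neg_neg]

/-- comparison of the values at four and six -/
theorem sn46 (h6 : 6 ≤ d) (h9 : d ≤ 9) {δ : ℝ} (h0 : 0 ≤ δ) (h1 : δ ≤ 1 / 2) :
    sn d δ 6 ≤ sn d δ 4 := by
  have h6' : (6 : ℝ) ≤ d := by exact_mod_cast h6
  have h9' : (d : ℝ) ≤ 9 := by exact_mod_cast h9
  have hd' : (0 : ℝ) < d := by linarith
  have hpi := Real.pi_pos
  unfold sn
  have e := Real.sin_sub_sin (Real.pi * (((6 : ℤ) : ℝ) - δ) / d) (Real.pi * (((4 : ℤ) : ℝ) - δ) / d)
  have e1 : (Real.pi * (((6 : ℤ) : ℝ) - δ) / d - Real.pi * (((4 : ℤ) : ℝ) - δ) / d) / 2 =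
      Real.pi / d := by
    field_simp
    push_cast
    ring
  have e2 : (Real.pi * (((6 : ℤ) : ℝ) - δ) / d + Real.pi * (((4 : ℤ) : ℝ) - δ) / d) / 2 =
      Real.pi * (5 - δ) / d := by
    field_simp
    push_cast
    ring
  rw [e1, e2] at e
  have h2 : 0 ≤ Real.sin (Real.pi / d) := by
    refine Real.sin_nonneg_of_nonneg_of_le_pi (by positivity) ?_
    rw [div_le_iff₀ hd']
    nlinarith
  have h3 : Real.cos (Real.pi * (5 - δ) / d) ≤ 0 := by
    refine Real.cos_nonpos_of_pi_div_two_le_of_le ?_ ?_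
    · rw [le_div_iff₀ hd']
      nlinarith
    · rw [div_le_iff₀ hd']
      nlinarith
  nlinarith

theorem sn46' (h6 : 6 ≤ d) (h9 : d ≤ 9) : sn d 0 6 < sn d 0 4 := by
  have h6' : (6 : ℝ) ≤ d := by exact_mod_cast h6
  have h9' : (d : ℝ) ≤ 9 := by exact_mod_cast h9
  have hd' : (0 : ℝ) < d := by linarith
  have hpi := Real.pi_pos
  unfold sn
  have e := Real.sin_sub_sin (Real.pi * (((6 : ℤ) : ℝ) - 0) / d) (Real.pi * (((4 : ℤ) : ℝ) - 0) / d)
  have e1 : (Real.pi * (((6 : ℤ) : ℝ) - 0) / d - Real.pi * (((4 : ℤ) : ℝ) - 0) / d) / 2 =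
      Real.pi / d := by
    field_simp
    push_cast
    ring
  have e2 : (Real.pi * (((6 : ℤ) : ℝ) - 0) / d + Real.pi * (((4 : ℤ) : ℝ) - 0) / d) / 2 =
      Real.pi * 5 / d := by
    field_simp
    push_cast
    ring
  rw [e1, e2] at e
  have h2 : 0 < Real.sin (Real.pi / d) := by
    refine Real.sin_pos_of_pos_of_lt_pi (by positivity) ?_
    rw [div_lt_iff₀ hd']
    nlinarith
  have h3 : Real.cos (Real.pi * 5 / d) < 0 := by
    refine Real.cos_neg_of_pi_div_two_lt_of_lt ?_ ?_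
    · rw [lt_div_iff₀ hd']
      nlinarith
    · rw [div_lt_iff₀ hd']
      nlinarith
  nlinarith

/-- the final contradiction -/
theorem hp_rot (hd : 1 < d) {z : ℂ} (h : Hp 0 z) (h0 : fd d 0 z ≤ 0)
    (h1 : fd d (1 / 2) z ≤ 0) : False := by
  have hd' : (1 : ℝ) < d := by exact_mod_cast hd
  have hpi := Real.pi_pos
  rw [fd_zero] at h0
  rw [hp_zero] at h
  rcases h with h | ⟨h, h2⟩
  · linarith
  · have e : z = ((z.re : ℝ) : ℂ) := Complex.ext (by simp) (by simp [h])
    rw [e] at h1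
    unfold fd at h1
    rw [Complex.mul_im, Complex.ofReal_im, Complex.ofReal_re, mul_zero, zero_add,
      Complex.exp_ofReal_mul_I_im, Real.sin_neg] at h1
    have h3 : 0 < Real.sin (Real.pi * (1 / 2) / d) := by
      refine Real.sin_pos_of_pos_of_lt_pi (by positivity) ?_
      rw [div_lt_iff₀ (by linarith)]
      nlinarith
    nlinarith

variable {W : MvPolynomial (Fin 2) ℂ} {hW : IsWeightedHomogeneous a2 W d}

theorem ZG_psi (E : MF (lg a2 d W hW)) : ZG E = Psi (gam d) E := rfl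

theorem fd_ZG (δ : ℝ) (E : MF (lg a2 d W hW)) :
    fd d δ (ZG E) = ∑ i, sn d δ (th d (E.g i)) := by
  rw [ZG_psi, Psi, fd_sum]
  exact Finset.sum_congr rfl fun i _ => fd_gam δ _

theorem th_tsn (m : Gd d) : th d (m - tau d + sig d) = th d m - 2 + d := rfl

theorem th_ttssn (m : Gd d) : th d (m - tau d - tau d + sig d + sig d) =
    th d m - 4 + d + d := by
  show th d m - 2 - 2 + d + d = _
  ring

theorem fd_Kk (hd : 0 < d) (δ : ℝ) (m : Gd d) : fd d δ (ZG (Kk hd hW m)) =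
    sn d δ (th d m) - 2 * sn d δ (th d m - 2) + sn d δ (th d m - 4) := by
  rw [ZG_psi, Psi_Kk, fd_add, fd_add, fd_add, fd_gam, fd_gam, fd_gam, th_tsn, th_ttssn,
    sn_d hd, sn_d hd, sn_d hd]
  ring

/-- the central charge of the Koszul matrix factorization -/
theorem ZG_Kk (hd : 0 < d) (m : Gd d) : ZG (Kk hd hW m) =
    ((-(2 - 2 * Real.cos (2 * Real.pi / d)) : ℝ) : ℂ) *
      Complex.exp (((Real.pi * (th d m - 2) / d : ℝ) : ℂ) * Complex.I) := by
  have hd' : (d : ℝ) ≠ 0 := Nat.cast_ne_zero.2 hd.ne'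
  rw [ZG_psi, Psi_Kk]
  have hg : ∀ g : Gd d, gam d g = Complex.exp (((Real.pi * th d g / d : ℝ) : ℂ) *
      Complex.I) := by
    intro g
    unfold gam
    congr 1
    show Real.pi * Complex.I * (th d g : ℂ) / d = _
    push_cast
    ring
  have hs : ∀ g : Gd d, gam d (g + sig d) = - gam d g := fun g => by
    rw [gam_add, gam_sig hd, mul_neg_one]
  have hs2 : gam d (m - tau d - tau d + sig d + sig d) = gam d (m - tau d - tau d) := by
    rw [hs, hs, neg_neg]
  rw [hs, hs2, hg, hg, hg]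
  have e0 : Real.pi * th d m / d = Real.pi * (th d m - 2) / d + 2 * Real.pi / d := by
    field_simp
    ring
  have e1 : Real.pi * th d (m - tau d) / d = Real.pi * (th d m - 2) / d := by
    rw [th_sub, th_tau]; push_cast; ring
  have e2 : Real.pi * th d (m - tau d - tau d) / d =
      Real.pi * (th d m - 2) / d + -(2 * Real.pi / d) := by
    rw [th_sub, th_sub, th_tau]; push_cast; field_simp; ring
  rw [e0, e1, e2]
  set x := Real.pi * (th d m - 2) / d with hx
  set y := 2 * Real.pi / d with hy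
  have h2 : 2 * ((Real.cos y : ℝ) : ℂ) = Complex.exp ((y : ℂ) * Complex.I) +
      Complex.exp (-(y : ℂ) * Complex.I) := by
    rw [Complex.ofReal_cos, Complex.cos]
    ring
  push_cast
  rw [add_mul, Complex.exp_add, add_mul, Complex.exp_add]
  have h3 : 2 * Complex.cos (y : ℂ) = Complex.exp ((y : ℂ) * Complex.I) +
      Complex.exp (-(y : ℂ) * Complex.I) := by
    rw [← h2, Complex.ofReal_cos]
  linear_combination (-Complex.exp ((x : ℂ) * Complex.I)) * h3

theorem r_pos (hd : 2 ≤ d) : 0 < 2 - 2 * Real.cos (2 * Real.pi / d) := by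
  have hd' : (2 : ℝ) ≤ d := by exact_mod_cast hd
  have hpi := Real.pi_pos
  have h1 : Real.cos (2 * Real.pi / d) < 1 := by
    rw [← Real.cos_zero]
    refine Real.cos_lt_cos_of_nonneg_of_le_pi le_rfl ?_ (by positivity)
    rw [div_le_iff₀ (by linarith)]
    nlinarith
  linarith

theorem hpK (hd : 2 ≤ d) (hd0 : 0 < d) (m : Gd d) (h : 2 - (d : ℤ) < th d m)
    (h' : th d m ≤ 2) : Hp 0 (ZG (Kk hd0 hW m)) := by
  have hr := r_pos hd
  have hd' : (2 : ℝ) ≤ d := by exact_mod_cast hd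
  have hpi := Real.pi_pos
  rw [ZG_Kk, hp_zero, Complex.re_ofReal_mul, Complex.im_ofReal_mul,
    Complex.exp_ofReal_mul_I_im, Complex.exp_ofReal_mul_I_re]
  have h1 : (2 - d : ℝ) < th d m := by exact_mod_cast h
  rcases eq_or_lt_of_le h' with h2 | h2
  · right
    rw [h2]
    norm_num
    have : Real.cos (2 * Real.pi / d) < 1 := by linarith
    linarith
  · left
    have h3 : (th d m : ℝ) < 2 := by exact_mod_cast h2
    have h4 : Real.sin (Real.pi * (th d m - 2) / d) < 0 := by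
      refine Real.sin_neg_of_neg_of_neg_pi_lt ?_ ?_
      · apply div_neg_of_neg_of_pos _ (by linarith)
        nlinarith
      · rw [lt_div_iff₀ (by linarith)]
        nlinarith
    nlinarith

theorem nhpK (hd : 2 ≤ d) (hd0 : 0 < d) (m : Gd d) (h : 2 - 2 * (d : ℤ) < th d m)
    (h' : th d m ≤ 2 - d) : ¬ Hp 0 (ZG (Kk hd0 hW m)) := by
  have hr := r_pos hd
  have hd' : (2 : ℝ) ≤ d := by exact_mod_cast hd
  have hpi := Real.pi_pos
  rw [ZG_Kk, hp_zero, Complex.re_ofReal_mul, Complex.im_ofReal_mul,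
    Complex.exp_ofReal_mul_I_im, Complex.exp_ofReal_mul_I_re]
  have h1 : (2 - 2 * d : ℝ) < th d m := by exact_mod_cast h
  have h2 : (th d m : ℝ) ≤ 2 - d := by exact_mod_cast h'
  have e : Real.sin (Real.pi * (th d m - 2) / d) =
      -Real.sin (Real.pi * (th d m - 2) / d + Real.pi) := by
    rw [Real.sin_add_pi, neg_neg]
  have e2 : Real.cos (Real.pi * (th d m - 2) / d) =
      -Real.cos (Real.pi * (th d m - 2) / d + Real.pi) := by
    rw [Real.cos_add_pi, neg_neg]
  have h3 : Real.pi * (th d m - 2) / d + Real.pi ≤ 0 := by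
    have : Real.pi * (th d m - 2) / d ≤ -Real.pi := by
      rw [div_le_iff₀ (by linarith)]
      nlinarith
    linarith
  have h4 : -Real.pi < Real.pi * (th d m - 2) / d + Real.pi := by
    have : -2 * Real.pi < Real.pi * (th d m - 2) / d := by
      rw [lt_div_iff₀ (by linarith)]
      nlinarith
    linarith
  rw [e, e2]
  set x := Real.pi * (th d m - 2) / d + Real.pi
  rintro (h5 | ⟨h5, h6⟩)
  · have h7 : Real.sin x ≤ 0 := Real.sin_nonpos_of_nonpos_of_neg_pi_le h3 h4.le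
    nlinarith
  · rcases eq_or_lt_of_le h3 with h7 | h7
    · rw [h7, Real.cos_zero] at h6
      nlinarith
    · have h8 : Real.sin x < 0 := Real.sin_neg_of_neg_of_neg_pi_lt h7 h4
      nlinarith

/-- the charge of the letters of rank one -/
theorem nhpE (h6 : 6 ≤ d) (h9 : d ≤ 9) (F : Fac hW (tau d)) (m : Gd d)
    (h : th d m = 6 - 2 * d) : ¬ Hp 0 (ZG (F.E m)) := by
  have hd : 0 < d := by omega
  have h1 : (ZG (F.E m)).im < 0 := by
    rw [← fd_zero (d := d), ZG_psi, Psi_E, fd_add, fd_gam, fd_gam, th_tsn, h]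
    have e1 : (6 : ℤ) - 2 * d = 6 - d - d := by ring
    have e2 : (6 : ℤ) - 2 * d - 2 + d = 4 - d := by ring
    rw [e2, e1, sn_dd hd, sn_dd hd, sn_dd hd, neg_neg]
    have := sn46' h6 h9
    linarith
  rw [hp_zero]
  rintro (h2 | ⟨h2, h3⟩) <;> linarith

end Pool.Agent.Helper445_GMF.Bf
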