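import Pool.Agent.Helper445_GMF.Bf8

/-!
Binary forms of degree `d`: torsion and torsion-free Koszul matrix factorizations, and bounds for
central charges.
-/

set_option autoImplicit false
set_option linter.unusedSectionVars false

open CategoryTheory Matrix Pretriangulated Triangulated Limits MvPolynomial ZeroObject

namespace Pool.Agent.Helper445_GMF.Bf

variable {d : ℕ} {W : MvPolynomial (Fin 2) ℂ} {hW : IsWeightedHomogeneous a2 W d}

/-- the ranks of the two parts of a matrix factorization agree -/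
theorem chi_sum (hW0 : W ≠ 0) (B : MF (lg a2 d W hW)) : ∑ j, (chi d (B.g j)).re = 0 := by
  have h : ∑ j, chi d (B.g j) = 0 := by
    refine chi_aux (fun j => chi d (B.g j)) B.D W (fun i j => chi_entry (B.hD i j)) ?_ hW0
    intro i
    have := congrFun (congrFun B.sq i) i
    rw [Matrix.mul_apply] at this
    refine this.trans ?_
    show (W • (1 : Matrix B.I B.I (MvPolynomial (Fin 2) ℂ))) i i = W
    simp
  rw [← Complex.re_sum, h, Complex.zero_re]

theorem chi_gg (j k : ℤ) : (chi d (gg d j k)).re = if k % 2 = 0 then 1 else -1 := by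
  unfold chi
  rw [snd_gg]
  have h : ((k : ℤ) : ZMod 2) = 0 ↔ k % 2 = 0 := by
    rw [ZMod.intCast_zmod_eq_zero_iff_dvd]
    show ((2 : ℕ) : ℤ) ∣ k ↔ _
    omega
  by_cases h2 : k % 2 = 0
  · rw [if_pos (h.2 h2), if_pos h2, Complex.one_re]
  · rw [if_neg (fun h3 => h2 (h.1 h3)), if_neg h2, Complex.neg_re, Complex.one_re]

theorem chi_cases (g : Gd d) : ((chi d g).re = 1 ∧ th d g % 2 = 0) ∨ (chi d g).re = -1 := by
  unfold chi
  split_ifs with h
  · left
    refine ⟨Complex.one_re, ?_⟩
    have h1 : ((g.1.1 : ℤ) : ZMod 2) = ((d : ℕ) : ZMod 2) * g.1.2 := g.2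
    rw [h, mul_zero, ZMod.intCast_zmod_eq_zero_iff_dvd] at h1
    show g.1.1 % 2 = 0
    omega
  · right
    rw [Complex.neg_re, Complex.one_re]

/-- the imaginary part is positive if all generators are in the open upper half-plane, up to
generators of the degree of the shift -/
theorem im_pos (hd : 0 < d) (hW0 : W ≠ 0) (B : MF (lg a2 d W hW)) (hn : Nonempty B.I)
    (h : ∀ j, 0 < th d (B.g j) ∧ (th d (B.g j) < d ∨ B.g j = gg d 0 1)) : 0 < (ZG B).im := by
  have h0 : ∀ j, 0 ≤ sn d 0 (th d (B.g j)) := by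
    intro j
    have hd' : (0 : ℝ) < d := Nat.cast_pos.2 hd
    obtain ⟨h1, h2⟩ := h j
    have h1' : (0 : ℝ) < th d (B.g j) := by exact_mod_cast h1
    refine sn_nonneg hd h1'.le ?_
    rcases h2 with h2 | h2
    · have : (th d (B.g j) : ℝ) < d := by exact_mod_cast h2
      linarith
    · rw [h2, th_gg]
      push_cast
      linarith
  rw [← fd_zero (d := d), fd_ZG]
  refine lt_of_le_of_ne (Finset.sum_nonneg fun j _ => h0 j) fun he => ?_
  have h2 := (Finset.sum_eq_zero_iff_of_nonneg (fun j _ => h0 j)).1 he.symm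
  have h3 : ∀ j, B.g j = gg d 0 1 := by
    intro j
    obtain ⟨h4, h5⟩ := h j
    rcases h5 with h5 | h5
    · exfalso
      have h4' : (0 : ℝ) < th d (B.g j) := by exact_mod_cast h4
      have h5' : (th d (B.g j) : ℝ) < d + 0 := by rw [add_zero]; exact_mod_cast h5
      have := sn_pos hd h4' h5'
      have h6 := h2 j (Finset.mem_univ j)
      linarith
    · exact h5
  have h4 := chi_sum hW0 B
  have h5 : ∀ j, (chi d (B.g j)).re = -1 := by
    intro j
    rw [h3 j, chi_gg]
    norm_num
  rw [Finset.sum_congr rfl (fun j _ => h5 j), Finset.sum_const, nsmul_eq_mul] at h4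
  have : 0 < (Finset.univ : Finset B.I).card := Finset.card_pos.2 ⟨hn.some, Finset.mem_univ _⟩
  have h6 : (0 : ℝ) < (Finset.univ : Finset B.I).card := by exact_mod_cast this
  linarith

/-- a lower bound for the rotated imaginary part -/
theorem fd_low (h6 : 6 ≤ d) (h9 : d ≤ 9) (hW0 : W ≠ 0) {δ : ℝ} (h0 : 0 ≤ δ) (h1 : δ ≤ 1 / 2)
    (F : MF (lg a2 d W hW))
    (key : ∀ j, F.g j = gg d 1 0 ∨ F.g j = gg d 2 (-1) ∨ F.g j = gg d (3 - d) 1 ∨
      F.g j = gg d 0 1 ∨ (2 < th d (F.g j) ∧ th d (F.g j) ≤ d - 2))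
    (hn1 : Fintype.card {j : F.I // F.g j = gg d 1 0} = 1)
    (hn2 : Fintype.card {j : F.I // F.g j = gg d 2 (-1)} ≤ 2) :
    sn d δ 2 - 2 * sn d δ 4 + sn d δ 6 ≤ fd d δ (ZG F) := by
  have hd : 0 < d := by omega
  have h6' : (6 : ℝ) ≤ d := by exact_mod_cast h6
  have hs46 := sn46 h6 h9 h0 h1
  have hs6 : 0 ≤ sn d δ 6 := sn_nonneg hd (by push_cast; linarith) (by push_cast; linarith)
  set s2 := sn d δ 2 with hs2
  set s4 := sn d δ 4 with hs4
  set s6 := sn d δ 6 with hs6'
  have hne : gg d 1 0 ≠ gg d 2 (-1) := by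
    intro h
    have := congrArg (th d) h
    rw [th_gg, th_gg] at this
    omega
  have hv : ∀ j, (if F.g j = gg d 1 0 then s2 - s6 else 0) +
      (if F.g j = gg d 2 (-1) then -(s4 - s6) else 0) ≤
      sn d δ (th d (F.g j)) - (chi d (F.g j)).re * s6 := by
    intro j
    rcases key j with h | h | h | h | ⟨h, h'⟩
    · rw [if_pos h, if_neg (by rw [h]; exact hne), h, th_gg, chi_gg]
      norm_num
      rw [hs2]
    · rw [if_neg (by rw [h]; exact hne.symm), if_pos h, h, th_gg, chi_gg]
      norm_num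
      have e : (4 : ℤ) + -(d : ℤ) = 4 - d := by ring
      rw [e, sn_dd hd, ← hs4]
      linarith
    · rw [if_neg, if_neg, h, th_gg, chi_gg]
      · norm_num
        have e : 2 * (3 - (d : ℤ)) + d = 6 - d := by ring
        rw [e, sn_dd hd, ← hs6']
        linarith
      · intro h2
        have := congrArg (th d) (h.symm.trans h2)
        rw [th_gg, th_gg] at this
        omega
      · intro h2
        have := congrArg (th d) (h.symm.trans h2)
        rw [th_gg, th_gg] at this
        omega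
    · rw [if_neg, if_neg, h, th_gg, chi_gg]
      · norm_num
        have h2 : 0 ≤ sn d δ d := sn_nonneg hd (by push_cast; linarith) (by push_cast; linarith)
        linarith
      · intro h2
        have := congrArg (th d) (h.symm.trans h2)
        rw [th_gg, th_gg] at this
        omega
      · intro h2
        have := congrArg (th d) (h.symm.trans h2)
        rw [th_gg, th_gg] at this
        omega
    · rw [if_neg, if_neg]
      · rcases chi_cases (F.g j) with ⟨h2, h3⟩ | h2
        · rw [h2]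
          have h4 : th d (F.g j) = 4 ∨ th d (F.g j) = 6 := by omega
          rcases h4 with h4 | h4 <;> rw [h4]
          · rw [← hs4]; linarith
          · rw [← hs6']; linarith
        · rw [h2]
          have h3 : (2 : ℝ) < th d (F.g j) := by exact_mod_cast h
          have h4 : (th d (F.g j) : ℝ) ≤ d - 2 := by exact_mod_cast h'
          have h5 : 0 ≤ sn d δ (th d (F.g j)) := sn_nonneg hd (by linarith) (by linarith)
          linarith
      · intro h2
        rw [h2, th_gg] at h
        omega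
      · intro h2
        rw [h2, th_gg] at h
        omega
  have h2 : fd d δ (ZG F) = ∑ j, (sn d δ (th d (F.g j)) - (chi d (F.g j)).re * s6) := by
    rw [fd_ZG, Finset.sum_sub_distrib, ← Finset.sum_mul, chi_sum hW0 F, zero_mul, sub_zero]
  have h3 := Finset.sum_le_sum fun j (_ : j ∈ Finset.univ) => hv j
  rw [← h2, Finset.sum_add_distrib, ← Finset.sum_filter, ← Finset.sum_filter, Finset.sum_const,
    Finset.sum_const, nsmul_eq_mul, nsmul_eq_mul, ← Fintype.card_subtype,
    ← Fintype.card_subtype, hn1] at h3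
  have h4 : (Fintype.card {j : F.I // F.g j = gg d 2 (-1)} : ℝ) ≤ 2 := by exact_mod_cast hn2
  have h5 : (0 : ℝ) ≤ s4 - s6 := by linarith
  have h7 : (Fintype.card {j : F.I // F.g j = gg d 2 (-1)} : ℝ) * (s4 - s6) ≤ 2 * (s4 - s6) :=
    mul_le_mul_of_nonneg_right h4 h5
  push_cast at h3
  linarith

/-- reduction -/
theorem exists_red (hd : 0 < d) (B : MF (lg a2 d W hW)) : ∃ B' : MF (lg a2 d W hW),
    Nonempty (B ≅ B') ∧ Red0 B' := by
  obtain ⟨B', h1, -, h2⟩ := rk_spec (aug (fun _ => by norm_num) hd hW) B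
  exact ⟨B', h1, (red_iff _ _ B').1 h2⟩

variable {Q : Qb hW} (h6 : 6 ≤ d) (h9 : d ≤ 9) (H : Tl2 Q.S ZG (Psi (psi d)))

include h6 H

/-- Koszul matrix factorizations in the aisle -/
theorem ua_K {m : Gd d} (h : 2 - (d : ℤ) < th d m) (h' : m ≠ gg d 2 (-1)) :
    Ua Q.S ZG (Kk Q.hd hW m) := by
  obtain ⟨j, k, h1, h2, rfl⟩ := exists_gg Q.hd m
  rw [th_gg] at h
  rcases eq_or_lt_of_le h2 with h3 | h3
  · subst h3
    rcases lt_trichotomy k (-1) with h4 | h4 | h4
    · exfalso
      have : (d : ℤ) * k ≤ d * (-2) := mul_le_mul_of_nonneg_left (by omega) (by omega)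
      omega
    · exact absurd (by rw [h4]) h'
    · exact H.ua_of_dw ((Q.H_K2 k).1.mono (by omega))
  · rcases lt_trichotomy k 0 with h4 | h4 | h4
    · exfalso
      have : (d : ℤ) * k ≤ d * (-1) := mul_le_mul_of_nonneg_left (by omega) (by omega)
      omega
    · subst h4
      rw [mul_zero, add_zero] at h
      obtain ⟨i, hi⟩ := Q.K_letter (j := j) (by omega) (by omega)
      rw [← hi]
      refine H.ua_of_tor (H.tor_letter _ ?_)
      rw [hi]
      refine hpK Q.h2 Q.hd _ ?_ ?_
      · rw [th_gg]; omega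
      · rw [th_gg]; omega
    · exact H.ua_of_dw ((Q.H_Kk (p := k) (Or.inl ⟨h1, by omega, rfl⟩)).1.mono (by omega))

/-- Koszul matrix factorizations in the coaisle -/
theorem va_K0 {m : Gd d} (h : th d m ≤ 2 - (d : ℤ)) (h' : m ≠ gg d (3 - d) 0) :
    Ro (Ua Q.S ZG) (Kk Q.hd hW m) := by
  obtain ⟨j, k, h1, h2, rfl⟩ := exists_gg Q.hd m
  rw [th_gg] at h
  rcases eq_or_lt_of_le h2 with h3 | h3
  · subst h3
    rcases le_or_gt k (-2) with h4 | h4
    · exact H.ro_of_vw ((Q.H_K2 k).2.mono (by omega))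
    · exfalso
      have : (d : ℤ) * (-1) ≤ d * k := mul_le_mul_of_nonneg_left (by omega) (by omega)
      omega
  · rcases lt_trichotomy k 0 with h4 | h4 | h4
    · exact H.ro_of_vw ((Q.H_Kk (p := k) (Or.inl ⟨h1, by omega, rfl⟩)).2.mono (by omega))
    · subst h4
      rw [mul_zero, add_zero] at h
      have h5 : j ≠ 3 - d := fun h5 => h' (by rw [h5])
      obtain ⟨i, hi⟩ := Q.K_letter (j := j) (by omega) (by omega)
      rw [← hi]
      refine H.ro_of_fre (H.fre_letter _ ?_)
      rw [hi]
      refine nhpK Q.h2 Q.hd _ ?_ ?_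
      · rw [th_gg]; omega
      · rw [th_gg]; omega
    · exfalso
      have : (d : ℤ) * 1 ≤ d * k := mul_le_mul_of_nonneg_left (by omega) (by omega)
      omega

end Pool.Agent.Helper445_GMF.Bf
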