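import Pool.Agent.Helper445_GMF.Shift

/-!
Block matrices.
-/

set_option autoImplicit false
set_option linter.unusedSectionVars false

open CategoryTheory Matrix

namespace Pool.Agent.Helper445_GMF

section

variable {A : Type} [CommRing A] [Algebra ℂ A] {I J K M : Type}

@[simp] theorem rows_add (a a' : Matrix J I A) (b b' : Matrix K I A) :
    fromRows a b + fromRows a' b' = fromRows (a + a') (b + b') := by
  ext (_ | _) _ <;> rfl

@[simp] theorem rows_neg (a : Matrix J I A) (b : Matrix K I A) :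
    - fromRows a b = fromRows (-a) (-b) := by
  ext (_ | _) _ <;> rfl

@[simp] theorem rows_sub (a a' : Matrix J I A) (b b' : Matrix K I A) :
    fromRows a b - fromRows a' b' = fromRows (a - a') (b - b') := by
  ext (_ | _) _ <;> rfl

@[simp] theorem rows_smul (c : ℂ) (a : Matrix J I A) (b : Matrix K I A) :
    c • fromRows a b = fromRows (c • a) (c • b) := by
  ext (_ | _) _ <;> rfl

@[simp] theorem cols_add (a a' : Matrix I J A) (b b' : Matrix I K A) :
    fromCols a b + fromCols a' b' = fromCols (a + a') (b + b') := by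
  ext _ (_ | _) <;> rfl

@[simp] theorem cols_neg (a : Matrix I J A) (b : Matrix I K A) :
    - fromCols a b = fromCols (-a) (-b) := by
  ext _ (_ | _) <;> rfl

@[simp] theorem cols_sub (a a' : Matrix I J A) (b b' : Matrix I K A) :
    fromCols a b - fromCols a' b' = fromCols (a - a') (b - b') := by
  ext _ (_ | _) <;> rfl

@[simp] theorem cols_smul (c : ℂ) (a : Matrix I J A) (b : Matrix I K A) :
    c • fromCols a b = fromCols (c • a) (c • b) := by
  ext _ (_ | _) <;> rfl

@[simp] theorem rows_zero : (fromRows 0 0 : Matrix (J ⊕ K) I A) = 0 := by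
  ext (_ | _) _ <;> rfl

@[simp] theorem cols_zero : (fromCols 0 0 : Matrix I (J ⊕ K) A) = 0 := by
  ext _ (_ | _) <;> rfl

@[simp] theorem blocks_sub (a a' : Matrix K I A) (b b' : Matrix K J A)
    (c c' : Matrix M I A) (d d' : Matrix M J A) :
    fromBlocks a b c d - fromBlocks a' b' c' d' =
      fromBlocks (a - a') (b - b') (c - c') (d - d') := by
  ext (_ | _) (_ | _) <;> rfl

attribute [simp] sgn_one fromBlocks_multiply fromBlocks_mul_fromRows fromCols_mul_fromBlocks
  fromCols_mul_fromRows fromRows_mul fromRows_mul_fromCols mul_fromCols fromBlocks_add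
  fromBlocks_smul

end

variable {L : LG}

theorem Hg_rows {I J K : Type} {g : I → L.G} {h : J → L.G} {k : K → L.G} {c : L.G}
    {a : Matrix J I L.A} {b : Matrix K I L.A} (ha : a ∈ Hg g h c) (hb : b ∈ Hg g k c) :
    fromRows a b ∈ Hg g (Sum.elim h k) c := by
  rintro (i | i) j
  · exact ha i j
  · exact hb i j

theorem Hg_cols {I J K : Type} {g : I → L.G} {h : J → L.G} {k : K → L.G} {c : L.G}
    {a : Matrix K I L.A} {b : Matrix K J L.A} (ha : a ∈ Hg g k c) (hb : b ∈ Hg h k c) :
    fromCols a b ∈ Hg (Sum.elim g h) k c := by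
  rintro i (j | j)
  · exact ha i j
  · exact hb i j

theorem Hg_blocks {I J K M : Type} {g : I → L.G} {h : J → L.G} {k : K → L.G} {m : M → L.G}
    {c : L.G} {a : Matrix K I L.A} {b : Matrix K J L.A} {a' : Matrix M I L.A} {b' : Matrix M J L.A}
    (ha : a ∈ Hg g k c) (hb : b ∈ Hg h k c) (ha' : a' ∈ Hg g m c) (hb' : b' ∈ Hg h m c) :
    fromBlocks a b a' b' ∈ Hg (Sum.elim g h) (Sum.elim k m) c := by
  rintro (i | i) (j | j)
  · exact ha i j
  · exact hb i j
  · exact ha' i j
  · exact hb' i j

theorem sh1_g (X : MF L) (i : X.I) : (X.sh 1).g i = X.g i + L.ς := by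
  show X.g i + (1 : ℤ) • L.ς = _
  rw [one_smul]

theorem Hg_one1 (X : MF L) : (1 : Matrix X.I X.I L.A) ∈ Hg X.g (X.sh 1).g (-L.ς) :=
  Hg_eq (Hg_one X.g) (fun i j => by
    show X.g i - X.g j + 0 = X.g i + (1 : ℤ) • L.ς - X.g j + -L.ς
    rw [one_smul]; abel)

end Pool.Agent.Helper445_GMF
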