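import Pool.Agent.Helper445_GMF.KosStd

/-!
The elementary definitions agree with the definitions in the homotopy category.
-/

set_option autoImplicit false
set_option linter.unusedSectionVars false

open CategoryTheory Matrix Pretriangulated Limits MvPolynomial

namespace Pool.Agent.Helper445_GMF

variable {L : LG}

theorem heq_iff {X Y : MF L} : Heq X Y ↔ Nonempty (X ≅ Y) := by
  constructor
  · rintro ⟨f, hf, f', hf', h, h'⟩
    exact ⟨isoOf f f' hf hf' h h'⟩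
  · rintro ⟨e⟩
    obtain ⟨f, hf, ef⟩ := hm_surj e.hom
    obtain ⟨f', hf', ef'⟩ := hm_surj e.inv
    refine ⟨f, hf, f', hf', ?_, ?_⟩
    · have h1 := e.hom_inv_id
      rw [ef, ef'] at h1
      exact hm_eq_iff.1 h1
    · have h1 := e.inv_hom_id
      rw [ef, ef'] at h1
      exact hm_eq_iff.1 h1

theorem null_iff {X : MF L} : Null X ↔ IsZero X := by
  rw [IsZero.iff_id_eq_zero, hm_id, hm_eq_zero_iff]
  exact Iff.rfl

theorem s1_iso (X : MF L) : Nonempty (X.s1 ≅ X⟦(1 : ℤ)⟧) :=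
  ⟨idm X neg_one_sq' (sgn_sq 1) (one_smul ℤ L.ς).symm sgn_one.symm⟩

theorem cn_iso {X Y : MF L} (f : Matrix Y.I X.I L.A) (hf : f ∈ Z X Y) :
    Nonempty (cn f hf ≅ cone f hf) := by
  have hg : ∀ i : Y.I ⊕ X.I, Sum.elim Y.g X.s1.g i = Sum.elim Y.g (X.sh 1).g i := by
    rintro (i | i)
    · rfl
    · show X.g i + L.ς = X.g i + (1 : ℤ) • L.ς
      rw [one_smul]
  have hD : (cn f hf).D = (cone f hf).D := by
    show fromBlocks Y.D f 0 ((-1 : ℂ) • X.D) = fromBlocks Y.D f 0 (sgn 1 • X.D)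
    rw [sgn_one]
  refine ⟨isoOf' (X := cn f hf) (Y := cone f hf) (1 : Matrix (Y.I ⊕ X.I) (Y.I ⊕ X.I) L.A)
    (1 : Matrix (Y.I ⊕ X.I) (Y.I ⊕ X.I) L.A) ⟨one_Hg_of_eq hg, ?_⟩
    ⟨one_Hg_of_eq fun i => (hg i).symm, ?_⟩ (Matrix.one_mul _) (Matrix.one_mul _)⟩
  · rw [hD]; exact (Matrix.mul_one _).trans (Matrix.one_mul _).symm
  · rw [hD]; exact (Matrix.mul_one _).trans (Matrix.one_mul _).symm

theorem tri_iff {X Y V : MF L} : Tri X Y V ↔
    ∃ (f : X ⟶ Y) (g : Y ⟶ V) (h : V ⟶ X⟦(1 : ℤ)⟧), Triangle.mk f g h ∈ distTriang (MF L) := by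
  constructor
  · rintro ⟨f, hf, h⟩
    obtain ⟨e⟩ := heq_iff.1 h
    obtain ⟨e'⟩ := cn_iso f hf
    exact exists_dist_of_iso (dist_tri f hf) (Iso.refl _) (Iso.refl _) (e ≪≫ e')
  · rintro ⟨f, g, h, hT⟩
    obtain ⟨f₀, hf₀, rfl⟩ := hm_surj f
    refine ⟨f₀, hf₀, heq_iff.2 ?_⟩
    obtain ⟨e'⟩ := cn_iso f₀ hf₀
    let E := isoTriangleOfIso₁₂ (Triangle.mk (hm f₀ hf₀) g h) (tri f₀ hf₀) hT (dist_tri f₀ hf₀)
      (Iso.refl _) (Iso.refl _) ((Category.comp_id _).trans (Category.id_comp _).symm)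
    exact ⟨Triangle.π₃.mapIso E ≪≫ e'.symm⟩

theorem tri_of_dist (T : Triangle (MF L)) (hT : T ∈ distTriang (MF L)) :
    Tri T.obj₁ T.obj₂ T.obj₃ := tri_iff.2 ⟨T.mor₁, T.mor₂, T.mor₃, hT⟩

theorem hnc_iff {P : ℝ → MF L → Prop} {a b : ℝ} {X : MF L} : HNc P a b X ↔ HN P a b X := by
  constructor
  · intro h
    induction h with
    | one hX => exact .one hX
    | step hT _ h₃ hφ ih =>
      obtain ⟨f, g, h, hd⟩ := tri_iff.1 hT
      exact .step (Triangle.mk f g h) hd ih h₃ hφ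
  · intro h
    induction h with
    | one hX => exact .one hX
    | step T hT _ h₃ hφ ih => exact .step (tri_of_dist T hT) ih h₃ hφ

/-- the stability condition on the homotopy category -/
def Stb.pre (σ : Stb L) : PreStab (MF L) where
  Z := σ.ch
  P := σ.P
  add T hT := σ.add _ _ _ (tri_of_dist T hT)
  iso e h := σ.iso _ _ _ (heq_iff.2 ⟨e⟩) h
  zero φ X h := σ.zero φ X (null_iff.2 h)
  phase φ X h h0 := σ.phase φ X h (fun h => h0 (null_iff.1 h))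
  shift φ X := by
    rw [← σ.shift φ X]
    obtain ⟨e⟩ := s1_iso X
    exact ⟨σ.iso _ _ _ (heq_iff.2 ⟨e.symm⟩), σ.iso _ _ _ (heq_iff.2 ⟨e⟩)⟩
  hom {φ φ' X Y} h hX hY f := by
    obtain ⟨f, hf, rfl⟩ := hm_surj f
    exact hm_eq_zero_iff.2 (σ.hom _ _ _ _ h hX hY hf)
  hn X := by
    obtain ⟨a, b, h⟩ := σ.hn X
    exact ⟨a, b, hnc_iff.1 h⟩

theorem stable_iff (σ : Stb L) (φ : ℝ) (X : MF L) : σ.Stable φ X ↔ σ.pre.Stable φ X := by
  constructor
  · rintro ⟨h1, h2, h3⟩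
    refine ⟨h1, fun h => h2 (null_iff.2 h), fun A B f g h hT hA hB => ?_⟩
    rcases h3 A B (tri_iff.2 ⟨f, g, h, hT⟩) hA hB with h | h
    · exact Or.inl (null_iff.1 h)
    · exact Or.inr (null_iff.1 h)
  · rintro ⟨h1, h2, h3⟩
    refine ⟨h1, fun h => h2 (null_iff.1 h), fun A B hT hA hB => ?_⟩
    obtain ⟨f, g, h, hd⟩ := tri_iff.1 hT
    rcases h3 A B f g h hd hA hB with h | h
    · exact Or.inl (null_iff.2 h)
    · exact Or.inr (null_iff.2 h)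

theorem gep_iff {n : ℕ} {a : Fin n → ℕ} {d : ℕ} {W : MvPolynomial (Fin n) ℂ}
    {hW : IsWeightedHomogeneous a W d} (σ : Stb (lg a d W hW)) : σ.Gep ↔ Gep σ.pre := Iff.rfl

end Pool.Agent.Helper445_GMF
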