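import Pool.Agent.Helper445_GMF.Mass

/-!
Coarse slicings: bounded t-structures indexed by the integers, and their mass functions.
-/

set_option autoImplicit false
set_option linter.unusedSectionVars false

open CategoryTheory Pretriangulated Triangulated Limits ZeroObject

namespace Pool.Agent.Helper445_GMF

universe v u

variable {C : Type u} [Category.{v} C] [Preadditive C] [HasZeroObject C] [HasShift C ℤ]
  [∀ n : ℤ, (shiftFunctor C n).Additive] [Pretriangulated C] [IsTriangulated C]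

/-- the right orthogonal -/
def Ro (U : C → Prop) (X : C) : Prop := ∀ Y, U Y → ∀ f : Y ⟶ X, f = 0

/-- the number is in the half-plane of phases in `(s, s + 1]` -/
def Hp (s : ℝ) (z : ℂ) : Prop :=
  0 < PreStab.im s z ∨ (PreStab.im s z = 0 ∧ PreStab.im (s + 1 / 2) z > 0)

/-- A coarse slicing: `U m` is the subcategory of objects with phases bigger than `m / D`. -/
structure Coa (C : Type u) [Category.{v} C] [Preadditive C] [HasZeroObject C] [HasShift C ℤ]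
    [∀ n : ℤ, (shiftFunctor C n).Additive] [Pretriangulated C] (D : ℕ) where
  /-- the central charge -/
  Z : C → ℂ
  /-- the aisles -/
  U : ℤ → C → Prop
  add : ∀ T ∈ distTriang C, Z T.obj₂ = Z T.obj₁ + Z T.obj₃
  iso : ∀ {m : ℤ} {X Y : C}, (X ≅ Y) → U m X → U m Y
  anti : ∀ {m m' : ℤ} {X : C}, m' ≤ m → U m X → U m' X
  shift : ∀ (m : ℤ) (X : C), U (m + D) (X⟦(1 : ℤ)⟧) ↔ U m X
  tr : ∀ (m : ℤ) (X : C), ∃ (A B : C) (f : A ⟶ X) (g : X ⟶ B) (h : B ⟶ A⟦(1 : ℤ)⟧),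
    Triangle.mk f g h ∈ distTriang C ∧ U m A ∧ Ro (U m) B
  up : ∀ X : C, ∃ m, U m X
  dn : ∀ X : C, ∃ m, Ro (U m) X
  pos : ∀ (m : ℤ) (X : C), U m X → Ro (U (m + D)) X → ¬ IsZero X → Hp (m / D) (Z X)

namespace Coa

variable {D : ℕ} (σ : Coa C D)

/-- the coaisles: phases at most `m / D` -/
def V (m : ℤ) (X : C) : Prop := Ro (σ.U m) X

theorem V_iso {m : ℤ} {X Y : C} (e : X ≅ Y) (h : σ.V m X) : σ.V m Y := by
  intro A hA f
  have := h A hA (f ≫ e.inv)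
  rw [← cancel_mono e.inv, this, zero_comp]

theorem V_mono {m m' : ℤ} {X : C} (hm : m ≤ m') (h : σ.V m X) : σ.V m' X :=
  fun A hA f => h A (σ.anti hm hA) f

theorem hom_zero {m m' : ℤ} (hm : m' ≤ m) {X Y : C} (hX : σ.U m X) (hY : σ.V m' Y)
    (f : X ⟶ Y) : f = 0 := hY X (σ.anti hm hX) f

theorem U_shift {m : ℤ} {X : C} (h : σ.U m X) : σ.U m (X⟦(1 : ℤ)⟧) :=
  σ.anti (by omega) ((σ.shift m X).2 h)

theorem U_shiftn {m : ℤ} {X : C} (h : σ.U m X) : σ.U (m - D) (X⟦(-1 : ℤ)⟧) := by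
  rw [← σ.shift, sub_add_cancel]
  exact σ.iso (shiftNegShift X (1 : ℤ)).symm h

theorem V_shift {m : ℤ} {X : C} (h : σ.V m X) : σ.V (m + D) (X⟦(1 : ℤ)⟧) := by
  intro Y hY f
  have h1 : σ.U m (Y⟦(-1 : ℤ)⟧) := by
    have := σ.U_shiftn hY
    rwa [add_sub_cancel_right] at this
  have h2 := h _ h1 (f⟦(-1 : ℤ)⟧' ≫ (shiftShiftNeg X (1 : ℤ)).hom)
  have h3 : f⟦(-1 : ℤ)⟧' = 0 := by
    rw [← cancel_mono (shiftShiftNeg X (1 : ℤ)).hom, h2, zero_comp]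
  exact (shiftFunctor C (-1 : ℤ)).map_injective (by rw [h3, Functor.map_zero])

theorem V_shiftn {m : ℤ} {X : C} (h : σ.V m X) : σ.V (m - D) (X⟦(-1 : ℤ)⟧) := by
  intro Y hY f
  have h1 : σ.U m (Y⟦(1 : ℤ)⟧) := by
    have := (σ.shift _ Y).2 hY
    rwa [sub_add_cancel] at this
  have h2 := h _ h1 (f⟦(1 : ℤ)⟧' ≫ (shiftNegShift X (1 : ℤ)).hom)
  have h3 : f⟦(1 : ℤ)⟧' = 0 := by
    rw [← cancel_mono (shiftNegShift X (1 : ℤ)).hom, h2, zero_comp]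
  exact (shiftFunctor C (1 : ℤ)).map_injective (by rw [h3, Functor.map_zero])

theorem V_shiftn' {m : ℤ} {X : C} (h : σ.V m X) : σ.V m (X⟦(-1 : ℤ)⟧) :=
  σ.V_mono (by omega) (σ.V_shiftn h)

theorem isZero {m m' : ℤ} (hm : m' ≤ m) {X : C} (hX : σ.U m X) (hY : σ.V m' X) : IsZero X :=
  (IsZero.iff_id_eq_zero X).2 (σ.hom_zero hm hX hY _)

theorem V_zero (m : ℤ) {X : C} (h : IsZero X) : σ.V m X := fun _ _ f => h.eq_of_tgt f 0

theorem U_iff {m : ℤ} {X : C} : σ.U m X ↔ ∀ B, σ.V m B → ∀ f : X ⟶ B, f = 0 := by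
  constructor
  · intro h B hB f
    exact hB X h f
  · intro h
    obtain ⟨A, B, f, g, k, hT, hA, hB⟩ := σ.tr m X
    have h2 : g = 0 := h B hB g
    have h3 : IsZero B := by
      rw [IsZero.iff_id_eq_zero]
      obtain ⟨l, hl⟩ := Triangle.yoneda_exact₃ _ hT (𝟙 B) (by
        show g ≫ 𝟙 B = 0
        rw [h2, zero_comp])
      rw [hl, hB _ (σ.U_shift hA) l]
      exact comp_zero
    have h5 : IsIso f := (Triangle.distinguished_iff_of_isZero₃ _ h3).1 hT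
    exact σ.iso (asIso f) hA

theorem U_zero (m : ℤ) {X : C} (h : IsZero X) : σ.U m X :=
  σ.U_iff.2 fun _ _ f => h.eq_of_src f 0

theorem U_ext {m : ℤ} (T : Triangle C) (hT : T ∈ distTriang C) (h₁ : σ.U m T.obj₁)
    (h₃ : σ.U m T.obj₃) : σ.U m T.obj₂ := by
  rw [σ.U_iff]
  intro B hB f
  obtain ⟨g, rfl⟩ := T.yoneda_exact₂ hT f (hB _ h₁ _)
  rw [hB _ h₃ g, comp_zero]

theorem V_ext {m : ℤ} (T : Triangle C) (hT : T ∈ distTriang C) (h₁ : σ.V m T.obj₁)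
    (h₃ : σ.V m T.obj₃) : σ.V m T.obj₂ := by
  intro A hA f
  obtain ⟨g, rfl⟩ := T.coyoneda_exact₂ hT f (h₃ _ hA _)
  rw [h₁ _ hA g, zero_comp]

theorem U_third {m : ℤ} (T : Triangle C) (hT : T ∈ distTriang C) (h₂ : σ.U m T.obj₂)
    (h₁ : σ.U m (T.obj₁⟦(1 : ℤ)⟧)) : σ.U m T.obj₃ :=
  σ.U_ext T.rotate (rot_of_distTriang T hT) h₂ h₁

theorem V_first {m : ℤ} (T : Triangle C) (hT : T ∈ distTriang C) (h₂ : σ.V m T.obj₂)
    (h₃ : σ.V m (T.obj₃⟦(-1 : ℤ)⟧)) : σ.V m T.obj₁ :=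
  σ.V_ext T.invRotate (inv_rot_of_distTriang T hT) h₃ h₂

theorem U_retract {m : ℤ} {X Y : C} (i : X ⟶ Y) (p : Y ⟶ X) (h : i ≫ p = 𝟙 X) (hY : σ.U m Y) :
    σ.U m X := by
  rw [σ.U_iff]
  intro B hB f
  rw [← Category.id_comp f, ← h, Category.assoc, hB Y hY (p ≫ f), comp_zero]

theorem V_retract {m : ℤ} {X Y : C} (i : X ⟶ Y) (p : Y ⟶ X) (h : i ≫ p = 𝟙 X) (hY : σ.V m Y) :
    σ.V m X := by
  intro A hA f
  rw [← Category.comp_id f, ← h, ← Category.assoc, hY A hA (f ≫ i), zero_comp]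

theorem Z_zero {X : C} (h : IsZero X) : σ.Z X = 0 := by
  have h1 := σ.add _ (contractible_distinguished X)
  have h3 : σ.Z (0 : C) = 0 := by simpa using h1
  have h4 := σ.add (Triangle.mk (0 : X ⟶ 0) (0 : (0 : C) ⟶ 0) 0)
    ((Triangle.distinguished_iff_of_isZero₃ _ (isZero_zero C)).2 (by
      refine ⟨0, ?_, ?_⟩
      · exact h.eq_of_src _ _
      · exact (isZero_zero C).eq_of_src _ _))
  have h5 : σ.Z (0 : C) = σ.Z X + σ.Z (0 : C) := h4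
  rw [h3] at h5
  simpa using h5.symm

theorem Z_iso {X Y : C} (e : X ≅ Y) : σ.Z X = σ.Z Y := by
  have h := σ.add (Triangle.mk e.hom (0 : Y ⟶ 0) 0)
    ((Triangle.distinguished_iff_of_isZero₃ _ (isZero_zero C)).2 (show IsIso e.hom from
      inferInstance))
  have h' : σ.Z Y = σ.Z X + σ.Z (0 : C) := h
  rw [σ.Z_zero (isZero_zero C), add_zero] at h'
  exact h'.symm

theorem Z_shift (X : C) : σ.Z (X⟦(1 : ℤ)⟧) = - σ.Z X := by
  have h : σ.Z (0 : C) = σ.Z X + σ.Z (X⟦(1 : ℤ)⟧) :=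
    σ.add _ (rot_of_distTriang _ (contractible_distinguished X))
  rw [σ.Z_zero (isZero_zero C)] at h
  linear_combination -h

theorem Z_biprod (X Y : C) : σ.Z (X ⊞ Y) = σ.Z X + σ.Z Y :=
  σ.add _ (binaryBiproductTriangle_distinguished X Y)

/-- truncation triangles -/
def IsTr (m : ℤ) {A X B : C} (f : A ⟶ X) (g : X ⟶ B) (h : B ⟶ A⟦(1 : ℤ)⟧) : Prop :=
  Triangle.mk f g h ∈ distTriang C ∧ σ.U m A ∧ σ.V m B

/-- the central charge of the part of `X` with phases bigger than `m / D` -/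
noncomputable def tz (m : ℤ) (X : C) : ℂ := σ.Z (σ.tr m X).choose

theorem tr_unique {m : ℤ} {A X B A' B' : C} {f : A ⟶ X} {g : X ⟶ B} {h : B ⟶ A⟦(1 : ℤ)⟧}
    {f' : A' ⟶ X} {g' : X ⟶ B'} {h' : B' ⟶ A'⟦(1 : ℤ)⟧} (H : σ.IsTr m f g h)
    (H' : σ.IsTr m f' g' h') : Nonempty (A ≅ A') := by
  have h0 : f ≫ g' = 0 := σ.hom_zero le_rfl H.2.1 H'.2.2 _
  obtain ⟨k, hk⟩ : ∃ k : A ⟶ A', f = k ≫ f' := Triangle.coyoneda_exact₂ _ H'.1 f h0
  obtain ⟨Q, v, w, hQ⟩ := distinguished_cocone_triangle k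
  have o := someOctahedron hk.symm hQ H'.1 H.1
  have h1 : σ.V m Q := σ.V_first _ o.mem H.2.2 (σ.V_shiftn' H'.2.2)
  have h2 : σ.U m Q := σ.U_third _ hQ H'.2.1 (σ.U_shift H.2.1)
  have h3 : IsZero Q := σ.isZero le_rfl h2 h1
  have hk1 : IsIso k := (Triangle.distinguished_iff_of_isZero₃ _ h3).1 hQ
  exact ⟨@asIso _ _ _ _ k hk1⟩

theorem tz_eq {m : ℤ} {A X B : C} {f : A ⟶ X} {g : X ⟶ B} {h : B ⟶ A⟦(1 : ℤ)⟧}
    (H : σ.IsTr m f g h) : σ.tz m X = σ.Z A := by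
  obtain ⟨B', f', g', h', H'⟩ := (σ.tr m X).choose_spec
  obtain ⟨e⟩ := σ.tr_unique H' H
  exact σ.Z_iso e

theorem tz_iso (m : ℤ) {X Y : C} (e : X ≅ Y) : σ.tz m X = σ.tz m Y := by
  obtain ⟨A, B, f, g, h, H⟩ := σ.tr m X
  rw [σ.tz_eq H, σ.tz_eq (f := f ≫ e.hom) (g := e.inv ≫ g) (h := h) ⟨dist_mid H.1 e, H.2⟩]

theorem tz_of_U {m : ℤ} {X : C} (hX : σ.U m X) : σ.tz m X = σ.Z X :=
  σ.tz_eq (f := 𝟙 X) (g := (0 : X ⟶ 0)) (h := 0)
    ⟨contractible_distinguished X, hX, σ.V_zero m (isZero_zero C)⟩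

theorem tz_of_V {m : ℤ} {X : C} (hX : σ.V m X) : σ.tz m X = 0 := by
  rw [σ.tz_eq (f := (0 : (0 : C) ⟶ X)) (g := 𝟙 X) (h := 0)
    ⟨contractible_distinguished₁ X, σ.U_zero m (isZero_zero C), hX⟩, σ.Z_zero (isZero_zero C)]

theorem tz_shift (m : ℤ) (X : C) : σ.tz m (X⟦(1 : ℤ)⟧) = - σ.tz (m - D) X := by
  obtain ⟨A, B, f, g, h, H⟩ := σ.tr (m - D) X
  rw [σ.tz_eq H, ← σ.Z_shift A]
  have h1 := Triangle.shift_distinguished _ H.1 1
  refine σ.tz_eq (f := ((Triangle.shiftFunctor C 1).obj (Triangle.mk f g h)).mor₁)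
    (g := ((Triangle.shiftFunctor C 1).obj (Triangle.mk f g h)).mor₂)
    (h := ((Triangle.shiftFunctor C 1).obj (Triangle.mk f g h)).mor₃) ⟨h1, ?_, ?_⟩
  · have := (σ.shift _ A).2 H.2.1
    rwa [sub_add_cancel] at this
  · have := σ.V_shift (m := m - D) (X := B) H.2.2
    rwa [sub_add_cancel] at this

/-- the fundamental inequality behind the triangle inequality for masses -/
theorem lemS (T : Triangle C) (hT : T ∈ distTriang C) (m : ℤ) :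
    ∃ Q : C, σ.U m Q ∧ σ.V (m + D) Q ∧
      σ.Z Q = σ.tz m T.obj₁ + σ.tz m T.obj₃ - σ.tz m T.obj₂ := by
  obtain ⟨XU, XV, fX, gX, hX, HX⟩ := σ.tr m T.obj₁
  obtain ⟨YU, YV, fY, gY, hY, HY⟩ := σ.tr m T.obj₂
  obtain ⟨ZU, ZV, fZ, gZ, hZ, HZ⟩ := σ.tr m T.obj₃
  obtain ⟨Z', v', w', h'⟩ := distinguished_cocone_triangle (fX ≫ T.mor₁)
  have o1 := someOctahedron rfl HX.1 hT h'
  have h0 : (fX ≫ T.mor₁) ≫ gY = 0 := HY.2.2 _ HX.2.1 _
  obtain ⟨k, hk⟩ := Triangle.coyoneda_exact₂ _ HY.1 (fX ≫ T.mor₁) h0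
  obtain ⟨ZU', v'', w'', h''⟩ := distinguished_cocone_triangle k
  have o2 := someOctahedron hk.symm h'' HY.1 h'
  obtain ⟨C', v3, w3, h3⟩ := distinguished_cocone_triangle (o2.m₁ ≫ o1.m₃)
  have o3 := someOctahedron rfl o2.mem (rot_of_distTriang _ o1.mem) h3
  have hC' : σ.V (m + D) C' :=
    σ.V_ext _ o3.mem (σ.V_mono (by omega) HY.2.2) (σ.V_shift HX.2.2)
  have hZU' : σ.U m ZU' := σ.U_third _ h'' HY.2.1 (σ.U_shift HX.2.1)
  have h0' : (o2.m₁ ≫ o1.m₃) ≫ gZ = 0 := HZ.2.2 _ hZU' _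
  obtain ⟨l, hl⟩ := Triangle.coyoneda_exact₂ _ HZ.1 _ h0'
  obtain ⟨Q, v4, w4, h4⟩ := distinguished_cocone_triangle l
  have o4 := someOctahedron hl.symm h4 HZ.1 h3
  refine ⟨Q, σ.U_third _ h4 HZ.2.1 (σ.U_shift hZU'),
    σ.V_first _ o4.mem hC' (σ.V_mono (by omega) (σ.V_shiftn' HZ.2.2)), ?_⟩
  rw [σ.tz_eq HX, σ.tz_eq HY, σ.tz_eq HZ]
  have e1 : σ.Z ZU = σ.Z ZU' + σ.Z Q := σ.add _ h4
  have e2 : σ.Z YU = σ.Z XU + σ.Z ZU' := σ.add _ h''
  rw [e1, e2]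
  ring

theorem im_nonneg {m : ℤ} {Q : C} (h : σ.U m Q) (h' : σ.V (m + D) Q) :
    0 ≤ PreStab.im (m / D) (σ.Z Q) := by
  by_cases h0 : IsZero Q
  · rw [σ.Z_zero h0, PreStab.im_zero]
  · rcases σ.pos m Q h h' h0 with h1 | h1
    · exact h1.le
    · exact h1.1.ge

/-- the function `F` -/
noncomputable def F (m : ℤ) (X : C) : ℝ := PreStab.im (m / D) (σ.tz m X)

theorem F_iso (m : ℤ) {X Y : C} (e : X ≅ Y) : σ.F m X = σ.F m Y := by
  rw [F, F, σ.tz_iso m e]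

theorem F_sub (T : Triangle C) (hT : T ∈ distTriang C) (m : ℤ) :
    σ.F m T.obj₂ ≤ σ.F m T.obj₁ + σ.F m T.obj₃ := by
  obtain ⟨Q, hQ, hQ', e⟩ := σ.lemS T hT m
  have h := σ.im_nonneg hQ hQ'
  rw [e, PreStab.im_sub, PreStab.im_add] at h
  unfold F
  linarith

variable (hD : 0 < D)

include hD in
theorem cast_sub (m : ℤ) : (((m - D : ℤ) : ℝ) / D) = (m : ℝ) / D - 1 := by
  have : (D : ℝ) ≠ 0 := Nat.cast_ne_zero.2 hD.ne'
  push_cast
  field_simp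

include hD in
theorem cast_add (m : ℤ) : (((m + D : ℤ) : ℝ) / D) = (m : ℝ) / D + 1 := by
  have : (D : ℝ) ≠ 0 := Nat.cast_ne_zero.2 hD.ne'
  push_cast
  field_simp

include hD in
theorem F_shift (m : ℤ) (X : C) : σ.F m (X⟦(1 : ℤ)⟧) = σ.F (m - D) X := by
  unfold F
  rw [σ.tz_shift, PreStab.im_neg, cast_sub hD]
  have := PreStab.im_add_one ((m : ℝ) / D - 1) (σ.tz (m - D) X)
  rw [sub_add_cancel] at this
  rw [this, neg_neg]

theorem F_U {m : ℤ} {X : C} (h : σ.U m X) : σ.F m X = PreStab.im (m / D) (σ.Z X) := by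
  rw [F, σ.tz_of_U h]

theorem F_V {m : ℤ} {X : C} (h : σ.V m X) : σ.F m X = 0 := by
  rw [F, σ.tz_of_V h, PreStab.im_zero]

/-- the function `H` -/
noncomputable def H (m : ℤ) (X : C) : ℝ := σ.F m X + σ.F (m + D) X

include hD in
theorem H_supp {a b : ℤ} {X : C} (ha : σ.U a X) (hb : σ.V b X) {m : ℤ}
    (h : m + D ≤ a ∨ b ≤ m) : σ.H m X = 0 := by
  unfold H
  rcases h with h | h
  · rw [σ.F_U (σ.anti (by omega) ha), σ.F_U (σ.anti h ha), cast_add hD, PreStab.im_add_one,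
      add_neg_cancel]
  · rw [σ.F_V (σ.V_mono h hb), σ.F_V (σ.V_mono (by omega) hb), add_zero]

theorem H_sub (T : Triangle C) (hT : T ∈ distTriang C) (m : ℤ) :
    σ.H m T.obj₂ ≤ σ.H m T.obj₁ + σ.H m T.obj₃ := by
  unfold H
  linarith [σ.F_sub T hT m, σ.F_sub T hT (m + D)]

theorem H_iso (m : ℤ) {X Y : C} (e : X ≅ Y) : σ.H m X = σ.H m Y := by
  rw [H, H, σ.F_iso m e, σ.F_iso _ e]

include hD in
theorem H_nonneg (m : ℤ) (X : C) : 0 ≤ σ.H m X := by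
  obtain ⟨A, B, f, g, h, Hf⟩ := σ.tr m X
  obtain ⟨A', B', f', g', h', Hf'⟩ := σ.tr (m + D) X
  have h0 : f' ≫ g = 0 := Hf.2.2 _ (σ.anti (by omega) Hf'.2.1) _
  obtain ⟨k, hk⟩ := Triangle.coyoneda_exact₂ _ Hf.1 f' h0
  obtain ⟨Q, v, w, hQ⟩ := distinguished_cocone_triangle k
  have o := someOctahedron hk.symm hQ Hf.1 Hf'.1
  have h1 : σ.V (m + D) Q := σ.V_first _ o.mem Hf'.2.2
    (σ.V_mono (by omega) (σ.V_shiftn' Hf.2.2))
  have h2 : σ.U m Q := σ.U_third _ hQ Hf.2.1 (σ.U_shift (σ.anti (by omega) Hf'.2.1))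
  have h3 := σ.im_nonneg h2 h1
  have h4 : σ.Z A = σ.Z A' + σ.Z Q := σ.add _ hQ
  unfold H F
  rw [σ.tz_eq Hf, σ.tz_eq Hf', h4, PreStab.im_add, cast_add hD, PreStab.im_add_one]
  linarith

theorem U_prod {m : ℤ} {A : Bool → C} (h : ∀ b, σ.U m (A b)) : σ.U m (∏ᶜ A) :=
  σ.iso (PreStab.prodIso A).symm
    (σ.U_ext _ (binaryBiproductTriangle_distinguished (A false) (A true)) (h false) (h true))

theorem V_prod {m : ℤ} {A : Bool → C} (h : ∀ b, σ.V m (A b)) : σ.V m (∏ᶜ A) :=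
  σ.V_iso (PreStab.prodIso A).symm
    (σ.V_ext _ (binaryBiproductTriangle_distinguished (A false) (A true)) (h false) (h true))

theorem tz_prod (m : ℤ) (A : Bool → C) : σ.tz m (∏ᶜ A) = σ.tz m (A false) + σ.tz m (A true) := by
  choose U V f g k Hf using fun b => σ.tr m (A b)
  have h := productTriangle_distinguished (fun b => Triangle.mk (f b) (g b) (k b))
    (fun b => (Hf b).1)
  have h2 : σ.tz m (∏ᶜ A) = σ.Z (∏ᶜ U) := σ.tz_eq (A := ∏ᶜ U) (X := ∏ᶜ A) (B := ∏ᶜ V)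
    (f := (productTriangle (fun b => Triangle.mk (f b) (g b) (k b))).mor₁)
    (g := (productTriangle (fun b => Triangle.mk (f b) (g b) (k b))).mor₂)
    (h := (productTriangle (fun b => Triangle.mk (f b) (g b) (k b))).mor₃)
    ⟨h, σ.U_prod (A := U) fun b => (Hf b).2.1, σ.V_prod (A := V) fun b => (Hf b).2.2⟩
  rw [h2, σ.tz_eq (Hf false), σ.tz_eq (Hf true), ← σ.Z_biprod]
  exact σ.Z_iso (PreStab.prodIso U)

theorem tz_biprod (m : ℤ) (X Y : C) : σ.tz m (X ⊞ Y) = σ.tz m X + σ.tz m Y := by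
  have h := σ.tz_prod m (fun b => Bool.rec (motive := fun _ => C) X Y b)
  rw [σ.tz_iso m (PreStab.prodIso _)] at h
  exact h

theorem H_biprod (m : ℤ) (X Y : C) : σ.H m (X ⊞ Y) = σ.H m X + σ.H m Y := by
  unfold H F
  rw [σ.tz_biprod, σ.tz_biprod, PreStab.im_add, PreStab.im_add]
  ring

/-- the mass -/
noncomputable def M (X : C) : ℝ := ∑ᶠ m : ℤ, σ.H m X

include hD in
theorem M_supp {a b : ℤ} {X : C} (ha : σ.U a X) (hb : σ.V b X) :
    (Function.support fun m : ℤ => σ.H m X) ⊆ Set.Ioo (a - D) b := by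
  intro m hm
  rw [Function.mem_support] at hm
  constructor
  · by_contra hc
    exact hm (σ.H_supp hD ha hb (Or.inl (by omega)))
  · by_contra hc
    exact hm (σ.H_supp hD ha hb (Or.inr (by omega)))

include hD in
theorem M_fin (X : C) : (Function.support fun m : ℤ => σ.H m X).Finite := by
  obtain ⟨a, ha⟩ := σ.up X
  obtain ⟨b, hb⟩ := σ.dn X
  exact (Set.finite_Ioo _ _).subset (σ.M_supp hD ha hb)

theorem M_iso {X Y : C} (e : X ≅ Y) : σ.M X = σ.M Y := finsum_congr fun _ => σ.H_iso _ e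

include hD in
theorem M_sub (T : Triangle C) (hT : T ∈ distTriang C) :
    σ.M T.obj₂ ≤ σ.M T.obj₁ + σ.M T.obj₃ := by
  unfold M
  rw [← finsum_add_distrib (σ.M_fin hD _) (σ.M_fin hD _)]
  have h2 := σ.M_fin hD T.obj₂
  have h13 : (Function.support fun m : ℤ => σ.H m T.obj₁ + σ.H m T.obj₃).Finite :=
    ((σ.M_fin hD T.obj₁).union (σ.M_fin hD T.obj₃)).subset (Function.support_add _ _)
  rw [finsum_eq_sum_of_support_subset (s := h2.toFinset ∪ h13.toFinset) _ (by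
      rw [Finset.coe_union, Set.Finite.coe_toFinset]; exact Set.subset_union_left),
    finsum_eq_sum_of_support_subset (s := h2.toFinset ∪ h13.toFinset) _ (by
      rw [Finset.coe_union, Set.Finite.coe_toFinset, Set.Finite.coe_toFinset]
      exact Set.subset_union_right)]
  exact Finset.sum_le_sum fun m _ => σ.H_sub T hT m

include hD in
theorem M_biprod (X Y : C) : σ.M (X ⊞ Y) = σ.M X + σ.M Y := by
  unfold M
  rw [← finsum_add_distrib (σ.M_fin hD _) (σ.M_fin hD _)]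
  exact finsum_congr fun m => σ.H_biprod m X Y

theorem M_rot {X Y : C} (k : ℤ) (h : ∀ m, σ.F m Y = σ.F (m - k) X) : σ.M Y = σ.M X := by
  unfold M
  have e : ∀ m : ℤ, σ.H m Y = σ.H (m - k) X := by
    intro m
    unfold H
    rw [h, h]
    congr 2
    ring
  rw [finsum_congr e]
  exact finsum_comp_equiv (Equiv.subRight k) (f := fun m : ℤ => σ.H m X)

include hD in
theorem M_shift (X : C) : σ.M (X⟦(1 : ℤ)⟧) = σ.M X := σ.M_rot D fun m => σ.F_shift hD m X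

include hD in
theorem M_nonneg (X : C) : 0 ≤ σ.M X := finsum_nonneg fun _ => σ.H_nonneg hD _ _

include hD in
theorem M_zero {X : C} (h : IsZero X) : σ.M X = 0 := by
  unfold M
  rw [finsum_eq_zero_of_forall_eq_zero]
  intro m
  exact σ.H_supp hD (a := m) (b := m) (σ.U_zero m h) (σ.V_zero m h) (Or.inr le_rfl)

end Coa

end Pool.Agent.Helper445_GMF
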