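import Pool.Agent.Helper445_GMF.Stable

/-!
Gepner type stability conditions are compatible with all twists.
-/

set_option autoImplicit false
set_option linter.unusedSectionVars false

open CategoryTheory Matrix Pretriangulated Limits MvPolynomial

namespace Pool.Agent.Helper445_GMF

section general

variable {C : Type*} [Category C] [Preadditive C] [HasZeroObject C] [HasShift C ℤ]
  [∀ n : ℤ, (shiftFunctor C n).Additive] [Pretriangulated C]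

theorem exists_dist_of_iso {X Y V X' Y' V' : C} {f : X ⟶ Y} {g : Y ⟶ V} {h : V ⟶ X⟦(1 : ℤ)⟧}
    (hT : Triangle.mk f g h ∈ distTriang C) (e₁ : X' ≅ X) (e₂ : Y' ≅ Y) (e₃ : V' ≅ V) :
    ∃ (f' : X' ⟶ Y') (g' : Y' ⟶ V') (h' : V' ⟶ X'⟦(1 : ℤ)⟧),
      Triangle.mk f' g' h' ∈ distTriang C := by
  refine ⟨e₁.hom ≫ f ≫ e₂.inv, e₂.hom ≫ g ≫ e₃.inv, e₃.hom ≫ h ≫ e₁.inv⟦(1 : ℤ)⟧',
    isomorphic_distinguished _ hT _ (Triangle.isoMk _ _ e₁ e₂ e₃ ?_ ?_ ?_)⟩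
  · show (e₁.hom ≫ f ≫ e₂.inv) ≫ e₂.hom = e₁.hom ≫ f
    simp
  · show (e₂.hom ≫ g ≫ e₃.inv) ≫ e₃.hom = e₂.hom ≫ g
    simp
  · show (e₃.hom ≫ h ≫ e₁.inv⟦(1 : ℤ)⟧') ≫ e₁.hom⟦(1 : ℤ)⟧' = e₃.hom ≫ h
    simp [← Functor.map_comp]

end general

section pure

variable {A : Type} [CommRing A] [Algebra ℂ A] {I J : Type} [Fintype I] [DecidableEq I]
  [Fintype J] [DecidableEq J]

theorem pu_tsc (D : Matrix J J A) (E : Matrix I I A) (f : Matrix J I A) :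
    (fromBlocks ((1 : ℂ) • D) f 0 (sgn 1 • ((1 : ℂ) • E)) : Matrix (J ⊕ I) (J ⊕ I) A) =
      (1 : ℂ) • fromBlocks D f 0 (sgn 1 • E) := by
  simp

end pure

variable {L : LG}

theorem ts_iso (X : MF L) {a b c : L.G} (h : a + b = c) :
    Nonempty ((X.ts a 1 (one_mul 1)).ts b 1 (one_mul 1) ≅ X.ts c 1 (one_mul 1)) := by
  subst h
  refine ⟨isoOf' (X := (X.ts a 1 (one_mul 1)).ts b 1 (one_mul 1))
    (Y := X.ts (a + b) 1 (one_mul 1)) (1 : Matrix X.I X.I L.A) (1 : Matrix X.I X.I L.A)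
    ⟨one_Hg_of_eq fun i => add_assoc _ _ _, ?_⟩
    ⟨one_Hg_of_eq fun i => (add_assoc _ _ _).symm, ?_⟩ (Matrix.one_mul _) (Matrix.one_mul _)⟩
  · show ((1 : ℂ) • X.D) * 1 = 1 * ((1 : ℂ) • ((1 : ℂ) • X.D))
    simp
  · show ((1 : ℂ) • ((1 : ℂ) • X.D)) * 1 = 1 * ((1 : ℂ) • X.D)
    simp

theorem ts_zero (X : MF L) : Nonempty (X.ts 0 1 (one_mul 1) ≅ X) := by
  refine ⟨isoOf' (X := X.ts 0 1 (one_mul 1))
    (Y := X) (1 : Matrix X.I X.I L.A) (1 : Matrix X.I X.I L.A)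
    ⟨one_Hg_of_eq fun i => add_zero _, ?_⟩
    ⟨one_Hg_of_eq fun i => (add_zero _).symm, ?_⟩ (Matrix.one_mul _) (Matrix.one_mul _)⟩
  · show X.D * 1 = 1 * ((1 : ℂ) • X.D)
    simp
  · show ((1 : ℂ) • X.D) * 1 = 1 * X.D
    simp

/-- twists preserve distinguished triangles -/
theorem ts_dist (a : L.G) (T : Triangle (MF L)) (hT : T ∈ distTriang (MF L)) :
    ∃ (f : T.obj₁.ts a 1 (one_mul 1) ⟶ T.obj₂.ts a 1 (one_mul 1))
      (g : T.obj₂.ts a 1 (one_mul 1) ⟶ T.obj₃.ts a 1 (one_mul 1))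
      (h : T.obj₃.ts a 1 (one_mul 1) ⟶ (T.obj₁.ts a 1 (one_mul 1))⟦(1 : ℤ)⟧),
      Triangle.mk f g h ∈ distTriang (MF L) := by
  obtain ⟨X, Y, f, hf, ⟨e⟩⟩ := hT
  have hf' : f ∈ Z (X.ts a 1 (one_mul 1)) (Y.ts a 1 (one_mul 1)) := ts_Z hf
  have hg : ∀ i : Y.I ⊕ X.I, Sum.elim Y.g (X.sh 1).g i + a =
      Sum.elim (Y.ts a 1 (one_mul 1)).g ((X.ts a 1 (one_mul 1)).sh 1).g i := by
    rintro (i | i)
    · rfl
    · show X.g i + (1 : ℤ) • L.ς + a = X.g i + a + (1 : ℤ) • L.ς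
      abel
  have e3 : (cone f hf).ts a 1 (one_mul 1) ≅
      cone (X := X.ts a 1 (one_mul 1)) (Y := Y.ts a 1 (one_mul 1)) f hf' := by
    refine isoOf' (X := (cone f hf).ts a 1 (one_mul 1))
      (Y := cone (X := X.ts a 1 (one_mul 1)) (Y := Y.ts a 1 (one_mul 1)) f hf')
      (1 : Matrix (Y.I ⊕ X.I) (Y.I ⊕ X.I) L.A) (1 : Matrix (Y.I ⊕ X.I) (Y.I ⊕ X.I) L.A)
      ⟨one_Hg_of_eq hg, ?_⟩ ⟨one_Hg_of_eq fun i => (hg i).symm, ?_⟩ (Matrix.one_mul _)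
      (Matrix.one_mul _)
    · show (fromBlocks ((1 : ℂ) • Y.D) f 0 (sgn 1 • ((1 : ℂ) • X.D))) * 1 =
        1 * ((1 : ℂ) • fromBlocks Y.D f 0 (sgn 1 • X.D))
      rw [pu_tsc]
      simp
    · show ((1 : ℂ) • fromBlocks Y.D f 0 (sgn 1 • X.D)) * 1 =
        1 * (fromBlocks ((1 : ℂ) • Y.D) f 0 (sgn 1 • ((1 : ℂ) • X.D)))
      rw [pu_tsc]
      simp
  have i1 : T.obj₁.ts a 1 (one_mul 1) ≅ X.ts a 1 (one_mul 1) :=
    (tsF a 1 (one_mul 1)).mapIso (Triangle.π₁.mapIso e)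
  have i2 : T.obj₂.ts a 1 (one_mul 1) ≅ Y.ts a 1 (one_mul 1) :=
    (tsF a 1 (one_mul 1)).mapIso (Triangle.π₂.mapIso e)
  have i3 : T.obj₃.ts a 1 (one_mul 1) ≅ (cone f hf).ts a 1 (one_mul 1) :=
    (tsF a 1 (one_mul 1)).mapIso (Triangle.π₃.mapIso e)
  exact exists_dist_of_iso (dist_tri (X := X.ts a 1 (one_mul 1)) (Y := Y.ts a 1 (one_mul 1)) f hf')
    i1 i2 (i3 ≪≫ e3)

theorem ts_isZero (a : L.G) (X : MF L) (h : IsZero X) : IsZero (X.ts a 1 (one_mul 1)) :=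
  Functor.map_isZero (tsF a 1 (one_mul 1)) h

/-- compatibility of a stability condition with a twist -/
def Comp (σ : PreStab (MF L)) (g : L.G) (c : ℝ) : Prop :=
  (∀ φ X, σ.P (φ + c) (X.ts g 1 (one_mul 1)) ↔ σ.P φ X) ∧
    ∀ s X, σ.F s (X.ts g 1 (one_mul 1)) = σ.F (s - c) X

theorem P_iff (σ : PreStab (MF L)) {φ φ' : ℝ} (h : φ = φ') {X Y : MF L} (e : Nonempty (X ≅ Y)) :
    σ.P φ X ↔ σ.P φ' Y := by
  subst h
  obtain ⟨e⟩ := e
  exact ⟨σ.iso e, σ.iso e.symm⟩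

theorem F_eq (σ : PreStab (MF L)) {s s' : ℝ} (h : s = s') {X Y : MF L} (e : Nonempty (X ≅ Y)) :
    σ.F s X = σ.F s' Y := by
  subst h
  obtain ⟨e⟩ := e
  exact σ.F_iso s e

theorem Comp.zero (σ : PreStab (MF L)) : Comp σ 0 0 :=
  ⟨fun φ X => P_iff σ (add_zero φ) (ts_zero X), fun s X => F_eq σ (sub_zero s).symm (ts_zero X)⟩

theorem Comp.add {σ : PreStab (MF L)} {g g' : L.G} {c c' : ℝ} (h : Comp σ g c)
    (h' : Comp σ g' c') : Comp σ (g + g') (c + c') := by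
  refine ⟨fun φ X => ?_, fun s X => ?_⟩
  · rw [← h.1 φ X, ← h'.1 (φ + c)]
    exact P_iff σ (by ring) ((ts_iso X rfl).map Iso.symm)
  · rw [← F_eq σ rfl (ts_iso X (rfl : g + g' = g + g')), h'.2, h.2]
    congr 1; ring

theorem Comp.neg {σ : PreStab (MF L)} {g : L.G} {c : ℝ} (h : Comp σ g c) :
    Comp σ (-g) (-c) := by
  have e : ∀ X : MF L, Nonempty ((X.ts (-g) 1 (one_mul 1)).ts g 1 (one_mul 1) ≅ X) := by
    intro X
    obtain ⟨e1⟩ := ts_iso X (neg_add_cancel g)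
    obtain ⟨e2⟩ := ts_zero X
    exact ⟨e1 ≪≫ e2⟩
  refine ⟨fun φ X => ?_, fun s X => ?_⟩
  · rw [← h.1 (φ + -c)]
    exact P_iff σ (by ring) (e X)
  · have := h.2 (s + c) (X.ts (-g) 1 (one_mul 1))
    rw [add_sub_cancel_right] at this
    rw [← this]
    exact F_eq σ (by ring) (e X)

theorem Comp.nsmul {σ : PreStab (MF L)} {g : L.G} {c : ℝ} (h : Comp σ g c) (k : ℕ) :
    Comp σ (k • g) (k * c) := by
  induction k with
  | zero => simpa using Comp.zero σ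
  | succ k ih =>
    have := ih.add h
    rw [succ_nsmul]
    convert! this using 1
    push_cast; ring

theorem Comp.zsmul {σ : PreStab (MF L)} {g : L.G} {c : ℝ} (h : Comp σ g c) (k : ℤ) :
    Comp σ (k • g) (k * c) := by
  obtain ⟨m, rfl | rfl⟩ := k.eq_nat_or_neg
  · have := h.nsmul m
    rw [natCast_zsmul]
    exact_mod_cast this
  · have := (h.nsmul m).neg
    rw [neg_smul, natCast_zsmul]
    convert! this using 1
    push_cast; ring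

/-- twist with sign change -/
theorem Comp.shift (σ : PreStab (MF L)) (h : ∀ X : MF L, Nonempty
    (X.ts ((1 : ℤ) • L.ς) 1 (one_mul 1) ≅ X.sh 1)) : Comp σ ((1 : ℤ) • L.ς) 1 := by
  refine ⟨fun φ X => ?_, fun s X => ?_⟩
  · rw [← σ.shift φ X]
    exact P_iff σ rfl (h X)
  · rw [← σ.F_shift s X]
    exact F_eq σ rfl (h X)

end Pool.Agent.Helper445_GMF
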