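import Pool.Agent.Helper445_GMF.Coa
import Pool.Agent.Helper445_GMF.Gep

/-!
Slices of a coarse slicing.
-/

set_option autoImplicit false
set_option linter.unusedSectionVars false

open CategoryTheory Pretriangulated Triangulated Limits ZeroObject

namespace Pool.Agent.Helper445_GMF

section num

theorem im_rot' (s t : ℝ) (z : ℂ) : PreStab.im (s + t) z =
    Real.cos (Real.pi * t) * PreStab.im s z + Real.sin (Real.pi * t) * PreStab.im (s + 1 / 2) z := by
  have key : ∀ t : ℝ, PreStab.im (s + t) z = Real.cos (Real.pi * t) *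
      (Complex.exp (-(Complex.I * Real.pi * s)) * z).im - Real.sin (Real.pi * t) *
      (Complex.exp (-(Complex.I * Real.pi * s)) * z).re := by
    intro t
    unfold PreStab.im
    have h1 : Complex.exp (-(Complex.I * Real.pi * ((s + t : ℝ) : ℂ))) * z =
        Complex.exp (((-(Real.pi * t) : ℝ) : ℂ) * Complex.I) *
          (Complex.exp (-(Complex.I * Real.pi * s)) * z) := by
      rw [← mul_assoc, ← Complex.exp_add]
      congr 2
      push_cast
      ring
    rw [h1, Complex.mul_im, Complex.exp_ofReal_mul_I_re, Complex.exp_ofReal_mul_I_im,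
      Real.cos_neg, Real.sin_neg]
    ring
  rw [key t, key (1 / 2)]
  have h2 : Real.pi * (1 / 2) = Real.pi / 2 := by ring
  rw [h2, Real.cos_pi_div_two, Real.sin_pi_div_two]
  unfold PreStab.im
  ring

theorem norm_le_im (s : ℝ) (z : ℂ) : ‖z‖ ≤ |PreStab.im s z| + |PreStab.im (s + 1 / 2) z| := by
  have h0 : PreStab.im (s + 1 / 2) z = - (Complex.exp (-(Complex.I * Real.pi * s)) * z).re := by
    unfold PreStab.im
    have h1 : Complex.exp (-(Complex.I * Real.pi * ((s + 1 / 2 : ℝ) : ℂ))) * z =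
        (-Complex.I) * (Complex.exp (-(Complex.I * Real.pi * s)) * z) := by
      rw [← mul_assoc]
      congr 1
      have : -(Complex.I * Real.pi * ((s + 1 / 2 : ℝ) : ℂ)) = -(Real.pi / 2 * Complex.I) +
          -(Complex.I * Real.pi * s) := by
        push_cast; ring
      rw [this, Complex.exp_add, Complex.exp_neg (Real.pi / 2 * Complex.I),
        Complex.exp_pi_div_two_mul_I, Complex.inv_I]
    rw [h1]
    simp
  have h1 : ‖Complex.exp (-(Complex.I * Real.pi * s)) * z‖ = ‖z‖ := by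
    rw [norm_mul]
    have e : -(Complex.I * Real.pi * s) = ((-(Real.pi * s) : ℝ) : ℂ) * Complex.I := by
      push_cast; ring
    rw [e, Complex.norm_exp_ofReal_mul_I, one_mul]
  rw [h0, abs_neg, ← h1, add_comm]
  exact Complex.norm_le_abs_re_add_abs_im _

theorem im_le' (s : ℝ) (z : ℂ) : PreStab.im s z ≤ ‖z‖ := by
  unfold PreStab.im
  refine (le_abs_self _).trans ((Complex.abs_im_le_norm _).trans (le_of_eq ?_))
  rw [norm_mul]
  have e : -(Complex.I * Real.pi * s) = ((-(Real.pi * s) : ℝ) : ℂ) * Complex.I := by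
    push_cast; ring
  rw [e, Complex.norm_exp_ofReal_mul_I, one_mul]

/-- the numbers with phases in `(s, s + δ]` -/
def Sec (s δ : ℝ) (z : ℂ) : Prop := 0 < PreStab.im s z ∧ PreStab.im (s + δ) z ≤ 0

theorem bound_aux {p q r c t N : ℝ} (ht : 0 < t) (hc : |c| ≤ 1) (hp : 0 < p) (hq : q ≤ 0)
    (h : q = c * p + t * r) (hN : N ≤ |p| + |r|) : N ≤ (1 + 1 / t) * (p - q) := by
  have h5 : |r| * t ≤ p - q := by
    have h6 : |r| * t = |q - c * p| := by
      have h7 : r * t = q - c * p := by rw [h]; ring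
      rw [← h7, abs_mul, abs_of_pos ht]
    rw [h6]
    rw [abs_le] at hc ⊢
    constructor <;> nlinarith
  have h7 : |r| ≤ 1 / t * (p - q) := by
    rw [one_div, inv_mul_eq_div, le_div_iff₀ ht]
    exact h5
  rw [abs_of_pos hp] at hN
  linarith

theorem Sec.bound {s δ : ℝ} (h0 : 0 < δ) (h1 : δ < 1) {z : ℂ} (hz : Sec s δ z) :
    ‖z‖ ≤ (1 + 1 / Real.sin (Real.pi * δ)) * (PreStab.im s z - PreStab.im (s + δ) z) := by
  have hs : 0 < Real.sin (Real.pi * δ) := Real.sin_pos_of_pos_of_lt_pi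
    (mul_pos Real.pi_pos h0) (by nlinarith [Real.pi_pos])
  exact bound_aux hs (Real.abs_cos_le_one (Real.pi * δ)) hz.1 hz.2 (im_rot' s δ z)
    (norm_le_im s z)

theorem Sec.polar {s δ : ℝ} (h0 : 0 < δ) {z : ℂ} (hz : Sec s δ z) :
    ∃ r φ : ℝ, 0 < r ∧ s < φ ∧ φ ≤ s + δ ∧ z = r * Complex.exp (Complex.I * Real.pi * φ) := by
  obtain ⟨w, hw⟩ : ∃ w, w = Complex.exp (-(Complex.I * Real.pi * s)) * z := ⟨_, rfl⟩
  have hw1 : 0 < w.im := by rw [hw]; exact hz.1
  have hw0 : w ≠ 0 := by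
    rintro rfl
    simp at hw1
  have ha0 : 0 < Complex.arg w := by
    refine lt_of_le_of_ne (Complex.arg_nonneg_iff.2 hw1.le) ?_
    intro h
    have := (Complex.arg_eq_zero_iff.1 h.symm).2
    linarith
  have ha1 : Complex.arg w < Real.pi := Complex.arg_lt_pi_iff.2 (Or.inr hw1.ne')
  have hpi := Real.pi_pos
  have hz' : z = ‖w‖ * Complex.exp (Complex.I * Real.pi * ((s + Complex.arg w / Real.pi : ℝ) : ℂ)) := by
    have h2 : Complex.exp (Complex.I * Real.pi * ((s + Complex.arg w / Real.pi : ℝ) : ℂ)) =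
        Complex.exp (Complex.I * Real.pi * s) * Complex.exp (Complex.arg w * Complex.I) := by
      rw [← Complex.exp_add]
      congr 1
      have : (Real.pi : ℂ) ≠ 0 := Complex.ofReal_ne_zero.2 hpi.ne'
      push_cast
      field_simp
    rw [h2, mul_left_comm, Complex.norm_mul_exp_arg_mul_I, hw, ← mul_assoc, ← Complex.exp_add,
      add_neg_cancel, Complex.exp_zero, one_mul]
  refine ⟨‖w‖, s + Complex.arg w / Real.pi, norm_pos_iff.2 hw0, ?_, ?_, hz'⟩
  · have := div_pos ha0 hpi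
    linarith
  · by_contra hc
    rw [not_le] at hc
    have h3 := hz.2
    rw [hz', PreStab.im_exp] at h3
    have h4 : 0 < ‖w‖ * Real.sin (Real.pi * (s + Complex.arg w / Real.pi - (s + δ))) := by
      refine mul_pos (norm_pos_iff.2 hw0) (Real.sin_pos_of_pos_of_lt_pi ?_ ?_)
      · exact mul_pos hpi (by linarith)
      · have h5 : Complex.arg w / Real.pi < 1 := by rwa [div_lt_one hpi]
        nlinarith
    linarith

theorem Sec.of_polar {s δ r φ : ℝ} (h1 : δ < 1) (hr : 0 < r) (h2 : s < φ)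
    (h3 : φ ≤ s + δ) : Sec s δ (r * Complex.exp (Complex.I * Real.pi * φ)) := by
  have hpi := Real.pi_pos
  constructor
  · rw [PreStab.im_exp]
    exact mul_pos hr (Real.sin_pos_of_pos_of_lt_pi (mul_pos hpi (by linarith)) (by nlinarith))
  · rw [PreStab.im_exp]
    refine mul_nonpos_of_nonneg_of_nonpos hr.le ?_
    refine Real.sin_nonpos_of_nonpos_of_neg_pi_le ?_ (by nlinarith)
    exact mul_nonpos_of_nonneg_of_nonpos hpi.le (by linarith)

theorem im_pos_iff' {r φ ψ : ℝ} (hr : 0 < r) (h : φ - ψ < 1) (h' : ψ - φ < 1) :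
    0 ≤ PreStab.im ψ (r * Complex.exp (Complex.I * Real.pi * φ)) ↔ ψ ≤ φ := by
  have hpi := Real.pi_pos
  rw [PreStab.im_exp]
  constructor
  · intro h1
    by_contra hc
    rw [not_le] at hc
    have h2 : Real.sin (Real.pi * (φ - ψ)) < 0 :=
      Real.sin_neg_of_neg_of_neg_pi_lt (mul_neg_of_pos_of_neg hpi (by linarith)) (by nlinarith)
    have := mul_neg_of_pos_of_neg hr h2
    linarith
  · intro h1
    refine mul_nonneg hr.le (Real.sin_nonneg_of_nonneg_of_le_pi ?_ (by nlinarith))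
    exact mul_nonneg hpi.le (by linarith)

theorem im_eq_iff' {r φ ψ : ℝ} (hr : 0 < r) (h : φ - ψ < 1) (h' : ψ - φ < 1) :
    PreStab.im ψ (r * Complex.exp (Complex.I * Real.pi * φ)) = 0 ↔ ψ = φ := by
  constructor
  · intro h1
    have h2 := (im_pos_iff' hr h h').1 h1.ge
    by_contra hc
    have h3 : ψ < φ := lt_of_le_of_ne h2 hc
    rw [PreStab.im_exp] at h1
    have h4 : 0 < Real.sin (Real.pi * (φ - ψ)) := Real.sin_pos_of_pos_of_lt_pi
      (mul_pos Real.pi_pos (by linarith)) (by nlinarith [Real.pi_pos])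
    have := mul_pos hr h4
    linarith
  · rintro rfl
    rw [PreStab.im_exp]
    simp

/-- positive combinations -/
theorem im_between {s δ ψ : ℝ} (h1 : δ < 1) (h2 : s < ψ) (h3 : ψ ≤ s + δ) {z : ℂ}
    (ha : 0 ≤ PreStab.im s z) (hb : 0 ≤ PreStab.im (s + δ) z) : 0 ≤ PreStab.im ψ z := by
  have hpi := Real.pi_pos
  have h0 : 0 < δ := by linarith
  have hs : 0 < Real.sin (Real.pi * δ) := Real.sin_pos_of_pos_of_lt_pi
    (mul_pos hpi h0) (by nlinarith)
  obtain ⟨t, rfl⟩ : ∃ t, ψ = s + t := ⟨ψ - s, by ring⟩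
  have e1 := im_rot' s t z
  have e2 := im_rot' s δ z
  obtain ⟨p, hp⟩ : ∃ p, p = PreStab.im s z := ⟨_, rfl⟩
  obtain ⟨q, hq⟩ : ∃ q, q = PreStab.im (s + δ) z := ⟨_, rfl⟩
  obtain ⟨r, hr⟩ : ∃ r, r = PreStab.im (s + 1 / 2) z := ⟨_, rfl⟩
  rw [← hp, ← hq, ← hr] at e2
  rw [← hp, ← hr] at e1
  rw [← hp] at ha
  rw [← hq] at hb
  have h4 : Real.sin (Real.pi * δ) * PreStab.im (s + t) z =
      Real.sin (Real.pi * (δ - t)) * p + Real.sin (Real.pi * t) * q := by
    rw [e1, e2, mul_sub, Real.sin_sub]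
    ring
  have h5 : 0 ≤ Real.sin (Real.pi * (δ - t)) := Real.sin_nonneg_of_nonneg_of_le_pi
    (mul_nonneg hpi.le (by linarith)) (by nlinarith)
  have h6 : 0 ≤ Real.sin (Real.pi * t) := Real.sin_nonneg_of_nonneg_of_le_pi
    (mul_nonneg hpi.le (by linarith)) (by nlinarith)
  have h7 : 0 ≤ Real.sin (Real.pi * δ) * PreStab.im (s + t) z := by
    rw [h4]; positivity
  exact nonneg_of_mul_nonneg_right h7 hs

end num

end Pool.Agent.Helper445_GMF
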