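import Pool.Agent.Helper445_GMF.Coa2

/-!
Semistable objects of a coarse slicing.
-/

set_option autoImplicit false
set_option linter.unusedSectionVars false

open CategoryTheory Pretriangulated Triangulated Limits ZeroObject

namespace Pool.Agent.Helper445_GMF

universe v u

variable {C : Type u} [Category.{v} C] [Preadditive C] [HasZeroObject C] [HasShift C ℤ]
  [∀ n : ℤ, (shiftFunctor C n).Additive] [Pretriangulated C] [IsTriangulated C]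

theorem exists_unshift {X Y V : C} {f : X⟦(1 : ℤ)⟧ ⟶ Y⟦(1 : ℤ)⟧} {g : Y⟦(1 : ℤ)⟧ ⟶ V⟦(1 : ℤ)⟧}
    {h : V⟦(1 : ℤ)⟧ ⟶ X⟦(1 : ℤ)⟧⟦(1 : ℤ)⟧} (hT : Triangle.mk f g h ∈ distTriang C) :
    ∃ (f' : X ⟶ Y) (g' : Y ⟶ V) (h' : V ⟶ X⟦(1 : ℤ)⟧), Triangle.mk f' g' h' ∈ distTriang C := by
  have h1 := Triangle.shift_distinguished _ hT (-1)
  exact exists_dist_of_iso
    (f := ((Triangle.shiftFunctor C (-1)).obj (Triangle.mk f g h)).mor₁)
    (g := ((Triangle.shiftFunctor C (-1)).obj (Triangle.mk f g h)).mor₂)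
    (h := ((Triangle.shiftFunctor C (-1)).obj (Triangle.mk f g h)).mor₃) h1
    (shiftShiftNeg X (1 : ℤ)).symm (shiftShiftNeg Y (1 : ℤ)).symm (shiftShiftNeg V (1 : ℤ)).symm

namespace Coa

variable {D : ℕ} (σ : Coa C D)

/-- the slice of objects with phases in `(m / D, (m + 1) / D]` -/
def Sl (m : ℤ) (X : C) : Prop := σ.U m X ∧ σ.V (m + 1) X

/-- quotients in the slice -/
def Quot (m : ℤ) (X B : C) : Prop := ∃ (A : C) (f : A ⟶ X) (g : X ⟶ B) (h : B ⟶ A⟦(1 : ℤ)⟧),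
  Triangle.mk f g h ∈ distTriang C ∧ σ.Sl m A ∧ σ.Sl m B

/-- semistable objects of phase `φ` in the slice `m` -/
def SS (m : ℤ) (φ : ℝ) (X : C) : Prop :=
  σ.Sl m X ∧ PreStab.im φ (σ.Z X) = 0 ∧ ∀ B, σ.Quot m X B → 0 ≤ PreStab.im φ (σ.Z B)

theorem Sl_iso {m : ℤ} {X Y : C} (e : X ≅ Y) (h : σ.Sl m X) : σ.Sl m Y :=
  ⟨σ.iso e h.1, σ.V_iso e h.2⟩

theorem Sl_zero (m : ℤ) {X : C} (h : IsZero X) : σ.Sl m X := ⟨σ.U_zero m h, σ.V_zero _ h⟩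

theorem Sl_ext {m : ℤ} (T : Triangle C) (hT : T ∈ distTriang C) (h₁ : σ.Sl m T.obj₁)
    (h₃ : σ.Sl m T.obj₃) : σ.Sl m T.obj₂ :=
  ⟨σ.U_ext T hT h₁.1 h₃.1, σ.V_ext T hT h₁.2 h₃.2⟩

theorem Sl_unshift {m : ℤ} {X : C} (h : σ.Sl (m + D) (X⟦(1 : ℤ)⟧)) : σ.Sl m X := by
  refine ⟨(σ.shift m X).1 h.1, ?_⟩
  have h1 := σ.V_shiftn h.2
  have e : m + D + 1 - D = m + 1 := by ring
  rw [e] at h1
  exact σ.V_iso (shiftShiftNeg X (1 : ℤ)) h1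

theorem Sl_shift {m : ℤ} {X : C} (h : σ.Sl m X) : σ.Sl (m + D) (X⟦(1 : ℤ)⟧) := by
  refine ⟨(σ.shift m X).2 h.1, ?_⟩
  have h1 := σ.V_shift h.2
  have e : m + 1 + D = m + D + 1 := by ring
  rwa [e] at h1

theorem Quot.zero_left {m : ℤ} {X : C} (h : σ.Sl m X) : σ.Quot m X X :=
  ⟨0, 0, 𝟙 X, 0, contractible_distinguished₁ X, σ.Sl_zero m (isZero_zero C), h⟩

theorem Quot.trans {m : ℤ} {X Y B : C} (h : σ.Quot m X Y) (h' : σ.Quot m Y B) :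
    σ.Quot m X B := by
  obtain ⟨A₁, f₁, g₁, k₁, hT₁, hA₁, hY⟩ := h
  obtain ⟨A₂, f₂, g₂, k₂, hT₂, hA₂, hB⟩ := h'
  obtain ⟨A, f, k, hT⟩ := distinguished_cocone_triangle₁ (g₁ ≫ g₂)
  have o := someOctahedron rfl (rot_of_distTriang _ hT₁) (rot_of_distTriang _ hT₂)
    (rot_of_distTriang _ hT)
  obtain ⟨x, y, w, hx⟩ : ∃ (x : A₁ ⟶ A) (y : A ⟶ A₂) (w : A₂ ⟶ A₁⟦(1 : ℤ)⟧),
    Triangle.mk x y w ∈ distTriang C := exists_unshift o.mem
  exact ⟨A, f, _, k, hT, σ.Sl_ext _ hx hA₁ hA₂, hB⟩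

section sec

variable (hD : 2 ≤ D)

include hD

theorem δ_pos : 0 < (1 : ℝ) / D := by
  have : (0 : ℝ) < D := by exact_mod_cast (by omega : 0 < D)
  positivity

theorem δ_lt : (1 : ℝ) / D < 1 := by
  have : (1 : ℝ) < D := by exact_mod_cast (by omega : 1 < D)
  rw [div_lt_one (by linarith)]
  exact this

theorem cast_one (m : ℤ) : ((m + 1 : ℤ) : ℝ) / D = m / D + 1 / D := by
  push_cast
  ring

/-- the central charges of the objects of a slice -/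
theorem sec {m : ℤ} {X : C} (h : σ.Sl m X) (h0 : ¬ IsZero X) : Sec (m / D) (1 / D) (σ.Z X) := by
  have hD' : (0 : ℝ) < D := by exact_mod_cast (by omega : 0 < D)
  have hp := δ_pos hD
  have hl := δ_lt hD
  have h1 := σ.pos m X h.1 (σ.V_mono (by omega) h.2) h0
  have h2 := σ.pos (m + 1 - D) X (σ.anti (by omega) h.1) (by
    have e : m + 1 - D + D = m + 1 := by ring
    rw [e]
    exact h.2) h0
  have h3 : 0 ≤ PreStab.im (((m + 1 - D : ℤ) : ℝ) / D) (σ.Z X) := by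
    rcases h2 with h2 | h2
    · exact h2.le
    · exact h2.1.ge
  rw [cast_sub (by omega : 0 < D)] at h3
  have h4 := PreStab.im_add_one (((m + 1 : ℤ) : ℝ) / D - 1) (σ.Z X)
  rw [sub_add_cancel] at h4
  have h5 : PreStab.im (((m + 1 : ℤ) : ℝ) / D) (σ.Z X) ≤ 0 := by rw [h4]; linarith
  rw [cast_one hD] at h5
  refine ⟨?_, h5⟩
  rcases h1 with h1 | h1
  · exact h1
  · exfalso
    have h6 := im_rot' (m / D) (1 / D) (σ.Z X)
    rw [h1.1, mul_zero, zero_add] at h6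
    have h7 : 0 < Real.sin (Real.pi * (1 / D)) := Real.sin_pos_of_pos_of_lt_pi
      (mul_pos Real.pi_pos hp) (by nlinarith [Real.pi_pos])
    have h8 := mul_pos h7 h1.2
    linarith

theorem ne_zero {m : ℤ} {X : C} (h : σ.Sl m X) (h0 : ¬ IsZero X) : σ.Z X ≠ 0 := by
  intro h1
  have h2 := (σ.sec hD h h0).1
  rw [h1, PreStab.im_zero] at h2
  exact lt_irrefl _ h2

/-- the central charges of the objects between the slices -/
theorem im_mid {m : ℤ} {X : C} (h : σ.U (m + 1) X) (h' : σ.V (m + D) X) {ψ : ℝ}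
    (h1 : (m : ℝ) / D < ψ) (h2 : ψ ≤ m / D + 1 / D) : 0 ≤ PreStab.im ψ (σ.Z X) := by
  have e1 : 0 ≤ PreStab.im (m / D) (σ.Z X) := σ.im_nonneg (σ.anti (by omega) h) h'
  have e2 : 0 ≤ PreStab.im (((m + 1 : ℤ) : ℝ) / D) (σ.Z X) :=
    σ.im_nonneg h (σ.V_mono (by omega) h')
  rw [cast_one hD] at e2
  exact im_between (δ_lt hD) h1 h2 e1 e2

/-- morphisms between semistable objects of one slice -/
theorem hom_slice {m : ℤ} {φ φ' : ℝ} (hφ : φ' < φ) (h1 : (m : ℝ) / D < φ')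
    (h2 : φ ≤ m / D + 1 / D) {E F : C} (hE : σ.SS m φ E) (hF : σ.SS m φ' F) (f : E ⟶ F) :
    f = 0 := by
  have hpi := Real.pi_pos
  have hp := δ_pos hD
  have hl := δ_lt hD
  obtain ⟨Q0, v, w, hT⟩ := distinguished_cocone_triangle f
  obtain ⟨A1, B1, a1, b1, c1, hT1, hA1, hB1⟩ := σ.tr (m + D) Q0
  obtain ⟨A2, B2, a2, b2, c2, hT2, hA2, hB2⟩ := σ.tr (m + 1) Q0
  have hEs := σ.Sl_shift hE.1
  have hQ0U : σ.U m Q0 := σ.U_ext _ (rot_of_distTriang _ hT) hF.1.1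
    (σ.anti (by omega) hEs.1)
  have hQ0V : σ.V (m + D + 1) Q0 := σ.V_ext _ (rot_of_distTriang _ hT)
    (σ.V_mono (by omega) hF.1.2) hEs.2
  -- the first quotient
  obtain ⟨Q1, x1, y1, hX1⟩ := distinguished_cocone_triangle (a1 ≫ w)
  have o1 := someOctahedron rfl hT1 (rot_of_distTriang _ (rot_of_distTriang _ hT)) hX1
  have hA1s : σ.Sl (m + D) A1 := ⟨hA1, σ.V_first _ hT1 hQ0V
    (σ.V_mono (by omega) (σ.V_shiftn' hB1))⟩
  have hQ1U : σ.U (m + D) Q1 := σ.U_third _ hX1 hEs.1 (σ.U_shift hA1)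
  have hQ1V : σ.V (m + D + 1) Q1 := σ.V_ext _ o1.mem (σ.V_mono (by omega) hB1)
    (σ.V_mono (by omega) (σ.V_shift hF.1.2))
  -- the second subobject
  obtain ⟨Q2, x2, y2, hX2⟩ := distinguished_cocone_triangle (v ≫ b2)
  have o2 := someOctahedron rfl (rot_of_distTriang _ hT) (rot_of_distTriang _ hT2) hX2
  have hB2U : σ.U m B2 := σ.U_third _ hT2 hQ0U (σ.U_shift (σ.anti (by omega) hA2))
  have hQ2U : σ.U (m + D) Q2 := σ.U_ext _ o2.mem hEs.1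
    (σ.anti (by omega) ((σ.shift _ _).2 hA2))
  have hQ2V : σ.V (m + D + 1) Q2 := σ.V_ext _ (rot_of_distTriang _ hX2)
    (σ.V_mono (by omega) hB2) (σ.V_mono (by omega) (σ.V_shift hF.1.2))
  -- the middle part
  have h0 : a1 ≫ b2 = 0 := hB2 _ (σ.anti (by omega) hA1) _
  obtain ⟨k, hk⟩ := Triangle.coyoneda_exact₂ _ hT2 a1 h0
  obtain ⟨Q, q1, q2, hQ⟩ := distinguished_cocone_triangle k
  have o3 := someOctahedron hk.symm hQ hT2 hT1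
  have hQU : σ.U (m + 1) Q := σ.U_third _ hQ hA2 (σ.U_shift (σ.anti (by omega) hA1))
  have hQV : σ.V (m + D) Q := σ.V_first _ o3.mem hB1 (σ.V_mono (by omega) (σ.V_shiftn' hB2))
  -- central charges
  have z1 : σ.Z F = σ.Z E + σ.Z Q0 := σ.add _ hT
  have z2 : σ.Z Q0 = σ.Z A1 + σ.Z B1 := σ.add _ hT1
  have z3 : σ.Z Q0 = σ.Z A2 + σ.Z B2 := σ.add _ hT2
  have z4 : σ.Z (E⟦(1 : ℤ)⟧) = σ.Z A1 + σ.Z Q1 := σ.add _ hX1
  have z5 : σ.Z B2 = σ.Z F + σ.Z Q2 := σ.add _ hX2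
  have z6 : σ.Z A2 = σ.Z A1 + σ.Z Q := σ.add _ hQ
  rw [σ.Z_shift] at z4
  have e1 : 0 ≤ PreStab.im φ (-σ.Z Q1) := by
    have hx : Triangle.mk (a1 ≫ w) x1 y1 ∈ distTriang C := hX1
    have i1 : σ.Quot m E (Q1⟦(-1 : ℤ)⟧) := by
      obtain ⟨f', g', h', hd⟩ := exists_dist_of_iso hx (shiftNegShift A1 (1 : ℤ)) (Iso.refl _)
        (shiftNegShift Q1 (1 : ℤ))
      obtain ⟨f'', g'', h'', hd'⟩ := exists_unshift hd
      exact ⟨_, f'', g'', h'', hd', σ.Sl_unshift (σ.Sl_iso (shiftNegShift A1 (1 : ℤ)).symm hA1s),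
        σ.Sl_unshift (σ.Sl_iso (shiftNegShift Q1 (1 : ℤ)).symm ⟨hQ1U, hQ1V⟩)⟩
    have i2 := hE.2.2 _ i1
    have i3 : σ.Z Q1 = - σ.Z (Q1⟦(-1 : ℤ)⟧) := by
      rw [← σ.Z_shift]
      exact σ.Z_iso (shiftNegShift Q1 (1 : ℤ)).symm
    rw [i3, neg_neg]
    exact i2
  have hQ2n : σ.Sl m (Q2⟦(-1 : ℤ)⟧) :=
    σ.Sl_unshift (σ.Sl_iso (shiftNegShift Q2 (1 : ℤ)).symm ⟨hQ2U, hQ2V⟩)
  have e2 : 0 ≤ PreStab.im φ' (σ.Z B2) :=
    hF.2.2 _ ⟨_, _, _, _, inv_rot_of_distTriang _ hX2, hQ2n, ⟨hB2U, hB2⟩⟩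
  have e3 : 0 ≤ PreStab.im φ (σ.Z Q) := σ.im_mid hD hQU hQV (by linarith) h2
  have i3 : σ.Z Q2 = - σ.Z (Q2⟦(-1 : ℤ)⟧) := by
    rw [← σ.Z_shift]
    exact σ.Z_iso (shiftNegShift Q2 (1 : ℤ)).symm
  -- the conclusion
  have hzero : IsZero (Q2⟦(-1 : ℤ)⟧) := by
    by_contra hc
    obtain ⟨r, α, hr, ha1, ha2, ha3⟩ := (σ.sec hD hQ2n hc).polar hp
    have e4 : PreStab.im φ' (σ.Z (Q2⟦(-1 : ℤ)⟧)) ≤ 0 := by
      have : PreStab.im φ' (σ.Z B2) = PreStab.im φ' (σ.Z F) + PreStab.im φ' (σ.Z Q2) := by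
        rw [z5, PreStab.im_add]
      rw [hF.2.1, i3, PreStab.im_neg] at this
      linarith
    have e5 : α ≤ φ' := by
      rw [ha3] at e4
      by_contra hc
      rw [not_le] at hc
      have h5 := (im_pos_iff' hr (by linarith : α - φ' < 1) (by linarith)).2 hc.le
      have h6 := (im_eq_iff' hr (by linarith : α - φ' < 1) (by linarith)).1 (le_antisymm e4 h5)
      linarith
    have e6 : 0 ≤ PreStab.im φ (σ.Z (Q2⟦(-1 : ℤ)⟧)) := by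
      have : σ.Z (Q2⟦(-1 : ℤ)⟧) = -σ.Z Q1 + σ.Z Q := by
        linear_combination i3 + z5 + z1 + z3 + z6 - z4
      rw [this, PreStab.im_add]
      linarith
    rw [ha3] at e6
    have h5 := (im_pos_iff' hr (by linarith : α - φ < 1) (by linarith)).1 e6
    linarith
  have hiso : IsIso (v ≫ b2) := (Triangle.distinguished_iff_of_isZero₁ _ hzero).1
    (inv_rot_of_distTriang _ hX2)
  have h7 : f ≫ v = 0 := comp_distTriang_mor_zero₁₂ _ hT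
  rw [← cancel_mono (v ≫ b2), ← Category.assoc, h7, zero_comp, zero_comp]

end sec

end Coa

end Pool.Agent.Helper445_GMF
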