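import Pool.Agent.Helper445_GMF.Coa3

/-!
Harder-Narasimhan filtrations for a coarse slicing.
-/

set_option autoImplicit false
set_option linter.unusedSectionVars false

open CategoryTheory Pretriangulated Triangulated Limits ZeroObject

namespace Pool.Agent.Helper445_GMF

universe v u

variable {C : Type u} [Category.{v} C] [Preadditive C] [HasZeroObject C] [HasShift C ℤ]
  [∀ n : ℤ, (shiftFunctor C n).Additive] [Pretriangulated C] [IsTriangulated C]

/-- concatenation of Harder-Narasimhan filtrations -/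
theorem HN.concat {P : ℝ → C → Prop} {x y : ℝ} {A : C} (hA : HN P x y A) {x' y' : ℝ} {B : C}
    (hB : HN P x' y' B) : y' < x → ∀ {X : C} (f : A ⟶ X) (g : X ⟶ B) (h : B ⟶ A⟦(1 : ℤ)⟧),
      Triangle.mk f g h ∈ distTriang C → HN P x' y X := by
  induction hB with
  | @one φ B hB =>
    intro hlt X f g h hT
    exact .step (Triangle.mk f g h) hT hA hB hlt
  | @step φ a b T hT' h₁ h₃ hφ ih =>
    intro hlt X f g h hT
    obtain ⟨X1, i, k, hX1⟩ := distinguished_cocone_triangle₁ (g ≫ T.mor₂)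
    have o := someOctahedron rfl (rot_of_distTriang _ hT) (rot_of_distTriang _ hT')
      (rot_of_distTriang _ hX1)
    obtain ⟨x, y, w, hx⟩ : ∃ (x : A ⟶ X1) (y : X1 ⟶ T.obj₁) (w : T.obj₁ ⟶ A⟦(1 : ℤ)⟧),
      Triangle.mk x y w ∈ distTriang C := exists_unshift o.mem
    exact .step (Triangle.mk i (g ≫ T.mor₂) k) hX1 (ih hlt x y w hx) h₃ hφ

namespace Coa

variable {D : ℕ} (σ : Coa C D)

/-- the central charges of the objects of a slice in a bounded region are finite in number -/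
def Fin' : Prop := ∀ (m : ℤ) (R : ℝ),
  {z : ℂ | ∃ E, σ.Sl m E ∧ ¬ IsZero E ∧ σ.Z E = z ∧ ‖z‖ ≤ R}.Finite

/-- the linear functional which is positive on the slice -/
noncomputable def lam (D : ℕ) (m : ℤ) (z : ℂ) : ℝ :=
  PreStab.im (m / D) z - PreStab.im (m / D + 1 / D) z

theorem lam_add (m : ℤ) (z w : ℂ) : lam D m (z + w) = lam D m z + lam D m w := by
  unfold lam
  rw [PreStab.im_add, PreStab.im_add]
  ring

theorem lam_zero (m : ℤ) : lam D m 0 = 0 := by
  unfold lam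
  rw [PreStab.im_zero, PreStab.im_zero, sub_zero]

section sec

variable (hD : 2 ≤ D)

include hD

theorem lam_pos {m : ℤ} {X : C} (h : σ.Sl m X) (h0 : ¬ IsZero X) : 0 < lam D m (σ.Z X) := by
  have h1 := σ.sec hD h h0
  unfold lam
  linarith [h1.1, h1.2]

theorem lam_nonneg {m : ℤ} {X : C} (h : σ.Sl m X) : 0 ≤ lam D m (σ.Z X) := by
  by_cases h0 : IsZero X
  · rw [σ.Z_zero h0, lam_zero]
  · exact (σ.lam_pos hD h h0).le

theorem norm_le_lam {m : ℤ} {X : C} (h : σ.Sl m X) :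
    ‖σ.Z X‖ ≤ (1 + 1 / Real.sin (Real.pi * (1 / D))) * lam D m (σ.Z X) := by
  by_cases h0 : IsZero X
  · rw [σ.Z_zero h0, lam_zero, mul_zero, norm_zero]
  · exact (σ.sec hD h h0).bound (δ_pos hD) (δ_lt hD)

theorem K_pos : 0 < 1 + 1 / Real.sin (Real.pi * (1 / D)) := by
  have h7 : 0 < Real.sin (Real.pi * (1 / D)) := Real.sin_pos_of_pos_of_lt_pi
    (mul_pos Real.pi_pos (δ_pos hD)) (by nlinarith [Real.pi_pos, δ_lt hD])
  positivity

theorem exists_c (hfin : σ.Fin') (m : ℤ) :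
    ∃ c : ℝ, 0 < c ∧ ∀ X, σ.Sl m X → ¬ IsZero X → c ≤ lam D m (σ.Z X) := by
  have hK := K_pos hD
  set K := 1 + 1 / Real.sin (Real.pi * (1 / D)) with hKdef
  have h1 := (hfin m 1).image (lam D m)
  have h2 : ∃ c : ℝ, 0 < c ∧ ∀ z ∈ {z : ℂ | ∃ E, σ.Sl m E ∧ ¬ IsZero E ∧ σ.Z E = z ∧ ‖z‖ ≤ 1},
      c ≤ lam D m z := by
    rcases Set.eq_empty_or_nonempty {z : ℂ | ∃ E, σ.Sl m E ∧ ¬ IsZero E ∧ σ.Z E = z ∧ ‖z‖ ≤ 1}
      with h | h
    · exact ⟨1, one_pos, fun z hz => by rw [h] at hz; exact absurd hz (Set.notMem_empty z)⟩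
    · obtain ⟨z0, ⟨E, hE, hE0, rfl, _⟩, hmin⟩ := Set.exists_min_image _ (lam D m) (hfin m 1) h
      exact ⟨_, σ.lam_pos hD hE hE0, hmin⟩
  obtain ⟨c, hc, hc'⟩ := h2
  refine ⟨min c (1 / K), lt_min hc (by positivity), fun X hX h0 => ?_⟩
  rcases le_or_gt ‖σ.Z X‖ 1 with h | h
  · exact (min_le_left _ _).trans (hc' _ ⟨X, hX, h0, rfl, h⟩)
  · refine (min_le_right _ _).trans ?_
    have h3 := σ.norm_le_lam hD hX
    rw [div_le_iff₀ hK]
    rw [← hKdef] at h3
    linarith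

/-- the phase of an object of a slice -/
theorem exists_ph {m : ℤ} {X : C} (h : σ.Sl m X) (h0 : ¬ IsZero X) :
    ∃ r φ : ℝ, 0 < r ∧ (m : ℝ) / D < φ ∧ φ ≤ m / D + 1 / D ∧
      σ.Z X = r * Complex.exp (Complex.I * Real.pi * φ) := (σ.sec hD h h0).polar (δ_pos hD)

omit hD in
theorem Z_Quot {m : ℤ} {X B : C} (h : σ.Quot m X B) : ∃ A, σ.Sl m A ∧
    σ.Z X = σ.Z A + σ.Z B := by
  obtain ⟨A, f, g, k, hT, hA, _⟩ := h
  exact ⟨A, hA, σ.add _ hT⟩

theorem slice_hn (hfin : σ.Fin') (m : ℤ) {c : ℝ} (_ : 0 < c)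
    (hc' : ∀ X, σ.Sl m X → ¬ IsZero X → c ≤ lam D m (σ.Z X)) (N : ℕ) : ∀ E : C, σ.Sl m E →
    ¬ IsZero E → lam D m (σ.Z E) ≤ N * c → ∃ a b : ℝ, HN (σ.SS m) a b E ∧ (m : ℝ) / D < a ∧
      b ≤ m / D + 1 / D ∧ ∃ (B : C) (r : ℝ), σ.Quot m E B ∧ 0 < r ∧
        σ.Z B = r * Complex.exp (Complex.I * Real.pi * a) := by
  have hl := δ_lt hD
  have hp := δ_pos hD
  induction N with
  | zero =>
    intro E hE h0 h
    have := σ.lam_pos hD hE h0
    simp at h
    linarith
  | succ N ih =>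
    intro E hE h0 hN
    -- the set of quotients
    obtain ⟨S, hS⟩ : ∃ S : Set (ℝ × ℝ), S = {x | 0 < x.1 ∧ (m : ℝ) / D < x.2 ∧
      x.2 ≤ (m : ℝ) / D + 1 / D ∧
      ∃ B, σ.Quot m E B ∧ σ.Z B = x.1 * Complex.exp (Complex.I * Real.pi * x.2)} := ⟨_, rfl⟩
    have hSfin : S.Finite := by
      refine Set.Finite.of_finite_image (f := fun x : ℝ × ℝ =>
        (x.1 : ℂ) * Complex.exp (Complex.I * Real.pi * x.2)) ?_ ?_
      · refine (hfin m ((1 + 1 / Real.sin (Real.pi * (1 / D))) * lam D m (σ.Z E))).subset ?_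
        rintro _ ⟨⟨r, φ⟩, hx, rfl⟩
        rw [hS] at hx
        obtain ⟨hr, h1, h2, B, hB, hZ⟩ := hx
        obtain ⟨A, hA, hAB⟩ := σ.Z_Quot hB
        have hB' : σ.Sl m B := by
          obtain ⟨_, _, _, _, _, _, h⟩ := hB
          exact h
        refine ⟨B, hB', ?_, hZ, ?_⟩
        · intro h
          rw [σ.Z_zero h] at hZ
          have h3 := congrArg norm hZ
          rw [norm_zero, norm_mul] at h3
          have h4 : ‖Complex.exp (Complex.I * Real.pi * φ)‖ = 1 := by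
            have e : Complex.I * Real.pi * φ = ((Real.pi * φ : ℝ) : ℂ) * Complex.I := by
              push_cast; ring
            rw [e, Complex.norm_exp_ofReal_mul_I]
          have h5 : ‖(r : ℂ)‖ = r := by
            rw [Complex.norm_real, Real.norm_eq_abs, abs_of_pos hr]
          have h6 : (0 : ℝ) = ‖(r : ℂ)‖ * ‖Complex.exp (Complex.I * Real.pi * φ)‖ := h3
          rw [h4, h5, mul_one] at h6
          have hr' : 0 < r := hr
          linarith
        · show ‖(r : ℂ) * Complex.exp (Complex.I * Real.pi * φ)‖ ≤ _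
          have hZ' : σ.Z B = (r : ℂ) * Complex.exp (Complex.I * Real.pi * φ) := hZ
          rw [← hZ']
          refine (σ.norm_le_lam hD hB').trans (mul_le_mul_of_nonneg_left ?_ (K_pos hD).le)
          rw [hAB, lam_add]
          linarith [σ.lam_nonneg hD hA]
      · rintro ⟨r, φ⟩ hx ⟨r', φ'⟩ hx' he
        rw [hS] at hx hx'
        obtain ⟨hr, h1, h2, _⟩ := hx
        obtain ⟨hr', h1', h2', _⟩ := hx'
        have he' : (r : ℂ) * Complex.exp (Complex.I * Real.pi * φ) =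
          (r' : ℂ) * Complex.exp (Complex.I * Real.pi * φ') := he
        have h1 : (m : ℝ) / D < φ := h1
        have h2 : φ ≤ m / D + 1 / D := h2
        have h1' : (m : ℝ) / D < φ' := h1'
        have h2' : φ' ≤ m / D + 1 / D := h2'
        have h3 : φ' = φ := by
          refine (im_eq_iff' hr (by linarith) (by linarith)).1 ?_
          rw [he']
          exact (im_eq_iff' hr' (by linarith) (by linarith)).2 rfl
        subst h3
        have h4 := mul_right_cancel₀ (Complex.exp_ne_zero _) he'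
        exact Prod.ext (Complex.ofReal_injective h4) rfl
    have hSne : S.Nonempty := by
      obtain ⟨r, φ, hr, h1, h2, hZ⟩ := σ.exists_ph hD hE h0
      exact ⟨(r, φ), by rw [hS]; exact ⟨hr, h1, h2, E, Quot.zero_left σ hE, hZ⟩⟩
    obtain ⟨⟨r0, a⟩, hx0, hmin⟩ := Set.exists_min_image S (fun x => x.2) hSfin hSne
    obtain ⟨⟨r1, a1⟩, ⟨hx1, ha1⟩, hmax⟩ := Set.exists_max_image (S ∩ {x | x.2 = a})
      (fun x => x.1) (hSfin.subset Set.inter_subset_left) ⟨(r0, a), hx0, rfl⟩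
    have ha1 : a1 = a := ha1
    subst ha1
    have hx1' := hx1
    rw [hS] at hx1'
    obtain ⟨hr1, h1, h2, B1, hB1, hZ1⟩ := hx1'
    have hr1 : 0 < r1 := hr1
    have h1 : (m : ℝ) / D < a1 := h1
    have h2 : a1 ≤ m / D + 1 / D := h2
    have hZ1 : σ.Z B1 = r1 * Complex.exp (Complex.I * Real.pi * a1) := hZ1
    have hmin' : ∀ B, σ.Quot m E B → 0 ≤ PreStab.im a1 (σ.Z B) := by
      intro B hB
      by_cases hB0 : IsZero B
      · rw [σ.Z_zero hB0, PreStab.im_zero]
      · have hB' : σ.Sl m B := by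
          obtain ⟨_, _, _, _, _, _, h⟩ := hB
          exact h
        obtain ⟨r, φ, hr, h3, h4, hZ⟩ := σ.exists_ph hD hB' hB0
        have h5 : a1 ≤ φ := hmin (r, φ) (by rw [hS]; exact ⟨hr, h3, h4, B, hB, hZ⟩)
        rw [hZ]
        exact (im_pos_iff' hr (by linarith) (by linarith)).2 h5
    have hB1z : PreStab.im a1 (σ.Z B1) = 0 := by
      rw [hZ1]
      exact (im_eq_iff' hr1 (by linarith) (by linarith)).2 rfl
    obtain ⟨A1, f1, g1, k1, hT1, hA1, hB1s⟩ := hB1
    have hB1 : σ.Quot m E B1 := ⟨A1, f1, g1, k1, hT1, hA1, hB1s⟩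
    have hB1SS : σ.SS m a1 B1 := ⟨hB1s, hB1z, fun B hB => hmin' B (Quot.trans σ hB1 hB)⟩
    have hB10 : ¬ IsZero B1 := by
      intro h
      have h3 := σ.Z_zero h
      rw [hZ1, mul_eq_zero] at h3
      rcases h3 with h3 | h3
      · exact hr1.ne' (Complex.ofReal_eq_zero.1 h3)
      · exact Complex.exp_ne_zero _ h3
    have hadd : σ.Z E = σ.Z A1 + σ.Z B1 := σ.add _ hT1
    by_cases hA0 : IsZero A1
    · have hiso : IsIso g1 := (Triangle.distinguished_iff_of_isZero₁ _ hA0).1 hT1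
      have e : B1 ≅ E := (asIso g1).symm
      have hESS : σ.SS m a1 E := by
        refine ⟨hE, ?_, hmin'⟩
        rw [← σ.Z_iso e]
        exact hB1z
      exact ⟨a1, a1, .one hESS, h1, h2, B1, r1, hB1, hr1, hZ1⟩
    · obtain ⟨a', b', hHN, ha', hb', B2, r2, hB2, hr2, hZ2⟩ := ih A1 hA1 hA0 (by
        have h3 := hc' B1 hB1s hB10
        rw [hadd, lam_add] at hN
        push_cast at hN
        linarith)
      have hlt : a1 < a' := by
        by_contra hcc
        rw [not_lt] at hcc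
        obtain ⟨A2, f2, g2, k2, hT2, hA2, hB2s⟩ := hB2
        obtain ⟨B', x, y, hX⟩ := distinguished_cocone_triangle (f2 ≫ f1)
        have o := someOctahedron rfl hT2 hT1 hX
        have hB's : σ.Sl m B' := σ.Sl_ext _ o.mem hB2s hB1s
        have hB'q : σ.Quot m E B' := ⟨A2, _, x, y, hX, hA2, hB's⟩
        have hZ' : σ.Z B' = σ.Z B2 + σ.Z B1 := σ.add _ o.mem
        have h3 := hmin' B' hB'q
        rw [hZ', PreStab.im_add, hB1z, add_zero, hZ2] at h3
        have h4 := (im_pos_iff' hr2 (by linarith : a' - a1 < 1) (by linarith)).1 h3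
        have h5 : a' = a1 := le_antisymm hcc h4
        have h6 : (r2 + r1, a1) ∈ S ∩ {x | x.2 = a1} := by
          refine ⟨?_, rfl⟩
          rw [hS]
          refine ⟨by show 0 < r2 + r1; linarith, h1, h2, B', hB'q, ?_⟩
          show σ.Z B' = ((r2 + r1 : ℝ) : ℂ) * Complex.exp (Complex.I * Real.pi * a1)
          rw [hZ', hZ2, hZ1, h5]
          push_cast
          ring
        have h7 := hmax _ h6
        have h8 : r2 + r1 ≤ r1 := h7
        linarith
      exact ⟨a1, b', .step _ hT1 hHN hB1SS hlt, h1, hb', B1, r1, hB1, hr1, hZ1⟩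

end sec

end Coa

end Pool.Agent.Helper445_GMF
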