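import Pool.Agent.Helper445_GMF.Coa4

/-!
From a coarse slicing to a stability condition.
-/

set_option autoImplicit false
set_option linter.unusedSectionVars false

open CategoryTheory Pretriangulated Triangulated Limits ZeroObject

namespace Pool.Agent.Helper445_GMF

universe v u

variable {C : Type u} [Category.{v} C] [Preadditive C] [HasZeroObject C] [HasShift C ℤ]
  [∀ n : ℤ, (shiftFunctor C n).Additive] [Pretriangulated C] [IsTriangulated C]

theorem HN.le' {P : ℝ → C → Prop} {a b : ℝ} {X : C} (h : HN P a b X) : a ≤ b := by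
  induction h with
  | one _ => exact le_rfl
  | step T hT _ _ hφ ih => exact hφ.le.trans ih

theorem HN.mono' {P Q : ℝ → C → Prop} {a b : ℝ} {X : C} (h : HN Q a b X) :
    (∀ φ Y, a ≤ φ → φ ≤ b → Q φ Y → P φ Y) → HN P a b X := by
  induction h with
  | one hX => exact fun h => .one (h _ _ le_rfl le_rfl hX)
  | @step φ a b T hT h₁ h₃ hφ ih =>
    intro h
    exact .step T hT (ih fun ψ Y h1 h2 => h ψ Y (hφ.le.trans h1) h2)
      (h _ _ le_rfl (hφ.le.trans h₁.le') h₃) hφ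

theorem HN.iso' {P : ℝ → C → Prop} (hP : ∀ φ (X Y : C), (X ≅ Y) → P φ X → P φ Y) {a b : ℝ}
    {X Y : C} (h : HN P a b X) (e : X ≅ Y) : HN P a b Y := by
  cases h with
  | one hX => exact .one (hP _ _ _ e hX)
  | step T hT h₁ h₃ hφ =>
    exact .step (Triangle.mk (T.mor₁ ≫ e.hom) (e.inv ≫ T.mor₂) T.mor₃) (dist_mid hT e) h₁ h₃ hφ

namespace Coa

variable {D : ℕ} (σ : Coa C D)

/-- the semistable objects of phase `φ` -/
def P (φ : ℝ) (X : C) : Prop :=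
  ∃ m : ℤ, (m : ℝ) / D < φ ∧ φ ≤ (m : ℝ) / D + 1 / D ∧ σ.SS m φ X

theorem Quot_iso {m : ℤ} {X Y B : C} (e : X ≅ Y) (h : σ.Quot m X B) : σ.Quot m Y B := by
  obtain ⟨A, f, g, k, hT, hA, hB⟩ := h
  exact ⟨A, f ≫ e.hom, e.inv ≫ g, k, dist_mid hT e, hA, hB⟩

theorem SS_iso {m : ℤ} {φ : ℝ} {X Y : C} (e : X ≅ Y) (h : σ.SS m φ X) : σ.SS m φ Y :=
  ⟨σ.Sl_iso e h.1, by rw [← σ.Z_iso e]; exact h.2.1,
    fun B hB => h.2.2 B (σ.Quot_iso e.symm hB)⟩

theorem P_iso {φ : ℝ} {X Y : C} (e : X ≅ Y) (h : σ.P φ X) : σ.P φ Y := by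
  obtain ⟨m, h1, h2, h3⟩ := h
  exact ⟨m, h1, h2, σ.SS_iso e h3⟩

/-- compatibility with an autoequivalence -/
structure Aut (Φ Ψ : C → C) (k : ℤ) : Prop where
  U : ∀ m X, σ.U m X → σ.U (m + k) (Φ X)
  V : ∀ m X, σ.V m X → σ.V (m + k) (Φ X)
  U' : ∀ m X, σ.U m X → σ.U (m - k) (Ψ X)
  V' : ∀ m X, σ.V m X → σ.V (m - k) (Ψ X)
  d' : ∀ T ∈ distTriang C, ∃ (f : Ψ T.obj₁ ⟶ Ψ T.obj₂) (g : Ψ T.obj₂ ⟶ Ψ T.obj₃)
    (h : Ψ T.obj₃ ⟶ (Ψ T.obj₁)⟦(1 : ℤ)⟧), Triangle.mk f g h ∈ distTriang C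
  e : ∀ X, Nonempty (Ψ (Φ X) ≅ X)
  Z : ∀ X, σ.Z (Φ X) = Complex.exp (Complex.I * Real.pi * ((k / D : ℝ) : ℂ)) * σ.Z X
  Z' : ∀ X, σ.Z (Ψ X) = Complex.exp (Complex.I * Real.pi * ((-(k / D) : ℝ) : ℂ)) * σ.Z X

section sec

variable (hD : 2 ≤ D)

include hD

theorem Aut.P {Φ Ψ : C → C} {k : ℤ} (h : σ.Aut Φ Ψ k) {φ : ℝ} {X : C} (hX : σ.P φ X) :
    σ.P (φ + k / D) (Φ X) := by
  obtain ⟨m, h1, h2, h3, h4, h5⟩ := hX
  have e1 : ((m + k : ℤ) : ℝ) / D = m / D + k / D := by push_cast; ring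
  have hSl : ∀ {m : ℤ} {X : C}, σ.Sl (m + k) X → σ.Sl m (Ψ X) := by
    intro m X hX
    have a1 := h.U' _ _ hX.1
    have a2 := h.V' _ _ hX.2
    rw [add_sub_cancel_right] at a1
    have e : m + k + 1 - k = m + 1 := by ring
    rw [e] at a2
    exact ⟨a1, a2⟩
  refine ⟨m + k, by rw [e1]; linarith, by rw [e1]; linarith, ⟨h.U _ _ h3.1, ?_⟩, ?_, ?_⟩
  · have := h.V _ _ h3.2
    have e : m + 1 + k = m + k + 1 := by ring
    rwa [e] at this
  · rw [h.Z, PreStab.im_rot, add_sub_cancel_right]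
    exact h4
  · rintro B ⟨A, f, g, w, hT, hA, hB⟩
    obtain ⟨f', g', w', hT'⟩ := h.d' _ hT
    obtain ⟨e⟩ := h.e X
    have hq : σ.Quot m X (Ψ B) := σ.Quot_iso e ⟨_, f', g', w', hT', hSl hA, hSl hB⟩
    have := h5 _ hq
    rw [h.Z', PreStab.im_rot] at this
    convert! this using 2
    ring

theorem aut_shift : σ.Aut (fun X => X⟦(1 : ℤ)⟧) (fun X => X⟦(-1 : ℤ)⟧) D where
  U m X h := (σ.shift m X).2 h
  V m X h := σ.V_shift h
  U' m X h := σ.U_shiftn h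
  V' m X h := σ.V_shiftn h
  d' T hT := ⟨_, _, _, Triangle.shift_distinguished T hT (-1)⟩
  e X := ⟨shiftShiftNeg X (1 : ℤ)⟩
  Z X := by
    have hD' : (D : ℝ) ≠ 0 := by exact_mod_cast (by omega : D ≠ 0)
    have e : ((D : ℤ) : ℝ) / D = 1 := by push_cast; field_simp
    have h2 : Complex.exp (Complex.I * Real.pi) = -1 := by
      rw [mul_comm, Complex.exp_pi_mul_I]
    rw [σ.Z_shift, e, Complex.ofReal_one, mul_one, h2, neg_one_mul]
  Z' X := by
    have hD' : (D : ℝ) ≠ 0 := by exact_mod_cast (by omega : D ≠ 0)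
    have e : ((D : ℤ) : ℝ) / D = 1 := by push_cast; field_simp
    have h1 : σ.Z (X⟦(-1 : ℤ)⟧⟦(1 : ℤ)⟧) = -σ.Z (X⟦(-1 : ℤ)⟧) := σ.Z_shift _
    rw [σ.Z_iso (shiftNegShift X (1 : ℤ))] at h1
    have h2 : Complex.exp (Complex.I * Real.pi * ((-1 : ℝ) : ℂ)) = -1 := by
      have : Complex.I * Real.pi * ((-1 : ℝ) : ℂ) = -(Real.pi * Complex.I) := by
        push_cast; ring
      rw [this, Complex.exp_neg, Complex.exp_pi_mul_I]
      norm_num
    rw [e, h2]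
    linear_combination h1

theorem aut_shiftn : σ.Aut (fun X => X⟦(-1 : ℤ)⟧) (fun X => X⟦(1 : ℤ)⟧) (-D) where
  U m X h := σ.U_shiftn h
  V m X h := σ.V_shiftn h
  U' m X h := by rw [sub_neg_eq_add]; exact (σ.shift m X).2 h
  V' m X h := by rw [sub_neg_eq_add]; exact σ.V_shift h
  d' T hT := ⟨_, _, _, Triangle.shift_distinguished T hT 1⟩
  e X := ⟨shiftNegShift X (1 : ℤ)⟩
  Z X := by
    have := (σ.aut_shift hD).Z' X
    refine this.trans ?_
    congr 3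
    push_cast
    ring
  Z' X := by
    have := (σ.aut_shift hD).Z X
    refine this.trans ?_
    congr 3
    push_cast
    ring

theorem exists_m (φ : ℝ) : ∃ m : ℤ, (m : ℝ) / D < φ ∧ φ ≤ (m : ℝ) / D + 1 / D := by
  have hD' : (0 : ℝ) < D := by exact_mod_cast (by omega : 0 < D)
  refine ⟨⌈φ * D⌉ - 1, ?_, ?_⟩
  · rw [div_lt_iff₀ hD']
    push_cast
    linarith [Int.ceil_lt_add_one (φ * D)]
  · rw [← add_div, le_div_iff₀ hD']
    push_cast
    linarith [Int.le_ceil (φ * D)]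

theorem hn_aux (hfin : σ.Fin') (n : ℕ) : ∀ (a : ℤ) (X : C), σ.U a X → σ.V (a + n) X →
    IsZero X ∨ ∃ x y : ℝ, HN σ.P x y X ∧ (a : ℝ) / D < x := by
  induction n with
  | zero =>
    intro a X h1 h2
    exact Or.inl (σ.isZero (by simp) h1 h2)
  | succ n ih =>
    intro a X h1 h2
    obtain ⟨A, B, f, g, w, hT, hA, hB⟩ := σ.tr (a + 1) X
    have hA' : σ.V (a + 1 + n) A := by
      refine σ.V_first _ hT (σ.V_mono (by push_cast; omega) h2) ?_
      exact σ.V_mono (by omega) (σ.V_shiftn' hB)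
    have hB' : σ.U a B := σ.U_third _ hT h1 (σ.U_shift (σ.anti (by omega) hA))
    have hBs : σ.Sl a B := ⟨hB', hB⟩
    by_cases hB0 : IsZero B
    · have hiso : IsIso f := (Triangle.distinguished_iff_of_isZero₃ _ hB0).1 hT
      rcases ih (a + 1) A hA hA' with h0 | ⟨x, y, h3, h4⟩
      · exact Or.inl (h0.of_iso (asIso f).symm)
      · refine Or.inr ⟨x, y, HN.iso' (P := σ.P) (fun φ X Y e h => σ.P_iso e h) h3 (asIso f), lt_of_le_of_lt ?_ h4⟩
        rw [cast_one hD]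
        linarith [δ_pos hD]
    · obtain ⟨c, hc, hc'⟩ := σ.exists_c hD hfin a
      obtain ⟨N, hN⟩ := exists_nat_ge (lam D a (σ.Z B) / c)
      rw [div_le_iff₀ hc] at hN
      obtain ⟨a', b', h5, h6, h7, _⟩ := σ.slice_hn hD hfin a hc hc' N B hBs hB0 hN
      have h8 : HN σ.P a' b' B := h5.mono' fun φ Y h9 h10 hY =>
        ⟨a, h6.trans_le h9, h10.trans h7, hY⟩
      rcases ih (a + 1) A hA hA' with h0 | ⟨x, y, h3, h4⟩
      · have hiso : IsIso g := (Triangle.distinguished_iff_of_isZero₁ _ h0).1 hT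
        exact Or.inr ⟨a', b', HN.iso' (P := σ.P) (fun φ X Y e h => σ.P_iso e h) h8 (asIso g).symm, h6⟩
      · rw [cast_one hD] at h4
        exact Or.inr ⟨a', y, h3.concat h8 (by linarith) f g w hT, h6⟩

theorem P_zero (φ : ℝ) (X : C) (h : IsZero X) : σ.P φ X := by
  obtain ⟨m, h1, h2⟩ := exists_m hD φ
  refine ⟨m, h1, h2, σ.Sl_zero m h, by rw [σ.Z_zero h, PreStab.im_zero], ?_⟩
  rintro B ⟨A, f, g, w, hT, hA, hB⟩
  have hiso : IsIso w := (Triangle.distinguished_iff_of_isZero₁ (Triangle.mk g w _) h).1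
    (rot_of_distTriang _ hT)
  have h3 : IsZero B := σ.isZero (m := m + D) (m' := m + 1) (by omega)
    (σ.iso (@asIso _ _ _ _ w hiso).symm (σ.Sl_shift hA).1) hB.2
  rw [σ.Z_zero h3, PreStab.im_zero]

/-- the stability condition of a coarse slicing -/
def pre (hfin : σ.Fin') : PreStab C where
  Z := σ.Z
  P := σ.P
  add := σ.add
  iso := σ.P_iso
  zero := σ.P_zero hD
  phase φ X hX h0 := by
    obtain ⟨m, h1, h2, h3, h4, h5⟩ := hX
    have hl := δ_lt hD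
    obtain ⟨r, ψ, hr, h6, h7, hZ⟩ := σ.exists_ph hD h3 h0
    refine ⟨r, hr, ?_⟩
    rw [hZ] at h4
    have h8 := (im_eq_iff' hr (by linarith) (by linarith)).1 h4
    rw [hZ, h8]
  shift φ X := by
    have hD' : (D : ℝ) ≠ 0 := by exact_mod_cast (by omega : D ≠ 0)
    have e : ((D : ℤ) : ℝ) / D = 1 := by push_cast; field_simp
    constructor
    · intro h
      have h1 := (σ.aut_shiftn hD).P σ hD h
      have e2 : φ + 1 + ((-D : ℤ) : ℝ) / D = φ := by
        push_cast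
        field_simp
        ring
      rw [e2] at h1
      exact σ.P_iso (shiftShiftNeg X (1 : ℤ)) h1
    · intro h
      have h1 := (σ.aut_shift hD).P σ hD h
      rw [e] at h1
      exact h1
  hom {φ φ' X Y} hφ hX hY f := by
    obtain ⟨m, h1, h2, h3⟩ := hX
    obtain ⟨m', h1', h2', h3'⟩ := hY
    have hD' : (0 : ℝ) < D := by exact_mod_cast (by omega : 0 < D)
    rcases lt_trichotomy m m' with h | h | h
    · exfalso
      have h4 : (m : ℝ) + 1 ≤ m' := by exact_mod_cast h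
      have h5 : (m : ℝ) / D + 1 / D ≤ m' / D := by
        rw [← add_div]
        exact div_le_div_of_nonneg_right h4 hD'.le
      linarith
    · subst h
      exact σ.hom_slice hD hφ h1' h2 h3 h3' f
    · exact σ.hom_zero (m := m) (m' := m) le_rfl h3.1.1 (σ.V_mono (by omega) h3'.1.2) f
  hn X := by
    obtain ⟨a, ha⟩ := σ.up X
    obtain ⟨b, hb⟩ := σ.dn X
    rcases σ.hn_aux hD hfin (b - a).toNat a X ha (σ.V_mono (by omega) hb) with h | ⟨x, y, h, _⟩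
    · exact ⟨0, 0, .one (σ.P_zero hD 0 X h)⟩
    · exact ⟨x, y, h⟩

end sec

end Coa

end Pool.Agent.Helper445_GMF
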