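import Pool.Agent.Helper445_GMF.Blocks

/-!
Mapping cones of graded matrix factorizations; the homotopy category is pretriangulated.
-/

set_option autoImplicit false
set_option linter.unusedSectionVars false

open CategoryTheory Matrix Pretriangulated

namespace Pool.Agent.Helper445_GMF

section pure

variable {A : Type} [CommRing A] [Algebra ℂ A] {I J K M : Type} [Fintype I] [DecidableEq I]
  [Fintype J] [DecidableEq J] [Fintype K] [DecidableEq K] [Fintype M] [DecidableEq M]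

theorem pu_cone (D : Matrix J J A) (E : Matrix I I A) (f : Matrix J I A) (W : A)
    (hD : D * D = W • (1 : Matrix J J A)) (hE : (sgn 1 • E) * (sgn 1 • E) = W • (1 : Matrix I I A))
    (hf : D * f = f * E) :
    (fromBlocks D f 0 (sgn 1 • E)) * (fromBlocks D f 0 (sgn 1 • E)) =
      W • (1 : Matrix (J ⊕ I) (J ⊕ I) A) := by
  rw [fromBlocks_multiply, hD, hE]
  have : D * f + f * (sgn 1 • E) = 0 := by
    rw [sgn_one, Matrix.mul_smul, hf]; simp
  rw [this, ← fromBlocks_one, fromBlocks_smul]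
  simp

theorem pu_cin (D : Matrix J J A) (E : Matrix I I A) (f : Matrix J I A) :
    (fromBlocks D f 0 (sgn 1 • E)) * (fromRows 1 0 : Matrix (J ⊕ I) J A) =
      (fromRows 1 0 : Matrix (J ⊕ I) J A) * D := by
  rw [fromBlocks_mul_fromRows, fromRows_mul]; simp

theorem pu_cpr (D : Matrix J J A) (E : Matrix I I A) (f : Matrix J I A) :
    (sgn 1 • E) * (fromCols 0 1 : Matrix I (J ⊕ I) A) =
      (fromCols 0 1 : Matrix I (J ⊕ I) A) * (fromBlocks D f 0 (sgn 1 • E)) := by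
  rw [mul_fromCols, fromCols_mul_fromBlocks]; simp

theorem pu_contr (D : Matrix J J A) :
    -(1 : Matrix (J ⊕ J) (J ⊕ J) A) =
      (fromBlocks D 1 0 (sgn 1 • D)) * (fromBlocks 0 0 (-1) 0 : Matrix (J ⊕ J) (J ⊕ J) A) +
      (fromBlocks 0 0 (-1) 0 : Matrix (J ⊕ J) (J ⊕ J) A) * (fromBlocks D 1 0 (sgn 1 • D)) := by
  rw [← fromBlocks_one, fromBlocks_neg]
  simp

theorem pu_rot1 (D : Matrix J J A) (E : Matrix I I A) (f : Matrix J I A) :
    (fromRows (fromRows 0 1) (-f) : Matrix ((J ⊕ I) ⊕ J) I A) *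
      (fromCols (fromCols 0 1) 0 : Matrix I ((J ⊕ I) ⊕ J) A) - 1 =
      (fromBlocks (fromBlocks D f 0 (sgn 1 • E)) (fromRows 1 0) 0 (sgn 1 • D)) *
        (fromBlocks 0 0 (fromCols (-1) 0) 0 : Matrix ((J ⊕ I) ⊕ J) ((J ⊕ I) ⊕ J) A)
      + (fromBlocks 0 0 (fromCols (-1) 0) 0 : Matrix ((J ⊕ I) ⊕ J) ((J ⊕ I) ⊕ J) A) *
        (fromBlocks (fromBlocks D f 0 (sgn 1 • E)) (fromRows 1 0) 0 (sgn 1 • D)) := by
  simp
  ext ((i | i) | i) ((j | j) | j) <;> simp [Matrix.one_apply]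

theorem pu_rot2 (D : Matrix J J A) (E : Matrix I I A) (f : Matrix J I A) :
    (fromRows (fromRows 0 1) (-f) : Matrix ((J ⊕ I) ⊕ J) I A) *
      (fromCols 0 1 : Matrix I (J ⊕ I) A) - (fromRows 1 0) =
      (fromBlocks (fromBlocks D f 0 (sgn 1 • E)) (fromRows 1 0) 0 (sgn 1 • D)) *
        (fromRows 0 (fromCols (-1) 0) : Matrix ((J ⊕ I) ⊕ J) (J ⊕ I) A)
      + (fromRows 0 (fromCols (-1) 0) : Matrix ((J ⊕ I) ⊕ J) (J ⊕ I) A) *
        (fromBlocks D f 0 (sgn 1 • E)) := by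
  simp
  ext ((i | i) | i) (j | j) <;> simp [Matrix.one_apply]

theorem pu_rot3 (f : Matrix J I A) :
    (-f : Matrix J I A) = (fromCols 0 1 : Matrix J ((J ⊕ I) ⊕ J) A) *
      (fromRows (fromRows 0 1) (-f) : Matrix ((J ⊕ I) ⊕ J) I A) := by
  simp

theorem pu_rot4 (D : Matrix J J A) (E : Matrix I I A) (f : Matrix J I A) (h : D * f = f * E) :
    (fromBlocks (fromBlocks D f 0 (sgn 1 • E)) (fromRows 1 0) 0 (sgn 1 • D)) *
      (fromRows (fromRows 0 1) (-f) : Matrix ((J ⊕ I) ⊕ J) I A) =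
      (fromRows (fromRows 0 1) (-f) : Matrix ((J ⊕ I) ⊕ J) I A) * (sgn 1 • E) := by
  simp [h]

theorem pu_rot5 (D : Matrix J J A) (E : Matrix I I A) (f : Matrix J I A) :
    (sgn 1 • E) * (fromCols (fromCols 0 1) 0 : Matrix I ((J ⊕ I) ⊕ J) A) =
      (fromCols (fromCols 0 1) 0 : Matrix I ((J ⊕ I) ⊕ J) A) *
      (fromBlocks (fromBlocks D f 0 (sgn 1 • E)) (fromRows 1 0) 0 (sgn 1 • D)) := by
  simp

theorem pu_rot6 (f : Matrix J I A) :
    (fromCols (fromCols 0 1) 0 : Matrix I ((J ⊕ I) ⊕ J) A) *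
      (fromRows (fromRows 0 1) (-f) : Matrix ((J ⊕ I) ⊕ J) I A) = 1 := by
  simp

theorem pu_tr3a (D : Matrix J J A) (E : Matrix I I A) (f : Matrix J I A)
    (D' : Matrix M M A) (E' : Matrix K K A) (f' : Matrix M K A) (a : Matrix K I A)
    (b : Matrix M J A) (s : Matrix M I A) (ha : E' * a = a * E) (hb : D' * b = b * D)
    (h : b * f - f' * a = D' * s + s * E) :
    (fromBlocks D' f' 0 (sgn 1 • E')) * (fromBlocks b s 0 a : Matrix (M ⊕ K) (J ⊕ I) A) =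
      (fromBlocks b s 0 a : Matrix (M ⊕ K) (J ⊕ I) A) * (fromBlocks D f 0 (sgn 1 • E)) := by
  have h' : D' * s + f' * a = b * f - s * E := by
    rw [sub_eq_iff_eq_add] at h
    rw [h]; abel
  simp [ha, hb, h', sub_eq_add_neg]

theorem pu_tr3b (b : Matrix M J A) (a : Matrix K I A) (s : Matrix M I A) :
    (fromBlocks b s 0 a : Matrix (M ⊕ K) (J ⊕ I) A) * (fromRows 1 0 : Matrix (J ⊕ I) J A) =
      (fromRows 1 0 : Matrix (M ⊕ K) M A) * b := by
  simp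

theorem pu_tr3c (b : Matrix M J A) (a : Matrix K I A) (s : Matrix M I A) :
    a * (fromCols 0 1 : Matrix I (J ⊕ I) A) =
      (fromCols 0 1 : Matrix K (M ⊕ K) A) * (fromBlocks b s 0 a : Matrix (M ⊕ K) (J ⊕ I) A) := by
  simp

end pure

variable {L : LG}

/-- the mapping cone -/
@[reducible] noncomputable def cone {X Y : MF L} (f : Matrix Y.I X.I L.A) (hf : f ∈ Z X Y) :
    MF L where
  I := Y.I ⊕ X.I
  g := Sum.elim Y.g (X.sh 1).g
  D := fromBlocks Y.D f 0 (X.sh 1).D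
  hD := Hg_blocks Y.hD' (Hg_eq hf.1 (fun i j => by
    show Y.g i - X.g j + 0 = Y.g i - (X.g j + (1 : ℤ) • L.ς) + L.ς; rw [one_smul]; abel))
    Hg_zero (X.sh 1).hD'
  sq := pu_cone Y.D X.D f L.W Y.sq (X.sh 1).sq hf.2

variable {X Y : MF L}

theorem cin_Z (f : Matrix Y.I X.I L.A) (hf : f ∈ Z X Y) :
    (fromRows 1 0 : Matrix (Y.I ⊕ X.I) Y.I L.A) ∈ Z Y (cone f hf) :=
  ⟨Hg_rows (Hg_one _) Hg_zero, pu_cin Y.D X.D f⟩

theorem cpr_Z (f : Matrix Y.I X.I L.A) (hf : f ∈ Z X Y) :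
    (fromCols 0 1 : Matrix X.I (Y.I ⊕ X.I) L.A) ∈ Z (cone f hf) (X.sh 1) :=
  ⟨Hg_cols Hg_zero (Hg_one _), pu_cpr Y.D X.D f⟩

/-- the inclusion in the cone -/
noncomputable def cin (f : Matrix Y.I X.I L.A) (hf : f ∈ Z X Y) : Y ⟶ cone f hf :=
  hm (X := Y) (Y := cone f hf) (fromRows 1 0) (cin_Z f hf)

/-- the projection from the cone -/
noncomputable def cpr (f : Matrix Y.I X.I L.A) (hf : f ∈ Z X Y) : cone f hf ⟶ X⟦(1 : ℤ)⟧ :=
  hm (X := cone f hf) (Y := X.sh 1) (fromCols 0 1) (cpr_Z f hf)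

/-- the triangle of a closed morphism -/
noncomputable def tri (f : Matrix Y.I X.I L.A) (hf : f ∈ Z X Y) : Triangle (MF L) :=
  Triangle.mk (hm f hf) (cin f hf) (cpr f hf)

/-- the isomorphism of the cone of the inclusion with the shift -/
noncomputable def rotIso (f : Matrix Y.I X.I L.A) (hf : f ∈ Z X Y) :
    X.sh 1 ≅ cone (X := Y) (Y := cone f hf) (fromRows 1 0) (cin_Z f hf) :=
  isoOf (X := X.sh 1) (Y := cone (X := Y) (Y := cone f hf) (fromRows 1 0) (cin_Z f hf))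
    (fromRows (fromRows 0 1) (-f)) (fromCols (fromCols 0 1) 0)
    ⟨Hg_rows (Hg_rows Hg_zero (Hg_one _)) (Hg_neg (ts_Z hf).1),
      pu_rot4 Y.D X.D f hf.2⟩
    ⟨Hg_cols (Hg_cols Hg_zero (Hg_one _)) Hg_zero, pu_rot5 Y.D X.D f⟩
    ⟨0, Hg_zero, by
      have h := pu_rot6 f
      have h' : (fromCols (fromCols 0 1) 0 : Matrix X.I ((Y.I ⊕ X.I) ⊕ Y.I) L.A) *
        (fromRows (fromRows 0 1) (-f) : Matrix ((Y.I ⊕ X.I) ⊕ Y.I) X.I L.A) - 1 =
        (X.sh 1).D * 0 + 0 * (X.sh 1).D := by rw [h]; simp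
      exact h'⟩
    ⟨fromBlocks 0 0 (fromCols (-1) 0) 0,
      Hg_blocks Hg_zero Hg_zero (Hg_cols (Hg_neg (Hg_one1 Y)) Hg_zero) Hg_zero,
      pu_rot1 Y.D X.D f⟩

/-- the rotation of a standard triangle -/
noncomputable def triRot (f : Matrix Y.I X.I L.A) (hf : f ∈ Z X Y) :
    (tri f hf).rotate ≅ tri (X := Y) (Y := cone f hf) (fromRows 1 0) (cin_Z f hf) := by
  refine Triangle.isoMk _ _ (Iso.refl _) (Iso.refl _) (rotIso f hf) ?_ ?_ ?_
  · exact (Category.comp_id _).trans (Category.id_comp _).symm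
  · refine Eq.trans ?_ (Category.id_comp _).symm
    exact hm_eq_iff.2 ⟨fromRows 0 (fromCols (-1) 0),
      Hg_rows Hg_zero (Hg_cols (Hg_neg (Hg_one1 Y)) Hg_zero), pu_rot2 Y.D X.D f⟩
  · show (-(hm f hf)⟦(1 : ℤ)⟧') ≫ (𝟙 Y)⟦(1 : ℤ)⟧' = (rotIso f hf).hom ≫ cpr _ _
    rw [CategoryTheory.Functor.map_id, Category.comp_id]
    exact hm_congr (pu_rot3 f)

/-- the cone of an identity is zero -/
theorem cone_id_isZero (X : MF L) : Limits.IsZero (cone (X := X) (Y := X) 1 (Z_one X)) := by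
  rw [Limits.IsZero.iff_id_eq_zero]
  refine Eq.symm (hm_eq_iff.2 ⟨fromBlocks 0 0 (-1) 0,
    Hg_blocks Hg_zero Hg_zero (Hg_neg (Hg_one1 X)) Hg_zero, ?_⟩)
  refine Eq.trans ?_ (pu_contr X.D)
  exact zero_sub _

end Pool.Agent.Helper445_GMF
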