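import Pool.Agent.Helper445_GMF.Cu9

/-!
Weights `(w, 1)` and degree `3 w`: Koszul matrix factorizations in the aisle and in the coaisle.
-/

set_option autoImplicit false
set_option linter.unusedSectionVars false

open CategoryTheory Matrix Pretriangulated Triangulated Limits MvPolynomial ZeroObject

namespace Pool.Agent.Helper445_GMF.Cu

open Bf (gg th_gg snd_gg gext gg_ext gg_inj gg_add gg_sub gg_neg tau_gg sig_gg zero_gg
  th_nsmul_tau sn_sub sn_add sn_tau sn_sig th_zero ddm gg_tsn gg_sig sn fd fd_add fd_neg fd_sum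
  fd_gam sn_d sn_dd sn_nonneg sn_pos)

section cat

universe v u

variable {C : Type u} [Category.{v} C] [Preadditive C] [HasZeroObject C] [HasShift C ℤ]
  [∀ n : ℤ, (shiftFunctor C n).Additive] [Pretriangulated C] [IsTriangulated C]

/-- morphisms from a quotient of the heart -/
theorem epi_aux {ι : Type} {S : ι → ℤ → C} (hS : Smc S) {T Y F E : C} {f : T ⟶ Y} {g : Y ⟶ F}
    {h : F ⟶ T⟦(1 : ℤ)⟧} (hT : Triangle.mk f g h ∈ distTriang C) (hT0 : Dw S 0 T)
    (hE : Vw S 1 E) (φ : F ⟶ E) (hφ : g ≫ φ = 0) : φ = 0 := by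
  have hT1 : Dw S 1 (T⟦(1 : ℤ)⟧) := by simpa using hT0.sh1 hS
  obtain ⟨c, hc⟩ := ex_y3 hT φ hφ
  rw [hc, hE _ hT1 c, comp_zero]

/-- objects of length one are letters -/
theorem len_one {ι : Type} {S : ι → ℤ → C} {Zf ell : C → ℂ} (H : Tl2 S Zf ell) {F : C}
    (hF : Hrt S F) (h0 : ¬ IsZero F) (h1 : ell F = 1) : ∃ i, Nonempty (F ≅ S i 0) := by
  obtain ⟨i, φ, hφ⟩ := H.top hF h0
  obtain ⟨K, k, p, r, hT, hK⟩ := H.epi_letter hF i φ hφ
  obtain ⟨m, hm, hm'⟩ := H.len_ex hK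
  have h2 := H.addl.add' hT
  rw [h1, H.len, hm] at h2
  have h3 : m = 0 := by
    have : (m : ℂ) = 0 := by linear_combination -h2
    exact_mod_cast this
  have hK0 : IsZero K := by
    rcases hm' with h | h
    · exact h
    · omega
  have : IsIso p := (Triangle.isZero₁_iff_isIso₂ _ hT).1 hK0
  exact ⟨i, ⟨asIso p⟩⟩

end cat

variable {w d : ℕ} {W : MvPolynomial (Fin 2) ℂ} {hW : IsWeightedHomogeneous (ac w) W d}

/-- reduction -/
theorem exists_red (hd : 0 < d) (hw : 0 < w) (B : MF (lg (ac w) d W hW)) :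
    ∃ B' : MF (lg (ac w) d W hW), Nonempty (B ≅ B') ∧ Red0 B' := by
  obtain ⟨B', h1, -, h2⟩ := rk_spec (aug (ac_pos hw) hd hW) B
  exact ⟨B', h1, (red_iff _ _ B').1 h2⟩

variable {Q : Qc hW} (H : Tl2 Q.S Zr (Psi (psi w d)))

include H

/-- objects of length two -/
theorem K4_tor {j : ℤ} (h : 3 ≤ j) (h' : j ≤ w + 1) : Ua Q.S Zr (Kk Q.hd hW (gg d j (-1))) := by
  have hw := Q.hw
  have hwd := Q.hwd
  have hP := Q.H_K4 (-1) h h'
  have hH : Hrt Q.S (Kk Q.hd hW (gg d j (-1))) := ⟨by simpa using hP.1, by simpa using hP.2⟩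
  obtain ⟨m, hm, -⟩ := H.len_ex hH
  obtain ⟨T, F, f, g, k, hT, hTT, hF⟩ := H.tors_ex m _ hH hm
  by_cases hF0 : IsZero F
  · have : IsIso f := (Triangle.isZero₃_iff_isIso₁ _ hT).1 hF0
    exact H.ua_iso (asIso f) (H.ua_of_tor hTT)
  exfalso
  obtain ⟨r, hr, hr'⟩ := H.len_ex hF.1
  obtain ⟨s, hs, hs'⟩ := H.len_ex hTT.1
  have h1 := H.addl.add' hT
  rw [Q.len2 h h', hr, hs] at h1
  have h2 : s + r = 2 := by
    have : ((s + r : ℕ) : ℂ) = 2 := by push_cast; exact h1.symm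
    exact_mod_cast this
  have h3 : 0 < r := hr'.resolve_left hF0
  by_cases hT0 : IsZero T
  · have : IsIso g := (Triangle.isZero₁_iff_isIso₂ _ hT).1 hT0
    refine H.fre_not (H.fre_iso (asIso g).symm hF) (hpK hwd Q.hw0 Q.hd _ ?_ ?_)
    · rw [th_gg]; omega
    · rw [th_gg]; omega
  have h4 := hs'.resolve_left hT0
  have hr1 : r = 1 := by omega
  rw [hr1, Nat.cast_one] at hr
  obtain ⟨i, ⟨e⟩⟩ := len_one H hF.1 hF0 hr
  have hg : g ≫ e.hom ≠ 0 := by
    intro h0
    have h5 : e.hom = 0 := epi_aux Q.smc hT hTT.1.1 (Vw.letter Q.smc (by norm_num) i) _ h0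
    apply hF0
    rw [IsZero.iff_id_eq_zero, ← e.hom_inv_id, h5, zero_comp]
  rcases i with i | p
  · have hi := i.2
    have hij : (1 - ((i : ℕ) : ℤ)) = j - w := by
      by_contra hn
      refine hg (KK_zero Q (fun m h1 => ?_) (g ≫ e.hom))
      have hm := ddm d m
      omega
    refine H.fre_not (H.fre_iso e hF) ?_
    show Hp 0 (Zr (Kk Q.hd hW (gg d (1 - ((i : ℕ) : ℤ)) 0)))
    refine hpK hwd Q.hw0 Q.hd _ ?_ ?_
    · rw [th_gg]; omega
    · rw [th_gg]; omega
  · refine hg (KE_zero Q p (fun m h1 => ?_) (g ≫ e.hom))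
    have hm := ddm d m
    omega

/-- Koszul matrix factorizations in the aisle -/
theorem ua_K0 {m : Gd d} (h : 3 - (d : ℤ) < th d m) (h' : m ≠ gg d 2 (-1)) :
    Ua Q.S Zr (Kk Q.hd hW m) := by
  have hw := Q.hw
  have hwd := Q.hwd
  obtain ⟨j, k, h1, h2, rfl⟩ := exists_gg Q.hwd Q.hd m
  rw [th_gg] at h
  have hk := ddm d k
  rcases le_or_gt 2 j with h3 | h3
  · rcases lt_trichotomy k (-1) with h4 | h4 | h4
    · exfalso
      have : (d : ℤ) * k ≤ d * (-2) := mul_le_mul_of_nonneg_left (by omega) (by omega)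
      omega
    · subst h4
      refine K4_tor H ?_ h2
      by_contra hn
      exact h' (by rw [show j = 2 by omega])
    · exact H.ua_of_dw ((Q.H_Kk (p := k + 1) (Or.inr ⟨h3, h2, rfl⟩)).1.mono (by omega))
  · rcases lt_trichotomy k 0 with h4 | h4 | h4
    · exfalso; omega
    · subst h4
      rw [mul_zero, add_zero] at h
      obtain ⟨i, hi⟩ := Q.K_letter (j := j) (by omega) (by omega)
      rw [← hi]
      refine H.ua_of_tor (H.tor_letter _ ?_)
      rw [hi]
      refine hpK hwd Q.hw0 Q.hd _ ?_ ?_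
      · rw [th_gg]; omega
      · rw [th_gg]; omega
    · exact H.ua_of_dw ((Q.H_Kk (p := k) (Or.inl ⟨h1, by omega, rfl⟩)).1.mono (by omega))

/-- Koszul matrix factorizations in the coaisle -/
theorem va_K0 {m : Gd d} (h : th d m ≤ 3 - (d : ℤ)) (h' : m ≠ gg d (2 - 2 * w) 0) :
    Ro (Ua Q.S Zr) (Kk Q.hd hW m) := by
  have hw := Q.hw
  have hwd := Q.hwd
  obtain ⟨j, k, h1, h2, rfl⟩ := exists_gg Q.hwd Q.hd m
  rw [th_gg] at h
  have hk := ddm d k
  rcases le_or_gt 2 j with h3 | h3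
  · rcases le_or_gt k (-2) with h4 | h4
    · exact H.ro_of_vw ((Q.H_Kk (p := k + 1) (Or.inr ⟨h3, h2, rfl⟩)).2.mono (by omega))
    · exfalso
      have : (d : ℤ) * (-1) ≤ d * k := mul_le_mul_of_nonneg_left (by omega) (by omega)
      omega
  · rcases lt_trichotomy k 0 with h4 | h4 | h4
    · exact H.ro_of_vw ((Q.H_Kk (p := k) (Or.inl ⟨h1, by omega, rfl⟩)).2.mono (by omega))
    · subst h4
      rw [mul_zero, add_zero] at h
      have h5 : j ≠ 2 - 2 * w := fun h5 => h' (by rw [h5])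
      obtain ⟨i, hi⟩ := Q.K_letter (j := j) (by omega) (by omega)
      rw [← hi]
      refine H.ro_of_fre (H.fre_letter _ ?_)
      rw [hi]
      refine nhpK hwd Q.hw0 Q.hd _ ?_ ?_
      · rw [th_gg]; omega
      · rw [th_gg]; omega
    · exfalso; omega

theorem nonempty_gens {B : MF (lg (ac w) d W hW)} (hB : Hrt Q.S B) (h0 : ¬ IsZero B) :
    Nonempty B.I := by
  by_contra hc
  rw [not_nonempty_iff] at hc
  obtain ⟨r, hr, h⟩ := H.len_ex hB
  have h1 : Psi (psi w d) B = 0 := Finset.sum_of_isEmpty _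
  rw [h1] at hr
  have h2 : r = 0 := by exact_mod_cast hr.symm
  have h3 := h.resolve_left h0
  omega

/-- the degrees of the generators of an object of the coaisle -/
theorem gens_up {B : MF (lg (ac w) d W hW)} (hR : Red0 B) (hB : Ro (Ua Q.S Zr) B) (j : B.I) :
    B.g j = gg d (1 - w) 1 ∨ th d (B.g j) ≤ w + 1 := by
  have hw := Q.hw
  have hwd := Q.hwd
  by_contra hn
  push Not at hn
  obtain ⟨ψ, hψ⟩ := hom_K Q.hd Q.h2 hR (j := j) rfl rfl
  refine hψ (hB _ (ua_K0 H ?_ ?_) ψ)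
  · rw [th_sub, th_sub, th_add, th_add, th_sig, th_tau, th_w]
    have := hn.2
    omega
  · intro h3
    apply hn.1
    have h4 : B.g j = gg d 2 (-1) - tau d - w • tau d + sig d + sig d := by
      rw [← h3]; abel
    rw [h4, gg_twssn]
    congr 1

/-- the degrees of the generators of a quotient -/
theorem gens_low {T Y F : MF (lg (ac w) d W hW)} (hY : Red0 Y) (hR : Red0 F) {f : T ⟶ Y}
    {g : Y ⟶ F} {h : F ⟶ T⟦(1 : ℤ)⟧} (hT : Triangle.mk f g h ∈ distTriang _)
    (hTT : Ua Q.S Zr T) (j : F.I) (hj : ∀ i, Y.g i ≠ F.g j) :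
    ¬ Ro (Ua Q.S Zr) (Kk Q.hd hW (F.g j - sig d)) := by
  intro h5
  obtain ⟨φ, hφ⟩ := K_hom Q.hd Q.h2 hR (j := j) rfl
  have h4 : g ≫ φ = 0 := K_hom_zero Q.hd Q.h2 hY hj _
  obtain ⟨c, hc⟩ := ex_y3 hT φ h4
  obtain ⟨e2⟩ := K_sh (hW := hW) Q.hd (F.g j - sig d)
  rw [sub_add_cancel] at e2
  have h7 : c ≫ e2.inv = 0 := by
    obtain ⟨c', hc'⟩ := (shiftFunctor (MF (lg (ac w) d W hW)) (1 : ℤ)).map_surjective
      (c ≫ e2.inv)
    rw [← hc', h5 T hTT c', Functor.map_zero]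
  have h8 : c = 0 := by
    rw [← cancel_mono e2.inv, h7, zero_comp]
  apply hφ
  rw [hc, h8, comp_zero]

/-- the position of the distinguished Koszul matrix factorization -/
theorem P_fre : Fre Q.S Zr (Kk Q.hd hW (gg d (2 - 2 * w) 0)) := by
  have hw := Q.hw
  have hwd := Q.hwd
  have hPH : Hrt Q.S (Kk Q.hd hW (gg d (2 - 2 * w) 0)) := by
    have := Q.H_K3 0
    exact ⟨this.1, this.2⟩
  obtain ⟨m, hm, -⟩ := H.len_ex hPH
  obtain ⟨T, F', f, g', h', hd', hT, hF'⟩ := H.tors_ex m _ hPH hm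
  by_cases hT0 : IsZero T
  · have : IsIso g' := (Triangle.isZero₁_iff_isIso₂ _ hd').1 hT0
    exact H.fre_iso (asIso g').symm hF'
  exfalso
  obtain ⟨F, ⟨e⟩, hR⟩ := exists_red Q.hd Q.hw0 F'
  have hF : Fre Q.S Zr F := H.fre_iso e hF'
  obtain ⟨g, h, hT3⟩ : ∃ (g : Kk Q.hd hW (gg d (2 - 2 * w) 0) ⟶ F) (h : F ⟶ T⟦(1 : ℤ)⟧),
      Triangle.mk f g h ∈ distTriang _ := ⟨_, _, dist_third hd' e⟩
  have hT1 : Dw Q.S 1 (T⟦(1 : ℤ)⟧) := by simpa using hT.1.1.sh1 Q.smc
  have hPr := Kk_red (hW := hW) Q.hd Q.h2 (gg d (2 - 2 * w) 0)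
  have hPn : ¬ Hp 0 (Zr (Kk Q.hd hW (gg d (2 - 2 * w) 0))) := by
    refine nhpK hwd Q.hw0 Q.hd _ ?_ ?_
    · rw [th_gg]; omega
    · rw [th_gg]; omega
  have hZ := H.add.add' hT3
  have hTp := H.tor_hp hT hT0
  have hF0 : ¬ IsZero F := by
    intro h0
    rw [H.add.z_zero h0, add_zero] at hZ
    rw [hZ] at hPn
    exact hPn hTp
  have hlow : ∀ j, F.g j = gg d 2 (-1) ∨ F.g j = gg d (1 - 2 * w) 1 ∨ F.g j = gg d 1 0 ∨
      F.g j = gg d (2 - 2 * w) 1 ∨ 3 < th d (F.g j) := by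
    intro j
    by_contra hn
    push Not at hn
    obtain ⟨n1, n2, n3, n4, n5⟩ := hn
    have n0 : F.g j ≠ gg d (2 - 2 * w) 0 := by
      intro h3
      obtain ⟨φ, hφ⟩ := K_hom Q.hd Q.h2 hR h3
      have h4 : g ≫ φ ≠ 0 := fun hz => hφ (epi_aux Q.smc hT3 hT.1.1 hPH.2 φ hz)
      have h5 : IsIso (g ≫ φ) := (KK_end Q.hd hw hwd _ (g ≫ φ)).resolve_left h4
      have h6 : f ≫ g = 0 := comp_distTriang_mor_zero₁₂ _ hT3
      have h7 : f = 0 := by
        rw [← cancel_mono (g ≫ φ), ← Category.assoc, h6, zero_comp, zero_comp]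
      have R := rot_of_distTriang _ (rot_of_distTriang _ hT3)
      have R' : Triangle.mk h (-f⟦(1 : ℤ)⟧') (-g⟦(1 : ℤ)⟧') ∈ distTriang _ := R
      obtain ⟨c, hc⟩ := ex_c2 R' (𝟙 _) (by
        rw [h7, Functor.map_zero, neg_zero, comp_zero])
      have h8 : c = 0 := hF.1.2 _ hT1 c
      rw [h8, zero_comp] at hc
      have h9 : IsZero (T⟦(1 : ℤ)⟧) := by
        rw [IsZero.iff_id_eq_zero]
        exact hc
      exact hT0 (((shiftFunctor _ (-1 : ℤ)).map_isZero h9).of_iso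
        (shiftShiftNeg T (1 : ℤ)).symm)
    refine gens_low H hPr hR hT3 (H.ua_of_tor hT) j ?_ (va_K0 H ?_ ?_)
    · intro i hi
      rcases Kk_gens (hW := hW) Q.hd (gg d (2 - 2 * w) 0) i with h5 | h5 | h5 | h5
      · exact n0 (hi.symm.trans h5)
      · apply n2
        rw [← hi, h5, gg_tsn]
        congr 1; ring
      · apply n1
        rw [← hi, h5, gg_wsn]
        exact gg_ext 1 (by push_cast [hwd]; ring) (by norm_num)
      · apply n3
        rw [← hi, h5, gg_twssn]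
        exact gg_ext 1 (by push_cast [hwd]; ring) (by norm_num)
    · rw [th_sub, th_sig]
      omega
    · intro h6
      apply n4
      rw [sub_eq_iff_eq_add] at h6
      rw [h6, gg_sig]
      norm_num
  have hup := gens_up H hR (H.ro_of_fre hF)
  have hpos : 0 < ∑ i, sn d (2 - w) (th d (F.g i)) := by
    refine pair_pos hwd Q.hw0 Q.hc hR (nonempty_gens H hF.1 hF0)
      (fun g => sn d (2 - w) (th d g)) fun i j hij => ?_
    have hw' : (2 : ℝ) ≤ w := by exact_mod_cast hw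
    have key : 2 - (w : ℤ) ≤ th d (F.g i) ∧ th d (F.g i) ≤ 2 := by
      have ht : th d (F.g j) = th d (F.g i) + w := by
        rw [hij, th_add, th_gg]; omega
      have hu : F.g i = gg d 1 0 ∨ th d (F.g i) ≤ 1 := by
        rcases hup j with h1 | h1
        · left
          rw [hij, ← eq_sub_iff_add_eq, gg_sub] at h1
          rw [h1]
          congr 1; ring
        · right; omega
      rcases hu with hu | hu
      · rw [hu, th_gg]; omega
      · rcases hlow i with h1 | h1 | h1 | h1 | h1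
        · exfalso
          have h2 : F.g j = gg d (2 - w) 0 := by
            rw [hij, h1, gg_add]
            congr 1 <;> ring
          rcases hlow j with h3 | h3 | h3 | h3 | h3
          · rw [h2] at h3
            obtain ⟨m, h4, h5⟩ := gg_inj Q.hd h3
            have := ddm d m
            omega
          · rw [h2] at h3
            obtain ⟨m, h4, h5⟩ := gg_inj Q.hd h3
            have := ddm d m
            omega
          · rw [h2] at h3
            obtain ⟨m, h4, h5⟩ := gg_inj Q.hd h3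
            have := ddm d m
            omega
          · rw [h2] at h3
            obtain ⟨m, h4, h5⟩ := gg_inj Q.hd h3
            have := ddm d m
            omega
          · rw [h2, th_gg] at h3
            omega
        · rw [h1, th_gg]; omega
        · rw [h1, th_gg]; omega
        · rw [h1, th_gg] at hu ⊢; omega
        · exfalso; omega
    obtain ⟨k1, k2⟩ := key
    have k1' : (2 - w : ℝ) ≤ th d (F.g i) := by exact_mod_cast k1
    have k2' : (th d (F.g i) : ℝ) ≤ 2 := by exact_mod_cast k2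
    refine pr_pos hwd Q.hw0 (t := th d (F.g i)) (t' := th d (F.g j)) ?_ (by linarith) (by linarith)
    rw [hij, th_add, th_gg]; omega
  refine H.fre_not hF (hp_zero.2 (Or.inl ?_))
  rw [Zr_im, fd_ZG]
  exact hpos

/-- Koszul matrix factorizations in the coaisle -/
theorem va_K {m : Gd d} (h : th d m ≤ 3 - (d : ℤ)) : Ro (Ua Q.S Zr) (Kk Q.hd hW m) := by
  by_cases h' : m = gg d (2 - 2 * w) 0
  · rw [h']
    exact H.ro_of_fre (P_fre H)
  · exact va_K0 H h h'

end Pool.Agent.Helper445_GMF.Cu
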