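import Pool.Agent.Helper445_GMF.Cu10

/-!
Weights `(w, 1)` and degree `3 w`: the remaining Koszul matrix factorization of the aisle.
-/

set_option autoImplicit false
set_option linter.unusedSectionVars false

open CategoryTheory Matrix Pretriangulated Triangulated Limits MvPolynomial ZeroObject

namespace Pool.Agent.Helper445_GMF.Cu

open Bf (gg th_gg snd_gg gext gg_ext gg_inj gg_add gg_sub gg_neg tau_gg sig_gg zero_gg
  th_nsmul_tau sn_sub sn_add sn_tau sn_sig th_zero ddm gg_tsn gg_sig sn fd fd_add fd_neg fd_sum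
  fd_gam sn_d sn_dd sn_nonneg sn_pos)

variable {w d : ℕ} {W : MvPolynomial (Fin 2) ℂ} {hW : IsWeightedHomogeneous (ac w) W d}

theorem card_aux {g : (Fin 1 ⊕ Fin 1) ⊕ (Fin 1 ⊕ Fin 1) → Gd d} {a b c e : Gd d}
    (h1 : ∀ i, g (Sum.inl (Sum.inl i)) = a) (h2 : ∀ i, g (Sum.inl (Sum.inr i)) = b)
    (h3 : ∀ i, g (Sum.inr (Sum.inl i)) = c) (h4 : ∀ i, g (Sum.inr (Sum.inr i)) = e)
    (hab : a ≠ c) (hac : b ≠ c) (hbc : e ≠ c) :
    Fintype.card {j // g j = c} ≤ 1 := by
  rw [Fintype.card_le_one_iff_subsingleton]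
  constructor
  rintro ⟨(i | i) | (i | i), hi⟩ ⟨(j | j) | (j | j), hj⟩
  all_goals simp only [h1, h2, h3, h4] at hi hj
  all_goals try exact absurd hi hab
  all_goals try exact absurd hi hac
  all_goals try exact absurd hi hbc
  all_goals try exact absurd hj hab
  all_goals try exact absurd hj hac
  all_goals try exact absurd hj hbc
  have : i = j := Subsingleton.elim _ _
  subst this
  rfl

theorem Y_card (Q : Qc hW) :
    Fintype.card {j : (Kk Q.hd hW (gg d 2 (-1))).I //
      (Kk Q.hd hW (gg d 2 (-1))).g j = gg d (2 - w) 0} ≤ 1 := by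
  have hw := Q.hw
  have hwd := Q.hwd
  refine card_aux (a := gg d 2 (-1)) (b := gg d 1 0) (c := gg d (2 - w) 0) (e := gg d (1 - w) 1)
    (fun i => Kk_g1 Q.hd _ i) (fun i => (Kk_g2 Q.hd _ i).trans ?_)
    (fun i => (Kk_g3 Q.hd _ i).trans ?_) (fun i => (Kk_g4 Q.hd _ i).trans ?_) ?_ ?_ ?_
  · rw [gg_tsn]; norm_num
  · rw [gg_wsn]; norm_num
  · rw [gg_twssn]; norm_num
  · intro h
    obtain ⟨m, h1, h2⟩ := gg_inj Q.hd h
    omega
  · intro h
    obtain ⟨m, h1, h2⟩ := gg_inj Q.hd h
    have := ddm d m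
    omega
  · intro h
    obtain ⟨m, h1, h2⟩ := gg_inj Q.hd h
    omega

variable {Q : Qc hW} (H : Tl2 Q.S Zr (Psi (psi w d)))

include H

theorem K2_tor : Ua Q.S Zr (Kk Q.hd hW (gg d 2 (-1))) := by
  classical
  have hw := Q.hw
  have hwd := Q.hwd
  have hP := Q.H_K2 (-1)
  have hYH : Hrt Q.S (Kk Q.hd hW (gg d 2 (-1))) := ⟨by simpa using hP.1, by simpa using hP.2⟩
  obtain ⟨m, hm, -⟩ := H.len_ex hYH
  obtain ⟨T, F', f, g', h', hd', hT, hF'⟩ := H.tors_ex m _ hYH hm
  by_cases hF0' : IsZero F'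
  · have : IsIso f := (Triangle.isZero₃_iff_isIso₁ _ hd').1 hF0'
    exact H.ua_iso (asIso f) (H.ua_of_tor hT)
  exfalso
  obtain ⟨F, ⟨e⟩, hR⟩ := exists_red Q.hd Q.hw0 F'
  have hF : Fre Q.S Zr F := H.fre_iso e hF'
  have hF0 : ¬ IsZero F := fun h0 => hF0' (h0.of_iso e)
  obtain ⟨g, h, hT3⟩ : ∃ (g : Kk Q.hd hW (gg d 2 (-1)) ⟶ F) (h : F ⟶ T⟦(1 : ℤ)⟧),
      Triangle.mk f g h ∈ distTriang _ := ⟨_, _, dist_third hd' e⟩
  have hYr := Kk_red (hW := hW) Q.hd Q.h2 (gg d 2 (-1))
  have hg : g ≠ 0 := by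
    intro h0
    apply hF0
    rw [IsZero.iff_id_eq_zero]
    exact epi_aux Q.smc hT3 hT.1.1 hF.1.2 _ (by rw [h0, zero_comp])
  have hlow : ∀ j, F.g j = gg d 2 (-1) ∨ F.g j = gg d 1 0 ∨ F.g j = gg d (2 - w) 0 ∨
      F.g j = gg d (1 - w) 1 ∨ 3 < th d (F.g j) := by
    intro j
    by_contra hn
    push Not at hn
    obtain ⟨n1, n2, n3, n4, n5⟩ := hn
    refine gens_low H hYr hR hT3 (H.ua_of_tor hT) j ?_ (va_K H ?_)
    · intro i hi
      rcases Kk_gens (hW := hW) Q.hd (gg d 2 (-1)) i with h5 | h5 | h5 | h5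
      · exact n1 (hi.symm.trans h5)
      · apply n2
        rw [← hi, h5, gg_tsn]
        norm_num
      · apply n3
        rw [← hi, h5, gg_wsn]
        norm_num
      · apply n4
        rw [← hi, h5, gg_twssn]
        norm_num
    · rw [th_sub, th_sig]
      omega
  have hup := gens_up H hR (H.ro_of_fre hF)
  have key : ∀ i j, F.g j = F.g i + gg d (-w) 1 → F.g i = gg d 2 (-1) ∧ F.g j = gg d (2 - w) 0 ∨
      F.g i = gg d 1 0 ∧ F.g j = gg d (1 - w) 1 := by
    intro i j hij
    have ht : th d (F.g j) = th d (F.g i) + w := by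
      rw [hij, th_add, th_gg]; omega
    have hu : F.g i = gg d 1 0 ∨ th d (F.g i) ≤ 1 := by
      rcases hup j with h1 | h1
      · left
        rw [hij, ← eq_sub_iff_add_eq, gg_sub] at h1
        rw [h1]
        congr 1; ring
      · right; omega
    have hr : F.g i = gg d 1 0 → F.g i = gg d 1 0 ∧ F.g j = gg d (1 - w) 1 := by
      intro h1
      refine ⟨h1, ?_⟩
      rw [hij, h1, gg_add]
      congr 1
    rcases hu with hu | hu
    · exact Or.inr (hr hu)
    · rcases hlow i with h1 | h1 | h1 | h1 | h1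
      · left
        refine ⟨h1, ?_⟩
        rw [hij, h1, gg_add]
        congr 1
      · exact Or.inr (hr h1)
      · exfalso
        have h2 : F.g j = gg d (2 - 2 * w) 1 := by
          rw [hij, h1, gg_add]
          congr 1
          ring
        rcases hlow j with h3 | h3 | h3 | h3 | h3
        · rw [h2] at h3
          obtain ⟨m, h4, h5⟩ := gg_inj Q.hd h3
          have := ddm d m
          omega
        · rw [h2] at h3
          obtain ⟨m, h4, h5⟩ := gg_inj Q.hd h3
          omega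
        · rw [h2] at h3
          obtain ⟨m, h4, h5⟩ := gg_inj Q.hd h3
          omega
        · rw [h2] at h3
          obtain ⟨m, h4, h5⟩ := gg_inj Q.hd h3
          have := ddm d m
          omega
        · rw [h2, th_gg] at h3
          omega
      · rw [h1, th_gg] at hu
        omega
      · omega
  obtain ⟨π, hπ⟩ := exists_pairs hwd Q.hw0 Q.hc hR
  -- the two types of pairs
  have ne1 : gg d 2 (-1) ≠ gg d 1 0 := by
    intro h
    obtain ⟨m, h1, h2⟩ := gg_inj Q.hd h
    omega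
  have ne2 : gg d 2 (-1) ≠ gg d (1 - w) 1 := by
    intro h
    obtain ⟨m, h1, h2⟩ := gg_inj Q.hd h
    have := ddm d m
    omega
  have ne3 : gg d (2 - w) 0 ≠ gg d 1 0 := by
    intro h
    obtain ⟨m, h1, h2⟩ := gg_inj Q.hd h
    have := ddm d m
    omega
  have ne4 : gg d (2 - w) 0 ≠ gg d (1 - w) 1 := by
    intro h
    obtain ⟨m, h1, h2⟩ := gg_inj Q.hd h
    omega
  set s1 := sn d (2 - w) (4 - 3 * w) + sn d (2 - w) (4 - 2 * w) with hs1
  set s2 := sn d (2 - w) 2 + sn d (2 - w) (w + 2) with hs2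
  let P : F.I → Prop := fun i => F.g i = gg d 2 (-1) ∨ F.g i = gg d (2 - w) 0
  have t1 : th d (gg d 2 (-1)) = 4 - 3 * w := by rw [th_gg]; omega
  have t2 : th d (gg d (2 - w) 0) = 4 - 2 * w := by rw [th_gg]; omega
  have t3 : th d (gg d 1 0) = 2 := by rw [th_gg]; omega
  have t4 : th d (gg d (1 - w) 1) = w + 2 := by rw [th_gg]; omega
  have hcase : ∀ i, sn d (2 - w) (th d (F.g i)) + sn d (2 - w) (th d (F.g (π i))) =
      if P i then s1 else s2 := by
    intro i
    rcases hπ i with h1 | h1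
    · rcases key _ _ h1 with ⟨h2, h3⟩ | ⟨h2, h3⟩
      · rw [if_pos (Or.inr h3), h2, h3, t1, t2, hs1]; ring
      · rw [if_neg (by
          rintro (h4 | h4)
          · exact ne2 (h4.symm.trans h3)
          · exact ne4 (h4.symm.trans h3)), h2, h3, t3, t4, hs2]; ring
    · rcases key _ _ h1 with ⟨h2, h3⟩ | ⟨h2, h3⟩
      · rw [if_pos (Or.inl h2), h2, h3, t1, t2, hs1]
      · rw [if_neg (by
          rintro (h4 | h4)
          · exact ne1 (h4.symm.trans h2)
          · exact ne3 (h4.symm.trans h2)), h2, h3, t3, t4, hs2]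
  have hN : (Finset.univ.filter fun i => F.g i = gg d (2 - w) 0).card ≤ 1 := by
    have h1 := (card_le Q.hd hYr hR Q.h2 (gg d (2 - w) 0) g (fun φ => epi_aux Q.smc hT3 hT.1.1
      (Q.H_Kk (p := 0) (Or.inl ⟨by omega, by omega, rfl⟩)).2 φ)).trans (Y_card Q)
    rwa [Fintype.card_subtype] at h1
  have hA : (Finset.univ.filter P).card ≤ 2 := by
    have hsub : Finset.univ.filter P ⊆ (Finset.univ.filter fun i => F.g i = gg d (2 - w) 0) ∪
        (Finset.univ.filter fun i => F.g i = gg d (2 - w) 0).map π.symm.toEmbedding := by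
      intro i hi
      rw [Finset.mem_filter] at hi
      rw [Finset.mem_union, Finset.mem_map_equiv, Finset.mem_filter, Finset.mem_filter]
      rcases hi.2 with h1 | h1
      · right
        refine ⟨Finset.mem_univ _, ?_⟩
        show F.g (π i) = _
        rcases hπ i with h2 | h2
        · rcases key _ _ h2 with ⟨h3, h4⟩ | ⟨h3, h4⟩
          · exfalso
            rw [h1] at h4
            obtain ⟨m, h5, h6⟩ := gg_inj Q.hd h4
            omega
          · exact absurd (h1.symm.trans h4) ne2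
        · rcases key _ _ h2 with ⟨h3, h4⟩ | ⟨h3, h4⟩
          · exact h4
          · exact absurd (h1.symm.trans h3) ne1
      · left
        exact ⟨Finset.mem_univ _, h1⟩
    refine (Finset.card_le_card hsub).trans ((Finset.card_union_le _ _).trans ?_)
    rw [Finset.card_map]
    omega
  have hB : 2 ≤ (Finset.univ.filter fun i => ¬ P i).card := by
    obtain ⟨i0, hi0⟩ : ∃ i, F.g i = gg d (1 - w) 1 := by
      by_contra hn
      push Not at hn
      refine hg (hom_K_zero Q.hd Q.h2 hR (fun j hj => hn j ?_) g)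
      rw [hj, gg_twssn]
      norm_num
    have h1 : F.g (π i0) = gg d 1 0 := by
      rcases hπ i0 with h2 | h2
      · rcases key _ _ h2 with ⟨h3, h4⟩ | ⟨h3, h4⟩
        · exact absurd (h4.symm.trans hi0) ne4
        · exact h3
      · rcases key _ _ h2 with ⟨h3, h4⟩ | ⟨h3, h4⟩
        · exact absurd (h3.symm.trans hi0) ne2
        · exfalso
          rw [hi0] at h3
          obtain ⟨m, h5, h6⟩ := gg_inj Q.hd h3
          omega
    have h2 : ({i0, π i0} : Finset F.I) ⊆ Finset.univ.filter fun i => ¬ P i := by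
      intro i hi
      rw [Finset.mem_insert, Finset.mem_singleton] at hi
      rw [Finset.mem_filter]
      refine ⟨Finset.mem_univ _, ?_⟩
      rcases hi with rfl | rfl
      · rintro (h4 | h4)
        · exact ne2 (h4.symm.trans hi0)
        · exact ne4 (h4.symm.trans hi0)
      · rintro (h4 | h4)
        · exact ne1 (h4.symm.trans h1)
        · exact ne3 (h4.symm.trans h1)
    refine le_trans ?_ (Finset.card_le_card h2)
    rw [Finset.card_pair]
    intro h3
    rw [← h3, hi0] at h1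
    obtain ⟨m, h5, h6⟩ := gg_inj Q.hd h1
    omega
  have hs12 := pr_two hwd Q.hw0
  have hs1n := pr_neg hwd hw
  rw [← hs1] at hs12 hs1n
  rw [← hs2] at hs12
  have hsum := pair_sum π fun i => sn d (2 - w) (th d (F.g i))
  rw [Finset.sum_congr rfl (fun i _ => hcase i), Finset.sum_ite, Finset.sum_const,
    Finset.sum_const, nsmul_eq_mul, nsmul_eq_mul] at hsum
  have hA' : ((Finset.univ.filter P).card : ℝ) ≤ 2 := by exact_mod_cast hA
  have hB' : (2 : ℝ) ≤ ((Finset.univ.filter fun i => ¬ P i).card : ℝ) := by exact_mod_cast hB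
  refine H.fre_not hF (hp_zero.2 (Or.inl ?_))
  rw [Zr_im, fd_ZG]
  nlinarith

/-- Koszul matrix factorizations in the aisle -/
theorem ua_K {m : Gd d} (h : 3 - (d : ℤ) < th d m) : Ua Q.S Zr (Kk Q.hd hW m) := by
  by_cases h' : m = gg d 2 (-1)
  · rw [h']
    exact K2_tor H
  · exact ua_K0 H h h'

end Pool.Agent.Helper445_GMF.Cu
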