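import Pool.Agent.Helper445_GMF.Cu11

/-!
The criterion with a rotated central charge.
-/

set_option autoImplicit false
set_option linter.unusedSectionVars false

open CategoryTheory Matrix Pretriangulated Triangulated Limits MvPolynomial ZeroObject

namespace Pool.Agent.Helper445_GMF

section rot

variable {n : ℕ} {a : Fin n → ℕ} {d : ℕ} {W : MvPolynomial (Fin n) ℂ}
  {hW : IsWeightedHomogeneous a W d}

theorem ts_comm (X : MF (lg a d W hW)) (g h : Gd d) :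
    Nonempty ((X.ts g 1 (one_mul 1)).ts h 1 (one_mul 1) ≅
      (X.ts h 1 (one_mul 1)).ts g 1 (one_mul 1)) := by
  obtain ⟨e1⟩ := ts_iso X (a := g) (b := h) (c := g + h) rfl
  obtain ⟨e2⟩ := ts_iso X (a := h) (b := g) (c := g + h) (add_comm _ _)
  exact ⟨e1 ≪≫ e2.symm⟩

variable {U : MF (lg a d W hW) → Prop} (g₀ : Gd d)
  (iso : ∀ {X Y : MF (lg a d W hW)}, (X ≅ Y) → U X → U Y)

theorem ro_tw {X : MF (lg a d W hW)} (h : Ro U (X.ts g₀ 1 (one_mul 1))) :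
    Ro (fun Y => U (Y.ts g₀ 1 (one_mul 1))) X := by
  intro Y hY f
  have h2 : ∀ f : Y.ts g₀ 1 (one_mul 1) ⟶ X.ts g₀ 1 (one_mul 1), f = 0 := fun f => h _ hY f
  exact hz_of_ts (L := lg a d W hW) (X := Y) (Y := X) (g := g₀) h2 f

include iso in
theorem tw_ro {X : MF (lg a d W hW)} (h : Ro (fun Y => U (Y.ts g₀ 1 (one_mul 1))) X) :
    Ro U (X.ts g₀ 1 (one_mul 1)) := by
  intro Y hY f
  obtain ⟨e⟩ := ts_ts_iso' Y g₀
  have h3 : U ((Y.ts (-g₀) 1 (one_mul 1)).ts g₀ 1 (one_mul 1)) := iso e.symm hY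
  have h4 : ∀ f : Y.ts (-g₀) 1 (one_mul 1) ⟶ X, f = 0 := fun f => h _ h3 f
  have h2 : ∀ f : Y.ts (-g₀) 1 (one_mul 1) ⟶
      (X.ts g₀ 1 (one_mul 1)).ts (-g₀) 1 (one_mul 1), f = 0 :=
    hz_iso ⟨Iso.refl _⟩ (ts_ts_iso X g₀) h4
  exact hz_of_ts (L := lg a d W hW) (X := Y) (Y := X.ts g₀ 1 (one_mul 1)) (g := -g₀) h2 f

/-- a t-structure which is positive with respect to a rotated central charge -/
def TS.rot
    (m0 : ∀ X : MF (lg a d W hW), U X → U (X.ts (sig d) 1 (one_mul 1)))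
    (tr : ∀ X : MF (lg a d W hW), ∃ (A B : MF (lg a d W hW)) (f : A ⟶ X) (g : X ⟶ B)
      (h : B ⟶ A⟦(1 : ℤ)⟧), Triangle.mk f g h ∈ distTriang (MF (lg a d W hW)) ∧ U A ∧ Ro U B)
    (up : ∀ X : MF (lg a d W hW), ∃ k : ℤ, U (X.ts (k • sig d) 1 (one_mul 1)))
    (dn : ∀ X : MF (lg a d W hW), ∃ k : ℤ, Ro U (X.ts (k • sig d) 1 (one_mul 1)))
    (m1 : ∀ X : MF (lg a d W hW), U X → U (X.ts (tau d) 1 (one_mul 1)))
    (pos : ∀ X : MF (lg a d W hW), U X → Ro U (X.ts (-tau d) 1 (one_mul 1)) → ¬ IsZero X →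
      Ph ((th d g₀ : ℝ) / d) (2 / d + (th d g₀ : ℝ) / d) (ZG X)) : TS hW where
  U X := U (X.ts g₀ 1 (one_mul 1))
  iso e h := iso (tsI g₀ e) h
  m0 X h := by
    obtain ⟨e⟩ := ts_comm X g₀ (sig d)
    exact iso e (m0 _ h)
  tr X := by
    obtain ⟨A, B, f, g, h, hd, hA, hB⟩ := tr (X.ts g₀ 1 (one_mul 1))
    obtain ⟨f2, g2, h2, hd2⟩ := ts_dist' (-g₀) _ hd
    obtain ⟨e⟩ := ts_ts_iso X g₀
    obtain ⟨eA⟩ := ts_ts_iso' A g₀
    obtain ⟨eB⟩ := ts_ts_iso' B g₀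
    exact ⟨_, _, _, _, _, dist_mid hd2 e, iso eA.symm hA, ro_tw g₀ (Ro_of_iso eB.symm hB)⟩
  up X := by
    obtain ⟨k, hk⟩ := up (X.ts g₀ 1 (one_mul 1))
    obtain ⟨e⟩ := ts_comm X g₀ (k • sig d)
    exact ⟨k, iso e hk⟩
  dn X := by
    obtain ⟨k, hk⟩ := dn (X.ts g₀ 1 (one_mul 1))
    obtain ⟨e⟩ := ts_comm X g₀ (k • sig d)
    exact ⟨k, ro_tw g₀ (Ro_of_iso e hk)⟩
  m1 X h := by
    obtain ⟨e⟩ := ts_comm X g₀ (tau d)
    exact iso e (m1 _ h)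
  pos X h1 h2 h0 := by
    obtain ⟨e⟩ := ts_comm X (-tau d) g₀
    have h3 := pos (X.ts g₀ 1 (one_mul 1)) h1 (Ro_of_iso e (tw_ro g₀ iso h2)) fun h4 => by
      obtain ⟨e'⟩ := ts_ts_iso X g₀
      exact h0 ((ts_isZero (-g₀) _ h4).of_iso e'.symm)
    have h4 := TS.Ph_ts h3
    rwa [sub_self, add_sub_cancel_right] at h4

end rot

end Pool.Agent.Helper445_GMF
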