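import Pool.Agent.Helper445_GMF.Cu12

/-!
Weights `(w, 1)` and degree `3 w`: the aisle is closed under twists, and positivity.
-/

set_option autoImplicit false
set_option linter.unusedSectionVars false

open CategoryTheory Matrix Pretriangulated Triangulated Limits MvPolynomial ZeroObject

namespace Pool.Agent.Helper445_GMF.Cu

open Bf (gg th_gg snd_gg gext gg_ext gg_inj gg_add gg_sub gg_neg tau_gg sig_gg zero_gg
  th_nsmul_tau sn_sub sn_add sn_tau sn_sig th_zero ddm gg_tsn gg_sig sn fd fd_add fd_neg fd_sum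
  fd_gam sn_d sn_dd sn_nonneg sn_pos)

variable {w d : ℕ} {W : MvPolynomial (Fin 2) ℂ} {hW : IsWeightedHomogeneous (ac w) W d}

/-- twisting a triangle back -/
theorem tw_tri {T A B : MF (lg (ac w) d W hW)} {r r' : Gd d} (hr : r' = sig d - r)
    {f : A ⟶ T.ts r 1 (one_mul 1)}
    {g : T.ts r 1 (one_mul 1) ⟶ B} {h : B ⟶ A⟦(1 : ℤ)⟧}
    (H : Triangle.mk f g h ∈ distTriang (MF (lg (ac w) d W hW))) :
    ∃ (f' : T ⟶ B.ts (-r) 1 (one_mul 1))
      (g' : B.ts (-r) 1 (one_mul 1) ⟶ A.ts r' 1 (one_mul 1))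
      (h' : A.ts r' 1 (one_mul 1) ⟶ T⟦(1 : ℤ)⟧),
      Triangle.mk f' g' h' ∈ distTriang (MF (lg (ac w) d W hW)) := by
  obtain ⟨f1, g1, h1, hd⟩ := ts_dist' (-r) _ H
  have R : Triangle.mk g1 h1 (-f1⟦(1 : ℤ)⟧') ∈ distTriang (MF (lg (ac w) d W hW)) :=
    rot_of_distTriang _ hd
  obtain ⟨e1⟩ := ts_ts_iso T r
  obtain ⟨e2⟩ := shiftd (A.ts (-r) 1 (one_mul 1))
  obtain ⟨e3⟩ := ts_iso A (a := -r) (b := sig d) (c := r') (by rw [hr]; abel)
  exact ⟨_, _, _, dist_third (dist_first R e1) (e2 ≪≫ e3)⟩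

theorem hzK (hd : 0 < d) {X : MF (lg (ac w) d W hW)} {g m m' : Gd d} (hm : m' = m + g) :
    (∀ f : X ⟶ Kk hd hW m, f = 0) ↔
      (∀ f : X.ts g 1 (one_mul 1) ⟶ Kk hd hW m', f = 0) := by
  subst hm
  constructor
  · intro h f
    refine hz_of_ts (g := -g) ?_ f
    obtain ⟨e⟩ := Kk_ts (hW := hW) hd (m + g) (-g)
    rw [add_neg_cancel_right] at e
    exact hz_iso (ts_ts_iso X g) ⟨e⟩ h
  · intro h f
    refine hz_of_ts (g := g) ?_ f
    obtain ⟨e⟩ := Kk_ts (hW := hW) hd m g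
    exact hz_iso ⟨Iso.refl _⟩ ⟨e⟩ h

theorem gens_gt (hd : 0 < d) (h2 : 2 ≤ d ∧ w < d) {B : MF (lg (ac w) d W hW)} (hR : Red0 B)
    {r : Gd d}
    (h : ∀ m : Gd d, th d m ≤ 3 - d → ∀ f : B.ts (-r) 1 (one_mul 1) ⟶ Kk hd hW m, f = 0)
    (j : B.I) : 3 - (d : ℤ) < th d (B.g j) - th d r := by
  by_contra hn
  push Not at hn
  obtain ⟨φ, hφ⟩ := K_hom hd h2 hR (j := j) rfl
  refine hφ ((hzK hd (g := -r) (m' := B.g j - r) (sub_eq_add_neg _ _)).2 (h _ ?_) φ)
  rw [th_sub]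
  exact hn

theorem red_ts {X : MF (lg (ac w) d W hW)} (hR : Red0 X) (g : Gd d) :
    Red0 (X.ts g 1 (one_mul 1)) := by
  intro i j
  show constantCoeff (((1 : ℂ) • X.D) i j) = 0
  rw [one_smul]
  exact hR i j

theorem zero_of_empty {X : MF (lg (ac w) d W hW)} (h : IsEmpty X.I) : IsZero X := by
  rw [IsZero.iff_id_eq_zero, hm_id]
  refine hm_eq_zero_iff.2 ?_
  have e : (1 : Matrix X.I X.I (lg (ac w) d W hW).A) = 0 := by
    ext i
    exact (h.false i).elim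
  rw [e]
  exact N_zero

theorem tt_iso (X : MF (lg (ac w) d W hW)) {a b c : Gd d} (h : a + b = c) :
    Nonempty ((X.ts a 1 (one_mul 1)).ts b 1 (one_mul 1) ≅ X.ts c 1 (one_mul 1)) :=
  ts_iso X h

theorem shiftnd (X : MF (lg (ac w) d W hW)) :
    Nonempty (X⟦(-1 : ℤ)⟧ ≅ X.ts (-sig d) 1 (one_mul 1)) := by
  obtain ⟨e1⟩ := shiftd (X.ts (-sig d) 1 (one_mul 1))
  obtain ⟨e2⟩ := ts_ts_iso' X (sig d)
  have e4 : (X.ts (-sig d) 1 (one_mul 1))⟦(1 : ℤ)⟧ ≅ X := e1 ≪≫ e2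
  exact Srt.shiftNeg_iso e4

variable {Q : Qc hW} (H : Tl2 Q.S Zr (Psi (psi w d)))

include H

/-- the degrees of the generators of an object of the coaisle -/
theorem gens_up' {B : MF (lg (ac w) d W hW)} (hR : Red0 B) (hB : Ro (Ua Q.S Zr) B) (j : B.I) :
    th d (B.g j) ≤ w + 1 := by
  have hw := Q.hw
  have hwd := Q.hwd
  by_contra hn
  push Not at hn
  obtain ⟨ψ, hψ⟩ := hom_K Q.hd Q.h2 hR (j := j) rfl rfl
  refine hψ (hB _ (ua_K H ?_) ψ)
  rw [th_sub, th_sub, th_add, th_add, th_sig, th_tau, th_w]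
  omega

/-- the degrees of the generators of an object of the aisle -/
theorem gens_low' {B : MF (lg (ac w) d W hW)} (hR : Red0 B) (hB : Ua Q.S Zr B) (j : B.I) :
    3 - (d : ℤ) < th d (B.g j) := by
  by_contra hn
  push Not at hn
  obtain ⟨φ, hφ⟩ := K_hom Q.hd Q.h2 hR (j := j) rfl
  exact hφ (va_K H hn _ hB φ)

theorem ua_s {X : MF (lg (ac w) d W hW)} (hX : Ua Q.S Zr X) :
    Ua Q.S Zr (X.ts (gg d (-1) 1) 1 (one_mul 1)) := by
  have hw := Q.hw
  have hwd := Q.hwd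
  obtain ⟨A, B, f, g, h, hT, hA, hB⟩ := H.split0 (Q.dws (H.ua_dw hX))
  by_cases h0 : IsZero B
  · have : IsIso f := (Triangle.isZero₃_iff_isIso₁ _ hT).1 h0
    exact H.ua_iso (asIso f) hA
  exfalso
  obtain ⟨B0, ⟨e⟩, hR⟩ := exists_red Q.hd Q.hw0 B
  have hB0 : Fre Q.S Zr B0 := H.fre_iso e hB
  have hz : ¬ IsZero B0 := fun hz => h0 (hz.of_iso e)
  obtain ⟨f', g', h', hT'⟩ := tw_tri (r' := tau d) (by
    rw [tau_gg, sig_gg, gg_sub]; norm_num) (dist_third hT e)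
  have h1 : ∀ m : Gd d, th d m ≤ 3 - d →
      ∀ φ : B0.ts (-gg d (-1) 1) 1 (one_mul 1) ⟶ Kk Q.hd hW m, φ = 0 := by
    intro m hm φ
    obtain ⟨c, hc⟩ := ex_y2 hT' φ (va_K H hm _ hX _)
    have h2 : c = 0 := (hzK Q.hd (m := m - tau d) (g := tau d)
      (sub_add_cancel _ _).symm).1 (va_K H (by
        rw [th_sub, th_tau]; omega) A hA) c
    rw [hc, h2, comp_zero]
  obtain ⟨i⟩ := nonempty_gens H hB0.1 hz
  obtain ⟨j, hj⟩ := pair_ex hwd Q.hw0 Q.hc hR i
  have h2 := gens_gt Q.hd Q.h2 hR h1 i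
  have h3 := gens_gt Q.hd Q.h2 hR h1 j
  have h4 := gens_up' H hR (H.ro_of_fre hB0) i
  have h5 := gens_up' H hR (H.ro_of_fre hB0) j
  rw [th_gg] at h2 h3
  rcases hj with hj | hj <;>
  · have := congrArg (th d) hj
    rw [th_add, th_gg] at this
    omega

theorem ua_t {X : MF (lg (ac w) d W hW)} (hX : Ua Q.S Zr X) :
    Ua Q.S Zr (X.ts (tau d) 1 (one_mul 1)) := by
  have hw := Q.hw
  have hwd := Q.hwd
  have hw' : (2 : ℝ) ≤ w := by exact_mod_cast hw
  have hdr : (d : ℝ) = 3 * w := by rw [hwd]; push_cast; ring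
  have hpi := Real.pi_pos
  obtain ⟨A, B, f, g, h, hT, hA, hB⟩ := H.split0 (Q.dwt (H.ua_dw hX))
  by_cases h0 : IsZero B
  · have : IsIso f := (Triangle.isZero₃_iff_isIso₁ _ hT).1 h0
    exact H.ua_iso (asIso f) hA
  exfalso
  obtain ⟨B0, ⟨e⟩, hR⟩ := exists_red Q.hd Q.hw0 B
  have hB0 : Fre Q.S Zr B0 := H.fre_iso e hB
  have hz : ¬ IsZero B0 := fun hz => h0 (hz.of_iso e)
  obtain ⟨f', g', h', hT'⟩ := tw_tri (r' := gg d (-1) 1) (by
    rw [tau_gg, sig_gg, gg_sub]; norm_num) (dist_third hT e)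
  have hB' : Ua Q.S Zr (B0.ts (-tau d) 1 (one_mul 1)) :=
    H.ua_ext hT' hX (ua_s H hA)
  have h1 := gens_low' H (red_ts hR (-tau d)) hB'
  have h4 := gens_up' H hR (H.ro_of_fre hB0)
  have h1' : ∀ j : B0.I, 5 - (d : ℤ) < th d (B0.g j) := by
    intro j
    have := h1 j
    have e : th d ((B0.ts (-tau d) 1 (one_mul 1)).g j) = th d (B0.g j) - 2 := by
      show th d (B0.g j + -tau d) = _
      rw [th_add, th_neg, th_tau]; ring
    rw [e] at this
    omega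
  have hre : 0 < (Zr B0).re := by
    rw [Zr_re Q.hd, fd_ZG]
    refine pair_pos hwd Q.hw0 Q.hc hR (nonempty_gens H hB0.1 hz)
      (fun g => sn d (2 - w - d / 2) (th d g)) fun i j hij => ?_
    have ht : th d (B0.g j) = th d (B0.g i) + w := by
      rw [hij, th_add, th_gg]; omega
    have k1 : (5 - 3 * w : ℝ) ≤ th d (B0.g i) := by
      have : (5 - 3 * (w : ℤ)) ≤ th d (B0.g i) := by have := h1' i; omega
      exact_mod_cast this
    have k2 : (th d (B0.g i) : ℝ) ≤ 1 := by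
      have : th d (B0.g i) ≤ 1 := by have := h4 j; omega
      exact_mod_cast this
    refine pr_pos hwd Q.hw0 ht ?_ ?_
    · rw [hdr]; linarith
    · rw [hdr]; linarith
  have him : (Zr B0).im ≤ 0 := by
    by_contra hn
    push Not at hn
    exact H.fre_not hB0 (hp_zero.2 (Or.inl hn))
  have hZ : Zr (B0.ts (-tau d) 1 (one_mul 1)) =
      Complex.exp (((-(Real.pi * 2 / d) : ℝ) : ℂ) * Complex.I) * Zr B0 := by
    unfold Zr
    rw [ZG_ts', mul_left_comm]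
    congr 1
    unfold gam
    congr 1
    have e : (-tau d).1.1 = -2 := rfl
    rw [e]
    push_cast
    ring
  have him2 : (Zr (B0.ts (-tau d) 1 (one_mul 1))).im < 0 := by
    rw [hZ, Complex.mul_im, Complex.exp_ofReal_mul_I_re, Complex.exp_ofReal_mul_I_im,
      Real.cos_neg, Real.sin_neg]
    have hs : 0 < Real.sin (Real.pi * 2 / d) := by
      refine Real.sin_pos_of_pos_of_lt_pi ?_ ?_
      · rw [hdr]; positivity
      · rw [hdr, div_lt_iff₀ (by linarith)]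
        nlinarith
    have hc : 0 ≤ Real.cos (Real.pi * 2 / d) := by
      refine Real.cos_nonneg_of_neg_pi_div_two_le_of_le ?_ ?_
      · have : 0 ≤ Real.pi * 2 / d := by positivity
        linarith
      · rw [hdr, div_le_iff₀ (by linarith)]
        nlinarith
    have h6 : Real.cos (Real.pi * 2 / d) * (Zr B0).im ≤ 0 := mul_nonpos_of_nonneg_of_nonpos hc him
    have h7 : 0 < Real.sin (Real.pi * 2 / d) * (Zr B0).re := mul_pos hs hre
    linarith
  have hV : Vw Q.S 1 (B0.ts (-tau d) 1 (one_mul 1)) :=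
    ro_ts (U := Dw Q.S 1) (g := tau d) (fun X h => Q.dwt h) hB0.1.2
  have hV' : Ro (Ua Q.S Zr) ((B0.ts (-tau d) 1 (one_mul 1))⟦(-1 : ℤ)⟧) := by
    refine H.ro_of_vw ?_
    have := hV.shn H.smc
    simpa using this
  rcases H.ua_pos hB' hV' with h5 | ⟨h5, -⟩
  · rw [hp_zero] at h5
    rcases h5 with h5 | ⟨h5, -⟩ <;> linarith
  · rw [h5, Complex.zero_im] at him2
    exact lt_irrefl _ him2

/-- nonvanishing of the central charge -/
theorem ZG_ne {X : MF (lg (ac w) d W hW)} (hX : Ua Q.S Zr X)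
    (hV : Ro (Ua Q.S Zr) (X.ts (-tau d) 1 (one_mul 1))) (h0 : ¬ IsZero X) : ZG X ≠ 0 := by
  have hw := Q.hw
  have hwd := Q.hwd
  have hw' : (2 : ℝ) ≤ w := by exact_mod_cast hw
  obtain ⟨X0, ⟨e⟩, hR⟩ := exists_red Q.hd Q.hw0 X
  have hX0 : Ua Q.S Zr X0 := H.ua_iso e hX
  have hV0 : Ro (Ua Q.S Zr) (X0.ts (-tau d) 1 (one_mul 1)) := Ro_of_iso (tsI (-tau d) e) hV
  have hn : Nonempty X0.I := by
    by_contra hn
    rw [not_nonempty_iff] at hn
    exact h0 ((zero_of_empty hn).of_iso e)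
  have h1 := gens_low' H hR hX0
  have h2 : ∀ j : X0.I, th d (X0.g j) ≤ w + 3 := by
    intro j
    have := gens_up' H (red_ts hR (-tau d)) hV0 j
    have e : th d ((X0.ts (-tau d) 1 (one_mul 1)).g j) = th d (X0.g j) - 2 := by
      show th d (X0.g j + -tau d) = _
      rw [th_add, th_neg, th_tau]; ring
    rw [e] at this
    omega
  have hpos : 0 < fd d (7 / 2 - 5 * w / 2) (ZG X0) := by
    rw [fd_ZG]
    refine pair_pos hwd Q.hw0 Q.hc hR hn
      (fun g => sn d (7 / 2 - 5 * w / 2) (th d g)) fun i j hij => ?_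
    have ht : th d (X0.g j) = th d (X0.g i) + w := by
      rw [hij, th_add, th_gg]; omega
    have k1 : (4 - 3 * w : ℝ) ≤ th d (X0.g i) := by
      have : (4 - 3 * (w : ℤ)) ≤ th d (X0.g i) := by have := h1 i; omega
      exact_mod_cast this
    have k2 : (th d (X0.g i) : ℝ) ≤ 3 := by
      have : th d (X0.g i) ≤ 3 := by have := h2 j; omega
      exact_mod_cast this
    exact pr_pos hwd Q.hw0 ht (by linarith) (by linarith)
  intro hz
  rw [← ZG_iso (ac_pos Q.hw0) Q.hd e, hz] at hpos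
  unfold fd at hpos
  simp at hpos

theorem Zr_ne {X : MF (lg (ac w) d W hW)} (h : ZG X ≠ 0) : Zr X ≠ 0 :=
  mul_ne_zero (Complex.exp_ne_zero _) h

/-- positivity -/
theorem pos_aux {X : MF (lg (ac w) d W hW)} (hX : Ua Q.S Zr X)
    (hV : Ro (Ua Q.S Zr) (X.ts (-tau d) 1 (one_mul 1))) (h0 : ¬ IsZero X) :
    Hp 0 (Zr X) ∧ Hp 0 (Zr (X.ts (gg d (-1) 1) 1 (one_mul 1))) := by
  have hne := ZG_ne H hX hV h0
  have h1 : Ro (Ua Q.S Zr) (X⟦(-1 : ℤ)⟧) := by
    obtain ⟨e1⟩ := shiftnd X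
    obtain ⟨e2⟩ := tt_iso X (a := -tau d) (b := -gg d (-1) 1) (c := -sig d) (by
      rw [sig_gg, tau_gg, gg_neg, gg_neg, gg_neg, gg_add]; norm_num)
    exact Ro_of_iso (e2 ≪≫ e1.symm) (ro_ts (fun _ h => ua_s H h) hV)
  have h2 : Ro (Ua Q.S Zr) ((X.ts (gg d (-1) 1) 1 (one_mul 1))⟦(-1 : ℤ)⟧) := by
    obtain ⟨e1⟩ := shiftnd (X.ts (gg d (-1) 1) 1 (one_mul 1))
    obtain ⟨e2⟩ := tt_iso X (a := gg d (-1) 1) (b := -sig d) (c := -tau d) (by
      rw [sig_gg, tau_gg, gg_neg, gg_neg, gg_add]; norm_num)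
    exact Ro_of_iso (e1 ≪≫ e2).symm hV
  constructor
  · rcases H.ua_pos hX h1 with h | ⟨h, -⟩
    · exact h
    · exact absurd h (Zr_ne H hne)
  · rcases H.ua_pos (ua_s H hX) h2 with h | ⟨h, -⟩
    · exact h
    · refine absurd h (Zr_ne H ?_)
      rw [ZG_ts']
      exact mul_ne_zero (Complex.exp_ne_zero _) hne

omit H in
/-- products of three factors have a stability condition of Gepner type -/
theorem Qc.gepner (Q : Qc hW) (hs : ∀ x : Fin 2 → ℂ, (∀ i, eval x (pderiv i W) = 0) ↔ x = 0) :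
    HasGepner hW := by
  have hs' : ∀ x : Fin 2 → ℂ, (∀ i, eval x (pderiv i W) = 0) → x = 0 := fun x => (hs x).1
  have H := Q.tl2 hs'
  have hw := Q.hw
  have hwd := Q.hwd
  have hw' : (2 : ℝ) ≤ w := by exact_mod_cast hw
  have hdr : (d : ℝ) = 3 * w := by rw [hwd]; push_cast; ring
  have hd0 : (d : ℝ) ≠ 0 := by rw [hdr]; positivity
  refine crit_mp (ac_pos Q.hw0) (by omega) hs
    (TS.rot (U := Ua Q.S Zr) (gg d (1 - 2 * w) 1) (fun e h => H.ua_iso e h) (fun X hX => ?_)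
      (fun X => H.ua_tr X) (fun X => ?_) (fun X => ?_) (fun X hX => ua_t H hX)
      (fun X hX hV h0 => ?_))
  · obtain ⟨e⟩ := shift_iso X
    exact H.ua_iso e (H.ua_sh hX)
  · obtain ⟨k, m, hX⟩ := Q.gen hs' X
    refine ⟨1 - k, H.ua_of_dw ?_⟩
    have := Q.dw_sig (1 - k) (t := k) ⟨m, hX⟩
    rwa [add_sub_cancel] at this
  · obtain ⟨k, m, hX⟩ := Q.gen hs' X
    obtain ⟨t, ht⟩ := Q.word_vw hX
    refine ⟨-t, fun Y hY => ?_⟩
    have := Q.vw_sig (-t) ht
    rw [add_neg_cancel] at this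
    exact this Y (H.ua_dw hY)
  · obtain ⟨h2, h5⟩ := pos_aux H hX hV h0
    have eth : ((th d (gg d (1 - 2 * w) 1) : ℤ) : ℝ) / d = (2 - w) / d := by
      rw [th_gg]
      congr 1
      push_cast
      rw [hdr]; ring
    rw [eth]
    have hrot : ∀ (z : ℂ), Complex.exp (((-(Real.pi * (2 - w) / d) : ℝ) : ℂ) * Complex.I) * z =
        Complex.exp (Complex.I * Real.pi * ((-((2 - w) / d) : ℝ) : ℂ)) * z := by
      intro z
      congr 2
      push_cast
      ring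
    have h7 : Ph ((2 - w) / d) (1 + (2 - w) / d) (ZG X) := by
      have h8 : Ph 0 1 (Zr X) := h2.polar
      unfold Zr at h8
      rw [hrot] at h8
      have h9 := h8.rot
      rw [zero_sub, neg_neg, sub_neg_eq_add] at h9
      exact h9
    have h8 : Ph ((2 - w) / d) (1 + (2 - w) / d) (ZG (X.ts (gg d (-1) 1) 1 (one_mul 1))) := by
      have h8 : Ph 0 1 (Zr (X.ts (gg d (-1) 1) 1 (one_mul 1))) := h5.polar
      unfold Zr at h8
      rw [hrot] at h8
      have h9 := h8.rot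
      rw [zero_sub, neg_neg, sub_neg_eq_add] at h9
      exact h9
    have h9 := TS.Ph_ts h8
    rw [th_gg] at h9
    have e0 : (((2 * (-1) + (d : ℤ) * 1 : ℤ) : ℝ) / d : ℝ) = 1 - 2 / d := by
      push_cast
      field_simp
      ring
    rw [e0] at h9
    have h10 : (2 : ℝ) / d ≤ 1 := by
      rw [hdr, div_le_one (by linarith)]; linarith
    have h11 : (0 : ℝ) < 2 / d := by rw [hdr]; positivity
    have h12 := Ph.inter h7 h9 (by linarith) (by linarith)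
    have e : (1 + (2 - w) / d - (1 - 2 / d) : ℝ) = 2 / d + (2 - w) / d := by ring
    rwa [e] at h12

end Pool.Agent.Helper445_GMF.Cu
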