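import Pool.Agent.Helper445_GMF.Cu13
import Pool.Agent.Helper445_GMF.Qn15
import Pool.Agent.Helper445_GMF.Bin

/-!
Weights `(w, 1)` and degree `3 w`: polynomials with an isolated singularity.
-/

set_option autoImplicit false
set_option linter.unusedSectionVars false

open CategoryTheory Matrix Pretriangulated Triangulated Limits MvPolynomial ZeroObject

namespace Pool.Agent.Helper445_GMF.Cu

open Bf (gg th_gg snd_gg gext gg_ext gg_inj gg_add gg_sub gg_neg tau_gg sig_gg zero_gg)

/-- the monomials -/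
noncomputable def mo (w i : ℕ) : Fin 2 →₀ ℕ :=
  Finsupp.single 0 i + Finsupp.single 1 (w * (3 - i))

theorem mo_0 (w i : ℕ) : mo w i 0 = i := by simp [mo]
theorem mo_1 (w i : ℕ) : mo w i 1 = w * (3 - i) := by simp [mo]

theorem eq_sum {w : ℕ} (hw : 0 < w) {W : MvPolynomial (Fin 2) ℂ}
    (hW : IsWeightedHomogeneous (ac w) W (3 * w)) :
    W = ∑ i ∈ Finset.range 4, monomial (mo w i) (coeff (mo w i) W) := by
  ext m
  rw [coeff_sum]
  simp only [coeff_monomial]
  by_cases hm : coeff m W = 0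
  · rw [hm]
    refine (Finset.sum_eq_zero fun i _ => ?_).symm
    split_ifs with h
    · rw [h, hm]
    · rfl
  · have h1 := hW hm
    rw [Finsupp.weight_apply, Finsupp.sum_fintype _ _ (fun i => by simp), Fin.sum_univ_two] at h1
    have h2 : m 0 * w + m 1 * 1 = 3 * w := h1
    have h3 : m 0 ≤ 3 := by
      by_contra hn
      push Not at hn
      have : 4 * w ≤ m 0 * w := Nat.mul_le_mul_right w hn
      omega
    have h4 : mo w (m 0) = m := by
      ext i
      fin_cases i
      · exact mo_0 w _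
      · show mo w (m 0) 1 = m 1
        rw [mo_1, Nat.mul_sub, mul_comm w (m 0), mul_comm w 3]
        omega
    rw [Finset.sum_eq_single (m 0)]
    · rw [if_pos h4, h4]
    · intro i _ hi
      rw [if_neg]
      intro h5
      apply hi
      rw [← h5, mo_0]
    · intro h5
      exact absurd (Finset.mem_range.2 (by omega)) h5

theorem fact {w : ℕ} (hw : 0 < w) {W : MvPolynomial (Fin 2) ℂ}
    (hW : IsWeightedHomogeneous (ac w) W (3 * w)) :
    ∃ (c : ℂ) (α β : Fin 3 → ℂ), W = C c * ∏ i, (C (α i) * X 0 + C (β i) * X 1 ^ w) := by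
  let V : MvPolynomial (Fin 2) ℂ :=
    ∑ i ∈ Finset.range 4, monomial (mo 1 i) (coeff (mo w i) W)
  have hV : V.IsHomogeneous 3 := by
    refine IsHomogeneous.sum _ _ _ fun i hi => ?_
    refine isHomogeneous_monomial _ ?_
    rw [mo, map_add, Finsupp.degree_single, Finsupp.degree_single]
    rw [Finset.mem_range] at hi
    omega
  obtain ⟨c, α, β, h⟩ := bin_fact 3 V hV
  refine ⟨c, α, β, ?_⟩
  let φ : MvPolynomial (Fin 2) ℂ →ₐ[ℂ] MvPolynomial (Fin 2) ℂ := aeval ![X 0, X 1 ^ w]
  have h0 : φ (X 0) = X 0 := by simp [φ]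
  have h1 : φ (X 1) = X 1 ^ w := by simp [φ]
  have hC : ∀ c : ℂ, φ (C c) = C c := fun c => by
    simp [φ, ← MvPolynomial.algebraMap_eq]
  have e1 : φ V = W := by
    rw [eq_sum hw hW, map_sum]
    refine Finset.sum_congr rfl fun i _ => ?_
    have e2 : ∀ (v : ℕ) (c : ℂ), monomial (mo v i) c = C c * X 0 ^ i * X 1 ^ (v * (3 - i)) := by
      intro v c
      rw [mo, X_pow_eq_monomial, X_pow_eq_monomial, C_mul_monomial, monomial_mul, mul_one,
        mul_one]
    rw [e2, e2, map_mul, map_mul, map_pow, map_pow, h0, h1, hC, ← pow_mul, one_mul]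
  rw [← e1, h, map_mul, hC, map_prod]
  congr 1
  refine Finset.prod_congr rfl fun i _ => ?_
  rw [map_add, map_mul, map_mul, h0, h1, hC, hC]

theorem Qc.exists {w : ℕ} (hw : 2 ≤ w) {W : MvPolynomial (Fin 2) ℂ}
    (hW : IsWeightedHomogeneous (ac w) W (3 * w))
    (hs : ∀ x : Fin 2 → ℂ, (∀ i, eval x (pderiv i W) = 0) ↔ x = 0) : Nonempty (Qc hW) := by
  classical
  have hw0 : 0 < w := by omega
  obtain ⟨c, α0, β0, hW0⟩ := fact hw0 hW
  obtain ⟨α, β, hWp⟩ : ∃ α β : Fin 3 → ℂ, W = ∏ p, (C (α p) * X 0 + C (β p) * X 1 ^ w) := by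
    refine ⟨fun p => if p = 0 then c * α0 0 else α0 p, fun p => if p = 0 then c * β0 0 else β0 p,
      ?_⟩
    rw [hW0, Fin.prod_univ_three, Fin.prod_univ_three]
    simp only [if_true]
    rw [if_neg (by decide), if_neg (by decide), if_neg (by decide), if_neg (by decide)]
    rw [C_mul, C_mul]
    ring
  rw [Fin.prod_univ_three] at hWp
  -- two factors with a common zero
  have hbad : ∀ p q : Fin 3, p ≠ q → ∀ x : Fin 2 → ℂ, x ≠ 0 →
      α p * x 0 + β p * x 1 ^ w = 0 → α q * x 0 + β q * x 1 ^ w = 0 → False := by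
    intro p q hpq x hx h1 h2
    apply hx
    rw [← hs x]
    intro i
    obtain ⟨g, hg⟩ : ∃ g, W = (C (α p) * X 0 + C (β p) * X 1 ^ w) *
        (C (α q) * X 0 + C (β q) * X 1 ^ w) * g := by
      fin_cases p <;> fin_cases q
      all_goals first
        | exact absurd rfl hpq
        | skip
      · exact ⟨C (α 2) * X 0 + C (β 2) * X 1 ^ w, hWp.trans (by
          show _ = (C (α 0) * X 0 + C (β 0) * X 1 ^ w) * (C (α 1) * X 0 + C (β 1) * X 1 ^ w) * _
          ring)⟩
      · exact ⟨C (α 1) * X 0 + C (β 1) * X 1 ^ w, hWp.trans (by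
          show _ = (C (α 0) * X 0 + C (β 0) * X 1 ^ w) * (C (α 2) * X 0 + C (β 2) * X 1 ^ w) * _
          ring)⟩
      · exact ⟨C (α 2) * X 0 + C (β 2) * X 1 ^ w, hWp.trans (by
          show _ = (C (α 1) * X 0 + C (β 1) * X 1 ^ w) * (C (α 0) * X 0 + C (β 0) * X 1 ^ w) * _
          ring)⟩
      · exact ⟨C (α 0) * X 0 + C (β 0) * X 1 ^ w, hWp.trans (by
          show _ = (C (α 1) * X 0 + C (β 1) * X 1 ^ w) * (C (α 2) * X 0 + C (β 2) * X 1 ^ w) * _
          ring)⟩
      · exact ⟨C (α 1) * X 0 + C (β 1) * X 1 ^ w, hWp.trans (by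
          show _ = (C (α 2) * X 0 + C (β 2) * X 1 ^ w) * (C (α 0) * X 0 + C (β 0) * X 1 ^ w) * _
          ring)⟩
      · exact ⟨C (α 0) * X 0 + C (β 0) * X 1 ^ w, hWp.trans (by
          show _ = (C (α 2) * X 0 + C (β 2) * X 1 ^ w) * (C (α 1) * X 0 + C (β 1) * X 1 ^ w) * _
          ring)⟩
    rw [hg]
    exact pderiv_zero (by simpa using h1) (by simpa using h2) i
  -- the coefficients of `x` do not vanish
  have hα : ∀ p, α p ≠ 0 := by
    intro p hp
    have hz : (![1, 0] : Fin 2 → ℂ) = 0 := by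
      rw [← hs]
      have hp2 : ∃ g, W = X 1 ^ w * g := by
        have h3 : C (α p) * X 0 + C (β p) * X 1 ^ w =
            (C (β p) * X 1 ^ w : MvPolynomial (Fin 2) ℂ) := by
          rw [hp, C_0, zero_mul, zero_add]
        fin_cases p
        · have h4 : C (α 0) * X 0 + C (β 0) * X 1 ^ w =
            (C (β 0) * X 1 ^ w : MvPolynomial (Fin 2) ℂ) := h3
          rw [h4] at hWp
          exact ⟨C (β 0) * (C (α 1) * X 0 + C (β 1) * X 1 ^ w) *
            (C (α 2) * X 0 + C (β 2) * X 1 ^ w), hWp.trans (by ring)⟩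
        · have h4 : C (α 1) * X 0 + C (β 1) * X 1 ^ w =
            (C (β 1) * X 1 ^ w : MvPolynomial (Fin 2) ℂ) := h3
          rw [h4] at hWp
          exact ⟨C (β 1) * (C (α 0) * X 0 + C (β 0) * X 1 ^ w) *
            (C (α 2) * X 0 + C (β 2) * X 1 ^ w), hWp.trans (by ring)⟩
        · have h4 : C (α 2) * X 0 + C (β 2) * X 1 ^ w =
            (C (β 2) * X 1 ^ w : MvPolynomial (Fin 2) ℂ) := h3
          rw [h4] at hWp
          exact ⟨C (β 2) * (C (α 0) * X 0 + C (β 0) * X 1 ^ w) *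
            (C (α 1) * X 0 + C (β 1) * X 1 ^ w), hWp.trans (by ring)⟩
      obtain ⟨g, hg⟩ := hp2
      obtain ⟨v, rfl⟩ : ∃ v, w = v + 2 := ⟨w - 2, by omega⟩
      have hg2 : W = X 1 * X 1 * (X 1 ^ v * g) := by rw [hg]; ring
      intro i
      rw [hg2]
      exact pderiv_zero (by simp) (by simp) i
    have := congrFun hz 0
    simp at this
  have hind : ∀ p q, p ≠ q → α p * β q - α q * β p ≠ 0 := by
    intro p q hpq h
    have hp := hα p
    refine hbad p q hpq ![-(β p) / α p, 1] ?_ ?_ ?_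
    · intro h1
      have := congrFun h1 1
      simp at this
    · simp
      field_simp
      ring
    · simp
      field_simp
      linear_combination h
  have hmem : ∀ p q r : Fin 3, W = (C (α p) * X 0 + C (β p) * X 1 ^ w) *
      ((C (α q) * X 0 + C (β q) * X 1 ^ w) * (C (α r) * X 0 + C (β r) * X 1 ^ w)) →
      Nonempty { F : Lin2 hW // F.α = α p ∧ F.β = β p ∧
        F.f = C (α p) * X 0 + C (β p) * X 1 ^ w } := by
    intro p q r h
    refine ⟨⟨{ f := C (α p) * X 0 + C (β p) * X 1 ^ w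
               h := (C (α q) * X 0 + C (β q) * X 1 ^ w) * (C (α r) * X 0 + C (β r) * X 1 ^ w)
               hf := lin_memd _ _
               hh := ?_
               e := h.symm
               α := α p
               β := β p
               ef := rfl
               hα := hα p }, rfl, rfl, rfl⟩⟩
    have h1 := (lin_memd (w := w) (d := 3 * w) (α q) (β q)).mul (lin_memd (α r) (β r))
    have e : w • tau (3 * w) + w • tau (3 * w) =
        sig (3 * w) + sig (3 * w) - w • tau (3 * w) := by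
      rw [ntau_gg, sig_gg, gg_add, gg_add, gg_sub]
      refine gg_ext (-1) ?_ (by norm_num)
      push_cast
      ring
    rwa [e] at h1
  obtain ⟨F0⟩ := hmem 0 1 2 (hWp.trans (by ring))
  obtain ⟨F1⟩ := hmem 1 2 0 (hWp.trans (by ring))
  obtain ⟨F2⟩ := hmem 2 0 1 (hWp.trans (by ring))
  have hF : ∀ p : Fin 3, ∃ F : Lin2 hW, F.α = α p ∧ F.β = β p ∧
      F.f = C (α p) * X 0 + C (β p) * X 1 ^ w := by
    intro p
    fin_cases p
    · exact ⟨F0.1, F0.2⟩
    · exact ⟨F1.1, F1.2⟩
    · exact ⟨F2.1, F2.2⟩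
  choose F hF1 hF2 hF3 using hF
  refine ⟨{ hw := hw
            hwd := rfl
            F := F
            prod := ?_
            ind := ?_ }⟩
  · rw [Fin.prod_univ_three, hF3, hF3, hF3]
    exact hWp
  · intro p q hpq
    rw [hF1, hF2, hF1, hF2]
    exact hind p q hpq

/-- every polynomial of degree `3 w` with respect to the weights `(w, 1)` with an isolated
singularity has a stability condition of Gepner type -/
theorem cubic_gepner {w : ℕ} (hw : 2 ≤ w) {W : MvPolynomial (Fin 2) ℂ}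
    (hW : IsWeightedHomogeneous (ac w) W (3 * w))
    (hs : ∀ x : Fin 2 → ℂ, (∀ i, eval x (pderiv i W) = 0) ↔ x = 0) : HasGepner hW := by
  obtain ⟨Q⟩ := Qc.exists hw hW hs
  exact Q.gepner hs

end Pool.Agent.Helper445_GMF.Cu
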