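import Pool.Agent.Helper445_GMF.Cu1

/-!
Weights `(w, 1)` and degree `d`: the Koszul matrix factorization as a cone.
-/

set_option autoImplicit false
set_option linter.unusedSectionVars false

open CategoryTheory Matrix Pretriangulated Triangulated Limits MvPolynomial ZeroObject

namespace Pool.Agent.Helper445_GMF.Cu

variable {w d : ℕ} {W : MvPolynomial (Fin 2) ℂ} {hW : IsWeightedHomogeneous (ac w) W d}

theorem psum2 (hd : 0 < d) (hW : IsWeightedHomogeneous (ac w) W d) :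
    X 0 * wq hW 0 [1] + X 1 * wq hW 1 [] = W := by
  have h := full_sum (a := ac w) (d := d) hd hW
  have e : List.finRange 2 = [0, 1] := by decide
  rw [e] at h
  have h2 : X 0 * wq hW 0 [1] + (X 1 * wq hW 1 [] + 0) = W := h
  rw [add_zero] at h2
  exact h2

theorem OK2 (hW : IsWeightedHomogeneous (ac w) W d) : OK (lg (ac w) d W hW) (ps hW [0, 1]) := ps_OK hW _

theorem sum2 (hd : 0 < d) (hW : IsWeightedHomogeneous (ac w) W d) : ((ps hW [0, 1]).map
    fun p => p.1 * p.2.1).sum = (lg (ac w) d W hW).W := by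
  show X 0 * wq hW 0 [1] + (X 1 * wq hW 1 [] + 0) = W
  rw [add_zero, psum2 hd]

/-- the Koszul matrix factorization -/
noncomputable abbrev Kk (hd : 0 < d) (hW : IsWeightedHomogeneous (ac w) W d) (m : Gd d) :
    MF (lg (ac w) d W hW) :=
  kos (L := lg (ac w) d W hW) (fun _ : Fin 1 => m) (ps hW [0, 1]) (OK2 hW) (sum2 hd hW)

theorem KK_eq (hd : 0 < d) {I : Type} [Fintype I] [DecidableEq I] (g : I → Gd d) :
    KK (a := (ac w)) (d := d) hd hW g =
      kos (L := lg (ac w) d W hW) g (ps hW [0, 1]) (OK2 hW) (sum2 hd hW) :=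
  kos_congr (L := lg (ac w) d W hW) g (by
    have e : List.finRange 2 = [0, 1] := by decide
    rw [e]) _ _ _ _

variable (hd : 0 < d)

theorem Kk_ts (m r : Gd d) :
    Nonempty ((Kk hd hW m).ts r 1 (one_mul 1) ≅ Kk hd hW (m + r)) :=
  kos_ts (L := lg (ac w) d W hW) (ps hW [0, 1]) (OK2 hW) (sum2 hd hW) (fun _ : Fin 1 => m) r

theorem Kk_g1 (m : Gd d) (i : Fin 1) : (Kk hd hW m).g (Sum.inl (Sum.inl i)) = m := rfl

theorem Kk_g2 (m : Gd d) (i : Fin 1) : (Kk hd hW m).g (Sum.inl (Sum.inr i)) =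
    m - tau d + sig d := by
  show m + -(wt (ac w) d 1) + (1 : ℤ) • sig d = _
  rw [wt_1, one_smul]
  abel

theorem Kk_g3 (m : Gd d) (i : Fin 1) : (Kk hd hW m).g (Sum.inr (Sum.inl i)) =
    m - w • tau d + sig d := by
  show m + -(wt (ac w) d 0) + (1 : ℤ) • sig d = _
  rw [wt_0, one_smul]
  abel

theorem Kk_g4 (m : Gd d) (i : Fin 1) : (Kk hd hW m).g (Sum.inr (Sum.inr i)) =
    m - tau d - w • tau d + sig d + sig d := by
  show m + -(wt (ac w) d 1) + (1 : ℤ) • sig d + -(wt (ac w) d 0) + (1 : ℤ) • sig d = _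
  rw [wt_0, wt_1, one_smul]
  abel

/-- factors of degree one in `x` -/
structure Lin2 (hW : IsWeightedHomogeneous (ac w) W d) extends Fac hW (w • tau d) where
  /-- the coefficient of `x` -/
  α : ℂ
  /-- the coefficient of `y ^ w` -/
  β : ℂ
  ef : f = C α * X 0 + C β * X 1 ^ w
  hα : α ≠ 0

theorem X1_memd : IsWeightedHomogeneous (wt (ac w) d)
    (X 1 : MvPolynomial (Fin 2) ℂ) (tau d) := by
  rw [← wt_1 (w := w)]
  exact isWeightedHomogeneous_X ℂ (wt (ac w) d) 1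

theorem X0_memd : IsWeightedHomogeneous (wt (ac w) d)
    (X 0 : MvPolynomial (Fin 2) ℂ) (w • tau d) := by
  rw [← wt_0 (w := w)]
  exact isWeightedHomogeneous_X ℂ (wt (ac w) d) 0

theorem C_memd (c : ℂ) : IsWeightedHomogeneous (wt (ac w) d)
    (C c : MvPolynomial (Fin 2) ℂ) 0 :=
  isWeightedHomogeneous_C (wt (ac w) d) c

theorem pow_memd (n : ℕ) : IsWeightedHomogeneous (wt (ac w) d)
    (X 1 ^ n : MvPolynomial (Fin 2) ℂ) (n • tau d) := (X1_memd (w := w)).pow n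

theorem lin_memd (α β : ℂ) : IsWeightedHomogeneous (wt (ac w) d)
    (C α * X 0 + C β * X 1 ^ w : MvPolynomial (Fin 2) ℂ) (w • tau d) := by
  have h1 := (C_memd (w := w) (d := d) α).mul X0_memd
  have h2 := (C_memd (w := w) (d := d) β).mul (pow_memd w)
  rw [zero_add] at h1 h2
  exact h1.add h2

theorem bet_memd (β : ℂ) (n : ℕ) : IsWeightedHomogeneous (wt (ac w) d)
    (C β * X 1 ^ n : MvPolynomial (Fin 2) ℂ) (n • tau d) := by
  have h2 := (C_memd (w := w) (d := d) β).mul (pow_memd n)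
  rwa [zero_add] at h2

include hd in
theorem Lin2.exists_s (hw : 0 < w) (F : Lin2 hW) : ∃ s, IsWeightedHomogeneous (wt (ac w) d) s
      (sig d + sig d - tau d - w • tau d) ∧
    wq hW 1 [] + X 0 * s = (C F.β * X 1 ^ (w - 1)) * F.h ∧
    wq hW 0 [1] - X 1 * s = C F.α * F.h := by
  have hw1 : IsWeightedHomogeneous (wt (ac w) d) (wq hW 1 []) (sig d + sig d - tau d) := by
    have := wq_mem hW 1 []
    rwa [wt_1] at this
  have hh : IsWeightedHomogeneous (wt (ac w) d) F.h (sig d + sig d - w • tau d) := F.hh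
  have hβ := (bet_memd (w := w) (d := d) F.β (w - 1)).mul hh
  have e0 : (w - 1) • tau d + (sig d + sig d - w • tau d) = sig d + sig d - tau d := by
    obtain ⟨v, rfl⟩ : ∃ v, w = v + 1 := ⟨w - 1, by omega⟩
    rw [Nat.add_sub_cancel, add_smul, one_smul]
    abel
  rw [e0] at hβ
  have hp : IsWeightedHomogeneous (wt (ac w) d) (C F.β * X 1 ^ (w - 1) * F.h - wq hW 1 [])
      (sig d + sig d - tau d) := by
    have h1 : (C F.β * X 1 ^ (w - 1) * F.h - wq hW 1 []) ∈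
      weightedHomogeneousSubmodule ℂ (wt (ac w) d) (sig d + sig d - tau d) :=
        Submodule.sub_mem _ hβ hw1
    exact h1
  have hW' := psum2 hd hW
  have epw : (X 1 : MvPolynomial (Fin 2) ℂ) ^ w = X 1 ^ (w - 1) * X 1 := by
    rw [← pow_succ, Nat.sub_add_cancel hw]
  have e1 : X 0 * (wq hW 0 [1] - C F.α * F.h) =
      X 1 * (C F.β * X 1 ^ (w - 1) * F.h - wq hW 1 []) := by
    have := F.e
    rw [F.ef, epw] at this
    linear_combination hW' - this
  obtain ⟨q, hq, hq'⟩ := exists_dv (0 : Fin 2) [] hp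
  have h0 : ev [0] (C F.β * X 1 ^ (w - 1) * F.h - wq hW 1 []) = 0 := by
    have h1 := congrArg (ev [0]) e1
    rw [map_mul, map_mul, ev_X_of_mem (by simp), ev_X_of_notMem (by simp), zero_mul] at h1
    exact (mul_eq_zero.1 h1.symm).resolve_left (X_ne_zero _)
  rw [ev_nil, h0, zero_add] at hq'
  refine ⟨q, ?_, by linear_combination -hq', ?_⟩
  · rw [wt_0] at hq
    exact hq
  · rw [hq'] at e1
    have h2 : (X 0 : MvPolynomial (Fin 2) ℂ) * (wq hW 0 [1] - C F.α * F.h) =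
      X 0 * (X 1 * q) := by rw [e1]; ring
    have h3 := mul_left_cancel₀ (X_ne_zero _) h2
    linear_combination h3

theorem Kk_D (m : Gd d) : (Kk hd hW m).D = kD (X 0) (X 1) (wq hW 0 [1]) (wq hW 1 []) := rfl

variable {c : Gd d}

theorem tw_D (F : Fac hW c) (m : Gd d) (l : MvPolynomial (Fin 2) ℂ)
    (hOK : OK (lg (ac w) d W hW) [(l, (0 : MvPolynomial (Fin 2) ℂ), tau d)]) :
    (tw (F.E m) [(l, (0 : MvPolynomial (Fin 2) ℂ), tau d)] hOK).D = tD F.f F.h l := rfl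

theorem tw_gr (F : Fac hW c) (m : Gd d) (l : MvPolynomial (Fin 2) ℂ)
    (hOK : OK (lg (ac w) d W hW) [(l, (0 : MvPolynomial (Fin 2) ℂ), tau d)]) (i : (F.E m).I) :
    (tw (F.E m) [(l, (0 : MvPolynomial (Fin 2) ℂ), tau d)] hOK).g (Sum.inr i) =
      (F.E m).g i - tau d + sig d := by
  show (F.E m).g i + -tau d + (1 : ℤ) • sig d = _
  rw [one_smul]
  abel

/-- the swap of the two factors -/
theorem Fac.swap {c' : Gd d} (F : Fac hW c) (F' : Fac hW c') (hk : c' = sig d + sig d - c)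
    (h1 : F'.f = F.h) (h2 : F'.h = F.f) (m : Gd d) :
    Nonempty (F.E m ≅ F'.E (m + sig d - c)) := by
  have hM : ∀ {c c' : Gd d} (F : Fac hW c) (F' : Fac hW c') (m m' : Gd d),
      c' = sig d + sig d - c → F'.f = F.h → F'.h = F.f → m' = m + sig d - c →
      (fromBlocks 0 1 1 0 : Matrix (Fin 1 ⊕ Fin 1) (Fin 1 ⊕ Fin 1)
        (MvPolynomial (Fin 2) ℂ)) ∈ Z (F.E m) (F'.E m') := by
    intro c c' F F' m m' hk h1 h2 hm
    refine ⟨?_, ?_⟩
    · rintro (i | i) (j | j)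
      · exact Submodule.zero_mem _
      · refine oneg ?_
        rw [Fac.gl, Fac.gr, hm]
        abel
      · refine oneg ?_
        rw [Fac.gr, Fac.gl, hm, hk]
        abel
      · exact Submodule.zero_mem _
    · show fromBlocks 0 (F'.f • 1) ((1 * F'.h) • 1) (-0) * (fromBlocks 0 1 1 0) =
        (fromBlocks 0 1 1 0) * fromBlocks 0 (F.f • 1) ((1 * F.h) • 1) (-0)
      rw [fromBlocks_multiply, fromBlocks_multiply, h1, h2]
      congr 1 <;> simp
  have e : (fromBlocks 0 1 1 0 : Matrix (Fin 1 ⊕ Fin 1) (Fin 1 ⊕ Fin 1)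
      (MvPolynomial (Fin 2) ℂ)) * fromBlocks 0 1 1 0 = 1 := by
    rw [fromBlocks_multiply, ← fromBlocks_one]
    congr 1 <;> simp
  exact ⟨isoOf' (X := F.E m) (Y := F'.E (m + sig d - c)) _ _
    (hM F F' m _ hk h1 h2 rfl) (hM F' F _ m (by rw [hk]; abel) h2.symm h1.symm
      (by rw [hk]; abel)) e e⟩

/-- the degrees of the generators of the Koszul matrix factorization -/
def KG (w : ℕ) (m : Gd d) (g : (Fin 1 ⊕ Fin 1) ⊕ (Fin 1 ⊕ Fin 1) → Gd d) : Prop :=
  ∀ i, g (Sum.inl (Sum.inl i)) = m ∧ g (Sum.inl (Sum.inr i)) = m - tau d + sig d ∧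
    g (Sum.inr (Sum.inl i)) = m - w • tau d + sig d ∧
    g (Sum.inr (Sum.inr i)) = m - tau d - w • tau d + sig d + sig d

/-- the degrees of the generators of the tower -/
def TG (w : ℕ) (m : Gd d) (g : (Fin 1 ⊕ Fin 1) ⊕ (Fin 1 ⊕ Fin 1) → Gd d) : Prop :=
  ∀ i, g (Sum.inl (Sum.inl i)) = m ∧ g (Sum.inl (Sum.inr i)) = m - w • tau d + sig d ∧
    g (Sum.inr (Sum.inl i)) = m - tau d + sig d ∧
    g (Sum.inr (Sum.inr i)) = m - tau d - w • tau d + sig d + sig d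

theorem mem0 {x : MvPolynomial (Fin 2) ℂ} {g : Gd d}
    (hx : x = 0) {i j : Fin 1} :
    (lg (ac w) d W hW).mem g ((x • (1 : Matrix (Fin 1) (Fin 1) (MvPolynomial (Fin 2) ℂ))) i j) := by
  subst hx
  rw [zero_smul]
  exact Submodule.zero_mem _

theorem uU_Hg (hw : 0 < w) (hW : IsWeightedHomogeneous (ac w) W d) {α β δ : ℂ}
    {s z : MvPolynomial (Fin 2) ℂ} (hz : z = 0)
    (hs : IsWeightedHomogeneous (wt (ac w) d) s (sig d + sig d - tau d - w • tau d)) {m : Gd d}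
    {g g' : (Fin 1 ⊕ Fin 1) ⊕ (Fin 1 ⊕ Fin 1) → Gd d} (hg : TG w m g) (hg' : KG w m g') :
    uU (C α) (C β * X 1 ^ (w - 1)) z (C δ) s ∈ Hg (L := lg (ac w) d W hW) g g' 0 := by
  have ew : w • tau d = (w - 1) • tau d + tau d := by
    obtain ⟨v, rfl⟩ : ∃ v, w = v + 1 := ⟨w - 1, by omega⟩
    rw [Nat.add_sub_cancel, add_smul, one_smul]
  rintro ((i | i) | (i | i)) ((j | j) | (j | j))
  all_goals try exact Submodule.zero_mem _
  · refine oneg ?_
    rw [(hg' i).1, (hg j).1]; abel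
  · refine memg (bet_memd β (w - 1)) ?_
    rw [(hg' i).2.1, (hg j).2.1, ew]; abel
  · refine memg (C_memd δ) ?_
    rw [(hg' i).2.1, (hg j).2.2.1]; abel
  · refine memg (C_memd α) ?_
    rw [(hg' i).2.2.1, (hg j).2.1]; abel
  · exact mem0 hz
  · refine memg hs ?_
    rw [(hg' i).2.2.2, (hg j).1]; abel
  · refine oneg ?_
    rw [(hg' i).2.2.2, (hg j).2.2.2]; abel

theorem uV_Hg (hw : 0 < w) (hW : IsWeightedHomogeneous (ac w) W d) {α β δ : ℂ}
    {s z : MvPolynomial (Fin 2) ℂ} (hz : z = 0)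
    (hs : IsWeightedHomogeneous (wt (ac w) d) s (sig d + sig d - tau d - w • tau d)) {m : Gd d}
    {g g' : (Fin 1 ⊕ Fin 1) ⊕ (Fin 1 ⊕ Fin 1) → Gd d} (hg : KG w m g) (hg' : TG w m g') :
    uV (C α) (C β * X 1 ^ (w - 1)) z (C δ) s ∈ Hg (L := lg (ac w) d W hW) g g' 0 := by
  have ew : w • tau d = (w - 1) • tau d + tau d := by
    obtain ⟨v, rfl⟩ : ∃ v, w = v + 1 := ⟨w - 1, by omega⟩
    rw [Nat.add_sub_cancel, add_smul, one_smul]
  rintro ((i | i) | (i | i)) ((j | j) | (j | j))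
  all_goals try exact Submodule.zero_mem _
  · refine oneg ?_
    rw [(hg' i).1, (hg j).1]; abel
  · exact mem0 hz
  · refine Submodule.neg_mem _ (memg (C_memd δ) ?_)
    rw [(hg' i).2.1, (hg j).2.2.1]; abel
  · refine Submodule.neg_mem _ (memg (C_memd α) ?_)
    rw [(hg' i).2.2.1, (hg j).2.1]; abel
  · refine memg (bet_memd β (w - 1)) ?_
    rw [(hg' i).2.2.1, (hg j).2.2.1, ew]; abel
  · refine Submodule.neg_mem _ (memg hs ?_)
    rw [(hg' i).2.2.2, (hg j).1]; abel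
  · refine oneg ?_
    rw [(hg' i).2.2.2, (hg j).2.2.2]; abel

theorem Kk_KG (m : Gd d) : KG w m (Kk hd hW m).g := fun i =>
  ⟨Kk_g1 hd m i, Kk_g2 hd m i, Kk_g3 hd m i, Kk_g4 hd m i⟩

theorem tw_TG (F : Fac hW (w • tau d)) (m : Gd d) (l : MvPolynomial (Fin 2) ℂ)
    (hOK : OK (lg (ac w) d W hW) [(l, (0 : MvPolynomial (Fin 2) ℂ), tau d)]) :
    TG w m (tw (F.E m) [(l, (0 : MvPolynomial (Fin 2) ℂ), tau d)] hOK).g := by
  intro i
  refine ⟨Fac.gl F m i, ?_, ?_, ?_⟩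
  · exact (Fac.gr F m i).trans (by abel)
  · exact (tw_gr F m l hOK _).trans (by rw [Fac.gl])
  · exact (tw_gr F m l hOK _).trans (by rw [Fac.gr]; abel)

/-- the Koszul triangle -/
theorem Lin2.tri (hw : 0 < w) (F : Lin2 hW) (m : Gd d) : ∃ (f : F.E (m - tau d) ⟶ F.E m)
    (g : F.E m ⟶ Kk hd hW m)
    (h : Kk hd hW m ⟶ (F.E (m - tau d))⟦(1 : ℤ)⟧), Triangle.mk f g h ∈
      distTriang (MF (lg (ac w) d W hW)) := by
  obtain ⟨s, hs, hv, hw'⟩ := F.exists_s hd hw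
  have hd' : (C F.β * X 1 ^ (w - 1) : MvPolynomial (Fin 2) ℂ) * 0 -
      C F.α * C (-(1 / F.α)) = 1 := by
    rw [mul_zero, ← C_mul, zero_sub, ← C_neg]
    have : -(F.α * -(1 / F.α)) = 1 := by
      have := F.hα
      field_simp
    rw [this, C_1]
  have hl : IsWeightedHomogeneous (wt (ac w) d)
      (0 * X 0 + C (-(1 / F.α)) * X 1 : MvPolynomial (Fin 2) ℂ) (tau d) := by
    have h2 := (C_memd (w := w) (d := d) (-(1 / F.α))).mul X1_memd
    rwa [zero_add, ← zero_add (C (-(1 / F.α)) * X 1), ← zero_mul (X 0)] at h2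
  have hef : F.f = C F.α * X 0 + C F.β * X 1 ^ (w - 1) * X 1 := by
    rw [F.ef, mul_assoc, ← pow_succ, Nat.sub_add_cancel hw]
  set l : MvPolynomial (Fin 2) ℂ := 0 * X 0 + C (-(1 / F.α)) * X 1 with hldef
  have hOK : OK (lg (ac w) d W hW) [(l, (0 : MvPolynomial (Fin 2) ℂ), tau d)] := by
    intro p hp
    rw [List.mem_singleton] at hp
    subst hp
    exact ⟨hl, Submodule.zero_mem _⟩
  have hU : uU (C F.α) (C F.β * X 1 ^ (w - 1)) 0 (C (-(1 / F.α))) s ∈
      Z (tw (F.E m) [(l, (0 : MvPolynomial (Fin 2) ℂ), tau d)] hOK) (Kk hd hW m) := by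
    refine ⟨uU_Hg hw hW rfl hs (tw_TG F.toFac m l hOK) (Kk_KG hd m), ?_⟩
    rw [Kk_D, tw_D]
    exact uU_comm hef hldef hv hw' hd'
  have hV : uV (C F.α) (C F.β * X 1 ^ (w - 1)) 0 (C (-(1 / F.α))) s ∈
      Z (Kk hd hW m) (tw (F.E m) [(l, (0 : MvPolynomial (Fin 2) ℂ), tau d)] hOK) := by
    refine ⟨uV_Hg hw hW rfl hs (Kk_KG hd m) (tw_TG F.toFac m l hOK), ?_⟩
    rw [Kk_D, tw_D]
    exact uV_comm hef hldef hv hw' hd'
  have e1 : tw (F.E m) [(l, (0 : MvPolynomial (Fin 2) ℂ), tau d)] hOK ≅ Kk hd hW m :=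
    isoOf' _ _ hU hV (uVU hd') (uUV hd')
  obtain ⟨e2⟩ := (tw_cone (L := lg (ac w) d W hW) (F.E m)
    (l, (0 : MvPolynomial (Fin 2) ℂ), tau d) [] hOK).iso
  have hT := dist_tri (X := (F.E m).ts (-tau d) 1 (one_mul 1)) (Y := F.E m) (l • 1)
    (twist_Z _ hOK.head.1)
  obtain ⟨e3⟩ := F.toFac.E_ts m (-tau d)
  have h1 := dist_third hT (e2.symm ≪≫ e1)
  rw [← sub_eq_add_neg] at e3
  exact ⟨_, _, _, dist_first h1 e3⟩

end Pool.Agent.Helper445_GMF.Cu
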