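import Pool.Agent.Helper445_GMF.Cu4

/-!
Weights `(w, 1)` and degree `d`: the simple-minded collection.
-/

set_option autoImplicit false
set_option linter.unusedSectionVars false

open CategoryTheory Matrix Pretriangulated Triangulated Limits MvPolynomial ZeroObject

namespace Pool.Agent.Helper445_GMF.Cu

open Bf (gg th_gg snd_gg gext gg_ext gg_inj gg_add gg_sub gg_neg tau_gg sig_gg zero_gg
  th_nsmul_tau sn_sub sn_add sn_tau sn_sig th_zero ddm gg_tsn gg_sig)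

variable {w d : ℕ} {W : MvPolynomial (Fin 2) ℂ} {hW : IsWeightedHomogeneous (ac w) W d}

/-- a product of three pairwise independent factors -/
structure Qc (hW : IsWeightedHomogeneous (ac w) W d) where
  /-- the weight is at least two -/
  hw : 2 ≤ w
  hwd : d = 3 * w
  /-- the factors -/
  F : Fin 3 → Lin2 hW
  prod : W = ∏ p, (F p).f
  ind : ∀ p q, p ≠ q → (F p).α * (F q).β - (F q).α * (F p).β ≠ 0

theorem Qc.hw0 (Q : Qc hW) : 0 < w := by have := Q.hw; omega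
theorem Qc.hd (Q : Qc hW) : 0 < d := by have := Q.hw; have := Q.hwd; omega
theorem Qc.h2 (Q : Qc hW) : 2 ≤ d ∧ w < d := by have := Q.hw; have := Q.hwd; omega

/-- the letters -/
noncomputable def Qc.S (Q : Qc hW) : Fin (2 * w - 1) ⊕ Fin 3 → ℤ → MF (lg (ac w) d W hW)
  | Sum.inl i, k => Kk Q.hd hW (gg d (1 - ((i : ℕ) : ℤ)) k)
  | Sum.inr p, k => (Q.F p).E (gg d (2 - 2 * w) k)

theorem gg_wsn (j k : ℤ) : gg d j k - w • tau d + sig d = gg d (j - w) (k + 1) := by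
  rw [ntau_gg, sig_gg, gg_sub, gg_add]
  simp

theorem gg_twssn (j k : ℤ) : gg d j k - tau d - w • tau d + sig d + sig d =
    gg d (j - 1 - w) (k + 2) := by
  rw [ntau_gg, tau_gg, sig_gg, gg_sub, gg_sub, gg_add, gg_add]
  congr 1 <;> ring

variable (Q : Qc hW)

theorem KK_zero {j k j' l : ℤ}
    (h : ∀ m : ℤ, (j' = j + d * m ∧ l = k - 2 * m) ∨ (j' = j - 1 + d * m ∧ l = k + 1 - 2 * m) ∨
      (j' = j - w + d * m ∧ l = k + 1 - 2 * m) ∨ (j' = j - 1 - w + d * m ∧ l = k + 2 - 2 * m) →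
      False)
    (f : Kk Q.hd hW (gg d j k) ⟶ Kk Q.hd hW (gg d j' l)) : f = 0 := by
  refine K_hom_zero Q.hd Q.h2 (Kk_red Q.hd Q.h2 _) (fun i hi => ?_) f
  rcases Kk_gens (hW := hW) Q.hd (gg d j k) i with h1 | h1 | h1 | h1
  · rw [h1] at hi
    obtain ⟨m, h2, h3⟩ := gg_inj Q.hd hi
    exact h m (by omega)
  · rw [h1, gg_tsn] at hi
    obtain ⟨m, h2, h3⟩ := gg_inj Q.hd hi
    exact h m (by omega)
  · rw [h1, gg_wsn] at hi
    obtain ⟨m, h2, h3⟩ := gg_inj Q.hd hi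
    exact h m (by omega)
  · rw [h1, gg_twssn] at hi
    obtain ⟨m, h2, h3⟩ := gg_inj Q.hd hi
    exact h m (by omega)

theorem EK_zero (p : Fin 3) {j k j' l : ℤ}
    (h : ∀ m : ℤ, (j' = j + d * m ∧ l = k - 2 * m) ∨
      (j' = j - w + d * m ∧ l = k + 1 - 2 * m) → False)
    (f : (Q.F p).E (gg d j k) ⟶ Kk Q.hd hW (gg d j' l)) : f = 0 := by
  refine K_hom_zero Q.hd Q.h2 ((Q.F p).red Q.h2 Q.hw0 _) (fun i hi => ?_) f
  rcases E_gens (Q.F p).toFac (gg d j k) i with h1 | h1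
  · rw [h1] at hi
    obtain ⟨m, h2, h3⟩ := gg_inj Q.hd hi
    exact h m (by omega)
  · rw [h1, gg_wsn] at hi
    obtain ⟨m, h2, h3⟩ := gg_inj Q.hd hi
    exact h m (by omega)

theorem KE_zero (p : Fin 3) {j k j' l : ℤ}
    (h : ∀ m : ℤ, (j - 1 - w = j' + d * m ∧ k + 2 = l - 2 * m) ∨
      (j - 1 - w = j' - w + d * m ∧ k + 2 = l + 1 - 2 * m) → False)
    (f : Kk Q.hd hW (gg d j k) ⟶ (Q.F p).E (gg d j' l)) : f = 0 := by
  refine hom_K_zero Q.hd Q.h2 ((Q.F p).red Q.h2 Q.hw0 _) (fun i hi => ?_) f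
  rw [gg_twssn] at hi
  rcases E_gens (Q.F p).toFac (gg d j' l) i with h1 | h1
  · rw [h1] at hi
    obtain ⟨m, h2, h3⟩ := gg_inj Q.hd hi
    exact h m (by omega)
  · rw [h1, gg_wsn] at hi
    obtain ⟨m, h2, h3⟩ := gg_inj Q.hd hi
    exact h m (by omega)

theorem EE_zero (p q : Fin 3) {j k l : ℤ} (h : l < k)
    (f : (Q.F p).E (gg d j k) ⟶ (Q.F q).E (gg d j l)) : f = 0 := by
  refine hom_deg (fun i i' => Or.inl ?_) f
  have hw := Q.hw
  have hwd := Q.hwd
  have e : (d : ℤ) * l ≤ d * (k - 1) := mul_le_mul_of_nonneg_left (by omega) (by omega)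
  have e2 : (d : ℤ) * (k - 1) = d * k - d := by ring
  have e3 : (d : ℤ) * (k + 1) = d * k + d := by ring
  have e4 : (d : ℤ) * (l + 1) = d * l + d := by ring
  rcases E_gens (Q.F q).toFac (gg d j l) i with h1 | h1 <;>
    rcases E_gens (Q.F p).toFac (gg d j k) i' with h2 | h2
  · rw [h1, h2, th_gg, th_gg]; omega
  · rw [h1, h2, gg_wsn, th_gg, th_gg]; omega
  · rw [h1, h2, gg_wsn, th_gg, th_gg]; omega
  · rw [h1, h2, gg_wsn, gg_wsn, th_gg, th_gg]; omega

theorem lin_coeff {w : ℕ} (hw : 2 ≤ w) {a b a' b' : ℂ}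
    (h : (C a * X 0 + C b * X 1 ^ w : MvPolynomial (Fin 2) ℂ) = C a' * X 0 + C b' * X 1 ^ w) :
    a = a' ∧ b = b' := by
  have e1 : ∀ a b : ℂ, coeff (Finsupp.single 0 1)
      (C a * X 0 + C b * X 1 ^ w : MvPolynomial (Fin 2) ℂ) = a := by
    intro a b
    rw [coeff_add, coeff_C_mul, coeff_C_mul, coeff_X_pow, if_neg, mul_zero, add_zero]
    · simp
    · intro h
      rw [Finsupp.single_eq_single_iff] at h
      rcases h with h | h
      · omega
      · omega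
  have e2 : ∀ a b : ℂ, coeff (Finsupp.single 1 w)
      (C a * X 0 + C b * X 1 ^ w : MvPolynomial (Fin 2) ℂ) = b := by
    intro a b
    rw [coeff_add, coeff_C_mul, coeff_C_mul, coeff_X_pow, if_pos rfl, coeff_X, if_neg]
    · simp
    · intro h
      rw [Finsupp.single_eq_single_iff] at h
      rcases h with h | h
      · omega
      · omega
  exact ⟨by rw [← e1 a b, h, e1], by rw [← e2 a b, h, e2]⟩

theorem dg_eq (p q : Fin 3) (c e : ℂ)
    (h : (rD (I := Fin 1) (Q.F q).f (Q.F q).h) * dg c e = dg c e *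
      rD (I := Fin 1) (Q.F p).f (Q.F p).h) : dg c e = 0 ∨ p = q ∧ c = e := by
  have h1 := congrFun (congrFun h (Sum.inl 0)) (Sum.inr 0)
  have h2 : (Q.F q).f * C e = C c * (Q.F p).f := by
    simpa [rD, dg, Matrix.mul_apply, Fintype.sum_sum_type] using h1
  rw [(Q.F q).ef, (Q.F p).ef] at h2
  have h3 : (C ((Q.F q).α * e) * X 0 + C ((Q.F q).β * e) * X 1 ^ w : MvPolynomial (Fin 2) ℂ) =
      C (c * (Q.F p).α) * X 0 + C (c * (Q.F p).β) * X 1 ^ w := by
    simp only [C_mul]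
    linear_combination h2
  obtain ⟨h4, h5⟩ := lin_coeff Q.hw h3
  by_cases hpq : p = q
  · subst hpq
    right
    refine ⟨rfl, ?_⟩
    have h6 : (Q.F p).α * (e - c) = 0 := by linear_combination h4
    have h7 := (mul_eq_zero.1 h6).resolve_left (Q.F p).hα
    linear_combination -h7
  · left
    have hi := Q.ind p q hpq
    have h6 : c * ((Q.F p).α * (Q.F q).β - (Q.F q).α * (Q.F p).β) = 0 := by
      linear_combination (Q.F q).α * h5 - (Q.F q).β * h4
    have h7 : e * ((Q.F p).α * (Q.F q).β - (Q.F q).α * (Q.F p).β) = 0 := by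
      linear_combination (Q.F p).α * h5 - (Q.F p).β * h4
    have hc := (mul_eq_zero.1 h6).resolve_right hi
    have he := (mul_eq_zero.1 h7).resolve_right hi
    rw [hc, he, dg]
    simp

theorem EE_end (p q : Fin 3) (a : Gd d) (f : (Q.F p).E a ⟶ (Q.F q).E a) :
    f = 0 ∨ IsIso f := by
  obtain ⟨f, hf, rfl⟩ := hm_surj f
  obtain ⟨c, e, hfm⟩ := EE_diag Q.hw Q.hwd (Q.F p).toFac (Q.F q).toFac a hf
  subst hfm
  rcases dg_eq Q p q c e hf.2 with h | ⟨h, h'⟩
  · left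
    exact hm_eq_zero_iff.2 (by rw [h]; exact N_zero)
  · subst h h'
    have h1 : hm _ hf = c • 𝟙 ((Q.F p).E a) := by
      rw [hm_id, hm_smul]
      refine hm_congr ?_
      show dg c c = c • 1
      ext i j
      rcases i with (i | i) <;> rcases j with (j | j) <;>
        simp [dg, Matrix.one_apply, MvPolynomial.smul_eq_C_mul]
    rw [h1]
    exact smul_iso _ _

theorem shiftd (X : MF (lg (ac w) d W hW)) :
    Nonempty (X⟦(1 : ℤ)⟧ ≅ X.ts (sig d) 1 (one_mul 1)) := shift_iso X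

theorem E_sh {c : Gd d} (F : Fac hW c) (m : Gd d) :
    Nonempty ((F.E m)⟦(1 : ℤ)⟧ ≅ F.E (m + sig d)) := by
  obtain ⟨e⟩ := shiftd (F.E m)
  obtain ⟨e'⟩ := F.E_ts m (sig d)
  exact ⟨e ≪≫ e'⟩

theorem K_sh (hd : 0 < d) (m : Gd d) :
    Nonempty ((Kk hd hW m)⟦(1 : ℤ)⟧ ≅ Kk hd hW (m + sig d)) := by
  obtain ⟨e⟩ := shiftd (Kk hd hW m)
  obtain ⟨e'⟩ := Kk_ts (hW := hW) hd m (sig d)
  exact ⟨e ≪≫ e'⟩

theorem Qc.smc : Smc Q.S where
  nz := by
    rintro (i | p) k
    · exact not_zero_of_hom (Kk_nz (hW := hW) Q.hd Q.h2 _)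
    · exact not_zero_of_hom (K_hom Q.hd Q.h2 ((Q.F p).red Q.h2 Q.hw0 (gg d (2 - 2 * w) k))
        (j := Sum.inl (0 : Fin 1)) ((Q.F p).toFac.gl _ 0))
  sh := by
    rintro (i | p) k
    · have h := K_sh (hW := hW) Q.hd (gg d (1 - ((i : ℕ) : ℤ)) k)
      rw [gg_sig] at h
      exact h
    · have h := E_sh (Q.F p).toFac (gg d (2 - 2 * w) k)
      rw [gg_sig] at h
      exact h
  hom := by
    have hw := Q.hw
    have hwd := Q.hwd
    rintro (i | p) (j | q) k l hl f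
    · refine KK_zero Q (fun m h1 => ?_) f
      have hi := i.2
      have hj := j.2
      have hm := ddm d m
      omega
    · refine KE_zero Q q (fun m h1 => ?_) f
      have hi := i.2
      have hm := ddm d m
      omega
    · refine EK_zero Q p (fun m h1 => ?_) f
      have hj := j.2
      have hm := ddm d m
      omega
    · exact EE_zero Q p q hl f
  hom0 := by
    have hw := Q.hw
    have hwd := Q.hwd
    rintro (i | p) (j | q) k f
    · by_cases hij : i = j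
      · subst hij
        exact KK_end Q.hd hw hwd _ f
      · left
        refine KK_zero Q (fun m h1 => ?_) f
        have hi := i.2
        have hj := j.2
        have hm := ddm d m
        have hij' : (i : ℕ) ≠ (j : ℕ) := fun h => hij (Fin.ext h)
        omega
    · left
      refine KE_zero Q q (fun m h1 => ?_) f
      have hi := i.2
      have hm := ddm d m
      omega
    · left
      refine EK_zero Q p (fun m h1 => ?_) f
      have hj := j.2
      have hm := ddm d m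
      omega
    · exact EE_end Q p q _ f

/-- the position of an object with respect to the collection -/
def Qc.H (Q : Qc hW) (k : ℤ) (X : MF (lg (ac w) d W hW)) : Prop := Dw Q.S k X ∧ Vw Q.S (k + 1) X

theorem Qc.H_ex {t : ℤ} {X Y V : MF (lg (ac w) d W hW)} {f : X ⟶ Y} {g : Y ⟶ V}
    {h : V ⟶ X⟦(1 : ℤ)⟧}
    (H : Triangle.mk f g h ∈ distTriang (MF (lg (ac w) d W hW))) (hX : Q.H t X)
    (hV : Q.H t V) : Q.H t Y := Smc.ex Q.smc H hX hV

theorem Qc.H_iso {t : ℤ} {X Y : MF (lg (ac w) d W hW)} (e : X ≅ Y) (hX : Q.H t X) : Q.H t Y :=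
  Smc.iso e hX

/-- the Koszul letters -/
theorem Qc.K_letter {j : ℤ} (h : 3 - 2 * (w : ℤ) ≤ j) (h' : j ≤ 1) :
    ∃ i : Fin (2 * w - 1), ∀ k, Q.S (Sum.inl i) k = Kk Q.hd hW (gg d j k) := by
  have hw := Q.hw
  refine ⟨⟨(1 - j).toNat, by omega⟩, fun k => ?_⟩
  show Kk Q.hd hW (gg d (1 - (((1 - j).toNat : ℕ) : ℤ)) k) = _
  rw [show 1 - (((1 - j).toNat : ℕ) : ℤ) = j by omega]

theorem Qc.H_K {j : ℤ} (h : 3 - 2 * (w : ℤ) ≤ j) (h' : j ≤ 1) (k : ℤ) :
    Q.H k (Kk Q.hd hW (gg d j k)) := by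
  obtain ⟨i, hi⟩ := Q.K_letter h h'
  rw [← hi]
  exact Smc.lt Q.smc (Sum.inl i) k

theorem Qc.H_E0 (p : Fin 3) (k : ℤ) : Q.H k ((Q.F p).E (gg d (2 - 2 * w) k)) :=
  Smc.lt Q.smc (Sum.inr p) k

theorem Qc.H_E (p : Fin 3) (k : ℤ) {j : ℤ} (h : 2 - 2 * (w : ℤ) ≤ j) (h' : j ≤ 1) :
    Q.H k ((Q.F p).E (gg d j k)) := by
  revert h'
  induction j, h using Int.leInduction with
  | base => intro _; exact Q.H_E0 p k
  | succ j h ih =>
    intro h'
    obtain ⟨f, g, u, hT⟩ := (Q.F p).tri Q.hd Q.hw0 (gg d (j + 1) k)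
    have e : gg d (j + 1) k - tau d = gg d j k := by
      rw [tau_gg, gg_sub]
      congr 1 <;> ring
    refine Q.H_ex hT ?_ (Q.H_K (by omega) h' k)
    rw [e]
    exact ih (by omega)

end Pool.Agent.Helper445_GMF.Cu
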