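import Pool.Agent.Helper445_GMF.Cu5

/-!
Weights `(w, 1)` and degree `d`: positions of the standard objects and generation.
-/

set_option autoImplicit false
set_option linter.unusedSectionVars false

open CategoryTheory Matrix Pretriangulated Triangulated Limits MvPolynomial ZeroObject

namespace Pool.Agent.Helper445_GMF.Cu

open Bf (gg th_gg snd_gg gext gg_ext gg_inj gg_add gg_sub gg_neg tau_gg sig_gg zero_gg
  th_nsmul_tau sn_sub sn_add sn_tau sn_sig th_zero ddm gg_tsn gg_sig)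

variable {w d : ℕ} {W : MvPolynomial (Fin 2) ℂ} {hW : IsWeightedHomogeneous (ac w) W d} (Q : Qc hW)

include Q

theorem Qc.f_ne (p : Fin 3) : (Q.F p).f ≠ 0 := by
  intro h
  rw [(Q.F p).ef] at h
  have h2 : (C (Q.F p).α * X 0 + C (Q.F p).β * X 1 ^ w : MvPolynomial (Fin 2) ℂ) =
      C 0 * X 0 + C 0 * X 1 ^ w := by rw [h]; simp
  exact (Q.F p).hα (lin_coeff Q.hw h2).1

theorem Qc.W_ne : W ≠ 0 := by
  rw [Q.prod]
  exact Finset.prod_ne_zero_iff.2 fun p _ => Q.f_ne p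

theorem Qc.cancel (p : Fin 3) {c : MvPolynomial (Fin 2) ℂ} (h : (Q.F p).f * c = W) :
    (Q.F p).h = c := by
  have h1 := (Q.F p).e
  exact mul_left_cancel₀ (Q.f_ne p) (h1.trans h.symm)

theorem Qc.prod3 (p : Fin 3) : (Q.F p).f * ((Q.F (p + 1)).f * (Q.F (p + 2)).f) = W := by
  have h := Q.prod
  rw [Fin.prod_univ_three] at h
  refine Eq.trans ?_ h.symm
  fin_cases p
  · show (Q.F 0).f * ((Q.F 1).f * (Q.F 2).f) = _
    ring
  · show (Q.F 1).f * ((Q.F 2).f * (Q.F 0).f) = _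
    ring
  · show (Q.F 2).f * ((Q.F 0).f * (Q.F 1).f) = _
    ring

/-- products of two factors -/
noncomputable def Qc.P (p : Fin 3) : Fac hW (w • tau d + w • tau d) where
  f := (Q.F (p + 1)).f * (Q.F (p + 2)).f
  h := (Q.F p).f
  hf := (Q.F (p + 1)).hf.mul (Q.F (p + 2)).hf
  hh := by
    have h := (Q.F p).hf
    have e : w • tau d = sig d + sig d - (w • tau d + w • tau d) := by
      rw [ntau_gg, sig_gg, gg_add, gg_add, gg_sub]
      refine gg_ext (-1) ?_ (by norm_num)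
      have := Q.hwd
      push_cast [this]
      ring
    rwa [← e]
  e := by rw [mul_comm]; exact Q.prod3 p

theorem Qc.P_pos (p : Fin 3) (k : ℤ) {j : ℤ} (h : 2 ≤ j) (h' : j ≤ w + 1) :
    Q.H k ((Q.P p).E (gg d (j - w) k)) := by
  have hw := Q.hw
  obtain ⟨f, g, u, hT⟩ := Fac.tri (Q.F (p + 1)).toFac (Q.F (p + 2)).toFac (Q.P p) rfl rfl
    (Q.cancel _ (by
      show (Q.F (p + 1)).f * ((Q.F (p + 2)).f * (Q.F p).f) = W
      refine Eq.trans ?_ (Q.prod3 p)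
      ring))
    (Q.cancel _ (by
      show (Q.F (p + 2)).f * ((Q.F (p + 1)).f * (Q.F p).f) = W
      refine Eq.trans ?_ (Q.prod3 p)
      ring)) (gg d (j - w) k)
  refine Q.H_ex hT ?_ (Q.H_E _ k (by omega) (by omega))
  have e : gg d (j - w) k - w • tau d = gg d (j - 2 * w) k := by
    rw [ntau_gg, gg_sub, show j - w - w = j - 2 * w by ring, sub_zero]
  rw [e]
  exact Q.H_E _ k (by omega) (by omega)

theorem Qc.H_E2 (p : Fin 3) (k : ℤ) {j : ℤ} (h : 2 ≤ j) (h' : j ≤ w + 1) :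
    Q.H (k + 1) ((Q.F p).E (gg d j k)) := by
  obtain ⟨e⟩ := Fac.swap (Q.P p) (Q.F p).toFac (by
    rw [ntau_gg, sig_gg, gg_add, gg_add, gg_sub]
    refine gg_ext (-1) ?_ (by norm_num)
    have := Q.hwd
    push_cast [this]
    ring) rfl (Q.cancel p (Q.prod3 p)) (gg d (j - w) (k + 1))
  have e2 : gg d (j - w) (k + 1) + sig d - (w • tau d + w • tau d) = gg d j k := by
    rw [ntau_gg, sig_gg, gg_add, gg_add, gg_sub]
    refine gg_ext 1 ?_ (by ring)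
    have := Q.hwd
    push_cast [this]
    ring
  rw [e2] at e
  exact Q.H_iso e (Q.P_pos p (k + 1) h h')

omit Q in
/-- the rotated Koszul triangle -/
theorem tri2 (hd : 0 < d) (hw : 0 < w) (F : Lin2 hW) (m : Gd d) : ∃ (f : F.E m ⟶ Kk hd hW m)
    (g : Kk hd hW m ⟶ F.E (m - tau d + sig d)) (h : F.E (m - tau d + sig d) ⟶ (F.E m)⟦(1 : ℤ)⟧),
    Triangle.mk f g h ∈ distTriang (MF (lg (ac w) d W hW)) := by
  obtain ⟨f, g, h, hT⟩ := F.tri hd hw m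
  obtain ⟨e⟩ := E_sh F.toFac (m - tau d)
  have R : Triangle.mk g h (-f⟦(1 : ℤ)⟧') ∈ distTriang _ := rot_of_distTriang _ hT
  exact ⟨_, _, _, dist_third R e⟩

theorem Qc.H_K3 (k : ℤ) : Q.H k (Kk Q.hd hW (gg d (2 - 2 * w) k)) := by
  have hw := Q.hw
  obtain ⟨f, g, u, hT⟩ := tri2 Q.hd Q.hw0 (Q.F 0) (gg d (2 - 2 * w) k)
  refine Q.H_ex hT (Q.H_E0 _ k) ?_
  rw [gg_tsn, show gg d (2 - 2 * w - 1) (k + 1) = gg d (w + 1) (k - 1) from
    gg_ext 1 (by have := Q.hwd; push_cast [this]; ring) (by ring)]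
  have := Q.H_E2 0 (k - 1) (j := w + 1) (by omega) le_rfl
  rwa [sub_add_cancel] at this

theorem Qc.H_K2 (k : ℤ) : Q.H (k + 1) (Kk Q.hd hW (gg d 2 k)) := by
  have hw := Q.hw
  obtain ⟨f, g, u, hT⟩ := tri2 Q.hd Q.hw0 (Q.F 0) (gg d 2 k)
  refine Q.H_ex hT (Q.H_E2 _ k le_rfl (by omega)) ?_
  rw [gg_tsn]
  exact Q.H_E _ _ (by omega) (by omega)

section cat

universe v u

variable {C : Type u} [Category.{v} C] [Preadditive C] [HasZeroObject C] [HasShift C ℤ]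
  [∀ n : ℤ, (shiftFunctor C n).Additive] [Pretriangulated C] [IsTriangulated C]

omit Q in
theorem vw_of_letters {ι : Type} {S : ι → ℤ → C} {t : ℤ} {X : C}
    (h : ∀ i l, t ≤ l → ∀ f : S i l ⟶ X, f = 0) : Vw S t X := by
  have key : ∀ {k : ℤ} {m : ℕ} {Y : C}, Srt S k m Y → t ≤ k → ∀ f : Y ⟶ X, f = 0 := by
    intro k m Y hY
    induction hY with
    | nil h0 => intro _ f; exact h0.eq_of_src _ _
    | @snoc k k' m A Y i f g h' hT hk hA ih =>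
      intro ht φ
      obtain ⟨c, hc⟩ := ex_y2 hT φ (ih (by omega) _)
      rw [hc, h i k' (by omega) c, comp_zero]
  rintro Y ⟨m, hY⟩
  exact key hY le_rfl

end cat

theorem Qc.H_K4 (k : ℤ) {j : ℤ} (h : 3 ≤ j) (h' : j ≤ w + 1) :
    Q.H (k + 1) (Kk Q.hd hW (gg d j k)) := by
  have hw := Q.hw
  have hwd := Q.hwd
  refine ⟨?_, ?_⟩
  · obtain ⟨f, g, u, hT⟩ := tri2 Q.hd Q.hw0 (Q.F 0) (gg d j k)
    refine Dw.ex Q.smc hT (Q.H_E2 0 k (by omega) h').1 ?_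
    rw [gg_tsn]
    exact (Q.H_E2 0 (k + 1) (j := j - 1) (by omega) (by omega)).1.mono (by omega)
  · refine vw_of_letters ?_
    rintro (i | p) l hl f
    · refine KK_zero Q (fun m h1 => ?_) f
      have hi := i.2
      have hm := ddm d m
      omega
    · refine EK_zero Q p (fun m h1 => ?_) f
      have hm := ddm d m
      omega

omit Q in
/-- the position of an element of the grading group -/
def Pos (w : ℕ) (j k p : ℤ) : Prop :=
  (2 - 2 * (w : ℤ) ≤ j ∧ j ≤ 1 ∧ p = k) ∨ (2 ≤ j ∧ j ≤ w + 1 ∧ p = k + 1)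

/-- the positions of the twists of the Koszul matrix factorization -/
theorem Qc.H_Kk {j k p : ℤ} (h : Pos w j k p) : Q.H p (Kk Q.hd hW (gg d j k)) := by
  rcases h with ⟨h1, h2, rfl⟩ | ⟨h1, h2, rfl⟩
  · rcases eq_or_lt_of_le h1 with h | h
    · rw [← h]; exact Q.H_K3 _
    · exact Q.H_K (by omega) h2 _
  · rcases eq_or_lt_of_le h1 with h | h
    · rw [← h]; exact Q.H_K2 k
    · exact Q.H_K4 k (by omega) h2

theorem Qc.H_Ee (q : Fin 3) {j k p : ℤ} (h : Pos w j k p) :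
    Q.H p ((Q.F q).E (gg d j k)) := by
  rcases h with ⟨h1, h2, rfl⟩ | ⟨h1, h2, rfl⟩
  · exact Q.H_E q _ h1 h2
  · exact Q.H_E2 q k h1 h2

omit Q in
theorem exists_pos {j : ℤ} (h : 2 - 2 * (w : ℤ) ≤ j) (h' : j ≤ w + 1) (k : ℤ) :
    ∃ p, Pos w j k p := by
  rcases le_or_gt 2 j with h1 | h1
  · exact ⟨k + 1, Or.inr ⟨h1, h', rfl⟩⟩
  · exact ⟨k, Or.inl ⟨h, by omega, rfl⟩⟩

/-- a word -/
def Qc.Wd (Q : Qc hW) (X : MF (lg (ac w) d W hW)) : Prop := ∃ k m, Srt Q.S k m X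

theorem Qc.Wd_H {k : ℤ} {X : MF (lg (ac w) d W hW)} (h : Q.H k X) : Q.Wd X := ⟨k, h.1⟩

theorem Qc.cls : Cls (L := lg (ac w) d W hW) Q.Wd where
  iso e := by
    rintro ⟨k, m, h⟩
    exact ⟨k, m, h.ofIso e⟩
  zero h := ⟨0, 0, Srt.nil h⟩
  ext := by
    rintro X Y V f g h H ⟨k, m, hX⟩ ⟨k', m', hV⟩
    have h1 : Dw Q.S (min k k') X := ⟨m, hX.mono (min_le_left _ _)⟩
    obtain ⟨m'', h2⟩ := Dw.ext' Q.smc m' hV (min_le_right k k') h1 f g h H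
    exact ⟨_, _, h2⟩

theorem Qc.Wd_ret {X Y : MF (lg (ac w) d W hW)} (i : X ⟶ Y) (q : Y ⟶ X) (h : i ≫ q = 𝟙 X)
    (hY : Q.Wd Y) : Q.Wd X := by
  obtain ⟨V, ⟨e⟩⟩ := ret_biprod i q h
  obtain ⟨k, m, hY⟩ := hY
  exact (Srt.retract Q.smc m hY X V e).1

theorem Qc.Wd_K (m : Gd d) : Q.Wd (Kk Q.hd hW m) := by
  obtain ⟨j, k, h1, h2, rfl⟩ := exists_gg Q.hwd Q.hd m
  obtain ⟨p, hp⟩ := exists_pos h1 h2 k
  exact Q.Wd_H (Q.H_Kk hp)

theorem Qc.Wd_E (q : Fin 3) (m : Gd d) : Q.Wd ((Q.F q).E m) := by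
  obtain ⟨j, k, h1, h2, rfl⟩ := exists_gg Q.hwd Q.hd m
  obtain ⟨p, hp⟩ := exists_pos h1 h2 k
  exact Q.Wd_H (Q.H_Ee q hp)

theorem Qc.Wd_ts (g : Gd d) (X : MF (lg (ac w) d W hW)) (h : Q.Wd X) :
    Q.Wd (X.ts g 1 (one_mul 1)) := by
  obtain ⟨k, m, h⟩ := h
  induction h with
  | nil h0 => exact Q.cls.zero (ts_isZero g _ h0)
  | @snoc k k' m A X i f g' h' hT hk hA ih =>
    obtain ⟨f2, g2, h2, hd⟩ := ts_dist' g _ hT
    refine Q.cls.ext hd ih ?_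
    rcases i with i | p
    · obtain ⟨e⟩ := Kk_ts (hW := hW) Q.hd (gg d (1 - ((i : ℕ) : ℤ)) k') g
      exact Q.cls.iso e.symm (Q.Wd_K _)
    · obtain ⟨e⟩ := (Q.F p).toFac.E_ts (gg d (2 - 2 * w) k') g
      exact Q.cls.iso e.symm (Q.Wd_E _ _)

theorem Qc.gen (hs : ∀ x : Fin 2 → ℂ, (∀ i, eval x (pderiv i W) = 0) → x = 0)
    (X : MF (lg (ac w) d W hW)) : ∃ k m, Srt Q.S k m X := by
  refine Cls.all (hd := Q.hd) (ac_pos Q.hw0) Q.cls
    (fun i q h => Q.Wd_ret i q h) Q.Wd_ts hs (fun g => ?_) X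
  obtain ⟨e⟩ := KK_iso (hW := hW) Q.hd g
  exact Q.cls.iso e.symm (Q.Wd_K _)

end Pool.Agent.Helper445_GMF.Cu
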