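import Pool.Agent.Helper445_GMF.Cu6

/-!
Weights `(w, 1)` and degree `3 w`: the generators of a reduced matrix factorization come in pairs.
-/

set_option autoImplicit false
set_option linter.unusedSectionVars false

open CategoryTheory Matrix Pretriangulated Triangulated Limits MvPolynomial ZeroObject

namespace Pool.Agent.Helper445_GMF.Cu

open Bf (gg th_gg snd_gg gext gg_ext gg_inj gg_add gg_sub gg_neg tau_gg sig_gg zero_gg
  th_nsmul_tau sn_sub sn_add sn_tau sn_sig th_zero ddm gg_tsn gg_sig)

section lin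

variable {I : Type} [Fintype I] [DecidableEq I]

/-- a permutation in the support of a matrix -/
theorem exists_perm {T N : Matrix I I ℂ} {c : ℂ} (hc : c ≠ 0) (hT : T * T = c • 1 + N * N)
    (h : I → ℤ) (hN : ∀ i j, N i j ≠ 0 → h j < h i) : ∃ π : Equiv.Perm I, ∀ i, T (π i) i ≠ 0 := by
  have hdet : T.det ≠ 0 := by
    intro h0
    rw [← Matrix.exists_mulVec_eq_zero_iff] at h0
    obtain ⟨v, hv, hv0⟩ := h0
    have h1 : (c • 1 + N * N) *ᵥ v = 0 := by
      rw [← hT, ← Matrix.mulVec_mulVec, hv0, Matrix.mulVec_zero]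
    apply hv
    have key : ∀ (n : ℕ) (i : I), (∀ j, h i ≤ h j + n → True) →
        (Finset.univ.filter fun j => h j < h i).card = n → v i = 0 := by
      intro n
      induction n using Nat.strong_induction_on with
      | _ n ih =>
        intro i _ hn
        have hz : ∀ j, h j < h i → v j = 0 := by
          intro j hj
          refine ih _ ?_ j (fun _ _ => trivial) rfl
          rw [← hn]
          refine Finset.card_lt_card ?_
          rw [Finset.ssubset_iff_of_subset]
          · exact ⟨j, by simp [hj], by simp⟩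
          · intro k hk
            simp only [Finset.mem_filter, Finset.mem_univ, true_and] at hk ⊢
            omega
        have h2 := congrFun h1 i
        rw [Matrix.add_mulVec, Matrix.smul_mulVec, Matrix.one_mulVec, Pi.add_apply,
          Pi.smul_apply, smul_eq_mul] at h2
        have h3 : ((N * N) *ᵥ v) i = 0 := by
          rw [Matrix.mulVec, dotProduct]
          refine Finset.sum_eq_zero fun j _ => ?_
          by_cases hj : h j < h i
          · rw [hz j hj, mul_zero]
          · have h4 : (N * N) i j = 0 := by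
              rw [Matrix.mul_apply]
              refine Finset.sum_eq_zero fun k _ => ?_
              by_contra hk
              have h5 := hN i k (left_ne_zero_of_mul hk)
              have h6 := hN k j (right_ne_zero_of_mul hk)
              omega
            rw [h4, zero_mul]
        rw [h3, add_zero] at h2
        exact (mul_eq_zero.1 h2).resolve_left hc
    funext i
    exact key _ i (fun _ _ => trivial) rfl
  rw [Matrix.det_apply] at hdet
  obtain ⟨π, _, hπ⟩ := Finset.exists_ne_zero_of_sum_ne_zero hdet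
  refine ⟨π, fun i h0 => hπ ?_⟩
  have h1 : ∏ i, T (π i) i = 0 :=
    Finset.prod_eq_zero (f := fun i => T (π i) i) (Finset.mem_univ i) h0
  rw [h1, smul_zero]

end lin

theorem coeff_x_mul (p q : MvPolynomial (Fin 2) ℂ) (s : ℕ) :
    coeff (Finsupp.single 0 s) (p * q) = ∑ x ∈ Finset.HasAntidiagonal.antidiagonal s,
      coeff (Finsupp.single 0 x.1) p * coeff (Finsupp.single 0 x.2) q := by
  rw [coeff_mul, Finsupp.antidiagonal_single, Finset.sum_map]
  rfl

variable {w d : ℕ} {W : MvPolynomial (Fin 2) ℂ} {hW : IsWeightedHomogeneous (ac w) W d}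

/-- the coefficients of the powers of `x` in the differential -/
noncomputable def nx (B : MF (lg (ac w) d W hW)) (r : ℕ) : Matrix B.I B.I ℂ :=
  fun i j => coeff (Finsupp.single 0 r) (B.D i j)

theorem nx_sq (B : MF (lg (ac w) d W hW)) (s : ℕ) :
    ∑ x ∈ Finset.HasAntidiagonal.antidiagonal s, nx B x.1 * nx B x.2 = coeff (Finsupp.single 0 s) W • 1 := by
  ext i j
  have h := congrFun (congrFun B.sq i) j
  have h1 := congrArg (coeff (Finsupp.single 0 s)) h
  have e1 : coeff (Finsupp.single 0 s) ((B.D * B.D) i j) =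
      ∑ k, ∑ x ∈ Finset.HasAntidiagonal.antidiagonal s, nx B x.1 i k * nx B x.2 k j := by
    rw [Matrix.mul_apply, coeff_sum]
    exact Finset.sum_congr rfl fun k _ => coeff_x_mul _ _ _
  have e2 : coeff (Finsupp.single 0 s)
      (((lg (ac w) d W hW).W • (1 : Matrix B.I B.I (MvPolynomial (Fin 2) ℂ))) i j) =
      (coeff (Finsupp.single 0 s) W • (1 : Matrix B.I B.I ℂ)) i j := by
    rw [Matrix.smul_apply, Matrix.smul_apply, Matrix.one_apply, Matrix.one_apply]
    split_ifs
    · show coeff _ (W * 1) = _ * 1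
      rw [mul_one, mul_one]
    · show coeff _ (W * 0) = _ * 0
      rw [mul_zero, mul_zero, coeff_zero]
  rw [e1] at h1
  rw [← e2]
  refine Eq.trans ?_ h1
  rw [Matrix.sum_apply, Finset.sum_comm]
  exact Finset.sum_congr rfl fun x _ => Matrix.mul_apply

theorem nx_deg {B : MF (lg (ac w) d W hW)} {r : ℕ} {i j : B.I} (h : nx B r i j ≠ 0) :
    B.g i = B.g j + gg d (r * w) (-1) := by
  have h1 := deg_eq (B.hD i j) h
  have e : Finsupp.weight (ac w) (Finsupp.single 0 r) = r * w := by
    rw [Finsupp.weight_apply, Finsupp.sum_single_index (by simp)]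
    rfl
  rw [e] at h1
  have h2 : B.g i = B.g j + ((r * w) • tau d - sig d) := by
    rw [h1]
    show B.g i = B.g j + (B.g i - B.g j + sig d - sig d)
    abel
  rw [h2, ntau_gg, sig_gg, gg_sub, zero_sub, sub_zero, Nat.cast_mul]

/-- the generators come in pairs -/
theorem exists_pairs (hwd : d = 3 * w) (hw : 0 < w) (hc : coeff (Finsupp.single 0 3) W ≠ 0)
    {B : MF (lg (ac w) d W hW)} (hR : Red0 B) : ∃ π : Equiv.Perm B.I, ∀ i,
      B.g i = B.g (π i) + gg d (-w) 1 ∨ B.g (π i) = B.g i + gg d (-w) 1 := by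
  have h0 : nx B 0 = 0 := by
    ext i j
    show coeff (Finsupp.single 0 0) (B.D i j) = 0
    rw [Finsupp.single_zero]
    exact hR i j
  have h2 := nx_sq B 2
  have h3 := nx_sq B 3
  have hW2 : coeff (Finsupp.single 0 2) W = 0 := by
    by_contra hn
    have h4 := hW hn
    have e : Finsupp.weight (ac w) (Finsupp.single 0 2) = 2 * w := by
      rw [Finsupp.weight_apply, Finsupp.sum_single_index (by simp)]
      rfl
    rw [e] at h4
    omega
  rw [hW2, zero_smul] at h2
  simp only [Finset.Nat.antidiagonal_succ, Finset.Nat.antidiagonal_zero, Finset.map_singleton,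
    Finset.sum_cons, Finset.map_cons, Finset.sum_singleton, Function.Embedding.prodMap,
    Function.Embedding.coeFn_mk, Prod.map, h0, Function.Embedding.refl_apply] at h2 h3
  simp at h2 h3
  have hT : (nx B 1 + nx B 2) * (nx B 1 + nx B 2) =
      coeff (Finsupp.single 0 3) W • 1 + nx B 2 * nx B 2 := by
    rw [add_mul, mul_add, mul_add]
    rw [← h3, h2]
    abel
  obtain ⟨π, hπ⟩ := exists_perm hc hT (fun i => th d (B.g i)) (by
    intro i j hij
    have h5 := nx_deg hij
    rw [h5, th_add, th_gg]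
    push_cast
    omega)
  refine ⟨π, fun i => ?_⟩
  have h6 := hπ i
  have h7 : nx B 1 (π i) i ≠ 0 ∨ nx B 2 (π i) i ≠ 0 := by
    by_contra hn
    push Not at hn
    apply h6
    rw [Matrix.add_apply, hn.1, hn.2, add_zero]
  rcases h7 with h7 | h7
  · left
    rw [nx_deg h7, add_assoc, gg_add]
    rw [show gg d (((1 : ℕ) : ℤ) * w + -w) (-1 + 1) = 0 by rw [zero_gg]; congr 1 <;> push_cast <;> ring,
      add_zero]
  · right
    rw [nx_deg h7]
    congr 1
    refine gg_ext (-1) ?_ (by norm_num)
    subst hwd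
    push_cast
    ring

theorem pair_sum {I : Type} [Fintype I] (π : Equiv.Perm I) (φ : I → ℝ) :
    2 * ∑ i, φ i = ∑ i, (φ i + φ (π i)) := by
  rw [Finset.sum_add_distrib, Equiv.sum_comp π φ]
  ring

/-- positivity from pairs -/
theorem pair_pos (hwd : d = 3 * w) (hw : 0 < w) (hc : coeff (Finsupp.single 0 3) W ≠ 0)
    {B : MF (lg (ac w) d W hW)} (hR : Red0 B) (hn : Nonempty B.I) (φ : Gd d → ℝ)
    (h : ∀ i j, B.g j = B.g i + gg d (-w) 1 → 0 < φ (B.g i) + φ (B.g j)) :
    0 < ∑ i, φ (B.g i) := by
  obtain ⟨π, hπ⟩ := exists_pairs hwd hw hc hR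
  have h1 := pair_sum π fun i => φ (B.g i)
  have h2 : 0 < ∑ i, (φ (B.g i) + φ (B.g (π i))) := by
    refine Finset.sum_pos (fun i _ => ?_) ⟨hn.some, Finset.mem_univ _⟩
    rcases hπ i with h3 | h3
    · rw [add_comm]
      exact h _ _ h3
    · exact h _ _ h3
  rw [← h1] at h2
  linarith

/-- there is a pair -/
theorem pair_ex (hwd : d = 3 * w) (hw : 0 < w) (hc : coeff (Finsupp.single 0 3) W ≠ 0)
    {B : MF (lg (ac w) d W hW)} (hR : Red0 B) (i : B.I) :
    ∃ j, B.g i = B.g j + gg d (-w) 1 ∨ B.g j = B.g i + gg d (-w) 1 := by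
  obtain ⟨π, hπ⟩ := exists_pairs hwd hw hc hR
  exact ⟨π i, hπ i⟩

theorem Qc.fx (Q : Qc hW) (p : Fin 3) (r : ℕ) : coeff (Finsupp.single 0 r) (Q.F p).f =
    if r = 1 then (Q.F p).α else 0 := by
  have hw := Q.hw
  rw [(Q.F p).ef, coeff_add, coeff_C_mul, coeff_C_mul, coeff_X_pow, coeff_X]
  rw [if_neg (show ¬ Finsupp.single (1 : Fin 2) w = Finsupp.single 0 r by
    intro h
    rw [Finsupp.single_eq_single_iff] at h
    rcases h with h | h
    · exact absurd h.1 (by decide)
    · omega), mul_zero, add_zero]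
  by_cases h : r = 1
  · subst h
    rw [if_pos rfl, if_pos rfl, mul_one]
  · rw [if_neg h, if_neg (fun h2 => h ?_), mul_zero]
    have := (Finsupp.single_injective (0 : Fin 2)) h2
    exact this.symm

theorem Qc.hc (Q : Qc hW) : coeff (Finsupp.single 0 3) W ≠ 0 := by
  have h := Q.prod
  rw [Fin.prod_univ_three] at h
  have h2 : coeff (Finsupp.single 0 3) W = (Q.F 0).α * (Q.F 1).α * (Q.F 2).α := by
    refine (congrArg (coeff (Finsupp.single 0 3)) h).trans ?_
    rw [coeff_x_mul]
    simp only [coeff_x_mul, Q.fx]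
    simp [Finset.Nat.antidiagonal_succ]
  rw [h2]
  exact mul_ne_zero (mul_ne_zero (Q.F 0).hα (Q.F 1).hα) (Q.F 2).hα

end Pool.Agent.Helper445_GMF.Cu
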