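import Pool.Agent.Helper445_GMF.Cu7
import Pool.Agent.Helper445_GMF.Adv

/-!
Weights `(w, 1)` and degree `d`: twists of words and the length.
-/

set_option autoImplicit false
set_option linter.unusedSectionVars false

open CategoryTheory Matrix Pretriangulated Triangulated Limits MvPolynomial ZeroObject

namespace Pool.Agent.Helper445_GMF.Cu

open Bf (gg th_gg snd_gg gext gg_ext gg_inj gg_add gg_sub gg_neg tau_gg sig_gg zero_gg
  th_nsmul_tau sn_sub sn_add sn_tau sn_sig th_zero ddm gg_tsn gg_sig)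

variable {w d : ℕ} {W : MvPolynomial (Fin 2) ℂ} {hW : IsWeightedHomogeneous (ac w) W d} (Q : Qc hW)

theorem Qc.dw_ts {g : Gd d} (hg : ∀ i k, Dw Q.S k ((Q.S i k).ts g 1 (one_mul 1))) {t : ℤ}
    {X : MF (lg (ac w) d W hW)} (h : Dw Q.S t X) : Dw Q.S t (X.ts g 1 (one_mul 1)) := by
  obtain ⟨m, h⟩ := h
  induction h with
  | nil h0 => exact Dw.of_zero (ts_isZero g _ h0)
  | @snoc k k' m A X i f g' h' hT hk hA ih =>
    obtain ⟨f2, g2, h2, hd⟩ := ts_dist' g _ hT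
    exact Dw.ex Q.smc hd (ih.mono hk) ((hg i k').mono hk)

theorem Qc.dwt {t : ℤ} {X : MF (lg (ac w) d W hW)} (h : Dw Q.S t X) :
    Dw Q.S t (X.ts (tau d) 1 (one_mul 1)) := by
  have hw := Q.hw
  refine Q.dw_ts ?_ h
  rintro (i | p) k
  · have hi := i.2
    obtain ⟨e⟩ := Kk_ts (hW := hW) Q.hd (gg d (1 - ((i : ℕ) : ℤ)) k) (tau d)
    refine Dw.ofIso e.symm ?_
    rw [tau_gg, gg_add]
    rcases Nat.eq_zero_or_pos (i : ℕ) with h | h
    · exact (Q.H_Kk (p := k + 0 + 1) (Or.inr ⟨by omega, by omega, rfl⟩)).1.mono (by omega)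
    · exact (Q.H_Kk (p := k + 0) (Or.inl ⟨by omega, by omega, rfl⟩)).1.mono (by omega)
  · obtain ⟨e⟩ := (Q.F p).toFac.E_ts (gg d (2 - 2 * w) k) (tau d)
    refine Dw.ofIso e.symm ?_
    rw [show gg d (2 - 2 * w) k + tau d = gg d (2 - 2 * w + 1) (k + 0) by rw [tau_gg, gg_add]]
    exact (Q.H_Ee p (p := k + 0) (Or.inl ⟨by omega, by omega, rfl⟩)).1.mono (by omega)

theorem Qc.dws {t : ℤ} {X : MF (lg (ac w) d W hW)} (h : Dw Q.S t X) :
    Dw Q.S t (X.ts (gg d (-1) 1) 1 (one_mul 1)) := by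
  have hw := Q.hw
  refine Q.dw_ts ?_ h
  rintro (i | p) k
  · have hi := i.2
    obtain ⟨e⟩ := Kk_ts (hW := hW) Q.hd (gg d (1 - ((i : ℕ) : ℤ)) k) (gg d (-1) 1)
    refine Dw.ofIso e.symm ?_
    rw [gg_add]
    exact (Q.H_Kk (p := k + 1) (Or.inl ⟨by omega, by omega, rfl⟩)).1.mono (by omega)
  · obtain ⟨e⟩ := (Q.F p).toFac.E_ts (gg d (2 - 2 * w) k) (gg d (-1) 1)
    refine Dw.ofIso e.symm ?_
    rw [gg_add, show gg d (2 - 2 * w + -1) (k + 1) = gg d (w + 1) (k - 1) from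
      gg_ext 1 (by have := Q.hwd; push_cast [this]; ring) (by ring)]
    exact (Q.H_Ee p (p := k - 1 + 1) (Or.inr ⟨by omega, by omega, rfl⟩)).1.mono (by omega)

theorem ro_ts {U : MF (lg (ac w) d W hW) → Prop} {g : Gd d}
    (hU : ∀ X, U X → U (X.ts g 1 (one_mul 1))) {X : MF (lg (ac w) d W hW)} (h : Ro U X) :
    Ro U (X.ts (-g) 1 (one_mul 1)) := by
  intro Y hY f
  refine hz_of_ts (g := g) ?_ f
  exact hz_iso ⟨Iso.refl _⟩ (ts_ts_iso' X g) (h _ (hU Y hY))

theorem Qc.letter_ts (i : Fin (2 * w - 1) ⊕ Fin 3) (k j : ℤ) :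
    Nonempty ((Q.S i k).ts (j • sig d) 1 (one_mul 1) ≅ Q.S i (k + j)) := by
  have e0 : (j • sig d : Gd d) = gg d 0 j := by simp [gg]
  rw [e0]
  rcases i with i | p
  · have h := Kk_ts (hW := hW) Q.hd (gg d (1 - ((i : ℕ) : ℤ)) k) (gg d 0 j)
    rw [gg_add, add_zero] at h
    exact h
  · have h := (Q.F p).toFac.E_ts (gg d (2 - 2 * w) k) (gg d 0 j)
    rw [gg_add, add_zero] at h
    exact h

theorem Qc.srt_ts (j : ℤ) {k : ℤ} {m : ℕ} {X : MF (lg (ac w) d W hW)} (h : Srt Q.S k m X) :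
    Srt Q.S (k + j) m (X.ts (j • sig d) 1 (one_mul 1)) := by
  induction h with
  | nil h0 => exact Srt.nil (ts_isZero _ _ h0)
  | @snoc k k' m A X i f g' h' hT hk hA ih =>
    obtain ⟨f2, g2, h2, hd⟩ := ts_dist' (j • sig d) _ hT
    obtain ⟨e⟩ := Q.letter_ts i k' j
    exact Srt.snoc i _ _ _ (dist_third hd e) (by omega) ih

theorem Qc.dw_sig (j : ℤ) {t : ℤ} {X : MF (lg (ac w) d W hW)} (h : Dw Q.S t X) :
    Dw Q.S (t + j) (X.ts (j • sig d) 1 (one_mul 1)) := by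
  obtain ⟨m, h⟩ := h
  exact ⟨m, Q.srt_ts j h⟩

theorem Qc.vw_sig (j : ℤ) {t : ℤ} {X : MF (lg (ac w) d W hW)} (h : Vw Q.S t X) :
    Vw Q.S (t + j) (X.ts (j • sig d) 1 (one_mul 1)) := by
  intro Y hY f
  have h1 : Dw Q.S t (Y.ts (-(j • sig d)) 1 (one_mul 1)) := by
    have := Q.dw_sig (-j) hY
    rw [neg_smul, add_neg_cancel_right] at this
    exact this
  refine hz_of_ts (g := -(j • sig d)) ?_ f
  exact hz_iso ⟨Iso.refl _⟩ (ts_ts_iso X (j • sig d)) (h _ h1)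

theorem Qc.word_vw {k : ℤ} {m : ℕ} {X : MF (lg (ac w) d W hW)} (h : Srt Q.S k m X) :
    ∃ t, Vw Q.S t X := by
  induction h with
  | nil h0 => exact ⟨0, Ro_zero h0⟩
  | @snoc k k' m A X i f g' h' hT hk hA ih =>
    obtain ⟨t, ht⟩ := ih
    have h1 : Vw Q.S (k' + 1) (Q.S i k') := Vw.letter Q.smc (by omega) i
    exact ⟨max t (k' + 1), Ro_ext hT (ht.mono (le_max_left _ _)) (h1.mono (le_max_right _ _))⟩

section psi

/-- the values of the length on a fundamental domain -/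
noncomputable def vl (w : ℕ) (r : ℤ) : ℂ :=
  if 2 ≤ r then 0 else if 2 - (w : ℤ) ≤ r then 2 * (r : ℂ) + 3 * (w : ℂ) - 2
    else (r : ℂ) - 1 + 2 * (w : ℂ)

/-- the periodic extension -/
noncomputable def pc (w d : ℕ) (j : ℤ) : ℂ :=
  vl w ((j - (2 - 2 * w)) % d + (2 - 2 * w))

theorem pc_eq {w d : ℕ} (hwd : d = 3 * w) {j r : ℤ} (m : ℤ) (h : j = r + d * m)
    (h1 : 2 - 2 * (w : ℤ) ≤ r) (h2 : r ≤ w + 1) : pc w d j = vl w r := by
  unfold pc
  congr 1
  have e : j - (2 - 2 * (w : ℤ)) = (r - (2 - 2 * w)) + d * m := by rw [h]; ring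
  rw [e, Int.add_mul_emod_self_left, Int.emod_eq_of_lt (by omega) (by omega)]
  ring

theorem pc_per (w d : ℕ) (j : ℤ) : pc w d (j + d) = pc w d j := by
  unfold pc
  congr 2
  have e : j + d - (2 - 2 * (w : ℤ)) = j - (2 - 2 * w) + d := by ring
  rw [e, Int.add_emod_right]

/-- the contribution of a generator to the length -/
noncomputable def psi (w d : ℕ) (g : Gd d) : ℂ :=
  if g.1.2 = 0 then pc w d (th d g / 2) else - pc w d ((th d g - d) / 2)

theorem psi_sig (g : Gd d) : psi w d (g + sig d) = - psi w d g := by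
  unfold psi
  rw [sn_add, sn_sig, th_add, th_sig]
  rcases zmod2 g.1.2 with h | h
  · rw [h, if_neg (by decide), if_pos rfl, add_sub_cancel_right]
  · rw [h, if_pos (by decide), if_neg (by decide), neg_neg]
    have e : (th d g + d) / 2 = (th d g - d) / 2 + d := by
      have : th d g + d = th d g - d + d * 2 := by ring
      rw [this, Int.add_mul_ediv_right _ _ (by norm_num)]
    rw [e, pc_per]

theorem psi_gg0 (j : ℤ) : psi w d (gg d j 0) = pc w d j := by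
  unfold psi
  rw [snd_gg, th_gg, if_pos (by simp)]
  congr 1
  omega

theorem psi_gg1 (j : ℤ) : psi w d (gg d j 1) = -pc w d j := by
  rw [← psi_gg0, ← psi_sig, gg_sig]
  norm_num

theorem psi_gg2 (j : ℤ) : psi w d (gg d j 2) = pc w d j := by
  rw [← neg_neg (pc w d j), ← psi_gg1, ← psi_sig, gg_sig]
  norm_num

theorem psi_ggn (j : ℤ) : psi w d (gg d j (-1)) = -pc w d j := by
  rw [← psi_gg0, ← neg_neg (psi w d (gg d j (-1))), ← psi_sig, gg_sig]
  norm_num

end psi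

theorem Psi_Kk (ψ : Gd d → ℂ) (hd : 0 < d) (m : Gd d) : Psi ψ (Kk hd hW m) =
    ψ m + ψ (m - tau d + sig d) + (ψ (m - w • tau d + sig d) +
      ψ (m - tau d - w • tau d + sig d + sig d)) := by
  show ∑ i : (Fin 1 ⊕ Fin 1) ⊕ (Fin 1 ⊕ Fin 1), ψ ((Kk hd hW m).g i) = _
  rw [Fintype.sum_sum_type, Fintype.sum_sum_type, Fintype.sum_sum_type]
  simp only [Finset.univ_unique, Finset.sum_singleton]
  exact congrArg₂ (· + ·) (congrArg₂ (· + ·) (congrArg ψ (Kk_g1 (hW := hW) hd m 0))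
    (congrArg ψ (Kk_g2 (hW := hW) hd m 0)))
    (congrArg₂ (· + ·) (congrArg ψ (Kk_g3 (hW := hW) hd m 0))
      (congrArg ψ (Kk_g4 (hW := hW) hd m 0)))

theorem Psi_E (ψ : Gd d → ℂ) (F : Fac hW (w • tau d)) (m : Gd d) : Psi ψ (F.E m) =
    ψ m + ψ (m - w • tau d + sig d) := by
  show ∑ i : Fin 1 ⊕ Fin 1, ψ ((F.E m).g i) = _
  rw [Fintype.sum_sum_type]
  simp only [Finset.univ_unique, Finset.sum_singleton]
  exact congrArg₂ (· + ·) (congrArg ψ (F.gl m 0)) (congrArg ψ (F.gr m 0))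

theorem Qc.len (i : Fin (2 * w - 1) ⊕ Fin 3) : Psi (psi w d) (Q.S i 0) = 1 := by
  have hw := Q.hw
  have hwd := Q.hwd
  rcases i with i | p
  · have hi := i.2
    show Psi (psi w d) (Kk Q.hd hW (gg d (1 - ((i : ℕ) : ℤ)) 0)) = 1
    obtain ⟨j, hj⟩ : ∃ j : ℤ, j = 1 - ((i : ℕ) : ℤ) := ⟨_, rfl⟩
    rw [← hj, Psi_Kk, gg_tsn, gg_wsn, gg_twssn, zero_add, zero_add, psi_gg0, psi_gg1, psi_gg1,
      psi_gg2]
    rw [pc_eq hwd (j := j) (r := j) 0 (by ring) (by omega) (by omega),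
      pc_eq hwd (j := j - 1) (r := j - 1) 0 (by ring) (by omega) (by omega)]
    have e1 : pc w d (j - w) = vl w (if 2 - 2 * (w : ℤ) ≤ j - w then j - w else j + 2 * w) := by
      split_ifs
      · exact pc_eq hwd 0 (by ring) (by omega) (by omega)
      · exact pc_eq hwd (-1) (by push_cast [hwd]; ring) (by omega) (by omega)
    have e2 : pc w d (j - 1 - w) =
        vl w (if 2 - 2 * (w : ℤ) ≤ j - 1 - w then j - 1 - w else j - 1 + 2 * w) := by
      split_ifs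
      · exact pc_eq hwd 0 (by ring) (by omega) (by omega)
      · exact pc_eq hwd (-1) (by push_cast [hwd]; ring) (by omega) (by omega)
    rw [e1, e2]
    unfold vl
    split_ifs
    all_goals first
      | (exfalso; omega)
      | (push_cast; ring1)
      | skip
    all_goals
      have e3 : j = 2 - w := by omega
      rw [e3]; push_cast; ring1
  · show Psi (psi w d) ((Q.F p).E (gg d (2 - 2 * w) 0)) = 1
    rw [Psi_E, gg_wsn, zero_add, psi_gg0, psi_gg1]
    rw [pc_eq hwd (j := 2 - 2 * w) (r := 2 - 2 * w) 0 (by ring) (by omega) (by omega),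
      pc_eq hwd (j := 2 - 2 * w - w) (r := 2) (-1) (by push_cast [hwd]; ring) (by omega)
        (by omega)]
    unfold vl
    rw [if_neg (by omega), if_neg (by omega), if_pos (by omega)]
    push_cast
    ring

/-- some Koszul matrix factorizations have length two -/
theorem Qc.len2 {j : ℤ} (h : 3 ≤ j) (h' : j ≤ w + 1) :
    Psi (psi w d) (Kk Q.hd hW (gg d j (-1))) = 2 := by
  have hw := Q.hw
  have hwd := Q.hwd
  rw [Psi_Kk, gg_tsn, gg_wsn, gg_twssn]
  rw [show (-1 : ℤ) + 1 = 0 by norm_num, show (-1 : ℤ) + 2 = 1 by norm_num, psi_gg0, psi_gg0,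
    psi_gg1, psi_ggn]
  rw [pc_eq hwd (j := j) (r := j) 0 (by ring) (by omega) (by omega),
    pc_eq hwd (j := j - 1) (r := j - 1) 0 (by ring) (by omega) (by omega),
    pc_eq hwd (j := j - w) (r := j - w) 0 (by ring) (by omega) (by omega),
    pc_eq hwd (j := j - 1 - w) (r := j - 1 - w) 0 (by ring) (by omega) (by omega)]
  unfold vl
  rw [if_pos (by omega), if_pos (by omega), if_neg (by omega), if_pos (by omega),
    if_neg (by omega), if_pos (by omega)]
  push_cast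
  ring

/-- the rotated central charge -/
noncomputable def Zr (E : MF (lg (ac w) d W hW)) : ℂ :=
  Complex.exp (((-(Real.pi * (2 - w) / d) : ℝ) : ℂ) * Complex.I) * ZG E

theorem Zr_add (Q : Qc hW) : Adf (Zr (hW := hW)) := by
  intro T hT
  unfold Zr
  rw [ZG_add (ac_pos Q.hw0) Q.hd T hT, mul_add]

/-- the data for the tilt -/
theorem Qc.tl2 (hs : ∀ x : Fin 2 → ℂ, (∀ i, eval x (pderiv i W) = 0) → x = 0) :
    Tl2 Q.S Zr (Psi (psi w d)) where
  smc := Q.smc
  gen := Q.gen hs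
  add := Zr_add Q
  addl := Psi_add _ psi_sig (ac_pos Q.hw0) Q.hd
  len := Q.len

end Pool.Agent.Helper445_GMF.Cu
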