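import Pool.Agent.Helper445_GMF.Cu8

/-!
Weights `(w, 1)` and degree `3 w`: central charges and Koszul matrix factorizations in the aisle.
-/

set_option autoImplicit false
set_option linter.unusedSectionVars false

open CategoryTheory Matrix Pretriangulated Triangulated Limits MvPolynomial ZeroObject

namespace Pool.Agent.Helper445_GMF.Cu

open Bf (gg th_gg snd_gg gext gg_ext gg_inj gg_add gg_sub gg_neg tau_gg sig_gg zero_gg
  th_nsmul_tau sn_sub sn_add sn_tau sn_sig th_zero ddm gg_tsn gg_sig sn fd fd_add fd_neg fd_sum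
  fd_gam sn_d sn_dd sn_nonneg sn_pos)

variable {w d : ℕ}

/-- positivity for a pair of generators -/
theorem pr_pos (hwd : d = 3 * w) (hw : 0 < w) {δ : ℝ} {t t' : ℤ} (ht : t' = t + w)
    (h : δ - w / 2 < t) (h' : (t : ℝ) < δ + 5 * w / 2) : 0 < sn d δ t + sn d δ t' := by
  subst ht
  have hw' : (0 : ℝ) < w := Nat.cast_pos.2 hw
  have hpi := Real.pi_pos
  have hd : (d : ℝ) = 3 * w := by rw [hwd]; push_cast; ring
  unfold sn
  have e := Real.sin_add_sin (Real.pi * ((t : ℝ) - δ) / d) (Real.pi * (((t + w : ℤ) : ℝ) - δ) / d)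
  rw [e]
  have e1 : (Real.pi * ((t : ℝ) - δ) / d + Real.pi * (((t + w : ℤ) : ℝ) - δ) / d) / 2 =
      Real.pi * (t - δ + w / 2) / d := by
    push_cast
    ring
  have e2 : (Real.pi * ((t : ℝ) - δ) / d - Real.pi * (((t + w : ℤ) : ℝ) - δ) / d) / 2 =
      -(Real.pi / 6) := by
    rw [hd]
    push_cast
    field_simp
    ring
  rw [e1, e2, Real.cos_neg]
  have h1 : 0 < Real.sin (Real.pi * (t - δ + w / 2) / d) := by
    refine Real.sin_pos_of_pos_of_lt_pi ?_ ?_
    · rw [hd]
      apply div_pos _ (by linarith)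
      exact mul_pos hpi (by linarith)
    · rw [hd, div_lt_iff₀ (by linarith)]
      exact mul_lt_mul_of_pos_left (by linarith) hpi
  have h2 : 0 < Real.cos (Real.pi / 6) := by
    rw [Real.cos_pi_div_six]
    positivity
  positivity

/-- the two pairs of generators of a Koszul matrix factorization of small phase -/
theorem pr_two (hwd : d = 3 * w) (hw : 0 < w) :
    0 < (sn d (2 - w) (4 - 3 * w) + sn d (2 - w) (4 - 2 * w)) +
      (sn d (2 - w) 2 + sn d (2 - w) (w + 2)) := by
  have hw' : (0 : ℝ) < w := Nat.cast_pos.2 hw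
  have hpi := Real.pi_pos
  have hd : (d : ℝ) = 3 * w := by rw [hwd]; push_cast; ring
  have hw1 : (1 : ℝ) ≤ w := by exact_mod_cast hw
  unfold sn
  have e : ∀ x y : ℝ, Real.sin (x - y) + Real.sin (x + y) = 2 * Real.sin x * Real.cos y := by
    intro x y
    rw [Real.sin_sub, Real.sin_add]; ring
  -- everything is a multiple of `sin`
  have a1 : Real.pi * (((4 - 3 * (w : ℤ) : ℤ) : ℝ) - (2 - w)) / d =
      (Real.pi * 2 / d - Real.pi / 2) - Real.pi / 6 := by
    rw [hd]; push_cast; field_simp; ring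
  have a2 : Real.pi * (((4 - 2 * (w : ℤ) : ℤ) : ℝ) - (2 - w)) / d =
      (Real.pi * 2 / d - Real.pi / 2) + Real.pi / 6 := by
    rw [hd]; push_cast; field_simp; ring
  have a3 : Real.pi * (((2 : ℤ) : ℝ) - (2 - w)) / d = Real.pi / 2 - Real.pi / 6 := by
    rw [hd]; push_cast; field_simp; ring
  have a4 : Real.pi * ((((w : ℤ) + 2 : ℤ) : ℝ) - (2 - w)) / d = Real.pi / 2 + Real.pi / 6 := by
    rw [hd]; push_cast; field_simp; ring
  rw [a1, a2, a3, a4, e, e, Real.sin_sub_pi_div_two, Real.sin_pi_div_two]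
  have h2 : 0 < Real.cos (Real.pi / 6) := by
    rw [Real.cos_pi_div_six]
    positivity
  have h1 : Real.cos (Real.pi * 2 / d) < 1 := by
    rw [← Real.cos_zero]
    refine Real.cos_lt_cos_of_nonneg_of_le_pi le_rfl ?_
      (div_pos (by positivity) (by rw [hd]; linarith))
    rw [hd, div_le_iff₀ (by linarith)]
    nlinarith
  nlinarith

/-- the first pair is nonpositive -/
theorem pr_neg (hwd : d = 3 * w) (hw : 2 ≤ w) :
    sn d (2 - w) (4 - 3 * w) + sn d (2 - w) (4 - 2 * w) ≤ 0 := by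
  have hw' : (2 : ℝ) ≤ w := by exact_mod_cast hw
  have hpi := Real.pi_pos
  have hd : (d : ℝ) = 3 * w := by rw [hwd]; push_cast; ring
  unfold sn
  have e : ∀ x y : ℝ, Real.sin (x - y) + Real.sin (x + y) = 2 * Real.sin x * Real.cos y := by
    intro x y
    rw [Real.sin_sub, Real.sin_add]; ring
  have a1 : Real.pi * (((4 - 3 * (w : ℤ) : ℤ) : ℝ) - (2 - w)) / d =
      (Real.pi * 2 / d - Real.pi / 2) - Real.pi / 6 := by
    rw [hd]; push_cast; field_simp; ring
  have a2 : Real.pi * (((4 - 2 * (w : ℤ) : ℤ) : ℝ) - (2 - w)) / d =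
      (Real.pi * 2 / d - Real.pi / 2) + Real.pi / 6 := by
    rw [hd]; push_cast; field_simp; ring
  rw [a1, a2, e, Real.sin_sub_pi_div_two]
  have h2 : 0 < Real.cos (Real.pi / 6) := by
    rw [Real.cos_pi_div_six]
    positivity
  have h1 : 0 ≤ Real.cos (Real.pi * 2 / d) := by
    refine Real.cos_nonneg_of_neg_pi_div_two_le_of_le ?_ ?_
    · have : 0 ≤ Real.pi * 2 / d := by positivity
      linarith
    · rw [hd, div_le_iff₀ (by linarith)]
      nlinarith
  nlinarith

variable {W : MvPolynomial (Fin 2) ℂ} {hW : IsWeightedHomogeneous (ac w) W d}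

theorem ZG_psi (E : MF (lg (ac w) d W hW)) : ZG E = Psi (gam d) E := rfl

theorem fd_ZG (δ : ℝ) (E : MF (lg (ac w) d W hW)) :
    fd d δ (ZG E) = ∑ i, sn d δ (th d (E.g i)) := by
  rw [ZG_psi, Psi, fd_sum]
  exact Finset.sum_congr rfl fun i _ => fd_gam δ _

theorem Zr_im (E : MF (lg (ac w) d W hW)) : (Zr E).im = fd d (2 - w) (ZG E) := rfl

theorem Zr_re (hd : 0 < d) (E : MF (lg (ac w) d W hW)) :
    (Zr E).re = fd d (2 - w - d / 2) (ZG E) := by
  have hd' : (d : ℝ) ≠ 0 := Nat.cast_ne_zero.2 hd.ne'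
  unfold Zr fd
  have e : (((-(Real.pi * (2 - w - d / 2) / d) : ℝ) : ℂ) * Complex.I) =
      Real.pi / 2 * Complex.I + ((-(Real.pi * (2 - w) / d) : ℝ) : ℂ) * Complex.I := by
    rw [← add_mul]
    congr 1
    push_cast
    have hd'' : (d : ℂ) ≠ 0 := Nat.cast_ne_zero.2 hd.ne'
    field_simp
    ring
  rw [e, Complex.exp_add, Complex.exp_pi_div_two_mul_I, mul_assoc, Complex.I_mul_im]

theorem th_tsn (m : Gd d) : th d (m - tau d + sig d) = th d m - 2 + d := rfl

theorem th_wsn (m : Gd d) : th d (m - w • tau d + sig d) = th d m - 2 * w + d := by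
  rw [th_add, th_sub, th_w, th_sig]

theorem th_twssn (m : Gd d) : th d (m - tau d - w • tau d + sig d + sig d) =
    th d m - 2 - 2 * w + d + d := by
  rw [th_add, th_add, th_sub, th_sub, th_w, th_sig, th_tau]

theorem two_sin (x : ℝ) : Complex.exp ((x : ℂ) * Complex.I) - Complex.exp (-(x : ℂ) * Complex.I) =
    2 * Complex.I * ((Real.sin x : ℝ) : ℂ) := by
  rw [Complex.ofReal_sin, Complex.sin]
  have : Complex.I * Complex.I = -1 := Complex.I_mul_I
  linear_combination (Complex.exp ((x : ℂ) * Complex.I) -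
    Complex.exp (-(x : ℂ) * Complex.I)) * this

/-- the central charge of the Koszul matrix factorization -/
theorem Zr_Kk (hd : 0 < d) (m : Gd d) : Zr (Kk hd hW m) =
    ((-(4 * Real.sin (Real.pi * w / d) * Real.sin (Real.pi / d)) : ℝ) : ℂ) *
      Complex.exp (((Real.pi * (th d m - 3) / d : ℝ) : ℂ) * Complex.I) := by
  have hd' : (d : ℝ) ≠ 0 := Nat.cast_ne_zero.2 hd.ne'
  have hd'' : (d : ℂ) ≠ 0 := Nat.cast_ne_zero.2 hd.ne'
  have hg : ∀ g : Gd d, gam d g = Complex.exp (((Real.pi * th d g / d : ℝ) : ℂ) *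
      Complex.I) := by
    intro g
    unfold gam
    congr 1
    show Real.pi * Complex.I * (th d g : ℂ) / d = _
    push_cast
    ring
  have hs : ∀ g : Gd d, gam d (g + sig d) = - gam d g := fun g => by
    rw [gam_add, gam_sig hd, mul_neg_one]
  have hr : ∀ g : Gd d, Complex.exp (((-(Real.pi * (2 - w) / d) : ℝ) : ℂ) * Complex.I) *
      gam d g = Complex.exp (((Real.pi * (th d g - 2 + w) / d : ℝ) : ℂ) * Complex.I) := by
    intro g
    rw [hg, ← Complex.exp_add]
    congr 1
    push_cast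
    ring
  unfold Zr
  rw [ZG_psi, Psi_Kk, hs, hs, hs, hs, neg_neg]
  rw [mul_add, mul_add, mul_add, mul_neg, mul_neg, hr, hr, hr, hr]
  rw [th_sub, th_sub, th_sub, th_sub, th_tau, th_w]
  have s1 := two_sin (Real.pi * w / d)
  have s2 := two_sin (Real.pi / d)
  set u := Complex.exp (((Real.pi * (th d m - 3) / d : ℝ) : ℂ) * Complex.I) with hu
  set p := Complex.exp (((Real.pi * w / d : ℝ) : ℂ) * Complex.I) with hp
  set p' := Complex.exp (-((Real.pi * w / d : ℝ) : ℂ) * Complex.I) with hp'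
  set q := Complex.exp (((Real.pi / d : ℝ) : ℂ) * Complex.I) with hq
  set q' := Complex.exp (-((Real.pi / d : ℝ) : ℂ) * Complex.I) with hq'
  have f1 : Complex.exp (((Real.pi * ((th d m : ℤ) - 2 + w) / d : ℝ) : ℂ) * Complex.I) =
      u * p * q := by
    rw [hu, hp, hq, ← Complex.exp_add, ← Complex.exp_add]
    congr 1
    push_cast
    field_simp
    ring
  have f2 : Complex.exp (((Real.pi * (((th d m - 2 : ℤ) : ℝ) - 2 + w) / d : ℝ) : ℂ) *
      Complex.I) = u * p * q' := by
    rw [hu, hp, hq', ← Complex.exp_add, ← Complex.exp_add]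
    congr 1
    push_cast
    field_simp
    ring
  have f3 : Complex.exp (((Real.pi * (((th d m - 2 * w : ℤ) : ℝ) - 2 + w) / d : ℝ) : ℂ) *
      Complex.I) = u * p' * q := by
    rw [hu, hp', hq, ← Complex.exp_add, ← Complex.exp_add]
    congr 1
    push_cast
    field_simp
    ring
  have f4 : Complex.exp (((Real.pi * (((th d m - 2 - 2 * w : ℤ) : ℝ) - 2 + w) / d : ℝ) : ℂ) *
      Complex.I) = u * p' * q' := by
    rw [hu, hp', hq', ← Complex.exp_add, ← Complex.exp_add]
    congr 1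
    push_cast
    field_simp
    ring
  rw [f1, f2, f3, f4]
  have hI : Complex.I * Complex.I = -1 := Complex.I_mul_I
  push_cast
  push_cast at s1 s2
  linear_combination u * (q - q') * s1 + (2 * Complex.I * Complex.sin (Real.pi * w / d)) * u * s2 +
    4 * u * Complex.sin (Real.pi * w / d) * Complex.sin (Real.pi / d) * hI

theorem r_pos (hwd : d = 3 * w) (hw : 0 < w) :
    0 < 4 * Real.sin (Real.pi * w / d) * Real.sin (Real.pi / d) := by
  have hw' : (0 : ℝ) < w := Nat.cast_pos.2 hw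
  have hw1 : (1 : ℝ) ≤ w := by exact_mod_cast hw
  have hpi := Real.pi_pos
  have hd : (d : ℝ) = 3 * w := by rw [hwd]; push_cast; ring
  have h1 : 0 < Real.sin (Real.pi * w / d) := by
    refine Real.sin_pos_of_pos_of_lt_pi (by rw [hd]; positivity) ?_
    rw [hd, div_lt_iff₀ (by linarith)]
    nlinarith
  have h2 : 0 < Real.sin (Real.pi / d) := by
    refine Real.sin_pos_of_pos_of_lt_pi (by rw [hd]; positivity) ?_
    rw [hd, div_lt_iff₀ (by linarith)]
    nlinarith
  positivity

theorem hpK (hwd : d = 3 * w) (hw : 0 < w) (hd0 : 0 < d) (m : Gd d) (h : 3 - (d : ℤ) < th d m)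
    (h' : th d m ≤ 3) : Hp 0 (Zr (Kk hd0 hW m)) := by
  have hr := r_pos hwd hw
  have hd' : (0 : ℝ) < d := by exact_mod_cast hd0
  have hpi := Real.pi_pos
  rw [Zr_Kk, hp_zero, Complex.re_ofReal_mul, Complex.im_ofReal_mul,
    Complex.exp_ofReal_mul_I_im, Complex.exp_ofReal_mul_I_re]
  have h1 : (3 - d : ℝ) < th d m := by exact_mod_cast h
  rcases eq_or_lt_of_le h' with h2 | h2
  · right
    rw [h2]
    norm_num
    linarith
  · left
    have h3 : (th d m : ℝ) < 3 := by exact_mod_cast h2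
    have h4 : Real.sin (Real.pi * (th d m - 3) / d) < 0 := by
      refine Real.sin_neg_of_neg_of_neg_pi_lt ?_ ?_
      · apply div_neg_of_neg_of_pos _ (by linarith)
        nlinarith
      · rw [lt_div_iff₀ (by linarith)]
        nlinarith
    nlinarith

theorem nhpK (hwd : d = 3 * w) (hw : 0 < w) (hd0 : 0 < d) (m : Gd d)
    (h : 3 - 2 * (d : ℤ) < th d m)
    (h' : th d m ≤ 3 - d) : ¬ Hp 0 (Zr (Kk hd0 hW m)) := by
  have hr := r_pos hwd hw
  have hd' : (0 : ℝ) < d := by exact_mod_cast hd0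
  have hpi := Real.pi_pos
  rw [Zr_Kk, hp_zero, Complex.re_ofReal_mul, Complex.im_ofReal_mul,
    Complex.exp_ofReal_mul_I_im, Complex.exp_ofReal_mul_I_re]
  have h1 : (3 - 2 * d : ℝ) < th d m := by exact_mod_cast h
  have h2 : (th d m : ℝ) ≤ 3 - d := by exact_mod_cast h'
  have e : Real.sin (Real.pi * (th d m - 3) / d) =
      -Real.sin (Real.pi * (th d m - 3) / d + Real.pi) := by
    rw [Real.sin_add_pi, neg_neg]
  have e2 : Real.cos (Real.pi * (th d m - 3) / d) =
      -Real.cos (Real.pi * (th d m - 3) / d + Real.pi) := by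
    rw [Real.cos_add_pi, neg_neg]
  have h3 : Real.pi * (th d m - 3) / d + Real.pi ≤ 0 := by
    have : Real.pi * (th d m - 3) / d ≤ -Real.pi := by
      rw [div_le_iff₀ (by linarith)]
      nlinarith
    linarith
  have h4 : -Real.pi < Real.pi * (th d m - 3) / d + Real.pi := by
    have : -2 * Real.pi < Real.pi * (th d m - 3) / d := by
      rw [lt_div_iff₀ (by linarith)]
      nlinarith
    linarith
  rw [e, e2]
  set x := Real.pi * (th d m - 3) / d + Real.pi
  rintro (h5 | ⟨h5, h6⟩)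
  · have h7 : Real.sin x ≤ 0 := Real.sin_nonpos_of_nonpos_of_neg_pi_le h3 h4.le
    nlinarith
  · rcases eq_or_lt_of_le h3 with h7 | h7
    · rw [h7, Real.cos_zero] at h6
      nlinarith
    · have h8 : Real.sin x < 0 := Real.sin_neg_of_neg_of_neg_pi_lt h7 h4
      nlinarith

end Pool.Agent.Helper445_GMF.Cu
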