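import Mathlib

/-!
Graded matrix factorizations, their exact triangles, and stability conditions on them.
-/

set_option autoImplicit false

open Matrix MvPolynomial

namespace Pool.Agent.Helper445_GMF

/-- Data for graded matrix factorizations: a commutative `ℂ`-algebra `A` graded by an abelian
group `G`, an element `ς` of `G` (the degree of the differentials) and an element `W` of degree
`ς + ς`. -/
structure LG where
  /-- the ring -/
  A : Type
  [ringA : CommRing A]
  [algA : Algebra ℂ A]
  /-- the grading group -/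
  G : Type
  [grpG : AddCommGroup G]
  /-- the graded pieces of the ring -/
  pc : G → Submodule ℂ A
  [grad : SetLike.GradedMonoid pc]
  /-- the degree of the differentials -/
  ς : G
  /-- the potential -/
  W : A
  hW : W ∈ pc (ς + ς)

attribute [instance] LG.ringA LG.algA LG.grpG LG.grad

/-- `L.mem g x`: the element `x` is homogeneous of degree `g`. -/
@[reducible] def LG.mem (L : LG) (g : L.G) (x : L.A) : Prop := x ∈ L.pc g

/-- A graded matrix factorization: a free module with finitely many generators `e i` (`i : I`),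
where `e i` spans a copy of `A(g i)`, and a differential `D` of degree `ς` with `D * D = W`. -/
structure MF (L : LG) where
  /-- the index set of the generators -/
  I : Type
  [fI : Fintype I]
  [dI : DecidableEq I]
  /-- the twists of the generators -/
  g : I → L.G
  /-- the differential -/
  D : Matrix I I L.A
  hD : ∀ i j, L.mem (g i - g j + L.ς) (D i j)
  sq : D * D = L.W • (1 : Matrix I I L.A)

attribute [instance] MF.fI MF.dI

variable {L : LG}

/-- homogeneous matrices of degree `c` -/
def Hg {I J : Type} (g : I → L.G) (h : J → L.G) (c : L.G) : Set (Matrix J I L.A) :=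
  {f | ∀ i j, L.mem (h i - g j + c) (f i j)}

/-- closed morphisms of degree `0` -/
def Z (X Y : MF L) : Set (Matrix Y.I X.I L.A) :=
  {f | f ∈ Hg X.g Y.g 0 ∧ Y.D * f = f * X.D}

/-- null-homotopic morphisms -/
def N (X Y : MF L) : Set (Matrix Y.I X.I L.A) :=
  {f | ∃ s ∈ Hg X.g Y.g (-L.ς), f = Y.D * s + s * X.D}

/-- homotopy equivalence: isomorphism in the homotopy category -/
def Heq (X Y : MF L) : Prop :=
  ∃ f ∈ Z X Y, ∃ f' ∈ Z Y X, f' * f - 1 ∈ N X X ∧ f * f' - 1 ∈ N Y Y

/-- contractible matrix factorizations: the zero objects of the homotopy category -/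
def Null (X : MF L) : Prop := (1 : Matrix X.I X.I L.A) ∈ N X X

theorem LG.mem_of_eq {x : L.A} {a b : L.G} (h : x ∈ L.pc a) (e : a = b) : x ∈ L.pc b := e ▸ h

theorem ts_hD (X : MF L) (a : L.G) (c : ℂ) (i j : X.I) :
    L.mem (X.g i + a - (X.g j + a) + L.ς) ((c • X.D) i j) :=
  LG.mem_of_eq (Submodule.smul_mem _ c (X.hD i j)) (by abel)

theorem ts_sq (X : MF L) (c : ℂ) (hc : c * c = 1) : (c • X.D) * (c • X.D) = L.W • 1 := by
  rw [Matrix.smul_mul, Matrix.mul_smul, smul_smul, hc, one_smul]
  exact X.sq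

/-- The twist of the grading by `a`, with the differential multiplied by the sign `c`. -/
@[reducible] def MF.ts (X : MF L) (a : L.G) (c : ℂ) (hc : c * c = 1) : MF L where
  I := X.I
  g := fun i => X.g i + a
  D := c • X.D
  hD := ts_hD X a c
  sq := ts_sq X c hc

theorem neg_one_sq' : (-1 : ℂ) * -1 = 1 := by norm_num

/-- The shift `X[1]`: the grading is twisted by `ς` and the differential is `-D`. -/
@[reducible] def MF.s1 (X : MF L) : MF L := X.ts L.ς (-1) neg_one_sq'

theorem cn_hD {X Y : MF L} (f : Matrix Y.I X.I L.A) (hf : f ∈ Z X Y) (i j : Y.I ⊕ X.I) :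
    L.mem (Sum.elim Y.g X.s1.g i - Sum.elim Y.g X.s1.g j + L.ς)
      (fromBlocks Y.D f 0 X.s1.D i j) := by
  rcases i with i | i <;> rcases j with j | j
  · exact Y.hD i j
  · exact LG.mem_of_eq (hf.1 i j) (by
      show Y.g i - X.g j + 0 = Y.g i - (X.g j + L.ς) + L.ς
      abel)
  · exact Submodule.zero_mem _
  · exact X.s1.hD i j

theorem cn_sq {X Y : MF L} (f : Matrix Y.I X.I L.A) (hf : f ∈ Z X Y) :
    fromBlocks Y.D f 0 X.s1.D * fromBlocks Y.D f 0 X.s1.D = L.W • 1 := by
  have e : Y.D * f + f * X.s1.D = 0 := by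
    show Y.D * f + f * ((-1 : ℂ) • X.D) = 0
    rw [hf.2, Matrix.mul_smul]
    simp
  rw [fromBlocks_multiply, e, Y.sq, X.s1.sq, ← fromBlocks_one, fromBlocks_smul]
  simp

/-- The mapping cone of the closed morphism `f : X → Y`: the direct sum of `Y` and `X[1]`
with the differential `(D_Y, f; 0, -D_X)`. -/
@[reducible] def cn {X Y : MF L} (f : Matrix Y.I X.I L.A) (hf : f ∈ Z X Y) : MF L where
  I := Y.I ⊕ X.I
  g := Sum.elim Y.g X.s1.g
  D := fromBlocks Y.D f 0 X.s1.D
  hD := cn_hD f hf
  sq := cn_sq f hf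

/-- There is an exact triangle `X → Y → V → X[1]` in the homotopy category: `V` is homotopy
equivalent to the cone of a closed morphism `X → Y`. -/
def Tri (X Y V : MF L) : Prop := ∃ (f : Matrix Y.I X.I L.A) (hf : f ∈ Z X Y), Heq V (cn f hf)

/-- `HNc P a b X` says that `X` has a filtration `0 = E₀ → E₁ → ⋯ → E_N = X` with `N ≥ 1` whose
`i`-th factor lies in `P (φ i)`, with `b = φ 1 > ⋯ > φ N = a`. -/
inductive HNc (P : ℝ → MF L → Prop) : ℝ → ℝ → MF L → Prop
  | one {φ : ℝ} {X : MF L} (hX : P φ X) : HNc P φ φ X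
  | step {φ a b : ℝ} {E X F : MF L} (hT : Tri E X F) (h₁ : HNc P a b E) (h₃ : P φ F)
      (hφ : φ < a) : HNc P φ b X

/-- A stability condition on the homotopy category of graded matrix factorizations, without the
numerical property and the support property: a central charge and a slicing. -/
structure Stb (L : LG) where
  /-- the central charge -/
  ch : MF L → ℂ
  /-- the semistable objects of phase `φ` (together with the zero objects) -/
  P : ℝ → MF L → Prop
  add : ∀ X Y V : MF L, Tri X Y V → ch Y = ch X + ch V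
  iso : ∀ (φ : ℝ) (X Y : MF L), Heq X Y → P φ X → P φ Y
  zero : ∀ (φ : ℝ) (X : MF L), Null X → P φ X
  phase : ∀ (φ : ℝ) (X : MF L), P φ X → ¬ Null X →
    ∃ m : ℝ, 0 < m ∧ ch X = m * Complex.exp (Complex.I * Real.pi * φ)
  shift : ∀ (φ : ℝ) (X : MF L), P (φ + 1) X.s1 ↔ P φ X
  hom : ∀ (φ φ' : ℝ) (X Y : MF L), φ' < φ → P φ X → P φ' Y → Z X Y ⊆ N X Y
  hn : ∀ X : MF L, ∃ a b : ℝ, HNc P a b X

/-- Stable objects of phase `φ`: nonzero semistable objects of phase `φ` which have no proper
nonzero subobject in the category `P φ` (whose short exact sequences are the exact triangles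
with three vertices in `P φ`). -/
def Stb.Stable (σ : Stb L) (φ : ℝ) (X : MF L) : Prop :=
  σ.P φ X ∧ ¬ Null X ∧ ∀ A B : MF L, Tri A X B → σ.P φ A → σ.P φ B → Null A ∨ Null B

/-- The grading group of the category of graded matrix factorizations: it is generated by
`tau` (the twist by one) and `sig` (the shift), with the relation `d • tau = 2 • sig`. -/
def Gd (d : ℕ) : AddSubgroup (ℤ × ZMod 2) where
  carrier := {x | (x.1 : ZMod 2) = (d : ZMod 2) * x.2}
  add_mem' := by
    intro x y hx hy
    show ((x.1 + y.1 : ℤ) : ZMod 2) = d * (x.2 + y.2)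
    have hx' : (x.1 : ZMod 2) = d * x.2 := hx
    have hy' : (y.1 : ZMod 2) = d * y.2 := hy
    push_cast
    rw [hx', hy']; ring
  zero_mem' := by simp
  neg_mem' := by
    intro x hx
    show ((-x.1 : ℤ) : ZMod 2) = d * (-x.2)
    have hx' : (x.1 : ZMod 2) = d * x.2 := hx
    push_cast
    rw [hx']; ring

/-- the twist by one -/
def tau (d : ℕ) : Gd d := ⟨(2, 0), by
  show ((2 : ℤ) : ZMod 2) = d * 0
  rw [mul_zero]; decide⟩

/-- the shift -/
def sig (d : ℕ) : Gd d := ⟨(d, 1), by
  show ((d : ℤ) : ZMod 2) = d * 1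
  simp⟩

theorem d_tau (d : ℕ) : d • tau d = sig d + sig d := by
  ext
  · simp [tau, sig]; ring
  · simp [tau, sig]; decide

/-- the weights of the variables in the grading group -/
def wt {n : ℕ} (a : Fin n → ℕ) (d : ℕ) : Fin n → Gd d := fun i => a i • tau d

theorem weight_wt {n : ℕ} (a : Fin n → ℕ) (d : ℕ) (m : Fin n →₀ ℕ) :
    Finsupp.weight (wt a d) m = (Finsupp.weight a m) • tau d := by
  rw [Finsupp.weight_apply, Finsupp.weight_apply, Finsupp.sum, Finsupp.sum, Finset.sum_smul]
  refine Finset.sum_congr rfl fun i _ => ?_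
  simp [wt, smul_smul]

theorem wh_wt {n : ℕ} {a : Fin n → ℕ} {d : ℕ} {p : MvPolynomial (Fin n) ℂ} {k : ℕ}
    (h : IsWeightedHomogeneous a p k) : IsWeightedHomogeneous (wt a d) p (k • tau d) := by
  intro m hm
  rw [weight_wt, h hm]

/-- The data of the graded matrix factorizations of a weighted homogeneous polynomial `W` of
degree `d` in `n` variables of degrees `a`. -/
@[reducible] noncomputable def lg {n : ℕ} (a : Fin n → ℕ) (d : ℕ) (W : MvPolynomial (Fin n) ℂ)
    (hW : IsWeightedHomogeneous a W d) : LG where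
  A := MvPolynomial (Fin n) ℂ
  G := Gd d
  pc := weightedHomogeneousSubmodule ℂ (wt a d)
  grad := WeightedHomogeneousSubmodule.gradedMonoid
  ς := sig d
  W := W
  hW := by rw [← d_tau]; exact wh_wt hW

variable {n : ℕ} {a : Fin n → ℕ} {d : ℕ} {W : MvPolynomial (Fin n) ℂ}
  {hW : IsWeightedHomogeneous a W d}

/-- Gepner type with respect to the twist by one and `2 / d` -/
def Stb.Gep (σ : Stb (lg a d W hW)) : Prop :=
  (∀ (φ : ℝ) (X : MF (lg a d W hW)),
    σ.P (φ + 2 / d) (X.ts (tau d) 1 (one_mul 1)) ↔ σ.P φ X) ∧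
  ∀ X : MF (lg a d W hW),
    σ.ch (X.ts (tau d) 1 (one_mul 1)) = Complex.exp (2 * Real.pi * Complex.I / d) * σ.ch X

end Pool.Agent.Helper445_GMF
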