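import Pool.Agent.Helper445_GMF.DefN

/-!
The central charge `Z_G` and the statement that there is a stability condition of Gepner type with
this central charge.
-/

set_option autoImplicit false

open Matrix MvPolynomial

namespace Pool.Agent.Helper445_GMF

variable {n : ℕ} {a : Fin n → ℕ} {d : ℕ} {W : MvPolynomial (Fin n) ℂ}
  {hW : IsWeightedHomogeneous a W d}

/-- The central charge `Z_G`. An element of the grading group `Gd d` is a pair `(m, e)`, and it is
equal to `k • tau d` for `m = 2 k`, `e = 0` and to `k • tau d - sig d` for `m = 2 k - d`, `e = 1`.
The generators with twist `(2 k, 0)` are the summands `A(k)` of `P⁰` and contribute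
`exp (2 π i k / d)`, the generators with twist `(2 k - d, 1)` are the summands `A(k)` of `P¹`
and contribute `- exp (2 π i k / d) = exp (π i (2 k - d) / d)`. -/
noncomputable def ZG (E : MF (lg a d W hW)) : ℂ :=
  ∑ i, Complex.exp (Real.pi * Complex.I * ((E.g i).1.1 : ℂ) / d)

/-- There is a stability condition with central charge `Z_G`, with the numerical property and the
support property, which is of Gepner type with respect to the twist by one and `2 / d`. -/
def HasGepner (hW : IsWeightedHomogeneous a W d) : Prop :=
  ∃ σ : Stb (lg a d W hW), (∀ E, σ.ch E = ZG E) ∧ σ.Gep ∧ σ.Num ∧ σ.Supp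

end Pool.Agent.Helper445_GMF
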