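import Pool.Agent.Helper445_GMF.Def

/-!
The Koszul matrix factorizations of the residue field.
-/

set_option autoImplicit false

open Matrix MvPolynomial

namespace Pool.Agent.Helper445_GMF

/-- A free module with finitely many homogeneous generators of degrees `g i`, together with an
endomorphism `D`. -/
structure PMF (L : LG) where
  /-- the index set of the generators -/
  I : Type
  [fI : Fintype I]
  [dI : DecidableEq I]
  /-- the twists of the generators -/
  g : I → L.G
  /-- the endomorphism -/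
  D : Matrix I I L.A

attribute [instance] PMF.fI PMF.dI

variable {L : LG}

/-- The Koszul extension by `(x, w)`, where `x` has degree `b`: the endomorphism `D` is replaced
by the block matrix with rows `(D, x)` and `(w, -D)`. -/
def kz (p : L.A × L.A × L.G) (X : PMF L) : PMF L where
  I := X.I ⊕ X.I
  g := Sum.elim X.g (fun c => X.g c - p.2.2 + L.ς)
  D := fromBlocks X.D (p.1 • 1) (p.2.1 • 1) (-X.D)

/-- the iterated Koszul extension of the free module on one generator of degree `g`, with the
endomorphism zero -/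
def kpre (g : L.G) : List (L.A × L.A × L.G) → PMF L
  | [] => ⟨Unit, fun _ => g, 0⟩
  | p :: l => kz p (kpre g l)

theorem kz_Hg {X : PMF L} {p : L.A × L.A × L.G} (hX : ∀ i j, L.mem (X.g i - X.g j + L.ς) (X.D i j))
    (h1 : p.1 ∈ L.pc p.2.2) (h2 : p.2.1 ∈ L.pc (L.ς + L.ς - p.2.2)) (i j : (kz p X).I) :
    L.mem ((kz p X).g i - (kz p X).g j + L.ς) ((kz p X).D i j) := by
  have key : ∀ {x : L.A} {b : L.G}, x ∈ L.pc b → ∀ i j : X.I, ∀ c : L.G, (i = j → c = b) →
      L.mem c ((x • (1 : Matrix X.I X.I L.A)) i j) := by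
    intro x b hx i j c hc
    by_cases hij : i = j
    · rw [hc hij, hij, Matrix.smul_apply, Matrix.one_apply_eq, smul_eq_mul, mul_one]
      exact hx
    · rw [Matrix.smul_apply, Matrix.one_apply_ne hij, smul_zero]
      exact Submodule.zero_mem _
  rcases i with i | i <;> rcases j with j | j
  · exact hX i j
  · exact key h1 i j _ (by rintro rfl; show X.g i - (X.g i - p.2.2 + L.ς) + L.ς = p.2.2; abel)
  · exact key h2 i j _ (by
      rintro rfl; show X.g i - p.2.2 + L.ς - X.g i + L.ς = L.ς + L.ς - p.2.2; abel)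
  · refine LG.mem_of_eq (Submodule.neg_mem _ (hX i j)) ?_
    show _ = X.g i - p.2.2 + L.ς - (X.g j - p.2.2 + L.ς) + L.ς
    abel

theorem kz_sq {X : PMF L} {p : L.A × L.A × L.G} {V : L.A} (hX : X.D * X.D = V • 1) :
    (kz p X).D * (kz p X).D = (V + p.1 * p.2.1) • 1 := by
  show fromBlocks X.D (p.1 • 1) (p.2.1 • 1) (-X.D) *
    fromBlocks X.D (p.1 • 1) (p.2.1 • 1) (-X.D) = (V + p.1 * p.2.1) • (1 : Matrix (X.I ⊕ X.I)
      (X.I ⊕ X.I) L.A)
  have e1 : (p.1 • (1 : Matrix X.I X.I L.A)) * (p.2.1 • 1) = (p.1 * p.2.1) • 1 := by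
    rw [Matrix.smul_mul, Matrix.mul_smul, Matrix.mul_one, smul_smul]
  have e2 : (p.2.1 • (1 : Matrix X.I X.I L.A)) * (p.1 • 1) = (p.1 * p.2.1) • 1 := by
    rw [Matrix.smul_mul, Matrix.mul_smul, Matrix.mul_one, smul_smul, mul_comm]
  rw [fromBlocks_multiply, neg_mul_neg, hX, e1, e2, ← fromBlocks_one, fromBlocks_smul, ← add_smul,
    ← add_smul, add_comm (p.1 * p.2.1)]
  simp

variable {n : ℕ} {a : Fin n → ℕ} {d : ℕ} {W : MvPolynomial (Fin n) ℂ}

/-- the list of the triples `(x_i, w_i, a_i)`, for `i` in a list of indices -/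
noncomputable def kl (a : Fin n → ℕ) (d : ℕ) (w : Fin n → MvPolynomial (Fin n) ℂ)
    (l : List (Fin n)) : List (MvPolynomial (Fin n) ℂ × MvPolynomial (Fin n) ℂ × Gd d) :=
  l.map fun i => (X i, w i, wt a d i)

/-- `K(l; g)`: the iterated Koszul extension by the triples `(x_i, w_i, a_i)`, `i ∈ l`, of the free
module on one generator of degree `g` -/
noncomputable def kp (hW : IsWeightedHomogeneous a W d) (w : Fin n → MvPolynomial (Fin n) ℂ)
    (g : Gd d) (l : List (Fin n)) : PMF (lg a d W hW) := kpre g (kl a d w l)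

theorem wt_sub {i : Fin n} (h : a i ≤ d) {p : MvPolynomial (Fin n) ℂ}
    (hp : IsWeightedHomogeneous a p (d - a i)) :
    IsWeightedHomogeneous (wt a d) p (sig d + sig d - wt a d i) := by
  have h1 := wh_wt (d := d) hp
  have h2 : (d - a i) • tau d = sig d + sig d - wt a d i := by
    rw [← d_tau, wt, eq_sub_iff_add_eq, ← add_smul, Nat.sub_add_cancel h]
  rwa [h2] at h1

theorem kp_hD (hW : IsWeightedHomogeneous a W d) (h : ∀ i, a i ≤ d)
    (w : Fin n → MvPolynomial (Fin n) ℂ) (hw : ∀ i, IsWeightedHomogeneous a (w i) (d - a i))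
    (g : Gd d) (l : List (Fin n)) : ∀ i j : (kp hW w g l).I,
    (lg a d W hW).mem ((kp hW w g l).g i - (kp hW w g l).g j + sig d) ((kp hW w g l).D i j) := by
  induction l with
  | nil => intro i j; exact Submodule.zero_mem _
  | cons m l ih =>
    exact kz_Hg (L := lg a d W hW) (p := (X m, w m, wt a d m)) ih
      (isWeightedHomogeneous_X ℂ (wt a d) m) (wt_sub (h m) (hw m))

theorem kp_sq (hW : IsWeightedHomogeneous a W d) (w : Fin n → MvPolynomial (Fin n) ℂ)
    (g : Gd d) (l : List (Fin n)) (V : MvPolynomial (Fin n) ℂ)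
    (hs : (l.map fun i => X i * w i).sum = V) :
    (kp hW w g l).D * (kp hW w g l).D = V • 1 := by
  subst hs
  induction l with
  | nil =>
    have e1 : (0 : Matrix Unit Unit (MvPolynomial (Fin n) ℂ)) * 0 = (0 : MvPolynomial (Fin n) ℂ) •
        (1 : Matrix Unit Unit (MvPolynomial (Fin n) ℂ)) := by simp
    exact e1
  | cons m l ih =>
    have e : (List.map (fun i => X i * w i) (m :: l)).sum =
        (List.map (fun i => X i * w i) l).sum + X m * w m := by
      rw [List.map_cons, List.sum_cons, add_comm]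
    rw [e]
    exact kz_sq (L := lg a d W hW) ih

theorem finRange_sum (w : Fin n → MvPolynomial (Fin n) ℂ) (hs : ∑ i, X i * w i = W) :
    ((List.finRange n).map fun i => X i * w i).sum = W := by
  rw [← Fin.sum_univ_def, hs]

/-- The Koszul matrix factorization `{x_1, …, x_n; w_1, …, w_n}` of `W = ∑ x_i w_i`, which
corresponds to the residue field, twisted by the element `g` of the grading group. -/
noncomputable def koszul (hW : IsWeightedHomogeneous a W d) (h : ∀ i, a i ≤ d)
    (w : Fin n → MvPolynomial (Fin n) ℂ) (hw : ∀ i, IsWeightedHomogeneous a (w i) (d - a i))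
    (hs : ∑ i, X i * w i = W) (g : Gd d) : MF (lg a d W hW) where
  I := (kp hW w g (List.finRange n)).I
  g := (kp hW w g (List.finRange n)).g
  D := (kp hW w g (List.finRange n)).D
  hD := kp_hD hW h w hw g _
  sq := kp_sq hW w g _ W (finRange_sum w hs)

end Pool.Agent.Helper445_GMF
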