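import Pool.Agent.Helper445_GMF.Def

/-!
The Euler form on the category of graded matrix factorizations.
-/

set_option autoImplicit false

open Matrix

namespace Pool.Agent.Helper445_GMF

variable {L : LG}

/-- the space of closed morphisms of degree `0` -/
def Zs (X Y : MF L) : Submodule ℂ (Matrix Y.I X.I L.A) where
  carrier := Z X Y
  add_mem' hf hf' := ⟨fun i j => Submodule.add_mem _ (hf.1 i j) (hf'.1 i j), by
    rw [Matrix.mul_add, Matrix.add_mul, hf.2, hf'.2]⟩
  zero_mem' := ⟨fun _ _ => Submodule.zero_mem _, by simp⟩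
  smul_mem' c f hf := ⟨fun i j => Submodule.smul_mem _ c (hf.1 i j), by
    rw [Matrix.mul_smul, Matrix.smul_mul, hf.2]⟩

/-- the space of null-homotopic morphisms -/
def Ns (X Y : MF L) : Submodule ℂ (Matrix Y.I X.I L.A) where
  carrier := N X Y
  add_mem' := by
    rintro _ _ ⟨s, hs, rfl⟩ ⟨t, ht, rfl⟩
    exact ⟨s + t, fun i j => Submodule.add_mem _ (hs i j) (ht i j), by
      rw [Matrix.mul_add, Matrix.add_mul]; abel⟩
  zero_mem' := ⟨0, fun _ _ => Submodule.zero_mem _, by simp⟩
  smul_mem' := by
    rintro c _ ⟨s, hs, rfl⟩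
    exact ⟨c • s, fun i j => Submodule.smul_mem _ c (hs i j), by
      rw [Matrix.mul_smul, Matrix.smul_mul, smul_add]⟩

/-- the dimension of the space of morphisms `X → Y` of the homotopy category: closed morphisms
modulo null-homotopic morphisms -/
noncomputable def hdim (X Y : MF L) : ℕ :=
  Module.finrank ℂ (Zs X Y ⧸ (Ns X Y).submoduleOf (Zs X Y))

theorem neg_one_zpow_sq (k : ℤ) : (-1 : ℂ) ^ k * (-1) ^ k = 1 := by
  rw [← mul_zpow]; norm_num

/-- The shift `X[k]`: the grading is twisted by `k • ς` and the differential is `(-1)^k D`. -/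
@[reducible] noncomputable def MF.sk (X : MF L) (k : ℤ) : MF L :=
  X.ts (k • L.ς) ((-1) ^ k) (neg_one_zpow_sq k)

/-- the Euler form `χ(X, Y) = ∑ₖ (-1)^k dim Hom(X, Y[k])` -/
noncomputable def eul (X Y : MF L) : ℝ := ∑ᶠ k : ℤ, (-1) ^ k * (hdim X (Y.sk k) : ℝ)

/-- The numerical property: the central charge factors through the numerical Grothendieck group.
More precisely, it is a linear combination of finitely many of the functionals `χ(-, F)`. -/
def Stb.Num (σ : Stb L) : Prop :=
  ∃ (r : ℕ) (F : Fin r → MF L) (c : Fin r → ℂ), ∀ E : MF L, σ.ch E = ∑ j, c j * (eul E (F j) : ℂ)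

/-- The support property. Let `Γ` be a finite-dimensional normed real vector space and `v` a
function from the objects to `Γ` such that each linear functional on `Γ` gives a linear
combination of the functionals `χ(-, F)` (for example the numerical Grothendieck group tensored
with the real numbers, with the class of an object). Then the norm of `v E` is bounded by a constant
times the absolute value of the central charge of `E`, for all semistable objects `E`. -/
def Stb.Supp (σ : Stb L) : Prop :=
  ∀ (Γ : Type) [NormedAddCommGroup Γ] [NormedSpace ℝ Γ] [FiniteDimensional ℝ Γ] (v : MF L → Γ),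
    (∀ l : Γ →ₗ[ℝ] ℝ, (fun E => l (v E)) ∈ Submodule.span ℝ (Set.range fun F E => eul E F)) →
    ∃ C : ℝ, ∀ (φ : ℝ) (E : MF L), σ.P φ E → ‖v E‖ ≤ C * ‖σ.ch E‖

end Pool.Agent.Helper445_GMF
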