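import Pool.Agent.Helper445_GMF.DefG

/-!
Bounded t-structures on the homotopy category of graded matrix factorizations.
-/

set_option autoImplicit false

open Matrix

namespace Pool.Agent.Helper445_GMF

variable {L : LG}

/-- A bounded t-structure on the homotopy category of graded matrix factorizations, given by the
class `U` of the objects of `D^{≤ 0}`; an object `B` belongs to `D^{≥ 1}` if there are no nonzero
morphisms from objects of `U` to `B` in the homotopy category. -/
structure TStr (L : LG) where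
  /-- the objects of `D^{≤ 0}` -/
  U : MF L → Prop
  iso : ∀ X Y : MF L, Heq X Y → U X → U Y
  shift : ∀ X : MF L, U X → U X.s1
  tr : ∀ X : MF L, ∃ A B : MF L, Tri A X B ∧ U A ∧ ∀ Y : MF L, U Y → Z Y B ⊆ N Y B
  up : ∀ X : MF L, ∃ k : ℤ, U (X.sk k)
  dn : ∀ X : MF L, ∃ k : ℤ, ∀ Y : MF L, U Y → Z Y (X.sk k) ⊆ N Y (X.sk k)

/-- the objects of `D^{≥ 1}` -/
def TStr.V (T : TStr L) (X : MF L) : Prop := ∀ Y : MF L, T.U Y → Z Y X ⊆ N Y X

end Pool.Agent.Helper445_GMF
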