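import Pool.Agent.Helper445_GMF.Thk

/-!
Duality of graded matrix factorizations.
-/

set_option autoImplicit false
set_option linter.unusedSectionVars false

open CategoryTheory Matrix Pretriangulated Triangulated Limits MvPolynomial ZeroObject

namespace Pool.Agent.Helper445_GMF

section general

variable {L : LG}

/-- the dual matrix factorization -/
@[reducible] def MF.dl (X : MF L) : MF L where
  I := X.I
  g := fun i => -X.g i
  D := X.Dᵀ
  hD := fun i j => LG.mem_of_eq (X.hD j i) (by abel)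
  sq := by rw [← Matrix.transpose_mul, X.sq]; simp

theorem dl_hom {X Y : MF L} (h : ∀ f : Y.dl ⟶ X, f = 0) (f : X.dl ⟶ Y) : f = 0 := by
  obtain ⟨f, hf, rfl⟩ := hm_surj f
  have h1 : fᵀ ∈ Z Y.dl X := by
    refine ⟨fun i j => LG.mem_of_eq (hf.1 j i) ?_, ?_⟩
    · show Y.g j - (-X.g i) + 0 = X.g i - (-Y.g j) + 0
      abel
    · have h2 : Y.D * f = f * X.Dᵀ := hf.2
      show X.D * fᵀ = fᵀ * Y.Dᵀ
      rw [← Matrix.transpose_mul, h2, Matrix.transpose_mul, Matrix.transpose_transpose]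
  have h2 := hm_eq_zero_iff.1 (h (hm (X := Y.dl) (Y := X) fᵀ h1))
  obtain ⟨s, hs, es⟩ := h2
  refine hm_eq_zero_iff.2 ⟨sᵀ, fun i j => LG.mem_of_eq (hs j i) ?_, ?_⟩
  · show X.g j - (-Y.g i) + -L.ς = Y.g i - (-X.g j) + -L.ς
    abel
  · have e : fᵀ = X.D * s + s * Y.Dᵀ := es
    have e2 := congrArg Matrix.transpose e
    rw [Matrix.transpose_transpose, Matrix.transpose_add, Matrix.transpose_mul,
      Matrix.transpose_mul, Matrix.transpose_transpose] at e2
    rw [e2]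
    show sᵀ * X.Dᵀ + Y.D * sᵀ = Y.D * sᵀ + sᵀ * X.Dᵀ
    rw [add_comm]

end general

section two

variable {A : Type} [CommRing A] [Algebra ℂ A] {I : Type} [Fintype I] [DecidableEq I]

/-- the matrix of the duality of the Koszul matrix factorization in two variables -/
def JJ : Matrix ((I ⊕ I) ⊕ (I ⊕ I)) ((I ⊕ I) ⊕ (I ⊕ I)) A :=
  fromBlocks 0 (fromBlocks 0 1 (-1) 0) (fromBlocks 0 1 (-1) 0) 0

theorem JJ_sq : (JJ : Matrix ((I ⊕ I) ⊕ (I ⊕ I)) ((I ⊕ I) ⊕ (I ⊕ I)) A) * (-JJ) = 1 := by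
  rw [JJ, fromBlocks_neg, fromBlocks_multiply, ← fromBlocks_one]
  simp only [fromBlocks_neg, fromBlocks_multiply, ← fromBlocks_one]
  simp

theorem JJ_sq' : (-JJ : Matrix ((I ⊕ I) ⊕ (I ⊕ I)) ((I ⊕ I) ⊕ (I ⊕ I)) A) * JJ = 1 := by
  rw [neg_mul, ← mul_neg, JJ_sq]

theorem JJ_comm (x y w v : A) :
    (fromBlocks (fromBlocks 0 (y • 1) (v • 1) (-0)) (x • 1) (w • 1)
      (-fromBlocks 0 (y • 1) (v • 1) (-0)) :
      Matrix ((I ⊕ I) ⊕ (I ⊕ I)) ((I ⊕ I) ⊕ (I ⊕ I)) A)ᵀ * JJ =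
    JJ * fromBlocks (fromBlocks 0 (y • 1) (v • 1) (-0)) (x • 1) (w • 1)
      (-fromBlocks 0 (y • 1) (v • 1) (-0)) := by
  rw [JJ, fromBlocks_transpose]
  simp only [fromBlocks_neg, fromBlocks_multiply, fromBlocks_transpose, Matrix.transpose_smul,
    Matrix.transpose_one, Matrix.transpose_zero, Matrix.transpose_neg]
  congr 1 <;> simp [fromBlocks_smul, fromBlocks_multiply, ← fromBlocks_one]

end two

end Pool.Agent.Helper445_GMF
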