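import Pool.Agent.Helper445_GMF.TS

/-!
From t-structures to coarse slicings.
-/

set_option autoImplicit false
set_option linter.unusedSectionVars false

open CategoryTheory Matrix Pretriangulated Limits MvPolynomial

namespace Pool.Agent.Helper445_GMF

variable {n : ℕ} {a : Fin n → ℕ} {d : ℕ} {W : MvPolynomial (Fin n) ℂ}
  {hW : IsWeightedHomogeneous a W d}

theorem th_add (g h : Gd d) : th d (g + h) = th d g + th d h := rfl

theorem th_neg (g : Gd d) : th d (-g) = - th d g := rfl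

theorem th_sub (g h : Gd d) : th d (g - h) = th d g - th d h := rfl

theorem th_zsmul (k : ℤ) (g : Gd d) : th d (k • g) = k * th d g := by
  show (k • g).1.1 = k * g.1.1
  simp

theorem th_tau : th d (tau d) = 2 := rfl

theorem th_sig : th d (sig d) = d := rfl

theorem ts_ts_iso (X : MF (lg a d W hW)) (g : Gd d) :
    Nonempty ((X.ts g 1 (one_mul 1)).ts (-g) 1 (one_mul 1) ≅ X) := by
  obtain ⟨e1⟩ := ts_iso X (add_neg_cancel g)
  obtain ⟨e2⟩ := ts_zero X
  exact ⟨e1 ≪≫ e2⟩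

theorem ts_ts_iso' (X : MF (lg a d W hW)) (g : Gd d) :
    Nonempty ((X.ts (-g) 1 (one_mul 1)).ts g 1 (one_mul 1) ≅ X) := by
  obtain ⟨e1⟩ := ts_iso X (neg_add_cancel g)
  obtain ⟨e2⟩ := ts_zero X
  exact ⟨e1 ≪≫ e2⟩

theorem Hp.add {s : ℝ} {z w : ℂ} (hz : Hp s z) (hw : Hp s w) : Hp s (z + w) := by
  unfold Hp at *
  rw [PreStab.im_add, PreStab.im_add]
  rcases hz with hz | hz <;> rcases hw with hw | hw
  · exact Or.inl (by linarith)
  · exact Or.inl (by linarith [hw.1])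
  · exact Or.inl (by linarith [hz.1])
  · exact Or.inr ⟨by rw [hz.1, hw.1, add_zero], by linarith [hz.2, hw.2]⟩

/-- the twist of an isomorphism -/
noncomputable def tsI {X Y : MF (lg a d W hW)} (g : Gd d) (e : X ≅ Y) :
    X.ts g 1 (one_mul 1) ≅ Y.ts g 1 (one_mul 1) :=
  (tsF (L := lg a d W hW) g 1 (one_mul 1)).mapIso e

namespace TS

variable (T : TS hW)

/-- the aisle is closed under all twists of nonnegative phase -/
theorem mono (hd : 0 < d) (g : Gd d) (hg : 0 ≤ th d g) : T.S g := by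
  obtain ⟨k, rfl | rfl⟩ := gd_form g
  · rw [th_zsmul, th_tau] at hg
    obtain ⟨m, rfl⟩ := Int.eq_ofNat_of_zero_le (by omega : 0 ≤ k)
    have := T.S_nsmul T.m1 m
    rwa [← natCast_zsmul] at this
  · rw [th_add, th_zsmul, th_tau, th_sig] at hg
    rcases le_or_gt 0 k with hk | hk
    · obtain ⟨m, rfl⟩ := Int.eq_ofNat_of_zero_le hk
      have := T.S_add (T.S_nsmul T.m1 m) T.m0
      rwa [← natCast_zsmul] at this
    · obtain ⟨m, hm⟩ := Int.eq_ofNat_of_zero_le (by omega : 0 ≤ -k)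
      have h1 := T.S_key hd m (by omega)
      have e : k • tau d + sig d = sig d - m • tau d := by
        have : k = -(m : ℤ) := by omega
        rw [this, neg_smul, natCast_zsmul]
        abel
      rwa [e]

theorem mono' (hd : 0 < d) {X : MF (lg a d W hW)} {g h : Gd d} (hgh : th d g ≤ th d h)
    (hX : T.U (X.ts g 1 (one_mul 1))) : T.U (X.ts h 1 (one_mul 1)) := by
  have h1 := T.mono hd (h - g) (by rw [th_sub]; omega) _ hX
  exact (T.ts_congr (by abel)).1 h1


section aisles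

variable {D q p : ℕ} {η : Gd d} (hη : th d η = q)

/-- the aisles of the coarse slicing -/
def UU (η : Gd d) (m : ℤ) (X : MF (lg a d W hW)) : Prop := T.U (X.ts (-(m • η)) 1 (one_mul 1))

include hη in
theorem UU_anti (hd : 0 < d) {m m' : ℤ} {X : MF (lg a d W hW)} (hm : m' ≤ m)
    (h : T.UU η m X) : T.UU η m' X := by
  refine T.mono' hd ?_ h
  rw [th_neg, th_neg, th_zsmul, th_zsmul, hη]
  have : (0 : ℤ) ≤ q := by omega
  nlinarith

theorem UU_shift {m : ℤ} {X : MF (lg a d W hW)} (h : T.UU η m X) : T.UU η m (X⟦(1 : ℤ)⟧) := by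
  obtain ⟨e⟩ := shift_iso X
  refine T.iso (tsI _ e.symm) ?_
  have h1 := T.m0 _ h
  rw [T.ts_congr rfl] at h1 ⊢
  exact (T.ts_congr' (add_comm _ _)).1 h1

theorem UU_tr (m : ℤ) (X : MF (lg a d W hW)) : ∃ (A B : MF (lg a d W hW)) (f : A ⟶ X)
    (g : X ⟶ B) (h : B ⟶ A⟦(1 : ℤ)⟧), Triangle.mk f g h ∈ distTriang (MF (lg a d W hW)) ∧
      T.UU η m A ∧ Ro (T.UU η m) B := by
  obtain ⟨A, B, f, g, h, hT, hA, hB⟩ := T.tr (X.ts (-(m • η)) 1 (one_mul 1))
  obtain ⟨f', g', h', hT'⟩ := ts_dist (m • η) _ hT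
  obtain ⟨e⟩ := ts_ts_iso' X (m • η)
  obtain ⟨f'', g'', h'', hT''⟩ := exists_dist_of_iso hT' (Iso.refl _) e.symm (Iso.refl _)
  refine ⟨_, _, f'', g'', h'', hT'', ?_, ?_⟩
  · obtain ⟨e'⟩ := ts_ts_iso A (m • η)
    exact T.iso e'.symm hA
  · intro Y hY f
    obtain ⟨e'⟩ := ts_ts_iso B (m • η)
    have h1 : ∀ f : Y.ts (-(m • η)) 1 (one_mul 1) ⟶ B, f = 0 := hB _ hY
    have h2 : ∀ f : Y.ts (-(m • η)) 1 (one_mul 1) ⟶
      (B.ts (m • η) 1 (one_mul 1)).ts (-(m • η)) 1 (one_mul 1), f = 0 :=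
      hz_iso ⟨Iso.refl _⟩ ⟨e'⟩ h1
    exact hz_of_ts (L := lg a d W hW) (X := Y) (Y := B.ts (m • η) 1 (one_mul 1))
      (g := -(m • η)) h2 f

include hη in
/-- the central charges of the objects of the wide slices -/
theorem UU_wide (hd : 0 < d) (hq : 0 < q) (hqD : q * D = d) (hqp : q * p = 2) {m : ℤ}
    {X : MF (lg a d W hW)} (h1 : T.UU η m X) (h2 : Ro (T.UU η (m + p)) X) (h0 : ¬ IsZero X) :
    Ph (m / D) (m / D + p / D) (ZG X) := by
  have h3 : Ro T.U ((X.ts (-(m • η)) 1 (one_mul 1)).ts (-tau d) 1 (one_mul 1)) := by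
    refine (T.Ro_congr rfl).2 ?_
    intro Y hY f
    have h4 : T.UU η (m + p) (Y.ts (m • η + tau d) 1 (one_mul 1)) := by
      refine (T.ts_congr rfl).2 (T.mono' hd ?_ (T.ts_z.2 hY))
      rw [th_add, th_add, th_neg, th_zsmul, th_zsmul, hη, th_tau]
      have e0 : th d (0 : Gd d) = 0 := rfl
      have e1 : (q : ℤ) * p = 2 := by exact_mod_cast hqp
      rw [e0]
      linarith
    have h5 : ∀ f : Y.ts (m • η + tau d) 1 (one_mul 1) ⟶ X, f = 0 := h2 _ h4
    have h6 : ∀ f : Y.ts (m • η + tau d) 1 (one_mul 1) ⟶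
        (X.ts (-(m • η) + -tau d) 1 (one_mul 1)).ts (m • η + tau d) 1 (one_mul 1), f = 0 := by
      refine hz_iso ⟨Iso.refl _⟩ ?_ h5
      have e : -(m • η) + -tau d = -(m • η + tau d) := by abel
      obtain ⟨e1⟩ := ts_iso X (a := -(m • η) + -tau d) (b := m • η + tau d) (c := 0) (by
        rw [e]; exact neg_add_cancel _)
      obtain ⟨e2⟩ := ts_zero X
      exact ⟨e1 ≪≫ e2⟩
    exact hz_of_ts (L := lg a d W hW) (X := Y) (Y := X.ts (-(m • η) + -tau d) 1 (one_mul 1))
      (g := m • η + tau d) h6 f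
  have h4 := T.pos _ h1 h3 (fun h => h0 (by
    obtain ⟨e⟩ := ts_ts_iso' X (m • η)
    exact (ts_isZero _ _ h).of_iso e.symm))
  have h5 := Ph_ts h4
  rw [th_neg, th_zsmul, hη] at h5
  have hq' : (q : ℝ) ≠ 0 := by exact_mod_cast hq.ne'
  have hd' : (d : ℝ) = q * D := by exact_mod_cast hqD.symm
  have h6 : (((-(m * (q : ℤ)) : ℤ) : ℝ) / d : ℝ) = -((m : ℝ) / D) := by
    rw [hd']
    push_cast
    rw [neg_div, mul_comm (m : ℝ), mul_div_mul_left _ _ hq']
  have h7 : (2 : ℝ) / d = p / D := by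
    have : (2 : ℝ) = q * p := by exact_mod_cast hqp.symm
    rw [this, hd', mul_div_mul_left _ _ hq']
  rw [h6, h7] at h5
  have e1 : 0 - -((m : ℝ) / D) = m / D := by ring
  have e2 : (p : ℝ) / D - -((m : ℝ) / D) = m / D + p / D := by ring
  rwa [e1, e2] at h5

include hη in
/-- the central charges of the objects of the slices -/
theorem UU_slice (hd : 0 < d) (hq : 0 < q) (hqD : q * D = d) (hqp : q * p = 2) (hD : 2 ≤ D)
    {m : ℤ} {X : MF (lg a d W hW)} (h1 : T.UU η m X) (h2 : Ro (T.UU η (m + 1)) X)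
    (h0 : ¬ IsZero X) : Ph (m / D) (m / D + 1 / D) (ZG X) := by
  have hD' : (0 : ℝ) < D := by exact_mod_cast (by omega : 0 < D)
  have hp : p = 1 ∨ p = 2 := by
    have : p ≤ 2 := by nlinarith
    have : p ≠ 0 := by rintro rfl; simp at hqp
    omega
  have hmono : ∀ {k k' : ℤ}, k ≤ k' → Ro (T.UU η k) X → Ro (T.UU η k') X :=
    fun hk h Y hY => h Y (T.UU_anti hη hd hk hY)
  rcases hp with rfl | rfl
  · have := T.UU_wide hη hd hq hqD hqp h1 (by exact_mod_cast h2) h0
    simpa using this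
  · have h3 := T.UU_wide hη hd hq hqD hqp h1 (hmono (by push_cast; omega) h2) h0
    have h4 := T.UU_wide hη hd hq hqD hqp (m := m - 1) (T.UU_anti hη hd (by omega) h1)
      (hmono (by push_cast; omega) h2) h0
    have e1 : ((m - 1 : ℤ) : ℝ) / D = m / D - 1 / D := by push_cast; ring
    have e2 : (m : ℝ) / D - 1 / D + ((2 : ℕ) : ℝ) / D = m / D + 1 / D := by push_cast; ring
    rw [e1, e2] at h4
    have h5 : (1 : ℝ) / D ≤ 1 / 2 := by
      have : (2 : ℝ) ≤ D := by exact_mod_cast hD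
      exact one_div_le_one_div_of_le (by norm_num) this
    have e3 : (((2 : ℕ) : ℝ)) / D = 2 * (1 / D) := by push_cast; ring
    rw [e3] at h3
    exact h3.inter h4 (by linarith) (by linarith)

include hη in
/-- the central charges of the objects of the hearts -/
theorem UU_pos (ha : ∀ i, 0 < a i) (hd : 0 < d) (hq : 0 < q) (hqD : q * D = d) (hqp : q * p = 2) (hD : 2 ≤ D)
    (k : ℕ) : ∀ (m : ℤ) (X : MF (lg a d W hW)), T.UU η m X → Ro (T.UU η (m + k)) X →
      IsZero X ∨ ∀ s : ℝ, s ≤ m / D → ((m + k : ℤ) : ℝ) / D ≤ s + 1 → Hp s (ZG X) := by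
  have hD' : (0 : ℝ) < D := by exact_mod_cast (by omega : 0 < D)
  induction k with
  | zero =>
    intro m X h1 h2
    refine Or.inl ((IsZero.iff_id_eq_zero X).2 (h2 X ?_ _))
    simpa using h1
  | succ k ih =>
    intro m X h1 h2
    obtain ⟨A, B, f, g, w, hT, hA, hB⟩ := T.UU_tr (η := η) (m + 1) X
    have hiso : ∀ {k : ℤ} {Y V : MF (lg a d W hW)}, (Y ≅ V) → Ro (T.UU η k) Y →
        Ro (T.UU η k) V := fun e h A hA => hz_iso ⟨Iso.refl A⟩ ⟨e.symm⟩ (h A hA)
    have hB' : T.UU η m B := by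
      have hA' : T.UU η m (A⟦(1 : ℤ)⟧) := T.UU_shift (T.UU_anti hη hd (by omega) hA)
      obtain ⟨f', g', h', hT'⟩ := ts_dist (-(m • η)) _ (rot_of_distTriang _ hT)
      exact T.U_ext _ hT' h1 hA'
    have hA' : Ro (T.UU η (m + 1 + k)) A := by
      intro Y hY f'
      have h3 : f' ≫ f = 0 := h2 Y (by
        have e : m + ((k + 1 : ℕ) : ℤ) = m + 1 + k := by push_cast; ring
        rw [e]; exact hY) _
      obtain ⟨l, hl⟩ := Triangle.coyoneda_exact₂ _ (inv_rot_of_distTriang _ hT) f' h3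
      have h4 : l = 0 := by
        have h5 : T.UU η (m + 1) (Y⟦(1 : ℤ)⟧) :=
          T.UU_shift (T.UU_anti hη hd (by omega) hY)
        have h6 := hB _ h5 (l⟦(1 : ℤ)⟧' ≫ (shiftNegShift B (1 : ℤ)).hom)
        have h7 : l⟦(1 : ℤ)⟧' = 0 :=
          (cancel_mono (shiftNegShift B (1 : ℤ)).hom).1 (h6.trans zero_comp.symm)
        exact (shiftFunctor (MF (lg a d W hW)) (1 : ℤ)).map_injective (by
          rw [h7, Functor.map_zero])
      rw [hl, h4]
      exact zero_comp
    have hle : ((m + 1 : ℤ) : ℝ) / D = m / D + 1 / D := by push_cast; ring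
    have hD1 : (0 : ℝ) < 1 / D := by positivity
    by_cases hB0 : IsZero B
    · have h5 : IsIso f := (Triangle.distinguished_iff_of_isZero₃ _ hB0).1 hT
      rcases ih (m + 1) A hA hA' with h6 | h6
      · exact Or.inl (h6.of_iso (asIso f).symm)
      · refine Or.inr fun s hs hs' => ?_
        rw [← ZG_iso ha hd (asIso f)]
        refine h6 s (by rw [hle]; linarith) ?_
        have e : (m + 1 + k : ℤ) = m + ((k + 1 : ℕ) : ℤ) := by push_cast; ring
        rw [e]
        exact hs'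
    · right
      intro s hs hs'
      have h7 := T.UU_slice hη hd hq hqD hqp hD hB' hB hB0
      have hk : (m : ℝ) / D + 1 / D ≤ ((m + ((k + 1 : ℕ) : ℤ) : ℤ) : ℝ) / D := by
        rw [← add_div]
        refine div_le_div_of_nonneg_right ?_ hD'.le
        push_cast
        have : (0 : ℝ) ≤ k := Nat.cast_nonneg k
        linarith
      have h8 : Hp s (ZG B) := h7.hp hs (hk.trans hs')
      rcases ih (m + 1) A hA hA' with h6 | h6
      · have h5 : IsIso g := (Triangle.distinguished_iff_of_isZero₁ _ h6).1 hT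
        rw [ZG_iso ha hd (@asIso _ _ _ _ g h5)]
        exact h8
      · have h9 : Hp s (ZG A) := by
          refine h6 s (by rw [hle]; linarith) ?_
          have e : (m + 1 + k : ℤ) = m + ((k + 1 : ℕ) : ℤ) := by push_cast; ring
          rw [e]
          exact hs'
        have h10 : ZG X = ZG A + ZG B := ZG_add ha hd _ hT
        rw [h10]
        exact h9.add h8

end aisles

/-- the coarse slicing -/
noncomputable def coa (ha : ∀ i, 0 < a i) (hd : 0 < d) (D q p : ℕ) (η : Gd d) (hη : th d η = q)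
    (hq : 0 < q) (hqD : q * D = d) (hqp : q * p = 2) (hD : 2 ≤ D) :
    Coa (MF (lg a d W hW)) D where
  Z := ZG
  U m X := T.UU η m X
  add := ZG_add ha hd
  iso {m X Y} e h := T.iso (tsI _ e) h
  anti {m m' X} hm h := T.UU_anti hη hd hm h
  shift m X := by
    obtain ⟨e⟩ := shift_iso X
    have e1 : T.UU η (m + D) (X⟦(1 : ℤ)⟧) ↔
        T.U ((X.ts (sig d) 1 (one_mul 1)).ts (-((m + D : ℤ) • η)) 1 (one_mul 1)) :=
      ⟨T.iso (tsI _ e), T.iso (tsI _ e.symm)⟩
    rw [e1, T.ts_congr rfl]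
    have e2 : th d (sig d + -((m + D : ℤ) • η)) = th d (-(m • η)) := by
      rw [th_add, th_neg, th_neg, th_zsmul, th_zsmul, hη, th_sig]
      have : (d : ℤ) = q * D := by exact_mod_cast hqD.symm
      rw [this]
      ring
    exact ⟨T.mono' hd e2.le, T.mono' hd e2.ge⟩
  tr m X := T.UU_tr m X
  up X := by
    obtain ⟨k, hk⟩ := T.up X
    refine ⟨-(|k| * D), T.mono' hd ?_ hk⟩
    rw [th_neg, th_zsmul, th_zsmul, hη, th_sig]
    have : (d : ℤ) = q * D := by exact_mod_cast hqD.symm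
    rw [this]
    have h1 := le_abs_self k
    have h2 : (0 : ℤ) ≤ q * D := by positivity
    nlinarith
  dn X := by
    obtain ⟨k, hk⟩ := T.dn X
    refine ⟨|k| * D, ?_⟩
    intro Y hY f
    have h1 : T.U (Y.ts (k • sig d) 1 (one_mul 1)) := by
      refine T.mono' hd ?_ hY
      rw [th_neg, th_zsmul, th_zsmul, hη, th_sig]
      have : (d : ℤ) = q * D := by exact_mod_cast hqD.symm
      rw [this]
      have h1 := neg_abs_le k
      have h2 : (0 : ℤ) ≤ q * D := by positivity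
      nlinarith
    exact hz_of_ts (L := lg a d W hW) (X := Y) (Y := X) (g := k • sig d) (hk _ h1) f
  pos m X h1 h2 h0 := by
    rcases T.UU_pos hη ha hd hq hqD hqp hD D m X h1 h2 with h | h
    · exact absurd h h0
    · refine h _ le_rfl (le_of_eq ?_)
      have hD' : (D : ℝ) ≠ 0 := by exact_mod_cast (by omega : D ≠ 0)
      push_cast
      field_simp

end TS

end Pool.Agent.Helper445_GMF
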