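import Pool.Agent.Helper445_GMF.Wrd
import Pool.Agent.Helper445_GMF.TS2

/-!
The heart of a simple-minded collection and its tilt.
-/

set_option autoImplicit false
set_option linter.unusedSectionVars false

open CategoryTheory Pretriangulated Triangulated Limits ZeroObject

namespace Pool.Agent.Helper445_GMF

universe v u

variable {C : Type u} [Category.{v} C] [Preadditive C] [HasZeroObject C] [HasShift C ℤ]
  [∀ n : ℤ, (shiftFunctor C n).Additive] [Pretriangulated C] [IsTriangulated C]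

theorem inv_rot_aux {X Y V : C} {f : X ⟶ Y} {g : Y ⟶ V} {h : V ⟶ X⟦(1 : ℤ)⟧}
    (H : Triangle.mk f g h ∈ distTriang C) :
    ∃ (a : V⟦(-1 : ℤ)⟧ ⟶ X) (b : Y ⟶ V⟦(-1 : ℤ)⟧⟦(1 : ℤ)⟧), Triangle.mk a f b ∈ distTriang C :=
  ⟨_, _, inv_rot_of_distTriang _ H⟩

section ro

variable {U : C → Prop}

theorem Ro_ext {X Y V : C} {f : X ⟶ Y} {g : Y ⟶ V} {h : V ⟶ X⟦(1 : ℤ)⟧}
    (H : Triangle.mk f g h ∈ distTriang C) (hX : Ro U X) (hV : Ro U V) : Ro U Y := by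
  intro Z hZ φ
  obtain ⟨c, hc⟩ := ex_c2 H φ (hV Z hZ (φ ≫ g))
  rw [hc, hX Z hZ c, zero_comp]

theorem Ro_of_iso {X Y : C} (e : X ≅ Y) (hX : Ro U X) : Ro U Y := by
  intro Z hZ φ
  have := hX Z hZ (φ ≫ e.inv)
  rw [← cancel_mono e.inv, this, zero_comp]

theorem Ro_zero {X : C} (hX : IsZero X) : Ro U X := fun _ _ φ => hX.eq_of_tgt _ _

theorem aisle_orth (iso : ∀ {X Y : C}, (X ≅ Y) → U X → U Y) (sh : ∀ {X : C}, U X → U (X⟦(1 : ℤ)⟧))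
    {A X B : C} {f : A ⟶ X} {g : X ⟶ B} {h : B ⟶ A⟦(1 : ℤ)⟧}
    (H : Triangle.mk f g h ∈ distTriang C) (hA : U A) (hB : Ro U B)
    (hX : ∀ B, Ro U B → ∀ f : X ⟶ B, f = 0) : U X := by
  have h1 : IsZero B := by
    rw [IsZero.iff_id_eq_zero]
    obtain ⟨c, hc⟩ := ex_y3 H (𝟙 B) (by rw [hX B hB g, zero_comp])
    rw [hc, hB _ (sh hA) c, comp_zero]
  have h2 : IsIso f := (Triangle.isZero₃_iff_isIso₁ _ H).1 h1
  exact iso (asIso f) hA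

end ro

/-- words with letters of shift at least `t` -/
def Dw {ι : Type} (S : ι → ℤ → C) (t : ℤ) (X : C) : Prop := ∃ m, Srt S t m X

/-- the right orthogonal -/
abbrev Vw {ι : Type} (S : ι → ℤ → C) (t : ℤ) (X : C) : Prop := Ro (Dw S t) X

section words

variable {ι : Type} {S : ι → ℤ → C}

theorem Dw.ofIso {t : ℤ} {X Y : C} (e : X ≅ Y) (h : Dw S t X) : Dw S t Y := by
  obtain ⟨m, h⟩ := h
  exact ⟨m, h.ofIso e⟩

theorem Dw.mono {t t' : ℤ} (ht : t' ≤ t) {X : C} (h : Dw S t X) : Dw S t' X := by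
  obtain ⟨m, h⟩ := h
  exact ⟨m, h.mono ht⟩

theorem Dw.of_zero {t : ℤ} {X : C} (h : IsZero X) : Dw S t X := ⟨0, Srt.nil h⟩

theorem Vw.mono {t t' : ℤ} (ht : t ≤ t') {X : C} (h : Vw S t X) : Vw S t' X :=
  fun Y hY => h Y (hY.mono ht)

theorem Dw.letter (i : ι) (k : ℤ) : Dw S k (S i k) := by
  have h1 : Triangle.mk (0 : (0 : C) ⟶ S i k) (𝟙 _) (0 : S i k ⟶ (0 : C)⟦(1 : ℤ)⟧) ∈
      distTriang C := contractible_distinguished₁ _
  exact ⟨1, Srt.snoc i _ _ _ h1 le_rfl (Srt.nil (isZero_zero C))⟩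

theorem dv_zero {t : ℤ} {X : C} (h : Dw S t X) (h' : Vw S t X) : IsZero X := by
  rw [IsZero.iff_id_eq_zero]
  exact h' X h _

variable (hS : Smc S)

include hS

theorem Dw.sh1 {t : ℤ} {X : C} (h : Dw S t X) : Dw S (t + 1) (X⟦(1 : ℤ)⟧) := by
  obtain ⟨m, h⟩ := h
  exact ⟨m, h.sh1 hS⟩

theorem Dw.shn {t : ℤ} {X : C} (h : Dw S t X) : Dw S (t - 1) (X⟦(-1 : ℤ)⟧) := by
  obtain ⟨m, h⟩ := h
  exact ⟨m, h.shn hS⟩

theorem Vw.sh1 {t : ℤ} {X : C} (h : Vw S t X) : Vw S (t + 1) (X⟦(1 : ℤ)⟧) := by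
  intro Y hY f
  have h1 := h _ (by have := hY.shn hS; rwa [add_sub_cancel_right] at this)
    (f⟦(-1 : ℤ)⟧' ≫ (shiftShiftNeg X (1 : ℤ)).hom)
  apply (shiftFunctor C (-1 : ℤ)).map_injective
  rw [← cancel_mono (shiftShiftNeg X (1 : ℤ)).hom, h1, Functor.map_zero, zero_comp]

theorem Vw.shn {t : ℤ} {X : C} (h : Vw S t X) : Vw S (t - 1) (X⟦(-1 : ℤ)⟧) := by
  intro Y hY f
  have h1 := h _ (by have := hY.sh1 hS; rwa [sub_add_cancel] at this)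
    (f⟦(1 : ℤ)⟧' ≫ (shiftNegShift X (1 : ℤ)).hom)
  apply (shiftFunctor C (1 : ℤ)).map_injective
  rw [← cancel_mono (shiftNegShift X (1 : ℤ)).hom, h1, Functor.map_zero, zero_comp]

theorem Vw.letter {k t : ℤ} (hk : k < t) (i : ι) : Vw S t (S i k) := by
  rintro Y ⟨m, hY⟩ f
  exact hY.hom_zero hS hk i f

theorem Vw.first {t : ℤ} {X Y V : C} {f : X ⟶ Y} {g : Y ⟶ V} {h : V ⟶ X⟦(1 : ℤ)⟧}
    (H : Triangle.mk f g h ∈ distTriang C) (hY : Vw S t Y) (hV : Vw S (t + 1) V) : Vw S t X := by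
  obtain ⟨a, b, H'⟩ := inv_rot_aux H
  refine Ro_ext H' ?_ hY
  have := hV.shn hS
  rwa [add_sub_cancel_right] at this

theorem trunc {k : ℤ} {m : ℕ} {X : C} (hX : Srt S k m X) (t : ℤ) : ∃ (A B : C) (f : A ⟶ X)
    (g : X ⟶ B) (h : B ⟶ A⟦(1 : ℤ)⟧), Triangle.mk f g h ∈ distTriang C ∧ Dw S t A ∧ Vw S t B := by
  induction hX with
  | @nil k X h0 =>
    exact ⟨X, 0, 𝟙 X, 0, 0, contractible_distinguished X, Dw.of_zero h0, Ro_zero (isZero_zero C)⟩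
  | @snoc k k' m A X i f g h hT hk hA ih =>
    rcases le_or_gt t k' with ht | ht
    · exact ⟨X, 0, 𝟙 X, 0, 0, contractible_distinguished X, ⟨_, Srt.snoc i f g h hT ht hA⟩,
        Ro_zero (isZero_zero C)⟩
    · obtain ⟨A', B', f', g', h', hT', hA', hB'⟩ := ih
      obtain ⟨V, g1, h1, m₁, m₃, H1, H2, -⟩ := assocR hT' hT
      exact ⟨A', V, _, _, _, H1, hA', Ro_ext H2 hB' (Vw.letter hS ht i)⟩

variable (hG : ∀ X : C, ∃ k m, Srt S k m X)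

include hG

theorem tr_ex (t : ℤ) (X : C) : ∃ (A B : C) (f : A ⟶ X)
    (g : X ⟶ B) (h : B ⟶ A⟦(1 : ℤ)⟧), Triangle.mk f g h ∈ distTriang C ∧ Dw S t A ∧ Vw S t B := by
  obtain ⟨k, m, hX⟩ := hG X
  exact trunc hS hX t

theorem Dw.ext {t : ℤ} {X Y V : C} {f : X ⟶ Y} {g : Y ⟶ V} {h : V ⟶ X⟦(1 : ℤ)⟧}
    (H : Triangle.mk f g h ∈ distTriang C) (hX : Dw S t X) (hV : Dw S t V) : Dw S t Y := by
  obtain ⟨A, B, f', g', h', H', hA, hB⟩ := tr_ex hS hG t Y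
  refine aisle_orth (U := Dw S t) (fun e h => h.ofIso e)
    (fun h => (h.sh1 hS).mono (by omega)) H' hA hB ?_
  intro B hB φ
  obtain ⟨c, hc⟩ := ex_y2 H φ (hB X hX _)
  rw [hc, hB V hV c, comp_zero]

theorem Dw.third {t : ℤ} {X Y V : C} {f : X ⟶ Y} {g : Y ⟶ V} {h : V ⟶ X⟦(1 : ℤ)⟧}
    (H : Triangle.mk f g h ∈ distTriang C) (hY : Dw S t Y) (hX : Dw S (t - 1) X) : Dw S t V := by
  have R : Triangle.mk g h (-f⟦(1 : ℤ)⟧') ∈ distTriang C := rot_of_distTriang _ H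
  refine Dw.ext hS hG R hY ?_
  have := hX.sh1 hS
  rwa [sub_add_cancel] at this

end words

/-- the heart -/
def Hrt {ι : Type} (S : ι → ℤ → C) (X : C) : Prop := Dw S 0 X ∧ Vw S 1 X

/-- the data used for tilting the heart -/
structure Tlt {ι : Type} (S : ι → ℤ → C) (Zf : C → ℂ) (lam : ℂ →+ ℚ) : Prop where
  smc : Smc S
  gen : ∀ X : C, ∃ k m, Srt S k m X
  add : ∀ T ∈ distTriang C, Zf T.obj₂ = Zf T.obj₁ + Zf T.obj₃
  len : ∀ i, lam (Zf (S i 0)) = 1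

namespace Tlt

variable {ι : Type} {S : ι → ℤ → C} {Zf : C → ℂ} {lam : ℂ →+ ℚ} (H : Tlt S Zf lam)

include H

theorem add' {X Y V : C} {f : X ⟶ Y} {g : Y ⟶ V} {h : V ⟶ X⟦(1 : ℤ)⟧}
    (hT : Triangle.mk f g h ∈ distTriang C) : Zf Y = Zf X + Zf V := H.add _ hT

theorem z_zero {X : C} (h : IsZero X) : Zf X = 0 := by
  have h1 : Triangle.mk (0 : X ⟶ X) (0 : X ⟶ X) (0 : X ⟶ X⟦(1 : ℤ)⟧) ∈ distTriang C := by
    have h2 := contractible_distinguished X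
    refine isomorphic_distinguished _ h2 _ (Triangle.isoMk _ _ (Iso.refl _) (Iso.refl _)
      (h.iso (isZero_zero C)) ?_ ?_ ?_)
    · exact h.eq_of_tgt _ _
    · exact (isZero_zero C).eq_of_tgt _ _
    · exact h.eq_of_src _ _
  have := H.add' h1
  simpa using this

theorem z_iso {X Y : C} (e : X ≅ Y) : Zf X = Zf Y := by
  have h1 : Triangle.mk e.hom (0 : Y ⟶ (0 : C)) (0 : (0 : C) ⟶ X⟦(1 : ℤ)⟧) ∈ distTriang C := by
    rw [Triangle.distinguished_iff_of_isZero₃ _ (isZero_zero C)]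
    exact (inferInstance : IsIso e.hom)
  have := H.add' h1
  rw [H.z_zero (isZero_zero C), add_zero] at this
  exact this.symm

theorem z_sh (X : C) : Zf (X⟦(1 : ℤ)⟧) = - Zf X := by
  have h1 := rot_of_distTriang _ (contractible_distinguished X)
  have h2 : Zf (0 : C) = Zf X + Zf (X⟦(1 : ℤ)⟧) := H.add _ h1
  rw [H.z_zero (isZero_zero C)] at h2
  linear_combination -h2

theorem z_shn (X : C) : Zf (X⟦(-1 : ℤ)⟧) = - Zf X := by
  have h1 := H.z_sh (X⟦(-1 : ℤ)⟧)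
  rw [H.z_iso (shiftNegShift X (1 : ℤ))] at h1
  rw [h1, neg_neg]

theorem hrt_len : ∀ (m : ℕ) {k : ℤ} {X : C}, Srt S k m X → 0 ≤ k → Vw S 1 X →
    ∃ r : ℕ, lam (Zf X) = r ∧ (IsZero X ∨ 0 < r) := by
  intro m
  induction m with
  | zero =>
    intro k X hX _ _
    cases hX with
    | nil h0 => exact ⟨0, by rw [H.z_zero h0]; simp, Or.inl h0⟩
  | succ m ih =>
    intro k X hX hk hV
    cases hX with
    | @snoc _ k' _ A _ i f g h hT hk' hA =>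
      rcases le_or_gt 1 k' with h1 | h1
      · have h0 : IsZero X := dv_zero ⟨_, Srt.snoc i f g h hT h1 hA⟩ hV
        exact ⟨0, by rw [H.z_zero h0]; simp, Or.inl h0⟩
      · have h2 : k' = 0 := by omega
        subst h2
        have h3 : Vw S 1 A := Vw.first H.smc hT hV (Vw.letter H.smc (by norm_num) i)
        obtain ⟨r, hr, -⟩ := ih hA le_rfl h3
        refine ⟨r + 1, ?_, Or.inr (by omega)⟩
        rw [H.add' hT, map_add, hr, H.len]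
        push_cast
        ring

theorem len_ex {X : C} (h : Hrt S X) : ∃ r : ℕ, lam (Zf X) = r ∧ (IsZero X ∨ 0 < r) := by
  obtain ⟨⟨m, h1⟩, h2⟩ := h
  exact H.hrt_len m h1 le_rfl h2

theorem z_ne {X : C} (h : Hrt S X) (h0 : ¬ IsZero X) : Zf X ≠ 0 := by
  intro hz
  obtain ⟨r, hr, h1⟩ := H.len_ex h
  rw [hz, map_zero] at hr
  rcases h1 with h1 | h1
  · exact h0 h1
  · have : r = 0 := by exact_mod_cast hr.symm
    omega

/-- the top letter -/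
theorem top {X : C} (h : Hrt S X) (h0 : ¬ IsZero X) : ∃ (i : ι) (f : X ⟶ S i 0), f ≠ 0 := by
  obtain ⟨⟨m, h1⟩, h2⟩ := h
  cases h1 with
  | nil h3 => exact absurd h3 h0
  | @snoc _ k' _ A _ i f g h hT hk hA =>
    rcases le_or_gt 1 k' with h3 | h3
    · exact absurd (dv_zero ⟨_, Srt.snoc i f g h hT h3 hA⟩ h2) h0
    · have h4 : k' = 0 := by omega
      subst h4
      exact ⟨i, g, Srt.last_ne H.smc hT hA⟩

theorem img {X Y : C} (hX : Hrt S X) (hY : Hrt S Y) (f : X ⟶ Y) (hf : f ≠ 0) :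
    ∃ (K I Q : C) (k : K ⟶ X) (p : X ⟶ I) (r : I ⟶ K⟦(1 : ℤ)⟧) (i : I ⟶ Y) (q : Y ⟶ Q)
      (s : Q ⟶ I⟦(1 : ℤ)⟧), Triangle.mk k p r ∈ distTriang C ∧ Triangle.mk i q s ∈ distTriang C ∧
      Hrt S K ∧ Hrt S I ∧ Hrt S Q ∧ ¬ IsZero I := by
  obtain ⟨Cn, g, h, H1⟩ := distinguished_cocone_triangle f
  have R1 : Triangle.mk g h (-f⟦(1 : ℤ)⟧') ∈ distTriang C := rot_of_distTriang _ H1
  have hC1 : Dw S 0 Cn := Dw.third H.smc H.gen H1 hY.1 (hX.1.mono (by norm_num))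
  have hC2 : Vw S 2 Cn := Ro_ext R1 (hY.2.mono (by norm_num)) (hX.2.sh1 H.smc)
  obtain ⟨P, Q, a, b, c, H2, hP, hQ⟩ := tr_ex H.smc H.gen 1 Cn
  have hP2 : Vw S 2 P := Vw.first H.smc H2 hC2 (hQ.mono (by norm_num))
  have hQ1 : Dw S 0 Q := Dw.third H.smc H.gen H2 hC1 (hP.mono (by norm_num))
  obtain ⟨I, i, j, H3⟩ := distinguished_cocone_triangle₁ (g ≫ b)
  obtain ⟨p, q, r, H4, hpi⟩ := oct_co H1 H2 H3 rfl
  obtain ⟨k, r', H5⟩ := inv_rot_aux H4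
  refine ⟨P⟦(-1 : ℤ)⟧, I, Q, k, p, r', i, g ≫ b, j, H5, H3, ⟨hP.shn H.smc, hP2.shn H.smc⟩,
    ⟨Dw.ext H.smc H.gen H4 hX.1 (hP.mono (by norm_num)),
      Vw.first H.smc H3 hY.2 (hQ.mono (by norm_num))⟩, ⟨hQ1, hQ⟩, ?_⟩
  intro h0
  apply hf
  rw [← hpi, h0.eq_zero_of_tgt p, zero_comp]

end Tlt

end Pool.Agent.Helper445_GMF
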