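import Pool.Agent.Helper445_GMF.Poly

/-!
The homotopy category of graded matrix factorizations is idempotent complete.
-/

set_option autoImplicit false
set_option linter.unusedSectionVars false

open CategoryTheory Matrix Pretriangulated Limits MvPolynomial

namespace Pool.Agent.Helper445_GMF

section poly

open Polynomial in
theorem exists_idem_poly {R : Type} [Ring R] [Algebra ℂ R] (f : R) (hf : IsIntegral ℂ f) :
    ∃ q w : Polynomial ℂ, Polynomial.aeval f q * Polynomial.aeval f q = Polynomial.aeval f q ∧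
      Polynomial.aeval f q - f = (f * f - f) * Polynomial.aeval f w := by
  obtain ⟨p0, hp0, hf0⟩ := hf
  have h0 : Polynomial.aeval f p0 = 0 := hf0
  obtain ⟨P, hPdef⟩ : ∃ P : Polynomial ℂ, P = Polynomial.X * (Polynomial.X - Polynomial.C 1) * p0 :=
    ⟨_, rfl⟩
  have hP : P ≠ 0 := by
    rw [hPdef]
    exact mul_ne_zero (mul_ne_zero Polynomial.X_ne_zero (Polynomial.X_sub_C_ne_zero 1))
      hp0.ne_zero
  have hPf : Polynomial.aeval f P = 0 := by
    rw [hPdef, map_mul, h0, mul_zero]
  obtain ⟨g, hg, hg'⟩ := Polynomial.exists_eq_pow_rootMultiplicity_mul_and_not_dvd P hP 0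
  have hk : 0 < Polynomial.rootMultiplicity 0 P := by
    rw [Polynomial.rootMultiplicity_pos hP]
    simp [hPdef]
  set k := Polynomial.rootMultiplicity 0 P
  have hg1 : g.eval 1 = 0 := by
    have h1 : P.eval 1 = 0 := by simp [hPdef]
    rw [hg] at h1
    simpa using h1
  have hcop : IsCoprime ((Polynomial.X - Polynomial.C 0) ^ k) g :=
    ((Polynomial.irreducible_X_sub_C (0 : ℂ)).coprime_iff_not_dvd.2 hg').pow_left
  obtain ⟨u, v, huv⟩ := hcop
  obtain ⟨q, hqdef⟩ : ∃ q : Polynomial ℂ, q = u * (Polynomial.X - Polynomial.C 0) ^ k := ⟨_, rfl⟩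
  have hq1 : 1 - q = v * g := by
    rw [hqdef, ← huv]; ring
  have hdvd : (Polynomial.X - Polynomial.C 0) * (Polynomial.X - Polynomial.C 1) ∣
      q - Polynomial.X := by
    refine IsCoprime.mul_dvd (Polynomial.isCoprime_X_sub_C_of_isUnit_sub (by norm_num)) ?_ ?_
    · rw [Polynomial.dvd_iff_isRoot, Polynomial.IsRoot, hqdef]
      simp [hk.ne']
    · rw [Polynomial.dvd_iff_isRoot, Polynomial.IsRoot]
      have h2 := congrArg (Polynomial.eval 1) hq1
      rw [Polynomial.eval_sub, Polynomial.eval_mul, hg1, mul_zero, Polynomial.eval_one] at h2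
      rw [Polynomial.eval_sub, Polynomial.eval_X]
      linear_combination -h2
  obtain ⟨w, hw⟩ := hdvd
  refine ⟨q, w, ?_, ?_⟩
  · have h3 : q * q = q - u * v * P := by
      have h4 : q * (1 - q) = u * v * P := by
        rw [hq1, hg, hqdef]; ring
      linear_combination -h4
    rw [← map_mul, h3, map_sub, map_mul, hPf, mul_zero, sub_zero]
  · have h5 : Polynomial.aeval f q - f = Polynomial.aeval f (q - Polynomial.X) := by
      rw [map_sub, Polynomial.aeval_X]
    rw [h5, hw, map_mul, map_mul, map_sub, map_sub, Polynomial.aeval_X, Polynomial.aeval_C,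
      Polynomial.aeval_C, map_zero, map_one, sub_zero, mul_sub, mul_one]

end poly

section fin

variable {n : ℕ} {a : Fin n → ℕ} {d : ℕ}

theorem tau_inj {k l : ℕ} (h : k • tau d = l • tau d) : k = l := by
  have h1 : (k • tau d).1.1 = (l • tau d).1.1 := by rw [h]
  have h2 : (k : ℤ) * 2 = l * 2 := by simpa [tau] using h1
  omega

theorem pc_fin (ha : ∀ i, 0 < a i) (g : Gd d) :
    Module.Finite ℂ (weightedHomogeneousSubmodule ℂ (wt a d) g) := by
  by_cases h : ∃ k : ℕ, k • tau d = g
  · obtain ⟨k, rfl⟩ := h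
    have h1 : weightedHomogeneousSubmodule ℂ (wt a d) (k • tau d) ≤
        weightedHomogeneousSubmodule ℂ a k := by
      intro p hp m hm
      have h2 := hp hm
      rw [weight_wt] at h2
      exact tau_inj h2
    have h2 : (weightedHomogeneousSubmodule ℂ a k).FG :=
      weightedHomogeneousSubmodule_fg ℂ a (fun x => (ha x).ne') k
    have h3 : Module.Finite ℂ (weightedHomogeneousSubmodule ℂ a k) := Module.Finite.iff_fg.2 h2
    exact Submodule.finiteDimensional_of_le h1
  · have h1 : weightedHomogeneousSubmodule ℂ (wt a d) g = ⊥ := by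
      rw [eq_bot_iff]
      intro p hp
      rw [Submodule.mem_bot]
      by_contra hc
      obtain ⟨m, hm⟩ := exists_coeff_ne_zero hc
      have h2 := hp hm
      rw [weight_wt] at h2
      exact h ⟨_, h2⟩
    rw [h1]
    infer_instance

end fin

section alg

variable {L : LG}

/-- the algebra of endomorphisms, before taking homotopy classes -/
def Za (X : MF L) : Subalgebra ℂ (Matrix X.I X.I L.A) where
  carrier := Z X X
  mul_mem' hf hg := Z_mul hf hg
  one_mem' := Z_one X
  add_mem' hf hg := Z_add hf hg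
  zero_mem' := Z_zero
  algebraMap_mem' c := by
    rw [Algebra.algebraMap_eq_smul_one]
    exact Z_csmul c (Z_one X)

theorem Za_fg (hL : ∀ g, Module.Finite ℂ (L.pc g)) (X : MF L) : (Za X).toSubmodule.FG := by
  rw [← Module.Finite.iff_fg]
  have : ∀ i j : X.I, Module.Finite ℂ (L.pc (X.g i - X.g j + 0)) := fun i j => hL _
  let φ : (Za X).toSubmodule →ₗ[ℂ] (∀ i j : X.I, L.pc (X.g i - X.g j + 0)) :=
    { toFun := fun f i j => ⟨f.1 i j, f.2.1 i j⟩
      map_add' := fun f g => rfl
      map_smul' := fun c f => rfl }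
  refine Module.Finite.of_injective φ ?_
  intro f g h
  ext i j
  have h1 := congrFun (congrFun h i) j
  exact congrArg Subtype.val h1

/-- idempotents can be lifted -/
theorem exists_idem (hL : ∀ g, Module.Finite ℂ (L.pc g)) {X : MF L} {f : Matrix X.I X.I L.A}
    (hf : f ∈ Z X X) (h : f * f - f ∈ N X X) :
    ∃ q ∈ Z X X, q * q = q ∧ q - f ∈ N X X := by
  have hint : IsIntegral ℂ f := IsIntegral.of_mem_of_fg (Za X) (Za_fg hL X) f hf
  obtain ⟨q, w, h1, h2⟩ := exists_idem_poly f hint
  have hmem : ∀ p : Polynomial ℂ, Polynomial.aeval f p ∈ Z X X := fun p =>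
    (Algebra.adjoin_le (S := Za X) (Set.singleton_subset_iff.2 hf))
      (Polynomial.aeval_mem_adjoin_singleton ℂ f)
  refine ⟨Polynomial.aeval f q, hmem q, h1, ?_⟩
  rw [h2]
  exact N_mul_right h (hmem w)

end alg

section split

variable {L : LG}

theorem fin_case (a : Aug L) {I : Type} [Fintype I] [DecidableEq I] (g : I → L.G)
    (hK : ∀ q : Matrix I I L.A, q * q = q → (∀ i j, a.ε (q i j) = 0) → q = 0) :
    ∀ (m : ℕ) (q : Matrix I I L.A), q ∈ Hg g g 0 → q * q = q →
      Module.finrank ℂ (LinearMap.range (q.map a.ε).mulVecLin) = m →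
      ∃ (J : Type) (_ : Fintype J) (_ : DecidableEq J) (h : J → L.G) (p : Matrix J I L.A)
        (e : Matrix I J L.A), p ∈ Hg g h 0 ∧ e ∈ Hg h g 0 ∧ p * e = 1 ∧ e * p = q := by
  intro m
  induction m using Nat.strong_induction_on with
  | _ m ih =>
    intro q hq hqq hm
    by_cases h0 : ∀ i j, a.ε (q i j) = 0
    · have := hK q hqq h0
      subst this
      exact ⟨Empty, inferInstance, inferInstance, fun x => x.elim, 0, 0, Hg_zero, Hg_zero,
        by ext x; exact x.elim, by rw [Matrix.zero_mul]⟩
    · push Not at h0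
      obtain ⟨i, j, hij⟩ := h0
      obtain ⟨hg, hc⟩ := a.h _ _ (hq i j) hij
      have hg' : g i = g j := by
        rw [add_zero, sub_eq_zero] at hg; exact hg
      obtain ⟨c, hcdef⟩ : ∃ c, c = a.ε (q i j) := ⟨_, rfl⟩
      rw [← hcdef] at hij hc
      obtain ⟨v, hv⟩ : ∃ v : Matrix I Unit L.A, v = Matrix.of (fun k _ => q k j) := ⟨_, rfl⟩
      obtain ⟨w, hw⟩ : ∃ w : Matrix Unit I L.A, w = Matrix.of (fun _ k => c⁻¹ • q i k) := ⟨_, rfl⟩
      have hqv : q * v = v := by
        ext k x
        have h1 := congrFun (congrFun hqq k) j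
        rw [Matrix.mul_apply] at h1 ⊢
        rw [hv]
        exact h1
      have hwq : w * q = w := by
        ext x k
        have h1 := congrFun (congrFun hqq i) k
        rw [Matrix.mul_apply] at h1 ⊢
        rw [hw]
        simp only [Matrix.of_apply]
        rw [← h1, Finset.smul_sum]
        exact Finset.sum_congr rfl fun l _ => smul_mul_assoc _ _ _
      have hwv : w * v = 1 := by
        ext x y
        have h1 := congrFun (congrFun hqq i) j
        rw [Matrix.mul_apply] at h1 ⊢
        rw [hw, hv]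
        simp only [Matrix.of_apply]
        have h2 : ∑ k, c⁻¹ • q i k * q k j = c⁻¹ • q i j := by
          rw [← h1, Finset.smul_sum]
          exact Finset.sum_congr rfl fun l _ => smul_mul_assoc _ _ _
        rw [h2, hc, Algebra.algebraMap_eq_smul_one, smul_smul, inv_mul_cancel₀ hij, one_smul]
        rfl
      have hvH : v ∈ Hg (fun _ : Unit => g j) g 0 := by
        intro k x
        rw [hv]
        exact hq k j
      have hwH : w ∈ Hg g (fun _ : Unit => g j) 0 := by
        intro x k
        rw [hw]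
        have h1 := Submodule.smul_mem _ c⁻¹ (hq i k)
        rw [hg'] at h1
        exact h1
      obtain ⟨q', hq'⟩ : ∃ q', q' = q - v * w := ⟨_, rfl⟩
      have hq'v : q' * v = 0 := by
        rw [hq', Matrix.sub_mul, hqv, Matrix.mul_assoc, hwv, Matrix.mul_one, sub_self]
      have hwq' : w * q' = 0 := by
        rw [hq', Matrix.mul_sub, hwq, ← Matrix.mul_assoc, hwv, Matrix.one_mul, sub_self]
      have hqq' : q * q' = q' := by
        rw [hq', Matrix.mul_sub, hqq, ← Matrix.mul_assoc, hqv]
      have hq'q' : q' * q' = q' := by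
        have h5 : q' * q' = (q - v * w) * q' := by rw [← hq']
        rw [h5, Matrix.sub_mul, hqq', Matrix.mul_assoc, hwq', Matrix.mul_zero, sub_zero]
      have hq'H : q' ∈ Hg g g 0 := by
        rw [hq', sub_eq_add_neg]
        exact Hg_add hq (Hg_neg (Hg_mul hvH hwH (by abel)))
      have hlt : Module.finrank ℂ (LinearMap.range (q'.map a.ε).mulVecLin) <
          Module.finrank ℂ (LinearMap.range (q.map a.ε).mulVecLin) := by
        refine Submodule.finrank_lt_finrank_of_lt (lt_of_le_of_ne ?_ ?_)
        · rintro _ ⟨u, rfl⟩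
          refine ⟨(q'.map a.ε).mulVec u, ?_⟩
          rw [Matrix.mulVecLin_apply, Matrix.mulVecLin_apply, Matrix.mulVec_mulVec,
            ← Matrix.map_mul, hqq']
        · intro he
          have hmem : (fun k => a.ε (q k j)) ∈ LinearMap.range (q.map a.ε).mulVecLin := by
            refine ⟨fun k => a.ε (q k j), ?_⟩
            funext k
            rw [Matrix.mulVecLin_apply, Matrix.mulVec, dotProduct]
            have h1 := congrArg a.ε (congrFun (congrFun hqq k) j)
            rw [Matrix.mul_apply, map_sum] at h1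
            rw [← h1]
            exact Finset.sum_congr rfl fun l _ => (map_mul a.ε (q k l) (q l j)).symm
          rw [← he] at hmem
          obtain ⟨u, hu⟩ := hmem
          have h2 : (q'.map a.ε).mulVec (fun k => a.ε (q k j)) = 0 := by
            funext k
            have h3 := congrArg a.ε (congrFun (congrFun hq'v k) ())
            rw [Matrix.mul_apply, map_sum] at h3
            rw [Matrix.mulVec, dotProduct]
            refine Eq.trans (Finset.sum_congr rfl fun l _ => ?_) (h3.trans (map_zero _))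
            rw [map_mul, hv]
            rfl
          have h4 : (fun k => a.ε (q k j)) = 0 := by
            rw [Matrix.mulVecLin_apply] at hu
            rw [← hu, Matrix.mulVec_mulVec, ← Matrix.map_mul, hq'q', hu] at h2
            exact h2
          exact hij (hcdef.trans (congrFun h4 i))
      obtain ⟨J, _, _, h, p, e, hp, he, hpe, hep⟩ := ih _ (hm ▸ hlt) q' hq'H hq'q' rfl
      refine ⟨J ⊕ Unit, inferInstance, inferInstance, Sum.elim h (fun _ => g j), fromRows p w,
        fromCols e v, Hg_rows hp hwH, Hg_cols he hvH, ?_, ?_⟩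
      · have h1 : p * v = 0 := by
          have : p = p * q' := by rw [← hep, ← Matrix.mul_assoc, hpe, Matrix.one_mul]
          rw [this, Matrix.mul_assoc, hq'v, Matrix.mul_zero]
        have h2 : w * e = 0 := by
          have : e = q' * e := by rw [← hep, Matrix.mul_assoc, hpe, Matrix.mul_one]
          rw [this, ← Matrix.mul_assoc, hwq', Matrix.zero_mul]
        rw [fromRows_mul_fromCols, hpe, h1, h2, hwv, fromBlocks_one]
      · rw [fromCols_mul_fromRows, hep, hq']
        abel

theorem split_MF (a : Aug L)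
    (hK : ∀ (I : Type) [Fintype I] [DecidableEq I] (q : Matrix I I L.A), q * q = q →
      (∀ i j, a.ε (q i j) = 0) → q = 0) (hL : ∀ g, Module.Finite ℂ (L.pc g))
    (X : MF L) (e : X ⟶ X) (h : e ≫ e = e) :
    ∃ (A : MF L) (r : X ⟶ A) (j : A ⟶ X), j ≫ r = 𝟙 A ∧ r ≫ j = e := by
  obtain ⟨f, hf, rfl⟩ := hm_surj e
  obtain ⟨q, hq, hqq, hqf⟩ := exists_idem hL hf (hm_eq_iff.1 h)
  obtain ⟨J, _, _, g, p, e, hp, he, hpe, hep⟩ := fin_case a X.g (hK X.I) _ q hq.1 hqq rfl
  have hpq : p * q = p := by rw [← hep, ← Matrix.mul_assoc, hpe, Matrix.one_mul]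
  have hqe : q * e = e := by rw [← hep, Matrix.mul_assoc, hpe, Matrix.mul_one]
  let A : MF L :=
    { I := J
      g := g
      D := p * X.D * e
      hD := Hg_mul (Hg_mul hp X.hD' rfl) he (by abel)
      sq := by
        have h1 : p * X.D * e * (p * X.D * e) = p * (X.D * (e * p)) * (X.D * e) := by
          simp only [Matrix.mul_assoc]
        rw [h1, hep, hq.2, ← Matrix.mul_assoc p q, hpq, Matrix.mul_assoc, ← Matrix.mul_assoc X.D,
          X.sq, Matrix.smul_mul, Matrix.one_mul, Matrix.mul_smul, hpe] }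
  have hpZ : p ∈ Z X A := by
    refine ⟨hp, ?_⟩
    show p * X.D * e * p = p * X.D
    rw [Matrix.mul_assoc, hep, Matrix.mul_assoc, hq.2, ← Matrix.mul_assoc, hpq]
  have heZ : e ∈ Z A X := by
    refine ⟨he, ?_⟩
    show X.D * e = e * (p * X.D * e)
    rw [← Matrix.mul_assoc, ← Matrix.mul_assoc, hep, ← hq.2, Matrix.mul_assoc, hqe]
  refine ⟨A, hm p hpZ, hm e heZ, ?_, ?_⟩
  · exact hm_congr hpe
  · refine hm_eq_iff.2 ?_
    rw [hep]
    exact hqf

end split

theorem krull_idem {n : ℕ} {I : Type} [Fintype I] [DecidableEq I]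
    (q : Matrix I I (MvPolynomial (Fin n) ℂ)) (hq : q * q = q)
    (h0 : ∀ i j, constantCoeff (q i j) = 0) : q = 0 := by
  have h1 : ∀ k : ℕ, ∀ i j, q i j ∈
      (RingHom.ker (constantCoeff : MvPolynomial (Fin n) ℂ →+* ℂ)) ^ k := by
    intro k
    induction k with
    | zero => intro i j; rw [pow_zero, Ideal.one_eq_top]; trivial
    | succ k ih =>
      intro i j
      have h2 := congrFun (congrFun hq i) j
      rw [← h2, Matrix.mul_apply, pow_succ]
      exact Submodule.sum_mem _ fun l _ => Ideal.mul_mem_mul (ih i l) (h0 l j)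
  have h3 := Ideal.iInf_pow_eq_bot_of_isDomain
    (RingHom.ker (constantCoeff : MvPolynomial (Fin n) ℂ →+* ℂ)) (RingHom.ker_ne_top _)
  ext1 i j
  have h4 : q i j ∈ ⨅ k : ℕ, (RingHom.ker (constantCoeff : MvPolynomial (Fin n) ℂ →+* ℂ)) ^ k :=
    (Submodule.mem_iInf _).2 fun k => h1 k i j
  rw [h3] at h4
  exact h4

/-- The homotopy category is idempotent complete. -/
theorem lg_idem {n : ℕ} {a : Fin n → ℕ} {d : ℕ} {W : MvPolynomial (Fin n) ℂ}
    (hW : IsWeightedHomogeneous a W d) (ha : ∀ i, 0 < a i) (hd : 0 < d)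
    (X : MF (lg a d W hW)) (e : X ⟶ X) (h : e ≫ e = e) :
    ∃ (A : MF (lg a d W hW)) (r : X ⟶ A) (j : A ⟶ X), j ≫ r = 𝟙 A ∧ r ≫ j = e := by
  refine split_MF (aug ha hd hW) ?_ (fun g => pc_fin ha g) X e h
  intro I _ _ q hq h0
  refine krull_idem q hq fun i j => ?_
  have := h0 i j
  change aeval (0 : Fin n → ℂ) (q i j) = 0 at this
  rw [aeval_zero] at this
  exact this

end Pool.Agent.Helper445_GMF
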