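import Pool.Agent.Helper445_GMF.Trunc

/-!
Inducing stability conditions along functors.
-/

set_option autoImplicit false
set_option linter.unusedSectionVars false

open CategoryTheory Pretriangulated Triangulated Limits ZeroObject

namespace Pool.Agent.Helper445_GMF

universe v u v' u'

section one

variable {C : Type u} [Category.{v} C] [Preadditive C] [HasZeroObject C] [HasShift C ℤ]
  [∀ n : ℤ, (shiftFunctor C n).Additive] [Pretriangulated C] [IsTriangulated C]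

theorem Gen.retract_gt (σ : PreStab C) {s : ℝ} {Y V : C} (i : Y ⟶ V) (p : V ⟶ Y)
    (h : i ≫ p = 𝟙 Y) (hV : Gen σ.P (Set.Ioi s) V) : Gen σ.P (Set.Ioi s) Y := by
  obtain ⟨A, B, f, g, k, H⟩ := σ.exists_tr s Y
  have h1 : p ≫ g = 0 := Gen.hom_zero σ (fun _ hs _ hs' => lt_of_le_of_lt hs' hs) hV H.2.2 _
  have h2 : g = 0 := by
    rw [← Category.id_comp g, ← h, Category.assoc, h1, comp_zero]
  have h3 : IsZero B := by
    rw [IsZero.iff_id_eq_zero]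
    obtain ⟨l, hl⟩ := Triangle.yoneda_exact₃ _ H.1 (𝟙 B) (by
      show g ≫ 𝟙 B = 0
      rw [h2, zero_comp])
    have h4 : l = 0 := by
      refine Gen.hom_zero σ ?_ (Gen.shift_one σ H.2.1) H.2.2 l
      intro x (hx : s < x - 1) y (hy : y ≤ s)
      linarith
    rw [hl, h4]
    exact comp_zero
  have h5 : IsIso f := (Triangle.distinguished_iff_of_isZero₃ _ h3).1 H.1
  exact Gen.ofIso (asIso f) H.2.1

theorem Gen.retract_le (σ : PreStab C) {s : ℝ} {Y V : C} (i : Y ⟶ V) (p : V ⟶ Y)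
    (h : i ≫ p = 𝟙 Y) (hV : Gen σ.P (Set.Iic s) V) : Gen σ.P (Set.Iic s) Y := by
  obtain ⟨A, B, f, g, k, H⟩ := σ.exists_tr s Y
  have h1 : f ≫ i = 0 := Gen.hom_zero σ (fun _ hs _ hs' => lt_of_le_of_lt hs' hs) H.2.1 hV _
  have h2 : f = 0 := by
    rw [← Category.comp_id f, ← h, ← Category.assoc, h1, zero_comp]
  have h3 : IsZero A := by
    rw [IsZero.iff_id_eq_zero]
    obtain ⟨l, hl⟩ := Triangle.coyoneda_exact₂ _ (inv_rot_of_distTriang _ H.1) (𝟙 A) (by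
      show 𝟙 A ≫ f = 0
      rw [h2, comp_zero])
    have h4 : l = 0 := by
      refine Gen.hom_zero σ ?_ H.2.1 (Gen.shift_neg σ H.2.2) l
      intro x (hx : s < x) y (hy : y + 1 ≤ s)
      linarith
    rw [hl, h4]
    exact zero_comp
  have h5 : IsIso g := (Triangle.distinguished_iff_of_isZero₁ _ h3).1 H.1
  exact Gen.ofIso (asIso g).symm H.2.2

/-- the objects of the truncation triangles are unique up to isomorphism -/
theorem PreStab.tr_unique' (σ : PreStab C) {s : ℝ} {A X B A' B' : C} {f : A ⟶ X} {g : X ⟶ B}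
    {h : B ⟶ A⟦(1 : ℤ)⟧} {f' : A' ⟶ X} {g' : X ⟶ B'} {h' : B' ⟶ A'⟦(1 : ℤ)⟧}
    (H : σ.IsTr s f g h) (H' : σ.IsTr s f' g' h') : Nonempty (A ≅ A') ∧ Nonempty (B ≅ B') := by
  have h0 : f ≫ g' = 0 := Gen.hom_zero σ (fun _ hs _ hs' => lt_of_le_of_lt hs' hs) H.2.1 H'.2.2 _
  obtain ⟨k, hk⟩ : ∃ k : A ⟶ A', f = k ≫ f' := Triangle.coyoneda_exact₂ _ H'.1 f h0
  obtain ⟨Q, v, w, hQ⟩ := distinguished_cocone_triangle k
  have o := someOctahedron hk.symm hQ H'.1 H.1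
  have h1 : Gen σ.P (Set.Iic s) Q := Gen.first σ _ o.mem H.2.2
    (H'.2.2.mono (fun x (hx : x ≤ s) => (by linarith : x - 1 ≤ s)))
  have h2 : Gen σ.P (Set.Ioi s) Q := Gen.third σ _ hQ H'.2.1
    (H.2.1.mono (fun x (hx : s < x) => (by linarith : s < x + 1)))
  have h3 : IsZero Q := Gen.isZero σ (fun _ hs _ hs' => lt_of_le_of_lt hs' hs) h2 h1
  have hk1 : IsIso k := (Triangle.distinguished_iff_of_isZero₃ _ h3).1 hQ
  refine ⟨⟨asIso k⟩, ?_⟩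
  let E := isoTriangleOfIso₁₂ (Triangle.mk f g h) (Triangle.mk f' g' h') H.1 H'.1
    (@asIso _ _ _ _ k hk1) (Iso.refl _) (by
      show f ≫ 𝟙 X = k ≫ f'
      rw [Category.comp_id]
      exact hk)
  exact ⟨Triangle.π₃.mapIso E⟩

end one

variable {C : Type u} [Category.{v} C] [Preadditive C] [HasZeroObject C] [HasShift C ℤ]
  [∀ n : ℤ, (shiftFunctor C n).Additive] [Pretriangulated C] [IsTriangulated C]
  {D : Type u'} [Category.{v'} D] [Preadditive D] [HasZeroObject D] [HasShift D ℤ]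
  [∀ n : ℤ, (shiftFunctor D n).Additive] [Pretriangulated D] [IsTriangulated D]

/-- The data which allow to induce a stability condition. -/
structure Dat (σ : PreStab C) (F : D ⥤ C) (G : C → D) : Prop where
  F0 : ∀ X, IsZero X → IsZero (F.obj X)
  Fd : ∀ T ∈ distTriang D, ∃ (f : F.obj T.obj₁ ⟶ F.obj T.obj₂) (g : F.obj T.obj₂ ⟶ F.obj T.obj₃)
    (h : F.obj T.obj₃ ⟶ (F.obj T.obj₁)⟦(1 : ℤ)⟧), Triangle.mk f g h ∈ distTriang C
  G0 : ∀ X, IsZero X → IsZero (G X)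
  Gd : ∀ T ∈ distTriang C, ∃ (f : G T.obj₁ ⟶ G T.obj₂) (g : G T.obj₂ ⟶ G T.obj₃)
    (h : G T.obj₃ ⟶ (G T.obj₁)⟦(1 : ℤ)⟧), Triangle.mk f g h ∈ distTriang D
  faith : ∀ X Y : D, (∀ f : F.obj X ⟶ F.obj Y, f = 0) → ∀ f : X ⟶ Y, f = 0
  ret : ∀ X : D, ∃ (i : X ⟶ G (F.obj X)) (p : G (F.obj X) ⟶ X), i ≫ p = 𝟙 X
  PG : ∀ φ Y, σ.P φ Y → Gen σ.P {φ} (F.obj (G Y))
  idem : ∀ (X : D) (e : X ⟶ X), e ≫ e = e →
    ∃ (A : D) (r : X ⟶ A) (j : A ⟶ X), j ≫ r = 𝟙 A ∧ r ≫ j = e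

namespace Dat

variable {σ : PreStab C} {F : D ⥤ C} {G : C → D} (H : Dat σ F G)

include H

theorem gen {S : Set ℝ} {Y : C} (hY : Gen σ.P S Y) : Gen σ.P S (F.obj (G Y)) := by
  induction hY with
  | zero h => exact .zero (H.F0 _ (H.G0 _ h))
  | ss hφ hX => exact (H.PG _ _ hX).mono (Set.singleton_subset_iff.2 hφ)
  | ext T hT _ _ h₁ h₃ =>
    obtain ⟨f, g, h, hd⟩ := H.Gd T hT
    obtain ⟨f', g', h', hd'⟩ := H.Fd _ hd
    exact .ext _ hd' h₁ h₃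

theorem shift1 (X : D) : Nonempty (F.obj (X⟦(1 : ℤ)⟧) ≅ (F.obj X)⟦(1 : ℤ)⟧) := by
  obtain ⟨f, g, h, hd⟩ := H.Fd _ (rot_of_distTriang _ (contractible_distinguished X))
  have h1 : IsIso h := (Triangle.distinguished_iff_of_isZero₁ _ (by
    exact H.F0 _ (isZero_zero D))).1 (rot_of_distTriang _ hd)
  exact ⟨@asIso _ _ _ _ h h1⟩

theorem shiftn (X : D) : Nonempty (F.obj (X⟦(-1 : ℤ)⟧) ≅ (F.obj X)⟦(-1 : ℤ)⟧) := by
  obtain ⟨e⟩ := H.shift1 (X⟦(-1 : ℤ)⟧)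
  have e1 : (F.obj (X⟦(-1 : ℤ)⟧))⟦(1 : ℤ)⟧ ≅ F.obj X := e.symm ≪≫ F.mapIso (shiftNegShift X (1 : ℤ))
  exact ⟨(shiftShiftNeg _ (1 : ℤ)).symm ≪≫ (shiftFunctor C (-1 : ℤ)).mapIso e1⟩

theorem exists_tr (s : ℝ) (X : D) : ∃ (A B : D) (f : A ⟶ X) (g : X ⟶ B) (h : B ⟶ A⟦(1 : ℤ)⟧),
    Triangle.mk f g h ∈ distTriang D ∧ Gen σ.P (Set.Ioi s) (F.obj A) ∧
      Gen σ.P (Set.Iic s) (F.obj B) := by
  obtain ⟨U, V, f, g, h, hU, hV, hV'⟩ :
      ∃ (U V : D) (f : U ⟶ G (F.obj X)) (g : G (F.obj X) ⟶ V) (h : V ⟶ U⟦(1 : ℤ)⟧),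
        Triangle.mk f g h ∈ distTriang D ∧ Gen σ.P (Set.Ioi s) (F.obj U) ∧
        Gen σ.P (Set.Iic s) (F.obj V) := by
    obtain ⟨U, V, f, g, h, HT⟩ := σ.exists_tr s (F.obj X)
    obtain ⟨f', g', h', hd⟩ := H.Gd _ HT.1
    exact ⟨G U, G V, f', g', h', hd, H.gen HT.2.1, H.gen HT.2.2⟩
  obtain ⟨i, p, hip⟩ := H.ret X
  have hUV : ∀ f : U ⟶ V, f = 0 := H.faith _ _
    (Gen.hom_zero σ (fun _ hs _ hs' => lt_of_le_of_lt hs' hs) hV hV')
  have hUV' : ∀ f : U ⟶ V⟦(-1 : ℤ)⟧, f = 0 := by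
    refine H.faith _ _ fun f => ?_
    obtain ⟨e⟩ := H.shiftn V
    refine Gen.hom_zero σ ?_ hV (Gen.ofIso e.symm (Gen.shift_neg σ hV')) f
    intro x (hx : s < x) y (hy : y + 1 ≤ s)
    linarith
  have hmono : ∀ φ : U ⟶ U, φ ≫ f = 0 → φ = 0 := by
    intro φ hφ
    obtain ⟨l, hl⟩ := Triangle.coyoneda_exact₂ _ (inv_rot_of_distTriang _ hU) φ hφ
    rw [hl, hUV' l]
    exact zero_comp
  obtain ⟨eU, heU⟩ : ∃ eU : U ⟶ U, f ≫ p ≫ i = eU ≫ f :=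
    Triangle.coyoneda_exact₂ _ hU (f ≫ p ≫ i) (hUV _)
  have hid : (p ≫ i) ≫ (p ≫ i) = p ≫ i := by
    rw [Category.assoc, ← Category.assoc i p i, hip, Category.id_comp]
  have hidU : eU ≫ eU = eU := by
    rw [← sub_eq_zero]
    refine hmono _ ?_
    rw [Preadditive.sub_comp, Category.assoc, ← heU, ← Category.assoc eU, ← heU, Category.assoc,
      hid, sub_self]
  obtain ⟨A, r, j, hjr, hrj⟩ := H.idem U eU hidU
  obtain ⟨B, g', h', hB⟩ := distinguished_cocone_triangle (j ≫ f ≫ p)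
  refine ⟨A, B, _, g', h', hB, ?_, ?_⟩
  · exact Gen.retract_gt σ (F.map j) (F.map r) (by rw [← F.map_comp, hjr, F.map_id]) hV
  · have c1 : (j ≫ f ≫ p) ≫ i = j ≫ f := by
      rw [Category.assoc, Category.assoc, heU, ← Category.assoc, ← hrj, ← Category.assoc, hjr,
        Category.id_comp]
    have c2 : f ≫ p = r ≫ (j ≫ f ≫ p) := by
      rw [← Category.assoc r, hrj, ← Category.assoc, ← heU, Category.assoc, Category.assoc, hip,
        Category.comp_id]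
    obtain ⟨b1, hb1, hb1'⟩ : ∃ b1 : B ⟶ V, g' ≫ b1 = i ≫ g ∧ h' ≫ j⟦(1 : ℤ)⟧' = b1 ≫ h :=
      complete_distinguished_triangle_morphism _ _ hB hU j i c1
    obtain ⟨b2, hb2, hb2'⟩ : ∃ b2 : V ⟶ B, g ≫ b2 = p ≫ g' ∧ h ≫ r⟦(1 : ℤ)⟧' = b2 ≫ h' :=
      complete_distinguished_triangle_morphism _ _ hU hB r p c2
    have hiso : IsIso (b1 ≫ b2) := by
      let φ : Triangle.mk (j ≫ f ≫ p) g' h' ⟶ Triangle.mk (j ≫ f ≫ p) g' h' :=
        { hom₁ := 𝟙 A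
          hom₂ := 𝟙 X
          hom₃ := b1 ≫ b2
          comm₁ := by
            show (j ≫ f ≫ p) ≫ 𝟙 X = 𝟙 A ≫ (j ≫ f ≫ p)
            rw [Category.comp_id, Category.id_comp]
          comm₂ := by
            show g' ≫ b1 ≫ b2 = 𝟙 X ≫ g'
            rw [← Category.assoc, hb1, Category.assoc, hb2, ← Category.assoc, hip]
          comm₃ := by
            show h' ≫ (𝟙 A)⟦(1 : ℤ)⟧' = (b1 ≫ b2) ≫ h'
            rw [Category.assoc, ← hb2', ← Category.assoc, ← hb1', Category.assoc,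
              ← Functor.map_comp, hjr] }
      exact isIso₃_of_isIso₁₂ φ hB hB (inferInstanceAs (IsIso (𝟙 A)))
        (inferInstanceAs (IsIso (𝟙 X)))
    refine Gen.retract_le σ (F.map b1) (F.map (b2 ≫ inv (b1 ≫ b2))) ?_ hV'
    rw [← F.map_comp, ← Category.assoc, IsIso.hom_inv_id, F.map_id]

theorem hn {a b : ℝ} {Y : C} (h : HN σ.P a b Y) : ∀ X : D, Nonempty (F.obj X ≅ Y) →
    HN (fun φ X => σ.P φ (F.obj X)) a b X := by
  induction h with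
  | one hY =>
    rintro X ⟨e⟩
    exact .one (σ.iso e.symm hY)
  | @step φ a b T hT h₁ h₃ hφ ih =>
    rintro X ⟨e⟩
    obtain ⟨A, B, f, g, h, hd, hA, hB⟩ := H.exists_tr φ X
    obtain ⟨f', g', h', hd'⟩ := H.Fd _ hd
    have hT' := dist_mid (f := T.mor₁) (g := T.mor₂) (h := T.mor₃) hT e.symm
    obtain ⟨⟨i1⟩, ⟨i2⟩⟩ := σ.tr_unique' (s := φ) (f := f') (g := g') (h := h')
      ⟨hd', hA, hB⟩ ⟨hT', (σ.HN_gen h₁).mono (fun x hx => lt_of_lt_of_le hφ hx.1),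
        .ss (Set.mem_Iic.2 le_rfl) h₃⟩
    exact .step _ hd (ih A ⟨i1⟩) (σ.iso i2.symm h₃) hφ

theorem isZero {X : D} (h : IsZero (F.obj X)) : IsZero X := by
  obtain ⟨i, p, hip⟩ := H.ret X
  rw [IsZero.iff_id_eq_zero, ← hip, (H.G0 _ h).eq_of_tgt i 0, zero_comp]

end Dat

/-- the induced stability condition -/
def Dat.pre {σ : PreStab C} {F : D ⥤ C} {G : C → D} (H : Dat σ F G) (Z' : D → ℂ) (c : ℝ)
    (hc : 0 < c) (hZ : ∀ X, Z' X = c * σ.Z (F.obj X)) : PreStab D where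
  Z := Z'
  P φ X := σ.P φ (F.obj X)
  add T hT := by
    obtain ⟨f, g, h, hd⟩ := H.Fd T hT
    rw [hZ, hZ, hZ, ← mul_add]
    congr 1
    exact σ.add _ hd
  iso e h := σ.iso (F.mapIso e) h
  zero φ X h := σ.zero φ _ (H.F0 X h)
  phase φ X h h0 := by
    obtain ⟨m, hm, e⟩ := σ.phase φ _ h (fun h => h0 (H.isZero h))
    refine ⟨c * m, mul_pos hc hm, ?_⟩
    rw [hZ, e]
    push_cast
    ring
  shift φ X := by
    obtain ⟨e⟩ := H.shift1 X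
    rw [← σ.shift φ (F.obj X)]
    exact ⟨σ.iso e, σ.iso e.symm⟩
  hom {φ φ' X Y} h hX hY f := H.faith X Y (fun f => σ.hom h hX hY f) f
  hn X := by
    obtain ⟨a, b, h⟩ := σ.hn (F.obj X)
    exact ⟨a, b, H.hn h X ⟨Iso.refl _⟩⟩

end Pool.Agent.Helper445_GMF
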