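import Pool.Agent.Helper445_GMF.Bridge

/-!
Morphisms to the Koszul matrix factorizations are determined by their top component at the origin.
-/

set_option autoImplicit false
set_option linter.unusedSectionVars false

open CategoryTheory Matrix Pretriangulated Limits MvPolynomial

namespace Pool.Agent.Helper445_GMF

section pure

variable {A : Type} [CommRing A] [Algebra ℂ A] {K J : Type} [Fintype K] [DecidableEq K]
  [Fintype J] [DecidableEq J]

theorem pu_inj (D : Matrix K K A) (E : Matrix J J A) (f1 f2 s h : Matrix K J A) (x w V : A)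
    (hD : D * D = V • 1) (hE : E * E = (V + x * w) • 1) (hc : D * f1 + x • f2 = f1 * E)
    (hr : f1 - (D * s + s * E) = x • h) (hx : ∀ M : Matrix K J A, x • M = 0 → M = 0) :
    fromRows f1 f2 = fromBlocks D (x • 1) (w • 1) (-D) * fromRows s h + fromRows s h * E := by
  have h1 : f1 = D * s + x • h + s * E := by rw [← hr]; abel
  have h2 : f2 = w • s + -(D * h) + h * E := by
    rw [← sub_eq_zero]
    apply hx
    have e1 : x • f2 = f1 * E - D * f1 := by rw [← hc]; abel
    have e2 : x • (w • s + -(D * h) + h * E) = (x * w) • s - D * (x • h) + (x • h) * E := by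
      rw [smul_add, smul_add, smul_smul, smul_neg, Matrix.mul_smul, Matrix.smul_mul]
      abel
    rw [smul_sub, e1, e2, ← hr, Matrix.sub_mul, Matrix.add_mul, Matrix.mul_sub, Matrix.mul_add,
      ← Matrix.mul_assoc D D, hD, Matrix.mul_assoc s E, hE, Matrix.smul_mul, Matrix.one_mul,
      Matrix.mul_smul, Matrix.mul_one, ← Matrix.mul_assoc D s E, add_smul]
    abel
  rw [fromBlocks_mul_fromRows, fromRows_mul]
  simp only [Matrix.smul_mul, Matrix.one_mul, Matrix.neg_mul]
  rw [rows_add, ← h1, ← h2]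

theorem pu_blk (D : Matrix K K A) (E : Matrix J J A) (f1 f2 : Matrix K J A) (x w : A)
    (h : fromBlocks D (x • 1) (w • 1) (-D) * fromRows f1 f2 = fromRows f1 f2 * E) :
    D * f1 + x • f2 = f1 * E := by
  rw [fromBlocks_mul_fromRows, fromRows_mul] at h
  have := (fromRows_inj h).1
  rwa [Matrix.smul_mul, Matrix.one_mul] at this

theorem pu_rows_map {B : Type} {f1 f2 : Matrix K J A} {f1' f2' : Matrix K J B} {φ : A → B}
    (h : (fromRows f1 f2).map φ = fromRows f1' f2') : f1.map φ = f1' := by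
  rw [fromRows_map] at h
  exact (fromRows_inj h).1

end pure

variable {n : ℕ} {a : Fin n → ℕ} {d : ℕ} {W : MvPolynomial (Fin n) ℂ}

theorem ev_X_of_notMem {c : List (Fin n)} {i : Fin n} (h : i ∉ c) : ev c (X i) = X i := by
  simp [ev, h]

theorem ev_X_of_mem {c : List (Fin n)} {i : Fin n} (h : i ∈ c) : ev c (X i) = 0 := by
  simp [ev, h]

theorem ev_ev_cons (i : Fin n) (c : List (Fin n)) (p : MvPolynomial (Fin n) ℂ) :
    ev (i :: c) (ev c p) = ev (i :: c) p := by
  have : (ev (i :: c)).comp (ev c) = ev (i :: c) := by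
    refine algHom_ext fun j => ?_
    by_cases hj : j ∈ c
    · rw [AlgHom.comp_apply, ev_X_of_mem hj, map_zero, ev_X_of_mem (List.mem_cons_of_mem _ hj)]
    · rw [AlgHom.comp_apply, ev_X_of_notMem hj]
  exact congrArg (fun f => f p) this

theorem ev_ev_cons' (i : Fin n) (c : List (Fin n)) (p : MvPolynomial (Fin n) ℂ) :
    ev c (ev (i :: c) p) = ev (i :: c) p := by
  have : (ev c).comp (ev (i :: c)) = ev (i :: c) := by
    refine algHom_ext fun j => ?_
    by_cases hj : j ∈ i :: c
    · rw [AlgHom.comp_apply, ev_X_of_mem hj, map_zero]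
    · rw [AlgHom.comp_apply, ev_X_of_notMem hj, ev_X_of_notMem fun h => hj
        (List.mem_cons_of_mem _ h)]
  exact congrArg (fun f => f p) this

theorem ev_ev_full {c L : List (Fin n)} (h : ∀ i, i ∈ L ∨ i ∈ c) (p : MvPolynomial (Fin n) ℂ) :
    ev c (ev L p) = C (constantCoeff p) := by
  have : (ev c).comp (ev L) = (aeval (0 : Fin n → MvPolynomial (Fin n) ℂ)) := by
    refine algHom_ext fun j => ?_
    rw [aeval_X, AlgHom.comp_apply]
    by_cases hj : j ∈ L
    · rw [ev_X_of_mem hj, map_zero]; rfl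
    · rw [ev_X_of_notMem hj, ev_X_of_mem ((h j).resolve_left hj)]; rfl
  have h2 : ev c (ev L p) = aeval (0 : Fin n → MvPolynomial (Fin n) ℂ) p :=
    congrArg (fun f => f p) this
  rw [h2, aeval_zero, algebraMap_eq]

theorem ev_ev (c : List (Fin n)) (p : MvPolynomial (Fin n) ℂ) : ev c (ev c p) = ev c p := by
  have h' : (ev c).comp (ev c) = ev c := by
    refine algHom_ext fun j => ?_
    by_cases hj : j ∈ c
    · rw [AlgHom.comp_apply, ev_X_of_mem hj, map_zero]
    · rw [AlgHom.comp_apply, ev_X_of_notMem hj, ev_X_of_notMem hj]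
  exact congrArg (fun f => f p) h'

theorem const_ev (c : List (Fin n)) (p : MvPolynomial (Fin n) ℂ) :
    constantCoeff (ev c p) = constantCoeff p := by
  have : (constantCoeff : MvPolynomial (Fin n) ℂ →+* ℂ).comp
      ((ev c : MvPolynomial (Fin n) ℂ →ₐ[ℂ] MvPolynomial (Fin n) ℂ) :
        MvPolynomial (Fin n) ℂ →+* MvPolynomial (Fin n) ℂ) = constantCoeff := by
    refine ringHom_ext (fun z => by simp) fun j => ?_
    by_cases hj : j ∈ c
    · rw [RingHom.comp_apply, RingHom.coe_coe, ev_X_of_mem hj]; simp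
    · rw [RingHom.comp_apply, RingHom.coe_coe, ev_X_of_notMem hj]
  exact congrArg (fun f => f p) this

theorem mmul_ev {P Q R : Type} [Fintype Q] (c : List (Fin n))
    (M : Matrix P Q (MvPolynomial (Fin n) ℂ)) (M' : Matrix Q R (MvPolynomial (Fin n) ℂ)) :
    (M * M').map (ev c) = M.map (ev c) * M'.map (ev c) := Matrix.map_mul

theorem madd_ev {P Q : Type} (c : List (Fin n)) (M M' : Matrix P Q (MvPolynomial (Fin n) ℂ)) :
    (M + M').map (ev c) = M.map (ev c) + M'.map (ev c) := by
  ext1 r s; exact map_add (ev c) _ _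

theorem msub_ev {P Q : Type} (c : List (Fin n)) (M M' : Matrix P Q (MvPolynomial (Fin n) ℂ)) :
    (M - M').map (ev c) = M.map (ev c) - M'.map (ev c) := by
  ext1 r s; exact map_sub (ev c) _ _

theorem mev_ev {P Q : Type} (c : List (Fin n)) (M : Matrix P Q (MvPolynomial (Fin n) ℂ)) :
    (M.map (ev c)).map (ev c) = M.map (ev c) := by
  ext1 r s; exact ev_ev c _

theorem mev_cons {P Q : Type} (i : Fin n) (c : List (Fin n))
    (M : Matrix P Q (MvPolynomial (Fin n) ℂ)) :
    (M.map (ev c)).map (ev (i :: c)) = M.map (ev (i :: c)) := by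
  ext1 r s; exact ev_ev_cons i c _

theorem mev_cons' {P Q : Type} (i : Fin n) (c : List (Fin n))
    (M : Matrix P Q (MvPolynomial (Fin n) ℂ)) :
    (M.map (ev (i :: c))).map (ev c) = M.map (ev (i :: c)) := by
  ext1 r s; exact ev_ev_cons' i c _

theorem mev_X {P Q : Type} (i : Fin n) (c : List (Fin n))
    (M : Matrix P Q (MvPolynomial (Fin n) ℂ)) :
    ((X i : MvPolynomial (Fin n) ℂ) • M).map (ev (i :: c)) = 0 := by
  ext1 r s
  rw [Matrix.map_apply, Matrix.smul_apply, smul_eq_mul, map_mul, ev_X_of_mem List.mem_cons_self,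
    zero_mul, Matrix.zero_apply]

theorem mev_one {P : Type} [DecidableEq P] (c : List (Fin n)) (x : MvPolynomial (Fin n) ℂ) :
    (x • (1 : Matrix P P (MvPolynomial (Fin n) ℂ))).map (ev c) = ev c x • 1 := by
  ext1 r s
  by_cases hrs : r = s
  · subst hrs; simp
  · simp [Matrix.one_apply_ne hrs]

theorem mreg {P Q : Type} (i : Fin n) (M : Matrix P Q (MvPolynomial (Fin n) ℂ))
    (hM : (X i : MvPolynomial (Fin n) ℂ) • M = 0) : M = 0 := by
  ext1 r s
  have := congrFun (congrFun hM r) s
  exact (mul_eq_zero.1 this).resolve_left (X_ne_zero i)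

/-- division by a variable -/
theorem exists_mdv {P Q : Type} {g : Q → Gd d} {h : P → Gd d} {c0 : Gd d} (hW :
    IsWeightedHomogeneous a W d) (i : Fin n) (c : List (Fin n)) (hic : i ∉ c)
    (R : Matrix P Q (MvPolynomial (Fin n) ℂ)) (hR : R ∈ Hg (L := lg a d W hW) g h c0)
    (h1 : R.map (ev c) = R) (h2 : R.map (ev (i :: c)) = 0) :
    ∃ H ∈ Hg (L := lg a d W hW) g h (c0 - wt a d i), H.map (ev c) = H ∧
      R = (X i : MvPolynomial (Fin n) ℂ) • H := by
  have hex : ∀ r s, ∃ q, IsWeightedHomogeneous (wt a d) q (h r - g s + c0 - wt a d i) ∧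
      R r s = X i * q := by
    intro r s
    obtain ⟨q, hq1, hq2⟩ := exists_dv i c (hR r s)
    refine ⟨q, hq1, ?_⟩
    have e1 : ev c (R r s) = R r s := congrFun (congrFun h1 r) s
    have e2 : ev (i :: c) (R r s) = 0 := congrFun (congrFun h2 r) s
    rw [e1, e2, zero_add] at hq2
    exact hq2
  choose H hH1 hH2 using hex
  have e : R = (X i : MvPolynomial (Fin n) ℂ) • (Matrix.of H) := by
    ext1 r s; exact hH2 r s
  refine ⟨Matrix.of H, fun r s => ?_, ?_, e⟩
  · exact LG.mem_of_eq (L := lg a d W hW) (hH1 r s) (by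
      show h r - g s + c0 - wt a d i = h r - g s + (c0 - wt a d i)
      abel)
  · rw [← sub_eq_zero]
    apply mreg i
    rw [smul_sub, ← e]
    have : (X i : MvPolynomial (Fin n) ℂ) • (Matrix.of H).map (ev c) = R.map (ev c) := by
      rw [e]
      ext1 r s
      show X i * ev c (H r s) = ev c (X i * H r s)
      rw [map_mul, ev_X_of_notMem hic]
    rw [this, h1, sub_self]

theorem kM_map {A' : Type} {G' : Type} [CommRing A'] [Algebra ℂ A'] {I : Type} [Fintype I]
    [DecidableEq I] (f : A' →+* A') (i : A' × A' × G') (l : List (A' × A' × G')) :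
    (kM 1 (0 : Matrix I I A') (i :: l)).map f =
      fromBlocks ((kM 1 (0 : Matrix I I A') l).map f) (f i.1 • 1) (f i.2.1 • 1)
        (-((kM 1 (0 : Matrix I I A') l).map f)) := by
  show (fromBlocks (kM 1 (0 : Matrix I I A') l) (i.1 • 1) ((1 * i.2.1) • 1)
    (-kM 1 (0 : Matrix I I A') l)).map f = _
  rw [fromBlocks_map]
  have h1 : ∀ x : A', (x • (1 : Matrix (Cu I l) (Cu I l) A')).map f = f x • 1 := by
    intro x
    ext r c
    by_cases h : r = c
    · subst h; simp
    · simp [Matrix.one_apply_ne h]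
  rw [h1, h1, one_mul]
  congr 1
  ext r c
  simp

variable (hW : IsWeightedHomogeneous a W d) (hd : 0 < d)

include hd in
theorem kM_ps_sq {I : Type} [Fintype I] [DecidableEq I] (i : Fin n) {c L : List (Fin n)}
    (h : ∀ j, j ∈ i :: L ∨ j ∈ c) (hi : i ∉ c) :
    (kM 1 (0 : Matrix I I (MvPolynomial (Fin n) ℂ)) (ps hW L)).map (ev c) *
      (kM 1 (0 : Matrix I I (MvPolynomial (Fin n) ℂ)) (ps hW L)).map (ev c) =
      (ev c W - X i * ev c (wq hW i L)) • 1 := by
  have h1 := kM_sq 1 (0 : Matrix I I (MvPolynomial (Fin n) ℂ)) 0 (by simp) (ps hW L)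
  rw [ps_sum] at h1
  have h4 : ev c (0 + 1 * (W - ev L W)) = ev c W - X i * ev c (wq hW i L) := by
    rw [zero_add, one_mul, map_sub, wq_eq hW i L, map_add, map_mul, ev_X_of_notMem hi,
      ev_ev_full h, W_const hd hW, map_zero, zero_add]
  rw [← mmul_ev, h1, mev_one, h4]

theorem kM_ps_map {I : Type} [Fintype I] [DecidableEq I] (i : Fin n) {c L : List (Fin n)}
    (hic : i ∉ c) :
    (kM 1 (0 : Matrix I I (MvPolynomial (Fin n) ℂ)) (ps hW (i :: L))).map (ev c) =
      fromBlocks ((kM 1 (0 : Matrix I I (MvPolynomial (Fin n) ℂ)) (ps hW L)).map (ev c))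
        ((X i : MvPolynomial (Fin n) ℂ) • 1) (ev c (wq hW i L) • 1)
          (-((kM 1 (0 : Matrix I I (MvPolynomial (Fin n) ℂ)) (ps hW L)).map (ev c))) := by
  have := kM_map (I := I) (ev c : MvPolynomial (Fin n) ℂ →+* MvPolynomial (Fin n) ℂ)
    (X i, wq hW i L, wt a d i) (ps hW L)
  refine Eq.trans this ?_
  show fromBlocks ((kM 1 (0 : Matrix I I (MvPolynomial (Fin n) ℂ)) (ps hW L)).map (ev c))
    ((ev c (X i)) • 1) (ev c (wq hW i L) • 1)
    (-((kM 1 (0 : Matrix I I (MvPolynomial (Fin n) ℂ)) (ps hW L)).map (ev c))) = _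
  rw [ev_X_of_notMem hic]

include hd in
theorem inj_aux {I : Type} [Fintype I] [DecidableEq I] (g : I → Gd d) (E : MF (lg a d W hW))
    (L : List (Fin n)) (hn : L.Nodup) : ∀ c : List (Fin n), (∀ i, i ∈ L ∨ i ∈ c) →
    (∀ i ∈ L, i ∉ c) → ∀ f : Matrix (Cu I (ps hW L)) E.I (MvPolynomial (Fin n) ℂ),
    f ∈ Hg (L := lg a d W hW) E.g (cg (L := lg a d W hW) g (ps hW L)) 0 → f.map (ev c) = f →
    (kM 1 (0 : Matrix I I (MvPolynomial (Fin n) ℂ)) (ps hW L)).map (ev c) * f =
      f * E.D.map (ev c) → (∀ i j, constantCoeff (f (tp (ps hW L) i) j) = 0) →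
    ∃ s ∈ Hg (L := lg a d W hW) E.g (cg (L := lg a d W hW) g (ps hW L)) (-sig d),
      s.map (ev c) = s ∧
      f = (kM 1 (0 : Matrix I I (MvPolynomial (Fin n) ℂ)) (ps hW L)).map (ev c) * s +
        s * E.D.map (ev c) := by
  induction L with
  | nil =>
    intro c h1 _ f _ hf2 _ hf4
    refine ⟨0, Hg_zero, ?_, ?_⟩
    · ext1 i j; simp
    · have : f = 0 := by
        rw [← hf2]
        ext1 i j
        show ev c (f i j) = 0
        have h5 := ev_ev_full (L := []) (c := c) h1 (f i j)
        rw [ev_nil] at h5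
        have h6 : constantCoeff (f i j) = 0 := hf4 i j
        rw [h5, h6, map_zero]
      rw [this]; simp
  | cons i L ih =>
    intro c h1 h2 f hf1 hf2 hf3 hf4
    have hic : i ∉ c := h2 i List.mem_cons_self
    have hn' := List.nodup_cons.1 hn
    have ih := ih hn'.2 (i :: c) (fun j => by
        rcases h1 j with h | h
        · rcases List.mem_cons.1 h with rfl | h
          · exact Or.inr List.mem_cons_self
          · exact Or.inl h
        · exact Or.inr (List.mem_cons_of_mem _ h)) (fun j hj => by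
        intro h
        rcases List.mem_cons.1 h with rfl | h
        · exact hn'.1 hj
        · exact h2 j (List.mem_cons_of_mem _ hj) h)
    have hsq := kM_ps_sq (I := I) hW hd i (c := c) (L := L) h1 hic
    rw [kM_ps_map hW i hic] at hf3 ⊢
    have hKg : kM 1 (0 : Matrix I I (MvPolynomial (Fin n) ℂ)) (ps hW L) ∈
        Hg (L := lg a d W hW) (cg (L := lg a d W hW) g (ps hW L))
          (cg (L := lg a d W hW) g (ps hW L)) (sig d) :=
      kM_Hg (L := lg a d W hW) (isWeightedHomogeneous_one ℂ (wt a d)) (D := (0 : Matrix I I _))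
        (g := g) Hg_zero (ps_OK hW L)
    generalize kM 1 (0 : Matrix I I (MvPolynomial (Fin n) ℂ)) (ps hW L) = K at *
    obtain ⟨f1, f2, rfl⟩ : ∃ f1 f2 : Matrix (Cu I (ps hW L)) E.I (MvPolynomial (Fin n) ℂ),
        f = fromRows f1 f2 := ⟨_, _, (fromRows_toRows f).symm⟩
    have hc1 := pu_blk _ _ _ _ _ _ hf3
    have hm : f1.map (ev c) = f1 := pu_rows_map hf2
    have hf1' : f1 ∈ Hg (L := lg a d W hW) E.g (cg (L := lg a d W hW) g (ps hW L)) 0 :=
      fun r s => hf1 (Sum.inl r) s
    have hc1' : K.map (ev (i :: c)) * f1.map (ev (i :: c)) =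
        f1.map (ev (i :: c)) * E.D.map (ev (i :: c)) := by
      have e := congrArg (fun M => M.map (ev (i :: c))) hc1
      have e' : (K.map (ev c) * f1 + (X i : MvPolynomial (Fin n) ℂ) • f2).map (ev (i :: c)) =
        (f1 * E.D.map (ev c)).map (ev (i :: c)) := e
      rwa [madd_ev, mmul_ev, mmul_ev, mev_cons, mev_cons, mev_X, add_zero] at e'
    obtain ⟨s, hs1, hs2, hs3⟩ := ih (f1.map (ev (i :: c)))
      (fun r s => ev_mem (i :: c) (hf1' r s)) (mev_ev _ _) hc1' (fun p q => by
        show constantCoeff (ev (i :: c) (f1 (tp (ps hW L) p) q)) = 0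
        rw [const_ev]
        exact hf4 p q)
    have hsc : s.map (ev c) = s := by rw [← hs2, mev_cons']
    have hKg' : K.map (ev c) ∈ Hg (L := lg a d W hW) (cg (L := lg a d W hW) g (ps hW L))
        (cg (L := lg a d W hW) g (ps hW L)) (sig d) := fun r s => ev_mem c (hKg r s)
    have hEg : E.D.map (ev c) ∈ Hg (L := lg a d W hW) E.g E.g (sig d) := fun r s =>
      ev_mem c (E.hD r s)
    have hR1 : f1 - (K.map (ev c) * s + s * E.D.map (ev c)) ∈
        Hg (L := lg a d W hW) E.g (cg (L := lg a d W hW) g (ps hW L)) 0 := by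
      rw [sub_eq_add_neg]
      exact Hg_add hf1' (Hg_neg (Hg_add (Hg_mul (L := lg a d W hW) hKg' hs1 (add_neg_cancel _))
        (Hg_mul (L := lg a d W hW) hs1 hEg (neg_add_cancel _))))
    have hRc : (f1 - (K.map (ev c) * s + s * E.D.map (ev c))).map (ev c) =
        f1 - (K.map (ev c) * s + s * E.D.map (ev c)) := by
      rw [msub_ev, madd_ev, mmul_ev, mmul_ev, hsc, hm, mev_ev, mev_ev]
    have hRi : (f1 - (K.map (ev c) * s + s * E.D.map (ev c))).map (ev (i :: c)) = 0 := by
      rw [msub_ev, madd_ev, mmul_ev, mmul_ev, mev_cons, mev_cons, hs2, ← hs3, sub_self]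
    obtain ⟨H, hH1, hH2, hH3⟩ := exists_mdv hW i c hic _ hR1 hRc hRi
    have hE2 : E.D.map (ev c) * E.D.map (ev c) = (ev c W - X i * ev c (wq hW i L) +
        X i * ev c (wq hW i L)) • 1 := by
      rw [← mmul_ev, E.sq, sub_add_cancel, mev_one]
    refine ⟨fromRows s H, ?_, ?_, ?_⟩
    · rintro (r | r) j
      · exact hs1 r j
      · refine LG.mem_of_eq (L := lg a d W hW) (hH1 r j) ?_
        show cg (L := lg a d W hW) g (ps hW L) r - E.g j + (0 - wt a d i) =
          cg (L := lg a d W hW) g (ps hW L) r + -wt a d i + (1 : ℤ) • sig d - E.g j + -sig d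
        rw [one_smul]; abel
    · exact (fromRows_map _ _ _).trans (by rw [hsc, hH2])
    · exact pu_inj (K.map (ev c)) (E.D.map (ev c)) f1 f2 s H (X i)
        (ev c (wq hW i L)) _ hsq hE2 hc1 hH3 (mreg i)

include hd in
/-- A morphism to a Koszul matrix factorization is null-homotopic if its top component vanishes
at the origin. -/
theorem inj {I : Type} [Fintype I] [DecidableEq I] (g : I → Gd d) (E : MF (lg a d W hW))
    (f : Matrix (Cu I (ps hW (List.finRange n))) E.I (MvPolynomial (Fin n) ℂ))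
    (hf : f ∈ Z E (kos (L := lg a d W hW) g (ps hW (List.finRange n)) (ps_OK hW _)
      (full_sum hd hW)))
    (h0 : ∀ i j, constantCoeff (f (tp (ps hW (List.finRange n)) i) j) = 0) :
    f ∈ N E (kos (L := lg a d W hW) g (ps hW (List.finRange n)) (ps_OK hW _)
      (full_sum hd hW)) := by
  have e : ∀ {P Q : Type} (M : Matrix P Q (MvPolynomial (Fin n) ℂ)), M.map (ev []) = M := by
    intro P Q M; ext1 r s; exact ev_nil _
  obtain ⟨s, hs1, _, hs3⟩ := inj_aux hW hd g E (List.finRange n) (List.nodup_finRange n) []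
    (fun i => Or.inl (List.mem_finRange i)) (fun i _ => by simp) f hf.1 (e f) (by
      rw [e, e]; exact hf.2) h0
  rw [e, e] at hs3
  exact ⟨s, hs1, hs3⟩

end Pool.Agent.Helper445_GMF
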