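import Pool.Agent.Helper445_GMF.Bd

/-!
Powers of the variables are null-homotopic if the singularity is isolated.
-/

set_option autoImplicit false
set_option linter.unusedSectionVars false

open CategoryTheory Matrix Pretriangulated Limits MvPolynomial

namespace Pool.Agent.Helper445_GMF

variable {n : ℕ} {a : Fin n → ℕ} {d : ℕ} {W : MvPolynomial (Fin n) ℂ}

theorem jac_pow (hs : ∀ x : Fin n → ℂ, (∀ i, eval x (pderiv i W) = 0) → x = 0) (i : Fin n) :
    ∃ N : ℕ, (X i : MvPolynomial (Fin n) ℂ) ^ N ∈ Ideal.span (Set.range fun j => pderiv j W) := by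
  have h1 : (X i : MvPolynomial (Fin n) ℂ) ∈
      (Ideal.span (Set.range fun j => pderiv j W)).radical := by
    rw [← vanishingIdeal_zeroLocus_eq_radical (K := ℂ), mem_vanishingIdeal_iff]
    intro x hx
    have h2 : x = 0 := hs x fun j => by
      have := (mem_zeroLocus_iff.1 hx) (pderiv j W) (Ideal.subset_span ⟨j, rfl⟩)
      exact (RingHom.congr_fun (coe_aeval_eq_eval x) _).symm.trans this
    rw [h2, aeval_X]
    rfl
  exact h1

theorem jac_pow_all (hs : ∀ x : Fin n → ℂ, (∀ i, eval x (pderiv i W) = 0) → x = 0) :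
    ∃ N : ℕ, ∀ i, (X i : MvPolynomial (Fin n) ℂ) ^ N ∈
      Ideal.span (Set.range fun j => pderiv j W) := by
  choose N hN using jac_pow hs
  refine ⟨∑ i, N i, fun i => ?_⟩
  have h1 : N i ≤ ∑ j, N j := Finset.single_le_sum (fun _ _ => Nat.zero_le _) (Finset.mem_univ i)
  rw [← Nat.sub_add_cancel h1, pow_add]
  exact Ideal.mul_mem_left _ _ (hN i)

open Classical in
attribute [local instance] MvPolynomial.weightedGradedAlgebra in
theorem comp_mul {c p : MvPolynomial (Fin n) ℂ} {g h : Gd d}
    (hp : IsWeightedHomogeneous (wt a d) p h) :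
    weightedHomogeneousComponent (wt a d) (g + h) (c * p) =
      weightedHomogeneousComponent (wt a d) g c * p := by
  have h1 := DirectSum.coe_decompose_mul_add_of_right_mem
    (weightedHomogeneousSubmodule ℂ (wt a d)) (a := c) (b := p) (i := g) (j := h)
    ((mem_weightedHomogeneousSubmodule ℂ (wt a d) h p).2 hp)
  have e : ∀ (q : MvPolynomial (Fin n) ℂ) (m : Gd d),
      ((DirectSum.decompose (weightedHomogeneousSubmodule ℂ (wt a d)) q) m :
        MvPolynomial (Fin n) ℂ) = weightedHomogeneousComponent (wt a d) m q :=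
    fun q m => MvPolynomial.decompose'_apply ℂ (wt a d) q m
  rwa [e, e] at h1

theorem exists_coef (hW : IsWeightedHomogeneous a W d) {N : ℕ} {i : Fin n}
    (h : (X i : MvPolynomial (Fin n) ℂ) ^ N ∈ Ideal.span (Set.range fun j => pderiv j W)) :
    ∃ c : Fin n → MvPolynomial (Fin n) ℂ,
      (∀ j, IsWeightedHomogeneous (wt a d) (c j)
        (N • wt a d i - (sig d + sig d - wt a d j))) ∧
      ∑ j, c j * pderiv j W = X i ^ N := by
  obtain ⟨c, hc⟩ := (Ideal.mem_span_range_iff_exists_fun).1 h
  refine ⟨fun j => weightedHomogeneousComponent (wt a d)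
    (N • wt a d i - (sig d + sig d - wt a d j)) (c j),
    fun j => weightedHomogeneousComponent_isWeightedHomogeneous _ _, ?_⟩
  have h1 : ∀ j, IsWeightedHomogeneous (wt a d) (pderiv j W) (sig d + sig d - wt a d j) :=
    fun j => (W_mem hW).pderiv (sub_add_cancel _ _)
  have h2 : ∀ j, weightedHomogeneousComponent (wt a d)
      (N • wt a d i - (sig d + sig d - wt a d j)) (c j) * pderiv j W =
      weightedHomogeneousComponent (wt a d) (N • wt a d i) (c j * pderiv j W) := by
    intro j
    rw [← comp_mul (h1 j), sub_add_cancel]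
  rw [Finset.sum_congr rfl fun j _ => h2 j, ← map_sum, hc]
  have h3 : IsWeightedHomogeneous (wt a d) ((X i : MvPolynomial (Fin n) ℂ) ^ N)
      (N • wt a d i) := (isWeightedHomogeneous_X ℂ (wt a d) i).pow N
  exact h3.weightedHomogeneousComponent_same

/-- the homotopy for a power of a variable -/
theorem exists_hty (hW : IsWeightedHomogeneous a W d) {N : ℕ} {i : Fin n}
    (h : (X i : MvPolynomial (Fin n) ℂ) ^ N ∈ Ideal.span (Set.range fun j => pderiv j W))
    (F : MF (lg a d W hW)) :
    ∃ s ∈ Hg (L := lg a d W hW) F.g F.g (N • wt a d i - sig d),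
      F.D * s + s * F.D = ((X i : MvPolynomial (Fin n) ℂ) ^ N) • 1 := by
  obtain ⟨c, hc1, hc2⟩ := exists_coef hW h
  refine ⟨∑ j, c j • F.D.map (pderiv j), ?_, ?_⟩
  · have key : ∀ S : Finset (Fin n), ∑ j ∈ S, c j • F.D.map (pderiv j) ∈
        Hg (L := lg a d W hW) F.g F.g (N • wt a d i - sig d) := by
      intro S
      induction S using Finset.induction_on with
      | empty => rw [Finset.sum_empty]; exact Hg_zero
      | insert j S hj ih =>
        rw [Finset.sum_insert hj]
        refine Hg_add ?_ ih
        intro r s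
        have h1 : IsWeightedHomogeneous (wt a d) (pderiv j (F.D r s))
            (F.g r - F.g s + sig d - wt a d j) := (F.hD r s).pderiv (sub_add_cancel _ _)
        refine LG.mem_of_eq (L := lg a d W hW) ((hc1 j).mul h1) ?_
        abel
    exact key _
  · have h1 : ∀ j, F.D.map (pderiv j) * F.D + F.D * F.D.map (pderiv j) =
        pderiv j W • (1 : Matrix F.I F.I (MvPolynomial (Fin n) ℂ)) := by
      intro j
      have e : (F.D * F.D).map (pderiv j) = F.D.map (pderiv j) * F.D + F.D * F.D.map (pderiv j) :=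
        pd_mat j F.D F.D
      rw [← e, F.sq]
      ext1 r s
      by_cases hrs : r = s
      · subst hrs
        rw [Matrix.map_apply, Matrix.smul_apply, Matrix.smul_apply, Matrix.one_apply_eq,
          smul_eq_mul, smul_eq_mul, mul_one, mul_one]
      · rw [Matrix.map_apply, Matrix.smul_apply, Matrix.smul_apply, Matrix.one_apply_ne hrs,
          smul_zero, smul_zero, map_zero]
    rw [Matrix.mul_sum, Matrix.sum_mul, ← Finset.sum_add_distrib, ← hc2, Finset.sum_smul]
    refine Finset.sum_congr rfl fun j _ => ?_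
    rw [Matrix.mul_smul, Matrix.smul_mul, ← smul_add, add_comm, h1 j, smul_smul]

end Pool.Agent.Helper445_GMF
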