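import Pool.Agent.Helper445_GMF.TMass

/-!
Sums of Koszul matrix factorizations.
-/

set_option autoImplicit false
set_option linter.unusedSectionVars false

open CategoryTheory Matrix Pretriangulated Limits

namespace Pool.Agent.Helper445_GMF

variable {L : LG}

/-- reindexing of the generators -/
@[reducible] def MF.re (X : MF L) {J : Type} [Fintype J] [DecidableEq J] (e : J ≃ X.I) : MF L where
  I := J
  g := fun j => X.g (e j)
  D := X.D.submatrix e e
  hD := fun i j => X.hD (e i) (e j)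
  sq := by
    rw [Matrix.submatrix_mul_equiv, X.sq]
    ext i j
    simp [Matrix.one_apply]

theorem re_SIso (X : MF L) {J : Type} [Fintype J] [DecidableEq J] (e : J ≃ X.I) :
    SIso X (X.re e) := by
  refine ⟨(1 : Matrix X.I X.I L.A).submatrix e id, ⟨fun i j => Hg_one X.g (e i) j, ?_⟩,
    (1 : Matrix X.I X.I L.A).submatrix id e, ⟨fun i j => Hg_one X.g i (e j), ?_⟩, ?_, ?_⟩
  · show X.D.submatrix e e * (1 : Matrix X.I X.I L.A).submatrix e id =
      (1 : Matrix X.I X.I L.A).submatrix e id * X.D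
    rw [Matrix.submatrix_mul_equiv, Matrix.mul_one]
    ext i j
    simp [Matrix.mul_apply, Matrix.one_apply]
  · show X.D * (1 : Matrix X.I X.I L.A).submatrix id e =
      (1 : Matrix X.I X.I L.A).submatrix id e * X.D.submatrix e e
    rw [Matrix.submatrix_mul_equiv, Matrix.one_mul]
    ext i j
    simp [Matrix.mul_apply, Matrix.one_apply]
  · rw [Matrix.submatrix_mul_equiv, Matrix.mul_one]
    simp
  · ext i j
    simp [Matrix.mul_apply, Matrix.one_apply]

variable {I J K : Type} [Fintype I] [DecidableEq I] [Fintype J] [DecidableEq J]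
  [Fintype K] [DecidableEq K] (l : List (L.A × L.A × L.G)) (hl : OK L l)
  (hs : (l.map fun p => p.1 * p.2.1).sum = L.W)

theorem kE_Z {g : I → L.G} {h : J → L.G} {F : Matrix J I L.A} (hF : F ∈ Hg g h 0) :
    kE F l ∈ Z (kos g l hl hs) (kos h l hl hs) :=
  ⟨kE_Hg hF l, kM_kE 1 0 0 F (by simp) l⟩

/-- the functoriality of the Koszul construction -/
noncomputable def km {g : I → L.G} {h : J → L.G} {F : Matrix J I L.A} (hF : F ∈ Hg g h 0) :
    kos g l hl hs ⟶ kos h l hl hs := hm (kE F l) (kE_Z l hl hs hF)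

theorem km_comp {g : I → L.G} {h : J → L.G} {k : K → L.G} {F : Matrix J I L.A}
    (hF : F ∈ Hg g h 0) {F' : Matrix K J L.A} (hF' : F' ∈ Hg h k 0) {F'' : Matrix K I L.A}
    (hF'' : F'' ∈ Hg g k 0) (e : F' * F = F'') :
    km l hl hs hF ≫ km l hl hs hF' = km l hl hs hF'' := by
  subst e
  exact hm_congr (kE_mul F F' l).symm

theorem km_one {g : I → L.G} : km l hl hs (Hg_one g) = 𝟙 (kos g l hl hs) :=
  hm_congr (kE_one l)

theorem km_zero {g : I → L.G} {h : J → L.G} :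
    km l hl hs (g := g) (h := h) (F := 0) Hg_zero = 0 := hm_congr (kE_zero l)

theorem km_add {g : I → L.G} {h : J → L.G} {F F' F'' : Matrix J I L.A}
    (hF : F ∈ Hg g h 0) (hF' : F' ∈ Hg g h 0) (hF'' : F'' ∈ Hg g h 0) (e : F + F' = F'') :
    km l hl hs hF + km l hl hs hF' = km l hl hs hF'' := by
  subst e
  exact hm_congr (kE_add F F' l).symm

theorem kos_re (g : I → L.G) (e : J ≃ I) :
    Nonempty (kos g l hl hs ≅ kos (fun j => g (e j)) l hl hs) := by
  have a : (1 : Matrix I I L.A).submatrix e id ∈ Hg g (fun j => g (e j)) 0 :=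
    fun i j => Hg_one g (e i) j
  have b : (1 : Matrix I I L.A).submatrix id e ∈ Hg (fun j => g (e j)) g 0 :=
    fun i j => Hg_one g i (e j)
  refine ⟨⟨km l hl hs a, km l hl hs b, ?_, ?_⟩⟩
  · rw [← km_one]
    refine km_comp l hl hs a b (Hg_one g) ?_
    rw [Matrix.submatrix_mul_equiv, Matrix.mul_one]
    simp
  · rw [← km_one]
    refine km_comp l hl hs b a (Hg_one _) ?_
    ext i j
    simp [Matrix.mul_apply, Matrix.one_apply]

/-- the Koszul matrix factorization of a sum -/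
theorem kos_sum (g : I → L.G) (h : J → L.G) :
    Nonempty (kos (Sum.elim g h) l hl hs ≅ kos g l hl hs ⊞ kos h l hl hs) := by
  have p1 : (fromCols 1 0 : Matrix I (I ⊕ J) L.A) ∈ Hg (Sum.elim g h) g 0 :=
    Hg_cols (Hg_one g) Hg_zero
  have p2 : (fromCols 0 1 : Matrix J (I ⊕ J) L.A) ∈ Hg (Sum.elim g h) h 0 :=
    Hg_cols Hg_zero (Hg_one h)
  have i1 : (fromRows 1 0 : Matrix (I ⊕ J) I L.A) ∈ Hg g (Sum.elim g h) 0 :=
    Hg_rows (Hg_one g) Hg_zero
  have i2 : (fromRows 0 1 : Matrix (I ⊕ J) J L.A) ∈ Hg h (Sum.elim g h) 0 :=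
    Hg_rows Hg_zero (Hg_one h)
  have e11 := km_comp l hl hs i1 p1 (Hg_one g) (by simp)
  have e12 := km_comp l hl hs i1 p2 (F'' := 0) Hg_zero (by simp)
  have e21 := km_comp l hl hs i2 p1 (F'' := 0) Hg_zero (by simp)
  have e22 := km_comp l hl hs i2 p2 (Hg_one h) (by simp)
  have f1 : (fromRows 1 0 : Matrix (I ⊕ J) I L.A) * (fromCols 1 0 : Matrix I (I ⊕ J) L.A) ∈
    Hg (Sum.elim g h) (Sum.elim g h) 0 := Hg_mul i1 p1 (by abel)
  have f2 : (fromRows 0 1 : Matrix (I ⊕ J) J L.A) * (fromCols 0 1 : Matrix J (I ⊕ J) L.A) ∈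
    Hg (Sum.elim g h) (Sum.elim g h) 0 := Hg_mul i2 p2 (by abel)
  have s1 := km_comp l hl hs p1 i1 f1 rfl
  have s2 := km_comp l hl hs p2 i2 f2 rfl
  have s3 := km_add l hl hs f1 f2 (Hg_one (Sum.elim g h)) (by
    rw [← fromBlocks_one]; simp)
  rw [km_one] at e11 e22 s3
  rw [km_zero] at e12 e21
  refine ⟨⟨biprod.lift (km l hl hs p1) (km l hl hs p2),
    biprod.desc (km l hl hs i1) (km l hl hs i2), ?_, ?_⟩⟩
  · rw [biprod.lift_desc, s1, s2, s3]
  · ext <;> simp [e11, e12, e21, e22]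

variable {σ : PreStab (MF L)} {d : ℕ} (hd : 0 < d) {θ : L.G → ℤ} (hθ : Tw σ d θ)

include hd hθ

theorem M_kos_one (ψ : ℝ) (g : L.G) (g' : I → L.G) (h : ∀ i, g' i = 0 + g) :
    σ.M d ψ (kos g' l hl hs) = σ.M d ψ (kos (fun _ : I => (0 : L.G)) l hl hs) := by
  rw [← M_tw hd hθ ψ g (kos (fun _ : I => (0 : L.G)) l hl hs)]
  have e : g' = fun _ : I => (0 : L.G) + g := funext h
  subst e
  have hg : ∀ i, cg (fun _ : I => (0 : L.G) + g) l i = cg (fun _ : I => (0 : L.G)) l i + g :=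
    fun i => cg_add (fun _ : I => (0 : L.G)) g l i
  have hS : SIso (kos (fun _ : I => (0 : L.G) + g) l hl hs)
      ((kos (fun _ : I => (0 : L.G)) l hl hs).ts g 1 (one_mul 1)) := by
    refine ⟨1, ⟨one_Hg_of_eq hg, ?_⟩, 1, ⟨one_Hg_of_eq fun i => (hg i).symm, ?_⟩, ?_, ?_⟩
    · show ((1 : ℂ) • kM 1 0 l) * 1 = 1 * kM 1 0 l
      rw [one_smul, Matrix.mul_one, Matrix.one_mul]
    · show kM 1 0 l * 1 = 1 * ((1 : ℂ) • kM 1 0 l)
      rw [one_smul, Matrix.mul_one, Matrix.one_mul]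
    · exact Matrix.one_mul _
    · exact Matrix.one_mul _
  obtain ⟨e⟩ := hS.iso
  exact σ.M_iso hd ψ e

theorem M_kos (ψ : ℝ) (m : ℕ) (g : Fin m → L.G) :
    σ.M d ψ (kos g l hl hs) = m * σ.M d ψ (kos (fun _ : Fin 1 => (0 : L.G)) l hl hs) := by
  induction m with
  | zero =>
    have h0 : IsZero (kos g l hl hs) := by
      rw [IsZero.iff_id_eq_zero, ← km_one, ← km_zero]
      exact hm_congr (congrArg (fun F => kE F l) (by ext i; exact i.elim0))
    rw [σ.M_zero hd ψ h0]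
    simp
  | succ m ih =>
    obtain ⟨e1⟩ := kos_re l hl hs g (finSumFinEquiv : Fin m ⊕ Fin 1 ≃ Fin (m + 1))
    have e3 : (fun j => g ((finSumFinEquiv : Fin m ⊕ Fin 1 ≃ Fin (m + 1)) j)) =
        Sum.elim (fun i => g (finSumFinEquiv (Sum.inl i))) (fun _ : Fin 1 => 0 + g (Fin.last m)) := by
      funext j
      rcases j with j | j
      · rfl
      · rw [Sum.elim_inr, zero_add]
        congr 1
        ext
        simp
    obtain ⟨e2⟩ := kos_sum l hl hs (fun i => g ((finSumFinEquiv : Fin m ⊕ Fin 1 ≃ Fin (m + 1))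
      (Sum.inl i))) (fun _ : Fin 1 => 0 + g (Fin.last m))
    rw [σ.M_iso hd ψ e1, e3, σ.M_iso hd ψ e2, σ.M_biprod hd, ih,
      M_kos_one l hl hs hd hθ ψ (g (Fin.last m)) (fun _ : Fin 1 => 0 + g (Fin.last m))
        (fun _ => rfl)]
    push_cast
    ring

end Pool.Agent.Helper445_GMF
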