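import Pool.Agent.Helper445_GMF.Oct

/-!
Iterated Koszul extensions of matrices.
-/

set_option autoImplicit false
set_option linter.unusedSectionVars false

open CategoryTheory Matrix Pretriangulated

namespace Pool.Agent.Helper445_GMF

/-- the index set of an iterated Koszul extension: one doubling for every element of the list -/
@[reducible] def Cu {α : Type} (I : Type) : List α → Type
  | [] => I
  | _ :: l => Cu I l ⊕ Cu I l

instance instFintypeCu {α : Type} (I : Type) [Fintype I] : ∀ l : List α, Fintype (Cu I l)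
  | [] => inferInstanceAs (Fintype I)
  | _ :: l =>
    letI := instFintypeCu I l
    inferInstanceAs (Fintype (Cu I l ⊕ Cu I l))

instance instDecidableEqCu {α : Type} (I : Type) [DecidableEq I] :
    ∀ l : List α, DecidableEq (Cu I l)
  | [] => inferInstanceAs (DecidableEq I)
  | _ :: l =>
    letI := instDecidableEqCu I l
    inferInstanceAs (DecidableEq (Cu I l ⊕ Cu I l))

theorem card_Cu {α : Type} (I : Type) [Fintype I] (l : List α) :
    Fintype.card (Cu I l) = 2 ^ l.length * Fintype.card I := by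
  induction l with
  | nil => simp
  | cons p l ih =>
    have : Fintype.card (Cu I (p :: l)) = Fintype.card (Cu I l) + Fintype.card (Cu I l) :=
      Fintype.card_sum
    rw [this, ih, List.length_cons, pow_succ]
    ring

section

variable {A G : Type} [CommRing A] [Algebra ℂ A] [AddCommGroup G] {I J K : Type} [Fintype I]
  [DecidableEq I] [Fintype J] [DecidableEq J] [Fintype K] [DecidableEq K]

/-- the iterated Koszul extension of a matrix: every element `(x, w, a)` of the list replaces `D`
by the block matrix `D, x, c w, -D` -/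
def kM (c : A) (D : Matrix I I A) : ∀ l : List (A × A × G), Matrix (Cu I l) (Cu I l) A
  | [] => D
  | p :: l => fromBlocks (kM c D l) (p.1 • 1) ((c * p.2.1) • 1) (-kM c D l)

/-- the even extension of a matrix -/
def kE (F : Matrix J I A) : ∀ l : List (A × A × G), Matrix (Cu J l) (Cu I l) A
  | [] => F
  | _ :: l => fromBlocks (kE F l) 0 0 (kE F l)

/-- the odd extension of a matrix -/
def kO (F : Matrix J I A) : ∀ l : List (A × A × G), Matrix (Cu J l) (Cu I l) A
  | [] => F
  | _ :: l => fromBlocks (kO F l) 0 0 (-kO F l)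

theorem kE_one (l : List (A × A × G)) : kE (1 : Matrix I I A) l = 1 := by
  induction l with
  | nil => rfl
  | cons p l ih =>
    show fromBlocks (kE (1 : Matrix I I A) l) 0 0 (kE (1 : Matrix I I A) l) = 1
    rw [ih, fromBlocks_one]

theorem kE_smul (c : A) (F : Matrix J I A) (l : List (A × A × G)) :
    kE (c • F) l = c • kE F l := by
  induction l with
  | nil => rfl
  | cons p l ih =>
    show fromBlocks (kE (c • F) l) 0 0 (kE (c • F) l) = c • fromBlocks (kE F l) 0 0 (kE F l)
    rw [ih, fromBlocks_smul, smul_zero]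

theorem kE_add (F F' : Matrix J I A) (l : List (A × A × G)) :
    kE (F + F') l = kE F l + kE F' l := by
  induction l with
  | nil => rfl
  | cons p l ih =>
    show fromBlocks (kE (F + F') l) 0 0 (kE (F + F') l) =
      fromBlocks (kE F l) 0 0 (kE F l) + fromBlocks (kE F' l) 0 0 (kE F' l)
    rw [ih, fromBlocks_add, add_zero]

theorem kE_zero (l : List (A × A × G)) : kE (0 : Matrix J I A) l = 0 := by
  induction l with
  | nil => rfl
  | cons p l ih =>
    show fromBlocks (kE (0 : Matrix J I A) l) 0 0 (kE (0 : Matrix J I A) l) = 0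
    rw [ih, fromBlocks_zero]

theorem kE_mul (F : Matrix J I A) (F' : Matrix K J A) (l : List (A × A × G)) :
    kE (F' * F) l = kE F' l * kE F l := by
  induction l with
  | nil => rfl
  | cons p l ih =>
    show fromBlocks (kE (F' * F) l) 0 0 (kE (F' * F) l) =
      fromBlocks (kE F' l) 0 0 (kE F' l) * fromBlocks (kE F l) 0 0 (kE F l)
    rw [ih, fromBlocks_multiply]
    simp

/-- compatibility of the even extension with the Koszul extension -/
theorem kM_kE (c : A) (D : Matrix I I A) (D' : Matrix J J A) (F : Matrix J I A)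
    (h : D' * F = F * D) (l : List (A × A × G)) : kM c D' l * kE F l = kE F l * kM c D l := by
  induction l with
  | nil => exact h
  | cons p l ih =>
    show fromBlocks (kM c D' l) (p.1 • 1) ((c * p.2.1) • 1) (-kM c D' l) *
      fromBlocks (kE F l) 0 0 (kE F l) = fromBlocks (kE F l) 0 0 (kE F l) *
      fromBlocks (kM c D l) (p.1 • 1) ((c * p.2.1) • 1) (-kM c D l)
    rw [fromBlocks_multiply, fromBlocks_multiply]
    simp [ih]

/-- compatibility of the odd extension with the Koszul extension -/
theorem kM_kO (c : A) (D : Matrix I I A) (D' : Matrix J J A) (F E : Matrix J I A)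
    (h : D' * F + F * D = E) (l : List (A × A × G)) :
    kM c D' l * kO F l + kO F l * kM c D l = kE E l := by
  induction l with
  | nil => exact h
  | cons p l ih =>
    show fromBlocks (kM c D' l) (p.1 • 1) ((c * p.2.1) • 1) (-kM c D' l) *
      fromBlocks (kO F l) 0 0 (-kO F l) + fromBlocks (kO F l) 0 0 (-kO F l) *
      fromBlocks (kM c D l) (p.1 • 1) ((c * p.2.1) • 1) (-kM c D l) =
      fromBlocks (kE E l) 0 0 (kE E l)
    rw [fromBlocks_multiply, fromBlocks_multiply, fromBlocks_add, ← ih]
    simp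

theorem kM_add (c : A) (D : Matrix I I A) (B : Matrix I I A) (x : A) (l : List (A × A × G)) :
    kM c (D + x • B) l = kM c D l + x • kO B l := by
  induction l with
  | nil => rfl
  | cons p l ih =>
    show fromBlocks (kM c (D + x • B) l) (p.1 • 1) ((c * p.2.1) • 1) (-kM c (D + x • B) l) =
      fromBlocks (kM c D l) (p.1 • 1) ((c * p.2.1) • 1) (-kM c D l) +
      x • fromBlocks (kO B l) 0 0 (-kO B l)
    rw [ih, fromBlocks_smul, fromBlocks_add]
    simp [add_comm]

/-- the square of the iterated Koszul extension -/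
theorem kM_sq (c : A) (D : Matrix I I A) (V : A) (h : D * D = V • 1) (l : List (A × A × G)) :
    kM c D l * kM c D l = (V + c * (l.map fun p => p.1 * p.2.1).sum) • 1 := by
  induction l with
  | nil => simpa [kM] using h
  | cons p l ih =>
    show fromBlocks (kM c D l) (p.1 • 1) ((c * p.2.1) • 1) (-kM c D l) *
      fromBlocks (kM c D l) (p.1 • 1) ((c * p.2.1) • 1) (-kM c D l) = _
    rw [fromBlocks_multiply]
    have e1 : kM c D l * kM c D l + p.1 • (1 : Matrix (Cu I l) (Cu I l) A) * (c * p.2.1) • 1 =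
        (V + c * ((p :: l).map fun p => p.1 * p.2.1).sum) • 1 := by
      rw [ih, Matrix.smul_mul, Matrix.mul_smul, Matrix.mul_one, smul_smul, ← add_smul]
      congr 1
      simp only [List.map_cons, List.sum_cons]
      ring
    have e2 : (c * p.2.1) • (1 : Matrix (Cu I l) (Cu I l) A) * p.1 • 1 +
        -kM c D l * -kM c D l =
        (V + c * ((p :: l).map fun p => p.1 * p.2.1).sum) • 1 := by
      rw [neg_mul_neg, ih, Matrix.smul_mul, Matrix.mul_smul, Matrix.mul_one, smul_smul,
        ← add_smul]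
      congr 1
      simp only [List.map_cons, List.sum_cons]
      ring
    rw [e1, e2, ← fromBlocks_one, fromBlocks_smul]
    simp

end

variable {L : LG}

/-- the degrees of the generators of an iterated Koszul extension -/
def cg {I : Type} (g : I → L.G) : ∀ l : List (L.A × L.A × L.G), Cu I l → L.G
  | [] => g
  | p :: l => Sum.elim (cg g l) (fun c => cg g l c + -p.2.2 + (1 : ℤ) • L.ς)

theorem cg_add {I : Type} (g : I → L.G) (c : L.G) (l : List (L.A × L.A × L.G)) (i : Cu I l) :
    cg (fun i => g i + c) l i = cg g l i + c := by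
  induction l with
  | nil => rfl
  | cons p l ih =>
    rcases i with i | i
    · exact ih i
    · show cg (fun i => g i + c) l i + -p.2.2 + (1 : ℤ) • L.ς =
        cg g l i + -p.2.2 + (1 : ℤ) • L.ς + c
      rw [ih i]; abel

/-- the elements of the list are homogeneous of the right degrees -/
def OK (L : LG) (l : List (L.A × L.A × L.G)) : Prop :=
  ∀ p ∈ l, p.1 ∈ L.pc p.2.2 ∧ p.2.1 ∈ L.pc (L.ς + L.ς - p.2.2)

theorem OK.tail {p : L.A × L.A × L.G} {l : List (L.A × L.A × L.G)} (h : OK L (p :: l)) :
    OK L l := fun q hq => h q (List.mem_cons_of_mem _ hq)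

theorem OK.head {p : L.A × L.A × L.G} {l : List (L.A × L.A × L.G)} (h : OK L (p :: l)) :
    p.1 ∈ L.pc p.2.2 ∧ p.2.1 ∈ L.pc (L.ς + L.ς - p.2.2) := h p List.mem_cons_self

theorem Hg_x {I : Type} [DecidableEq I] (g : I → L.G) {x : L.A} {a : L.G} (hx : x ∈ L.pc a) :
    x • (1 : Matrix I I L.A) ∈ Hg g g a := Hg_smul hx (Hg_one g) (by abel)

theorem kE_Hg {I J : Type} {g : I → L.G} {h : J → L.G} {c : L.G} {F : Matrix J I L.A}
    (hF : F ∈ Hg g h c) (l : List (L.A × L.A × L.G)) : kE F l ∈ Hg (cg g l) (cg h l) c := by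
  induction l with
  | nil => exact hF
  | cons p l ih =>
    exact Hg_blocks ih Hg_zero Hg_zero (Hg_eq ih (fun i j => by abel))

theorem kO_Hg {I J : Type} {g : I → L.G} {h : J → L.G} {c : L.G} {F : Matrix J I L.A}
    (hF : F ∈ Hg g h c) (l : List (L.A × L.A × L.G)) : kO F l ∈ Hg (cg g l) (cg h l) c := by
  induction l with
  | nil => exact hF
  | cons p l ih =>
    exact Hg_blocks ih Hg_zero Hg_zero (Hg_neg (Hg_eq ih (fun i j => by abel)))

theorem kM_Hg {I : Type} [DecidableEq I] {g : I → L.G} {c : L.A} (hc : c ∈ L.pc 0)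
    {D : Matrix I I L.A}
    (hD : D ∈ Hg g g L.ς) {l : List (L.A × L.A × L.G)} (hl : OK L l) :
    kM c D l ∈ Hg (cg g l) (cg g l) L.ς := by
  induction l with
  | nil => exact hD
  | cons p l ih =>
    have ih := ih hl.tail
    have h2 : c * p.2.1 ∈ L.pc (L.ς + L.ς - p.2.2) :=
      LG.mem_of_eq (SetLike.mul_mem_graded hc hl.head.2) (by abel)
    refine Hg_blocks ih (Hg_eq (Hg_x (cg g l) hl.head.1) (fun i j => ?_))
      (Hg_eq (Hg_x (cg g l) h2) (fun i j => ?_))
      (Hg_neg (Hg_eq ih (fun i j => by abel)))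
    · rw [one_smul]; abel
    · rw [one_smul]; abel

/-- the iterated Koszul extension as a matrix factorization -/
@[reducible] def kMF {I : Type} [Fintype I] [DecidableEq I] (g : I → L.G) (c : L.A)
    (hc : c ∈ L.pc 0) (D : Matrix I I L.A)
    (hD : D ∈ Hg g g L.ς) (V : L.A) (hV : D * D = V • 1) (l : List (L.A × L.A × L.G))
    (hl : OK L l) (hs : V + c * (l.map fun p => p.1 * p.2.1).sum = L.W) : MF L where
  I := Cu I l
  g := cg g l
  D := kM c D l
  hD := kM_Hg hc hD hl
  sq := by rw [kM_sq c D V hV l, hs]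

/-- strict isomorphisms -/
def SIso (X Y : MF L) : Prop := ∃ f ∈ Z X Y, ∃ f' ∈ Z Y X, f' * f = 1 ∧ f * f' = 1

theorem SIso.iso {X Y : MF L} (h : SIso X Y) : Nonempty (X ≅ Y) := by
  obtain ⟨f, hf, f', hf', h, h'⟩ := h
  exact ⟨isoOf' f f' hf hf' h h'⟩

theorem SIso.refl (X : MF L) : SIso X X := ⟨1, Z_one X, 1, Z_one X, by simp, by simp⟩

theorem SIso.symm {X Y : MF L} (h : SIso X Y) : SIso Y X := by
  obtain ⟨f, hf, f', hf', h, h'⟩ := h
  exact ⟨f', hf', f, hf, h', h⟩

theorem SIso.trans {X Y V : MF L} (h : SIso X Y) (k : SIso Y V) : SIso X V := by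
  obtain ⟨f, hf, f', hf', h, h'⟩ := h
  obtain ⟨e, he, e', he', k, k'⟩ := k
  refine ⟨e * f, Z_mul he hf, f' * e', Z_mul hf' he', ?_, ?_⟩
  · rw [Matrix.mul_assoc, ← Matrix.mul_assoc e', k, Matrix.one_mul, h]
  · rw [Matrix.mul_assoc, ← Matrix.mul_assoc f, h', Matrix.one_mul, k']

/-- A chain of decompositions `D_l = D_{p :: l} + x_p B`. -/
inductive Chain {I : Type} [Fintype I] [DecidableEq I] (g : I → L.G) (D : Matrix I I L.A) :
    List (L.A × L.A × L.G) → Matrix I I L.A → Prop
  | nil : Chain g D [] D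
  | cons {p : L.A × L.A × L.G} {l : List (L.A × L.A × L.G)} {D' D'' B : Matrix I I L.A}
      (h : Chain g D l D') (e : D' = D'' + p.1 • B) (hB : B ∈ Hg g g (L.ς - p.2.2))
      (hw : D' * B + B * D'' = p.2.1 • 1) : Chain g D (p :: l) D''

/-- the inclusion of the top block -/
def tp {α I : Type} : ∀ l : List α, I → Cu I l
  | [] => id
  | _ :: l => fun i => Sum.inl (tp l i)

/-- The key isomorphism, at the level of matrices. -/
theorem Chain.key' {I : Type} [Fintype I] [DecidableEq I] {g : I → L.G} {D D' : Matrix I I L.A}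
    {l : List (L.A × L.A × L.G)} (h : Chain g D l D') :
    ∃ U ∈ Hg (cg g l) (cg g l) 0, ∃ U' ∈ Hg (cg g l) (cg g l) 0, U' * U = 1 ∧ U * U' = 1 ∧
      kM 1 D' l * U = U * kM 0 D l ∧
      ∀ i j, U (tp l i) (tp l j) = (1 : Matrix I I L.A) i j := by
  induction h with
  | nil => exact ⟨1, Hg_one _, 1, Hg_one _, by simp, by simp, by simp [kM], fun i j => rfl⟩
  | @cons p l D' D'' B _ e hB hw ih =>
    obtain ⟨U, hU, U', hU', h1, h2, h3, h4⟩ := ih
    have hO := kO_Hg hB l
    have key := kM_kO 1 D'' D' B _ hw l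
    rw [kE_smul, kE_one] at key
    rw [e, kM_add] at key h3
    have h3' : U * kM 0 D l = kM 1 D'' l * U + p.1 • (kO B l * U) := by
      rw [← h3, Matrix.add_mul, Matrix.smul_mul]
    have key' : kM 1 D'' l * kO B l + p.1 • (kO B l * kO B l) + kO B l * kM 1 D'' l =
        p.2.1 • 1 := by
      rw [← key, Matrix.add_mul, Matrix.smul_mul]
    refine ⟨fromBlocks U 0 (kO B l * U) U, ?_, fromBlocks U' 0 (-(U' * kO B l)) U', ?_, ?_, ?_, ?_,
      h4⟩
    · refine Hg_blocks hU Hg_zero (Hg_eq (Hg_mul hO hU rfl) (fun i j => ?_))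
        (Hg_eq hU (fun i j => by abel))
      rw [one_smul]; abel
    · refine Hg_blocks hU' Hg_zero (Hg_neg (Hg_eq (Hg_mul hU' hO rfl)
        (fun i j => ?_))) (Hg_eq hU' (fun i j => by abel))
      rw [one_smul]; abel
    · rw [fromBlocks_multiply, ← fromBlocks_one]
      simp [h1, Matrix.mul_assoc]
    · rw [fromBlocks_multiply, ← fromBlocks_one]
      simp [h2, ← Matrix.mul_assoc]
      rw [Matrix.mul_assoc, h2, Matrix.mul_one]
      simp
    · show fromBlocks (kM 1 D'' l) (p.1 • 1) ((1 * p.2.1) • 1) (-kM 1 D'' l) *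
        fromBlocks U 0 (kO B l * U) U = fromBlocks U 0 (kO B l * U) U *
        fromBlocks (kM 0 D l) (p.1 • 1) ((0 * p.2.1) • 1) (-kM 0 D l)
      rw [fromBlocks_multiply, fromBlocks_multiply, one_mul, ← key']
      have e1 : kO B l * U * kM 0 D l = kO B l * kM 1 D'' l * U + p.1 • (kO B l * kO B l * U) := by
        rw [Matrix.mul_assoc, h3', Matrix.mul_add, Matrix.mul_smul, Matrix.mul_assoc,
          Matrix.mul_assoc]
      congr 1
      · simp [h3']
      · simp
      · simp [e1, Matrix.add_mul, Matrix.mul_assoc]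
        abel
      · simp [h3']

theorem Chain.key {I : Type} [Fintype I] [DecidableEq I] {g : I → L.G} {D D' : Matrix I I L.A}
    {l : List (L.A × L.A × L.G)} (h : Chain g D l D') :
    ∃ U ∈ Hg (cg g l) (cg g l) 0, ∃ U' ∈ Hg (cg g l) (cg g l) 0, U' * U = 1 ∧ U * U' = 1 ∧
      kM 1 D' l * U = U * kM 0 D l := by
  obtain ⟨U, hU, U', hU', h1, h2, h3, _⟩ := h.key'
  exact ⟨U, hU, U', hU', h1, h2, h3⟩

/-- the inclusion of the top block, as a matrix -/
def inc {A G I : Type} [CommRing A] [DecidableEq I] :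
    ∀ l : List (A × A × G), Matrix (Cu I l) I A
  | [] => 1
  | _ :: l => fromRows (inc l) 0

/-- the projection to the top block, as a matrix -/
def prj {A G I : Type} [CommRing A] [DecidableEq I] :
    ∀ l : List (A × A × G), Matrix I (Cu I l) A
  | [] => 1
  | _ :: l => fromCols (prj l) 0

theorem prj_mul {A G I J : Type} [CommRing A] [Fintype I] [DecidableEq I]
    (l : List (A × A × G)) (f : Matrix (Cu I l) J A) :
    (prj l : Matrix I (Cu I l) A) * f = f.submatrix (tp l) id := by
  induction l with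
  | nil => exact Matrix.one_mul f
  | cons p l ih =>
    obtain ⟨f1, f2, rfl⟩ : ∃ f1 f2 : Matrix (Cu I l) J A, f = fromRows f1 f2 :=
      ⟨_, _, (fromRows_toRows f).symm⟩
    refine Eq.trans (fromCols_mul_fromRows (prj l : Matrix I (Cu I l) A) 0 f1 f2) ?_
    rw [ih f1, Matrix.zero_mul, add_zero]
    rfl

theorem mul_inc {A G I J : Type} [CommRing A] [Fintype I] [DecidableEq I]
    (l : List (A × A × G)) (f : Matrix J (Cu I l) A) :
    f * (inc l : Matrix (Cu I l) I A) = f.submatrix id (tp l) := by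
  induction l with
  | nil => exact Matrix.mul_one f
  | cons p l ih =>
    obtain ⟨f1, f2, rfl⟩ : ∃ f1 f2 : Matrix J (Cu I l) A, f = fromCols f1 f2 :=
      ⟨_, _, (fromCols_toCols f).symm⟩
    refine Eq.trans (fromCols_mul_fromRows f1 f2 (inc l : Matrix (Cu I l) I A) 0) ?_
    rw [ih f1, Matrix.mul_zero, add_zero]
    rfl

theorem prj_kE {A G I J : Type} [CommRing A] [Fintype I] [DecidableEq I] [Fintype J]
    [DecidableEq J] (F : Matrix J I A) (l : List (A × A × G)) :
    (prj l : Matrix J (Cu J l) A) * kE F l = F * (prj l : Matrix I (Cu I l) A) := by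
  induction l with
  | nil => exact (Matrix.one_mul F).trans (Matrix.mul_one F).symm
  | cons p l ih =>
    refine Eq.trans (fromCols_mul_fromBlocks (prj l : Matrix J (Cu J l) A) 0 (kE F l) 0 0
      (kE F l)) (Eq.trans ?_ (mul_fromCols F (prj l : Matrix I (Cu I l) A) 0).symm)
    simp [ih]

theorem kM_inc {A G I : Type} [CommRing A] [Fintype I] [DecidableEq I] (D : Matrix I I A)
    (l : List (A × A × G)) : kM 0 D l * (inc l : Matrix (Cu I l) I A) = inc l * D := by
  induction l with
  | nil => exact (Matrix.mul_one D).trans (Matrix.one_mul D).symm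
  | cons p l ih =>
    refine Eq.trans (fromBlocks_mul_fromRows (inc l : Matrix (Cu I l) I A) 0 (kM 0 D l)
      (p.1 • 1) ((0 * p.2.1) • 1) (-kM 0 D l)) (Eq.trans ?_
        (fromRows_mul (inc l : Matrix (Cu I l) I A) 0 D).symm)
    simp [ih]
    rfl

theorem inc_Hg {I : Type} [DecidableEq I] (g : I → L.G) (l : List (L.A × L.A × L.G)) :
    (inc l : Matrix (Cu I l) I L.A) ∈ Hg g (cg g l) 0 := by
  induction l with
  | nil => exact Hg_one g
  | cons p l ih =>
    rintro (i | i) j
    · exact ih i j
    · exact Submodule.zero_mem _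

end Pool.Agent.Helper445_GMF
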