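import Pool.Agent.Helper445_GMF.TwPoly
import Pool.Agent.Helper445_GMF.DefK

/-!
The Koszul matrix factorizations of the residue field.
-/

set_option autoImplicit false
set_option linter.unusedSectionVars false

open CategoryTheory Matrix Pretriangulated Limits MvPolynomial

namespace Pool.Agent.Helper445_GMF

section pure

variable {A : Type} [CommRing A] [Algebra ℂ A] {I : Type} [Fintype I] [DecidableEq I]

theorem pu_kn1 (K : Matrix I I A) (x w : A) :
    fromBlocks K (x • 1) (w • 1) (-K) * (fromBlocks 0 0 1 0 : Matrix (I ⊕ I) (I ⊕ I) A) +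
      (fromBlocks 0 0 1 0 : Matrix (I ⊕ I) (I ⊕ I) A) * fromBlocks K (x • 1) (w • 1) (-K) =
      x • (1 : Matrix (I ⊕ I) (I ⊕ I) A) := by
  rw [← fromBlocks_one, fromBlocks_smul]
  simp

theorem pu_kn2 (K s : Matrix I I A) (x w y : A) (h : K * s + s * K = y • 1) :
    fromBlocks K (x • 1) (w • 1) (-K) * (fromBlocks s 0 0 (-s) : Matrix (I ⊕ I) (I ⊕ I) A) +
      (fromBlocks s 0 0 (-s) : Matrix (I ⊕ I) (I ⊕ I) A) * fromBlocks K (x • 1) (w • 1) (-K) =
      y • (1 : Matrix (I ⊕ I) (I ⊕ I) A) := by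
  rw [← fromBlocks_one, fromBlocks_smul]
  simp [h]

end pure

variable {L : LG}

/-- the first entries of the list are null-homotopic on the Koszul extension -/
theorem kpre_null (g : L.G) (l : List (L.A × L.A × L.G)) (p : L.A × L.A × L.G) (hp : p ∈ l) :
    ∃ s ∈ Hg (kpre g l).g (kpre g l).g (p.2.2 - L.ς),
      (kpre g l).D * s + s * (kpre g l).D = p.1 • 1 := by
  induction l with
  | nil => simp at hp
  | cons q l ih =>
    rcases List.mem_cons.1 hp with rfl | hp
    · exact ⟨fromBlocks 0 0 1 0, Hg_blocks Hg_zero Hg_zero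
        (Hg_eq (Hg_one (kpre g l).g) fun i j => by abel) Hg_zero, pu_kn1 _ _ _⟩
    · obtain ⟨s, hs, es⟩ := ih hp
      exact ⟨fromBlocks s 0 0 (-s), Hg_blocks hs Hg_zero Hg_zero (Hg_neg
        (Hg_eq hs fun i j => by abel)), pu_kn2 _ _ _ _ _ es⟩

theorem kpre_rd (f : L.A →+* ℂ) (g : L.G) (l : List (L.A × L.A × L.G))
    (h : ∀ p ∈ l, f p.1 = 0 ∧ f p.2.1 = 0) : ∀ i j, f ((kpre g l).D i j) = 0 := by
  induction l with
  | nil => intro i j; exact map_zero f
  | cons p l ih =>
    have ih := ih fun q hq => h q (List.mem_cons_of_mem _ hq)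
    have hp := h p List.mem_cons_self
    have h1 : ∀ (x : L.A) (i j : (kpre g l).I), f x = 0 →
        f ((x • (1 : Matrix (kpre g l).I (kpre g l).I L.A)) i j) = 0 := by
      intro x i j hx
      rw [Matrix.smul_apply, smul_eq_mul, map_mul, hx, zero_mul]
    rintro (i | i) (j | j)
    · exact ih i j
    · exact h1 _ i j hp.1
    · exact h1 _ i j hp.2
    · show f (-((kpre g l).D i j)) = 0
      rw [map_neg, ih i j, neg_zero]

theorem kpre_card (g : L.G) (l : List (L.A × L.A × L.G)) :
    Fintype.card (kpre g l).I = 2 ^ l.length := by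
  induction l with
  | nil => exact Fintype.card_unit
  | cons p l ih =>
    have : Fintype.card (kpre g (p :: l)).I =
        Fintype.card (kpre g l).I + Fintype.card (kpre g l).I := Fintype.card_sum
    rw [this, ih, List.length_cons, pow_succ]
    ring

section poly

variable {n : ℕ} {a : Fin n → ℕ} {d : ℕ} {W : MvPolynomial (Fin n) ℂ}

variable {hW : IsWeightedHomogeneous a W d}

theorem koszul_null (h : ∀ i, a i ≤ d)
    (w : Fin n → MvPolynomial (Fin n) ℂ) (hw : ∀ i, IsWeightedHomogeneous a (w i) (d - a i))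
    (hs : ∑ i, X i * w i = W) (g : Gd d) (i : Fin n) {b : Gd d} (hb : b = wt a d i) :
    (X i : MvPolynomial (Fin n) ℂ) • (1 : Matrix (koszul hW h w hw hs g).I
      (koszul hW h w hw hs g).I (MvPolynomial (Fin n) ℂ)) ∈
      N ((koszul hW h w hw hs g).ts (-b) 1 (one_mul 1)) (koszul hW h w hw hs g) := by
  subst hb
  obtain ⟨s, hs1, hs2⟩ := kpre_null (L := lg a d W hW) g (kl a d w (List.finRange n))
    (X i, w i, wt a d i) (List.mem_map.2 ⟨i, List.mem_finRange i, rfl⟩)
  refine ⟨s, Hg_eq hs1 fun r c => ?_, ?_⟩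
  · show (kpre (L := lg a d W hW) g (kl a d w (List.finRange n))).g r -
      (kpre (L := lg a d W hW) g (kl a d w (List.finRange n))).g c + (wt a d i - sig d) =
      (kpre (L := lg a d W hW) g (kl a d w (List.finRange n))).g r -
      ((kpre (L := lg a d W hW) g (kl a d w (List.finRange n))).g c + -wt a d i) + -sig d
    abel
  · refine hs2.symm.trans ?_
    show _ = (kpre (L := lg a d W hW) g (kl a d w (List.finRange n))).D * s +
      s * ((1 : ℂ) • (kpre (L := lg a d W hW) g (kl a d w (List.finRange n))).D)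
    rw [one_smul]

theorem koszul_red (h2 : ∀ i, a i < d) (h : ∀ i, a i ≤ d)
    (w : Fin n → MvPolynomial (Fin n) ℂ) (hw : ∀ i, IsWeightedHomogeneous a (w i) (d - a i))
    (hs : ∑ i, X i * w i = W) (g : Gd d) : Red0 (koszul hW h w hw hs g) := by
  refine kpre_rd (L := lg a d W hW) (constantCoeff) g (kl a d w (List.finRange n)) (fun p hp => ?_)
  obtain ⟨i, _, rfl⟩ := List.mem_map.1 hp
  refine ⟨by simp, ?_⟩
  by_contra hc
  have h3 := hw i (d := 0) (by simpa [constantCoeff] using hc)
  have h4 := h2 i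
  simp at h3
  omega

theorem koszul_card (h : ∀ i, a i ≤ d)
    (w : Fin n → MvPolynomial (Fin n) ℂ) (hw : ∀ i, IsWeightedHomogeneous a (w i) (d - a i))
    (hs : ∑ i, X i * w i = W) (g : Gd d) :
    Fintype.card (koszul hW h w hw hs g).I = 2 ^ n := by
  refine (kpre_card (L := lg a d W hW) g (kl a d w (List.finRange n))).trans ?_
  rw [kl, List.length_map, List.length_finRange]

/-- In a Gepner type stability condition the Koszul matrix factorizations are stable. -/
theorem koszul_stable (ha : ∀ i, 0 < a i) (hd : 0 < d) (h2 : ∀ i, 2 * a i < d)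
    (σ : PreStab (MF (lg a d W hW))) (hσ : Gep σ) (h : ∀ i, a i ≤ d)
    (w : Fin n → MvPolynomial (Fin n) ℂ) (hw : ∀ i, IsWeightedHomogeneous a (w i) (d - a i))
    (hs : ∑ i, X i * w i = W) (g : Gd d) : ∃ φ, σ.Stable φ (koszul hW h w hw hs g) := by
  have hθ := hσ.tw hd
  have hred : Red0 (koszul hW h w hw hs g) := koszul_red (fun i => by have := h2 i; omega) h w hw hs g
  have hrk : rk (koszul hW h w hw hs g) = 2 ^ n := by
    rw [rk_rd ((red_iff ha hd _).2 hred), koszul_card]
  refine stable_of_mass ha hd hθ h2 hrk fun ψ => ?_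
  have e1 := M_tw_red hd hθ ψ hred
  have e2 := tw_split hd hθ ψ (koszul hW h w hw hs g) (ps hW (List.finRange n)) (ps_OK hW _)
    (fun p hp => by
      obtain ⟨i, hi1, hi2⟩ := ps_mem' hW _ hp
      rw [hi1]
      exact koszul_null h w hw hs g i hi2)
  rw [e1, koszul_card, ps_length, List.length_finRange] at e2
  have h3 : (0 : ℝ) < 2 ^ n := by positivity
  push_cast at e2
  exact (mul_left_cancel₀ h3.ne' e2).symm

end poly

end Pool.Agent.Helper445_GMF
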