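import Pool.Agent.Helper445_GMF.Poly

/-!
Matrix factorizations on which the variables are null-homotopic.
-/

set_option autoImplicit false
set_option linter.unusedSectionVars false

open CategoryTheory Matrix Pretriangulated Limits MvPolynomial

namespace Pool.Agent.Helper445_GMF

theorem lin_alg (n : ℕ) : ∀ (V : Type) [AddCommGroup V] [Module ℂ V] [FiniteDimensional ℂ V]
    (D h : Fin n → (V →ₗ[ℂ] V)),
    (∀ i j v, D i (h j v) + h j (D i v) = if i = j then v else 0) →
    (∀ i j v, D i (D j v) + D j (D i v) = 0) → 2 ^ n ∣ Module.finrank ℂ V := by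
  induction n with
  | zero => intro V _ _ _ D h _ _; simp
  | succ n ih =>
    intro V _ _ _ D h h1 h2
    set K := LinearMap.ker (D 0) with hK
    have hr : LinearMap.range (D 0) = K := by
      ext v
      constructor
      · rintro ⟨w, rfl⟩
        rw [hK, LinearMap.mem_ker]
        have := h2 0 0 w
        rw [← two_smul ℂ, smul_eq_zero] at this
        rcases this with h | h
        · norm_num at h
        · exact h
      · intro hv
        rw [hK, LinearMap.mem_ker] at hv
        refine ⟨h 0 v, ?_⟩
        have := h1 0 0 v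
        rw [hv, map_zero, add_zero] at this
        simpa using this
    have hdim := LinearMap.finrank_range_add_finrank_ker (D 0)
    rw [hr] at hdim
    have hD : ∀ i : Fin n, ∀ v ∈ K, D i.succ v ∈ K := by
      intro i v hv
      rw [hK, LinearMap.mem_ker] at hv ⊢
      have := h2 0 i.succ v
      rwa [hv, map_zero, add_zero] at this
    have hh : ∀ i : Fin n, ∀ v ∈ K, h i.succ v ∈ K := by
      intro i v hv
      rw [hK, LinearMap.mem_ker] at hv ⊢
      have := h1 0 i.succ v
      rw [hv, map_zero, add_zero, if_neg (Fin.succ_ne_zero i).symm] at this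
      exact this
    obtain ⟨m, hm⟩ := ih K (fun i => (D i.succ).restrict (hD i)) (fun i => (h i.succ).restrict (hh i))
      (by
        intro i j v
        have := h1 i.succ j.succ v.1
        simp only [Fin.succ_inj] at this
        ext1
        rw [apply_ite Subtype.val]
        exact this)
      (by
        intro i j v
        ext1
        exact h2 i.succ j.succ v.1)
    refine ⟨m, ?_⟩
    rw [← hdim, hm, pow_succ]
    ring

variable {n : ℕ} {a : Fin n → ℕ} {d : ℕ} {W : MvPolynomial (Fin n) ℂ}
  {hW : IsWeightedHomogeneous a W d}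

/-- the linear part of a polynomial in direction `j` -/
noncomputable def l1 (j : Fin n) (p : MvPolynomial (Fin n) ℂ) : ℂ :=
  constantCoeff (pderiv j p)

theorem l1_add (j : Fin n) (p q : MvPolynomial (Fin n) ℂ) : l1 j (p + q) = l1 j p + l1 j q := by
  simp [l1]

theorem l1_mul (j : Fin n) (p q : MvPolynomial (Fin n) ℂ) :
    l1 j (p * q) = l1 j p * constantCoeff q + constantCoeff p * l1 j q := by
  simp only [l1, Derivation.leibniz, smul_eq_mul, map_add, map_mul]
  ring

theorem l1_sum {ι : Type} (s : Finset ι) (j : Fin n) (f : ι → MvPolynomial (Fin n) ℂ) :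
    l1 j (∑ k ∈ s, f k) = ∑ k ∈ s, l1 j (f k) := by
  simp [l1]

theorem l1_mat {I J K : Type} [Fintype J] (j : Fin n) (M : Matrix I J (MvPolynomial (Fin n) ℂ))
    (M' : Matrix J K (MvPolynomial (Fin n) ℂ)) :
    (M * M').map (l1 j) = M.map (l1 j) * M'.map constantCoeff +
      M.map constantCoeff * M'.map (l1 j) := by
  ext r c
  simp only [Matrix.map_apply, Matrix.add_apply, Matrix.mul_apply]
  rw [l1_sum, ← Finset.sum_add_distrib]
  exact Finset.sum_congr rfl fun k _ => l1_mul j _ _

theorem pd_mat {I J K : Type} [Fintype J] (j : Fin n) (M : Matrix I J (MvPolynomial (Fin n) ℂ))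
    (M' : Matrix J K (MvPolynomial (Fin n) ℂ)) :
    (M * M').map (pderiv j) = M.map (pderiv j) * M' + M * M'.map (pderiv j) := by
  ext1 r c
  simp only [Matrix.map_apply, Matrix.add_apply, Matrix.mul_apply]
  rw [map_sum, ← Finset.sum_add_distrib]
  refine Finset.sum_congr rfl fun k _ => ?_
  rw [Derivation.leibniz, smul_eq_mul, smul_eq_mul]
  ring

theorem W_second (hW : IsWeightedHomogeneous a W d) (h2 : ∀ i, 2 * a i < d) (i j : Fin n) :
    l1 j (pderiv i W) = 0 := by
  have hi := h2 i
  have hj := h2 j
  have e1 : IsWeightedHomogeneous a (pderiv i W) (d - a i) :=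
    hW.pderiv (by omega)
  have e2 : IsWeightedHomogeneous a (pderiv j (pderiv i W)) (d - a i - a j) :=
    e1.pderiv (by omega)
  by_contra hc
  have h3 := e2 (d := 0) (by simpa [l1, constantCoeff] using hc)
  simp at h3
  omega

/-- If the polynomial has no quadratic part and the variables are null-homotopic on a reduced
matrix factorization then the number of generators is divisible by `2 ^ n`. -/
theorem dvd_of_null (h2 : ∀ i, 2 * a i < d) (E : MF (lg a d W hW))
    (hE : ∀ i j, constantCoeff (E.D i j) = 0)
    (h : ∀ i : Fin n, ∃ s : Matrix E.I E.I (MvPolynomial (Fin n) ℂ),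
      (X i : MvPolynomial (Fin n) ℂ) • (1 : Matrix E.I E.I (MvPolynomial (Fin n) ℂ)) =
        E.D * s + s * E.D) : 2 ^ n ∣ Fintype.card E.I := by
  choose s hs using h
  have h0 : E.D.map constantCoeff = 0 := by
    ext i j; exact hE i j
  have r1 : ∀ i j, E.D.map (l1 i) * (s j).map constantCoeff +
      (s j).map constantCoeff * E.D.map (l1 i) = if i = j then 1 else 0 := by
    intro i j
    have e := congrArg (fun M => M.map (l1 i)) (hs j)
    have e2 : ((E.D * s j + s j * E.D).map (l1 i)) = (E.D * s j).map (l1 i) +
      (s j * E.D).map (l1 i) := by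
      ext r c; exact l1_add _ _ _
    simp only at e
    rw [e2, l1_mat, l1_mat, h0, Matrix.zero_mul, Matrix.mul_zero, add_zero, zero_add] at e
    rw [← e]
    ext r c
    simp only [Matrix.map_apply, Matrix.smul_apply, smul_eq_mul, l1, Matrix.one_apply]
    by_cases hij : i = j
    · subst hij
      by_cases hrc : r = c
      · subst hrc; simp
      · simp [hrc]
    · by_cases hrc : r = c
      · subst hrc; simp [hij, pderiv_X, Ne.symm hij]
      · simp [hrc, hij]
  have r2 : ∀ i j, E.D.map (l1 i) * E.D.map (l1 j) + E.D.map (l1 j) * E.D.map (l1 i) = 0 := by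
    intro i j
    have e := congrArg (fun M => (M.map (pderiv i)).map (l1 j)) E.sq
    simp only at e
    rw [pd_mat] at e
    have e2 : (E.D.map (pderiv i) * E.D + E.D * E.D.map (pderiv i)).map (l1 j) =
        (E.D.map (pderiv i) * E.D).map (l1 j) + (E.D * E.D.map (pderiv i)).map (l1 j) := by
      ext r c; exact l1_add _ _ _
    rw [e2, l1_mat, l1_mat, h0, Matrix.zero_mul, Matrix.mul_zero, add_zero, zero_add] at e
    have e3 : (E.D.map (pderiv i)).map constantCoeff = E.D.map (l1 i) := by
      ext r c; rfl
    rw [e3] at e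
    rw [e]
    ext r c
    by_cases hrc : r = c
    · subst hrc
      simpa using W_second hW h2 i j
    · simp [Matrix.map_apply, Matrix.one_apply_ne hrc, l1]
  have key := lin_alg n (E.I → ℂ) (fun i => Matrix.mulVecLin (E.D.map (l1 i)))
    (fun j => Matrix.mulVecLin ((s j).map constantCoeff)) (by
      intro i j v
      simp only [Matrix.mulVecLin_apply, Matrix.mulVec_mulVec]
      rw [← Matrix.add_mulVec, r1]
      split_ifs <;> simp) (by
      intro i j v
      simp only [Matrix.mulVecLin_apply, Matrix.mulVec_mulVec]
      rw [← Matrix.add_mulVec, r2, Matrix.zero_mulVec])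
  simpa using key

end Pool.Agent.Helper445_GMF
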