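import Pool.Agent.Helper445_GMF.Num4

/-!
The mass inequality for functions with the formal properties of a mass.
-/

set_option autoImplicit false
set_option linter.unusedSectionVars false

open CategoryTheory Matrix Pretriangulated Limits MvPolynomial

namespace Pool.Agent.Helper445_GMF

/-- functions with the formal properties of a mass -/
structure MFun {L : LG} (M : MF L → ℝ) : Prop where
  iso : ∀ {X Y : MF L}, (X ≅ Y) → M X = M Y
  sub : ∀ T ∈ distTriang (MF L), M T.obj₂ ≤ M T.obj₁ + M T.obj₃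
  shift : ∀ X : MF L, M (X⟦(1 : ℤ)⟧) = M X
  tw : ∀ (g : L.G) (X : MF L), M (X.ts g 1 (one_mul 1)) = M X
  biprod : ∀ X Y : MF L, M (X ⊞ Y) = M X + M Y
  zero : ∀ X : MF L, IsZero X → M X = 0

namespace MFun

section general

variable {L : LG} {M : MF L → ℝ} (hM : MFun M)

include hM

theorem cone {X Y : MF L} (f : Matrix Y.I X.I L.A) (hf : f ∈ Z X Y) :
    M (Helper445_GMF.cone f hf) ≤ M Y + M X := by
  have h := hM.sub (tri f hf).rotate (rot_of_distTriang _ (dist_tri f hf))
  rw [← hM.shift X]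
  exact h

theorem tw_step (E : MF L) (p : L.A × L.A × L.G) (l : List (L.A × L.A × L.G))
    (hl : OK L (p :: l)) : M (Helper445_GMF.tw E (p :: l) hl) ≤
      2 * M (Helper445_GMF.tw E l hl.tail) := by
  obtain ⟨e⟩ := (tw_cone E p l hl).iso
  rw [hM.iso e]
  refine (hM.cone _ _).trans ?_
  rw [hM.tw]
  linarith

theorem tower_le (E : MF L) (l : List (L.A × L.A × L.G)) (hl : OK L l) :
    M (Helper445_GMF.tw E l hl) ≤ 2 ^ l.length * M E := by
  induction l with
  | nil =>
    have : M (Helper445_GMF.tw E [] hl) = M E := rfl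
    rw [this]
    simp
  | cons p l ih =>
    refine (hM.tw_step E p l hl).trans ?_
    have := ih hl.tail
    rw [List.length_cons, pow_succ]
    linarith

variable {I : Type} [Fintype I] [DecidableEq I] (l : List (L.A × L.A × L.G)) (hl : OK L l)
  (hs : (l.map fun p => p.1 * p.2.1).sum = L.W)

theorem kos_one (g : L.G) (g' : I → L.G) (h : ∀ i, g' i = 0 + g) :
    M (kos g' l hl hs) = M (kos (fun _ : I => (0 : L.G)) l hl hs) := by
  rw [← hM.tw g (kos (fun _ : I => (0 : L.G)) l hl hs)]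
  have e : g' = fun _ : I => (0 : L.G) + g := funext h
  subst e
  have hg : ∀ i, cg (fun _ : I => (0 : L.G) + g) l i = cg (fun _ : I => (0 : L.G)) l i + g :=
    fun i => cg_add (fun _ : I => (0 : L.G)) g l i
  have hS : SIso (kos (fun _ : I => (0 : L.G) + g) l hl hs)
      ((kos (fun _ : I => (0 : L.G)) l hl hs).ts g 1 (one_mul 1)) := by
    refine ⟨1, ⟨one_Hg_of_eq hg, ?_⟩, 1, ⟨one_Hg_of_eq fun i => (hg i).symm, ?_⟩, ?_, ?_⟩
    · show ((1 : ℂ) • kM 1 0 l) * 1 = 1 * kM 1 0 l
      rw [one_smul, Matrix.mul_one, Matrix.one_mul]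
    · show kM 1 0 l * 1 = 1 * ((1 : ℂ) • kM 1 0 l)
      rw [one_smul, Matrix.mul_one, Matrix.one_mul]
    · exact Matrix.one_mul _
    · exact Matrix.one_mul _
  obtain ⟨e⟩ := hS.iso
  exact hM.iso e

theorem kos_fin (m : ℕ) (g : Fin m → L.G) :
    M (kos g l hl hs) = m * M (kos (fun _ : Fin 1 => (0 : L.G)) l hl hs) := by
  induction m with
  | zero =>
    have h0 : IsZero (kos g l hl hs) := by
      rw [IsZero.iff_id_eq_zero, ← km_one, ← km_zero]
      exact hm_congr (congrArg (fun F => kE F l) (by ext i; exact i.elim0))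
    rw [hM.zero _ h0]
    simp
  | succ m ih =>
    obtain ⟨e1⟩ := kos_re l hl hs g (finSumFinEquiv : Fin m ⊕ Fin 1 ≃ Fin (m + 1))
    have e3 : (fun j => g ((finSumFinEquiv : Fin m ⊕ Fin 1 ≃ Fin (m + 1)) j)) =
        Sum.elim (fun i => g (finSumFinEquiv (Sum.inl i))) (fun _ : Fin 1 => 0 + g (Fin.last m)) := by
      funext j
      rcases j with j | j
      · rfl
      · rw [Sum.elim_inr, zero_add]
        congr 1
        ext
        simp
    obtain ⟨e2⟩ := kos_sum l hl hs (fun i => g ((finSumFinEquiv : Fin m ⊕ Fin 1 ≃ Fin (m + 1))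
      (Sum.inl i))) (fun _ : Fin 1 => 0 + g (Fin.last m))
    rw [hM.iso e1, e3, hM.iso e2, hM.biprod, ih,
      hM.kos_one l hl hs (g (Fin.last m)) (fun _ : Fin 1 => 0 + g (Fin.last m))
        (fun _ => rfl)]
    push_cast
    ring

theorem kos_card (g : I → L.G) :
    M (kos g l hl hs) =
      Fintype.card I * M (kos (fun _ : Fin 1 => (0 : L.G)) l hl hs) := by
  obtain ⟨e⟩ := kos_re l hl hs g (Fintype.equivFin I).symm
  rw [hM.iso e, hM.kos_fin l hl hs]

/-- the mass of the tower -/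
theorem tower (E : MF L) (hc : Chain E.g E.D l 0) :
    M (Helper445_GMF.tw E l hl) =
      Fintype.card E.I * M (kos (fun _ : Fin 1 => (0 : L.G)) l hl hs) := by
  obtain ⟨U, hU, U', hU', h1, h2, h3⟩ := hc.key
  have h : SIso (Helper445_GMF.tw E l hl) (kos E.g l hl hs) := by
    refine ⟨U, ⟨hU, h3⟩, U', ⟨hU', ?_⟩, h1, h2⟩
    show kM 0 E.D l * U' = U' * kM 1 0 l
    calc kM 0 E.D l * U' = U' * (U * kM 0 E.D l) * U' := by
          rw [← Matrix.mul_assoc U', h1, Matrix.one_mul]
      _ = U' * kM 1 0 l * (U * U') := by rw [← h3]; simp only [Matrix.mul_assoc]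
      _ = U' * kM 1 0 l := by rw [h2, Matrix.mul_one]
  obtain ⟨e⟩ := h.iso
  rw [hM.iso e, hM.kos_card l hl hs]

end general

section poly

variable {n : ℕ} {a : Fin n → ℕ} {d : ℕ} {W : MvPolynomial (Fin n) ℂ}
  {hW : IsWeightedHomogeneous a W d}

/-- the standard Koszul matrix factorization -/
noncomputable def KS (hd : 0 < d) (hW : IsWeightedHomogeneous a W d) : MF (lg a d W hW) :=
  kos (L := lg a d W hW) (fun _ : Fin 1 => (0 : Gd d)) (ps hW (List.finRange n))
    (ps_OK hW _) (full_sum hd hW)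

variable (ha : ∀ i, 0 < a i) (hd : 0 < d) {M : MF (lg a d W hW) → ℝ} (hM : MFun M)

include hM ha in
/-- the mass inequality -/
theorem mass_le (E : MF (lg a d W hW)) : rk E * M (KS hd hW) ≤ 2 ^ n * M E := by
  obtain ⟨Y, ⟨e⟩, hY, hr⟩ := rk_spec (aug ha hd hW) E
  rw [red_iff] at hr
  have h0 : Y.D.map (ev (List.finRange n)) = 0 := by
    ext1 i j
    show ev (List.finRange n) (Y.D i j) = 0
    rw [ev_full, hr i j, map_zero]
  have hc := chain hW Y (List.finRange n)
  rw [h0] at hc
  have h1 := hM.tower _ (ps_OK hW (List.finRange n)) (full_sum hd hW) Y hc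
  have h2 := hM.tower_le Y (ps hW (List.finRange n)) (ps_OK hW _)
  rw [ps_length, List.length_finRange, h1] at h2
  rw [hM.iso e, ← hY]
  exact h2

omit ha hM in
include ha in
theorem KS_ne (had : ∀ i, a i < d) : ¬ IsZero (KS hd hW) := by
  intro h0
  have h1 := rk_of_isZero h0
  have h2 : Rd (aug ha hd hW) (KS hd hW) := by
    rw [red_iff]
    exact KK_red hd hW (fun i => (had i).ne) _
  rw [rk_rd h2] at h1
  have h3 : Fintype.card (KS hd hW).I = 2 ^ (ps hW (List.finRange n)).length *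
      Fintype.card (Fin 1) := card_Cu (Fin 1) (ps hW (List.finRange n))
  rw [h3] at h1
  have h4 : 0 < 2 ^ (ps hW (List.finRange n)).length * Fintype.card (Fin 1) := by
    simp
  omega

end poly

end MFun

end Pool.Agent.Helper445_GMF
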