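import Pool.Agent.Helper445_GMF.Trunc

/-!
The mass function of a stability condition.
-/

set_option autoImplicit false
set_option linter.unusedSectionVars false

open CategoryTheory Pretriangulated Triangulated Limits ZeroObject

namespace Pool.Agent.Helper445_GMF

universe v u

variable {C : Type u} [Category.{v} C] [Preadditive C] [HasZeroObject C] [HasShift C ℤ]
  [∀ n : ℤ, (shiftFunctor C n).Additive] [Pretriangulated C] [IsTriangulated C]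

namespace PreStab

variable (σ : PreStab C)

/-- the imaginary part after rotation by `-π s` -/
noncomputable def im (s : ℝ) (z : ℂ) : ℝ := (Complex.exp (-(Complex.I * Real.pi * s)) * z).im

theorem im_add (s : ℝ) (z w : ℂ) : im s (z + w) = im s z + im s w := by
  unfold im; rw [mul_add, Complex.add_im]

theorem im_sub (s : ℝ) (z w : ℂ) : im s (z - w) = im s z - im s w := by
  unfold im; rw [mul_sub, Complex.sub_im]

theorem im_neg (s : ℝ) (z : ℂ) : im s (-z) = - im s z := by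
  unfold im; rw [mul_neg, Complex.neg_im]

theorem im_zero (s : ℝ) : im s 0 = 0 := by simp [im]

theorem im_exp (s φ : ℝ) (m : ℝ) :
    im s (m * Complex.exp (Complex.I * Real.pi * φ)) = m * Real.sin (Real.pi * (φ - s)) := by
  unfold im
  have : Complex.exp (-(Complex.I * Real.pi * s)) * (m * Complex.exp (Complex.I * Real.pi * φ)) =
      m * Complex.exp (((Real.pi * (φ - s) : ℝ) : ℂ) * Complex.I) := by
    rw [mul_left_comm, ← Complex.exp_add]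
    congr 2
    push_cast
    ring
  rw [this, Complex.im_ofReal_mul, Complex.exp_ofReal_mul_I_im]

theorem im_add_one (s : ℝ) (z : ℂ) : im (s + 1) z = - im s z := by
  unfold im
  have : Complex.exp (-(Complex.I * Real.pi * ((s + 1 : ℝ) : ℂ))) =
      - Complex.exp (-(Complex.I * Real.pi * s)) := by
    have h : -(Complex.I * Real.pi * ((s + 1 : ℝ) : ℂ)) =
        -(Complex.I * Real.pi * s) + -(Real.pi * Complex.I) := by
      push_cast; ring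
    rw [h, Complex.exp_add, Complex.exp_neg (Real.pi * Complex.I), Complex.exp_pi_mul_I]
    simp
  rw [this, neg_mul, Complex.neg_im]

theorem im_rot (s c : ℝ) (z : ℂ) :
    im s (Complex.exp (Complex.I * Real.pi * c) * z) = im (s - c) z := by
  unfold im
  rw [← mul_assoc, ← Complex.exp_add]
  congr 3
  push_cast
  ring

theorem im_nonneg {s : ℝ} {Q : C} (h : Gen σ.P (Set.Ioc s (s + 1)) Q) : 0 ≤ im s (σ.Z Q) := by
  induction h with
  | zero h => rw [σ.Z_zero h, im_zero]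
  | @ss φ X hφ hX =>
    by_cases h0 : IsZero X
    · rw [σ.Z_zero h0, im_zero]
    · obtain ⟨m, hm, e⟩ := σ.phase φ X hX h0
      rw [e, im_exp]
      refine mul_nonneg hm.le (Real.sin_nonneg_of_nonneg_of_le_pi ?_ ?_)
      · exact mul_nonneg Real.pi_pos.le (by linarith [hφ.1])
      · have : φ - s ≤ 1 := by linarith [hφ.2]
        nlinarith [Real.pi_pos]
  | ext T hT _ _ h₁ h₃ => rw [σ.add T hT, im_add]; exact add_nonneg h₁ h₃

theorem im_pos {s : ℝ} {Q : C} (h : Gen σ.P (Set.Ioo s (s + 1)) Q) :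
    0 ≤ im s (σ.Z Q) ∧ (im s (σ.Z Q) = 0 → IsZero Q) := by
  induction h with
  | zero h => exact ⟨by rw [σ.Z_zero h, im_zero], fun _ => h⟩
  | @ss φ X hφ hX =>
    by_cases h0 : IsZero X
    · exact ⟨by rw [σ.Z_zero h0, im_zero], fun _ => h0⟩
    · obtain ⟨m, hm, e⟩ := σ.phase φ X hX h0
      rw [e, im_exp]
      have : 0 < m * Real.sin (Real.pi * (φ - s)) := by
        refine mul_pos hm (Real.sin_pos_of_pos_of_lt_pi ?_ ?_)
        · exact mul_pos Real.pi_pos (by linarith [hφ.1])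
        · have : φ - s < 1 := by linarith [hφ.2]
          nlinarith [Real.pi_pos]
      exact ⟨this.le, fun h => absurd h this.ne'⟩
  | ext T hT _ _ h₁ h₃ =>
    rw [σ.add T hT, im_add]
    refine ⟨add_nonneg h₁.1 h₃.1, fun h => ?_⟩
    have e1 : im s (σ.Z T.obj₁) = 0 := by linarith [h₁.1, h₃.1]
    have e3 : im s (σ.Z T.obj₃) = 0 := by linarith [h₁.1, h₃.1]
    exact T.isZero₂_of_isZero₁₃ hT (h₁.2 e1) (h₃.2 e3)

/-- the function `F` -/
noncomputable def F (s : ℝ) (X : C) : ℝ := im s (σ.tz s X)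

theorem F_iso (s : ℝ) {X Y : C} (e : X ≅ Y) : σ.F s X = σ.F s Y := by
  rw [F, F, σ.tz_iso s e]

theorem F_sub (T : Triangle C) (hT : T ∈ distTriang C) (s : ℝ) :
    σ.F s T.obj₂ ≤ σ.F s T.obj₁ + σ.F s T.obj₃ := by
  obtain ⟨Q, hQ, e⟩ := σ.lemS T hT s
  have h := σ.im_nonneg hQ
  rw [e, im_sub, im_add] at h
  unfold F
  linarith

theorem F_shift (s : ℝ) (X : C) : σ.F s (X⟦(1 : ℤ)⟧) = σ.F (s - 1) X := by
  unfold F
  rw [σ.tz_shift, im_neg]
  have := im_add_one (s - 1) (σ.tz (s - 1) X)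
  rw [sub_add_cancel] at this
  rw [this, neg_neg]

theorem F_zero (s : ℝ) {X : C} (h : IsZero X) : σ.F s X = 0 := by
  rw [F, σ.tz_of_le (.zero h), im_zero]

theorem F_ge (s : ℝ) {φ : ℝ} {A : C} (hA : σ.P φ A) (h : φ ≤ s) : σ.F s A = 0 := by
  rw [F, σ.tz_of_le (.ss h hA), im_zero]

theorem F_lt (s : ℝ) {φ : ℝ} {A : C} (hA : σ.P φ A) (h : s < φ) : σ.F s A = im s (σ.Z A) := by
  rw [F, σ.tz_of_gt (.ss h hA)]

theorem exists_bound (X : C) : ∃ a b : ℝ, Gen σ.P (Set.Icc a b) X := by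
  obtain ⟨a, b, h⟩ := σ.hn X
  exact ⟨a, b, σ.HN_gen h⟩

theorem F_of_gen_le {s a b : ℝ} {X : C} (hX : Gen σ.P (Set.Icc a b) X) (h : b ≤ s) :
    σ.F s X = 0 := by
  rw [F, σ.tz_of_le (hX.mono fun x hx => hx.2.trans h), im_zero]

theorem F_of_gen_gt {s a b : ℝ} {X : C} (hX : Gen σ.P (Set.Icc a b) X) (h : s < a) :
    σ.F s X = im s (σ.Z X) := by
  rw [F, σ.tz_of_gt (hX.mono fun x hx => lt_of_lt_of_le h hx.1)]

/-- the function `H`: the imaginary part of the central charge of the part with phases in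
`(s, s + 1]` -/
noncomputable def H (s : ℝ) (X : C) : ℝ := σ.F s X + σ.F (s + 1) X

theorem H_supp {a b : ℝ} {X : C} (hX : Gen σ.P (Set.Icc a b) X) {s : ℝ}
    (h : s + 1 < a ∨ b ≤ s) : σ.H s X = 0 := by
  rcases h with h | h
  · rw [H, σ.F_of_gen_gt hX (by linarith), σ.F_of_gen_gt hX h, im_add_one]
    ring
  · rw [H, σ.F_of_gen_le hX h, σ.F_of_gen_le hX (by linarith)]
    ring

theorem H_sub (T : Triangle C) (hT : T ∈ distTriang C) (s : ℝ) :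
    σ.H s T.obj₂ ≤ σ.H s T.obj₁ + σ.H s T.obj₃ := by
  unfold H
  linarith [σ.F_sub T hT s, σ.F_sub T hT (s + 1)]

theorem H_shift (s : ℝ) (X : C) : σ.H s (X⟦(1 : ℤ)⟧) = σ.H (s - 1) X := by
  unfold H
  rw [σ.F_shift, σ.F_shift]
  ring_nf

theorem H_iso (s : ℝ) {X Y : C} (e : X ≅ Y) : σ.H s X = σ.H s Y := by
  rw [H, H, σ.F_iso s e, σ.F_iso _ e]

/-- additivity for a Harder-Narasimhan step -/
theorem F_hn {φ : ℝ} (T : Triangle C) (hT : T ∈ distTriang C)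
    (h₁ : Gen σ.P (Set.Ici φ) T.obj₁) (h₃ : σ.P φ T.obj₃) (s : ℝ) :
    σ.F s T.obj₂ = σ.F s T.obj₁ + σ.F s T.obj₃ := by
  unfold F
  rcases lt_or_ge s φ with hs | hs
  · have g₁ : Gen σ.P (Set.Ioi s) T.obj₁ := h₁.mono fun x hx => lt_of_lt_of_le hs hx
    have g₃ : Gen σ.P (Set.Ioi s) T.obj₃ := .ss hs h₃
    rw [σ.tz_of_gt g₁, σ.tz_of_gt g₃, σ.tz_of_gt (.ext T hT g₁ g₃), σ.add T hT, im_add]
  · rw [σ.tz_of_le (X := T.obj₃) (.ss hs h₃), im_zero, add_zero]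
    obtain ⟨A, B, f, g, h, Hf⟩ := σ.exists_tr s T.obj₁
    obtain ⟨V, v, w, hV⟩ := distinguished_cocone_triangle (f ≫ T.mor₁)
    have o := someOctahedron rfl Hf.1 hT hV
    rw [σ.tz_eq Hf, σ.tz_eq (f := f ≫ T.mor₁) (g := v) (h := w)
      ⟨hV, Hf.2.1, .ext _ o.mem Hf.2.2 (.ss hs h₃)⟩]

/-- the key strictness statement -/
theorem F_strict {φ φ' s : ℝ} (T : Triangle C) (hT : T ∈ distTriang C) (h₁ : σ.P φ T.obj₁)
    (h₃ : σ.P φ' T.obj₃) (h : φ < s) (h' : s < φ')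
    (e : σ.F s T.obj₂ = σ.F s T.obj₁ + σ.F s T.obj₃) : T.mor₃ = 0 := by
  obtain ⟨U, V, f, g, k, Hf⟩ := σ.exists_tr s T.obj₂
  obtain ⟨Q, v, w, hQ⟩ := distinguished_cocone_triangle (f ≫ T.mor₂)
  have o := someOctahedron rfl Hf.1 (rot_of_distTriang T hT) hQ
  have hQ1 : Gen σ.P (Set.Iic (max s (φ + 1))) Q := by
    refine .ext _ o.mem (Hf.2.2.mono fun x (hx : x ≤ s) => hx.trans (le_max_left _ _)) ?_
    exact .ss (φ := φ + 1) (Set.mem_Iic.2 (le_max_right _ _)) ((σ.shift _ _).2 h₁)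
  have hQ2 : Gen σ.P (Set.Ioi s) Q := Gen.third σ _ hQ (.ss h' h₃)
    (Hf.2.1.mono fun x (hx : s < x) => (by linarith : s < x + 1))
  have hQ3 : Gen σ.P (Set.Ioo s (s + 1)) Q := (σ.gen_inter hQ2 hQ1).mono (by
    rintro x ⟨hx, hx'⟩
    refine ⟨hx, lt_of_le_of_lt hx' (max_lt (by linarith) (by linarith))⟩)
  have e1 : σ.Z T.obj₃ = σ.Z U + σ.Z Q := σ.add _ hQ
  have e2 : im s (σ.Z Q) = 0 := by
    have a1 := σ.F_ge s h₁ h.le
    have a3 := σ.F_lt s h₃ h'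
    have a2 : σ.F s T.obj₂ = im s (σ.Z U) := by rw [F, σ.tz_eq Hf]
    rw [a1, a2, a3, e1, im_add] at e
    linarith
  have hQ0 := (σ.im_pos hQ3).2 e2
  have hiso : IsIso (f ≫ T.mor₂) := (Triangle.distinguished_iff_of_isZero₃ _ hQ0).1 hQ
  have h0 : T.mor₂ ≫ T.mor₃ = 0 := comp_distTriang_mor_zero₂₃ T hT
  rw [← cancel_epi (f ≫ T.mor₂), Category.assoc, h0, comp_zero, comp_zero]

section sums

variable {A : Bool → C}

/-- a product of two objects -/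
noncomputable def prodIso (A : Bool → C) : (∏ᶜ A) ≅ A false ⊞ A true where
  hom := biprod.lift (Pi.π A false) (Pi.π A true)
  inv := Pi.lift (fun b => Bool.rec (motive := fun b => A false ⊞ A true ⟶ A b)
    biprod.fst biprod.snd b)
  hom_inv_id := by
    refine Pi.hom_ext _ _ ?_
    rintro (_ | _) <;> simp
  inv_hom_id := by
    ext <;> simp

theorem gen_prod {S : Set ℝ} (h : ∀ b, Gen σ.P S (A b)) : Gen σ.P S (∏ᶜ A) :=
  Gen.ofIso (prodIso A).symm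
    (.ext _ (binaryBiproductTriangle_distinguished (A false) (A true)) (h false) (h true))

theorem Z_biprod (X Y : C) : σ.Z (X ⊞ Y) = σ.Z X + σ.Z Y :=
  σ.add _ (binaryBiproductTriangle_distinguished X Y)

theorem tz_prod (s : ℝ) (A : Bool → C) : σ.tz s (∏ᶜ A) = σ.tz s (A false) + σ.tz s (A true) := by
  choose U V f g k Hf using fun b => σ.exists_tr s (A b)
  have h := productTriangle_distinguished (fun b => Triangle.mk (f b) (g b) (k b))
    (fun b => (Hf b).1)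
  have h2 : σ.tz s (∏ᶜ A) = σ.Z (∏ᶜ U) := σ.tz_eq (A := ∏ᶜ U) (X := ∏ᶜ A) (B := ∏ᶜ V)
    (f := (productTriangle (fun b => Triangle.mk (f b) (g b) (k b))).mor₁)
    (g := (productTriangle (fun b => Triangle.mk (f b) (g b) (k b))).mor₂)
    (h := (productTriangle (fun b => Triangle.mk (f b) (g b) (k b))).mor₃)
    ⟨h, σ.gen_prod (A := U) fun b => (Hf b).2.1, σ.gen_prod (A := V) fun b => (Hf b).2.2⟩
  rw [h2, σ.tz_eq (Hf false), σ.tz_eq (Hf true), ← σ.Z_biprod]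
  exact σ.Z_iso (prodIso U)

theorem tz_biprod (s : ℝ) (X Y : C) : σ.tz s (X ⊞ Y) = σ.tz s X + σ.tz s Y := by
  have h := σ.tz_prod s (fun b => Bool.rec (motive := fun _ => C) X Y b)
  rw [σ.tz_iso s (prodIso _)] at h
  exact h

theorem F_split (T : Triangle C) (hT : T ∈ distTriang C) (h : T.mor₃ = 0) (s : ℝ) :
    σ.F s T.obj₂ = σ.F s T.obj₁ + σ.F s T.obj₃ := by
  obtain ⟨e, _, _⟩ := exists_iso_binaryBiproduct_of_distTriang T hT h
  unfold F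
  rw [σ.tz_iso s e, σ.tz_biprod, im_add]

theorem H_split (T : Triangle C) (hT : T ∈ distTriang C) (h : T.mor₃ = 0) (s : ℝ) :
    σ.H s T.obj₂ = σ.H s T.obj₁ + σ.H s T.obj₃ := by
  unfold H
  rw [σ.F_split T hT h, σ.F_split T hT h]
  ring

end sums

section auto

/-- the action of an autoequivalence which rotates the stability condition -/
theorem Gen_map {Φ : C → C} {c : ℝ} (hz : ∀ X, IsZero X → IsZero (Φ X))
    (hd : ∀ T ∈ distTriang C, ∃ (f : Φ T.obj₁ ⟶ Φ T.obj₂) (g : Φ T.obj₂ ⟶ Φ T.obj₃)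
      (h : Φ T.obj₃ ⟶ (Φ T.obj₁)⟦(1 : ℤ)⟧), Triangle.mk f g h ∈ distTriang C)
    (hP : ∀ φ X, σ.P φ X → σ.P (φ + c) (Φ X)) {S : Set ℝ} {X : C} (hX : Gen σ.P S X) :
    Gen σ.P {s | s - c ∈ S} (Φ X) := by
  induction hX with
  | zero h => exact .zero (hz _ h)
  | @ss φ X hφ hX => exact .ss (φ := φ + c) (by simpa using hφ) (hP _ _ hX)
  | ext T hT _ _ h₁ h₃ =>
    obtain ⟨f, g, h, hT'⟩ := hd T hT
    exact .ext _ hT' h₁ h₃

theorem F_map {Φ : C → C} {c : ℝ} (hz : ∀ X, IsZero X → IsZero (Φ X))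
    (hd : ∀ T ∈ distTriang C, ∃ (f : Φ T.obj₁ ⟶ Φ T.obj₂) (g : Φ T.obj₂ ⟶ Φ T.obj₃)
      (h : Φ T.obj₃ ⟶ (Φ T.obj₁)⟦(1 : ℤ)⟧), Triangle.mk f g h ∈ distTriang C)
    (hP : ∀ φ X, σ.P φ X → σ.P (φ + c) (Φ X))
    (hZ : ∀ X, σ.Z (Φ X) = Complex.exp (Complex.I * Real.pi * c) * σ.Z X) (s : ℝ) (X : C) :
    σ.F s (Φ X) = σ.F (s - c) X := by
  obtain ⟨A, B, f, g, h, Hf⟩ := σ.exists_tr (s - c) X
  obtain ⟨f', g', h', hT'⟩ := hd _ Hf.1
  have h2 : σ.tz s (Φ X) = σ.Z (Φ A) := σ.tz_eq (f := f') (g := g') (h := h') ⟨hT',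
    (σ.Gen_map hz hd hP Hf.2.1).mono fun x (hx : s - c < x - c) => (by linarith : s < x),
    (σ.Gen_map hz hd hP Hf.2.2).mono fun x (hx : x - c ≤ s - c) => (by linarith : x ≤ s)⟩
  unfold F
  rw [σ.tz_eq Hf, h2, hZ, im_rot]

end auto

theorem H_nonneg (s : ℝ) (X : C) : 0 ≤ σ.H s X := by
  obtain ⟨A, B, f, g, h, Hf⟩ := σ.exists_tr s X
  obtain ⟨A', B', f', g', h', Hf'⟩ := σ.exists_tr (s + 1) X
  have h0 : f' ≫ g = 0 := Gen.hom_zero σ (fun x (hx : s + 1 < x) y (hy : y ≤ s) => by linarith)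
    Hf'.2.1 Hf.2.2 _
  obtain ⟨k, hk⟩ := Triangle.coyoneda_exact₂ _ Hf.1 f' h0
  obtain ⟨Q, v, w, hQ⟩ := distinguished_cocone_triangle k
  have o := someOctahedron hk.symm hQ Hf.1 Hf'.1
  have h1 : Gen σ.P (Set.Iic (s + 1)) Q := Gen.first σ _ o.mem Hf'.2.2
    (Hf.2.2.mono (fun x (hx : x ≤ s) => (by linarith : x - 1 ≤ s + 1)))
  have h2 : Gen σ.P (Set.Ioi s) Q := Gen.third σ _ hQ Hf.2.1
    (Hf'.2.1.mono (fun x (hx : s + 1 < x) => (by linarith : s < x + 1)))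
  have h3 := σ.im_nonneg (σ.gen_inter h2 h1)
  have h4 : σ.Z A = σ.Z A' + σ.Z Q := σ.add _ hQ
  unfold H F
  rw [σ.tz_eq Hf, σ.tz_eq Hf', h4, im_add, im_add_one]
  linarith

section mass

/-- the mass function: the sum of `H` over a coset of `(1 / d) ℤ` -/
noncomputable def M (d : ℕ) (ψ : ℝ) (X : C) : ℝ := ∑ᶠ m : ℤ, σ.H (ψ + m / d) X

variable {d : ℕ} (hd : 0 < d)

include hd

theorem M_supp (ψ : ℝ) {a b : ℝ} {X : C} (hX : Gen σ.P (Set.Icc a b) X) :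
    (Function.support fun m : ℤ => σ.H (ψ + m / d) X) ⊆
      Set.Icc ⌊(a - 1 - ψ) * d⌋ ⌈(b - ψ) * d⌉ := by
  have hd' : (0 : ℝ) < d := Nat.cast_pos.2 hd
  intro m hm
  rw [Function.mem_support] at hm
  have h1 : a ≤ ψ + m / d + 1 := by
    by_contra hc
    exact hm (σ.H_supp hX (Or.inl (not_le.1 hc)))
  have h2 : ψ + m / d < b := by
    by_contra hc
    exact hm (σ.H_supp hX (Or.inr (not_lt.1 hc)))
  have h3 : (a - 1 - ψ) * d ≤ m := by
    rw [← le_div_iff₀ hd']; linarith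
  have h4 : (m : ℝ) ≤ (b - ψ) * d := by
    rw [← div_le_iff₀ hd']; linarith
  constructor
  · exact_mod_cast (Int.floor_le _).trans h3
  · exact_mod_cast h4.trans (Int.le_ceil _)

theorem M_fin (ψ : ℝ) (X : C) : (Function.support fun m : ℤ => σ.H (ψ + m / d) X).Finite := by
  obtain ⟨a, b, h⟩ := σ.exists_bound X
  exact (Set.finite_Icc _ _).subset (σ.M_supp hd ψ h)

theorem M_sum (ψ : ℝ) (X Y V : C) (m₀ : ℤ) : ∃ S : Finset ℤ, m₀ ∈ S ∧
    σ.M d ψ X = ∑ m ∈ S, σ.H (ψ + m / d) X ∧ σ.M d ψ Y = ∑ m ∈ S, σ.H (ψ + m / d) Y ∧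
    σ.M d ψ V = ∑ m ∈ S, σ.H (ψ + m / d) V := by
  refine ⟨insert m₀ ((σ.M_fin hd ψ X).toFinset ∪ ((σ.M_fin hd ψ Y).toFinset ∪
    (σ.M_fin hd ψ V).toFinset)), Finset.mem_insert_self _ _, ?_, ?_, ?_⟩
  · refine finsum_eq_sum_of_support_subset _ fun m hm => ?_
    simp only [Finset.coe_insert, Finset.coe_union, Set.Finite.coe_toFinset]
    exact Or.inr (Or.inl hm)
  · refine finsum_eq_sum_of_support_subset _ fun m hm => ?_
    simp only [Finset.coe_insert, Finset.coe_union, Set.Finite.coe_toFinset]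
    exact Or.inr (Or.inr (Or.inl hm))
  · refine finsum_eq_sum_of_support_subset _ fun m hm => ?_
    simp only [Finset.coe_insert, Finset.coe_union, Set.Finite.coe_toFinset]
    exact Or.inr (Or.inr (Or.inr hm))

theorem M_split (ψ : ℝ) (T : Triangle C) (hT : T ∈ distTriang C) (h : T.mor₃ = 0) :
    σ.M d ψ T.obj₂ = σ.M d ψ T.obj₁ + σ.M d ψ T.obj₃ := by
  unfold M
  rw [← finsum_add_distrib (σ.M_fin hd ψ _) (σ.M_fin hd ψ _)]
  exact finsum_congr fun m => σ.H_split T hT h _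

theorem M_biprod (ψ : ℝ) (X Y : C) : σ.M d ψ (X ⊞ Y) = σ.M d ψ X + σ.M d ψ Y :=
  σ.M_split hd ψ _ (binaryBiproductTriangle_distinguished X Y) rfl

theorem M_hn {φ : ℝ} (ψ : ℝ) (T : Triangle C) (hT : T ∈ distTriang C)
    (h₁ : Gen σ.P (Set.Ici φ) T.obj₁) (h₃ : σ.P φ T.obj₃) :
    σ.M d ψ T.obj₂ = σ.M d ψ T.obj₁ + σ.M d ψ T.obj₃ := by
  unfold M
  rw [← finsum_add_distrib (σ.M_fin hd ψ _) (σ.M_fin hd ψ _)]
  refine finsum_congr fun m => ?_
  unfold H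
  rw [σ.F_hn T hT h₁ h₃, σ.F_hn T hT h₁ h₃]
  ring

theorem M_sub (ψ : ℝ) (T : Triangle C) (hT : T ∈ distTriang C) :
    σ.M d ψ T.obj₂ ≤ σ.M d ψ T.obj₁ + σ.M d ψ T.obj₃ := by
  obtain ⟨S, _, h1, h2, h3⟩ := σ.M_sum hd ψ T.obj₁ T.obj₂ T.obj₃ 0
  rw [h1, h2, h3, ← Finset.sum_add_distrib]
  exact Finset.sum_le_sum fun m _ => σ.H_sub T hT _

/-- equality in the triangle inequality for masses -/
theorem M_eq (ψ : ℝ) (m₀ : ℤ) (T : Triangle C) (hT : T ∈ distTriang C)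
    (h : σ.M d ψ T.obj₂ = σ.M d ψ T.obj₁ + σ.M d ψ T.obj₃) :
    σ.F (ψ + m₀ / d) T.obj₂ = σ.F (ψ + m₀ / d) T.obj₁ + σ.F (ψ + m₀ / d) T.obj₃ := by
  obtain ⟨S, hS, h1, h2, h3⟩ := σ.M_sum hd ψ T.obj₁ T.obj₂ T.obj₃ m₀
  rw [h1, h2, h3, ← Finset.sum_add_distrib] at h
  have h4 := (Finset.sum_eq_sum_iff_of_le fun (m : ℤ) _ => σ.H_sub T hT (ψ + m / d)).1 h m₀ hS
  have h5 := σ.F_sub T hT (ψ + m₀ / d)
  have h6 := σ.F_sub T hT (ψ + m₀ / d + 1)
  unfold H at h4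
  linarith

theorem M_iso (ψ : ℝ) {X Y : C} (e : X ≅ Y) : σ.M d ψ X = σ.M d ψ Y :=
  finsum_congr fun _ => σ.H_iso _ e

/-- invariance under a rotation by a multiple of `1 / d` -/
theorem M_rot (ψ : ℝ) {X Y : C} (k : ℤ) (h : ∀ s, σ.F s Y = σ.F (s - k / d) X) :
    σ.M d ψ Y = σ.M d ψ X := by
  unfold M
  have hd' : (d : ℝ) ≠ 0 := Nat.cast_ne_zero.2 hd.ne'
  have e : ∀ m : ℤ, σ.H (ψ + m / d) Y = σ.H (ψ + ((m - k : ℤ) : ℝ) / d) X := by
    intro m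
    unfold H
    rw [h, h]
    congr 2
    · push_cast; ring
    · push_cast; ring
  rw [finsum_congr e]
  exact finsum_comp_equiv (Equiv.subRight k) (f := fun m : ℤ => σ.H (ψ + m / d) X)

theorem M_shift (ψ : ℝ) (X : C) : σ.M d ψ (X⟦(1 : ℤ)⟧) = σ.M d ψ X := by
  have hd' : (d : ℝ) ≠ 0 := Nat.cast_ne_zero.2 hd.ne'
  refine σ.M_rot hd ψ (d : ℤ) fun s => ?_
  rw [σ.F_shift]
  congr 1
  push_cast
  field_simp

theorem M_nonneg (ψ : ℝ) (X : C) : 0 ≤ σ.M d ψ X :=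
  finsum_nonneg fun _ => σ.H_nonneg _ _

theorem M_zero (ψ : ℝ) {X : C} (h : IsZero X) : σ.M d ψ X = 0 := by
  unfold M
  rw [finsum_eq_zero_of_forall_eq_zero]
  intro m
  unfold H
  rw [σ.F_zero _ h, σ.F_zero _ h, add_zero]

theorem M_pos (ψ : ℝ) {φ : ℝ} {A : C} (hA : σ.P φ A) (h0 : ¬ IsZero A) (m₀ : ℤ)
    (h1 : φ - 1 < ψ + m₀ / d) (h2 : ψ + m₀ / d < φ) : 0 < σ.M d ψ A := by
  obtain ⟨S, hS, h3, _, _⟩ := σ.M_sum hd ψ A A A m₀
  rw [h3]
  refine Finset.sum_pos' (fun m _ => σ.H_nonneg _ _) ⟨m₀, hS, ?_⟩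
  unfold H
  rw [σ.F_lt _ hA h2, σ.F_ge _ hA (by linarith), add_zero]
  obtain ⟨m, hm, e⟩ := σ.phase φ A hA h0
  rw [e, im_exp]
  refine mul_pos hm (Real.sin_pos_of_pos_of_lt_pi ?_ ?_)
  · exact mul_pos Real.pi_pos (by linarith)
  · have : φ - (ψ + m₀ / d) < 1 := by linarith
    nlinarith [Real.pi_pos]

end mass

end PreStab

end Pool.Agent.Helper445_GMF
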