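import Pool.Agent.Helper445_GMF.SSB
import Pool.Agent.Helper445_GMF.DefN

/-!
The central charge of a Gepner type stability condition is numerical.
-/

set_option autoImplicit false
set_option linter.unusedSectionVars false

open CategoryTheory Matrix Pretriangulated Limits MvPolynomial

namespace Pool.Agent.Helper445_GMF

/-! ### Dimensions -/

section hdim

variable {L : LG}

/-- the morphisms of the homotopy category -/
noncomputable def hcl (X Y : MF L) : Zs X Y →ₗ[ℂ] (X ⟶ Y) where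
  toFun f := hm f.1 f.2
  map_add' _ _ := rfl
  map_smul' _ _ := rfl

theorem hdim_eq (X Y : MF L) : hdim X Y = Module.finrank ℂ (X ⟶ Y) := by
  have h1 : LinearMap.ker (hcl X Y) = (Ns X Y).submoduleOf (Zs X Y) := by
    ext f
    rw [LinearMap.mem_ker]
    exact hm_eq_zero_iff
  have h2 : LinearMap.range (hcl X Y) = ⊤ := by
    rw [LinearMap.range_eq_top]
    intro φ
    obtain ⟨f, hf, rfl⟩ := hm_surj φ
    exact ⟨⟨f, hf⟩, rfl⟩
  unfold hdim
  rw [← h1]
  exact ((hcl X Y).quotKerEquivOfSurjective (LinearMap.range_eq_top.1 h2)).finrank_eq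

theorem finrank_iso_left {X Y : MF L} (e : X ≅ Y) (V : MF L) :
    Module.finrank ℂ (X ⟶ V) = Module.finrank ℂ (Y ⟶ V) := by
  refine LinearEquiv.finrank_eq (LinearEquiv.ofLinear (Linear.leftComp ℂ V e.inv)
    (Linear.leftComp ℂ V e.hom) ?_ ?_)
  · ext f; simp
  · ext f; simp

theorem finrank_iso_right {X Y : MF L} (e : X ≅ Y) (V : MF L) :
    Module.finrank ℂ (V ⟶ X) = Module.finrank ℂ (V ⟶ Y) := by
  refine LinearEquiv.finrank_eq (LinearEquiv.ofLinear (Linear.rightComp ℂ V e.hom)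
    (Linear.rightComp ℂ V e.inv) ?_ ?_)
  · ext f; simp
  · ext f; simp

end hdim

variable {n : ℕ} {a : Fin n → ℕ} {d : ℕ} {W : MvPolynomial (Fin n) ℂ}
  {hW : IsWeightedHomogeneous a W d}

/-- the sign of the differential can be changed -/
theorem sign_iso' (X : MF (lg a d W hW)) (g : Gd d) :
    Nonempty (X.ts g (-1) neg_one_sq' ≅ X.ts g 1 (one_mul 1)) := by
  have hU : Matrix.diagonal (fun i => C (chi d (X.g i)) : X.I → MvPolynomial (Fin n) ℂ) ∈
      Hg (L := lg a d W hW) (X.ts g (-1) neg_one_sq').g (X.ts g 1 (one_mul 1)).g 0 := by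
    intro i j
    by_cases hij : i = j
    · subst hij
      rw [Matrix.diagonal_apply_eq]
      refine LG.mem_of_eq (L := lg a d W hW) (isWeightedHomogeneous_C (wt a d) _) ?_
      show 0 = X.g i + g - (X.g i + g) + 0
      abel
    · rw [Matrix.diagonal_apply_ne _ hij]
      exact Submodule.zero_mem _
  have hU' : Matrix.diagonal (fun i => C (chi d (X.g i)) : X.I → MvPolynomial (Fin n) ℂ) ∈
      Hg (L := lg a d W hW) (X.ts g 1 (one_mul 1)).g (X.ts g (-1) neg_one_sq').g 0 := hU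
  have hsq : Matrix.diagonal (fun i => C (chi d (X.g i)) : X.I → MvPolynomial (Fin n) ℂ) *
      Matrix.diagonal (fun i => C (chi d (X.g i))) = 1 := by
    rw [Matrix.diagonal_mul_diagonal]
    have : (fun i => C (chi d (X.g i)) * C (chi d (X.g i)) : X.I → MvPolynomial (Fin n) ℂ) =
        fun _ => 1 := by
      funext i
      rw [← C_mul, chi_sq, C_1]
    rw [this, Matrix.diagonal_one]
  have key : X.D * Matrix.diagonal (fun i => C (chi d (X.g i)) : X.I → MvPolynomial (Fin n) ℂ) =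
      -(Matrix.diagonal (fun i => C (chi d (X.g i)) : X.I → MvPolynomial (Fin n) ℂ) * X.D) := by
    ext1 i j
    rw [Matrix.neg_apply, Matrix.mul_diagonal, Matrix.diagonal_mul, mul_comm]
    have := chi_entry (X.hD i j)
    rwa [smul_eq_C_mul, smul_eq_C_mul] at this
  refine ⟨isoOf' (X := X.ts g (-1) neg_one_sq') (Y := X.ts g 1 (one_mul 1))
    (Matrix.diagonal (fun i => C (chi d (X.g i)))) (Matrix.diagonal (fun i => C (chi d (X.g i))))
    ⟨hU, ?_⟩ ⟨hU', ?_⟩ hsq hsq⟩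
  · show ((1 : ℂ) • X.D) * _ = _ * ((-1 : ℂ) • X.D)
    rw [Matrix.smul_mul, key]
    simp
  · show ((-1 : ℂ) • X.D) * _ = _ * ((1 : ℂ) • X.D)
    rw [Matrix.smul_mul, key]
    simp

theorem sk_iso (X : MF (lg a d W hW)) (k : ℤ) :
    Nonempty (X.sk k ≅ X.ts (k • sig d) 1 (one_mul 1)) := by
  rcases Int.even_or_odd k with h | h
  · exact ⟨idm X (neg_one_zpow_sq k) (one_mul 1) rfl h.neg_one_zpow⟩
  · obtain ⟨e⟩ := sign_iso' X (k • sig d)
    exact ⟨idm X (neg_one_zpow_sq k) neg_one_sq' rfl h.neg_one_zpow ≪≫ e⟩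

theorem hdim_sk (X Y : MF (lg a d W hW)) (k : ℤ) :
    hdim X (Y.sk k) = Module.finrank ℂ (X ⟶ Y.ts (k • sig d) 1 (one_mul 1)) := by
  obtain ⟨e⟩ := sk_iso Y k
  rw [hdim_eq, finrank_iso_right e X]

theorem eul_iso {X X' : MF (lg a d W hW)} (e : X ≅ X') (Y : MF (lg a d W hW)) :
    eul X Y = eul X' Y := by
  unfold eul
  refine finsum_congr fun k => ?_
  rw [hdim_sk, hdim_sk, finrank_iso_left e]

/-- the phase factor of an element of the grading group -/
noncomputable def ef (d : ℕ) (g : Gd d) : ℂ :=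
  Complex.exp (Real.pi * Complex.I * (g.1.1 : ℤ) / d)

theorem ef_add (g g' : Gd d) : ef d (g + g') = ef d g * ef d g' := by
  unfold ef
  rw [← Complex.exp_add]
  congr 1
  have : (g + g').1.1 = g.1.1 + g'.1.1 := rfl
  rw [this]; push_cast; ring

theorem ef_zero : ef d 0 = 1 := by
  unfold ef
  have : (0 : Gd d).1.1 = 0 := rfl
  rw [this]; simp

theorem ef_ne (g : Gd d) : ef d g ≠ 0 := Complex.exp_ne_zero _

theorem ef_sig (hd : 0 < d) : ef d (sig d) = -1 := by
  unfold ef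
  have : (sig d).1.1 = d := rfl
  have hd' : (d : ℂ) ≠ 0 := Nat.cast_ne_zero.2 hd.ne'
  rw [this]
  push_cast
  rw [mul_div_assoc, div_self hd', mul_one, Complex.exp_pi_mul_I]

theorem ef_zsmul (k : ℤ) (g : Gd d) : ef d (k • g) = ef d g ^ k := by
  unfold ef
  rw [← Complex.exp_int_mul]
  congr 1
  have : (k • g).1.1 = k * g.1.1 := by simp
  rw [this]; push_cast; ring

theorem Gep.Z_ts (hd : 0 < d) {σ : PreStab (MF (lg a d W hW))} (h : Gep σ) (g : Gd d)
    (X : MF (lg a d W hW)) : σ.Z (X.ts g 1 (one_mul 1)) = ef d g * σ.Z X := by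
  have hadd : ∀ g g' : Gd d, (∀ X : MF (lg a d W hW), σ.Z (X.ts g 1 (one_mul 1)) =
      ef d g * σ.Z X) → (∀ X : MF (lg a d W hW), σ.Z (X.ts g' 1 (one_mul 1)) =
      ef d g' * σ.Z X) → ∀ X : MF (lg a d W hW), σ.Z (X.ts (g + g') 1 (one_mul 1)) =
      ef d (g + g') * σ.Z X := by
    intro g g' h1 h2 X
    obtain ⟨e⟩ := ts_iso X (rfl : g + g' = g + g')
    rw [← σ.Z_iso e, h2, h1, ef_add]
    ring
  have hzero : ∀ X : MF (lg a d W hW), σ.Z (X.ts 0 1 (one_mul 1)) = ef d 0 * σ.Z X := by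
    intro X
    obtain ⟨e⟩ := ts_zero X
    rw [σ.Z_iso e, ef_zero, one_mul]
  have hneg : ∀ g : Gd d, (∀ X : MF (lg a d W hW), σ.Z (X.ts g 1 (one_mul 1)) =
      ef d g * σ.Z X) → ∀ X : MF (lg a d W hW), σ.Z (X.ts (-g) 1 (one_mul 1)) =
      ef d (-g) * σ.Z X := by
    intro g h1 X
    obtain ⟨e1⟩ := ts_iso X (neg_add_cancel g)
    obtain ⟨e2⟩ := ts_zero X
    have h2 := h1 (X.ts (-g) 1 (one_mul 1))
    rw [σ.Z_iso e1, σ.Z_iso e2] at h2
    have h3 : ef d (-g) * ef d g = 1 := by rw [← ef_add, neg_add_cancel, ef_zero]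
    calc σ.Z (X.ts (-g) 1 (one_mul 1)) = ef d (-g) * ef d g * σ.Z (X.ts (-g) 1 (one_mul 1)) := by
          rw [h3, one_mul]
      _ = ef d (-g) * σ.Z X := by rw [h2]; ring
  have htau : ∀ X : MF (lg a d W hW), σ.Z (X.ts (tau d) 1 (one_mul 1)) =
      ef d (tau d) * σ.Z X := by
    intro X
    rw [h.2 X]
    congr 1
    unfold ef
    have : (tau d).1.1 = 2 := rfl
    rw [this]; push_cast
    congr 1
    ring
  have hsig : ∀ X : MF (lg a d W hW), σ.Z (X.ts (sig d) 1 (one_mul 1)) =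
      ef d (sig d) * σ.Z X := by
    intro X
    rw [ef_sig hd]
    obtain ⟨e⟩ := sign_iso X
    have h1 : σ.Z (X.sh 1) = - σ.Z X := σ.Z_shift X
    rw [← σ.Z_iso e] at h1
    have h2 : (1 : ℤ) • sig d = sig d := one_smul _ _
    have h3 : Nonempty (X.ts (sig d) 1 (one_mul 1) ≅ X.ts ((1 : ℤ) • sig d) 1 (one_mul 1)) :=
      ⟨idm X (one_mul 1) (one_mul 1) h2.symm rfl⟩
    obtain ⟨e3⟩ := h3
    rw [σ.Z_iso e3, h1]
    ring
  have hnat : ∀ k : ℕ, ∀ X : MF (lg a d W hW), σ.Z (X.ts (k • tau d) 1 (one_mul 1)) =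
      ef d (k • tau d) * σ.Z X := by
    intro k
    induction k with
    | zero => rw [zero_smul]; exact hzero
    | succ k ih => rw [succ_nsmul]; exact hadd _ _ ih htau
  have hint : ∀ k : ℤ, ∀ X : MF (lg a d W hW), σ.Z (X.ts (k • tau d) 1 (one_mul 1)) =
      ef d (k • tau d) * σ.Z X := by
    intro k
    obtain ⟨m, rfl | rfl⟩ := k.eq_nat_or_neg
    · rw [natCast_zsmul]; exact hnat m
    · rw [neg_smul, natCast_zsmul]; exact hneg _ (hnat m)
  obtain ⟨k, rfl | rfl⟩ := gd_form g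
  · exact hint k X
  · exact hadd _ _ (hint k) hsig X

end Pool.Agent.Helper445_GMF
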