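import Pool.Agent.Helper445_GMF.Num

/-!
The supertrace as a combination of Euler forms.
-/

set_option autoImplicit false
set_option linter.unusedSectionVars false

open CategoryTheory Matrix Pretriangulated Limits MvPolynomial

namespace Pool.Agent.Helper445_GMF

variable {n : ℕ} {a : Fin n → ℕ} {d : ℕ} {W : MvPolynomial (Fin n) ℂ}
  {hW : IsWeightedHomogeneous a W d}

theorem gd_fst (j : ℕ) (k : ℤ) : (j • tau d + k • sig d).1.1 = 2 * j + k * d := by
  simp [tau, sig]; ring

theorem gd_snd (j : ℕ) (k : ℤ) : (j • tau d + k • sig d).1.2 = (k : ZMod 2) := by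
  simp [tau, sig]

theorem gd_unique {j j' : ℕ} (hj : j < d) (hj' : j' < d) {k k' : ℤ}
    (h : j • tau d + k • sig d = j' • tau d + k' • sig d) : j = j' ∧ k = k' := by
  have h1 := congrArg (fun g : Gd d => g.1.1) h
  have h2 := congrArg (fun g : Gd d => g.1.2) h
  simp only [gd_fst, gd_snd] at h1 h2
  rw [ZMod.intCast_eq_intCast_iff_dvd_sub] at h2
  obtain ⟨q, hq⟩ := h2
  push_cast at hq
  have h3 : (j : ℤ) - j' = q * d := by
    have : k' = k + 2 * q := by linarith
    rw [this] at h1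
    linarith
  have hq0 : q = 0 := by
    by_contra hc
    rcases lt_or_gt_of_ne hc with h | h
    · have : q ≤ -1 := by omega
      have h4 : q * d ≤ -1 * d := mul_le_mul_of_nonneg_right this (by positivity)
      omega
    · have : 1 ≤ q := by omega
      have h4 : 1 * (d : ℤ) ≤ q * d := mul_le_mul_of_nonneg_right this (by positivity)
      omega
  subst hq0
  constructor
  · omega
  · omega

theorem gd_exists (hd : 0 < d) (g : Gd d) : ∃ (j : Fin d) (k : ℤ),
    g = (j : ℕ) • tau d + k • sig d := by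
  have key : ∀ m : ℤ, ∃ (j : Fin d) (k : ℤ), m • tau d = (j : ℕ) • tau d + k • sig d := by
    intro m
    have h1 : 0 ≤ m % d := Int.emod_nonneg _ (by omega)
    have h2 : m % d < d := Int.emod_lt_of_pos _ (by omega)
    refine ⟨⟨(m % d).toNat, by omega⟩, 2 * (m / d), ?_⟩
    have h3 : ((m % d).toNat : ℤ) = m % d := Int.toNat_of_nonneg h1
    have h4 : m = m % d + d * (m / d) := (Int.emod_add_mul_ediv m d).symm
    show m • tau d = (m % d).toNat • tau d + (2 * (m / d)) • sig d
    have h5 : (2 * (m / d)) • sig d = (d * (m / d)) • tau d := by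
      rw [mul_comm 2, mul_smul, mul_comm (d : ℤ), mul_smul]
      congr 1
      rw [two_zsmul, ← d_tau, natCast_zsmul]
    rw [h5, ← natCast_zsmul, h3, ← add_smul, ← h4]
  obtain ⟨m, rfl | rfl⟩ := gd_form g
  · exact key m
  · obtain ⟨j, k, h⟩ := key m
    refine ⟨j, k + 1, ?_⟩
    rw [h, add_smul, one_smul, add_assoc]

theorem ef_jk (hd : 0 < d) (j : ℕ) (k : ℤ) :
    ef d (j • tau d + k • sig d) = ef d (tau d) ^ j * (-1) ^ k := by
  rw [ef_add, ef_zsmul, ef_sig hd]
  congr 1
  have := ef_zsmul (j : ℤ) (tau d)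
  rw [natCast_zsmul] at this
  rw [this, zpow_natCast]

open Classical in
/-- the contribution of one generator -/
noncomputable def cb (d : ℕ) (g : Gd d) (j : ℕ) (k : ℤ) : ℝ :=
  if g = j • tau d + k • sig d then (-1) ^ k else 0

theorem cb_supp (g : Gd d) {j : ℕ} (hj : j < d) :
    (Function.support (cb d g j)).Finite := by
  refine Set.Subsingleton.finite fun k hk k' hk' => ?_
  have h1 : g = j • tau d + k • sig d := by
    by_contra hc; exact hk (if_neg hc)
  have h2 : g = j • tau d + k' • sig d := by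
    by_contra hc; exact hk' (if_neg hc)
  exact (gd_unique hj hj (h1.symm.trans h2)).2

theorem cb_sum (hd : 0 < d) (g : Gd d) :
    ∑ j : Fin d, ef d (tau d) ^ (j : ℕ) * ((∑ᶠ k, cb d g j k : ℝ) : ℂ) = ef d g := by
  obtain ⟨j₀, k₀, h0⟩ := gd_exists hd g
  rw [Finset.sum_eq_single j₀]
  · have h1 : ∑ᶠ k, cb d g j₀ k = (-1) ^ k₀ := by
      rw [finsum_eq_single (cb d g j₀) k₀]
      · exact if_pos h0
      · intro k hk
        refine if_neg fun hc => hk ?_
        exact (gd_unique j₀.2 j₀.2 (hc.symm.trans h0)).2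
    rw [h1, h0, ef_jk hd]
    push_cast
    rfl
  · intro j _ hj
    have h1 : ∑ᶠ k, cb d g j k = 0 := by
      refine finsum_eq_zero_of_forall_eq_zero fun k => if_neg fun hc => hj ?_
      exact Fin.ext (gd_unique j.2 j₀.2 (hc.symm.trans h0)).1
    rw [h1]; simp
  · intro h; exact absurd (Finset.mem_univ _) h

/-- the test objects -/
noncomputable abbrev K1 (hd : 0 < d) (hW : IsWeightedHomogeneous a W d) (j : ℕ) :
    MF (lg a d W hW) := KK hd hW (fun _ : Fin 1 => j • tau d)

theorem eul_K1 (hd : 0 < d) (had : ∀ i, a i ≠ d) {E : MF (lg a d W hW)} (hE : Red0 E) {j : ℕ}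
    (hj : j < d) : eul E (K1 hd hW j) = ∑ i : E.I, ∑ᶠ k, cb d (E.g i) j k := by
  classical
  unfold eul
  rw [← finsum_sum_comm _ _ fun i _ => cb_supp (E.g i) hj]
  refine finsum_congr fun k => ?_
  obtain ⟨e⟩ := kos_ts (L := lg a d W hW) (ps hW (List.finRange n)) (ps_OK hW _)
    (full_sum hd hW) (fun _ : Fin 1 => j • tau d) (k • sig d)
  rw [hdim_sk, finrank_iso_right e, finrank_KK (hd := hd) had
    (fun _ : Fin 1 => j • tau d + k • sig d) hE, Fintype.card_subtype, Finset.card_filter,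
    Fintype.sum_prod_type]
  simp only [Finset.univ_unique, Finset.sum_singleton]
  push_cast
  rw [Finset.mul_sum]
  refine Finset.sum_congr rfl fun i _ => ?_
  unfold cb
  by_cases h : E.g i = j • tau d + k • sig d
  · rw [if_pos h, if_pos h, mul_one]
  · rw [if_neg h, if_neg h, mul_zero]

theorem ef_wt_ne {k : ℕ} (h0 : 0 < k) (hk : k < d) : (1 : ℂ) - ef d (-(k • tau d)) ≠ 0 := by
  intro h
  have h1 : ef d (-(k • tau d)) = 1 := (sub_eq_zero.1 h).symm
  unfold ef at h1
  rw [Complex.exp_eq_one_iff] at h1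
  obtain ⟨m, hm⟩ := h1
  have e : (-(k • tau d)).1.1 = -(k * 2) := by simp [tau]
  rw [e] at hm
  have hd' : (d : ℂ) ≠ 0 := Nat.cast_ne_zero.2 (by omega)
  have hpi : (Real.pi : ℂ) ≠ 0 := Complex.ofReal_ne_zero.2 Real.pi_ne_zero
  have h2 : (-(k : ℂ)) = m * d := by
    have h3 : (Real.pi : ℂ) * Complex.I * ((-(k * 2) : ℤ) : ℂ) = m * (2 * Real.pi * Complex.I) * d := by
      rw [← hm]; field_simp
    push_cast at h3
    have h4 : (2 * Real.pi * Complex.I : ℂ) ≠ 0 := by
      simp [hpi, Complex.I_ne_zero]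
    apply mul_left_cancel₀ h4
    linear_combination h3
  have h3 : (-(k : ℤ)) = m * d := by exact_mod_cast h2
  have h4 : (d : ℤ) ∣ k := by
    refine ⟨-m, ?_⟩
    linarith
  have h5 : d ∣ k := by exact_mod_cast h4
  have := Nat.le_of_dvd h0 h5
  omega

theorem prod_ne (ha : ∀ i, 0 < a i) (had : ∀ i, a i < d) (L : List (Fin n)) :
    ((ps hW L).map fun p => 1 - ef d (-p.2.2)).prod ≠ 0 := by
  induction L with
  | nil => simp [ps]
  | cons i L ih =>
    rw [ps, List.map_cons, List.prod_cons]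
    exact mul_ne_zero (ef_wt_ne (ha i) (had i)) ih

/-- the central charge is a combination of Euler forms -/
theorem Z_num (ha : ∀ i, 0 < a i) (hd : 0 < d) (had : ∀ i, a i < d)
    {σ : PreStab (MF (lg a d W hW))} (h : Gep σ) :
    ∃ c : Fin d → ℂ, ∀ E : MF (lg a d W hW),
      σ.Z E = ∑ j, c j * (eul E (K1 hd hW j) : ℂ) := by
  set P := ((ps hW (List.finRange n)).map fun p => 1 - ef d (-p.2.2)).prod with hP
  have hP0 : P ≠ 0 := prod_ne ha had _
  set z := σ.Z (kos (L := lg a d W hW) (fun _ : Fin 1 => (0 : Gd d)) (ps hW (List.finRange n))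
    (ps_OK hW _) (full_sum hd hW)) with hz
  have had' : ∀ i, a i ≠ d := fun i => (had i).ne
  refine ⟨fun j => z / P * ef d (tau d) ^ (j : ℕ), fun E => ?_⟩
  obtain ⟨Y, ⟨e⟩, _, hr⟩ := rk_spec (aug ha hd hW) E
  rw [red_iff] at hr
  have h0 : Y.D.map (ev (List.finRange n)) = 0 := by
    ext1 i j
    show ev (List.finRange n) (Y.D i j) = 0
    rw [ev_full, hr i j, map_zero]
  have hc := chain hW Y (List.finRange n)
  rw [h0] at hc
  obtain ⟨e2⟩ := tw_iso_kos (ps hW (List.finRange n)) (ps_OK hW _) (full_sum hd hW) Y hc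
  have h1 := Z_tw (L := lg a d W hW) (ps hW (List.finRange n)) (ps_OK hW _) σ (ef d)
    (fun g X => h.Z_ts hd g X) Y
  have h2 := Z_kos (L := lg a d W hW) (ps hW (List.finRange n)) (ps_OK hW _) (full_sum hd hW) σ
    (ef d) (fun g X => h.Z_ts hd g X) Y.g
  rw [σ.Z_iso e2, h2] at h1
  have h3 : σ.Z E = z / P * ∑ i, ef d (Y.g i) := by
    rw [σ.Z_iso e]
    field_simp
    rw [← hz, ← hP] at h1
    linear_combination -h1
  rw [h3]
  have h4 : ∀ j : Fin d, (eul E (K1 hd hW j) : ℂ) =
      ∑ i : Y.I, ((∑ᶠ k, cb d (Y.g i) j k : ℝ) : ℂ) := by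
    intro j
    rw [eul_iso e, eul_K1 hd had' hr j.2]
    push_cast
    rfl
  have h5 : ∑ i, ef d (Y.g i) = ∑ j : Fin d, ef d (tau d) ^ (j : ℕ) *
      (eul E (K1 hd hW j) : ℂ) := by
    rw [Finset.sum_congr rfl fun i _ => (cb_sum hd (Y.g i)).symm, Finset.sum_comm]
    refine Finset.sum_congr rfl fun j _ => ?_
    rw [h4 j, Finset.mul_sum]
  rw [h5, Finset.mul_sum]
  refine Finset.sum_congr rfl fun j _ => ?_
  ring

end Pool.Agent.Helper445_GMF
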