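import Pool.Agent.Helper445_GMF.Num2

/-!
The support property.
-/

set_option autoImplicit false
set_option linter.unusedSectionVars false

open CategoryTheory Matrix Pretriangulated Limits MvPolynomial Cardinal

namespace Pool.Agent.Helper445_GMF

variable {n : ℕ} {a : Fin n → ℕ} {d : ℕ} {W : MvPolynomial (Fin n) ℂ}
  {hW : IsWeightedHomogeneous a W d}

theorem lt_of_isolated (ha : ∀ i, 0 < a i) (hW : IsWeightedHomogeneous a W d)
    (hs : ∀ x : Fin n → ℂ, (∀ i, eval x (pderiv i W) = 0) ↔ x = 0) (i : Fin n) : a i < d := by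
  by_contra hc
  rw [not_lt] at hc
  have h0 := (hs 0).2 rfl
  have h1 : (Pi.single i 1 : Fin n → ℂ) = 0 := by
    refine (hs _).1 fun j => ?_
    have h2 : IsWeightedHomogeneous (wt a d) (pderiv j W) (sig d + sig d - wt a d j) :=
      (W_mem hW).pderiv (sub_add_cancel _ _)
    rw [eval_eq]
    refine Finset.sum_eq_zero fun m hm => ?_
    have h3 := h2 (mem_support_iff.1 hm)
    rw [weight_wt] at h3
    have h4 : (Finsupp.weight a m • tau d).1.1 = (sig d + sig d - wt a d j).1.1 := by rw [h3]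
    have h5 : ((Finsupp.weight a m : ℕ) : ℤ) * 2 = d + d - a j * 2 := by
      have e1 : (Finsupp.weight a m • tau d).1.1 = ((Finsupp.weight a m : ℕ) : ℤ) * 2 := by
        simp [tau]
      have e2 : (sig d + sig d - wt a d j).1.1 = (d : ℤ) + d - a j * 2 := by
        have e3 : (sig d + sig d - wt a d j).1.1 = (d : ℤ) + d - (wt a d j).1.1 := rfl
        rw [e3]; simp [wt, tau]
      rw [← e1, h4, e2]
    have haj := ha j
    by_cases hm0 : m = 0
    · subst hm0
      have h6 := h0 j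
      rw [← constantCoeff_eq] 
      have h7 : constantCoeff (pderiv j W) = 0 := by
        rw [← h6]
        exact (congrFun (congrArg DFunLike.coe eval_zero) (pderiv j W)).symm
      rw [h7, zero_mul]
    · obtain ⟨k, hk⟩ : ∃ k, m k ≠ 0 := by
        by_contra hcc
        push Not at hcc
        exact hm0 (Finsupp.ext hcc)
      by_cases hki : k = i
      · exfalso
        subst hki
        have h8 : a k ≤ Finsupp.weight a m := by
          have h9 : m k • a k ≤ Finsupp.weight a m := by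
            rw [Finsupp.weight_apply]
            exact Finset.single_le_sum (f := fun i => m i • a i) (fun _ _ => Nat.zero_le _)
              (Finsupp.mem_support_iff.2 hk)
          have h10 : 1 * a k ≤ m k * a k := Nat.mul_le_mul_right _ (Nat.one_le_iff_ne_zero.2 hk)
          rw [smul_eq_mul] at h9
          omega
        omega
      · rw [Finset.prod_eq_zero (Finsupp.mem_support_iff.2 hk), mul_zero]
        rw [Pi.single_eq_of_ne hki, zero_pow hk]
  have h2 := congrFun h1 i
  simp at h2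

section

variable (ha : ∀ i, 0 < a i) (hd : 0 < d) (had : ∀ i, a i < d)
  {σ : PreStab (MF (lg a d W hW))} (h : Gep σ)

include ha hd had h

/-- the rank of a semistable object is bounded by its central charge -/
theorem rk_le_Z : ∃ C : ℝ, 0 ≤ C ∧ ∀ (φ : ℝ) (E : MF (lg a d W hW)), σ.P φ E →
    (rk E : ℝ) ≤ C * ‖σ.Z E‖ := by
  have hθ := h.tw hd
  set K := kos (L := lg a d W hW) (fun _ : Fin 1 => (0 : Gd d)) (ps hW (List.finRange n))
    (ps_OK hW _) (full_sum hd hW) with hK
  have hK0 : ¬ IsZero K := by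
    intro h0
    have h1 := rk_of_isZero h0
    have h2 : Rd (aug ha hd hW) K := by
      rw [red_iff]
      exact KK_red hd hW (fun i => (had i).ne) _
    rw [rk_rd h2] at h1
    have h3 : Fintype.card K.I = 2 ^ (ps hW (List.finRange n)).length * Fintype.card (Fin 1) :=
      card_Cu (Fin 1) (ps hW (List.finRange n))
    rw [h3] at h1
    have h4 : 0 < 2 ^ (ps hW (List.finRange n)).length * Fintype.card (Fin 1) := by
      simp
    omega
  obtain ⟨ψ, hψ⟩ := exists_M_pos σ hd hK0
  have hkw : 0 < kw hd hW σ ψ := hψ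
  refine ⟨2 ^ n * (d + 3) / kw hd hW σ ψ, by positivity, fun φ E hE => ?_⟩
  have h1 := mass_le ha hd hθ ψ E
  have h2 := M_le σ hd ψ hE
  rw [div_mul_eq_mul_div, le_div_iff₀ hkw]
  have h3 : (0 : ℝ) < 2 ^ n := by positivity
  calc (rk E : ℝ) * kw hd hW σ ψ ≤ 2 ^ n * σ.M d ψ E := h1
    _ ≤ 2 ^ n * ((d + 3) * ‖σ.Z E‖) := mul_le_mul_of_nonneg_left h2 h3.le
    _ = 2 ^ n * (d + 3) * ‖σ.Z E‖ := by ring

/-- the total dimension of the morphism spaces from a semistable object -/
theorem dim_le_Z (hs : ∀ x : Fin n → ℂ, (∀ i, eval x (pderiv i W) = 0) → x = 0) :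
    ∀ F : MF (lg a d W hW), ∃ C : ℝ, ∀ (φ : ℝ) (E : MF (lg a d W hW)), σ.P φ E →
      ∀ S : Finset ℤ, ∑ k ∈ S, (hdim E (F.sk k) : ℝ) ≤ C * ‖σ.Z E‖ := by
  classical
  intro F
  obtain ⟨N', hN⟩ := jac_pow_all hs
  obtain ⟨C, hC0, hC⟩ := rk_le_Z ha hd had h
  obtain ⟨F', ⟨eF⟩, _, hrF⟩ := rk_spec (aug ha hd hW) F
  rw [red_iff] at hrF
  refine ⟨N' ^ n * Fintype.card F'.I * C, fun φ E hE S => ?_⟩
  obtain ⟨E', ⟨eE⟩, hE2, hrE⟩ := rk_spec (aug ha hd hW) E
  rw [red_iff] at hrE
  have hB := Bd_main (hW := hW) (fun i => (had i).ne) hd hrE hrF hN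
  have hinj : Function.Injective fun k : ℤ => k • sig d := by
    intro k k' hkk
    have h1 := congrArg (fun g : Gd d => g.1.1) hkk
    have h2 : k * (d : ℤ) = k' * d := by simpa [sig] using h1
    exact mul_right_cancel₀ (by omega) h2
  have h1 := hB (S.map ⟨_, hinj⟩)
  rw [Finset.sum_map] at h1
  have h2 : ∀ k ∈ S, ((hdim E (F.sk k) : ℕ) : Cardinal) ≤
      Module.rank ℂ (E' ⟶ F'.ts (k • sig d) 1 (one_mul 1)) := by
    intro k _
    have e1 : F.ts (k • sig d) 1 (one_mul 1) ≅ F'.ts (k • sig d) 1 (one_mul 1) :=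
      (tsF (L := lg a d W hW) (k • sig d) 1 (one_mul 1)).mapIso eF
    rw [hdim_sk, finrank_iso_left eE, finrank_iso_right e1]
    unfold Module.finrank
    rcases lt_or_ge (Module.rank ℂ (E' ⟶ F'.ts (k • sig d) 1 (one_mul 1))) aleph0 with h7 | h7
    · exact (Cardinal.cast_toNat_of_lt_aleph0 h7).le
    · rw [Cardinal.cast_toNat_of_aleph0_le h7]
      exact zero_le
  have h3 : ((∑ k ∈ S, hdim E (F.sk k) : ℕ) : Cardinal) ≤
      ((N' ^ n * (Fintype.card F'.I * Fintype.card E'.I) : ℕ) : Cardinal) := by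
    push_cast
    refine (Finset.sum_le_sum h2).trans ?_
    have := h1
    push_cast at this
    exact this
  have h4 : ∑ k ∈ S, hdim E (F.sk k) ≤ N' ^ n * (Fintype.card F'.I * Fintype.card E'.I) := by
    exact_mod_cast h3
  have h5 := hC φ E hE
  rw [← hE2] at h5
  have h6 : (∑ k ∈ S, (hdim E (F.sk k) : ℝ)) ≤
      N' ^ n * (Fintype.card F'.I * Fintype.card E'.I) := by exact_mod_cast h4
  refine h6.trans ?_
  have h7 : (0 : ℝ) ≤ N' ^ n * Fintype.card F'.I := by positivity
  calc (N' : ℝ) ^ n * (Fintype.card F'.I * Fintype.card E'.I) =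
        N' ^ n * Fintype.card F'.I * Fintype.card E'.I := by ring
    _ ≤ N' ^ n * Fintype.card F'.I * (C * ‖σ.Z E‖) := mul_le_mul_of_nonneg_left h5 h7
    _ = N' ^ n * Fintype.card F'.I * C * ‖σ.Z E‖ := by ring

/-- the support property for one Euler functional -/
theorem eul_le_Z (hs : ∀ x : Fin n → ℂ, (∀ i, eval x (pderiv i W) = 0) → x = 0)
    (F : MF (lg a d W hW)) : ∃ C : ℝ, ∀ (φ : ℝ) (E : MF (lg a d W hW)), σ.P φ E →
      |eul E F| ≤ C * ‖σ.Z E‖ := by
  obtain ⟨C, hC⟩ := dim_le_Z ha hd had h hs F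
  refine ⟨C, fun φ E hE => ?_⟩
  unfold eul
  by_cases hf : (Function.support fun k : ℤ => (-1 : ℝ) ^ k * (hdim E (F.sk k) : ℝ)).Finite
  · rw [finsum_eq_sum_of_support_subset _ (s := hf.toFinset) (by simp)]
    refine (Finset.abs_sum_le_sum_abs _ _).trans (le_trans (le_of_eq ?_) (hC φ E hE hf.toFinset))
    refine Finset.sum_congr rfl fun k _ => ?_
    rw [abs_mul, abs_zpow, abs_neg, abs_one, _root_.one_zpow, one_mul, Nat.abs_cast]
  · rw [finsum_of_infinite_support hf, abs_zero]
    have := hC φ E hE ∅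
    simpa using this

end

end Pool.Agent.Helper445_GMF
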