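import Pool.Agent.Helper445_GMF.Num3

/-!
Gepner type stability conditions have the numerical and the support property.
-/

set_option autoImplicit false
set_option linter.unusedSectionVars false

open CategoryTheory Matrix Pretriangulated Limits MvPolynomial

namespace Pool.Agent.Helper445_GMF

theorem supp_of {L : LG} (σ : Stb L) (h : ∀ F : MF L, ∃ C : ℝ, ∀ (φ : ℝ) (E : MF L), σ.P φ E →
    |eul E F| ≤ C * ‖σ.ch E‖) : σ.Supp := by
  intro Γ _ _ _ v hv
  have h1 : ∀ f ∈ Submodule.span ℝ (Set.range fun (F : MF L) (E : MF L) => eul E F),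
      ∃ C : ℝ, ∀ (φ : ℝ) (E : MF L), σ.P φ E → |f E| ≤ C * ‖σ.ch E‖ := by
    intro f hf
    induction hf using Submodule.span_induction with
    | mem f hf =>
      obtain ⟨F, rfl⟩ := hf
      exact h F
    | zero => exact ⟨0, fun φ E _ => by simp⟩
    | add f g _ _ hf hg =>
      obtain ⟨C, hC⟩ := hf
      obtain ⟨C', hC'⟩ := hg
      refine ⟨C + C', fun φ E hE => ?_⟩
      rw [Pi.add_apply, add_mul]
      exact (abs_add_le _ _).trans (add_le_add (hC φ E hE) (hC' φ E hE))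
    | smul c f _ hf =>
      obtain ⟨C, hC⟩ := hf
      refine ⟨|c| * C, fun φ E hE => ?_⟩
      rw [Pi.smul_apply, smul_eq_mul, abs_mul, mul_assoc]
      exact mul_le_mul_of_nonneg_left (hC φ E hE) (abs_nonneg c)
  let b := Module.finBasis ℝ Γ
  have h2 : ∀ i, ∃ C : ℝ, ∀ (φ : ℝ) (E : MF L), σ.P φ E → |b.coord i (v E)| ≤ C * ‖σ.ch E‖ :=
    fun i => h1 _ (hv (b.coord i))
  choose C hC using h2
  refine ⟨∑ i, C i * ‖b i‖, fun φ E hE => ?_⟩
  have h3 : v E = ∑ i, b.coord i (v E) • b i := (b.sum_repr (v E)).symm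
  calc ‖v E‖ = ‖∑ i, b.coord i (v E) • b i‖ := by rw [← h3]
    _ ≤ ∑ i, ‖b.coord i (v E) • b i‖ := norm_sum_le _ _
    _ ≤ ∑ i, C i * ‖b i‖ * ‖σ.ch E‖ := by
        refine Finset.sum_le_sum fun i _ => ?_
        rw [norm_smul, Real.norm_eq_abs]
        have := mul_le_mul_of_nonneg_right (hC i φ E hE) (norm_nonneg (b i))
        linarith
    _ = (∑ i, C i * ‖b i‖) * ‖σ.ch E‖ := by rw [Finset.sum_mul]

variable {n : ℕ} {a : Fin n → ℕ} {d : ℕ} {W : MvPolynomial (Fin n) ℂ}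
  {hW : IsWeightedHomogeneous a W d}

theorem num_supp (ha : ∀ i, 0 < a i) (hd : 0 < d)
    (hs : ∀ x : Fin n → ℂ, (∀ i, eval x (pderiv i W) = 0) ↔ x = 0)
    (σ : Stb (lg a d W hW)) (hσ : σ.Gep) : σ.Num ∧ σ.Supp := by
  have had := lt_of_isolated ha hW hs
  constructor
  · obtain ⟨c, hc⟩ := Z_num ha hd had ((gep_iff σ).1 hσ)
    exact ⟨d, fun j => K1 hd hW j, c, hc⟩
  · exact supp_of σ fun F => eul_le_Z ha hd had ((gep_iff σ).1 hσ) (fun x => (hs x).1) F

end Pool.Agent.Helper445_GMF
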