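import Pool.Agent.Helper445_GMF.Tri

/-!
The homotopy category is triangulated.
-/

set_option autoImplicit false
set_option linter.unusedSectionVars false

open CategoryTheory Matrix Pretriangulated

namespace Pool.Agent.Helper445_GMF

section pure

variable {A : Type} [CommRing A] [Algebra ℂ A] {I J K : Type} [Fintype I] [DecidableEq I]
  [Fintype J] [DecidableEq J] [Fintype K] [DecidableEq K]

/-- the differential of the cone of the morphism of cones -/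
noncomputable def ocD (DX : Matrix I I A) (DY : Matrix J J A) (DZ : Matrix K K A) (f : Matrix J I A)
    (g : Matrix K J A) : Matrix ((K ⊕ I) ⊕ (J ⊕ I)) ((K ⊕ I) ⊕ (J ⊕ I)) A :=
  fromBlocks (fromBlocks DZ (g * f) 0 (sgn 1 • DX)) (fromBlocks g 0 0 1) 0
    (sgn 1 • fromBlocks DY f 0 (sgn 1 • DX))

theorem pu_oc1 (DX : Matrix I I A) (DY : Matrix J J A) (DZ : Matrix K K A) (f : Matrix J I A)
    (g : Matrix K J A) :
    ocD DX DY DZ f g * (fromBlocks (fromRows 1 0) 0 0 (fromRows 1 0) :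
      Matrix ((K ⊕ I) ⊕ (J ⊕ I)) (K ⊕ J) A) =
    (fromBlocks (fromRows 1 0) 0 0 (fromRows 1 0) :
      Matrix ((K ⊕ I) ⊕ (J ⊕ I)) (K ⊕ J) A) * (fromBlocks DZ g 0 (sgn 1 • DY)) := by
  rw [ocD]
  simp

theorem pu_oc2 (DX : Matrix I I A) (DY : Matrix J J A) (DZ : Matrix K K A) (f : Matrix J I A)
    (g : Matrix K J A) (hf : DY * f = f * DX) :
    (fromBlocks DZ g 0 (sgn 1 • DY)) * (fromBlocks (fromCols 1 0) 0 (fromCols 0 f) (fromCols 1 0) :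
      Matrix (K ⊕ J) ((K ⊕ I) ⊕ (J ⊕ I)) A) =
    (fromBlocks (fromCols 1 0) 0 (fromCols 0 f) (fromCols 1 0) :
      Matrix (K ⊕ J) ((K ⊕ I) ⊕ (J ⊕ I)) A) * ocD DX DY DZ f g := by
  rw [ocD]
  simp [hf]

theorem pu_oc3 (f : Matrix J I A) :
    (fromBlocks (fromCols 1 0) 0 (fromCols 0 f) (fromCols 1 0) :
      Matrix (K ⊕ J) ((K ⊕ I) ⊕ (J ⊕ I)) A) *
    (fromBlocks (fromRows 1 0) 0 0 (fromRows 1 0) :
      Matrix ((K ⊕ I) ⊕ (J ⊕ I)) (K ⊕ J) A) = 1 := by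
  rw [← fromBlocks_one]
  simp

theorem pu_oc4 (DX : Matrix I I A) (DY : Matrix J J A) (DZ : Matrix K K A) (f : Matrix J I A)
    (g : Matrix K J A) :
    (fromBlocks (fromRows 1 0) 0 0 (fromRows 1 0) :
      Matrix ((K ⊕ I) ⊕ (J ⊕ I)) (K ⊕ J) A) *
    (fromBlocks (fromCols 1 0) 0 (fromCols 0 f) (fromCols 1 0) :
      Matrix (K ⊕ J) ((K ⊕ I) ⊕ (J ⊕ I)) A) - 1 =
    ocD DX DY DZ f g * (fromBlocks 0 0 (fromBlocks 0 0 0 (-1)) 0 :
      Matrix ((K ⊕ I) ⊕ (J ⊕ I)) ((K ⊕ I) ⊕ (J ⊕ I)) A) +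
    (fromBlocks 0 0 (fromBlocks 0 0 0 (-1)) 0 :
      Matrix ((K ⊕ I) ⊕ (J ⊕ I)) ((K ⊕ I) ⊕ (J ⊕ I)) A) * ocD DX DY DZ f g := by
  rw [ocD]
  simp
  ext ((i | i) | (i | i)) ((j | j) | (j | j)) <;> simp [Matrix.one_apply]

theorem pu_oc5 (f : Matrix J I A) :
    (fromBlocks (fromCols 1 0) 0 (fromCols 0 f) (fromCols 1 0) :
      Matrix (K ⊕ J) ((K ⊕ I) ⊕ (J ⊕ I)) A) *
      (fromRows 1 0 : Matrix ((K ⊕ I) ⊕ (J ⊕ I)) (K ⊕ I) A) =
    fromBlocks 1 0 0 f := by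
  simp

theorem pu_oc6 :
    (fromCols 0 1 : Matrix (J ⊕ I) ((K ⊕ I) ⊕ (J ⊕ I)) A) *
    (fromBlocks (fromRows 1 0) 0 0 (fromRows 1 0) :
      Matrix ((K ⊕ I) ⊕ (J ⊕ I)) (K ⊕ J) A) =
    (fromRows 1 0 : Matrix (J ⊕ I) J A) * (fromCols 0 1 : Matrix J (K ⊕ J) A) := by
  simp

end pure

variable {L : LG}

section

variable {X Y V : MF L} {f : Matrix Y.I X.I L.A} (hf : f ∈ Z X Y) {g : Matrix V.I Y.I L.A}
  (hg : g ∈ Z Y V)

theorem oc_m1 : (fromBlocks g 0 0 1 : Matrix (V.I ⊕ X.I) (Y.I ⊕ X.I) L.A) ∈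
    Z (cone f hf) (cone (g * f) (Z_mul hg hf)) :=
  tr3_Z hf (Z_mul hg hf) (Z_one X) hg Hg_zero (by simp)

theorem oc_m3 : (fromBlocks 1 0 0 f : Matrix (V.I ⊕ Y.I) (V.I ⊕ X.I) L.A) ∈
    Z (cone (g * f) (Z_mul hg hf)) (cone g hg) :=
  tr3_Z (Z_mul hg hf) hg hf (Z_one V) Hg_zero (by simp)

/-- the cone of the morphism of cones -/
noncomputable abbrev ocC : MF L := cone (X := cone f hf) (Y := cone (g * f) (Z_mul hg hf))
  (fromBlocks g 0 0 1) (oc_m1 hf hg)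

theorem oc_hom : (fromBlocks (fromRows 1 0) 0 0 (fromRows 1 0) :
      Matrix ((V.I ⊕ X.I) ⊕ (Y.I ⊕ X.I)) (V.I ⊕ Y.I) L.A) ∈ Z (cone g hg) (ocC hf hg) :=
  ⟨Hg_blocks (Hg_rows (Hg_one _) Hg_zero) Hg_zero Hg_zero
    (by
      rintro (i | i) j
      · exact Hg_one (Y.sh 1).g i j
      · exact Submodule.zero_mem _), pu_oc1 X.D Y.D V.D f g⟩

theorem oc_inv : (fromBlocks (fromCols 1 0) 0 (fromCols 0 f) (fromCols 1 0) :
      Matrix (V.I ⊕ Y.I) ((V.I ⊕ X.I) ⊕ (Y.I ⊕ X.I)) L.A) ∈ Z (ocC hf hg) (cone g hg) :=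
  ⟨Hg_blocks (Hg_cols (Hg_one _) Hg_zero) Hg_zero
    (Hg_cols Hg_zero (ts_Z (a := (1 : ℤ) • L.ς) (c := sgn 1) (hc := sgn_sq 1) hf).1)
    (by
      rintro i (j | j)
      · exact Hg_one (Y.sh 1).g i j
      · exact Submodule.zero_mem _), pu_oc2 X.D Y.D V.D f g hf.2⟩

/-- the octahedron isomorphism -/
noncomputable def ocIso : ocC hf hg ≅ cone g hg :=
  isoOf (X := ocC hf hg) (Y := cone g hg)
    (fromBlocks (fromCols 1 0) 0 (fromCols 0 f) (fromCols 1 0))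
    (fromBlocks (fromRows 1 0) 0 0 (fromRows 1 0)) (oc_inv hf hg) (oc_hom hf hg)
    ⟨fromBlocks 0 0 (fromBlocks 0 0 0 (-1)) 0, by
      refine Hg_blocks Hg_zero Hg_zero ?_ Hg_zero
      rintro (i | i) (j | j)
      · exact Submodule.zero_mem _
      · exact Submodule.zero_mem _
      · exact Submodule.zero_mem _
      · exact Hg_neg (Hg_one1 (X.sh 1)) i j, pu_oc4 X.D Y.D V.D f g⟩
    ⟨0, Hg_zero, by
      have h := pu_oc3 (K := V.I) f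
      have h' : (fromBlocks (fromCols 1 0) 0 (fromCols 0 f) (fromCols 1 0) :
          Matrix (V.I ⊕ Y.I) ((V.I ⊕ X.I) ⊕ (Y.I ⊕ X.I)) L.A) *
        (fromBlocks (fromRows 1 0) 0 0 (fromRows 1 0) :
          Matrix ((V.I ⊕ X.I) ⊕ (Y.I ⊕ X.I)) (V.I ⊕ Y.I) L.A) - 1 =
        (cone g hg).D * 0 + 0 * (cone g hg).D := by rw [h]; simp
      exact h'⟩

/-- the triangle of the octahedron -/
noncomputable def ocTri : Triangle (MF L) :=
  Triangle.mk (X := cone f hf) (Y := cone (g * f) (Z_mul hg hf)) (Z := cone g hg)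
    (hm (fromBlocks g 0 0 1) (oc_m1 hf hg)) (hm (fromBlocks 1 0 0 f) (oc_m3 hf hg))
    (cpr g hg ≫ (cin f hf)⟦(1 : ℤ)⟧')

theorem ocTri_dist : ocTri hf hg ∈ dist L := by
  refine ⟨cone f hf, cone (g * f) (Z_mul hg hf), fromBlocks g 0 0 1, oc_m1 hf hg,
    ⟨Triangle.isoMk _ _ (Iso.refl _) (Iso.refl _) (ocIso hf hg).symm ?_ ?_ ?_⟩⟩
  · exact (Category.comp_id _).trans (Category.id_comp _).symm
  · refine Eq.trans ?_ (Category.id_comp _).symm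
    refine (Iso.comp_inv_eq _).2 ?_
    exact hm_congr (pu_oc5 f).symm
  · refine Eq.trans (comp_map_id _) ?_
    exact hm_congr pu_oc6.symm

end

instance : IsTriangulated (MF L) := by
  refine IsTriangulated.mk' ?_
  intro X Y V φ ψ
  obtain ⟨f, hf, rfl⟩ := hm_surj φ
  obtain ⟨g, hg, rfl⟩ := hm_surj ψ
  refine ⟨X, Y, V, cone f hf, cone g hg, cone (g * f) (Z_mul hg hf), hm f hf, hm g hg,
    Iso.refl _, Iso.refl _, Iso.refl _, (Category.comp_id _).trans (Category.id_comp _).symm,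
    (Category.comp_id _).trans (Category.id_comp _).symm, cin f hf, cpr f hf, dist_tri f hf,
    cin g hg, cpr g hg, dist_tri g hg, cin (g * f) (Z_mul hg hf), cpr (g * f) (Z_mul hg hf),
    dist_tri (g * f) (Z_mul hg hf), ⟨⟨hm (fromBlocks g 0 0 1) (oc_m1 hf hg),
      hm (fromBlocks 1 0 0 f) (oc_m3 hf hg), ?_, ?_, ?_, ?_, ocTri_dist hf hg⟩⟩⟩
  · exact hm_congr (pu_tr3b g 1 0)
  · refine Eq.trans ?_ (Category.comp_id _)
    exact hm_congr (pu_tr3c g 1 0).symm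
  · refine Eq.trans ?_ (Category.id_comp _)
    exact hm_congr (pu_tr3b 1 f 0)
  · exact hm_congr (pu_tr3c 1 f 0)

end Pool.Agent.Helper445_GMF
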