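import Pool.Agent.Helper445_GMF.Red
import Pool.Agent.Helper445_GMF.KSum

/-!
Graded matrix factorizations of a weighted homogeneous polynomial.
-/

set_option autoImplicit false
set_option linter.unusedSectionVars false

open CategoryTheory Matrix Pretriangulated Limits MvPolynomial

namespace Pool.Agent.Helper445_GMF

section

variable {n : ℕ} {a : Fin n → ℕ} {d : ℕ} {W : MvPolynomial (Fin n) ℂ}
  {hW : IsWeightedHomogeneous a W d}

theorem tau_zero {d : ℕ} {k : ℕ} (h : k • tau d = 0) : k = 0 := by
  have h1 : (k • tau d).1.1 = 0 := by rw [h]; rfl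
  have h2 : (k : ℤ) * 2 = 0 := by simpa [tau] using h1
  omega

theorem weight_zero (ha : ∀ i, 0 < a i) {m : Fin n →₀ ℕ}
    (h : Finsupp.weight (wt a d) m = 0) : m = 0 := by
  rw [weight_wt] at h
  have h1 := tau_zero h
  rw [Finsupp.weight_apply, Finsupp.sum, Finset.sum_eq_zero_iff] at h1
  ext i
  by_contra hc
  have h2 := h1 i (Finsupp.mem_support_iff.2 hc)
  rw [smul_eq_mul, mul_eq_zero] at h2
  rcases h2 with h2 | h2
  · exact hc h2
  · exact (ha i).ne' h2

/-- the augmentation -/
noncomputable def aug (ha : ∀ i, 0 < a i) (hd : 0 < d) (hW : IsWeightedHomogeneous a W d) :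
    Aug (lg a d W hW) where
  ε := aeval (0 : Fin n → ℂ)
  h := by
    intro g x hx h
    rw [aeval_zero] at h
    have h1 : coeff 0 x ≠ 0 := by simpa [constantCoeff] using h
    have hg : g = 0 := by
      have := hx h1
      rw [← this]
      simp
    refine ⟨hg, ?_⟩
    rw [aeval_zero]
    ext m
    by_cases hm : m = 0
    · subst hm
      simp [constantCoeff]
    · have h2 : coeff m x = 0 := by
        by_contra hc
        exact hm (weight_zero ha (hg ▸ hx hc))
      rw [h2]
      simp [algebraMap_eq, coeff_C, Ne.symm hm]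
  hς := by
    intro h
    have h1 : (sig d).1.1 = 0 := by
      have h' : sig d = 0 := h
      rw [h']; rfl
    have h2 : (d : ℤ) = 0 := h1
    omega

/-- setting the variables in a list to zero -/
noncomputable def ev (l : List (Fin n)) : MvPolynomial (Fin n) ℂ →ₐ[ℂ] MvPolynomial (Fin n) ℂ :=
  aeval (fun i => if i ∈ l then 0 else X i)

theorem ev_nil (p : MvPolynomial (Fin n) ℂ) : ev [] p = p := by
  simp [ev]

theorem ev_mem (l : List (Fin n)) {g : Gd d} {p : MvPolynomial (Fin n) ℂ}
    (hp : IsWeightedHomogeneous (wt a d) p g) : IsWeightedHomogeneous (wt a d) (ev l p) g := by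
  rw [p.as_sum, map_sum]
  refine IsWeightedHomogeneous.sum _ _ _ fun m hm => ?_
  rw [ev, aeval_monomial, Finsupp.prod]
  have h1 : Finsupp.weight (wt a d) m = g := hp (mem_support_iff.1 hm)
  rw [← h1, algebraMap_eq, ← zero_add (Finsupp.weight (wt a d) m)]
  refine (isWeightedHomogeneous_C _ _).mul ?_
  rw [Finsupp.weight_apply, Finsupp.sum]
  refine IsWeightedHomogeneous.prod _ _ _ fun i _ => ?_
  refine IsWeightedHomogeneous.pow ?_ _
  split_ifs
  · exact isWeightedHomogeneous_zero _ _ _
  · exact isWeightedHomogeneous_X _ _ _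

theorem ev_dvd (i : Fin n) (l : List (Fin n)) (p : MvPolynomial (Fin n) ℂ) :
    X i ∣ ev l p - ev (i :: l) p := by
  rw [← Ideal.mem_span_singleton, ← Ideal.Quotient.eq]
  have h : (Ideal.Quotient.mkₐ ℂ (Ideal.span {(X i : MvPolynomial (Fin n) ℂ)})).comp (ev l) =
      (Ideal.Quotient.mkₐ ℂ (Ideal.span {(X i : MvPolynomial (Fin n) ℂ)})).comp
        (ev (i :: l)) := by
    refine algHom_ext fun j => ?_
    simp only [AlgHom.comp_apply, ev, aeval_X, List.mem_cons]
    by_cases hj : j ∈ l
    · simp [hj]
    · by_cases hij : j = i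
      · subst hij
        simp only [hj, or_false, if_true, if_false]
        rw [map_zero]
        exact Ideal.Quotient.eq_zero_iff_mem.2 (Ideal.mem_span_singleton_self _)
      · simp [hj, hij]
  exact congrArg (fun f => f p) h

theorem exists_dv (i : Fin n) (l : List (Fin n)) {g : Gd d} {p : MvPolynomial (Fin n) ℂ}
    (hp : IsWeightedHomogeneous (wt a d) p g) :
    ∃ q, IsWeightedHomogeneous (wt a d) q (g - wt a d i) ∧
      ev l p = ev (i :: l) p + X i * q := by
  obtain ⟨q, hq⟩ := ev_dvd i l p
  refine ⟨q, ?_, by rw [← hq]; ring⟩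
  have h1 : IsWeightedHomogeneous (wt a d) (X i * q) g := by
    rw [← hq]
    exact (ev_mem l hp).sub (ev_mem _ hp)
  intro m hm
  have h2 : coeff (m + Finsupp.single i 1) (X i * q) ≠ 0 := by
    rwa [mul_comm, coeff_mul_X]
  have h3 := h1 h2
  rw [map_add, Finsupp.weight_single, one_smul] at h3
  rw [← h3]; abel

theorem ev_full (p : MvPolynomial (Fin n) ℂ) :
    ev (List.finRange n) p = C (constantCoeff p) := by
  have : ev (List.finRange n) = (aeval (0 : Fin n → MvPolynomial (Fin n) ℂ)) := by
    unfold ev
    congr 1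
    funext i
    simp
  rw [this, aeval_zero, algebraMap_eq]

theorem W_mem (hW : IsWeightedHomogeneous a W d) :
    IsWeightedHomogeneous (wt a d) W (sig d + sig d) := by
  rw [← d_tau]; exact wh_wt hW

/-- the quotients of the telescoping decomposition of `W` -/
noncomputable def wq (hW : IsWeightedHomogeneous a W d) (i : Fin n) (l : List (Fin n)) :
    MvPolynomial (Fin n) ℂ := (exists_dv i l (W_mem hW)).choose

theorem wq_mem (hW : IsWeightedHomogeneous a W d) (i : Fin n) (l : List (Fin n)) :
    IsWeightedHomogeneous (wt a d) (wq hW i l) (sig d + sig d - wt a d i) :=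
  (exists_dv i l (W_mem hW)).choose_spec.1

theorem wq_eq (hW : IsWeightedHomogeneous a W d) (i : Fin n) (l : List (Fin n)) :
    ev l W = ev (i :: l) W + X i * wq hW i l :=
  (exists_dv i l (W_mem hW)).choose_spec.2

/-- the list of the telescoping decomposition of `W` -/
noncomputable def ps (hW : IsWeightedHomogeneous a W d) : List (Fin n) →
    List (MvPolynomial (Fin n) ℂ × MvPolynomial (Fin n) ℂ × Gd d)
  | [] => []
  | i :: l => (X i, wq hW i l, wt a d i) :: ps hW l

theorem ps_OK (hW : IsWeightedHomogeneous a W d) (l : List (Fin n)) :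
    OK (lg a d W hW) (ps hW l) := by
  induction l with
  | nil => intro p hp; simp [ps] at hp
  | cons i l ih =>
    intro p hp
    rcases List.mem_cons.1 hp with rfl | hp
    · exact ⟨isWeightedHomogeneous_X _ _ _, wq_mem hW i l⟩
    · exact ih p hp

theorem ps_sum (hW : IsWeightedHomogeneous a W d) (l : List (Fin n)) :
    ((ps hW l).map fun p => p.1 * p.2.1).sum = W - ev l W := by
  induction l with
  | nil => simp [ps, ev_nil]
  | cons i l ih =>
    rw [ps, List.map_cons, List.sum_cons, ih]
    have := wq_eq hW i l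
    show X i * wq hW i l + (W - ev l W) = W - ev (i :: l) W
    rw [this]; ring

theorem ps_length (hW : IsWeightedHomogeneous a W d) (l : List (Fin n)) :
    (ps hW l).length = l.length := by
  induction l with
  | nil => rfl
  | cons i l ih => rw [ps, List.length_cons, List.length_cons, ih]

theorem ps_mem (hW : IsWeightedHomogeneous a W d) (l : List (Fin n)) {i : Fin n} (hi : i ∈ l) :
    ∃ p ∈ ps hW l, p.1 = X i ∧ p.2.2 = wt a d i := by
  induction l with
  | nil => simp at hi
  | cons j l ih =>
    rcases List.mem_cons.1 hi with rfl | hi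
    · exact ⟨_, List.mem_cons_self, rfl, rfl⟩
    · obtain ⟨p, hp, h⟩ := ih hi
      exact ⟨p, List.mem_cons_of_mem _ hp, h⟩

theorem ps_mem' (hW : IsWeightedHomogeneous a W d) (l : List (Fin n))
    {p : MvPolynomial (Fin n) ℂ × MvPolynomial (Fin n) ℂ × Gd d} (hp : p ∈ ps hW l) :
    ∃ i, p.1 = X i ∧ p.2.2 = wt a d i := by
  induction l with
  | nil => simp [ps] at hp
  | cons j l ih =>
    rcases List.mem_cons.1 hp with rfl | hp
    · exact ⟨j, rfl, rfl⟩
    · exact ih hp

/-- the chain of a matrix factorization -/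
theorem chain (hW : IsWeightedHomogeneous a W d) (E : MF (lg a d W hW)) (l : List (Fin n)) :
    Chain (L := lg a d W hW) E.g E.D (ps hW l) (E.D.map (ev l)) := by
  induction l with
  | nil =>
    have : E.D.map (ev []) = E.D := by
      ext1 i j; exact ev_nil _
    rw [this]
    exact .nil
  | cons i l ih =>
    have hex : ∀ r c, ∃ q, IsWeightedHomogeneous (wt a d) q
        (E.g r - E.g c + sig d - wt a d i) ∧ ev l (E.D r c) = ev (i :: l) (E.D r c) + X i * q :=
      fun r c => exists_dv i l (E.hD r c)
    choose B hB1 hB2 using hex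
    have e : E.D.map (ev l) = E.D.map (ev (i :: l)) + (X i : MvPolynomial (Fin n) ℂ) •
        (Matrix.of B) := by
      ext1 r c; exact hB2 r c
    refine .cons ih e ?_ ?_
    · intro r c
      exact LG.mem_of_eq (L := lg a d W hW) (hB1 r c) (by
        show E.g r - E.g c + sig d - wt a d i = E.g r - E.g c + (sig d - wt a d i)
        abel)
    · have hs : ∀ l', E.D.map (ev l') * E.D.map (ev l') = ev l' W • (1 : Matrix E.I E.I _) := by
        intro l'
        have h1 : (E.D * E.D).map (ev l') = E.D.map (ev l') * E.D.map (ev l') := Matrix.map_mul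
        rw [← h1, E.sq]
        ext1 r c
        by_cases h : r = c
        · subst h
          simp [Matrix.map_apply]
        · simp [Matrix.map_apply, Matrix.one_apply_ne h]
      have h2 : (X i : MvPolynomial (Fin n) ℂ) • (E.D.map (ev l) * Matrix.of B +
          Matrix.of B * E.D.map (ev (i :: l))) = (X i : MvPolynomial (Fin n) ℂ) •
            (wq hW i l • (1 : Matrix E.I E.I _)) := by
        rw [smul_smul, smul_add, ← Matrix.mul_smul, ← Matrix.smul_mul]
        have h3 : (X i : MvPolynomial (Fin n) ℂ) • Matrix.of B =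
            E.D.map (ev l) - E.D.map (ev (i :: l)) := by rw [e]; abel
        rw [h3, Matrix.mul_sub, Matrix.sub_mul, hs, hs, wq_eq hW i l, add_smul]
        abel
      ext1 r c
      have h4 := congrFun (congrFun h2 r) c
      exact mul_left_cancel₀ (X_ne_zero i) h4

end

end Pool.Agent.Helper445_GMF
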