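import Pool.Agent.Helper445_GMF.Sq3
import Pool.Agent.Helper445_GMF.Num4
import Pool.Agent.Helper445_GMF.DefG

/-!
Gepner type stability conditions for `W` and for `W + z ^ 2`.
-/

set_option autoImplicit false
set_option linter.unusedSectionVars false

open CategoryTheory Matrix Pretriangulated Limits MvPolynomial

namespace Pool.Agent.Helper445_GMF

/-- from stability conditions on the homotopy category to the elementary definition -/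
def PreStab.stb {L : LG} (σ : PreStab (MF L)) : Stb L where
  ch := σ.Z
  P := σ.P
  add X Y V h := by
    obtain ⟨f, g, h, hd⟩ := tri_iff.1 h
    exact σ.add _ hd
  iso φ X Y h hX := by
    obtain ⟨e⟩ := heq_iff.1 h
    exact σ.iso e hX
  zero φ X h := σ.zero φ X (null_iff.1 h)
  phase φ X h h0 := σ.phase φ X h (fun h => h0 (null_iff.2 h))
  shift φ X := by
    rw [← σ.shift φ X]
    obtain ⟨e⟩ := s1_iso X
    exact ⟨σ.iso e, σ.iso e.symm⟩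
  hom φ φ' X Y h hX hY f hf := hm_eq_zero_iff.1 (σ.hom h hX hY (hm f hf))
  hn X := by
    obtain ⟨a, b, h⟩ := σ.hn X
    exact ⟨a, b, hnc_iff.2 h⟩

variable {n m : ℕ} {a : Fin n → ℕ} {b : Fin m → ℕ} {d : ℕ} {W : MvPolynomial (Fin n) ℂ}
  {V : MvPolynomial (Fin m) ℂ}

theorem ZG_ts {hW : IsWeightedHomogeneous a W d} (X : MF (lg a d W hW)) :
    ZG (X.ts (tau d) 1 (one_mul 1)) = Complex.exp (2 * Real.pi * Complex.I / d) * ZG X := by
  unfold ZG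
  rw [Finset.mul_sum]
  refine Finset.sum_congr rfl fun i _ => ?_
  rw [← Complex.exp_add]
  congr 1
  show Real.pi * Complex.I * (((X.g i).1.1 + 2 : ℤ) : ℂ) / d = _
  push_cast
  ring

namespace Dbl

variable {hW : IsWeightedHomogeneous a W d} {hV : IsWeightedHomogeneous b V d} (H : Dbl hW hV)

include H

theorem th_β : th d H.β = d := by
  have h1 : (H.β + H.β).1.1 = (sig d + sig d).1.1 := by rw [H.hβ]
  have h2 : H.β.1.1 + H.β.1.1 = (d : ℤ) + d := h1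
  show H.β.1.1 = d
  omega

theorem P_tw (hd : 0 < d) {k : ℕ} {c : Fin k → ℕ} {U : MvPolynomial (Fin k) ℂ}
    {hU : IsWeightedHomogeneous c U d} {σ : PreStab (MF (lg c d U hU))} (hσ : Gep σ) {φ : ℝ}
    {E : MF (lg c d U hU)} (h : σ.P φ E) : σ.P φ ((E.ts (-H.β) 1 (one_mul 1))⟦(1 : ℤ)⟧) := by
  have hd' : (d : ℝ) ≠ 0 := Nat.cast_ne_zero.2 hd.ne'
  have h1 := ((hσ.comp hd (-H.β)).1 φ E).2 h
  have h2 : th d (-H.β) = -d := by
    have h4 : th d (-H.β) = - th d H.β := rfl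
    rw [h4, H.th_β]
  rw [h2] at h1
  have h3 := (σ.shift _ _).2 h1
  have e : φ + ((-d : ℤ) : ℝ) / d + 1 = φ := by
    push_cast
    field_simp
    ring
  rwa [e] at h3

theorem dat_bc (hb : ∀ i, 0 < b i) (hd : 0 < d) {σ : PreStab (MF (lg a d W hW))} (hσ : Gep σ) :
    Dat σ H.bcF H.J where
  F0 X h := Functor.map_isZero H.bcF h
  Fd := H.bc_tri
  G0 X h := Functor.map_isZero H.JF h
  Gd := H.J_tri
  faith := H.bc_faith
  ret X := by
    obtain ⟨e⟩ := H.J_bc_iso X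
    obtain ⟨i, p, h⟩ := tw_ret (L := lg b d V hV) X (H.z, H.z, H.β) H.kl_OK (H.null X)
    exact ret_of_iso e i p h
  PG φ Y h := by
    obtain ⟨e⟩ := H.bc_J_iso Y
    exact Gen.ofIso e.symm (tw_gen σ Y _ H.zl_OK h (H.P_tw hd hσ h))
  idem X e h := lg_idem hV hb hd X e h

theorem dat_J (ha : ∀ i, 0 < a i) (hd : 0 < d) {σ : PreStab (MF (lg b d V hV))} (hσ : Gep σ) :
    Dat σ H.JF H.bc where
  F0 X h := Functor.map_isZero H.JF h
  Fd := H.J_tri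
  G0 X h := Functor.map_isZero H.bcF h
  Gd := H.bc_tri
  faith := H.J_faith
  ret X := by
    obtain ⟨e⟩ := H.bc_J_iso X
    obtain ⟨i, p, h⟩ := tw_ret (L := lg a d W hW) X
      ((0 : MvPolynomial (Fin n) ℂ), (0 : MvPolynomial (Fin n) ℂ), H.β) H.zl_OK (by
        show (0 : MvPolynomial (Fin n) ℂ) • (1 : Matrix X.I X.I (MvPolynomial (Fin n) ℂ)) ∈
          N (X.ts (-H.β) 1 (one_mul 1)) X
        rw [zero_smul]
        exact N_zero)
    exact ret_of_iso e i p h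
  PG φ Y h := by
    obtain ⟨e⟩ := H.J_bc_iso Y
    exact Gen.ofIso e.symm (tw_gen σ Y _ H.kl_OK h (H.P_tw hd hσ h))
  idem X e h := lg_idem hW ha hd X e h

theorem ZG_J (hd : 0 < d) (X : MF (lg a d W hW)) : ZG X = ((1 / 2 : ℝ) : ℂ) * ZG (H.J X) := by
  have hd' : (d : ℂ) ≠ 0 := Nat.cast_ne_zero.2 hd.ne'
  have h1 : ZG (H.J X) = ZG X + ZG X := by
    have h2 : ZG (H.J X) = ∑ i : X.I ⊕ X.I, Complex.exp (Real.pi * Complex.I *
        ((Sum.elim X.g (fun c => X.g c + -H.β + (1 : ℤ) • sig d) i).1.1 : ℂ) / d) := rfl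
    rw [h2, Fintype.sum_sum_type]
    congr 1
    refine Finset.sum_congr rfl fun i _ => ?_
    have h3 : (X.g i + -H.β + (1 : ℤ) • sig d).1.1 = (X.g i).1.1 := by
      have h4 := H.th_β
      have h5 : H.β.1.1 = (d : ℤ) := h4
      rw [one_smul]
      show (X.g i).1.1 + -H.β.1.1 + (d : ℤ) = (X.g i).1.1
      rw [h5]; ring
    show Complex.exp (Real.pi * Complex.I * ((X.g i + -H.β + (1 : ℤ) • sig d).1.1 : ℂ) / d) = _
    rw [h3]
  rw [h1]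
  push_cast
  ring

theorem bc_ts (X : MF (lg b d V hV)) (g : Gd d) :
    Nonempty (H.bc (X.ts g 1 (one_mul 1)) ≅ (H.bc X).ts g 1 (one_mul 1)) := by
  refine ⟨isoOf' (X := H.bc (X.ts g 1 (one_mul 1))) (Y := (H.bc X).ts g 1 (one_mul 1))
    (1 : Matrix X.I X.I (MvPolynomial (Fin n) ℂ)) (1 : Matrix X.I X.I (MvPolynomial (Fin n) ℂ))
    ⟨one_Hg_of_eq (L := lg a d W hW) (fun i => rfl), ?_⟩
    ⟨one_Hg_of_eq (L := lg a d W hW) (fun i => rfl), ?_⟩ (Matrix.one_mul _) (Matrix.one_mul _)⟩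
  · show ((1 : ℂ) • X.D.map H.dn) * 1 = 1 * (((1 : ℂ) • X.D).map H.dn)
    simp
  · show (((1 : ℂ) • X.D).map H.dn) * 1 = 1 * ((1 : ℂ) • X.D.map H.dn)
    simp

theorem J_ts (X : MF (lg a d W hW)) (g : Gd d) :
    Nonempty (H.J (X.ts g 1 (one_mul 1)) ≅ (H.J X).ts g 1 (one_mul 1)) := by
  have hg : ∀ i, (H.J (X.ts g 1 (one_mul 1))).g i = ((H.J X).ts g 1 (one_mul 1)).g i :=
    fun i => cg_add (L := lg b d V hV) X.g g H.kl i
  refine ⟨isoOf' (X := H.J (X.ts g 1 (one_mul 1))) (Y := (H.J X).ts g 1 (one_mul 1))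
    (1 : Matrix (X.I ⊕ X.I) (X.I ⊕ X.I) (MvPolynomial (Fin m) ℂ))
    (1 : Matrix (X.I ⊕ X.I) (X.I ⊕ X.I) (MvPolynomial (Fin m) ℂ))
    ⟨one_Hg_of_eq (L := lg b d V hV) hg, ?_⟩
    ⟨one_Hg_of_eq (L := lg b d V hV) (fun i => (hg i).symm), ?_⟩ (Matrix.one_mul _)
    (Matrix.one_mul _)⟩
  · show ((1 : ℂ) • kM 1 (X.D.map H.up) H.kl) * 1 = 1 * kM 1 (((1 : ℂ) • X.D).map H.up) H.kl
    rw [one_smul, one_smul, Matrix.mul_one, Matrix.one_mul]
  · show kM 1 (((1 : ℂ) • X.D).map H.up) H.kl * 1 = 1 * ((1 : ℂ) • kM 1 (X.D.map H.up) H.kl)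
    rw [one_smul, one_smul, Matrix.mul_one, Matrix.one_mul]

/-- from `W` to `W + z ^ 2` -/
theorem up_gep (hb : ∀ i, 0 < b i) (hd : 0 < d) {σ : Stb (lg a d W hW)}
    (hZ : ∀ E, σ.ch E = ZG E) (hσ : σ.Gep) :
    ∃ σ' : Stb (lg b d V hV), (∀ E, σ'.ch E = ZG E) ∧ σ'.Gep := by
  have hσ' : Gep σ.pre := (gep_iff σ).1 hσ
  have hD := H.dat_bc hb hd hσ'
  let τ := hD.pre (fun X => ZG X) 1 one_pos (fun X => by
    show ZG X = ((1 : ℝ) : ℂ) * σ.ch (H.bc X)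
    rw [hZ, Complex.ofReal_one, one_mul]
    rfl)
  refine ⟨τ.stb, fun E => rfl, fun φ X => ?_, fun X => ZG_ts X⟩
  obtain ⟨e⟩ := H.bc_ts X (tau d)
  show σ.pre.P (φ + 2 / d) (H.bc (X.ts (tau d) 1 (one_mul 1))) ↔ σ.pre.P φ (H.bc X)
  rw [← hσ'.1 φ (H.bc X)]
  exact ⟨σ.pre.iso e, σ.pre.iso e.symm⟩

/-- from `W + z ^ 2` to `W` -/
theorem dn_gep (ha : ∀ i, 0 < a i) (hd : 0 < d) {σ : Stb (lg b d V hV)}
    (hZ : ∀ E, σ.ch E = ZG E) (hσ : σ.Gep) :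
    ∃ σ' : Stb (lg a d W hW), (∀ E, σ'.ch E = ZG E) ∧ σ'.Gep := by
  have hσ' : Gep σ.pre := (gep_iff σ).1 hσ
  have hD := H.dat_J ha hd hσ'
  let τ := hD.pre (fun X => ZG X) (1 / 2) (by norm_num) (fun X => by
    show ZG X = ((1 / 2 : ℝ) : ℂ) * σ.ch (H.J X)
    rw [hZ]
    exact H.ZG_J hd X)
  refine ⟨τ.stb, fun E => rfl, fun φ X => ?_, fun X => ZG_ts X⟩
  obtain ⟨e⟩ := H.J_ts X (tau d)
  show σ.pre.P (φ + 2 / d) (H.J (X.ts (tau d) 1 (one_mul 1))) ↔ σ.pre.P φ (H.J X)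
  rw [← hσ'.1 φ (H.J X)]
  exact ⟨σ.pre.iso e, σ.pre.iso e.symm⟩

end Dbl

end Pool.Agent.Helper445_GMF
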