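import Pool.Agent.Helper445_GMF.TS3
import Pool.Agent.Helper445_GMF.Sq4

/-!
The criterion for the existence of a Gepner type stability condition.
-/

set_option autoImplicit false
set_option linter.unusedSectionVars false

open CategoryTheory Matrix Pretriangulated Triangulated Limits MvPolynomial ZeroObject

namespace Pool.Agent.Helper445_GMF

section general

variable {L : LG}

theorem zn_iff {X Y : MF L} : Z X Y ⊆ N X Y ↔ ∀ f : X ⟶ Y, f = 0 := by
  constructor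
  · intro h f
    obtain ⟨f, hf, rfl⟩ := hm_surj f
    exact hm_eq_zero_iff.2 (h hf)
  · intro h f hf
    exact hm_eq_zero_iff.1 (h (hm f hf))

end general

section cat

universe v u

variable {C : Type u} [Category.{v} C] [Preadditive C] [HasZeroObject C] [HasShift C ℤ]
  [∀ n : ℤ, (shiftFunctor C n).Additive] [Pretriangulated C] [IsTriangulated C]

theorem Ph.add {ε : ℝ} (h1 : ε < 1) {z w : ℂ} (hz : Ph 0 ε z) (hw : Ph 0 ε w) :
    Ph 0 ε (z + w) := by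
  have hs : ∀ {z : ℂ}, Ph 0 ε z → Sec 0 ε z := by
    rintro z ⟨r, φ, hr, h2, h3, rfl⟩
    exact Sec.of_polar h1 hr h2 (by linarith)
  have h0 : 0 < ε := by
    obtain ⟨r, φ, hr, h2, h3, _⟩ := hz
    linarith
  have hz' := hs hz
  have hw' := hs hw
  have h2 : Sec 0 ε (z + w) := by
    refine ⟨?_, ?_⟩
    · rw [PreStab.im_add]; linarith [hz'.1, hw'.1]
    · rw [PreStab.im_add]; linarith [hz'.2, hw'.2]
  obtain ⟨r, φ, hr, h3, h4, e⟩ := h2.polar h0
  exact ⟨r, φ, hr, h3, by linarith, e⟩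

theorem PreStab.ph (σ : PreStab C) {ε : ℝ} (hε : ε < 1) {X : C}
    (h : Gen σ.P (Set.Ioc 0 ε) X) : IsZero X ∨ Ph 0 ε (σ.Z X) := by
  induction h with
  | zero h => exact Or.inl h
  | @ss φ X hφ hX =>
    by_cases h0 : IsZero X
    · exact Or.inl h0
    · obtain ⟨m, hm, e⟩ := σ.phase φ X hX h0
      exact Or.inr ⟨m, φ, hm, hφ.1, hφ.2, e⟩
  | ext T hT _ _ h₁ h₃ =>
    rcases h₁ with h₁ | h₁ <;> rcases h₃ with h₃ | h₃
    · exact Or.inl (T.isZero₂_of_isZero₁₃ hT h₁ h₃)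
    · right
      rw [σ.add T hT, σ.Z_zero h₁, zero_add]
      exact h₃
    · right
      rw [σ.add T hT, σ.Z_zero h₃, add_zero]
      exact h₁
    · right
      rw [σ.add T hT]
      exact h₁.add hε h₃

theorem Gen.of_ro (σ : PreStab C) {s : ℝ} {X : C}
    (h : ∀ Y, Gen σ.P (Set.Ioi s) Y → ∀ f : Y ⟶ X, f = 0) : Gen σ.P (Set.Iic s) X := by
  obtain ⟨A, B, f, g, k, H⟩ := σ.exists_tr s X
  have h2 : f = 0 := h _ H.2.1 f
  have h3 : IsZero A := by
    rw [IsZero.iff_id_eq_zero]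
    obtain ⟨l, hl⟩ := Triangle.coyoneda_exact₂ _ (inv_rot_of_distTriang _ H.1) (𝟙 A) (by
      show 𝟙 A ≫ f = 0
      rw [h2, comp_zero])
    have h4 : l = 0 := by
      refine Gen.hom_zero σ ?_ H.2.1 (Gen.shift_neg σ H.2.2) l
      intro x (hx : s < x) y (hy : y + 1 ≤ s)
      linarith
    rw [hl, h4]
    exact zero_comp
  have h5 : IsIso g := (Triangle.distinguished_iff_of_isZero₁ _ h3).1 H.1
  exact Gen.ofIso (asIso g).symm H.2.2

end cat

variable {n : ℕ} {a : Fin n → ℕ} {d : ℕ} {W : MvPolynomial (Fin n) ℂ}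
  {hW : IsWeightedHomogeneous a W d}

theorem s1_iso' (X : MF (lg a d W hW)) : Nonempty (X.s1 ≅ X.ts (sig d) 1 (one_mul 1)) := by
  obtain ⟨e⟩ := s1_iso X
  obtain ⟨e'⟩ := shift_iso X
  exact ⟨e ≪≫ e'⟩

/-- twists preserve distinguished triangles -/
theorem ts_dist' (g : Gd d) (Δ : Triangle (MF (lg a d W hW)))
    (hΔ : Δ ∈ distTriang (MF (lg a d W hW))) :
    ∃ (f : Δ.obj₁.ts g 1 (one_mul 1) ⟶ Δ.obj₂.ts g 1 (one_mul 1))
      (f' : Δ.obj₂.ts g 1 (one_mul 1) ⟶ Δ.obj₃.ts g 1 (one_mul 1))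
      (h : Δ.obj₃.ts g 1 (one_mul 1) ⟶ (Δ.obj₁.ts g 1 (one_mul 1))⟦(1 : ℤ)⟧),
      Triangle.mk f f' h ∈ distTriang (MF (lg a d W hW)) :=
  ts_dist (L := lg a d W hW) g Δ hΔ

/-- the hypotheses of the criterion, in the homotopy category -/
def TS.ofT (hd : 3 ≤ d) (T : TStr (lg a d W hW))
    (hm : ∀ X, T.U X → T.U (X.ts (tau d) 1 (one_mul 1)))
    (hp : ∀ X, T.U X → T.V (X.ts (-tau d) 1 (one_mul 1)) → ¬ Null X →
      0 < (ZG X).arg ∧ (ZG X).arg ≤ 2 * Real.pi / d) :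
    TS hW where
  U := T.U
  iso e h := T.iso _ _ (heq_iff.2 ⟨e⟩) h
  m0 X h := T.iso _ _ (heq_iff.2 (s1_iso' X)) (T.shift X h)
  tr X := by
    obtain ⟨A, B, h, hA, hB⟩ := T.tr X
    obtain ⟨f, g, h, hd⟩ := tri_iff.1 h
    exact ⟨A, B, f, g, h, hd, hA, fun Y hY => zn_iff.1 (hB Y hY)⟩
  up X := by
    obtain ⟨k, hk⟩ := T.up X
    exact ⟨k, T.iso _ _ (heq_iff.2 (sk_iso X k)) hk⟩
  dn X := by
    obtain ⟨k, hk⟩ := T.dn X
    refine ⟨k, fun Y hY => ?_⟩
    exact hz_iso ⟨Iso.refl Y⟩ ((sk_iso X k).map Iso.symm) (zn_iff.1 (hk Y hY))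
  m1 X h := hm X h
  pos X h1 h2 h0 := by
    have h3 := hp X h1 (fun Y hY => zn_iff.2 (h2 Y hY)) fun h => h0 (null_iff.1 h)
    refine (ph_arg ?_).2 ⟨h3.1, h3.2.trans (le_of_eq (by ring))⟩
    rw [div_le_one (by exact_mod_cast (by omega : 0 < d))]
    exact_mod_cast (by omega : 2 ≤ d)

namespace TS

variable (T : TS hW) (ha : ∀ i, 0 < a i) (hd : 0 < d) {D q p : ℕ} {η : Gd d} (hη : th d η = q)
  (hq : 0 < q) (hqD : q * D = d) (hqp : q * p = 2) (hD : 2 ≤ D)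
  (hdiv : ∀ g : Gd d, (q : ℤ) ∣ th d g)

omit T ha hd hη hqp hD hdiv in
include hq hqD in
theorem coa_Z (g : Gd d) (k : ℤ) (hk : th d g = q * k) (X : MF (lg a d W hW)) :
    ZG (X.ts g 1 (one_mul 1)) = Complex.exp (Complex.I * Real.pi * ((k / D : ℝ) : ℂ)) * ZG X := by
  rw [ZG_ts', gam_exp hq hqD g k hk]

theorem coa_aut (g : Gd d) (k : ℤ) (hk : th d g = q * k) :
    (T.coa ha hd D q p η hη hq hqD hqp hD).Aut (fun X => X.ts g 1 (one_mul 1))
      (fun X => X.ts (-g) 1 (one_mul 1)) k where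
  U m X h := T.coa_U ha hd hη hq hqD hqp hD g k hk (by rwa [add_sub_cancel_right])
  V m X h := T.coa_V ha hd hη hq hqD hqp hD g k hk (by rwa [add_sub_cancel_right])
  U' m X h := T.coa_U ha hd hη hq hqD hqp hD (-g) (-k) (by rw [th_neg, hk]; ring) (by
    rwa [sub_neg_eq_add, sub_add_cancel])
  V' m X h := T.coa_V ha hd hη hq hqD hqp hD (-g) (-k) (by rw [th_neg, hk]; ring) (by
    rwa [sub_neg_eq_add, sub_add_cancel])
  d' Δ hΔ := ts_dist' (-g) Δ hΔ
  e X := ts_ts_iso X g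
  Z X := coa_Z hq hqD g k hk X
  Z' X := by
    have h1 := coa_Z hq hqD (-g) (-k) (by rw [th_neg, hk]; ring) X
    have e : ((-k : ℤ) : ℝ) / D = -(k / D) := by push_cast; ring
    rw [e] at h1
    exact h1

include hdiv in
theorem coa_gep (had : ∀ i, a i < d) :
    Gep ((T.coa ha hd D q p η hη hq hqD hqp hD).pre hD (T.coa_fin ha hd hη hq hqD hqp hD hdiv had)) := by
  refine ⟨fun φ X => ?_, fun X => ZG_ts X⟩
  obtain ⟨k, hk⟩ := hdiv (tau d)
  have e1 : (2 : ℝ) / d = k / D := by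
    have h1 : ((2 : ℤ) : ℝ) = ((q * k : ℤ) : ℝ) := by rw [← hk]; rfl
    have h2 : (d : ℝ) = q * D := by exact_mod_cast hqD.symm
    have hq' : (q : ℝ) ≠ 0 := by exact_mod_cast hq.ne'
    push_cast at h1
    rw [h1, h2, mul_div_mul_left _ _ hq']
  constructor
  · intro h
    have h1 := (T.coa_aut ha hd hη hq hqD hqp hD (-tau d) (-k) (by rw [th_neg, hk]; ring)).P _ hD h
    obtain ⟨e⟩ := ts_ts_iso X (tau d)
    have e2 : φ + 2 / d + ((-k : ℤ) : ℝ) / D = φ := by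
      rw [e1]; push_cast; ring
    rw [e2] at h1
    exact (T.coa ha hd D q p η hη hq hqD hqp hD).P_iso e h1
  · intro h
    have h1 := (T.coa_aut ha hd hη hq hqD hqp hD (tau d) k hk).P _ hD h
    rw [e1]
    exact h1

end TS

/-- the parity of the degree -/
theorem exists_data (hd : 3 ≤ d) : ∃ (D q p : ℕ) (η : Gd d), th d η = q ∧ 0 < q ∧ q * D = d ∧
    q * p = 2 ∧ 2 ≤ D ∧ ∀ g : Gd d, (q : ℤ) ∣ th d g := by
  rcases Nat.even_or_odd d with h | h
  · obtain ⟨e, he⟩ := h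
    refine ⟨e, 2, 1, tau d, rfl, by norm_num, by omega, by norm_num, by omega, fun g => ?_⟩
    have h1 : (g.1.1 : ZMod 2) = (d : ZMod 2) * g.1.2 := g.2
    have h2 : (d : ZMod 2) = 0 := by
      rw [he]; push_cast
      have : ∀ x : ZMod 2, x + x = 0 := by decide
      exact this _
    rw [h2, zero_mul, ZMod.intCast_zmod_eq_zero_iff_dvd] at h1
    exact h1
  · refine ⟨d, 1, 2, ⟨(1, 1), ?_⟩, rfl, one_pos, one_mul d, by norm_num, by omega,
      fun g => ?_⟩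
    · show ((1 : ℤ) : ZMod 2) = (d : ZMod 2) * 1
      obtain ⟨e, he⟩ := h
      rw [he]; push_cast
      have : (2 : ZMod 2) = 0 := by decide
      rw [this]; ring
    · simp

theorem crit_mp (ha : ∀ i, 0 < a i) (hd : 3 ≤ d)
    (hs : ∀ x : Fin n → ℂ, (∀ i, eval x (pderiv i W) = 0) ↔ x = 0) (T : TS hW) :
    HasGepner hW := by
  obtain ⟨D, q, p, η, hη, hq, hqD, hqp, hD, hdiv⟩ := exists_data hd
  have had := lt_of_isolated ha hW hs
  have hd0 : 0 < d := by omega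
  have hG := T.coa_gep ha hd0 hη hq hqD hqp hD hdiv had
  set τ := (T.coa ha hd0 D q p η hη hq hqD hqp hD).pre hD (T.coa_fin ha hd0 hη hq hqD hqp hD hdiv had) with hτ
  have hG' : τ.stb.Gep := hG
  have hns := num_supp ha hd0 hs τ.stb hG'
  exact ⟨τ.stb, fun E => rfl, hG', hns.1, hns.2⟩

theorem crit_mpr (hd : 3 ≤ d) (h : HasGepner hW) : ∃ T : TStr (lg a d W hW),
    (∀ X, T.U X → T.U (X.ts (tau d) 1 (one_mul 1))) ∧
    ∀ X, T.U X → T.V (X.ts (-tau d) 1 (one_mul 1)) → ¬ Null X →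
      0 < (ZG X).arg ∧ (ZG X).arg ≤ 2 * Real.pi / d := by
  obtain ⟨σ, hZ, hG, _, _⟩ := h
  have hd0 : 0 < d := by omega
  have hd' : (0 : ℝ) < d := Nat.cast_pos.2 hd0
  have hG' : Gep σ.pre := (gep_iff σ).1 hG
  have hmap : ∀ (g : Gd d) {S : Set ℝ} {X : MF (lg a d W hW)}, Gen σ.pre.P S X →
      Gen σ.pre.P {s | s - (th d g / d : ℝ) ∈ S} (X.ts g 1 (one_mul 1)) := by
    intro g S X hX
    exact σ.pre.Gen_map (Φ := fun X => X.ts g 1 (one_mul 1)) (fun X h => ts_isZero g X h)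
      (fun Δ hΔ => ts_dist' g Δ hΔ) (fun φ X h => ((hG'.comp hd0 g).1 φ X).2 h) hX
  have hiso : ∀ {S : Set ℝ} {X Y : MF (lg a d W hW)}, Nonempty (X ≅ Y) → Gen σ.pre.P S X →
      Gen σ.pre.P S Y := fun e h => Gen.ofIso e.some h
  refine ⟨⟨Gen σ.pre.P (Set.Ioi 0), ?_, ?_, ?_, ?_, ?_⟩, ?_, ?_⟩
  · intro X Y h hX
    exact hiso (heq_iff.1 h) hX
  · intro X hX
    refine hiso ((s1_iso X).map Iso.symm) ((Gen.shift_one σ.pre hX).mono ?_)
    intro s (hs : 0 < s - 1)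
    exact (by linarith : 0 < s)
  · intro X
    obtain ⟨A, B, f, g, h, hT, hA, hB⟩ := σ.pre.exists_tr 0 X
    refine ⟨A, B, tri_iff.2 ⟨f, g, h, hT⟩, hA, fun Y hY => zn_iff.2 fun f => ?_⟩
    exact Gen.hom_zero σ.pre (fun x (hx : 0 < x) y (hy : y ≤ 0) => by linarith) hY hB f
  · intro X
    obtain ⟨x, y, hX⟩ := σ.pre.exists_bound X
    obtain ⟨k, hk⟩ := exists_int_gt (-x)
    refine ⟨k, hiso ((sk_iso X k).map Iso.symm) ((hmap (k • sig d) hX).mono ?_)⟩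
    rintro s ⟨hs, _⟩
    have e : ((th d (k • sig d) : ℤ) : ℝ) / d = k := by
      rw [th_zsmul, th_sig]; push_cast; field_simp
    rw [e] at hs
    exact (by linarith : 0 < s)
  · intro X
    obtain ⟨x, y, hX⟩ := σ.pre.exists_bound X
    obtain ⟨k, hk⟩ := exists_int_lt (-y)
    refine ⟨k, fun Y hY => zn_iff.2 fun f => ?_⟩
    refine Gen.hom_zero σ.pre ?_ hY (hiso ((sk_iso X k).map Iso.symm) (hmap (k • sig d) hX)) f
    rintro s (hs : 0 < s) t ⟨_, ht⟩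
    have e : ((th d (k • sig d) : ℤ) : ℝ) / d = k := by
      rw [th_zsmul, th_sig]; push_cast; field_simp
    rw [e] at ht
    linarith
  · intro X hX
    refine (hmap (tau d) hX).mono ?_
    intro s (hs : 0 < s - _)
    have h1 : (0 : ℝ) ≤ ((th d (tau d) : ℤ) : ℝ) / d := by
      rw [th_tau]; positivity
    exact (by linarith : 0 < s)
  · intro X h1 h2 h0
    have h3 : Gen σ.pre.P (Set.Iic 0) (X.ts (-tau d) 1 (one_mul 1)) :=
      Gen.of_ro σ.pre fun Y hY => zn_iff.1 (h2 Y hY)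
    have h4 : Gen σ.pre.P (Set.Iic (2 / d : ℝ)) X := by
      have h5 := hmap (tau d) h3
      refine (hiso (ts_ts_iso' X (tau d)) h5).mono ?_
      intro s (hs : s - _ ≤ 0)
      have e : ((th d (tau d) : ℤ) : ℝ) / d = 2 / d := by
        rw [th_tau]; push_cast; rfl
      rw [e] at hs
      exact (by linarith : s ≤ 2 / d)
    have h5 := σ.pre.gen_inter h1 h4
    have h8 : (2 : ℝ) / d < 1 := by
      rw [div_lt_one hd']
      exact_mod_cast (by omega : 2 < d)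
    rcases σ.pre.ph h8 h5 with h6 | h6
    · exact absurd (null_iff.2 h6) h0
    · have h7 : σ.pre.Z X = ZG X := hZ X
      rw [h7] at h6
      have h9 := (ph_arg h8.le).1 h6
      exact ⟨h9.1, h9.2.trans (le_of_eq (by ring))⟩

end Pool.Agent.Helper445_GMF
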