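import Pool.Agent.Helper445_GMF.Dua
import Pool.Agent.Helper445_GMF.TS4

/-!
Binary quintics: the grading group and matrix factorizations of rank one.
-/

set_option autoImplicit false
set_option linter.unusedSectionVars false

open CategoryTheory Matrix Pretriangulated Triangulated Limits MvPolynomial ZeroObject

namespace Pool.Agent.Helper445_GMF

/-- the weights -/
abbrev a2 : Fin 2 → ℕ := fun _ => 1

/-- the element of the grading group with the given degree -/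
def zz (m : ℤ) : Gd 5 := ⟨(m, (m : ZMod 2)), by
  show ((m : ℤ) : ZMod 2) = ((5 : ℕ) : ZMod 2) * (m : ZMod 2)
  have : ((5 : ℕ) : ZMod 2) = 1 := by decide
  rw [this, one_mul]⟩

theorem th_zz (m : ℤ) : th 5 (zz m) = m := rfl

theorem gext {g h : Gd 5} (e : th 5 g = th 5 h) : g = h := by
  have h5 : ((5 : ℕ) : ZMod 2) = 1 := by decide
  have h1 : ((g.1.1 : ℤ) : ZMod 2) = ((5 : ℕ) : ZMod 2) * g.1.2 := g.2
  have h2 : ((h.1.1 : ℤ) : ZMod 2) = ((5 : ℕ) : ZMod 2) * h.1.2 := h.2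
  rw [h5, one_mul] at h1 h2
  have e' : g.1.1 = h.1.1 := e
  ext
  · exact e'
  · rw [← h1, ← h2, e']

theorem th5_add (g h : Gd 5) : th 5 (g + h) = th 5 g + th 5 h := rfl
theorem th5_neg (g : Gd 5) : th 5 (-g) = - th 5 g := rfl
theorem th5_sub (g h : Gd 5) : th 5 (g - h) = th 5 g - th 5 h := rfl
theorem th5_zero : th 5 0 = 0 := rfl
theorem th5_sig : th 5 (sig 5) = 5 := rfl
theorem th5_tau : th 5 (tau 5) = 2 := rfl
theorem th5_zsmul (k : ℤ) (g : Gd 5) : th 5 (k • g) = k * th 5 g := th_zsmul k g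

theorem eq_zz (g : Gd 5) : g = zz (th 5 g) := gext rfl

theorem zz_add (m k : ℤ) : zz (m + k) = zz m + zz k := gext rfl
theorem tau_zz : tau 5 = zz 2 := gext rfl
theorem sig_zz : sig 5 = zz 5 := gext rfl
theorem wt_zz (i : Fin 2) : wt a2 5 i = zz 2 := by
  show (1 : ℕ) • tau 5 = zz 2
  rw [one_smul]
  exact gext rfl

/-- degrees of the monomials -/
theorem deg_eq {p : MvPolynomial (Fin 2) ℂ} {g : Gd 5}
    (hp : IsWeightedHomogeneous (wt a2 5) p g) {m : Fin 2 →₀ ℕ} (hm : coeff m p ≠ 0) :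
    th 5 g = 2 * (Finsupp.weight a2 m : ℤ) := by
  have h1 := hp hm
  rw [weight_wt] at h1
  rw [← h1]
  show ((Finsupp.weight a2 m) • tau 5).1.1 = _
  simp [tau]
  ring

theorem hom_zero5 {p : MvPolynomial (Fin 2) ℂ} {g : Gd 5}
    (hp : IsWeightedHomogeneous (wt a2 5) p g) (h : th 5 g < 0 ∨ th 5 g % 2 = 1) : p = 0 := by
  ext m
  rw [coeff_zero]
  by_contra hc
  have := deg_eq hp hc
  omega

theorem hom_const5 {p : MvPolynomial (Fin 2) ℂ} {g : Gd 5}
    (hp : IsWeightedHomogeneous (wt a2 5) p g) (h : th 5 g = 0) : p = C (constantCoeff p) := by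
  ext m
  rw [coeff_C]
  split_ifs with h0
  · rw [← h0]; rfl
  · by_contra hc
    have h1 := deg_eq hp hc
    rw [h] at h1
    have h2 : Finsupp.weight a2 m = 0 := by omega
    apply h0
    rw [Finsupp.weight_apply, Finsupp.sum_fintype _ _ (fun i => by simp)] at h2
    simp only [smul_eq_mul, mul_one, Finset.sum_eq_zero_iff] at h2
    ext i
    exact (h2 i (Finset.mem_univ i)).symm

theorem sc_Hg {L : LG} {g h : Fin 1 → L.G} {c : L.G} {x : L.A} (hx : x ∈ L.pc (h 0 - g 0 + c)) :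
    x • (1 : Matrix (Fin 1) (Fin 1) L.A) ∈ Hg g h c := by
  intro i j
  fin_cases i
  fin_cases j
  simpa using hx

theorem one_Hg1 {L : LG} {g h : Fin 1 → L.G} {c : L.G} (e : h 0 - g 0 + c = 0) :
    (1 : Matrix (Fin 1) (Fin 1) L.A) ∈ Hg g h c := by
  intro i j
  fin_cases i
  fin_cases j
  show (1 : Matrix (Fin 1) (Fin 1) L.A) 0 0 ∈ L.pc (h 0 - g 0 + c)
  rw [e]
  simpa using SetLike.one_mem_graded L.pc

variable {W : MvPolynomial (Fin 2) ℂ}

/-- a factorization of `W` -/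
structure Fac (hW : IsWeightedHomogeneous a2 W 5) (k : ℤ) where
  /-- the first factor -/
  f : MvPolynomial (Fin 2) ℂ
  /-- the second factor -/
  h : MvPolynomial (Fin 2) ℂ
  hf : IsWeightedHomogeneous (wt a2 5) f (zz (2 * k))
  hh : IsWeightedHomogeneous (wt a2 5) h (zz (10 - 2 * k))
  e : f * h = W

variable {hW : IsWeightedHomogeneous a2 W 5} {k : ℤ}

theorem Fac.ok (F : Fac hW k) : OK (lg a2 5 W hW) [(F.f, F.h, zz (2 * k))] := by
  intro p hp
  rw [List.mem_singleton] at hp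
  subst hp
  refine ⟨F.hf, ?_⟩
  have e : sig 5 + sig 5 - zz (2 * k) = zz (10 - 2 * k) := gext rfl
  exact LG.mem_of_eq (L := lg a2 5 W hW) F.hh e.symm

theorem Fac.sum (F : Fac hW k) : ([(F.f, F.h, zz (2 * k))].map
    fun p : (lg a2 5 W hW).A × (lg a2 5 W hW).A × (lg a2 5 W hW).G => p.1 * p.2.1).sum =
    (lg a2 5 W hW).W := by
  show F.f * F.h + 0 = W
  rw [add_zero, F.e]

/-- the matrix factorization of rank one -/
noncomputable abbrev Fac.E (F : Fac hW k) (m : ℤ) : MF (lg a2 5 W hW) :=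
  kos (L := lg a2 5 W hW) (fun _ : Fin 1 => zz m) [(F.f, F.h, zz (2 * k))] F.ok F.sum

theorem Fac.E_ts (F : Fac hW k) (m r : ℤ) :
    Nonempty ((F.E m).ts (zz r) 1 (one_mul 1) ≅ F.E (m + r)) := by
  have h := kos_ts (L := lg a2 5 W hW) [(F.f, F.h, zz (2 * k))] F.ok F.sum
    (fun _ : Fin 1 => zz m) (zz r)
  rw [← zz_add] at h
  exact h

theorem Fac.gl (F : Fac hW k) (m : ℤ) (i : Fin 1) : th 5 ((F.E m).g (Sum.inl i)) = m := rfl

theorem Fac.gr (F : Fac hW k) (m : ℤ) (i : Fin 1) :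
    th 5 ((F.E m).g (Sum.inr i)) = m + 5 - 2 * k := by
  show th 5 (zz m + -zz (2 * k) + (1 : ℤ) • sig 5) = _
  rw [th5_add, th5_add, th5_neg, th5_zsmul, th_zz, th_zz, th5_sig]
  ring

end Pool.Agent.Helper445_GMF
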