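import Pool.Agent.Helper445_GMF.Qn9

/-!
Binary quintics: central charges.
-/

set_option autoImplicit false
set_option linter.unusedSectionVars false

open CategoryTheory Matrix Pretriangulated Triangulated Limits MvPolynomial ZeroObject

namespace Pool.Agent.Helper445_GMF

/-- the tenth roots of unity -/
noncomputable def e5 (n : ℤ) : ℂ := Complex.exp (Real.pi * Complex.I * (n : ℂ) / 5)

theorem e5_add (m n : ℤ) : e5 (m + n) = e5 m * e5 n := by
  rw [e5, e5, e5, ← Complex.exp_add]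
  congr 1
  push_cast
  ring

theorem e5_zero : e5 0 = 1 := by simp [e5]

theorem e5_five : e5 5 = -1 := by
  rw [e5, ← Complex.exp_pi_mul_I]
  congr 1
  push_cast
  ring

theorem e5_im (n : ℤ) : (e5 n).im = Real.sin (Real.pi * n / 5) := by
  have : Real.pi * Complex.I * (n : ℂ) / 5 = ((Real.pi * n / 5 : ℝ) : ℂ) * Complex.I := by
    push_cast; ring
  rw [e5, this, Complex.exp_ofReal_mul_I_im]

theorem e5_re (n : ℤ) : (e5 n).re = Real.cos (Real.pi * n / 5) := by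
  have : Real.pi * Complex.I * (n : ℂ) / 5 = ((Real.pi * n / 5 : ℝ) : ℂ) * Complex.I := by
    push_cast; ring
  rw [e5, this, Complex.exp_ofReal_mul_I_re]

theorem zeta_prim : IsPrimitiveRoot (e5 2) 5 := by
  have h := Complex.isPrimitiveRoot_exp 5 (by norm_num)
  have e : Complex.exp (2 * Real.pi * Complex.I / ((5 : ℕ) : ℂ)) = e5 2 := by
    rw [e5]
    congr 1
    push_cast
    ring
  rwa [e] at h

theorem zeta_deg : (minpoly ℚ (e5 2)).natDegree = 4 := by
  rw [← Polynomial.cyclotomic_eq_minpoly_rat zeta_prim (by norm_num),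
    Polynomial.natDegree_cyclotomic]
  decide

theorem exists_lam : ∃ l : ℂ →ₗ[ℚ] ℚ, l (e5 2 ^ 0) = 2 ∧ l (e5 2 ^ 1) = 6 ∧ l (e5 2 ^ 2) = -4 ∧
    l (e5 2 ^ 3) = -3 := by
  have hli := linearIndependent_pow (K := ℚ) (e5 2)
  rw [zeta_deg] at hli
  let f := (Module.Basis.span hli).constr ℚ (![2, 6, -4, -3] : Fin 4 → ℚ)
  obtain ⟨g, hg⟩ := LinearMap.exists_extend f
  have h : ∀ i : Fin 4, g (e5 2 ^ (i : ℕ)) = (![2, 6, -4, -3] : Fin 4 → ℚ) i := by
    intro i
    have h1 : ((Module.Basis.span hli) i : ℂ) = e5 2 ^ (i : ℕ) := by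
      rw [Module.Basis.span_apply]
    rw [← h1]
    have h2 := LinearMap.congr_fun hg ((Module.Basis.span hli) i)
    have h3 : g ((Module.Basis.span hli) i : ℂ) = f ((Module.Basis.span hli) i) := h2
    rw [h3]
    exact (Module.Basis.span hli).constr_basis ℚ _ i
  exact ⟨g, h 0, h 1, h 2, h 3⟩

theorem zeta_sum : 1 + e5 2 + e5 2 ^ 2 + e5 2 ^ 3 + e5 2 ^ 4 = 0 := by
  have h := zeta_prim.geom_sum_eq_zero (by norm_num)
  simp only [Finset.sum_range_succ, Finset.sum_range_zero, pow_zero, pow_one] at h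
  linear_combination h

theorem zeta5 : e5 2 ^ 5 = 1 := zeta_prim.pow_eq_one

theorem e5_two_mul (n : ℕ) : e5 (2 * n) = e5 2 ^ n := by
  induction n with
  | zero => simp [e5_zero]
  | succ n ih =>
    rw [pow_succ, ← ih, ← e5_add]
    congr 1

theorem e5_shift (m : ℤ) : e5 (m + 5) = - e5 m := by
  rw [e5_add, e5_five]; ring

theorem e5_1 : e5 1 = - e5 2 ^ 3 := by
  have h1 := e5_two_mul 3
  have h2 := e5_shift 1
  norm_num at h1 h2
  rw [← h1, h2, neg_neg]

theorem e5_3 : e5 3 = - e5 2 ^ 4 := by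
  have h1 := e5_two_mul 4
  have h2 := e5_shift 3
  norm_num at h1 h2
  rw [← h1, h2, neg_neg]

theorem e5_4 : e5 4 = e5 2 ^ 2 := by
  have h1 := e5_two_mul 2
  norm_num at h1
  exact h1

theorem e5_6 : e5 6 = e5 2 ^ 3 := by
  have h1 := e5_two_mul 3
  norm_num at h1
  exact h1

theorem e5_8 : e5 8 = e5 2 ^ 4 := by
  have h1 := e5_two_mul 4
  norm_num at h1
  exact h1

theorem e5_m1 : e5 (-1) = - e5 2 ^ 2 := by
  have h2 := e5_shift (-1)
  norm_num at h2
  rw [← e5_4, h2, neg_neg]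

theorem e5_m2 : e5 (-2) = e5 2 ^ 4 := by
  have h2 := e5_shift (-2)
  norm_num at h2
  rw [e5_3] at h2
  exact (neg_inj.1 h2).symm

theorem e5_m4 : e5 (-4) = e5 2 ^ 3 := by
  have h2 := e5_shift (-4)
  norm_num at h2
  rw [e5_1] at h2
  exact (neg_inj.1 h2).symm

variable {W : MvPolynomial (Fin 2) ℂ} {hW : IsWeightedHomogeneous a2 W 5}

theorem ZG_th (E : MF (lg a2 5 W hW)) : ZG E = ∑ i, e5 (th 5 (E.g i)) := by
  unfold ZG e5 th
  push_cast
  rfl

theorem ZG_Kk (m : ℤ) : ZG (Kk hW m) = e5 m + e5 (m + 3) + (e5 (m + 3) + e5 (m + 6)) := by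
  rw [ZG_th]
  show ∑ i : (Fin 1 ⊕ Fin 1) ⊕ (Fin 1 ⊕ Fin 1), e5 (th 5 ((Kk hW m).g i)) = _
  rw [Fintype.sum_sum_type, Fintype.sum_sum_type, Fintype.sum_sum_type]
  simp only [Finset.univ_unique, Finset.sum_singleton]
  exact congrArg₂ (· + ·) (congrArg₂ (· + ·) (congrArg e5 (Kk_g1 (hW := hW) m 0))
    (congrArg e5 (Kk_g2 (hW := hW) m 0)))
    (congrArg₂ (· + ·) (congrArg e5 (Kk_g3 (hW := hW) m 0)) (congrArg e5 (Kk_g4 (hW := hW) m 0)))

theorem ZG_E (F : Fac hW 1) (m : ℤ) : ZG (F.E m) = e5 m + e5 (m + 3) := by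
  rw [ZG_th]
  show ∑ i : Fin 1 ⊕ Fin 1, e5 (th 5 ((F.E m).g i)) = _
  rw [Fintype.sum_sum_type]
  simp only [Finset.univ_unique, Finset.sum_singleton]
  exact congrArg₂ (· + ·) (congrArg e5 (F.gl m 0)) (congrArg e5 ((F.gr m 0).trans (by ring)))

theorem Qd.tlt (Q : Qd hW) (hs : ∀ x : Fin 2 → ℂ, (∀ i, eval x (pderiv i W) = 0) → x = 0) :
    ∃ lam : ℂ →+ ℚ, Tlt Q.S ZG lam := by
  obtain ⟨l, h0, h1, h2, h3⟩ := exists_lam
  have h4 : l (e5 2 ^ 4) = -1 := by
    have := congrArg l zeta_sum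
    rw [map_add, map_add, map_add, map_add, map_zero, h2, h3] at this
    rw [pow_zero] at h0
    rw [pow_one] at h1
    rw [h0, h1] at this
    linarith
  rw [pow_zero] at h0
  rw [pow_one] at h1
  refine ⟨l.toAddMonoidHom, Q.smc, Q.gen hs,
    fun T hT => ZG_add (fun _ => by norm_num) (by norm_num) T hT, ?_⟩
  have hl : ∀ z, l.toAddMonoidHom z = l z := fun _ => rfl
  rintro (i | p)
  · rw [hl]
    show l (ZG (Kk hW (rr i + 5 * 0))) = 1
    rw [ZG_Kk, map_add, map_add, map_add]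
    fin_cases i
    · norm_num [rr]
      rw [e5_five, e5_8, h1, h4, map_neg, h0]
      norm_num
    · norm_num [rr]
      rw [e5_zero, e5_3, e5_6, h0, h3, map_neg, h4]
      norm_num
    · norm_num [rr]
      rw [e5_m2, e5_1, e5_4, h4, h2, map_neg, h3]
      norm_num
  · rw [hl]
    show l (ZG ((Q.F p).E (-4 + 5 * 0))) = 1
    rw [ZG_E, map_add]
    norm_num
    rw [e5_m4, e5_m1, map_neg, h2, h3]
    norm_num

end Pool.Agent.Helper445_GMF
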