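import Pool.Agent.Helper445_GMF.Qn10

/-!
Binary quintics: the torsion pair and the twists.
-/

set_option autoImplicit false
set_option linter.unusedSectionVars false

open CategoryTheory Matrix Pretriangulated Triangulated Limits MvPolynomial ZeroObject

namespace Pool.Agent.Helper445_GMF

theorem sin1_pos : 0 < Real.sin (Real.pi / 5) :=
  Real.sin_pos_of_pos_of_lt_pi (by positivity) (by linarith [Real.pi_pos])

theorem sin2_gt : Real.sin (Real.pi / 5) < Real.sin (2 * Real.pi / 5) :=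
  Real.sin_lt_sin_of_lt_of_le_pi_div_two (by linarith [Real.pi_pos]) (by linarith [Real.pi_pos])
    (by linarith [Real.pi_pos])

theorem sin2_lt : Real.sin (2 * Real.pi / 5) < 2 * Real.sin (Real.pi / 5) := by
  have h : 2 * Real.pi / 5 = 2 * (Real.pi / 5) := by ring
  rw [h, Real.sin_two_mul]
  have h1 : Real.cos (Real.pi / 5) < 1 := by
    rw [← Real.cos_zero]
    exact Real.cos_lt_cos_of_nonneg_of_le_pi (by norm_num) (by linarith [Real.pi_pos])
      (by linarith [Real.pi_pos])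
  nlinarith [sin1_pos]

theorem cos2_lt : Real.cos (2 * Real.pi / 5) < 1 := by
  rw [← Real.cos_zero]
  exact Real.cos_lt_cos_of_nonneg_of_le_pi (by norm_num) (by linarith [Real.pi_pos])
    (by linarith [Real.pi_pos])

theorem im_2 : (e5 2).im = Real.sin (2 * Real.pi / 5) := by
  rw [e5_im]; congr 1; push_cast; ring

theorem im_3 : (e5 3).im = Real.sin (2 * Real.pi / 5) := by
  rw [e5_im, ← Real.sin_pi_sub]; congr 1; push_cast; ring

theorem im_1 : (e5 1).im = Real.sin (Real.pi / 5) := by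
  rw [e5_im]; congr 1; push_cast; ring

theorem im_4 : (e5 4).im = Real.sin (Real.pi / 5) := by
  rw [e5_im, ← Real.sin_pi_sub]; congr 1; push_cast; ring

theorem im_m1 : (e5 (-1)).im = - Real.sin (Real.pi / 5) := by
  rw [e5_im, ← Real.sin_neg]; congr 1; push_cast; ring

theorem im_5 : (e5 5).im = 0 := by rw [e5_five]; simp

theorem im_6 : (e5 6).im = - Real.sin (Real.pi / 5) := by
  have := e5_shift 1
  norm_num at this
  rw [this, Complex.neg_im, im_1]

theorem im_0 : (e5 0).im = 0 := by rw [e5_zero]; simp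

theorem im_8 : (e5 8).im = - Real.sin (2 * Real.pi / 5) := by
  have := e5_shift 3
  norm_num at this
  rw [this, Complex.neg_im, im_3]

theorem im_m2 : (e5 (-2)).im = - Real.sin (2 * Real.pi / 5) := by
  rw [e5_im, ← Real.sin_neg]; congr 1; push_cast; ring

variable {W : MvPolynomial (Fin 2) ℂ} {hW : IsWeightedHomogeneous a2 W 5} (Q : Qd hW)

theorem Qd.hp_letter (i : Fin 3) : Hp 0 (ZG (Q.S (Sum.inl i) 0)) := by
  have h1 := sin1_pos
  have h2 := sin2_gt
  have h3 := sin2_lt
  show Hp 0 (ZG (Kk hW (rr i + 5 * 0)))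
  rw [ZG_Kk, hp_zero]
  fin_cases i
  · right
    norm_num [rr]
    have e8 : e5 8 = e5 (-2) := by rw [e5_8, e5_m2]
    constructor
    · rw [im_2, im_5, im_8]; ring
    · rw [e5_five, e8, e5_re, e5_re]
      have e1 : Real.pi * ((2 : ℤ) : ℝ) / 5 = 2 * Real.pi / 5 := by push_cast; ring
      have e2 : Real.pi * ((-2 : ℤ) : ℝ) / 5 = -(2 * Real.pi / 5) := by push_cast; ring
      rw [e1, e2, Real.cos_neg]
      have := cos2_lt
      simp
      linarith
  · left
    norm_num [rr]
    rw [im_0, im_3, im_6]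
    linarith
  · left
    norm_num [rr]
    rw [im_m2, im_1, im_4]
    linarith

variable {Q} {lam : ℂ →+ ℚ} (H : Tlt Q.S ZG lam)

include H

theorem tor_K (i : Fin 3) (a : ℤ) (ha : a = rr i) : Tor Q.S ZG (Kk hW a) := by
  have h := H.tor_letter (Sum.inl i) (Q.hp_letter i)
  have e : rr i + 5 * 0 = a := by rw [ha]; ring
  have h2 : Tor Q.S ZG (Kk hW (rr i + 5 * 0)) := h
  rwa [e] at h2

theorem gens_tor {B : MF (lg a2 5 W hW)} (hB : Red0 B) (h : Ro (Tor Q.S ZG) B) (j : B.I) :
    th 5 (B.g j) ≠ 8 ∧ th 5 (B.g j) ≠ 6 ∧ th 5 (B.g j) ≠ 4 := by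
  refine ⟨fun hj => ?_, fun hj => ?_, fun hj => ?_⟩
  · obtain ⟨f, hf⟩ := hom_K hB hj
    exact hf (h _ (tor_K H 0 _ (by norm_num [rr])) f)
  · obtain ⟨f, hf⟩ := hom_K hB hj
    exact hf (h _ (tor_K H 1 _ (by norm_num [rr])) f)
  · obtain ⟨f, hf⟩ := hom_K hB hj
    exact hf (h _ (tor_K H 2 _ rfl) f)

omit H in
theorem chi5 (g : Gd 5) : chi 5 g = if th 5 g % 2 = 0 then 1 else -1 := by
  have h5 : ((5 : ℕ) : ZMod 2) = 1 := by decide
  have h1 : ((g.1.1 : ℤ) : ZMod 2) = ((5 : ℕ) : ZMod 2) * g.1.2 := g.2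
  rw [h5, one_mul] at h1
  unfold chi
  rw [← h1]
  have h2 : ((g.1.1 : ℤ) : ZMod 2) = 0 ↔ th 5 g % 2 = 0 := by
    rw [ZMod.intCast_zmod_eq_zero_iff_dvd]
    show ((2 : ℕ) : ℤ) ∣ th 5 g ↔ _
    omega
  simp only [h2]

omit H in
/-- the ranks of the two parts of a matrix factorization agree, on the level of matrices -/
theorem chi_aux {I : Type} [Fintype I] (c : I → ℂ) (D : Matrix I I (MvPolynomial (Fin 2) ℂ))
    (w : MvPolynomial (Fin 2) ℂ) (h1 : ∀ i j, c j • D i j = -(c i • D i j))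
    (h2 : ∀ i, ∑ j, D i j * D j i = w) (hw : w ≠ 0) : ∑ j, c j = 0 := by
  have h0 : ∀ i, c i • w = ∑ j, (c i • D i j) * D j i := by
    intro i
    rw [← h2 i, Finset.smul_sum]
    refine Finset.sum_congr rfl fun j _ => ?_
    rw [smul_mul_assoc]
  have h3 : ∑ i, c i • w = -∑ i, c i • w := by
    calc ∑ i, c i • w
        = ∑ i, ∑ j, (c i • D i j) * D j i := Finset.sum_congr rfl fun i _ => h0 i
      _ = ∑ i, ∑ j, -((c j • D i j) * D j i) := by
          refine Finset.sum_congr rfl fun i _ => Finset.sum_congr rfl fun j _ => ?_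
          rw [h1 i j, neg_mul, neg_neg]
      _ = -∑ j, ∑ i, (c j • D j i) * D i j := by
          rw [Finset.sum_comm, ← Finset.sum_neg_distrib]
          refine Finset.sum_congr rfl fun j _ => ?_
          rw [← Finset.sum_neg_distrib]
          refine Finset.sum_congr rfl fun i _ => ?_
          rw [smul_mul_assoc, smul_mul_assoc, mul_comm (D i j)]
      _ = -∑ i, c i • w := by
          congr 1
          exact Finset.sum_congr rfl fun i _ => (h0 i).symm
  rw [← Finset.sum_smul] at h3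
  have h4 : (∑ j, c j) • w = 0 := self_eq_neg.1 h3
  exact (smul_eq_zero.1 h4).resolve_right hw

omit H in
/-- the ranks of the two parts of a matrix factorization agree -/
theorem chi_sum (hW0 : W ≠ 0) (B : MF (lg a2 5 W hW)) : ∑ j, chi 5 (B.g j) = 0 := by
  refine chi_aux (fun j => chi 5 (B.g j)) B.D W (fun i j => chi_entry (B.hD i j)) ?_ hW0
  intro i
  have := congrFun (congrFun B.sq i) i
  rw [Matrix.mul_apply] at this
  refine this.trans ?_
  show (W • (1 : Matrix B.I B.I (MvPolynomial (Fin 2) ℂ))) i i = W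
  simp

omit H in
theorem im_sum (hW0 : W ≠ 0) (B : MF (lg a2 5 W hW)) (hn : Nonempty B.I)
    (h : ∀ j, th 5 (B.g j) = -1 ∨ th 5 (B.g j) = 1 ∨ th 5 (B.g j) = 2 ∨ th 5 (B.g j) = 3 ∨
      th 5 (B.g j) = 5) : 0 < (ZG B).im := by
  have h1 := sin1_pos
  have h2 := sin2_gt
  set s1 := Real.sin (Real.pi / 5) with hs1
  set s2 := Real.sin (2 * Real.pi / 5) with hs2
  have h3 : ∀ j, (s2 - s1) / 2 + (s2 + s1) / 2 * (chi 5 (B.g j)).re ≤
      (e5 (th 5 (B.g j))).im := by
    intro j
    rw [chi5]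
    rcases h j with h | h | h | h | h
    · rw [h, im_m1]; norm_num; linarith
    · rw [h, im_1]; norm_num; linarith
    · rw [h, im_2]; norm_num; linarith
    · rw [h, im_3]; norm_num; linarith
    · rw [h, im_5]; norm_num; linarith
  have h4 : (ZG B).im = ∑ j, (e5 (th 5 (B.g j))).im := by
    rw [ZG_th, Complex.im_sum]
  have h5 : ∑ j, (chi 5 (B.g j)).re = 0 := by
    rw [← Complex.re_sum, chi_sum hW0 B, Complex.zero_re]
  rw [h4]
  refine lt_of_lt_of_le ?_ (Finset.sum_le_sum fun j _ => h3 j)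
  rw [Finset.sum_add_distrib, ← Finset.mul_sum, h5, mul_zero, add_zero, Finset.sum_const,
    nsmul_eq_mul]
  have : 0 < (Finset.univ : Finset B.I).card := Finset.card_pos.2 ⟨hn.some, Finset.mem_univ _⟩
  have h6 : (0 : ℝ) < (Finset.univ : Finset B.I).card := by exact_mod_cast this
  have h7 : 0 < (s2 - s1) / 2 := by linarith
  positivity

end Pool.Agent.Helper445_GMF
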