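import Pool.Agent.Helper445_GMF.Qn11

/-!
Binary quintics: the aisle is closed under the twist by three halves.
-/

set_option autoImplicit false
set_option linter.unusedSectionVars false

open CategoryTheory Matrix Pretriangulated Triangulated Limits MvPolynomial ZeroObject

namespace Pool.Agent.Helper445_GMF

variable {W : MvPolynomial (Fin 2) ℂ} {hW : IsWeightedHomogeneous a2 W 5}

/-- twisting a triangle back -/
theorem tw_tri {T A B : MF (lg a2 5 W hW)} {r r' : ℤ} (hr : r' = 5 - r)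
    {f : A ⟶ T.ts (zz r) 1 (one_mul 1)}
    {g : T.ts (zz r) 1 (one_mul 1) ⟶ B} {h : B ⟶ A⟦(1 : ℤ)⟧}
    (H : Triangle.mk f g h ∈ distTriang (MF (lg a2 5 W hW))) :
    ∃ (f' : T ⟶ B.ts (-zz r) 1 (one_mul 1))
      (g' : B.ts (-zz r) 1 (one_mul 1) ⟶ A.ts (zz r') 1 (one_mul 1))
      (h' : A.ts (zz r') 1 (one_mul 1) ⟶ T⟦(1 : ℤ)⟧),
      Triangle.mk f' g' h' ∈ distTriang (MF (lg a2 5 W hW)) := by
  obtain ⟨f1, g1, h1, hd⟩ := ts_dist' (-zz r) _ H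
  have R : Triangle.mk g1 h1 (-f1⟦(1 : ℤ)⟧') ∈ distTriang (MF (lg a2 5 W hW)) :=
    rot_of_distTriang _ hd
  obtain ⟨e1⟩ := ts_ts_iso T (zz r)
  obtain ⟨e2⟩ := shift5 (A.ts (-zz r) 1 (one_mul 1))
  obtain ⟨e3⟩ := ts_iso A (a := -zz r) (b := zz 5) (c := zz r') (gext (by
    rw [th5_add, th5_neg, th_zz, th_zz, th_zz, hr]; ring))
  exact ⟨_, _, _, dist_third (dist_first R e1) (e2 ≪≫ e3)⟩

theorem ts_map_iso {X Y : MF (lg a2 5 W hW)} (g : Gd 5) (e : X ≅ Y) :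
    Nonempty (X.ts g 1 (one_mul 1) ≅ Y.ts g 1 (one_mul 1)) :=
  ⟨(tsF (L := lg a2 5 W hW) g 1 (one_mul 1)).mapIso e⟩

variable {Q : Qd hW} {lam : ℂ →+ ℚ} (H : Tlt Q.S ZG lam)

include H

theorem nonempty_gens {B : MF (lg a2 5 W hW)} (hB : Hrt Q.S B) (h0 : ¬ IsZero B) :
    Nonempty B.I := by
  by_contra hc
  rw [not_nonempty_iff] at hc
  refine H.z_ne hB h0 ?_
  rw [ZG_th]
  exact Finset.sum_of_isEmpty _

theorem Qd.m3 {T : MF (lg a2 5 W hW)} (hT : Tor Q.S ZG T) :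
    Ua Q.S ZG (T.ts (zz 3) 1 (one_mul 1)) := by
  obtain ⟨A, B, f, g, h, hd, hC, hB⟩ := H.split0 (Q.dw3 hT.1.1)
  by_cases h0 : IsZero B
  · have : IsIso f := (Triangle.isZero₃_iff_isIso₁ _ hd).1 h0
    exact H.ua_iso (asIso f) hC
  exfalso
  obtain ⟨f', g', h', hd'⟩ := tw_tri (r' := 2) (by norm_num) hd
  have hB' : Dw Q.S 0 (B.ts (-zz 3) 1 (one_mul 1)) :=
    Dw.ex Q.smc hd' hT.1.1 (Q.dw2 (H.ua_dw hC))
  obtain ⟨B0, ⟨e⟩, hR⟩ := exists_red B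
  have hBV : Vw Q.S 1 B0 := Ro_of_iso e hB.1.2
  have hBD : Dw Q.S 0 B0 := hB.1.1.ofIso e
  have hBT : Ro (Tor Q.S ZG) B0 := Ro_of_iso e hB.2
  have hBD' : Dw Q.S 0 (B0.ts (-zz 3) 1 (one_mul 1)) := by
    obtain ⟨e'⟩ := ts_map_iso (-zz 3) e
    exact hB'.ofIso e'
  have hB0 : ¬ IsZero B0 := fun hz => h0 (hz.of_iso e)
  have key : ∀ j, th 5 (B0.g j) = -1 ∨ th 5 (B0.g j) = 1 ∨ th 5 (B0.g j) = 2 ∨
      th 5 (B0.g j) = 3 ∨ th 5 (B0.g j) = 5 := by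
    intro j
    obtain ⟨a, ha⟩ : ∃ a, th 5 (B0.g j) = a := ⟨_, rfl⟩
    obtain ⟨k1, hk1⟩ := mod5 a
    obtain ⟨k2, hk2⟩ := mod5 (a - 3)
    obtain ⟨k3, hk3⟩ := mod5 (a - 6)
    have h1 := Q.gens_ge hR hBD j ha hk1
    have h2 := Q.gens_ge (red_ts hR (-zz 3)) hBD' j (a := a - 3) (by
      show th 5 (B0.g j + -zz 3) = a - 3
      rw [th5_add, th5_neg, ha, th_zz]; ring) hk2
    have h3 := Q.gens_le hR hBV j ha hk3
    have h4 := gens_tor H hR hBT j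
    rw [ha] at h4 ⊢
    omega
  have hH : Hrt Q.S B0 := ⟨hBD, hBV⟩
  have h1 := im_sum Q.W_ne B0 (nonempty_gens H hH hB0) key
  exact hp_neg (hp_zero.2 (Or.inl h1)) (H.fre_hp ⟨hH, hBT⟩ hB0)

end Pool.Agent.Helper445_GMF
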