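import Pool.Agent.Helper445_GMF.Qn12

/-!
Binary quintics: the aisle is closed under the twist by one.
-/

set_option autoImplicit false
set_option linter.unusedSectionVars false

open CategoryTheory Matrix Pretriangulated Triangulated Limits MvPolynomial ZeroObject

namespace Pool.Agent.Helper445_GMF

variable {W : MvPolynomial (Fin 2) ℂ} {hW : IsWeightedHomogeneous a2 W 5}

theorem letter3 (Q : Qd hW) (i : Fin 3 ⊕ Fin 5) (hi : i ≠ Sum.inl 0) (j : Fin 3 ⊕ Fin 5)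
    (f : (Q.S j 0).ts (zz 3) 1 (one_mul 1) ⟶ Q.S i 0) : f = 0 := by
  have hV : Vw Q.S 1 (Q.S i 0) := Vw.letter Q.smc (by norm_num) i
  rcases j with j | p
  · obtain ⟨e⟩ := Kk_ts (hW := hW) (rr j + 5 * 0) 3
    have h1 : Dw Q.S 1 ((Q.S (Sum.inl j) 0).ts (zz 3) 1 (one_mul 1)) := by
      refine Dw.ofIso e.symm ?_
      rcases rr_cases j with h | h | h
      · exact (Q.H_Kk 1 _ (by omega)).1
      · exact (Q.H_Kk 1 _ (by omega)).1
      · exact (Q.H_Kk 1 _ (by omega)).1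
    exact hV _ h1 f
  · obtain ⟨e⟩ := (Q.F p).toFac.E_ts (-4 + 5 * 0) 3
    refine hz_iso (X := (Q.F p).E (-4 + 5 * 0 + 3)) (Y := Q.S i 0) ⟨e⟩ ⟨Iso.refl _⟩ ?_ f
    rcases i with i | q
    · intro f
      refine EK_zero (Q.F p).toFac ?_ f
      have h1 : rr i ≠ 2 := by
        intro h
        apply hi
        have h2 : i = 0 := rr_inj (h.trans rfl)
        rw [h2]
      have h2 := rr_cases i
      omega
    · intro f
      exact EE_zero' (Q.F p).toFac (Q.F q).toFac (by norm_num) (Q.f_ne p) f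

theorem word3 (Q : Qd hW) (i : Fin 3 ⊕ Fin 5) (hi : i ≠ Sum.inl 0) {k : ℤ} {m : ℕ}
    {X : MF (lg a2 5 W hW)} (h : Srt Q.S k m X) (hk : 0 ≤ k)
    (f : X.ts (zz 3) 1 (one_mul 1) ⟶ Q.S i 0) : f = 0 := by
  induction h with
  | nil h0 => exact (ts_isZero _ _ h0).eq_of_src _ _
  | @snoc k k' m A X i' f' g' h' hT hk' hA ih =>
    obtain ⟨f2, g2, h2, hd⟩ := ts_dist' (zz 3) _ hT
    obtain ⟨c, hc⟩ := ex_y2 hd f (ih (hk.trans hk') _)
    have h3 : c = 0 := by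
      rcases lt_or_eq_of_le (hk.trans hk') with h4 | h4
      · have hV : Vw Q.S 1 (Q.S i 0) := Vw.letter Q.smc (by norm_num) i
        exact hV _ ((Q.dw3' i' k').mono h4) c
      · subst h4
        exact letter3 Q i hi i' c
    rw [hc, h3]
    exact comp_zero

/-- an object all of whose variables are null-homotopic is a retract of a Koszul matrix
factorization -/
theorem ret_kos {F : MF (lg a2 5 W hW)} (hR : Red0 F)
    (h : ∀ i, (X i : MvPolynomial (Fin 2) ℂ) • (1 : Matrix F.I F.I (MvPolynomial (Fin 2) ℂ)) ∈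
      N (F.ts (-(wt a2 5 i)) 1 (one_mul 1)) F) {P : MF (lg a2 5 W hW) → Prop}
    (hP : Cls (L := lg a2 5 W hW) P) (hK : ∀ i, P (Kk hW (th 5 (F.g i)))) :
    ∃ (Y : MF (lg a2 5 W hW)) (i : F ⟶ Y) (q : Y ⟶ F), i ≫ q = 𝟙 F ∧ P Y := by
  obtain ⟨i, q, hiq⟩ := ret_tower h (List.finRange 2)
  refine ⟨_, i, q, hiq, ?_⟩
  have h0 : F.D.map (ev (List.finRange 2)) = 0 := by
    ext1 i j
    show ev (List.finRange 2) (F.D i j) = 0
    rw [ev_full, hR i j, map_zero]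
  have hc := chain hW F (List.finRange 2)
  rw [h0] at hc
  obtain ⟨e⟩ := tw_iso_kos (ps hW (List.finRange 2)) (ps_OK hW _) (full_sum (by norm_num) hW) F hc
  refine hP.iso e.symm (Cls.kos (L := lg a2 5 W hW) hP _ _ _ fun i => ?_)
  have h1 := hK i
  obtain ⟨e1⟩ := KK_iso (hW := hW) (th 5 (F.g i))
  have h2 := hP.iso e1.symm h1
  rw [← eq_zz] at h2
  exact h2

theorem cls_ro {B : MF (lg a2 5 W hW)} : Cls (L := lg a2 5 W hW)
    (fun Y : MF (lg a2 5 W hW) => ∀ f : Y ⟶ B, f = 0) where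
  iso e h f := by
    have := h (e.hom ≫ f)
    rw [← cancel_epi e.hom, this, comp_zero]
  zero h f := h.eq_of_src _ _
  ext := by
    intro X Y V f g h H hX hV φ
    obtain ⟨c, hc⟩ := ex_y2 H φ (hX _)
    rw [hc, hV c, comp_zero]

variable {Q : Qd hW} {lam : ℂ →+ ℚ} (H : Tlt Q.S ZG lam)

include H

theorem Qd.m2 {T : MF (lg a2 5 W hW)} (hT : Tor Q.S ZG T) :
    Ua Q.S ZG (T.ts (zz 2) 1 (one_mul 1)) := by
  obtain ⟨A, B, f, g, h, hd, hC, hB⟩ := H.split0 (Q.dw2 hT.1.1)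
  by_cases h0 : IsZero B
  · have : IsIso f := (Triangle.isZero₃_iff_isIso₁ _ hd).1 h0
    exact H.ua_iso (asIso f) hC
  exfalso
  obtain ⟨f', g', h', hd'⟩ := tw_tri (r' := 3) (by norm_num) hd
  obtain ⟨mA, hA⟩ := H.ua_dw hC
  have hB' : Dw Q.S 0 (B.ts (-zz 2) 1 (one_mul 1)) :=
    Dw.ex Q.smc hd' hT.1.1 (Q.dw3 ⟨mA, hA⟩)
  have hBV' : Vw Q.S 1 (B.ts (-zz 2) 1 (one_mul 1)) := Q.vw2 hB.1.2
  obtain ⟨B0, ⟨e⟩, hR⟩ := exists_red B
  have hBV : Vw Q.S 1 B0 := Ro_of_iso e hB.1.2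
  have hBD : Dw Q.S 0 B0 := hB.1.1.ofIso e
  have hBT : Ro (Tor Q.S ZG) B0 := Ro_of_iso e hB.2
  obtain ⟨e'⟩ := ts_map_iso (-zz 2) e
  have hBD' : Dw Q.S 0 (B0.ts (-zz 2) 1 (one_mul 1)) := hB'.ofIso e'
  have hB0 : ¬ IsZero B0 := fun hz => h0 (hz.of_iso e)
  -- the twist is a torsion object
  have hTor : Tor Q.S ZG (B.ts (-zz 2) 1 (one_mul 1)) := by
    obtain ⟨mB, hmB, -⟩ := H.len_ex ⟨hB', hBV'⟩
    obtain ⟨T2, G, a, b, c, hd2, hT2, hG⟩ := H.tors_ex mB _ ⟨hB', hBV'⟩ hmB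
    by_cases hG0 : IsZero G
    · have : IsIso a := (Triangle.isZero₃_iff_isIso₁ _ hd2).1 hG0
      exact H.tor_iso (asIso a) hT2
    exfalso
    obtain ⟨i, φ, hφ⟩ := H.top hG.1 hG0
    have h1 : b ≫ φ ≠ 0 := by
      intro hz
      obtain ⟨c', hc'⟩ := ex_y3 hd2 φ hz
      have hV : Vw Q.S 1 (Q.S i 0) := Vw.letter Q.smc (by norm_num) i
      apply hφ
      rw [hc', hV _ (by simpa using hT2.1.1.sh1 Q.smc) c', comp_zero]
    have h2 : f' ≫ (b ≫ φ) = 0 := by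
      rw [← Category.assoc, hG.2 T hT (f' ≫ b), zero_comp]
    obtain ⟨c', hc'⟩ := ex_y2 hd' _ h2
    by_cases hi : i = Sum.inl 0
    · subst hi
      have h3 : e'.inv ≫ (b ≫ φ) ≠ 0 := by
        intro hz
        apply h1
        rw [← cancel_epi e'.inv, hz, comp_zero]
      apply h3
      refine K_hom_zero (red_ts hR (-zz 2)) (fun j hj => ?_) _
      have h4 := gens_tor H hR hBT j
      have h5 : th 5 (B0.g j + -zz 2) = rr 0 + 5 * 0 := hj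
      rw [th5_add, th5_neg, th_zz] at h5
      have h6 : rr 0 = 2 := rfl
      omega
    · apply h1
      rw [hc', word3 Q i hi hA le_rfl c', comp_zero]
  have hTor0 : Tor Q.S ZG (B0.ts (-zz 2) 1 (one_mul 1)) := H.tor_iso e' hTor
  have hX : ∀ i, (X i : MvPolynomial (Fin 2) ℂ) • (1 : Matrix B0.I B0.I
      (MvPolynomial (Fin 2) ℂ)) ∈ N (B0.ts (-(wt a2 5 i)) 1 (one_mul 1)) B0 := by
    intro i
    have h1 : Tor Q.S ZG (B0.ts (-(wt a2 5 i)) 1 (one_mul 1)) := by rw [wt_zz]; exact hTor0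
    have h2 := hBT _ h1 (hm _ (twist_Z (L := lg a2 5 W hW) B0
      (isWeightedHomogeneous_X ℂ (wt a2 5) i)))
    exact hm_eq_zero_iff.1 h2
  obtain ⟨Y, i, q, hiq, hY⟩ := ret_kos hR hX (cls_ro (B := B0)) (fun j => by
    obtain ⟨a, ha⟩ : ∃ a, th 5 (B0.g j) = a := ⟨_, rfl⟩
    rw [ha]
    obtain ⟨k, hk⟩ := mod5 a
    obtain ⟨k2, hk2⟩ := mod5 (a - 2)
    have h1 := Q.gens_ge hR hBD j ha hk
    have h2 := Q.gens_ge (red_ts hR (-zz 2)) hBD' j (a := a - 2) (by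
      show th 5 (B0.g j + -zz 2) = a - 2
      rw [th5_add, th5_neg, ha, th_zz]; ring) hk2
    rcases lt_or_eq_of_le h1 with h3 | h3
    · exact hBV _ ((Q.H_Kk k a hk).1.mono h3)
    · subst h3
      have h4 : a = 2 ∨ a = 0 ∨ a = -2 := by omega
      rcases h4 with h4 | h4 | h4
      · exact hBT _ (tor_K H 0 a h4)
      · exact hBT _ (tor_K H 1 a h4)
      · exact hBT _ (tor_K H 2 a h4))
  apply hB0
  rw [IsZero.iff_id_eq_zero, ← hiq, hY q, comp_zero]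

/-- the aisle is closed under the twist by one -/
theorem Qd.ua2 {X : MF (lg a2 5 W hW)} (hX : Ua Q.S ZG X) :
    Ua Q.S ZG (X.ts (zz 2) 1 (one_mul 1)) := by
  obtain ⟨A, T, f, g, h, hd, hA, hT⟩ := hX
  obtain ⟨f2, g2, h2, hd2⟩ := ts_dist' (zz 2) _ hd
  exact H.ua_ext hd2 (H.ua_of_dw (Q.dw2 hA)) (Qd.m2 H hT)

theorem Qd.ua3 {X : MF (lg a2 5 W hW)} (hX : Ua Q.S ZG X) :
    Ua Q.S ZG (X.ts (zz 3) 1 (one_mul 1)) := by
  obtain ⟨A, T, f, g, h, hd, hA, hT⟩ := hX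
  obtain ⟨f2, g2, h2, hd2⟩ := ts_dist' (zz 3) _ hd
  exact H.ua_ext hd2 (H.ua_of_dw (Q.dw3 hA)) (Qd.m3 H hT)

end Pool.Agent.Helper445_GMF
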