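import Pool.Agent.Helper445_GMF.Qn13

/-!
Binary quintics: the stability condition.
-/

set_option autoImplicit false
set_option linter.unusedSectionVars false

open CategoryTheory Matrix Pretriangulated Triangulated Limits MvPolynomial ZeroObject

namespace Pool.Agent.Helper445_GMF

variable {W : MvPolynomial (Fin 2) ℂ} {hW : IsWeightedHomogeneous a2 W 5} (Q : Qd hW)

theorem Qd.letter_ts (i : Fin 3 ⊕ Fin 5) (k j : ℤ) :
    Nonempty ((Q.S i k).ts (j • sig 5) 1 (one_mul 1) ≅ Q.S i (k + j)) := by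
  have e0 : (j • sig 5 : Gd 5) = zz (5 * j) := gext (by
    rw [th5_zsmul, th5_sig, th_zz]; ring)
  rw [e0]
  rcases i with i | p
  · have h := Kk_ts (hW := hW) (rr i + 5 * k) (5 * j)
    have e1 : rr i + 5 * k + 5 * j = rr i + 5 * (k + j) := by ring
    rw [e1] at h
    exact h
  · have h := (Q.F p).toFac.E_ts (-4 + 5 * k) (5 * j)
    have e1 : -4 + 5 * k + 5 * j = -4 + 5 * (k + j) := by ring
    rw [e1] at h
    exact h

theorem Qd.srt_ts (j : ℤ) {k : ℤ} {m : ℕ} {X : MF (lg a2 5 W hW)} (h : Srt Q.S k m X) :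
    Srt Q.S (k + j) m (X.ts (j • sig 5) 1 (one_mul 1)) := by
  induction h with
  | nil h0 => exact Srt.nil (ts_isZero _ _ h0)
  | @snoc k k' m A X i f' g' h' hT hk hA ih =>
    obtain ⟨f2, g2, h2, hd⟩ := ts_dist' (j • sig 5) _ hT
    obtain ⟨e⟩ := Q.letter_ts i k' j
    exact Srt.snoc i _ _ _ (dist_third hd e) (by omega) ih

theorem Qd.dw_sig (j : ℤ) {t : ℤ} {X : MF (lg a2 5 W hW)} (h : Dw Q.S t X) :
    Dw Q.S (t + j) (X.ts (j • sig 5) 1 (one_mul 1)) := by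
  obtain ⟨m, h⟩ := h
  exact ⟨m, Q.srt_ts j h⟩

theorem Qd.vw_sig (j : ℤ) {t : ℤ} {X : MF (lg a2 5 W hW)} (h : Vw Q.S t X) :
    Vw Q.S (t + j) (X.ts (j • sig 5) 1 (one_mul 1)) := by
  intro Y hY f
  have h1 : Dw Q.S t (Y.ts (-(j • sig 5)) 1 (one_mul 1)) := by
    have := Q.dw_sig (-j) hY
    rw [neg_smul, add_neg_cancel_right] at this
    exact this
  refine hz_of_ts (g := -(j • sig 5)) ?_ f
  exact hz_iso ⟨Iso.refl _⟩ (ts_ts_iso X (j • sig 5)) (h _ h1)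

theorem Qd.word_vw {k : ℤ} {m : ℕ} {X : MF (lg a2 5 W hW)} (h : Srt Q.S k m X) :
    ∃ t, Vw Q.S t X := by
  induction h with
  | nil h0 => exact ⟨0, Ro_zero h0⟩
  | @snoc k k' m A X i f' g' h' hT hk hA ih =>
    obtain ⟨t, ht⟩ := ih
    have h1 : Vw Q.S (k' + 1) (Q.S i k') := Vw.letter Q.smc (by omega) i
    exact ⟨max t (k' + 1), Ro_ext hT (ht.mono (le_max_left _ _)) (h1.mono (le_max_right _ _))⟩

theorem tt_iso (X : MF (lg a2 5 W hW)) {a b c : ℤ} (h : a + b = c) :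
    Nonempty ((X.ts (zz a) 1 (one_mul 1)).ts (zz b) 1 (one_mul 1) ≅
      X.ts (zz c) 1 (one_mul 1)) := by
  subst h
  exact ts_iso X (zz_add a b).symm

theorem neg_zz (a : ℤ) : -zz a = zz (-a) := gext rfl

theorem shiftn5 (X : MF (lg a2 5 W hW)) :
    Nonempty (X⟦(-1 : ℤ)⟧ ≅ X.ts (zz (-5)) 1 (one_mul 1)) := by
  obtain ⟨e1⟩ := shift5 (X.ts (zz (-5)) 1 (one_mul 1))
  obtain ⟨e2⟩ := tt_iso X (a := -5) (b := 5) (c := 0) (by norm_num)
  obtain ⟨e3⟩ := ts_zero X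
  have e4 : (X.ts (zz (-5)) 1 (one_mul 1))⟦(1 : ℤ)⟧ ≅ X := e1 ≪≫ e2 ≪≫ e3
  exact Srt.shiftNeg_iso e4

include Q in
/-- binary quintics have a stability condition of Gepner type -/
theorem Qd.gepner (hs : ∀ x : Fin 2 → ℂ, (∀ i, eval x (pderiv i W) = 0) ↔ x = 0) :
    HasGepner hW := by
  have hs' : ∀ x : Fin 2 → ℂ, (∀ i, eval x (pderiv i W) = 0) → x = 0 := fun x => (hs x).1
  obtain ⟨lam, H⟩ := Q.tlt hs'
  refine crit_mp (fun _ => by norm_num) (by norm_num) hs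
    { U := Ua Q.S ZG
      iso := fun e h => H.ua_iso e h
      m0 := fun X hX => ?_
      tr := fun X => H.ua_tr X
      up := fun X => ?_
      dn := fun X => ?_
      m1 := fun X hX => Qd.ua2 H hX
      pos := fun X hX hV h0 => ?_ }
  · obtain ⟨e⟩ := shift_iso X
    exact H.ua_iso e (H.ua_sh hX)
  · obtain ⟨k, m, hX⟩ := Q.gen hs' X
    refine ⟨1 - k, H.ua_of_dw ?_⟩
    have := Q.dw_sig (1 - k) (t := k) ⟨m, hX⟩
    rwa [add_sub_cancel] at this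
  · obtain ⟨k, m, hX⟩ := Q.gen hs' X
    obtain ⟨t, ht⟩ := Q.word_vw hX
    refine ⟨-t, fun Y hY => ?_⟩
    have := Q.vw_sig (-t) ht
    rw [add_neg_cancel] at this
    exact this Y (H.ua_dw hY)
  · have hV' : Ro (Ua Q.S ZG) (X.ts (zz (-2)) 1 (one_mul 1)) := hV
    -- the object belongs to the heart
    have h1 : Ro (Ua Q.S ZG) (X⟦(-1 : ℤ)⟧) := by
      obtain ⟨e1⟩ := shiftn5 X
      obtain ⟨e2⟩ := tt_iso X (a := -2) (b := -3) (c := -5) (by norm_num)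
      exact Ro_of_iso (e2 ≪≫ e1.symm) (ro_ts (fun _ h => Qd.ua3 H h) hV')
    have h2 : Hp 0 (ZG X) := H.ua_pos hX h1 h0
    -- the twist of the object belongs to the heart
    have h3 : Ro (Ua Q.S ZG) ((X.ts (zz 3) 1 (one_mul 1))⟦(-1 : ℤ)⟧) := by
      obtain ⟨e1⟩ := shiftn5 (X.ts (zz 3) 1 (one_mul 1))
      obtain ⟨e2⟩ := tt_iso X (a := 3) (b := -5) (c := -2) (by norm_num)
      exact Ro_of_iso (e2.symm ≪≫ e1.symm) hV'
    have h4 : ¬ IsZero (X.ts (zz 3) 1 (one_mul 1)) := by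
      intro hz
      obtain ⟨e⟩ := ts_ts_iso X (zz 3)
      exact h0 ((ts_isZero (-zz 3) _ hz).of_iso e.symm)
    have h5 : Hp 0 (ZG (X.ts (zz 3) 1 (one_mul 1))) := H.ua_pos (Qd.ua3 H hX) h3 h4
    have h6 : Ph 0 1 (ZG X) := h2.polar
    have h7 : Ph 0 1 (ZG (X.ts (zz 3) 1 (one_mul 1))) := h5.polar
    have h8 := TS.Ph_ts h7
    rw [th_zz] at h8
    have h9 := Ph.inter h6 h8 (by norm_num) (by norm_num)
    have e : (1 - ((3 : ℤ) : ℝ) / ((5 : ℕ) : ℝ) : ℝ) = 2 / ((5 : ℕ) : ℝ) := by norm_num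
    rwa [e] at h9

end Pool.Agent.Helper445_GMF
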