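import Pool.Agent.Helper445_GMF.Qn

/-!
Binary quintics: triangles between matrix factorizations of rank one.
-/

set_option autoImplicit false
set_option linter.unusedSectionVars false

open CategoryTheory Matrix Pretriangulated Triangulated Limits MvPolynomial ZeroObject

namespace Pool.Agent.Helper445_GMF

section pure

variable {A : Type} [CommRing A] [Algebra ℂ A] {I : Type} [Fintype I] [DecidableEq I]

/-- the differential of a matrix factorization of rank one -/
def rD (f h : A) : Matrix (I ⊕ I) (I ⊕ I) A := fromBlocks 0 (f • 1) ((1 * h) • 1) (-0)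

/-- the connecting map -/
def rP (f : A) : Matrix (I ⊕ I) (I ⊕ I) A := fromBlocks (f • 1) 0 0 1

theorem rP_comm (f g h : A) : rD (I := I) (f * g) h * rP (I := I) g =
    rP (I := I) g * rD (I := I) f (g * h) := by
  rw [rD, rD, rP, fromBlocks_multiply, fromBlocks_multiply]
  congr 1 <;> simp [smul_smul, mul_comm]

/-- the differential of the cone -/
noncomputable def rC (f g h : A) : Matrix ((I ⊕ I) ⊕ (I ⊕ I)) ((I ⊕ I) ⊕ (I ⊕ I)) A :=
  fromBlocks (rD (f * g) h) (rP g) 0 (sgn 1 • rD f (g * h))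

/-- the inclusion -/
def rA (h : A) : Matrix ((I ⊕ I) ⊕ (I ⊕ I)) (I ⊕ I) A :=
  fromRows (fromBlocks 1 0 0 0) (fromBlocks 0 1 (-(h • 1)) 0)

/-- the projection -/
def rB (f : A) : Matrix (I ⊕ I) ((I ⊕ I) ⊕ (I ⊕ I)) A :=
  fromCols (fromBlocks 1 0 0 (f • 1)) (fromBlocks 0 0 1 0)

/-- the homotopy -/
def rS : Matrix ((I ⊕ I) ⊕ (I ⊕ I)) ((I ⊕ I) ⊕ (I ⊕ I)) A :=
  fromBlocks 0 0 (fromBlocks 0 0 0 (-1)) 0

theorem rBA (f h : A) : rB (I := I) f * rA (I := I) h = 1 := by
  rw [rB, rA, fromCols_mul_fromRows, fromBlocks_multiply, fromBlocks_multiply, fromBlocks_add,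
    ← fromBlocks_one]
  congr 1 <;> simp

theorem rA_comm (f g h : A) : rC (I := I) f g h * rA (I := I) h =
    rA (I := I) h * rD (I := I) g (f * h) := by
  rw [rC, rA, rD, rD, rD, rP, fromBlocks_mul_fromRows, fromRows_mul]
  simp only [fromBlocks_multiply, fromBlocks_smul, fromBlocks_add, sgn_one]
  congr 1 <;> congr 1 <;> simp [smul_smul, mul_comm]

theorem rB_comm (f g h : A) : rD (I := I) g (f * h) * rB (I := I) f =
    rB (I := I) f * rC (I := I) f g h := by
  rw [rC, rB, rD, rD, rD, rP, fromCols_mul_fromBlocks, mul_fromCols]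
  simp only [fromBlocks_multiply, fromBlocks_smul, fromBlocks_add, sgn_one]
  congr 1 <;> congr 1 <;> simp [smul_smul, mul_comm]

theorem rS_eq (f g h : A) : rA (I := I) h * rB (I := I) f - 1 =
    rC (I := I) f g h * rS (I := I) + rS (I := I) * rC (I := I) f g h := by
  rw [rC, rA, rB, rS, rD, rD, rP, fromRows_mul_fromCols]
  simp only [fromBlocks_multiply, fromBlocks_smul, fromBlocks_add, sgn_one]
  rw [← fromBlocks_one, blocks_sub]
  congr 1
  · simp [mul_comm]
    rw [← fromBlocks_one, blocks_sub]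
    simp
  · simp
  · simp
  · rw [← fromBlocks_one, blocks_sub]
    simp

end pure

variable {W : MvPolynomial (Fin 2) ℂ} {hW : IsWeightedHomogeneous a2 W 5}

theorem mem5 {x : MvPolynomial (Fin 2) ℂ} {r : ℤ} {g : Gd 5}
    (hx : IsWeightedHomogeneous (wt a2 5) x (zz r)) (h : th 5 g = r) {i j : Fin 1} :
    (lg a2 5 W hW).mem g ((x • (1 : Matrix (Fin 1) (Fin 1) (MvPolynomial (Fin 2) ℂ))) i j) := by
  have e : zz r = g := gext h.symm
  subst e
  fin_cases i
  fin_cases j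
  have e2 : (x • (1 : Matrix (Fin 1) (Fin 1) (MvPolynomial (Fin 2) ℂ))) 0 0 = x := by simp
  show IsWeightedHomogeneous (wt a2 5) ((x • (1 : Matrix (Fin 1) (Fin 1)
    (MvPolynomial (Fin 2) ℂ))) 0 0) (zz r)
  rw [e2]
  exact hx

theorem one5 {g : Gd 5} (h : th 5 g = 0) {i j : Fin 1} :
    (lg a2 5 W hW).mem g ((1 : Matrix (Fin 1) (Fin 1) (MvPolynomial (Fin 2) ℂ)) i j) := by
  have e : g = 0 := gext h
  subst e
  fin_cases i
  fin_cases j
  exact isWeightedHomogeneous_one ℂ (wt a2 5)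

theorem cone_gl {X Y : MF (lg a2 5 W hW)} (f : Matrix Y.I X.I (lg a2 5 W hW).A) (hf : f ∈ Z X Y)
    (i : Y.I) : th 5 ((cone f hf).g (Sum.inl i)) = th 5 (Y.g i) := rfl

theorem cone_gr {X Y : MF (lg a2 5 W hW)} (f : Matrix Y.I X.I (lg a2 5 W hW).A) (hf : f ∈ Z X Y)
    (i : X.I) : th 5 ((cone f hf).g (Sum.inr i)) = th 5 (X.g i) + 5 := by
  show th 5 (X.g i + (1 : ℤ) • sig 5) = _
  rw [th5_add, th5_zsmul, th5_sig, one_mul]

/-- the triangle of a product of two factors -/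
theorem Fac.tri {k₁ k₂ k₃ : ℤ} (F₁ : Fac hW k₁) (F₂ : Fac hW k₂) (F₃ : Fac hW k₃)
    (hk : k₃ = k₁ + k₂) (h3 : F₃.f = F₁.f * F₂.f) (h1 : F₁.h = F₂.f * F₃.h)
    (h2 : F₂.h = F₁.f * F₃.h) (m : ℤ) :
    ∃ (f : F₁.E (m - 2 * k₂) ⟶ F₃.E m) (g : F₃.E m ⟶ F₂.E m)
      (h : F₂.E m ⟶ (F₁.E (m - 2 * k₂))⟦(1 : ℤ)⟧), Triangle.mk f g h ∈
        distTriang (MF (lg a2 5 W hW)) := by
  have hP : rP (I := Fin 1) F₂.f ∈ Z (F₁.E (m - 2 * k₂)) (F₃.E m) := by
    refine ⟨?_, ?_⟩
    · rintro (i | i) (j | j)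
      · refine mem5 F₂.hf ?_
        rw [th5_add, th5_sub, Fac.gl, Fac.gl, th5_zero]
        ring
      · exact Submodule.zero_mem _
      · exact Submodule.zero_mem _
      · refine one5 ?_
        rw [th5_add, th5_sub, Fac.gr, Fac.gr, th5_zero, hk]
        ring
    · have e := rP_comm (I := Fin 1) F₁.f F₂.f F₃.h
      rw [← h3, ← h1] at e
      exact e
  have hd := dist_tri (X := F₁.E (m - 2 * k₂)) (Y := F₃.E m) _ hP
  have hA : rA (I := Fin 1) F₃.h ∈
      Z (F₂.E m) (cone (X := F₁.E (m - 2 * k₂)) (Y := F₃.E m) _ hP) := by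
    refine ⟨?_, ?_⟩
    · rintro ((i | i) | (i | i)) (j | j)
      · refine one5 ?_
        rw [th5_add, th5_sub, cone_gl, Fac.gl, Fac.gl, th5_zero]
        ring
      · exact Submodule.zero_mem _
      · exact Submodule.zero_mem _
      · exact Submodule.zero_mem _
      · exact Submodule.zero_mem _
      · refine one5 ?_
        rw [th5_add, th5_sub, cone_gr, Fac.gl, Fac.gr, th5_zero]
        ring
      · refine Submodule.neg_mem _ (mem5 F₃.hh ?_)
        rw [th5_add, th5_sub, cone_gr, Fac.gr, Fac.gl, th5_zero, hk]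
        ring
      · exact Submodule.zero_mem _
    · have e := rA_comm (I := Fin 1) F₁.f F₂.f F₃.h
      rw [rC, ← h3, ← h1, ← h2] at e
      exact e
  have hB : rB (I := Fin 1) F₁.f ∈
      Z (cone (X := F₁.E (m - 2 * k₂)) (Y := F₃.E m) _ hP) (F₂.E m) := by
    refine ⟨?_, ?_⟩
    · rintro (i | i) ((j | j) | (j | j))
      · refine one5 ?_
        rw [th5_add, th5_sub, cone_gl, Fac.gl, Fac.gl, th5_zero]
        ring
      · exact Submodule.zero_mem _
      · exact Submodule.zero_mem _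
      · exact Submodule.zero_mem _
      · exact Submodule.zero_mem _
      · refine mem5 F₁.hf ?_
        rw [th5_add, th5_sub, cone_gl, Fac.gr, Fac.gr, th5_zero, hk]
        ring
      · refine one5 ?_
        rw [th5_add, th5_sub, cone_gr, Fac.gr, Fac.gl, th5_zero]
        ring
      · exact Submodule.zero_mem _
    · have e := rB_comm (I := Fin 1) F₁.f F₂.f F₃.h
      rw [rC, ← h3, ← h1, ← h2] at e
      exact e
  have hS : rA (I := Fin 1) F₃.h * rB (I := Fin 1) F₁.f - 1 ∈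
      N (cone (X := F₁.E (m - 2 * k₂)) (Y := F₃.E m) _ hP)
        (cone (X := F₁.E (m - 2 * k₂)) (Y := F₃.E m) _ hP) := by
    refine ⟨rS (I := Fin 1), ?_, ?_⟩
    · rintro ((i | i) | (i | i)) ((j | j) | (j | j))
      all_goals try exact Submodule.zero_mem _
      refine Submodule.neg_mem _ (one5 ?_)
      rw [th5_add, th5_sub, cone_gr, cone_gl, Fac.gr, Fac.gr, th5_neg, th5_sig, hk]
      ring
    · have e := rS_eq (I := Fin 1) F₁.f F₂.f F₃.h
      rw [rC, ← h3, ← h1] at e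
      exact e
  have hT : rB (I := Fin 1) F₁.f * rA (I := Fin 1) F₃.h - 1 ∈ N (F₂.E m) (F₂.E m) := by
    rw [rBA, sub_self]
    exact N_zero
  have e : cone (X := F₁.E (m - 2 * k₂)) (Y := F₃.E m) _ hP ≅ F₂.E m :=
    (isoOf _ _ hA hB hT hS).symm
  exact ⟨_, _, _, dist_third hd e⟩

end Pool.Agent.Helper445_GMF
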