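import Pool.Agent.Helper445_GMF.Qn2

/-!
Binary quintics: the Koszul matrix factorization as a cone.
-/

set_option autoImplicit false
set_option linter.unusedSectionVars false

open CategoryTheory Matrix Pretriangulated Triangulated Limits MvPolynomial ZeroObject

namespace Pool.Agent.Helper445_GMF

section pure

variable {A : Type} [CommRing A] [Algebra ℂ A]

/-- the comparison matrix -/
def uU (α β γ δ s : A) : Matrix ((Fin 1 ⊕ Fin 1) ⊕ (Fin 1 ⊕ Fin 1))
    ((Fin 1 ⊕ Fin 1) ⊕ (Fin 1 ⊕ Fin 1)) A :=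
  fromBlocks (fromBlocks 1 0 0 (β • 1)) (fromBlocks 0 0 (δ • 1) 0)
    (fromBlocks 0 (α • 1) (s • 1) 0) (fromBlocks (γ • 1) 0 0 1)

/-- the inverse of the comparison matrix -/
def uV (α β γ δ s : A) : Matrix ((Fin 1 ⊕ Fin 1) ⊕ (Fin 1 ⊕ Fin 1))
    ((Fin 1 ⊕ Fin 1) ⊕ (Fin 1 ⊕ Fin 1)) A :=
  fromBlocks (fromBlocks 1 0 0 (γ • 1)) (fromBlocks 0 0 (-(δ • 1)) 0)
    (fromBlocks 0 (-(α • 1)) (-(s • 1)) 0) (fromBlocks (β • 1) 0 0 1)

/-- the differential of the Koszul matrix factorization -/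
def kD (x y w v : A) : Matrix ((Fin 1 ⊕ Fin 1) ⊕ (Fin 1 ⊕ Fin 1))
    ((Fin 1 ⊕ Fin 1) ⊕ (Fin 1 ⊕ Fin 1)) A :=
  fromBlocks (fromBlocks 0 (y • 1) ((1 * v) • 1) (-0)) (x • 1) ((1 * w) • 1)
    (-fromBlocks 0 (y • 1) ((1 * v) • 1) (-0))

/-- the differential of the tower -/
def tD (f h l : A) : Matrix ((Fin 1 ⊕ Fin 1) ⊕ (Fin 1 ⊕ Fin 1))
    ((Fin 1 ⊕ Fin 1) ⊕ (Fin 1 ⊕ Fin 1)) A :=
  fromBlocks (rD f h) (l • 1) ((0 * 0 : A) • 1) (-rD f h)

theorem uU_comm {α β γ δ s x y w v f h l : A} (hf : f = α * x + β * y) (hl : l = γ * x + δ * y)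
    (hv : v + x * s = β * h) (hw : w - y * s = α * h) (hd : β * γ - α * δ = 1) :
    kD x y w v * uU α β γ δ s = uU α β γ δ s * tD f h l := by
  subst hf hl
  have hv' : v = β * h - x * s := by linear_combination hv
  have hw' : w = α * h + y * s := by linear_combination hw
  subst hv' hw'
  ext i j
  rcases i with ((i | i) | (i | i)) <;> rcases j with ((j | j) | (j | j)) <;> fin_cases i <;>
    fin_cases j <;>
    simp [kD, uU, tD, rD, Matrix.mul_apply, Fintype.sum_sum_type] <;>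
    first
      | ring1
      | linear_combination x * hd
      | linear_combination (-x) * hd
      | linear_combination y * hd
      | linear_combination (-y) * hd
      | linear_combination h * hd
      | linear_combination (-h) * hd

theorem uUV {α β γ δ s : A} (hd : β * γ - α * δ = 1) : uU α β γ δ s * uV α β γ δ s = 1 := by
  ext i j
  rcases i with ((i | i) | (i | i)) <;> rcases j with ((j | j) | (j | j)) <;> fin_cases i <;>
    fin_cases j <;>
    simp [uU, uV, Matrix.mul_apply, Fintype.sum_sum_type, Matrix.one_apply] <;>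
    first
      | ring1
      | linear_combination hd

theorem uVU {α β γ δ s : A} (hd : β * γ - α * δ = 1) : uV α β γ δ s * uU α β γ δ s = 1 := by
  ext i j
  rcases i with ((i | i) | (i | i)) <;> rcases j with ((j | j) | (j | j)) <;> fin_cases i <;>
    fin_cases j <;>
    simp [uU, uV, Matrix.mul_apply, Fintype.sum_sum_type, Matrix.one_apply] <;>
    first
      | ring1
      | linear_combination hd

theorem uV_comm {α β γ δ s x y w v f h l : A} (hf : f = α * x + β * y) (hl : l = γ * x + δ * y)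
    (hv : v + x * s = β * h) (hw : w - y * s = α * h) (hd : β * γ - α * δ = 1) :
    tD f h l * uV α β γ δ s = uV α β γ δ s * kD x y w v := by
  calc tD f h l * uV α β γ δ s = (uV α β γ δ s * uU α β γ δ s) * (tD f h l * uV α β γ δ s) := by
        rw [uVU hd, Matrix.one_mul]
    _ = uV α β γ δ s * ((uU α β γ δ s * tD f h l) * uV α β γ δ s) := by
        simp only [Matrix.mul_assoc]
    _ = uV α β γ δ s * ((kD x y w v * uU α β γ δ s) * uV α β γ δ s) := by
        rw [uU_comm hf hl hv hw hd]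
    _ = uV α β γ δ s * (kD x y w v * (uU α β γ δ s * uV α β γ δ s)) := by
        simp only [Matrix.mul_assoc]
    _ = uV α β γ δ s * kD x y w v := by rw [uUV hd, Matrix.mul_one]

end pure

variable {W : MvPolynomial (Fin 2) ℂ} {hW : IsWeightedHomogeneous a2 W 5}

theorem psum2 (hW : IsWeightedHomogeneous a2 W 5) :
    X 0 * wq hW 0 [1] + X 1 * wq hW 1 [] = W := by
  have h := full_sum (a := a2) (d := 5) (by norm_num) hW
  have e : List.finRange 2 = [0, 1] := by decide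
  rw [e] at h
  have h2 : X 0 * wq hW 0 [1] + (X 1 * wq hW 1 [] + 0) = W := h
  rw [add_zero] at h2
  exact h2

theorem OK2 (hW : IsWeightedHomogeneous a2 W 5) : OK (lg a2 5 W hW) (ps hW [0, 1]) := ps_OK hW _

theorem sum2 (hW : IsWeightedHomogeneous a2 W 5) : ((ps hW [0, 1]).map
    fun p => p.1 * p.2.1).sum = (lg a2 5 W hW).W := by
  show X 0 * wq hW 0 [1] + (X 1 * wq hW 1 [] + 0) = W
  rw [add_zero, psum2]

/-- the Koszul matrix factorization -/
noncomputable abbrev Kk (hW : IsWeightedHomogeneous a2 W 5) (m : ℤ) : MF (lg a2 5 W hW) :=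
  kos (L := lg a2 5 W hW) (fun _ : Fin 1 => zz m) (ps hW [0, 1]) (OK2 hW) (sum2 hW)

theorem kos_congr {L : LG} {I : Type} [Fintype I] [DecidableEq I] (g : I → L.G)
    {l l' : List (L.A × L.A × L.G)} (h : l = l') (hl : OK L l) (hl' : OK L l')
    (hs : (l.map fun p => p.1 * p.2.1).sum = L.W) (hs' : (l'.map fun p => p.1 * p.2.1).sum = L.W) :
    kos g l hl hs = kos g l' hl' hs' := by
  subst h; rfl

theorem KK_eq (hd : 0 < 5) {I : Type} [Fintype I] [DecidableEq I] (g : I → Gd 5) :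
    KK (a := a2) (d := 5) hd hW g =
      kos (L := lg a2 5 W hW) g (ps hW [0, 1]) (OK2 hW) (sum2 hW) :=
  kos_congr (L := lg a2 5 W hW) g (by
    have e : List.finRange 2 = [0, 1] := by decide
    rw [e]) _ _ _ _

theorem Kk_ts (m r : ℤ) :
    Nonempty ((Kk hW m).ts (zz r) 1 (one_mul 1) ≅ Kk hW (m + r)) := by
  have h := kos_ts (L := lg a2 5 W hW) (ps hW [0, 1]) (OK2 hW) (sum2 hW)
    (fun _ : Fin 1 => zz m) (zz r)
  rw [← zz_add] at h
  exact h

theorem Kk_g1 (m : ℤ) (i : Fin 1) : th 5 ((Kk hW m).g (Sum.inl (Sum.inl i))) = m := rfl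

theorem Kk_g2 (m : ℤ) (i : Fin 1) : th 5 ((Kk hW m).g (Sum.inl (Sum.inr i))) = m + 3 := by
  show th 5 (zz m + -(wt a2 5 1) + (1 : ℤ) • sig 5) = _
  rw [wt_zz, th5_add, th5_add, th5_neg, th5_zsmul, th_zz, th_zz, th5_sig]
  ring

theorem Kk_g3 (m : ℤ) (i : Fin 1) : th 5 ((Kk hW m).g (Sum.inr (Sum.inl i))) = m + 3 := by
  show th 5 (zz m + -(wt a2 5 0) + (1 : ℤ) • sig 5) = _
  rw [wt_zz, th5_add, th5_add, th5_neg, th5_zsmul, th_zz, th_zz, th5_sig]
  ring

theorem Kk_g4 (m : ℤ) (i : Fin 1) : th 5 ((Kk hW m).g (Sum.inr (Sum.inr i))) = m + 6 := by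
  show th 5 (zz m + -(wt a2 5 1) + (1 : ℤ) • sig 5 + -(wt a2 5 0) + (1 : ℤ) • sig 5) = _
  rw [wt_zz, wt_zz, th5_add, th5_add, th5_add, th5_add, th5_neg, th5_zsmul, th_zz, th_zz, th5_sig]
  ring

/-- linear factors -/
structure Lin2 (hW : IsWeightedHomogeneous a2 W 5) extends Fac hW 1 where
  /-- the coefficient of `x` -/
  α : ℂ
  /-- the coefficient of `y` -/
  β : ℂ
  ef : f = C α * X 0 + C β * X 1
  ne : ¬ (α = 0 ∧ β = 0)

theorem X_mem2 (i : Fin 2) : IsWeightedHomogeneous (wt a2 5)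
    (X i : MvPolynomial (Fin 2) ℂ) (zz 2) := by
  rw [← wt_zz i]
  exact isWeightedHomogeneous_X ℂ (wt a2 5) i

theorem C_mem2 (c : ℂ) : IsWeightedHomogeneous (wt a2 5)
    (C c : MvPolynomial (Fin 2) ℂ) (zz 0) :=
  isWeightedHomogeneous_C (wt a2 5) c

theorem lin_mem2 (α β : ℂ) : IsWeightedHomogeneous (wt a2 5)
    (C α * X 0 + C β * X 1 : MvPolynomial (Fin 2) ℂ) (zz 2) := by
  have h1 := (C_mem2 α).mul (X_mem2 0)
  have h2 := (C_mem2 β).mul (X_mem2 1)
  rw [← zz_add, zero_add] at h1 h2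
  exact h1.add h2

theorem Lin2.exists_s (F : Lin2 hW) : ∃ s, IsWeightedHomogeneous (wt a2 5) s (zz 6) ∧
    wq hW 1 [] + X 0 * s = C F.β * F.h ∧ wq hW 0 [1] - X 1 * s = C F.α * F.h := by
  have h8 : sig 5 + sig 5 - wt a2 5 1 = zz 8 := by rw [wt_zz]; exact gext rfl
  have hw1 : IsWeightedHomogeneous (wt a2 5) (wq hW 1 []) (zz 8) := h8 ▸ wq_mem hW 1 []
  have hh : IsWeightedHomogeneous (wt a2 5) F.h (zz 8) := F.hh
  have hβ := (C_mem2 F.β).mul hh
  rw [← zz_add, zero_add] at hβ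
  have hp : IsWeightedHomogeneous (wt a2 5) (C F.β * F.h - wq hW 1 []) (zz 8) := by
    have h1 : (C F.β * F.h - wq hW 1 []) ∈
      weightedHomogeneousSubmodule ℂ (wt a2 5) (zz 8) := Submodule.sub_mem _ hβ hw1
    exact h1
  have hW' := psum2 hW
  have e1 : X 0 * (wq hW 0 [1] - C F.α * F.h) = X 1 * (C F.β * F.h - wq hW 1 []) := by
    have := F.e
    rw [F.ef] at this
    linear_combination hW' - this
  obtain ⟨q, hq, hq'⟩ := exists_dv (0 : Fin 2) [] hp
  have h0 : ev [0] (C F.β * F.h - wq hW 1 []) = 0 := by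
    have h1 := congrArg (ev [0]) e1
    rw [map_mul, map_mul, ev_X_of_mem (by simp), ev_X_of_notMem (by simp), zero_mul] at h1
    exact (mul_eq_zero.1 h1.symm).resolve_left (X_ne_zero _)
  rw [ev_nil, h0, zero_add] at hq'
  refine ⟨q, ?_, by linear_combination -hq', ?_⟩
  · have e2 : zz 8 - wt a2 5 0 = zz 6 := by rw [wt_zz]; exact gext rfl
    rw [← e2]
    exact hq
  · rw [hq'] at e1
    have h2 : (X 0 : MvPolynomial (Fin 2) ℂ) * (wq hW 0 [1] - C F.α * F.h) =
      X 0 * (X 1 * q) := by rw [e1]; ring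
    have h3 := mul_left_cancel₀ (X_ne_zero _) h2
    linear_combination h3

end Pool.Agent.Helper445_GMF
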