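import Pool.Agent.Helper445_GMF.Qn3

/-!
Binary quintics: the Koszul triangle, duality and morphisms.
-/

set_option autoImplicit false
set_option linter.unusedSectionVars false

open CategoryTheory Matrix Pretriangulated Triangulated Limits MvPolynomial ZeroObject

namespace Pool.Agent.Helper445_GMF

variable {W : MvPolynomial (Fin 2) ℂ} {hW : IsWeightedHomogeneous a2 W 5}

theorem Kk_D (m : ℤ) : (Kk hW m).D = kD (X 0) (X 1) (wq hW 0 [1]) (wq hW 1 []) := rfl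

theorem tw_D {k : ℤ} (F : Fac hW k) (m : ℤ) (l : MvPolynomial (Fin 2) ℂ)
    (hOK : OK (lg a2 5 W hW) [(l, (0 : MvPolynomial (Fin 2) ℂ), zz 2)]) :
    (tw (F.E m) [(l, (0 : MvPolynomial (Fin 2) ℂ), zz 2)] hOK).D = tD F.f F.h l := rfl

theorem tw_gr {k : ℤ} (F : Fac hW k) (m : ℤ) (l : MvPolynomial (Fin 2) ℂ)
    (hOK : OK (lg a2 5 W hW) [(l, (0 : MvPolynomial (Fin 2) ℂ), zz 2)]) (i : (F.E m).I) :
    th 5 ((tw (F.E m) [(l, (0 : MvPolynomial (Fin 2) ℂ), zz 2)] hOK).g (Sum.inr i)) =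
      th 5 ((F.E m).g i) + 3 := by
  show th 5 ((F.E m).g i + -zz 2 + (1 : ℤ) • sig 5) = _
  rw [th5_add, th5_add, th5_neg, th5_zsmul, th_zz, th5_sig]
  ring

/-- the swap of the two factors -/
theorem Fac.swap {k k' : ℤ} (F : Fac hW k) (F' : Fac hW k') (hk : k' = 5 - k) (h1 : F'.f = F.h)
    (h2 : F'.h = F.f) (m : ℤ) : Nonempty (F.E m ≅ F'.E (m + 5 - 2 * k)) := by
  have hM : ∀ {k k' : ℤ} (F : Fac hW k) (F' : Fac hW k') (m m' : ℤ), k' = 5 - k → F'.f = F.h →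
      F'.h = F.f → m' = m + 5 - 2 * k → (fromBlocks 0 1 1 0 : Matrix (Fin 1 ⊕ Fin 1) (Fin 1 ⊕ Fin 1)
        (MvPolynomial (Fin 2) ℂ)) ∈ Z (F.E m) (F'.E m') := by
    intro k k' F F' m m' hk h1 h2 hm
    refine ⟨?_, ?_⟩
    · rintro (i | i) (j | j)
      · exact Submodule.zero_mem _
      · refine one5 ?_
        rw [th5_add, th5_sub, Fac.gl, Fac.gr, th5_zero, hm]
        ring
      · refine one5 ?_
        rw [th5_add, th5_sub, Fac.gr, Fac.gl, th5_zero, hm, hk]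
        ring
      · exact Submodule.zero_mem _
    · show fromBlocks 0 (F'.f • 1) ((1 * F'.h) • 1) (-0) * (fromBlocks 0 1 1 0) =
        (fromBlocks 0 1 1 0) * fromBlocks 0 (F.f • 1) ((1 * F.h) • 1) (-0)
      rw [fromBlocks_multiply, fromBlocks_multiply, h1, h2]
      congr 1 <;> simp
  have e : (fromBlocks 0 1 1 0 : Matrix (Fin 1 ⊕ Fin 1) (Fin 1 ⊕ Fin 1)
      (MvPolynomial (Fin 2) ℂ)) * fromBlocks 0 1 1 0 = 1 := by
    rw [fromBlocks_multiply, ← fromBlocks_one]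
    congr 1 <;> simp
  exact ⟨isoOf' (X := F.E m) (Y := F'.E (m + 5 - 2 * k)) _ _
    (hM F F' m _ hk h1 h2 rfl) (hM F' F _ m (by omega) h2.symm h1.symm (by rw [hk]; ring)) e e⟩

theorem Lin2.exists_gd (F : Lin2 hW) : ∃ γ δ : ℂ, F.β * γ - F.α * δ = 1 := by
  by_cases h : F.β = 0
  · have h2 : F.α ≠ 0 := fun h3 => F.ne ⟨h3, h⟩
    exact ⟨0, -(1 / F.α), by field_simp; simp⟩
  · exact ⟨1 / F.β, 0, by field_simp; simp⟩

/-- the degrees of the generators of the Koszul matrix factorization -/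
def KG (m : ℤ) (g : (Fin 1 ⊕ Fin 1) ⊕ (Fin 1 ⊕ Fin 1) → Gd 5) : Prop :=
  ∀ i, th 5 (g (Sum.inl (Sum.inl i))) = m ∧ th 5 (g (Sum.inl (Sum.inr i))) = m + 3 ∧
    th 5 (g (Sum.inr (Sum.inl i))) = m + 3 ∧ th 5 (g (Sum.inr (Sum.inr i))) = m + 6

theorem uU_Hg (hW : IsWeightedHomogeneous a2 W 5) {α β γ δ : ℂ} {s : MvPolynomial (Fin 2) ℂ}
    (hs : IsWeightedHomogeneous (wt a2 5) s (zz 6)) {m : ℤ}
    {g g' : (Fin 1 ⊕ Fin 1) ⊕ (Fin 1 ⊕ Fin 1) → Gd 5} (hg : KG m g) (hg' : KG m g') :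
    uU (C α) (C β) (C γ) (C δ) s ∈ Hg (L := lg a2 5 W hW) g g' 0 := by
  rintro ((i | i) | (i | i)) ((j | j) | (j | j))
  all_goals try exact Submodule.zero_mem _
  · refine one5 ?_
    rw [th5_add, th5_sub, (hg' i).1, (hg j).1, th5_zero]; ring
  · refine mem5 (C_mem2 β) ?_
    rw [th5_add, th5_sub, (hg' i).2.1, (hg j).2.1, th5_zero]; ring
  · refine mem5 (C_mem2 δ) ?_
    rw [th5_add, th5_sub, (hg' i).2.1, (hg j).2.2.1, th5_zero]; ring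
  · refine mem5 (C_mem2 α) ?_
    rw [th5_add, th5_sub, (hg' i).2.2.1, (hg j).2.1, th5_zero]; ring
  · refine mem5 (C_mem2 γ) ?_
    rw [th5_add, th5_sub, (hg' i).2.2.1, (hg j).2.2.1, th5_zero]; ring
  · refine mem5 hs ?_
    rw [th5_add, th5_sub, (hg' i).2.2.2, (hg j).1, th5_zero]; ring
  · refine one5 ?_
    rw [th5_add, th5_sub, (hg' i).2.2.2, (hg j).2.2.2, th5_zero]; ring

theorem uV_Hg (hW : IsWeightedHomogeneous a2 W 5) {α β γ δ : ℂ} {s : MvPolynomial (Fin 2) ℂ}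
    (hs : IsWeightedHomogeneous (wt a2 5) s (zz 6)) {m : ℤ}
    {g g' : (Fin 1 ⊕ Fin 1) ⊕ (Fin 1 ⊕ Fin 1) → Gd 5} (hg : KG m g) (hg' : KG m g') :
    uV (C α) (C β) (C γ) (C δ) s ∈ Hg (L := lg a2 5 W hW) g g' 0 := by
  rintro ((i | i) | (i | i)) ((j | j) | (j | j))
  all_goals try exact Submodule.zero_mem _
  · refine one5 ?_
    rw [th5_add, th5_sub, (hg' i).1, (hg j).1, th5_zero]; ring
  · refine mem5 (C_mem2 γ) ?_
    rw [th5_add, th5_sub, (hg' i).2.1, (hg j).2.1, th5_zero]; ring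
  · refine Submodule.neg_mem _ (mem5 (C_mem2 δ) ?_)
    rw [th5_add, th5_sub, (hg' i).2.1, (hg j).2.2.1, th5_zero]; ring
  · refine Submodule.neg_mem _ (mem5 (C_mem2 α) ?_)
    rw [th5_add, th5_sub, (hg' i).2.2.1, (hg j).2.1, th5_zero]; ring
  · refine mem5 (C_mem2 β) ?_
    rw [th5_add, th5_sub, (hg' i).2.2.1, (hg j).2.2.1, th5_zero]; ring
  · refine Submodule.neg_mem _ (mem5 hs ?_)
    rw [th5_add, th5_sub, (hg' i).2.2.2, (hg j).1, th5_zero]; ring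
  · refine one5 ?_
    rw [th5_add, th5_sub, (hg' i).2.2.2, (hg j).2.2.2, th5_zero]; ring

theorem Kk_KG (m : ℤ) : KG m (Kk hW m).g := fun i =>
  ⟨Kk_g1 m i, Kk_g2 m i, Kk_g3 m i, Kk_g4 m i⟩

theorem tw_KG (F : Fac hW 1) (m : ℤ) (l : MvPolynomial (Fin 2) ℂ)
    (hOK : OK (lg a2 5 W hW) [(l, (0 : MvPolynomial (Fin 2) ℂ), zz 2)]) :
    KG m (tw (F.E m) [(l, (0 : MvPolynomial (Fin 2) ℂ), zz 2)] hOK).g := by
  intro i
  refine ⟨Fac.gl F m i, ?_, ?_, ?_⟩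
  · exact (Fac.gr F m i).trans (by ring)
  · exact (tw_gr F m l hOK _).trans (by rw [Fac.gl])
  · exact (tw_gr F m l hOK _).trans (by rw [Fac.gr]; ring)

/-- the Koszul triangle -/
theorem Lin2.tri (F : Lin2 hW) (m : ℤ) : ∃ (f : F.E (m - 2) ⟶ F.E m) (g : F.E m ⟶ Kk hW m)
    (h : Kk hW m ⟶ (F.E (m - 2))⟦(1 : ℤ)⟧), Triangle.mk f g h ∈
      distTriang (MF (lg a2 5 W hW)) := by
  obtain ⟨γ, δ, hd⟩ := F.exists_gd
  obtain ⟨s, hs, hv, hw⟩ := F.exists_s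
  have hd' : (C F.β : MvPolynomial (Fin 2) ℂ) * C γ - C F.α * C δ = 1 := by
    rw [← C_mul, ← C_mul, ← C_sub, hd, C_1]
  have hl := lin_mem2 γ δ
  set l : MvPolynomial (Fin 2) ℂ := C γ * X 0 + C δ * X 1 with hldef
  have hOK : OK (lg a2 5 W hW) [(l, (0 : MvPolynomial (Fin 2) ℂ), zz 2)] := by
    intro p hp
    rw [List.mem_singleton] at hp
    subst hp
    exact ⟨hl, Submodule.zero_mem _⟩
  have hU : uU (C F.α) (C F.β) (C γ) (C δ) s ∈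
      Z (tw (F.E m) [(l, (0 : MvPolynomial (Fin 2) ℂ), zz 2)] hOK) (Kk hW m) := by
    refine ⟨uU_Hg hW hs (tw_KG F.toFac m l hOK) (Kk_KG m), ?_⟩
    rw [Kk_D, tw_D]
    exact uU_comm F.ef hldef hv hw hd'
  have hV : uV (C F.α) (C F.β) (C γ) (C δ) s ∈
      Z (Kk hW m) (tw (F.E m) [(l, (0 : MvPolynomial (Fin 2) ℂ), zz 2)] hOK) := by
    refine ⟨uV_Hg hW hs (Kk_KG m) (tw_KG F.toFac m l hOK), ?_⟩
    rw [Kk_D, tw_D]
    exact uV_comm F.ef hldef hv hw hd'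
  have e1 : tw (F.E m) [(l, (0 : MvPolynomial (Fin 2) ℂ), zz 2)] hOK ≅ Kk hW m :=
    isoOf' _ _ hU hV (uVU hd') (uUV hd')
  obtain ⟨e2⟩ := (tw_cone (L := lg a2 5 W hW) (F.E m) (l, (0 : MvPolynomial (Fin 2) ℂ), zz 2) []
    hOK).iso
  have hT := dist_tri (X := (F.E m).ts (-zz 2) 1 (one_mul 1)) (Y := F.E m) (l • 1)
    (twist_Z _ hOK.head.1)
  obtain ⟨e3⟩ := F.toFac.E_ts m (-2)
  have h1 := dist_third hT (e2.symm ≪≫ e1)
  have e4 : (F.E m).ts (-zz 2) 1 (one_mul 1) ≅ F.E (m - 2) := e3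
  exact ⟨_, _, _, dist_first h1 e4⟩

end Pool.Agent.Helper445_GMF
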