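import Pool.Agent.Helper445_GMF.Qn4

/-!
Binary quintics: morphisms.
-/

set_option autoImplicit false
set_option linter.unusedSectionVars false

open CategoryTheory Matrix Pretriangulated Triangulated Limits MvPolynomial ZeroObject

namespace Pool.Agent.Helper445_GMF

variable {W : MvPolynomial (Fin 2) ℂ} {hW : IsWeightedHomogeneous a2 W 5}

theorem JJ_Hg (hW : IsWeightedHomogeneous a2 W 5) {m : ℤ}
    {g g' : (Fin 1 ⊕ Fin 1) ⊕ (Fin 1 ⊕ Fin 1) → Gd 5} (hg : KG m g)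
    (h1 : ∀ i, th 5 (g' (Sum.inl (Sum.inl i))) = m + 6)
    (h2 : ∀ i, th 5 (g' (Sum.inl (Sum.inr i))) = m + 3)
    (h3 : ∀ i, th 5 (g' (Sum.inr (Sum.inl i))) = m + 3)
    (h4 : ∀ i, th 5 (g' (Sum.inr (Sum.inr i))) = m) :
    JJ (I := Fin 1) ∈ Hg (L := lg a2 5 W hW) g g' 0 ∧
      JJ (I := Fin 1) ∈ Hg (L := lg a2 5 W hW) g' g 0 := by
  constructor
  · rintro ((i | i) | (i | i)) ((j | j) | (j | j))
    all_goals try exact Submodule.zero_mem _
    · refine one5 ?_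
      rw [th5_add, th5_sub, h1, (hg j).2.2.2, th5_zero]; ring
    · refine Submodule.neg_mem _ (one5 ?_)
      rw [th5_add, th5_sub, h2, (hg j).2.2.1, th5_zero]; ring
    · refine one5 ?_
      rw [th5_add, th5_sub, h3, (hg j).2.1, th5_zero]; ring
    · refine Submodule.neg_mem _ (one5 ?_)
      rw [th5_add, th5_sub, h4, (hg j).1, th5_zero]; ring
  · rintro ((i | i) | (i | i)) ((j | j) | (j | j))
    all_goals try exact Submodule.zero_mem _
    · refine one5 ?_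
      rw [th5_add, th5_sub, (hg i).1, h4, th5_zero]; ring
    · refine Submodule.neg_mem _ (one5 ?_)
      rw [th5_add, th5_sub, (hg i).2.1, h3, th5_zero]; ring
    · refine one5 ?_
      rw [th5_add, th5_sub, (hg i).2.2.1, h2, th5_zero]; ring
    · refine Submodule.neg_mem _ (one5 ?_)
      rw [th5_add, th5_sub, (hg i).2.2.2, h1, th5_zero]; ring

theorem kD_dual (x y w v : MvPolynomial (Fin 2) ℂ) :
    (kD x y w v)ᵀ * JJ (I := Fin 1) = JJ (I := Fin 1) * kD x y w v :=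
  JJ_comm (I := Fin 1) x y (1 * w) (1 * v)

theorem dl_D (X : MF (lg a2 5 W hW)) : X.dl.D = X.Dᵀ := rfl

/-- the dual of the Koszul matrix factorization -/
theorem Kk_dual (m : ℤ) : Nonempty ((Kk hW m).dl ≅ Kk hW (-m - 6)) := by
  have hg : KG (-m - 6) (Kk hW (-m - 6)).g := Kk_KG _
  obtain ⟨H1, H2⟩ := JJ_Hg hW hg (g' := (Kk hW m).dl.g)
    (fun i => (congrArg Neg.neg (Kk_g1 m i)).trans (by ring))
    (fun i => (congrArg Neg.neg (Kk_g2 m i)).trans (by ring))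
    (fun i => (congrArg Neg.neg (Kk_g3 m i)).trans (by ring))
    (fun i => (congrArg Neg.neg (Kk_g4 m i)).trans (by ring))
  have hZ1 : JJ (I := Fin 1) ∈ Z (Kk hW (-m - 6)) (Kk hW m).dl := by
    refine ⟨H1, ?_⟩
    rw [dl_D, Kk_D]
    exact kD_dual _ _ _ _
  have hZ2 : -JJ (I := Fin 1) ∈ Z (Kk hW m).dl (Kk hW (-m - 6)) := by
    refine ⟨Hg_neg H2, ?_⟩
    rw [dl_D, Kk_D]
    have h := kD_dual (X 0) (X 1) (wq hW 0 [1]) (wq hW 1 [])
    set D := kD (X 0) (X 1) (wq hW 0 [1]) (wq hW 1 []) with hD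
    calc D * -JJ (I := Fin 1) = (-JJ (I := Fin 1) * JJ (I := Fin 1)) * (D * -JJ (I := Fin 1)) := by
          rw [JJ_sq', Matrix.one_mul]
      _ = -JJ (I := Fin 1) * (JJ (I := Fin 1) * D) * -JJ (I := Fin 1) := by
          simp only [Matrix.mul_assoc]
      _ = -JJ (I := Fin 1) * (Dᵀ * JJ (I := Fin 1)) * -JJ (I := Fin 1) := by rw [h]
      _ = -JJ (I := Fin 1) * Dᵀ * (JJ (I := Fin 1) * -JJ (I := Fin 1)) := by
          simp only [Matrix.mul_assoc]
      _ = -JJ (I := Fin 1) * Dᵀ := by rw [JJ_sq, Matrix.mul_one]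
  exact ⟨isoOf' _ _ hZ2 hZ1 JJ_sq JJ_sq'⟩

theorem had2 : ∀ i : Fin 2, a2 i ≠ 5 := fun _ => by norm_num

theorem KK_iso (b : ℤ) : Nonempty (KK (a := a2) (d := 5) (by norm_num) hW
    (fun _ : Fin 1 => zz b) ≅ Kk hW b) := ⟨eqToIso (KK_eq (hW := hW) (by norm_num) _)⟩

theorem K_hom {E : MF (lg a2 5 W hW)} (hE : Red0 E) {b : ℤ} {j : E.I} (hj : th 5 (E.g j) = b) :
    ∃ f : E ⟶ Kk hW b, f ≠ 0 := by
  obtain ⟨e⟩ := KK_iso (hW := hW) b
  let t := tope (hd := (by norm_num : 0 < 5)) (hW := hW) had2 (fun _ : Fin 1 => zz b) hE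
  refine ⟨t.symm (fun _ => 1) ≫ e.hom, fun h => ?_⟩
  have h1 : t.symm (fun _ => 1) = 0 := by
    rw [← cancel_mono e.hom, h, zero_comp]
  have h2 : (fun _ => 1 : {q : Fin 1 × E.I // E.g q.2 = zz b} → ℂ) = 0 := by
    rw [← t.apply_symm_apply (fun _ => 1), h1, map_zero]
  have h3 := congrFun h2 ⟨(0, j), gext hj⟩
  simp at h3

theorem K_hom_zero {E : MF (lg a2 5 W hW)} (hE : Red0 E) {b : ℤ}
    (hj : ∀ j, th 5 (E.g j) ≠ b) (f : E ⟶ Kk hW b) : f = 0 := by
  obtain ⟨e⟩ := KK_iso (hW := hW) b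
  let t := tope (hd := (by norm_num : 0 < 5)) (hW := hW) had2 (fun _ : Fin 1 => zz b) hE
  have h1 : f ≫ e.inv = 0 := by
    apply t.injective
    funext q
    exact absurd (congrArg (th 5) q.2) (hj _)
  rw [← cancel_mono e.inv, h1, zero_comp]

theorem dl_red {E : MF (lg a2 5 W hW)} (hE : Red0 E) : Red0 E.dl := fun i j => hE j i

theorem hom_K {E : MF (lg a2 5 W hW)} (hE : Red0 E) {b : ℤ} {j : E.I} (hj : th 5 (E.g j) = b) :
    ∃ f : Kk hW (b - 6) ⟶ E, f ≠ 0 := by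
  by_contra hc
  push Not at hc
  obtain ⟨e⟩ := Kk_dual (hW := hW) (-b)
  have e1 : - -b - 6 = b - 6 := by ring
  rw [e1] at e
  have h1 : ∀ f : (Kk hW (-b)).dl ⟶ E, f = 0 := fun f => by
    have := hc (e.inv ≫ f)
    rw [← cancel_epi e.inv, this, comp_zero]
  obtain ⟨f, hf⟩ := K_hom (E := E.dl) (dl_red hE) (b := -b) (j := j) (by
    show th 5 (-E.g j) = -b
    rw [th5_neg, hj])
  exact hf (dl_hom h1 f)

/-- morphisms vanish for degree reasons -/
theorem hom_deg {X Y : MF (lg a2 5 W hW)}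
    (h : ∀ i j, th 5 (Y.g i) - th 5 (X.g j) < 0 ∨ (th 5 (Y.g i) - th 5 (X.g j)) % 2 = 1)
    (f : X ⟶ Y) : f = 0 := by
  obtain ⟨f, hf, rfl⟩ := hm_surj f
  have h0 : f = 0 := by
    ext1 i j
    refine hom_zero5 (hf.1 i j) ?_
    show th 5 (Y.g i - X.g j + 0) < 0 ∨ _
    rw [th5_add, th5_sub, th5_zero, add_zero]
    exact h i j
  subst h0
  exact hm_eq_zero_iff.2 N_zero

theorem E_red {k : ℤ} (F : Fac hW k) (hk : k ≠ 0) (hk' : k ≠ 5) (m : ℤ) : Red0 (F.E m) := by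
  have h1 : constantCoeff F.f = 0 := const_of_mem F.hf fun h => hk (by
    have := congrArg (th 5) h
    rw [th_zz, th5_zero] at this
    omega)
  have h2 : constantCoeff F.h = 0 := const_of_mem F.hh fun h => hk' (by
    have := congrArg (th 5) h
    rw [th_zz, th5_zero] at this
    omega)
  have h3 : ∀ i j, constantCoeff ((rD F.f F.h : Matrix (Fin 1 ⊕ Fin 1) (Fin 1 ⊕ Fin 1)
      (MvPolynomial (Fin 2) ℂ)) i j) = 0 := by
    rintro (i | i) (j | j)
    · show constantCoeff (0 : MvPolynomial (Fin 2) ℂ) = 0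
      exact map_zero _
    · exact const_smul_one h1 i j
    · refine const_smul_one ?_ i j
      rw [one_mul]; exact h2
    · show constantCoeff (-(0 : MvPolynomial (Fin 2) ℂ)) = 0
      rw [neg_zero]
      exact map_zero _
  exact h3

theorem Kk_red (m : ℤ) : Red0 (Kk hW m) := kM_red hW had2 _

end Pool.Agent.Helper445_GMF
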