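import Pool.Agent.Helper445_GMF.Hrt

/-!
The torsion pair on the heart given by a half-plane and the tilted t-structure.
-/

set_option autoImplicit false
set_option linter.unusedSectionVars false

open CategoryTheory Pretriangulated Triangulated Limits ZeroObject

namespace Pool.Agent.Helper445_GMF

universe v u

variable {C : Type u} [Category.{v} C] [Preadditive C] [HasZeroObject C] [HasShift C ℤ]
  [∀ n : ℤ, (shiftFunctor C n).Additive] [Pretriangulated C] [IsTriangulated C]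
  {ι : Type}

theorem hp_or {z : ℂ} (hz : z ≠ 0) (h : ¬ Hp 0 z) : Hp 0 (-z) := by
  rw [hp_zero] at h ⊢
  push Not at h
  obtain ⟨h1, h2⟩ := h
  rw [Complex.neg_im, Complex.neg_re]
  rcases lt_or_eq_of_le h1 with h3 | h3
  · left; linarith
  · right
    have h4 := h2 h3
    refine ⟨by linarith, ?_⟩
    rcases lt_or_eq_of_le h4 with h5 | h5
    · linarith
    · exact absurd (Complex.ext h5.symm h3) hz

theorem hp_neg {z : ℂ} (h : Hp 0 z) : ¬ Hp 0 (-z) := by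
  rw [hp_zero] at h ⊢
  rw [Complex.neg_im, Complex.neg_re]
  rintro (h1 | ⟨h1, h2⟩) <;> rcases h with h3 | ⟨h3, h4⟩ <;> linarith

/-- torsion objects of the heart -/
def Tor (S : ι → ℤ → C) (Zf : C → ℂ) (X : C) : Prop :=
  Hrt S X ∧ ∀ (K Q : C) (f : K ⟶ X) (g : X ⟶ Q) (h : Q ⟶ K⟦(1 : ℤ)⟧),
    Triangle.mk f g h ∈ distTriang C → Hrt S K → Hrt S Q → ¬ IsZero Q → Hp 0 (Zf Q)

/-- torsion-free objects of the heart -/
def Fre (S : ι → ℤ → C) (Zf : C → ℂ) (X : C) : Prop := Hrt S X ∧ Ro (Tor S Zf) X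

/-- the aisle of the tilted t-structure -/
def Ua (S : ι → ℤ → C) (Zf : C → ℂ) (X : C) : Prop :=
  ∃ (A T : C) (f : A ⟶ X) (g : X ⟶ T) (h : T ⟶ A⟦(1 : ℤ)⟧), Triangle.mk f g h ∈ distTriang C ∧
    Dw S 1 A ∧ Tor S Zf T

namespace Tlt

variable {S : ι → ℤ → C} {Zf : C → ℂ} {lam : ℂ →+ ℚ} (H : Tlt S Zf lam)

theorem hrt_zero {X : C} (h : IsZero X) : Hrt S X := ⟨Dw.of_zero h, Ro_zero h⟩

include H

theorem hrt_iso {X Y : C} (e : X ≅ Y) (h : Hrt S X) : Hrt S Y := ⟨h.1.ofIso e, Ro_of_iso e h.2⟩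

theorem hrt_ext {X Y V : C} {f : X ⟶ Y} {g : Y ⟶ V} {h : V ⟶ X⟦(1 : ℤ)⟧}
    (hT : Triangle.mk f g h ∈ distTriang C) (hX : Hrt S X) (hV : Hrt S V) : Hrt S Y :=
  ⟨Dw.ext H.smc H.gen hT hX.1 hV.1, Ro_ext hT hX.2 hV.2⟩

theorem tors_ex : ∀ (m : ℕ) (X : C), Hrt S X → lam (Zf X) = m → ∃ (T F : C) (f : T ⟶ X)
    (g : X ⟶ F) (h : F ⟶ T⟦(1 : ℤ)⟧), Triangle.mk f g h ∈ distTriang C ∧ Tor S Zf T ∧
      Fre S Zf F := by
  intro m
  induction m using Nat.strong_induction_on with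
  | _ m ih =>
    intro X hX hm
    by_cases hT : Tor S Zf X
    · exact ⟨X, 0, 𝟙 X, 0, 0, contractible_distinguished X, hT,
        hrt_zero (isZero_zero C), Ro_zero (isZero_zero C)⟩
    · have h1 : ∃ r : ℕ, ∃ (K Q : C) (f : K ⟶ X) (g : X ⟶ Q) (h : Q ⟶ K⟦(1 : ℤ)⟧),
          Triangle.mk f g h ∈ distTriang C ∧ Hrt S K ∧ Hrt S Q ∧ ¬ IsZero Q ∧
            ¬ Hp 0 (Zf Q) ∧ lam (Zf Q) = r := by
        by_contra hc
        push Not at hc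
        apply hT
        refine ⟨hX, fun K Q f g h hd hK hQ h0 => ?_⟩
        by_contra hp
        obtain ⟨r, hr, -⟩ := H.len_ex hQ
        exact hc r K Q f g h hd hK hQ h0 hp hr
      classical
      obtain ⟨K, Q, f, g, h, hd, hK, hQ, h0, hp, hr⟩ := Nat.find_spec h1
      have hmin := fun r hr => Nat.find_min h1 (m := r) hr
      set r := Nat.find h1 with hrdef
      obtain ⟨r', hr', hpos⟩ := H.len_ex hQ
      have hrr : r = r' := by exact_mod_cast hr.symm.trans hr'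
      have hpos' : 0 < r' := hpos.resolve_left h0
      -- `Q` is torsion-free
      have hQF : Fre S Zf Q := by
        refine ⟨hQ, fun T hT' φ => ?_⟩
        by_contra hφ
        obtain ⟨K1, I, Q1, k, p, s, i, q, t, hd1, hd2, hK1, hI, hQ1, hI0⟩ :=
          H.img hT'.1 hQ φ hφ
        have hZI : Hp 0 (Zf I) := hT'.2 _ _ _ _ _ hd1 hK1 hI hI0
        have hZ := H.add' hd2
        by_cases hQ0 : IsZero Q1
        · rw [H.z_zero hQ0, add_zero] at hZ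
          exact hp (hZ ▸ hZI)
        · obtain ⟨K2, f2, h2, p2, q2, r2, hd3, hd4, -⟩ := assocL hd hd2
          obtain ⟨l1, hl1, hl1'⟩ := H.len_ex hI
          obtain ⟨l2, hl2, -⟩ := H.len_ex hQ1
          have hl1p : 0 < l1 := hl1'.resolve_left hI0
          have e1 : (r : ℚ) = l1 + l2 := by
            rw [← hr, hZ, map_add, hl1, hl2]
          have e2 : r = l1 + l2 := by exact_mod_cast e1
          have h3 := hmin l2 (by omega)
          have h4 : Hp 0 (Zf Q1) := by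
            by_contra hc
            exact h3 ⟨K2, Q1, f2, g ≫ q, h2, hd3, H.hrt_ext hd4 hK hI, hQ1, hQ0, hc, hl2⟩
          exact hp (hZ ▸ hZI.add h4)
      obtain ⟨mK, hmK, -⟩ := H.len_ex hK
      have e3 : (m : ℚ) = mK + r := by
        rw [← hm, H.add' hd, map_add, hmK, hr]
      have e4 : m = mK + r := by exact_mod_cast e3
      obtain ⟨T, F, a, b, c, hd5, hTT, hFF⟩ := ih mK (by omega) K hK hmK
      obtain ⟨V, g', h', m₁, m₃, hd6, hd7, -⟩ := assocR hd5 hd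
      exact ⟨T, V, a ≫ f, g', h', hd6, hTT, H.hrt_ext hd7 hFF.1 hQ,
        Ro_ext hd7 hFF.2 hQF.2⟩

theorem fre_neg : ∀ (m : ℕ) (X : C), Fre S Zf X → lam (Zf X) = m → ¬ IsZero X →
    ¬ Hp 0 (Zf X) := by
  intro m
  induction m using Nat.strong_induction_on with
  | _ m ih =>
    intro X hX hm h0 hp
    have hT : ¬ Tor S Zf X := fun hT => h0 ((IsZero.iff_id_eq_zero X).2 (hX.2 X hT _))
    have h1 : ∃ (K Q : C) (f : K ⟶ X) (g : X ⟶ Q) (h : Q ⟶ K⟦(1 : ℤ)⟧),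
        Triangle.mk f g h ∈ distTriang C ∧ Hrt S K ∧ Hrt S Q ∧ ¬ IsZero Q ∧
          ¬ Hp 0 (Zf Q) := by
      by_contra hc
      push Not at hc
      exact hT ⟨hX.1, fun K Q f g h hd hK hQ h0 => hc K Q f g h hd hK hQ h0⟩
    obtain ⟨K, Q, f, g, h, hd, hK, hQ, hQ0, hpQ⟩ := h1
    have h2 : Hp 0 (-Zf Q) := hp_or (H.z_ne hQ hQ0) hpQ
    have hZ := H.add' hd
    have h3 : Hp 0 (Zf K) := by
      have : Zf K = Zf X + -Zf Q := by rw [hZ]; ring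
      rw [this]
      exact hp.add h2
    have hK0 : ¬ IsZero K := by
      intro h4
      rw [H.z_zero h4] at h3
      rw [hp_zero] at h3
      simp at h3
    obtain ⟨mK, hmK, -⟩ := H.len_ex hK
    obtain ⟨mQ, hmQ, hmQ'⟩ := H.len_ex hQ
    have e3 : (m : ℚ) = mK + mQ := by
      rw [← hm, hZ, map_add, hmK, hmQ]
    have e4 : m = mK + mQ := by exact_mod_cast e3
    have e5 := hmQ'.resolve_left hQ0
    refine ih mK (by omega) K ⟨hK, fun T hT' φ => ?_⟩ hmK hK0 h3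
    obtain ⟨a, b, hd'⟩ := inv_rot_aux hd
    obtain ⟨c, hc⟩ := ex_c2 hd' φ (hX.2 T hT' _)
    have h5 : Vw S 0 (Q⟦(-1 : ℤ)⟧) := by
      have := hQ.2.shn H.smc
      simpa using this
    rw [hc, h5 T hT'.1.1 c, zero_comp]

theorem fre_hp {X : C} (h : Fre S Zf X) (h0 : ¬ IsZero X) : Hp 0 (-Zf X) := by
  obtain ⟨m, hm, -⟩ := H.len_ex h.1
  exact hp_or (H.z_ne h.1 h0) (H.fre_neg m X h hm h0)

theorem tor_hp {X : C} (h : Tor S Zf X) (h0 : ¬ IsZero X) : Hp 0 (Zf X) :=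
  h.2 0 X 0 (𝟙 X) 0 (contractible_distinguished₁ X) (hrt_zero (isZero_zero C)) h.1 h0

theorem tor_zero {X : C} (h : IsZero X) : Tor S Zf X := by
  refine ⟨hrt_zero h, fun K Q f g k hd hK hQ h0 => ?_⟩
  exfalso
  have h1 : g = 0 := h.eq_of_src _ _
  obtain ⟨c, hc⟩ := ex_y3 hd (𝟙 Q) (by rw [h1, zero_comp])
  apply h0
  rw [IsZero.iff_id_eq_zero, hc, hQ.2 _ (by simpa using hK.1.sh1 H.smc) c, comp_zero]

theorem tor_iso {X Y : C} (e : X ≅ Y) (h : Tor S Zf X) : Tor S Zf Y := by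
  refine ⟨H.hrt_iso e h.1, fun K Q f g k hd hK hQ h0 => ?_⟩
  exact h.2 K Q _ _ _ (dist_mid hd e.symm) hK hQ h0

/-- letters whose central charge is in the half-plane are torsion objects -/
theorem tor_letter (i : ι) (h : Hp 0 (Zf (S i 0))) : Tor S Zf (S i 0) := by
  have h1 : Hrt S (S i 0) := ⟨Dw.letter i 0, Vw.letter H.smc (by norm_num) i⟩
  refine ⟨h1, fun K Q f g k hd hK hQ h0 => ?_⟩
  obtain ⟨mK, hmK, hK'⟩ := H.len_ex hK
  obtain ⟨mQ, hmQ, hmQ'⟩ := H.len_ex hQ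
  have e5 := hmQ'.resolve_left h0
  have hZ := H.add' hd
  have e3 : (1 : ℚ) = mK + mQ := by
    rw [← H.len i, hZ, map_add, hmK, hmQ]
  have e4 : 1 = mK + mQ := by exact_mod_cast e3
  have h2 : IsZero K := by
    rcases hK' with h | h
    · exact h
    · omega
  rw [H.z_zero h2, zero_add] at hZ
  rwa [← hZ]

theorem ua_of_dw {X : C} (h : Dw S 1 X) : Ua S Zf X :=
  ⟨X, 0, 𝟙 X, 0, 0, contractible_distinguished X, h, H.tor_zero (isZero_zero C)⟩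

theorem ua_of_tor {X : C} (h : Tor S Zf X) : Ua S Zf X :=
  ⟨0, X, 0, 𝟙 X, 0, contractible_distinguished₁ X, Dw.of_zero (isZero_zero C), h⟩

theorem ua_iso {X Y : C} (e : X ≅ Y) (h : Ua S Zf X) : Ua S Zf Y := by
  obtain ⟨A, T, f, g, k, hd, hA, hT⟩ := h
  exact ⟨A, T, _, _, _, dist_mid hd e, hA, hT⟩

theorem ua_dw {X : C} (h : Ua S Zf X) : Dw S 0 X := by
  obtain ⟨A, T, f, g, k, hd, hA, hT⟩ := h
  exact Dw.ext H.smc H.gen hd (hA.mono (by norm_num)) hT.1.1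

theorem ua_sh {X : C} (h : Ua S Zf X) : Ua S Zf (X⟦(1 : ℤ)⟧) :=
  H.ua_of_dw (by simpa using (H.ua_dw h).sh1 H.smc)

theorem ro_ua {B : C} (h1 : Vw S 1 B) (h2 : Ro (Tor S Zf) B) : Ro (Ua S Zf) B := by
  rintro X ⟨A, T, f, g, k, hd, hA, hT⟩ φ
  obtain ⟨c, hc⟩ := ex_y2 hd φ (h1 A hA _)
  rw [hc, h2 T hT c, comp_zero]

theorem ro_ua_v {B : C} (h : Ro (Ua S Zf) B) : Vw S 1 B := fun X hX => h X (H.ua_of_dw hX)

theorem ro_ua_t {B : C} (h : Ro (Ua S Zf) B) : Ro (Tor S Zf) B := fun X hX =>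
  h X (H.ua_of_tor hX)

theorem split0 {X : C} (hX : Dw S 0 X) : ∃ (A F : C) (f : A ⟶ X) (g : X ⟶ F)
    (h : F ⟶ A⟦(1 : ℤ)⟧), Triangle.mk f g h ∈ distTriang C ∧ Ua S Zf A ∧ Fre S Zf F := by
  obtain ⟨A, B, f, g, h, hd, hA, hB⟩ := tr_ex H.smc H.gen 1 X
  have hB' : Hrt S B := ⟨Dw.third H.smc H.gen hd hX (hA.mono (by norm_num)), hB⟩
  obtain ⟨m, hm, -⟩ := H.len_ex hB'
  obtain ⟨T, F, a, b, c, hd', hT, hF⟩ := H.tors_ex m B hB' hm
  obtain ⟨Y, f', h', p, q, r, h1, h2, -⟩ := assocL hd hd'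
  exact ⟨Y, F, f', g ≫ b, h', h1, ⟨A, T, p, q, r, h2, hA, hT⟩, hF⟩

theorem ua_tr (X : C) : ∃ (A B : C) (f : A ⟶ X) (g : X ⟶ B)
    (h : B ⟶ A⟦(1 : ℤ)⟧), Triangle.mk f g h ∈ distTriang C ∧ Ua S Zf A ∧ Ro (Ua S Zf) B := by
  obtain ⟨A0, B0, f0, g0, h0, hd0, hA0, hB0⟩ := tr_ex H.smc H.gen 0 X
  obtain ⟨A, F, f, g, h, hd, hA, hF⟩ := H.split0 hA0
  obtain ⟨V, g', h', m₁, m₃, h1, h2, -⟩ := assocR hd hd0
  refine ⟨A, V, f ≫ f0, g', h', h1, hA, Ro_ext h2 (H.ro_ua hF.1.2 hF.2) ?_⟩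
  exact fun Y hY => hB0 Y (H.ua_dw hY)

theorem ua_ext {X Y V : C} {f : X ⟶ Y} {g : Y ⟶ V} {h : V ⟶ X⟦(1 : ℤ)⟧}
    (hT : Triangle.mk f g h ∈ distTriang C) (hX : Ua S Zf X) (hV : Ua S Zf V) : Ua S Zf Y := by
  obtain ⟨A, B, f', g', h', H', hA, hB⟩ := H.ua_tr Y
  refine aisle_orth (U := Ua S Zf) (fun e h => H.ua_iso e h) (fun h => H.ua_sh h) H' hA hB ?_
  intro B hB φ
  obtain ⟨c, hc⟩ := ex_y2 hT φ (hB X hX _)
  rw [hc, hB V hV c, comp_zero]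

/-- positivity on the tilted heart -/
theorem ua_pos {X : C} (h : Ua S Zf X) (h' : Ro (Ua S Zf) (X⟦(-1 : ℤ)⟧)) (h0 : ¬ IsZero X) :
    Hp 0 (Zf X) := by
  obtain ⟨A, T, f, g, k, hd, hA, hT⟩ := h
  have hX2 : Vw S 2 X := by
    have h1 : Vw S 1 (X⟦(-1 : ℤ)⟧) := H.ro_ua_v h'
    exact Ro_of_iso (shiftNegShift X (1 : ℤ)) (h1.sh1 H.smc)
  have hA2 : Vw S 2 A := Vw.first H.smc hd hX2 (hT.1.2.mono (by norm_num))
  have hAh : Hrt S (A⟦(-1 : ℤ)⟧) := ⟨hA.shn H.smc, hA2.shn H.smc⟩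
  have hd1 := Triangle.shift_distinguished _ hd (-1 : ℤ)
  obtain ⟨a, b, hd2⟩ := inv_rot_aux hd1
  have hAF : Fre S Zf (A⟦(-1 : ℤ)⟧) := by
    refine ⟨hAh, Ro_ext hd2 ?_ (H.ro_ua_t h')⟩
    intro Y hY φ
    have h1 : Vw S 1 (T⟦(-1 : ℤ)⟧⟦(-1 : ℤ)⟧) :=
      ((hT.1.2.shn H.smc).shn H.smc).mono (by norm_num)
    have h2 : Vw S 0 (T⟦(-1 : ℤ)⟧⟦(-1 : ℤ)⟧) :=
      ((hT.1.2.shn H.smc).shn H.smc).mono (by norm_num)
    exact h2 Y hY.1.1 φ
  have hZ := H.add' hd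
  have e1 := H.z_shn A
  by_cases hA0 : IsZero A
  · by_cases hT0 : IsZero T
    · exact absurd (Triangle.isZero₂_of_isZero₁₃ _ hd hA0 hT0) h0
    · rw [hZ, H.z_zero hA0, zero_add]
      exact H.tor_hp hT hT0
  · have h1 : ¬ IsZero (A⟦(-1 : ℤ)⟧) := by
      intro h2
      exact hA0 (((shiftFunctor C (1 : ℤ)).map_isZero h2).of_iso (shiftNegShift A (1 : ℤ)).symm)
    have h3 := H.fre_hp hAF h1
    rw [e1, neg_neg] at h3
    by_cases hT0 : IsZero T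
    · rw [hZ, H.z_zero hT0, add_zero]
      exact h3
    · rw [hZ]
      exact h3.add (H.tor_hp hT hT0)

end Tlt

end Pool.Agent.Helper445_GMF
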