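import Pool.Agent.Helper445_GMF.Qn5
import Pool.Agent.Helper445_GMF.Tor

/-!
Binary quintics: the simple-minded collection.
-/

set_option autoImplicit false
set_option linter.unusedSectionVars false

open CategoryTheory Matrix Pretriangulated Triangulated Limits MvPolynomial ZeroObject

namespace Pool.Agent.Helper445_GMF

variable {W : MvPolynomial (Fin 2) ℂ} {hW : IsWeightedHomogeneous a2 W 5}

/-- a product of five pairwise independent linear forms -/
structure Qd (hW : IsWeightedHomogeneous a2 W 5) where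
  /-- the linear factors -/
  F : Fin 5 → Lin2 hW
  prod : W = ∏ p, (F p).f
  ind : ∀ p q, p ≠ q → (F p).α * (F q).β - (F q).α * (F p).β ≠ 0

/-- the twists of the Koszul letters -/
def rr : Fin 3 → ℤ := ![2, 0, -2]

theorem rr_cases (i : Fin 3) : rr i = 2 ∨ rr i = 0 ∨ rr i = -2 := by
  fin_cases i <;> simp [rr]

theorem rr_inj {i j : Fin 3} (h : rr i = rr j) : i = j := by
  fin_cases i <;> fin_cases j <;> simp_all [rr]

/-- the letters -/
noncomputable def Qd.S (Q : Qd hW) : Fin 3 ⊕ Fin 5 → ℤ → MF (lg a2 5 W hW)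
  | Sum.inl i, k => Kk hW (rr i + 5 * k)
  | Sum.inr p, k => (Q.F p).E (-4 + 5 * k)

theorem Kk_gens (m : ℤ) (i : (Kk hW m).I) : th 5 ((Kk hW m).g i) = m ∨
    th 5 ((Kk hW m).g i) = m + 3 ∨ th 5 ((Kk hW m).g i) = m + 6 := by
  rcases i with ((i | i) | (i | i))
  · exact Or.inl (Kk_g1 m i)
  · exact Or.inr (Or.inl (Kk_g2 m i))
  · exact Or.inr (Or.inl (Kk_g3 m i))
  · exact Or.inr (Or.inr (Kk_g4 m i))

theorem E_gens (F : Fac hW 1) (m : ℤ) (i : (F.E m).I) : th 5 ((F.E m).g i) = m ∨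
    th 5 ((F.E m).g i) = m + 3 := by
  rcases i with (i | i)
  · exact Or.inl (F.gl m i)
  · exact Or.inr ((F.gr m i).trans (by ring))

theorem KK_zero {a b : ℤ} (h : b ≠ a ∧ b ≠ a + 3 ∧ b ≠ a + 6) (f : Kk hW a ⟶ Kk hW b) :
    f = 0 := by
  refine K_hom_zero (Kk_red a) (fun j hj => ?_) f
  have := Kk_gens (hW := hW) a j
  omega

theorem EK_zero (F : Fac hW 1) {a b : ℤ} (h : b ≠ a ∧ b ≠ a + 3) (f : F.E a ⟶ Kk hW b) :
    f = 0 := by
  refine K_hom_zero (E_red F (by norm_num) (by norm_num) a) (fun j hj => ?_) f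
  have := E_gens F a j
  omega

theorem KE_zero (F : Fac hW 1) {a b : ℤ} (h : b - a < 0) (h' : b - a + 3 < 0 ∨ b - a + 3 = 1)
    (f : Kk hW a ⟶ F.E b) : f = 0 := by
  refine hom_deg (fun i j => ?_) f
  have h1 := E_gens F b i
  have h2 := Kk_gens (hW := hW) a j
  omega

theorem EE_zero (F F' : Fac hW 1) {a b : ℤ} (h : b - a < -3) (f : F.E a ⟶ F'.E b) : f = 0 := by
  refine hom_deg (fun i j => ?_) f
  have h1 := E_gens F' b i
  have h2 := E_gens F a j
  omega

/-- morphisms to a Koszul matrix factorization, with only one generator -/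
theorem K_hom_one {E : MF (lg a2 5 W hW)} (hE : Red0 E) {b : ℤ} (j : E.I)
    (hj : ∀ j', th 5 (E.g j') = b → j' = j) (f g : E ⟶ Kk hW b) (hg : g ≠ 0) :
    ∃ c : ℂ, f = c • g := by
  obtain ⟨e⟩ := KK_iso (hW := hW) b
  let t := tope (hd := (by norm_num : 0 < 5)) (hW := hW) had2 (fun _ : Fin 1 => zz b) hE
  have hs : ∀ q q' : {q : Fin 1 × E.I // E.g q.2 = zz b}, q = q' := by
    rintro ⟨⟨i, q⟩, hq⟩ ⟨⟨i', q'⟩, hq'⟩
    have h1 := hj q (congrArg (th 5) hq)
    have h2 := hj q' (congrArg (th 5) hq')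
    have h3 : i = i' := Subsingleton.elim _ _
    subst h1 h3
    subst h2
    rfl
  have h0 : t (g ≫ e.inv) ≠ 0 := by
    intro h
    have h1 : g ≫ e.inv = 0 := by
      rw [← t.symm_apply_apply (g ≫ e.inv), h, map_zero]
    apply hg
    rw [← cancel_mono e.inv, h1, zero_comp]
  obtain ⟨q, hq⟩ := Function.ne_iff.1 h0
  refine ⟨t (f ≫ e.inv) q / t (g ≫ e.inv) q, ?_⟩
  rw [← cancel_mono e.inv, Linear.smul_comp]
  apply t.injective
  rw [map_smul]
  funext q'
  rw [hs q' q]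
  show _ = (t (f ≫ e.inv) q / t (g ≫ e.inv) q) * t (g ≫ e.inv) q
  rw [div_mul_cancel₀]
  exact hq

theorem smul_iso {X Y : MF (lg a2 5 W hW)} (f : X ⟶ Y) (c : ℂ) [IsIso f] : c • f = 0 ∨ IsIso (c • f) := by
  by_cases hc : c = 0
  · left; rw [hc, zero_smul]
  · right
    exact ⟨c⁻¹ • inv f, by simp [hc], by simp [hc]⟩

theorem id_ne_zero {X Y : MF (lg a2 5 W hW)} (f : X ⟶ Y) (hf : f ≠ 0) : 𝟙 X ≠ 0 := by
  intro h
  apply hf
  rw [← Category.id_comp f, h, zero_comp]

theorem KK_end (a : ℤ) (f : Kk hW a ⟶ Kk hW a) : f = 0 ∨ IsIso f := by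
  have h1 : 𝟙 (Kk hW a) ≠ 0 := by
    obtain ⟨f, hf⟩ := K_hom (Kk_red (hW := hW) a) (b := a) (j := Sum.inl (Sum.inl (0 : Fin 1)))
      (Kk_g1 a 0)
    exact id_ne_zero f hf
  obtain ⟨c, hc⟩ := K_hom_one (Kk_red (hW := hW) a) (b := a) (Sum.inl (Sum.inl (0 : Fin 1))) (by
    rintro ((i | i) | (i | i)) hi
    · exact congrArg (fun k : Fin 1 => Sum.inl (Sum.inl k)) (Subsingleton.elim (α := Fin 1) i 0)
    · have := Kk_g2 (hW := hW) a i
      exfalso
      have h2 : a + 3 = a := this.symm.trans hi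
      omega
    · have := Kk_g3 (hW := hW) a i
      exfalso
      have h2 : a + 3 = a := this.symm.trans hi
      omega
    · have := Kk_g4 (hW := hW) a i
      exfalso
      have h2 : a + 6 = a := this.symm.trans hi
      omega) f (𝟙 _) h1
  rw [hc]
  exact smul_iso _ _

/-- diagonal matrices -/
noncomputable def dg (c e : ℂ) : Matrix (Fin 1 ⊕ Fin 1) (Fin 1 ⊕ Fin 1) (MvPolynomial (Fin 2) ℂ) :=
  fromBlocks ((C c : MvPolynomial (Fin 2) ℂ) • 1) 0 0 ((C e : MvPolynomial (Fin 2) ℂ) • 1)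

theorem lin_coeff {α β α' β' : ℂ} (h : (C α * X 0 + C β * X 1 : MvPolynomial (Fin 2) ℂ) =
    C α' * X 0 + C β' * X 1) : α = α' ∧ β = β' := by
  have h0 := congrArg (eval ![1, 0]) h
  have h1 := congrArg (eval ![0, 1]) h
  simp at h0 h1
  exact ⟨h0, h1⟩

theorem dg_eq (Q : Qd hW) (p q : Fin 5) (c e : ℂ)
    (h : (rD (I := Fin 1) (Q.F q).f (Q.F q).h) * dg c e = dg c e *
      rD (I := Fin 1) (Q.F p).f (Q.F p).h) : dg c e = 0 ∨ p = q ∧ c = e := by
  have h1 := congrFun (congrFun h (Sum.inl 0)) (Sum.inr 0)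
  have h2 : (Q.F q).f * C e = C c * (Q.F p).f := by
    simpa [rD, dg, Matrix.mul_apply, Fintype.sum_sum_type] using h1
  rw [(Q.F q).ef, (Q.F p).ef] at h2
  have h3 : (C ((Q.F q).α * e) * X 0 + C ((Q.F q).β * e) * X 1 : MvPolynomial (Fin 2) ℂ) =
      C (c * (Q.F p).α) * X 0 + C (c * (Q.F p).β) * X 1 := by
    simp only [C_mul]
    linear_combination h2
  obtain ⟨h4, h5⟩ := lin_coeff h3
  by_cases hpq : p = q
  · subst hpq
    right
    refine ⟨rfl, ?_⟩
    have h6 : (Q.F p).α * (e - c) = 0 := by linear_combination h4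
    have h7 : (Q.F p).β * (e - c) = 0 := by linear_combination h5
    by_contra hce
    have hce' : e - c ≠ 0 := fun h => hce (by linear_combination -h)
    exact (Q.F p).ne ⟨(mul_eq_zero.1 h6).resolve_right hce', (mul_eq_zero.1 h7).resolve_right hce'⟩
  · left
    have hi := Q.ind p q hpq
    have h6 : c * ((Q.F p).α * (Q.F q).β - (Q.F q).α * (Q.F p).β) = 0 := by
      linear_combination (Q.F q).α * h5 - (Q.F q).β * h4
    have h7 : e * ((Q.F p).α * (Q.F q).β - (Q.F q).α * (Q.F p).β) = 0 := by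
      linear_combination (Q.F p).α * h5 - (Q.F p).β * h4
    have hc := (mul_eq_zero.1 h6).resolve_right hi
    have he := (mul_eq_zero.1 h7).resolve_right hi
    rw [hc, he, dg]
    simp

theorem EE_end (Q : Qd hW) (p q : Fin 5) (a : ℤ) (f : (Q.F p).E a ⟶ (Q.F q).E a) :
    f = 0 ∨ IsIso f := by
  obtain ⟨f, hf, rfl⟩ := hm_surj f
  have h11 : ∀ i j : Fin 1, ∃ c : ℂ, f (Sum.inl i) (Sum.inl j) = C c := by
    intro i j
    have h1 := hf.1 (Sum.inl i) (Sum.inl j)
    exact ⟨_, hom_const5 h1 (by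
      show th 5 (zz a - zz a + 0) = 0
      rw [th5_add, th5_sub, th5_zero]; ring)⟩
  have h12 : ∀ i j : Fin 1, f (Sum.inl i) (Sum.inr j) = 0 := by
    intro i j
    have h1 := hf.1 (Sum.inl i) (Sum.inr j)
    refine hom_zero5 h1 (Or.inl ?_)
    have h2 := (Q.F p).toFac.gr a j
    have h3 := (Q.F q).toFac.gl a i
    show th 5 (((Q.F q).E a).g (Sum.inl i) - ((Q.F p).E a).g (Sum.inr j) + 0) < 0
    rw [th5_add, th5_sub, th5_zero, h2, h3]
    omega
  have h21 : ∀ i j : Fin 1, f (Sum.inr i) (Sum.inl j) = 0 := by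
    intro i j
    have h1 := hf.1 (Sum.inr i) (Sum.inl j)
    refine hom_zero5 h1 (Or.inr ?_)
    have h2 := (Q.F q).toFac.gr a i
    have h3 := (Q.F p).toFac.gl a j
    show th 5 (((Q.F q).E a).g (Sum.inr i) - ((Q.F p).E a).g (Sum.inl j) + 0) % 2 = 1
    rw [th5_add, th5_sub, th5_zero, h2, h3]
    omega
  have h22 : ∀ i j : Fin 1, ∃ c : ℂ, f (Sum.inr i) (Sum.inr j) = C c := by
    intro i j
    have h1 := hf.1 (Sum.inr i) (Sum.inr j)
    exact ⟨_, hom_const5 h1 (by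
      have h2 := (Q.F q).toFac.gr a i
      have h3 := (Q.F p).toFac.gr a j
      show th 5 (((Q.F q).E a).g (Sum.inr i) - ((Q.F p).E a).g (Sum.inr j) + 0) = 0
      rw [th5_add, th5_sub, th5_zero, h2, h3]; ring)⟩
  obtain ⟨c, hc⟩ := h11 0 0
  obtain ⟨e, he⟩ := h22 0 0
  -- the matrix of `f`
  have hfm : f = dg c e := by
    ext1 i j
    rcases i with (i | i) <;> rcases j with (j | j)
    · have hi : i = (0 : Fin 1) := Subsingleton.elim (α := Fin 1) _ _
      have hj : j = (0 : Fin 1) := Subsingleton.elim (α := Fin 1) _ _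
      subst hi hj
      rw [hc]
      show C c = (C c : MvPolynomial (Fin 2) ℂ) • (1 : Matrix (Fin 1) (Fin 1) _) 0 0
      simp
    · rw [h12 i j]; rfl
    · rw [h21 i j]; rfl
    · have hi : i = (0 : Fin 1) := Subsingleton.elim (α := Fin 1) _ _
      have hj : j = (0 : Fin 1) := Subsingleton.elim (α := Fin 1) _ _
      subst hi hj
      rw [he]
      show C e = (C e : MvPolynomial (Fin 2) ℂ) • (1 : Matrix (Fin 1) (Fin 1) _) 0 0
      simp
  subst hfm
  rcases dg_eq Q p q c e hf.2 with h | ⟨h, h'⟩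
  · left
    exact hm_eq_zero_iff.2 (by rw [h]; exact N_zero)
  · subst h h'
    have h1 : hm _ hf = c • 𝟙 ((Q.F p).E a) := by
      rw [hm_id, hm_smul]
      refine hm_congr ?_
      show dg c c = c • 1
      ext i j
      rcases i with (i | i) <;> rcases j with (j | j) <;>
        simp [dg, Matrix.one_apply, MvPolynomial.smul_eq_C_mul]
    rw [h1]
    exact smul_iso _ _

end Pool.Agent.Helper445_GMF
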