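import Pool.Agent.Helper445_GMF.Qn6

/-!
Binary quintics: generation and the positions of the standard objects.
-/

set_option autoImplicit false
set_option linter.unusedSectionVars false

open CategoryTheory Matrix Pretriangulated Triangulated Limits MvPolynomial ZeroObject

namespace Pool.Agent.Helper445_GMF

section abs

universe v u

variable {C : Type u} [Category.{v} C] [Preadditive C] [HasZeroObject C] [HasShift C ℤ]
  [∀ n : ℤ, (shiftFunctor C n).Additive] [Pretriangulated C] [IsTriangulated C]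
  {ι : Type} {S : ι → ℤ → C} (hS : Smc S)

include hS

/-- extensions of words -/
theorem Dw.ext' {t : ℤ} (m : ℕ) : ∀ {k : ℤ} {X Y V : C}, Srt S k m V → t ≤ k → Dw S t X →
    ∀ (f : X ⟶ Y) (g : Y ⟶ V) (h : V ⟶ X⟦(1 : ℤ)⟧), Triangle.mk f g h ∈ distTriang C →
    Dw S t Y := by
  induction m with
  | zero =>
    intro k X Y V hV _ hX f g h H
    cases hV with
    | nil h0 =>
      have h2 : IsIso f := (Triangle.isZero₃_iff_isIso₁ _ H).1 h0
      exact hX.ofIso (asIso f)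
  | succ m ih =>
    intro k X Y V hV hk hX f g h H
    cases hV with
    | @snoc _ k' _ A _ i f' g' h' hT' hk' hA =>
      obtain ⟨Y', f2, h2, p, q, r, H1, H2, -⟩ := assocL H hT'
      have h3 : Dw S t Y' := ih hA (hk.trans hk') hX p q r H2
      obtain ⟨m3, h3⟩ := h3
      obtain ⟨m', -, h4⟩ := Srt.ins hS k' i h3 _ _ _ H1
      rw [min_eq_left (hk.trans hk')] at h4
      exact ⟨m', h4⟩

theorem Dw.ex {t : ℤ} {X Y V : C} {f : X ⟶ Y} {g : Y ⟶ V} {h : V ⟶ X⟦(1 : ℤ)⟧}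
    (H : Triangle.mk f g h ∈ distTriang C) (hX : Dw S t X) (hV : Dw S t V) : Dw S t Y := by
  obtain ⟨m, hV⟩ := hV
  exact Dw.ext' hS m hV le_rfl hX f g h H

end abs

/-- the position of an object -/
def Ht {C : Type} [Category.{0} C] [Preadditive C] [HasZeroObject C] [HasShift C ℤ]
    [∀ n : ℤ, (shiftFunctor C n).Additive] [Pretriangulated C] [IsTriangulated C]
    {ι : Type} (S : ι → ℤ → C) (k : ℤ) (X : C) : Prop := Dw S k X ∧ Vw S (k + 1) X

section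

variable {L : LG} {ι : Type} {S : ι → ℤ → MF L} (hS : Smc S)

include hS

theorem Smc.ex {t : ℤ} {X Y V : MF L} {f : X ⟶ Y} {g : Y ⟶ V} {h : V ⟶ X⟦(1 : ℤ)⟧}
    (H : Triangle.mk f g h ∈ distTriang (MF L)) (hX : Dw S t X ∧ Vw S (t + 1) X)
    (hV : Dw S t V ∧ Vw S (t + 1) V) : Dw S t Y ∧ Vw S (t + 1) Y :=
  ⟨Dw.ex hS H hX.1 hV.1, Ro_ext H hX.2 hV.2⟩

omit hS in
theorem Smc.iso {t : ℤ} {X Y : MF L} (e : X ≅ Y) (hX : Dw S t X ∧ Vw S (t + 1) X) :
    Dw S t Y ∧ Vw S (t + 1) Y := ⟨hX.1.ofIso e, Ro_of_iso e hX.2⟩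

theorem Smc.lt (i : ι) (k : ℤ) : Dw S k (S i k) ∧ Vw S (k + 1) (S i k) :=
  ⟨Dw.letter i k, Vw.letter hS (by omega) i⟩

end

variable {W : MvPolynomial (Fin 2) ℂ} {hW : IsWeightedHomogeneous a2 W 5}

theorem shift5 (X : MF (lg a2 5 W hW)) : Nonempty (X⟦(1 : ℤ)⟧ ≅ X.ts (zz 5) 1 (one_mul 1)) :=
  shift_iso X

theorem E_sh {k : ℤ} (F : Fac hW k) (m : ℤ) : Nonempty ((F.E m)⟦(1 : ℤ)⟧ ≅ F.E (m + 5)) := by
  obtain ⟨e⟩ := shift5 (F.E m)
  obtain ⟨e'⟩ := F.E_ts m 5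
  exact ⟨e ≪≫ e'⟩

theorem K_sh (m : ℤ) : Nonempty ((Kk hW m)⟦(1 : ℤ)⟧ ≅ Kk hW (m + 5)) := by
  obtain ⟨e⟩ := shift5 (Kk hW m)
  obtain ⟨e'⟩ := Kk_ts (hW := hW) m 5
  exact ⟨e ≪≫ e'⟩

theorem not_zero_of_hom {X Y : MF (lg a2 5 W hW)} (h : ∃ f : X ⟶ Y, f ≠ 0) : ¬ IsZero X := by
  rintro h0
  obtain ⟨f, hf⟩ := h
  exact hf (h0.eq_of_src _ _)

theorem Qd.smc (Q : Qd hW) : Smc Q.S where
  nz := by
    rintro (i | p) k
    · exact not_zero_of_hom (K_hom (Kk_red (hW := hW) (rr i + 5 * k))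
        (j := Sum.inl (Sum.inl (0 : Fin 1))) (Kk_g1 _ 0))
    · exact not_zero_of_hom (K_hom (E_red (Q.F p).toFac (by norm_num) (by norm_num) (-4 + 5 * k))
        (j := Sum.inl (0 : Fin 1)) ((Q.F p).toFac.gl _ 0))
  sh := by
    rintro (i | p) k
    · have h := K_sh (hW := hW) (rr i + 5 * k)
      have e : rr i + 5 * k + 5 = rr i + 5 * (k + 1) := by ring
      rw [e] at h
      exact h
    · have h := E_sh (Q.F p).toFac (-4 + 5 * k)
      have e : -4 + 5 * k + 5 = -4 + 5 * (k + 1) := by ring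
      rw [e] at h
      exact h
  hom := by
    rintro (i | p) (j | q) k l hl f
    · refine KK_zero ?_ f
      have h1 := rr_cases i
      have h2 := rr_cases j
      omega
    · have h1 := rr_cases i
      exact KE_zero (Q.F q).toFac (by omega) (by omega) f
    · refine EK_zero (Q.F p).toFac ?_ f
      have h2 := rr_cases j
      omega
    · exact EE_zero (Q.F p).toFac (Q.F q).toFac (by omega) f
  hom0 := by
    rintro (i | p) (j | q) k f
    · by_cases hij : i = j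
      · subst hij
        exact KK_end _ f
      · left
        refine KK_zero ?_ f
        have h1 := rr_cases i
        have h2 := rr_cases j
        have h3 : rr i ≠ rr j := fun h => hij (rr_inj h)
        omega
    · left
      have h1 := rr_cases i
      exact KE_zero (Q.F q).toFac (by omega) (by omega) f
    · left
      refine EK_zero (Q.F p).toFac ?_ f
      have h2 := rr_cases j
      omega
    · exact EE_end Q p q _ f

/-- the position of an object with respect to the collection -/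
def Qd.H (Q : Qd hW) (k : ℤ) (X : MF (lg a2 5 W hW)) : Prop := Dw Q.S k X ∧ Vw Q.S (k + 1) X

variable (Q : Qd hW)

theorem Qd.H_ex {t : ℤ} {X Y V : MF (lg a2 5 W hW)} {f : X ⟶ Y} {g : Y ⟶ V} {h : V ⟶ X⟦(1 : ℤ)⟧}
    (H : Triangle.mk f g h ∈ distTriang (MF (lg a2 5 W hW))) (hX : Q.H t X)
    (hV : Q.H t V) : Q.H t Y := Smc.ex Q.smc H hX hV

theorem Qd.H_iso {t : ℤ} {X Y : MF (lg a2 5 W hW)} (e : X ≅ Y) (hX : Q.H t X) : Q.H t Y :=
  Smc.iso e hX

theorem Qd.H_K (i : Fin 3) (k m : ℤ) (h : m = rr i + 5 * k) : Q.H k (Kk hW m) := by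
  subst h
  exact Smc.lt Q.smc (Sum.inl i) k

theorem Qd.H_E (p : Fin 5) (k m : ℤ) (h : m = -4 + 5 * k) : Q.H k ((Q.F p).E m) := by
  subst h
  exact Smc.lt Q.smc (Sum.inr p) k

theorem Qd.H_E2 (p : Fin 5) (k m : ℤ) (h : m = -2 + 5 * k) : Q.H k ((Q.F p).E m) := by
  obtain ⟨f, g, h', hd⟩ := (Q.F p).tri m
  exact Q.H_ex hd (Q.H_E p k _ (by omega)) (Q.H_K 2 k m (by rw [h]; rfl))

theorem Qd.H_E3 (p : Fin 5) (k m : ℤ) (h : m = 5 * k) : Q.H k ((Q.F p).E m) := by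
  obtain ⟨f, g, h', hd⟩ := (Q.F p).tri m
  exact Q.H_ex hd (Q.H_E2 p k _ (by omega)) (Q.H_K 1 k m (by rw [h]; simp [rr]))

theorem Qd.H_E4 (p : Fin 5) (k m : ℤ) (h : m = 2 + 5 * k) : Q.H k ((Q.F p).E m) := by
  obtain ⟨f, g, h', hd⟩ := (Q.F p).tri m
  exact Q.H_ex hd (Q.H_E3 p k _ (by omega)) (Q.H_K 0 k m (by rw [h]; rfl))

end Pool.Agent.Helper445_GMF
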