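import Pool.Agent.Helper445_GMF.Qn7

/-!
Binary quintics: generation and twists.
-/

set_option autoImplicit false
set_option linter.unusedSectionVars false

open CategoryTheory Matrix Pretriangulated Triangulated Limits MvPolynomial ZeroObject

namespace Pool.Agent.Helper445_GMF

variable {W : MvPolynomial (Fin 2) ℂ} {hW : IsWeightedHomogeneous a2 W 5} (Q : Qd hW)

include Q

theorem Qd.f_ne (p : Fin 5) : (Q.F p).f ≠ 0 := by
  intro h
  rw [(Q.F p).ef] at h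
  have h2 : (C (Q.F p).α * X 0 + C (Q.F p).β * X 1 : MvPolynomial (Fin 2) ℂ) =
      C 0 * X 0 + C 0 * X 1 := by rw [h]; simp
  exact (Q.F p).ne (lin_coeff h2)

theorem Qd.W_ne : W ≠ 0 := by
  rw [Q.prod]
  exact Finset.prod_ne_zero_iff.2 fun p _ => Q.f_ne p

theorem Qd.cancel (p : Fin 5) {c : MvPolynomial (Fin 2) ℂ} (h : (Q.F p).f * c = W) :
    (Q.F p).h = c := by
  have h1 := (Q.F p).e
  exact mul_left_cancel₀ (Q.f_ne p) (h1.trans h.symm)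

theorem mem_mul {p q : MvPolynomial (Fin 2) ℂ} {a b c : ℤ}
    (hp : IsWeightedHomogeneous (wt a2 5) p (zz a))
    (hq : IsWeightedHomogeneous (wt a2 5) q (zz b)) (h : a + b = c) :
    IsWeightedHomogeneous (wt a2 5) (p * q) (zz c) := by
  have := hp.mul hq
  rwa [← zz_add, h] at this

theorem Qd.E_m1 (p : Fin 5) (k m : ℤ) (h : m = -1 + 5 * k) : Q.H k ((Q.F p).E m) := by
  have hprod : W = (Q.F p).f * ((Q.F (p.succAbove 0)).f * (Q.F (p.succAbove 1)).f *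
      (Q.F (p.succAbove 2)).f * (Q.F (p.succAbove 3)).f) :=
    Q.prod.trans (by rw [Fin.prod_univ_succAbove _ p, Fin.prod_univ_four])
  have hl := (Q.F p).hf
  have h0 := (Q.F (p.succAbove 0)).hf
  have h1 := (Q.F (p.succAbove 1)).hf
  have h2 := (Q.F (p.succAbove 2)).hf
  have h3 := (Q.F (p.succAbove 3)).hf
  let P2 : Fac hW 2 :=
    { f := (Q.F (p.succAbove 0)).f * (Q.F (p.succAbove 1)).f
      h := (Q.F (p.succAbove 2)).f * (Q.F (p.succAbove 3)).f * (Q.F p).f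
      hf := mem_mul Q h0 h1 (by norm_num)
      hh := mem_mul Q (mem_mul Q h2 h3 rfl) hl (by norm_num)
      e := by linear_combination -hprod }
  let P3 : Fac hW 3 :=
    { f := (Q.F (p.succAbove 0)).f * (Q.F (p.succAbove 1)).f * (Q.F (p.succAbove 2)).f
      h := (Q.F (p.succAbove 3)).f * (Q.F p).f
      hf := mem_mul Q (mem_mul Q h0 h1 rfl) h2 (by norm_num)
      hh := mem_mul Q h3 hl (by norm_num)
      e := by linear_combination -hprod }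
  let P4 : Fac hW 4 :=
    { f := (Q.F (p.succAbove 0)).f * (Q.F (p.succAbove 1)).f * (Q.F (p.succAbove 2)).f *
        (Q.F (p.succAbove 3)).f
      h := (Q.F p).f
      hf := mem_mul Q (mem_mul Q (mem_mul Q h0 h1 rfl) h2 rfl) h3 (by norm_num)
      hh := by simpa using hl
      e := by linear_combination -hprod }
  have c0 := Q.cancel (p.succAbove 0) (c := (Q.F (p.succAbove 1)).f * P2.h) (by
    show _ * (_ * ((Q.F (p.succAbove 2)).f * (Q.F (p.succAbove 3)).f * (Q.F p).f)) = W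
    linear_combination -hprod)
  have c1 := Q.cancel (p.succAbove 1) (c := (Q.F (p.succAbove 0)).f * P2.h) (by
    show _ * (_ * ((Q.F (p.succAbove 2)).f * (Q.F (p.succAbove 3)).f * (Q.F p).f)) = W
    linear_combination -hprod)
  have c2 := Q.cancel (p.succAbove 2) (c := P2.f * P3.h) (by
    show _ * (((Q.F (p.succAbove 0)).f * (Q.F (p.succAbove 1)).f) *
      ((Q.F (p.succAbove 3)).f * (Q.F p).f)) = W
    linear_combination -hprod)
  have c3 := Q.cancel (p.succAbove 3) (c := P3.f * P4.h) (by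
    show _ * (((Q.F (p.succAbove 0)).f * (Q.F (p.succAbove 1)).f * (Q.F (p.succAbove 2)).f) *
      (Q.F p).f) = W
    linear_combination -hprod)
  have cp := Q.cancel p (c := P4.f) (by
    show _ * ((Q.F (p.succAbove 0)).f * (Q.F (p.succAbove 1)).f * (Q.F (p.succAbove 2)).f *
      (Q.F (p.succAbove 3)).f) = W
    linear_combination -hprod)
  -- the first step
  have hP2 : ∀ m', m' = -2 + 5 * k → Q.H k (P2.E m') := by
    intro m' hm
    obtain ⟨f, g, u, hd⟩ := Fac.tri (Q.F (p.succAbove 0)).toFac (Q.F (p.succAbove 1)).toFac P2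
      (by norm_num) rfl c0 c1 m'
    exact Q.H_ex hd (Q.H_E _ k _ (by omega)) (Q.H_E2 _ k _ hm)
  have hP3 : ∀ m', m' = 5 * k → Q.H k (P3.E m') := by
    intro m' hm
    obtain ⟨f, g, u, hd⟩ := Fac.tri P2 (Q.F (p.succAbove 2)).toFac P3
      (by norm_num) rfl (by
        show (Q.F (p.succAbove 2)).f * (Q.F (p.succAbove 3)).f * (Q.F p).f =
          (Q.F (p.succAbove 2)).f * ((Q.F (p.succAbove 3)).f * (Q.F p).f)
        ring) c2 m'
    exact Q.H_ex hd (hP2 _ (by omega)) (Q.H_E3 _ k _ hm)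
  have hP4 : Q.H k (P4.E (2 + 5 * k)) := by
    obtain ⟨f, g, u, hd⟩ := Fac.tri P3 (Q.F (p.succAbove 3)).toFac P4
      (by norm_num) rfl (by rfl) c3 (2 + 5 * k)
    exact Q.H_ex hd (hP3 _ (by omega)) (Q.H_E4 _ k _ rfl)
  obtain ⟨e⟩ := Fac.swap P4 (Q.F p).toFac (by norm_num) rfl cp (2 + 5 * k)
  have e2 : 2 + 5 * k + 5 - 2 * 4 = m := by rw [h]; ring
  rw [e2] at e
  exact Q.H_iso e hP4

/-- the rotated Koszul triangle -/
theorem Qd.tri2 (p : Fin 5) (m : ℤ) : ∃ (f : (Q.F p).E m ⟶ Kk hW m)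
    (g : Kk hW m ⟶ (Q.F p).E (m + 3)) (h : (Q.F p).E (m + 3) ⟶ ((Q.F p).E m)⟦(1 : ℤ)⟧),
    Triangle.mk f g h ∈ distTriang (MF (lg a2 5 W hW)) := by
  obtain ⟨f, g, h, hd⟩ := (Q.F p).tri m
  obtain ⟨e⟩ := E_sh (Q.F p).toFac (m - 2)
  have R : Triangle.mk g h (-f⟦(1 : ℤ)⟧') ∈ distTriang _ := rot_of_distTriang _ hd
  have e2 : m - 2 + 5 = m + 3 := by ring
  rw [e2] at e
  exact ⟨_, _, _, dist_third R e⟩

theorem Qd.K_m1 (k m : ℤ) (h : m = -1 + 5 * k) : Q.H k (Kk hW m) := by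
  obtain ⟨f, g, u, hd⟩ := Q.tri2 0 m
  exact Q.H_ex hd (Q.E_m1 0 k m h) (Q.H_E4 0 k _ (by omega))

theorem Qd.K_m4 (k m : ℤ) (h : m = -4 + 5 * k) : Q.H k (Kk hW m) := by
  obtain ⟨f, g, u, hd⟩ := Q.tri2 0 m
  exact Q.H_ex hd (Q.H_E 0 k m h) (Q.E_m1 0 k _ (by omega))

omit Q in
theorem mod5 (m : ℤ) : ∃ k : ℤ, m = -4 + 5 * k ∨ m = -2 + 5 * k ∨ m = -1 + 5 * k ∨ m = 5 * k ∨
    m = 2 + 5 * k := by
  have h : m % 5 = 0 ∨ m % 5 = 1 ∨ m % 5 = 2 ∨ m % 5 = 3 ∨ m % 5 = 4 := by omega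
  rcases h with h | h | h | h | h
  · exact ⟨m / 5, by omega⟩
  · exact ⟨m / 5 + 1, by omega⟩
  · exact ⟨m / 5, by omega⟩
  · exact ⟨m / 5 + 1, by omega⟩
  · exact ⟨m / 5 + 1, by omega⟩

/-- the positions of the twists of the Koszul matrix factorization -/
theorem Qd.H_Kk (k m : ℤ) (h : m = -4 + 5 * k ∨ m = -2 + 5 * k ∨ m = -1 + 5 * k ∨ m = 5 * k ∨
    m = 2 + 5 * k) : Q.H k (Kk hW m) := by
  rcases h with h | h | h | h | h
  · exact Q.K_m4 k m h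
  · exact Q.H_K 2 k m h
  · exact Q.K_m1 k m h
  · exact Q.H_K 1 k m (by rw [h]; simp [rr])
  · exact Q.H_K 0 k m h

theorem Qd.H_Ee (p : Fin 5) (k m : ℤ) (h : m = -4 + 5 * k ∨ m = -2 + 5 * k ∨ m = -1 + 5 * k ∨
    m = 5 * k ∨ m = 2 + 5 * k) : Q.H k ((Q.F p).E m) := by
  rcases h with h | h | h | h | h
  · exact Q.H_E p k m h
  · exact Q.H_E2 p k m h
  · exact Q.E_m1 p k m h
  · exact Q.H_E3 p k m h
  · exact Q.H_E4 p k m h

/-- a word -/
def Qd.Wd (Q : Qd hW) (X : MF (lg a2 5 W hW)) : Prop := ∃ k m, Srt Q.S k m X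

theorem Qd.Wd_H {k : ℤ} {X : MF (lg a2 5 W hW)} (h : Q.H k X) : Q.Wd X := ⟨k, h.1⟩

theorem Qd.cls : Cls (L := lg a2 5 W hW) Q.Wd where
  iso e := by
    rintro ⟨k, m, h⟩
    exact ⟨k, m, h.ofIso e⟩
  zero h := ⟨0, 0, Srt.nil h⟩
  ext := by
    rintro X Y V f g h H ⟨k, m, hX⟩ ⟨k', m', hV⟩
    have h1 : Dw Q.S (min k k') X := ⟨m, hX.mono (min_le_left _ _)⟩
    obtain ⟨m'', h2⟩ := Dw.ext' Q.smc m' hV (min_le_right k k') h1 f g h H
    exact ⟨_, _, h2⟩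

theorem Qd.Wd_ret {X Y : MF (lg a2 5 W hW)} (i : X ⟶ Y) (q : Y ⟶ X) (h : i ≫ q = 𝟙 X)
    (hY : Q.Wd Y) : Q.Wd X := by
  obtain ⟨V, ⟨e⟩⟩ := ret_biprod i q h
  obtain ⟨k, m, hY⟩ := hY
  exact (Srt.retract Q.smc m hY X V e).1

theorem Qd.Wd_K (m : ℤ) : Q.Wd (Kk hW m) := by
  obtain ⟨k, h⟩ := mod5 m
  exact Q.Wd_H (Q.H_Kk k m h)

theorem Qd.Wd_E (p : Fin 5) (m : ℤ) : Q.Wd ((Q.F p).E m) := by
  obtain ⟨k, h⟩ := mod5 m
  exact Q.Wd_H (Q.H_Ee p k m h)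

theorem Qd.Wd_ts (g : Gd 5) (X : MF (lg a2 5 W hW)) (h : Q.Wd X) :
    Q.Wd (X.ts g 1 (one_mul 1)) := by
  obtain ⟨k, m, h⟩ := h
  induction h with
  | nil h0 => exact Q.cls.zero (ts_isZero g _ h0)
  | @snoc k k' m A X i f g' h' hT hk hA ih =>
    obtain ⟨f2, g2, h2, hd⟩ := ts_dist' g _ hT
    refine Q.cls.ext hd ih ?_
    rw [eq_zz g]
    rcases i with i | p
    · obtain ⟨e⟩ := Kk_ts (hW := hW) (rr i + 5 * k') (th 5 g)
      exact Q.cls.iso e.symm (Q.Wd_K _)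
    · obtain ⟨e⟩ := (Q.F p).toFac.E_ts (-4 + 5 * k') (th 5 g)
      exact Q.cls.iso e.symm (Q.Wd_E _ _)

theorem Qd.gen (hs : ∀ x : Fin 2 → ℂ, (∀ i, eval x (pderiv i W) = 0) → x = 0)
    (X : MF (lg a2 5 W hW)) : ∃ k m, Srt Q.S k m X := by
  refine Cls.all (hd := by norm_num) (fun _ => by norm_num) Q.cls
    (fun i q h => Q.Wd_ret i q h) Q.Wd_ts hs (fun g => ?_) X
  rw [eq_zz g]
  obtain ⟨e⟩ := KK_iso (hW := hW) (th 5 g)
  exact Q.cls.iso e.symm (Q.Wd_K _)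

end Pool.Agent.Helper445_GMF
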