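import Pool.Agent.Helper445_GMF.Qn8

/-!
Binary quintics: twists of words and of torsion objects.
-/

set_option autoImplicit false
set_option linter.unusedSectionVars false

open CategoryTheory Matrix Pretriangulated Triangulated Limits MvPolynomial ZeroObject

namespace Pool.Agent.Helper445_GMF

variable {W : MvPolynomial (Fin 2) ℂ} {hW : IsWeightedHomogeneous a2 W 5} (Q : Qd hW)

theorem Qd.dw_ts {g : Gd 5} (hg : ∀ i k, Dw Q.S k ((Q.S i k).ts g 1 (one_mul 1))) {t : ℤ}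
    {X : MF (lg a2 5 W hW)} (h : Dw Q.S t X) : Dw Q.S t (X.ts g 1 (one_mul 1)) := by
  obtain ⟨m, h⟩ := h
  induction h with
  | nil h0 => exact Dw.of_zero (ts_isZero g _ h0)
  | @snoc k k' m A X i f g' h' hT hk hA ih =>
    obtain ⟨f2, g2, h2, hd⟩ := ts_dist' g _ hT
    exact Dw.ex Q.smc hd (ih.mono hk) ((hg i k').mono hk)

theorem Qd.dw2 {t : ℤ} {X : MF (lg a2 5 W hW)} (h : Dw Q.S t X) :
    Dw Q.S t (X.ts (zz 2) 1 (one_mul 1)) := by
  refine Q.dw_ts ?_ h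
  rintro (i | p) k
  · obtain ⟨e⟩ := Kk_ts (hW := hW) (rr i + 5 * k) 2
    refine Dw.ofIso e.symm ?_
    rcases rr_cases i with h | h | h
    · exact (Q.H_Kk (k + 1) _ (by omega)).1.mono (by omega)
    · exact (Q.H_Kk k _ (by omega)).1
    · exact (Q.H_Kk k _ (by omega)).1
  · obtain ⟨e⟩ := (Q.F p).toFac.E_ts (-4 + 5 * k) 2
    exact Dw.ofIso e.symm (Q.H_Ee p k _ (by omega)).1

theorem Qd.dw3' (i : Fin 3 ⊕ Fin 5) (k : ℤ) :
    Dw Q.S k ((Q.S i k).ts (zz 3) 1 (one_mul 1)) := by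
  rcases i with i | p
  · obtain ⟨e⟩ := Kk_ts (hW := hW) (rr i + 5 * k) 3
    refine Dw.ofIso e.symm ?_
    rcases rr_cases i with h | h | h
    · exact (Q.H_Kk (k + 1) _ (by omega)).1.mono (by omega)
    · exact (Q.H_Kk (k + 1) _ (by omega)).1.mono (by omega)
    · exact (Q.H_Kk (k + 1) _ (by omega)).1.mono (by omega)
  · obtain ⟨e⟩ := (Q.F p).toFac.E_ts (-4 + 5 * k) 3
    exact Dw.ofIso e.symm (Q.H_Ee p k _ (by omega)).1

theorem Qd.dw3 {t : ℤ} {X : MF (lg a2 5 W hW)} (h : Dw Q.S t X) :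
    Dw Q.S t (X.ts (zz 3) 1 (one_mul 1)) := Q.dw_ts Q.dw3' h

theorem ro_ts {U : MF (lg a2 5 W hW) → Prop} {g : Gd 5}
    (hU : ∀ X, U X → U (X.ts g 1 (one_mul 1))) {X : MF (lg a2 5 W hW)} (h : Ro U X) :
    Ro U (X.ts (-g) 1 (one_mul 1)) := by
  intro Y hY f
  refine hz_of_ts (g := g) ?_ f
  exact hz_iso ⟨Iso.refl _⟩ (ts_ts_iso' X g) (h _ (hU Y hY))

theorem Qd.vw2 {t : ℤ} {X : MF (lg a2 5 W hW)} (h : Vw Q.S t X) :
    Vw Q.S t (X.ts (-zz 2) 1 (one_mul 1)) := ro_ts (fun _ h => Q.dw2 h) h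

theorem Qd.vw3 {t : ℤ} {X : MF (lg a2 5 W hW)} (h : Vw Q.S t X) :
    Vw Q.S t (X.ts (-zz 3) 1 (one_mul 1)) := ro_ts (fun _ h => Q.dw3 h) h

/-- bounds for the generators of objects of the aisle -/
theorem Qd.gens_ge {B : MF (lg a2 5 W hW)} (hB : Red0 B) (h : Dw Q.S 0 B) (j : B.I) {k a : ℤ}
    (hj : th 5 (B.g j) = a)
    (hk : a = -4 + 5 * k ∨ a = -2 + 5 * k ∨ a = -1 + 5 * k ∨ a = 5 * k ∨ a = 2 + 5 * k) :
    0 ≤ k := by
  by_contra hc
  obtain ⟨f, hf⟩ := K_hom hB hj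
  exact hf ((Q.H_Kk k a hk).2.mono (by omega) B h f)

theorem Qd.gens_le {B : MF (lg a2 5 W hW)} (hB : Red0 B) (h : Vw Q.S 1 B) (j : B.I) {k a : ℤ}
    (hj : th 5 (B.g j) = a)
    (hk : a - 6 = -4 + 5 * k ∨ a - 6 = -2 + 5 * k ∨ a - 6 = -1 + 5 * k ∨ a - 6 = 5 * k ∨
      a - 6 = 2 + 5 * k) : k ≤ 0 := by
  by_contra hc
  obtain ⟨f, hf⟩ := hom_K hB hj
  exact hf (h _ ((Q.H_Kk k (a - 6) hk).1.mono (by omega)) f)

theorem red_ts {B : MF (lg a2 5 W hW)} (hB : Red0 B) (g : Gd 5) :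
    Red0 (B.ts g 1 (one_mul 1)) := by
  intro i j
  show constantCoeff ((1 : ℂ) • B.D i j) = 0
  rw [one_smul]
  exact hB i j

/-- reduction -/
theorem exists_red (B : MF (lg a2 5 W hW)) : ∃ B' : MF (lg a2 5 W hW), Nonempty (B ≅ B') ∧
    Red0 B' := by
  obtain ⟨B', h1, -, h2⟩ := rk_spec (aug (fun _ => by norm_num) (by norm_num) hW) B
  exact ⟨B', h1, (red_iff _ _ B').1 h2⟩

theorem low_eq {c f h f' h' : MvPolynomial (Fin 2) ℂ} (hf : f ≠ 0)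
    (e : rD (I := Fin 1) f' h' * fromBlocks 0 0 (c • 1) 0 =
      fromBlocks 0 0 (c • 1) 0 * rD (I := Fin 1) f h) : c = 0 := by
  have h1 := congrFun (congrFun e (Sum.inr 0)) (Sum.inr 0)
  have h2 : c = 0 ∨ f = 0 := by
    simpa [rD, Matrix.mul_apply, Fintype.sum_sum_type] using h1
  exact h2.resolve_right hf

theorem EE_zero' (F F' : Fac hW 1) {a b : ℤ} (h : b = a - 3) (hF : F.f ≠ 0)
    (f : F.E a ⟶ F'.E b) : f = 0 := by
  obtain ⟨f, hf, rfl⟩ := hm_surj f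
  have h11 : ∀ i j : Fin 1, f (Sum.inl i) (Sum.inl j) = 0 := by
    intro i j
    refine hom_zero5 (hf.1 (Sum.inl i) (Sum.inl j)) (Or.inl ?_)
    have h2 := F'.gl b i
    have h3 := F.gl a j
    show th 5 ((F'.E b).g (Sum.inl i) - (F.E a).g (Sum.inl j) + 0) < 0
    rw [th5_add, th5_sub, th5_zero, h2, h3]
    omega
  have h12 : ∀ i j : Fin 1, f (Sum.inl i) (Sum.inr j) = 0 := by
    intro i j
    refine hom_zero5 (hf.1 (Sum.inl i) (Sum.inr j)) (Or.inl ?_)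
    have h2 := F'.gl b i
    have h3 := F.gr a j
    show th 5 ((F'.E b).g (Sum.inl i) - (F.E a).g (Sum.inr j) + 0) < 0
    rw [th5_add, th5_sub, th5_zero, h2, h3]
    omega
  have h22 : ∀ i j : Fin 1, f (Sum.inr i) (Sum.inr j) = 0 := by
    intro i j
    refine hom_zero5 (hf.1 (Sum.inr i) (Sum.inr j)) (Or.inl ?_)
    have h2 := F'.gr b i
    have h3 := F.gr a j
    show th 5 ((F'.E b).g (Sum.inr i) - (F.E a).g (Sum.inr j) + 0) < 0
    rw [th5_add, th5_sub, th5_zero, h2, h3]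
    omega
  obtain ⟨c, hc⟩ : ∃ c : MvPolynomial (Fin 2) ℂ,
      f (Sum.inr (0 : Fin 1)) (Sum.inl (0 : Fin 1)) = c := ⟨_, rfl⟩
  have hfm : f = (fromBlocks 0 0 (c • 1) 0 : Matrix (Fin 1 ⊕ Fin 1) (Fin 1 ⊕ Fin 1)
      (MvPolynomial (Fin 2) ℂ)) := by
    ext1 i j
    rcases i with (i | i) <;> rcases j with (j | j)
    · rw [h11 i j]; rfl
    · rw [h12 i j]; rfl
    · have hi : i = (0 : Fin 1) := Subsingleton.elim (α := Fin 1) _ _
      have hj : j = (0 : Fin 1) := Subsingleton.elim (α := Fin 1) _ _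
      subst hi hj
      rw [hc]
      show c = c • (1 : Matrix (Fin 1) (Fin 1) (MvPolynomial (Fin 2) ℂ)) 0 0
      simp
    · rw [h22 i j]; rfl
  subst hfm
  have h1 := low_eq hF hf.2
  refine hm_eq_zero_iff.2 ?_
  rw [h1, zero_smul, fromBlocks_zero]
  exact N_zero

end Pool.Agent.Helper445_GMF
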