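import Pool.Agent.Helper445_GMF.Oct

/-!
Reduced models of matrix factorizations.
-/

set_option autoImplicit false
set_option linter.unusedSectionVars false

open CategoryTheory Matrix Pretriangulated Limits

namespace Pool.Agent.Helper445_GMF

variable {L : LG}

/-- an augmentation for which homogeneous elements not in the kernel are constants -/
structure Aug (L : LG) where
  /-- the augmentation -/
  ε : L.A →ₐ[ℂ] ℂ
  h : ∀ (g : L.G) (x : L.A), x ∈ L.pc g → ε x ≠ 0 → g = 0 ∧ x = algebraMap ℂ L.A (ε x)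
  hς : L.ς ≠ 0

/-- reduced matrix factorizations: the differential has no constant terms -/
def Rd (a : Aug L) (X : MF L) : Prop := ∀ i j, a.ε (X.D i j) = 0

theorem map_mul' {R S : Type} [CommRing R] [CommRing S] (f : R →+* S) {I J K : Type} [Fintype J]
    (M : Matrix I J R) (N : Matrix J K R) : (M * N).map f = M.map f * N.map f :=
  Matrix.map_mul

theorem card_le_of_left_inv {I J : Type} [Fintype I] [DecidableEq I] [Fintype J] [DecidableEq J]
    (f : Matrix J I ℂ) (f' : Matrix I J ℂ) (h : f' * f = 1) :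
    Fintype.card I ≤ Fintype.card J := by
  have hinj : Function.Injective (Matrix.mulVecLin f) := by
    intro v w hvw
    have : f'.mulVec (f.mulVec v) = f'.mulVec (f.mulVec w) := congrArg _ hvw
    rwa [Matrix.mulVec_mulVec, Matrix.mulVec_mulVec, h, Matrix.one_mulVec,
      Matrix.one_mulVec] at this
  have := LinearMap.finrank_le_finrank_of_injective hinj
  simpa using this

theorem Rd.card_le {a : Aug L} {X Y : MF L} (hX : Rd a X) (e : X ≅ Y) :
    Fintype.card X.I ≤ Fintype.card Y.I := by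
  obtain ⟨f, hf, ef⟩ := hm_surj e.hom
  obtain ⟨f', hf', ef'⟩ := hm_surj e.inv
  have h1 := e.hom_inv_id
  rw [ef, ef'] at h1
  obtain ⟨s, hs, es⟩ := hm_eq_iff.1 h1
  refine card_le_of_left_inv (f.map a.ε) (f'.map a.ε) ?_
  have h0 : X.D.map (a.ε : L.A →+* ℂ) = 0 := by
    ext i j; exact hX i j
  have h2 := congrArg (fun M => M.map (a.ε : L.A →+* ℂ)) es
  have h3 : (f' * f - 1).map (a.ε : L.A →+* ℂ) = f'.map a.ε * f.map a.ε - 1 := by
    rw [Matrix.map_sub _ (fun x y => map_sub _ x y), Matrix.map_mul]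
    congr 1
    exact Matrix.map_one _ (map_zero _) (map_one _)
  have h4 : (X.D * s + s * X.D).map (a.ε : L.A →+* ℂ) = 0 := by
    rw [Matrix.map_add _ (fun x y => map_add _ x y), Matrix.map_mul, Matrix.map_mul, h0]
    simp
  have h5 : f'.map a.ε * f.map a.ε - 1 = 0 := by rw [← h3, ← h4]; exact h2
  exact sub_eq_zero.1 h5

theorem algebraMap_mem (c : ℂ) : algebraMap ℂ L.A c ∈ L.pc 0 := by
  rw [Algebra.algebraMap_eq_smul_one]
  exact Submodule.smul_mem _ _ (SetLike.one_mem_graded _)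

/-- Gaussian elimination -/
theorem elim_step (a : Aug L) {X : MF L} (hX : ¬ Rd a X) :
    ∃ Y : MF L, Nonempty (X ≅ Y) ∧ Fintype.card Y.I < Fintype.card X.I := by
  unfold Rd at hX
  push Not at hX
  obtain ⟨p, q, hpq⟩ := hX
  obtain ⟨hg, hD⟩ := a.h _ _ (X.hD p q) hpq
  set u := a.ε (X.D p q) with hu
  have hne : p ≠ q := by
    rintro rfl
    apply a.hς
    simpa using hg
  set c : L.A := algebraMap ℂ L.A (-u⁻¹) with hc
  set h : Matrix X.I X.I L.A := Matrix.single q p c with hh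
  have hcu : c * X.D p q * c = -c := by
    rw [hD, hc, ← map_mul, ← map_mul, ← map_neg]
    congr 1
    field_simp
  have h1 : h * h = 0 := by
    rw [hh]
    exact Matrix.single_mul_single_of_ne _ _ _ _ hne _
  have h2 : h * X.D * h = -h := by
    rw [hh, Matrix.single_mul_mul_single, hcu]
    ext i j
    simp [Matrix.single, Matrix.of_apply]
    split_ifs <;> simp
  have hh' : h ∈ Hg X.g X.g (-L.ς) := by
    intro i j
    rw [hh, Matrix.single_apply]
    split_ifs with hij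
    · obtain ⟨rfl, rfl⟩ := hij
      refine LG.mem_of_eq (algebraMap_mem _) ?_
      have : X.g q - X.g p + -L.ς = -(X.g p - X.g q + L.ς) := by abel
      rw [this, hg, neg_zero]
    · exact Submodule.zero_mem _
  set F : Matrix X.I X.I L.A := 1 + X.D * h + h * X.D with hF
  have hF0 : F ∈ Hg X.g X.g 0 := by
    refine Hg_add (Hg_add (Hg_one _) ?_) ?_
    · exact Hg_mul X.hD' hh' (by abel)
    · exact Hg_mul hh' X.hD' (by abel)
  have hFF : F * F = F := by
    have e : F * F = 1 + (X.D * h + h * X.D) + (X.D * h + h * X.D) +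
        (X.D * (h * X.D * h) + X.D * (h * h) * X.D + h * (X.D * X.D) * h +
          (h * X.D * h) * X.D) := by
      rw [hF]; noncomm_ring
    have e2 : h * (X.D * X.D) * h = 0 := by
      rw [X.sq, Matrix.mul_smul, Matrix.mul_one, Matrix.smul_mul, h1, smul_zero]
    rw [e, h1, h2, e2, hF]
    simp
    abel
  have hDF : X.D * F = F * X.D := by
    have e : X.D * F - F * X.D = (X.D * X.D) * h - h * (X.D * X.D) := by
      rw [hF]; noncomm_ring
    rw [X.sq, Matrix.smul_mul, Matrix.mul_smul, Matrix.one_mul, Matrix.mul_one, sub_self] at e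
    exact sub_eq_zero.1 e
  have hrow : ∀ j, F p j = 0 := by
    intro j
    have e1 : (h * X.D) p j = 0 := by
      rw [hh]; exact Matrix.single_mul_apply_of_ne _ _ _ _ _ hne _
    have e2 : (X.D * h) p j = (1 : Matrix X.I X.I L.A) p j * -1 := by
      rw [hh]
      by_cases hj : p = j
      · subst hj
        rw [Matrix.mul_single_apply_same, Matrix.one_apply_eq, hD, hc, ← map_mul]
        rw [one_mul, mul_neg, mul_inv_cancel₀ hpq, map_neg, map_one]
      · rw [Matrix.mul_single_apply_of_ne _ _ _ _ _ (fun h => hj h.symm), Matrix.one_apply_ne hj,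
          zero_mul]
    rw [hF, Matrix.add_apply, Matrix.add_apply, e1, e2]
    ring
  have hcol : ∀ i, F i q = 0 := by
    intro i
    have e1 : (X.D * h) i q = 0 := by
      rw [hh]; exact Matrix.mul_single_apply_of_ne _ _ _ _ _ (fun h => hne h.symm) _
    have e2 : (h * X.D) i q = (1 : Matrix X.I X.I L.A) i q * -1 := by
      rw [hh]
      by_cases hj : i = q
      · subst hj
        rw [Matrix.single_mul_apply_same, Matrix.one_apply_eq, hD, hc, ← map_mul]
        rw [one_mul, neg_mul, inv_mul_cancel₀ hpq, map_neg, map_one]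
      · rw [Matrix.single_mul_apply_of_ne _ _ _ _ _ hj, Matrix.one_apply_ne hj, zero_mul]
    rw [hF, Matrix.add_apply, Matrix.add_apply, e1, e2]
    ring
  -- the smaller index set
  let J : Type := {i : X.I // i ≠ p ∧ i ≠ q}
  let v : J → X.I := Subtype.val
  let π : Matrix J X.I L.A := F.submatrix v id
  let ι : Matrix X.I J L.A := F.submatrix id v
  have hπι : π * ι = 1 := by
    have e1 : π * ι = F.submatrix v v := by
      have : π * ι = (F * F).submatrix v v := by
        ext i j; simp [π, ι, Matrix.mul_apply]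
      rw [this, hFF]
    rw [e1]
    ext i j
    have e2 : (X.D * h) i.1 j.1 = 0 := by
      rw [hh]; exact Matrix.mul_single_apply_of_ne _ _ _ _ _ j.2.1 _
    have e3 : (h * X.D) i.1 j.1 = 0 := by
      rw [hh]; exact Matrix.single_mul_apply_of_ne _ _ _ _ _ i.2.2 _
    show F i.1 j.1 = (1 : Matrix J J L.A) i j
    rw [hF, Matrix.add_apply, Matrix.add_apply, e2, e3, add_zero, add_zero]
    by_cases hij : i = j
    · rw [hij, Matrix.one_apply_eq, Matrix.one_apply_eq]
    · rw [Matrix.one_apply_ne hij, Matrix.one_apply_ne fun h => hij (Subtype.ext h)]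
  have hιπ : ι * π = F := by
    have e1 : ∀ i j, (ι * π) i j = ∑ k : J, F i k.1 * F k.1 j := fun i j => by
      rw [Matrix.mul_apply]; rfl
    ext i j
    have e4 : F i j = ∑ k, F i k * F k j := by rw [← Matrix.mul_apply, hFF]
    refine Eq.trans (e1 i j) (Eq.trans ?_ e4.symm)
    have e2 : ∑ k : J, F i k.1 * F k.1 j =
        ∑ k ∈ Finset.univ.filter (fun k : X.I => k ≠ p ∧ k ≠ q), F i k * F k j := by
      rw [Finset.sum_subtype (Finset.univ.filter (fun k : X.I => k ≠ p ∧ k ≠ q))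
        (p := fun k => k ≠ p ∧ k ≠ q) (by intro x; simp)]
    rw [e2, Finset.sum_filter_of_ne]
    intro k _ hk
    refine ⟨?_, ?_⟩
    · rintro rfl; exact hk (by rw [hrow, mul_zero])
    · rintro rfl; exact hk (by rw [hcol, zero_mul])
  have hπF : π * F = π := by
    have : π * F = (F * F).submatrix v id := by
      ext i j; simp [π, Matrix.mul_apply]
    rw [this, hFF]
  have hFι : F * ι = ι := by
    have : F * ι = (F * F).submatrix id v := by
      ext i j; simp [ι, Matrix.mul_apply]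
    rw [this, hFF]
  have hπ0 : π ∈ Hg X.g (fun j : J => X.g j.1) 0 := fun i j => hF0 i.1 j
  have hι0 : ι ∈ Hg (fun j : J => X.g j.1) X.g 0 := fun i j => hF0 i j.1
  let Y : MF L :=
    { I := J
      g := fun j => X.g j.1
      D := π * X.D * ι
      hD := Hg_mul (Hg_mul hπ0 X.hD' (zero_add _)) hι0 (add_zero _)
      sq := by
        calc π * X.D * ι * (π * X.D * ι) = π * X.D * (ι * π) * X.D * ι := by
              simp only [Matrix.mul_assoc]
          _ = π * (X.D * F) * X.D * ι := by rw [hιπ]; simp only [Matrix.mul_assoc]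
          _ = π * F * (X.D * X.D) * ι := by rw [hDF]; simp only [Matrix.mul_assoc]
          _ = L.W • 1 := by
              rw [hπF, X.sq, Matrix.mul_smul, Matrix.mul_one, Matrix.smul_mul, hπι] }
  refine ⟨Y, ⟨isoOf (X := X) (Y := Y) π ι ⟨hπ0, ?_⟩ ⟨hι0, ?_⟩ ⟨h, hh', ?_⟩ ⟨0, Hg_zero, ?_⟩⟩, ?_⟩
  · show π * X.D * ι * π = π * X.D
    rw [Matrix.mul_assoc (π * X.D), hιπ, Matrix.mul_assoc, hDF, ← Matrix.mul_assoc, hπF]
  · show X.D * ι = ι * (π * X.D * ι)
    rw [← Matrix.mul_assoc, ← Matrix.mul_assoc, hιπ, ← hDF, Matrix.mul_assoc, hFι]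
  · rw [hιπ, hF]; abel
  · show π * ι - 1 = Y.D * 0 + 0 * Y.D
    rw [hπι]; simp
  · exact Fintype.card_subtype_lt (p := fun i => i ≠ p ∧ i ≠ q) (x := p) (by simp)

/-- the rank: the minimal number of generators -/
noncomputable def rk (X : MF L) : ℕ :=
  sInf {m | ∃ Y : MF L, Nonempty (X ≅ Y) ∧ Fintype.card Y.I = m}

theorem rk_le {X Y : MF L} (e : X ≅ Y) : rk X ≤ Fintype.card Y.I := Nat.sInf_le ⟨Y, ⟨e⟩, rfl⟩

theorem rk_spec (a : Aug L) (X : MF L) :
    ∃ Y : MF L, Nonempty (X ≅ Y) ∧ Fintype.card Y.I = rk X ∧ Rd a Y := by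
  obtain ⟨Y, ⟨e⟩, hY⟩ := Nat.sInf_mem (s := {m | ∃ Y : MF L, Nonempty (X ≅ Y) ∧
    Fintype.card Y.I = m}) ⟨_, X, ⟨Iso.refl X⟩, rfl⟩
  refine ⟨Y, ⟨e⟩, hY, ?_⟩
  by_contra hc
  obtain ⟨Y', ⟨e'⟩, h'⟩ := elim_step a hc
  have := rk_le (e ≪≫ e')
  have h2 : Fintype.card Y.I = rk X := hY
  omega

theorem rk_iso {X Y : MF L} (e : X ≅ Y) : rk X = rk Y := by
  unfold rk
  congr 1
  ext m
  constructor
  · rintro ⟨V, ⟨e'⟩, h⟩; exact ⟨V, ⟨e.symm ≪≫ e'⟩, h⟩
  · rintro ⟨V, ⟨e'⟩, h⟩; exact ⟨V, ⟨e ≪≫ e'⟩, h⟩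

theorem rk_rd {a : Aug L} {X : MF L} (hX : Rd a X) : rk X = Fintype.card X.I := by
  refine le_antisymm (rk_le (Iso.refl X)) ?_
  obtain ⟨Y, ⟨e⟩, hY, _⟩ := rk_spec a X
  rw [← hY]
  exact hX.card_le e

theorem rk_zero {X : MF L} (h : rk X = 0) : IsZero X := by
  obtain ⟨Y, ⟨e⟩, hY⟩ := Nat.sInf_mem (s := {m | ∃ Y : MF L, Nonempty (X ≅ Y) ∧
    Fintype.card Y.I = m}) ⟨_, X, ⟨Iso.refl X⟩, rfl⟩
  have hY' : Fintype.card Y.I = 0 := hY.trans h
  have : IsEmpty Y.I := Fintype.card_eq_zero_iff.1 hY'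
  refine IsZero.of_iso ?_ e
  rw [IsZero.iff_id_eq_zero]
  exact hm_congr (by ext i; exact this.elim i)

theorem rk_tri (T : Triangle (MF L)) (hT : T ∈ distTriang (MF L)) :
    rk T.obj₂ ≤ rk T.obj₁ + rk T.obj₃ := by
  obtain ⟨X, ⟨e1⟩, h1⟩ := Nat.sInf_mem (s := {m | ∃ Y : MF L, Nonempty (T.obj₁ ≅ Y) ∧
    Fintype.card Y.I = m}) ⟨_, T.obj₁, ⟨Iso.refl _⟩, rfl⟩
  obtain ⟨V, ⟨e3⟩, h3⟩ := Nat.sInf_mem (s := {m | ∃ Y : MF L, Nonempty (T.obj₃ ≅ Y) ∧
    Fintype.card Y.I = m}) ⟨_, T.obj₃, ⟨Iso.refl _⟩, rfl⟩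
  let e : T.obj₃⟦(-1 : ℤ)⟧ ≅ V.sh (-1) := (shiftFunctor (MF L) (-1 : ℤ)).mapIso e3
  obtain ⟨f, hf, ef⟩ := hm_surj (X := V.sh (-1)) (Y := X) (e.inv ≫ T.invRotate.mor₁ ≫ e1.hom)
  have hd : tri f hf ∈ distTriang (MF L) := dist_tri f hf
  let E := isoTriangleOfIso₁₂ T.invRotate (tri f hf) (inv_rot_of_distTriang T hT) hd e e1 (by
    show T.invRotate.mor₁ ≫ e1.hom = e.hom ≫ hm f hf
    rw [← ef]
    exact (e.hom_inv_id_assoc _).symm)
  have e2 : T.obj₂ ≅ cone f hf := Triangle.π₃.mapIso E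
  refine (rk_le e2).trans ?_
  have h4 : Fintype.card (cone f hf).I = Fintype.card X.I + Fintype.card V.I := Fintype.card_sum
  have h1' : Fintype.card X.I = rk T.obj₁ := h1
  have h3' : Fintype.card V.I = rk T.obj₃ := h3
  rw [h4, h1', h3']

end Pool.Agent.Helper445_GMF
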