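import Pool.Agent.Helper445_GMF.Tot

/-!
The rank of a semistable object is bounded by its central charge; the central charge is a
multiple of the supertrace.
-/

set_option autoImplicit false
set_option linter.unusedSectionVars false

open CategoryTheory Matrix Pretriangulated Limits MvPolynomial

namespace Pool.Agent.Helper445_GMF

section general

universe v u

variable {C : Type u} [Category.{v} C] [Preadditive C] [HasZeroObject C] [HasShift C ℤ]
  [∀ n : ℤ, (shiftFunctor C n).Additive] [Pretriangulated C] [IsTriangulated C] (σ : PreStab C)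

theorem im_le (s : ℝ) (z : ℂ) : PreStab.im s z ≤ ‖z‖ := by
  unfold PreStab.im
  refine (le_abs_self _).trans ((Complex.abs_im_le_norm _).trans (le_of_eq ?_))
  rw [norm_mul]
  have : ‖Complex.exp (-(Complex.I * Real.pi * s))‖ = 1 := by
    have e : -(Complex.I * Real.pi * s) = ((-(Real.pi * s) : ℝ) : ℂ) * Complex.I := by
      push_cast; ring
    rw [e, Complex.norm_exp_ofReal_mul_I]
  rw [this, one_mul]

theorem H_le {φ : ℝ} {A : C} (hA : σ.P φ A) (s : ℝ) : σ.H s A ≤ ‖σ.Z A‖ := by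
  unfold PreStab.H
  rcases le_or_gt φ s with h | h
  · rw [σ.F_ge s hA h, σ.F_ge (s + 1) hA (by linarith), add_zero]
    exact norm_nonneg _
  · rcases le_or_gt φ (s + 1) with h' | h'
    · rw [σ.F_ge (s + 1) hA h', add_zero, σ.F_lt s hA h]
      exact im_le _ _
    · rw [σ.F_lt s hA h, σ.F_lt (s + 1) hA h', PreStab.im_add_one, add_neg_cancel]
      exact norm_nonneg _

theorem M_le {d : ℕ} (hd : 0 < d) (ψ : ℝ) {φ : ℝ} {A : C} (hA : σ.P φ A) :
    σ.M d ψ A ≤ (d + 3) * ‖σ.Z A‖ := by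
  unfold PreStab.M
  have h1 := σ.M_supp hd ψ (a := φ) (b := φ) (Gen.ss (Set.mem_Icc.2 ⟨le_rfl, le_rfl⟩) hA)
  rw [finsum_eq_sum_of_support_subset _ (s := Finset.Icc ⌊(φ - 1 - ψ) * d⌋ ⌈(φ - ψ) * d⌉) (by
    rw [Finset.coe_Icc]; exact h1)]
  refine (Finset.sum_le_card_nsmul _ _ ‖σ.Z A‖ fun m _ => H_le σ hA _).trans ?_
  rw [nsmul_eq_mul, Int.card_Icc]
  refine mul_le_mul_of_nonneg_right ?_ (norm_nonneg _)
  have h2 : (⌈(φ - ψ) * d⌉ : ℝ) < (φ - ψ) * d + 1 := Int.ceil_lt_add_one _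
  have h3 : (φ - 1 - ψ) * d - 1 < (⌊(φ - 1 - ψ) * d⌋ : ℝ) := Int.sub_one_lt_floor _
  have h4 : ((⌈(φ - ψ) * d⌉ + 1 - ⌊(φ - 1 - ψ) * d⌋ : ℤ) : ℝ) < d + 3 := by
    push_cast; nlinarith
  have h5 : (⌈(φ - ψ) * d⌉ + 1 - ⌊(φ - 1 - ψ) * d⌋ : ℤ) < d + 3 := by exact_mod_cast h4
  have h6 : (⌈(φ - ψ) * d⌉ + 1 - ⌊(φ - 1 - ψ) * d⌋ : ℤ).toNat ≤ d + 3 := by omega
  exact_mod_cast h6

theorem exists_M_pos {d : ℕ} (hd : 0 < d) {X : C} (h : ¬ IsZero X) : ∃ ψ, 0 < σ.M d ψ X := by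
  obtain ⟨x, y, hx⟩ := σ.hn X
  rcases σ.HN_nonzero hx with h' | ⟨x', y', _, _, h'⟩
  · exact absurd h' h
  · cases h' with
    | one hP h0 =>
      exact ⟨x' - 1 / 2, σ.M_pos hd _ hP h0 0 (by simp; norm_num) (by simp)⟩
    | @step φ a _ T hT h₁ h₃ h0 hφ =>
      refine ⟨x' - 1 / 2, ?_⟩
      rw [σ.M_hn hd _ T hT ((σ.HN_gen (σ.HNn_HN h₁)).mono fun z hz => hφ.le.trans hz.1) h₃]
      have := σ.M_pos hd (x' - 1 / 2) h₃ h0 0 (by simp; norm_num) (by simp)
      have h2 := σ.M_nonneg hd (x' - 1 / 2) T.obj₁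
      linarith

end general

section general2

variable {L : LG} (l : List (L.A × L.A × L.G)) (hl : OK L l)
  (hs : (l.map fun p => p.1 * p.2.1).sum = L.W) (σ : PreStab (MF L)) (e : L.G → ℂ)
  (he : ∀ (g : L.G) (X : MF L), σ.Z (X.ts g 1 (one_mul 1)) = e g * σ.Z X)

include he

theorem Z_kos_fin (m : ℕ) (g : Fin m → L.G) :
    σ.Z (kos g l hl hs) = (∑ i, e (g i)) * σ.Z (kos (fun _ : Fin 1 => (0 : L.G)) l hl hs) := by
  induction m with
  | zero =>
    have h0 : IsZero (kos g l hl hs) := by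
      rw [IsZero.iff_id_eq_zero, ← km_one, ← km_zero]
      exact hm_congr (congrArg (fun F => kE F l) (by ext i; exact i.elim0))
    rw [σ.Z_zero h0]
    simp
  | succ m ih =>
    obtain ⟨e1⟩ := kos_re l hl hs g (finSumFinEquiv : Fin m ⊕ Fin 1 ≃ Fin (m + 1))
    have e3 : (fun j => g ((finSumFinEquiv : Fin m ⊕ Fin 1 ≃ Fin (m + 1)) j)) =
        Sum.elim (fun i => g (finSumFinEquiv (Sum.inl i)))
          (fun _ : Fin 1 => (0 : L.G) + g (Fin.last m)) := by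
      funext j
      rcases j with j | j
      · rfl
      · rw [Sum.elim_inr, zero_add]
        congr 1
        ext
        simp
    obtain ⟨e2⟩ := kos_sum l hl hs (fun i => g ((finSumFinEquiv : Fin m ⊕ Fin 1 ≃ Fin (m + 1))
      (Sum.inl i))) (fun _ : Fin 1 => (0 : L.G) + g (Fin.last m))
    obtain ⟨e4⟩ := kos_ts l hl hs (fun _ : Fin 1 => (0 : L.G)) (g (Fin.last m))
    rw [σ.Z_iso e1, e3, σ.Z_iso e2, σ.Z_biprod, ih, ← σ.Z_iso e4, he, ← add_mul,
      Fin.sum_univ_castSucc]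
    congr 2

theorem Z_kos {I : Type} [Fintype I] [DecidableEq I] (g : I → L.G) :
    σ.Z (kos g l hl hs) = (∑ i, e (g i)) * σ.Z (kos (fun _ : Fin 1 => (0 : L.G)) l hl hs) := by
  obtain ⟨e1⟩ := kos_re l hl hs g (Fintype.equivFin I).symm
  rw [σ.Z_iso e1, Z_kos_fin l hl hs σ e he]
  congr 1
  exact Equiv.sum_comp (Fintype.equivFin I).symm fun i => e (g i)

theorem Z_tw (E : MF L) : σ.Z (tw E l hl) = (l.map fun p => 1 - e (-p.2.2)).prod * σ.Z E := by
  induction l with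
  | nil =>
    rw [List.map_nil, List.prod_nil, one_mul]; rfl
  | cons p l ih =>
    obtain ⟨e1⟩ := (tw_cone E p l hl).iso
    have h1 := σ.add _ (dist_tri (X := (tw E l hl.tail).ts (-p.2.2) 1 (one_mul 1))
      (Y := tw E l hl.tail) (p.1 • 1) (twist_Z _ hl.head.1))
    have h2 : σ.Z (tw E l hl.tail) = σ.Z ((tw E l hl.tail).ts (-p.2.2) 1 (one_mul 1)) +
      σ.Z (cone (X := (tw E l hl.tail).ts (-p.2.2) 1 (one_mul 1))
      (Y := tw E l hl.tail) (p.1 • 1) (twist_Z _ hl.head.1)) := h1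
    rw [he] at h2
    have ih' := ih hl.tail
    rw [σ.Z_iso e1, List.map_cons, List.prod_cons, mul_assoc, ← ih', sub_mul, one_mul]
    linear_combination -h2

end general2

end Pool.Agent.Helper445_GMF
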