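import Pool.Agent.Helper445_GMF.Basic

/-!
Twists and shifts of graded matrix factorizations.
-/

set_option autoImplicit false

open CategoryTheory Matrix

namespace Pool.Agent.Helper445_GMF

variable {L : LG}

theorem ts_Z {X Y : MF L} {a : L.G} {c : ℂ} {hc : c * c = 1} {f : Matrix Y.I X.I L.A}
    (hf : f ∈ Z X Y) : f ∈ Z (X.ts a c hc) (Y.ts a c hc) :=
  ⟨Hg_eq hf.1 (fun i j => by show Y.g i - X.g j + 0 = Y.g i + a - (X.g j + a) + 0; abel), by
    show (c • Y.D) * f = f * (c • X.D)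
    rw [Matrix.smul_mul, Matrix.mul_smul, hf.2]⟩

theorem ts_N {X Y : MF L} {a : L.G} {c : ℂ} {hc : c * c = 1} {f : Matrix Y.I X.I L.A}
    (hf : f ∈ N X Y) : f ∈ N (X.ts a c hc) (Y.ts a c hc) := by
  obtain ⟨s, hs, rfl⟩ := hf
  refine ⟨c • s, Hg_csmul c (Hg_eq hs (fun i j => ?_)), ?_⟩
  · show Y.g i - X.g j + -L.ς = Y.g i + a - (X.g j + a) + -L.ς; abel
  · show _ = (c • Y.D) * (c • s) + (c • s) * (c • X.D)
    simp only [Matrix.smul_mul, Matrix.mul_smul, smul_smul, hc, one_smul]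

/-- the twist functor -/
noncomputable def tsF (a : L.G) (c : ℂ) (hc : c * c = 1) : MF L ⥤ MF L where
  obj X := X.ts a c hc
  map {X Y} φ := Quotient.liftOn φ (fun f => cl (X := X.ts a c hc) (Y := Y.ts a c hc) f.1
    (ts_Z f.2)) (fun _ _ h => cl_eq_iff.2 (ts_N h))
  map_id X := rfl
  map_comp {X Y V} φ ψ := by
    obtain ⟨f, hf, rfl⟩ := hm_surj φ
    obtain ⟨f', hf', rfl⟩ := hm_surj ψ
    rfl

theorem tsF_hm {X Y : MF L} {a : L.G} {c : ℂ} {hc : c * c = 1} {f : Matrix Y.I X.I L.A}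
    (hf : f ∈ Z X Y) : (tsF a c hc).map (hm f hf) =
      hm (X := X.ts a c hc) (Y := Y.ts a c hc) f (ts_Z hf) := rfl

instance tsF_additive (a : L.G) (c : ℂ) (hc : c * c = 1) :
    (tsF (L := L) a c hc).Additive where
  map_add {X Y φ ψ} := by
    obtain ⟨f, hf, rfl⟩ := hm_surj φ
    obtain ⟨f', hf', rfl⟩ := hm_surj ψ
    rfl

instance tsF_linear (a : L.G) (c : ℂ) (hc : c * c = 1) :
    Functor.Linear ℂ (tsF (L := L) a c hc) where
  map_smul {X Y} φ r := by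
    obtain ⟨f, hf, rfl⟩ := hm_surj φ
    rfl

theorem one_Z_ts {X : MF L} {a a' : L.G} {c c' : ℂ} {hc : c * c = 1} {hc' : c' * c' = 1}
    (ea : a = a') (ec : c = c') :
    (1 : Matrix X.I X.I L.A) ∈ Z (X.ts a c hc) (X.ts a' c' hc') := by
  subst ea; subst ec
  exact Z_one (X.ts a c hc)

/-- the identity matrix as a morphism between twists -/
noncomputable def idm (X : MF L) {a a' : L.G} {c c' : ℂ} (hc : c * c = 1) (hc' : c' * c' = 1)
    (ea : a = a') (ec : c = c') : X.ts a c hc ≅ X.ts a' c' hc' :=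
  isoOf' (X := X.ts a c hc) (Y := X.ts a' c' hc') (1 : Matrix X.I X.I L.A)
    (1 : Matrix X.I X.I L.A) (one_Z_ts ea ec) (one_Z_ts ea.symm ec.symm) (Matrix.mul_one _)
    (Matrix.mul_one _)

/-- signs -/
noncomputable def sgn (n : ℤ) : ℂ := ((n.negOnePow : ℤ) : ℂ)

theorem sgn_zero : sgn 0 = 1 := by simp [sgn]

theorem sgn_one : sgn 1 = -1 := by simp [sgn]

theorem sgn_add (m n : ℤ) : sgn (m + n) = sgn m * sgn n := by
  simp [sgn, Int.negOnePow_add]

theorem sgn_sq (n : ℤ) : sgn n * sgn n = 1 := by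
  unfold sgn
  rw [← Int.cast_mul, ← Units.val_mul, Int.units_mul_self]
  simp

/-- the shift by `n` -/
noncomputable abbrev MF.sh (X : MF L) (n : ℤ) : MF L := X.ts (n • L.ς) (sgn n) (sgn_sq n)

/-- the shift functors -/
noncomputable abbrev shF (L : LG) (n : ℤ) : MF L ⥤ MF L := tsF (n • L.ς) (sgn n) (sgn_sq n)

theorem eqToHom_shF {m n : ℤ} (e : m = n) (X : MF L)
    (h : (shF L m).obj X = (shF L n).obj X) :
    eqToHom h = (idm X (sgn_sq m) (sgn_sq n) (by rw [e]) (by rw [e])).hom := by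
  subst e
  rfl

theorem zero_Z (X : MF L) : (1 : Matrix X.I X.I L.A) ∈ Z (X.sh 0) X :=
  ⟨Hg_eq (Hg_one X.g) (fun i j => by
    show X.g i - X.g j + 0 = X.g i - (X.g j + (0 : ℤ) • L.ς) + 0; rw [zero_smul]; abel), by
    show X.D * 1 = 1 * (sgn 0 • X.D); rw [sgn_zero, one_smul, Matrix.mul_one, Matrix.one_mul]⟩

theorem zero_Z' (X : MF L) : (1 : Matrix X.I X.I L.A) ∈ Z X (X.sh 0) :=
  ⟨Hg_eq (Hg_one X.g) (fun i j => by
    show X.g i - X.g j + 0 = X.g i + (0 : ℤ) • L.ς - X.g j + 0; rw [zero_smul]; abel), by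
    show (sgn 0 • X.D) * 1 = 1 * X.D; rw [sgn_zero, one_smul, Matrix.mul_one, Matrix.one_mul]⟩

theorem add_Z (X : MF L) (m n k : ℤ) (h : m + n = k) :
    (1 : Matrix X.I X.I L.A) ∈ Z (X.sh k) ((X.sh m).sh n) :=
  ⟨Hg_eq (Hg_one X.g) (fun i j => by
      show X.g i - X.g j + 0 = X.g i + m • L.ς + n • L.ς - (X.g j + k • L.ς) + 0
      rw [← h, add_smul]; abel), by
      show (sgn n • (sgn m • X.D)) * 1 = 1 * (sgn k • X.D)
      rw [← h, sgn_add, smul_smul, Matrix.mul_one, Matrix.one_mul, mul_comm]⟩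

theorem add_Z' (X : MF L) (m n k : ℤ) (h : m + n = k) :
    (1 : Matrix X.I X.I L.A) ∈ Z ((X.sh m).sh n) (X.sh k) :=
  ⟨Hg_eq (Hg_one X.g) (fun i j => by
      show X.g i - X.g j + 0 = X.g i + k • L.ς - (X.g j + m • L.ς + n • L.ς) + 0
      rw [← h, add_smul]; abel), by
      show (sgn k • X.D) * 1 = 1 * (sgn n • (sgn m • X.D))
      rw [← h, sgn_add, smul_smul, Matrix.mul_one, Matrix.one_mul, mul_comm]⟩

theorem one_mul_one_mat (X : MF L) : (1 : Matrix X.I X.I L.A) * 1 = 1 := Matrix.mul_one _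

/-- the shift by zero is isomorphic to the identity -/
noncomputable def shZ (X : MF L) : X.sh 0 ≅ X :=
  isoOf' 1 1 (zero_Z X) (zero_Z' X) (one_mul_one_mat X) (one_mul_one_mat X)

/-- the shift by a sum -/
noncomputable def shA (m n : ℤ) (X : MF L) : X.sh (m + n) ≅ (X.sh m).sh n :=
  isoOf' 1 1 (add_Z X m n _ rfl) (add_Z' X m n _ rfl) (one_mul_one_mat X) (one_mul_one_mat X)

theorem one_mul_mat {X Y : MF L} (f : Matrix Y.I X.I L.A) :
    (1 : Matrix Y.I Y.I L.A) * f = f * (1 : Matrix X.I X.I L.A) := by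
  rw [Matrix.mul_one, Matrix.one_mul]

theorem shZ_nat {X Y : MF L} (φ : X ⟶ Y) :
    (shF L 0).map φ ≫ (shZ Y).hom = (shZ X).hom ≫ φ := by
  obtain ⟨f, hf, rfl⟩ := hm_surj φ
  exact hm_congr (one_mul_mat f)

theorem shA_nat (m n : ℤ) {X Y : MF L} (φ : X ⟶ Y) :
    (shF L (m + n)).map φ ≫ (shA m n Y).hom =
      (shA m n X).hom ≫ (shF L n).map ((shF L m).map φ) := by
  obtain ⟨f, hf, rfl⟩ := hm_surj φ
  exact hm_congr (one_mul_mat f)

/-- The shifts by all integers. -/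
noncomputable def shiftCore (L : LG) : ShiftMkCore (MF L) ℤ where
  F := shF L
  zero := NatIso.ofComponents shZ shZ_nat
  add m n := NatIso.ofComponents (shA m n) (shA_nat m n)
  assoc_hom_app m₁ m₂ m₃ X := by
    rw [eqToHom_shF (add_assoc m₁ m₂ m₃)]
    have e : (1 : Matrix X.I X.I L.A) * 1 = (1 * 1) * 1 := by simp
    exact hm_congr e
  zero_add_hom_app n X := by
    rw [eqToHom_shF (zero_add n)]
    have e : (1 : Matrix X.I X.I L.A) = 1 * 1 := by simp
    exact hm_congr e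
  add_zero_hom_app n X := by
    rw [eqToHom_shF (add_zero n)]
    have e : (1 : Matrix X.I X.I L.A) = 1 * 1 := by simp
    exact hm_congr e

noncomputable instance : HasShift (MF L) ℤ := hasShiftMk _ _ (shiftCore L)

theorem shift_obj (X : MF L) (n : ℤ) : X⟦n⟧ = X.sh n := rfl

theorem shift_hm {X Y : MF L} {f : Matrix Y.I X.I L.A} (hf : f ∈ Z X Y) (n : ℤ) :
    (hm f hf)⟦n⟧' = hm (X := X.sh n) (Y := Y.sh n) f (ts_Z hf) := rfl

instance (n : ℤ) : (shiftFunctor (MF L) n).Additive :=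
  inferInstanceAs ((shF L n).Additive)

instance (n : ℤ) : Functor.Linear ℂ (shiftFunctor (MF L) n) :=
  inferInstanceAs (Functor.Linear ℂ (shF L n))

end Pool.Agent.Helper445_GMF
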