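import Mathlib

/-!
Slicings and stability conditions on triangulated categories.
-/

set_option autoImplicit false
set_option linter.unusedSectionVars false

open CategoryTheory Pretriangulated Triangulated Limits ZeroObject

namespace Pool.Agent.Helper445_GMF

universe v u

variable {C : Type u} [Category.{v} C] [Preadditive C] [HasZeroObject C] [HasShift C ℤ]
  [∀ n : ℤ, (shiftFunctor C n).Additive] [Pretriangulated C]

/-- `HN P a b X` says that `X` has a filtration `0 = E₀ → E₁ → ⋯ → E_N = X` with `N ≥ 1` whose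
`i`-th factor lies in `P (φ i)`, with `b = φ 1 > ⋯ > φ N = a`. -/
inductive HN (P : ℝ → C → Prop) : ℝ → ℝ → C → Prop
  | one {φ : ℝ} {X : C} (hX : P φ X) : HN P φ φ X
  | step {φ a b : ℝ} (T : Triangle C) (hT : T ∈ distTriang C) (h₁ : HN P a b T.obj₁)
      (h₃ : P φ T.obj₃) (hφ : φ < a) : HN P φ b T.obj₂

/-- A stability condition, without the numerical property and the support property: a central
charge and a slicing. -/
structure PreStab (C : Type u) [Category.{v} C] [Preadditive C] [HasZeroObject C] [HasShift C ℤ]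
    [∀ n : ℤ, (shiftFunctor C n).Additive] [Pretriangulated C] where
  /-- the central charge -/
  Z : C → ℂ
  /-- the semistable objects of phase `φ` (together with the zero objects) -/
  P : ℝ → C → Prop
  add : ∀ T ∈ distTriang C, Z T.obj₂ = Z T.obj₁ + Z T.obj₃
  iso : ∀ {φ : ℝ} {X Y : C}, (X ≅ Y) → P φ X → P φ Y
  zero : ∀ (φ : ℝ) (X : C), IsZero X → P φ X
  phase : ∀ (φ : ℝ) (X : C), P φ X → ¬ IsZero X →
    ∃ m : ℝ, 0 < m ∧ Z X = m * Complex.exp (Complex.I * Real.pi * φ)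
  shift : ∀ (φ : ℝ) (X : C), P (φ + 1) (X⟦(1 : ℤ)⟧) ↔ P φ X
  hom : ∀ {φ φ' : ℝ} {X Y : C}, φ' < φ → P φ X → P φ' Y → ∀ f : X ⟶ Y, f = 0
  hn : ∀ X : C, ∃ a b : ℝ, HN P a b X

theorem dist_mid {X Y Y' V : C} {f : X ⟶ Y} {g : Y ⟶ V} {h : V ⟶ X⟦(1 : ℤ)⟧}
    (hT : Triangle.mk f g h ∈ distTriang C) (e : Y ≅ Y') :
    Triangle.mk (f ≫ e.hom) (e.inv ≫ g) h ∈ distTriang C :=
  isomorphic_distinguished _ hT _
    (Triangle.isoMk _ _ (Iso.refl _) e.symm (Iso.refl _)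
      (by show (f ≫ e.hom) ≫ e.inv = 𝟙 X ≫ f; simp)
      (by show (e.inv ≫ g) ≫ 𝟙 V = e.inv ≫ g; simp)
      (by show h ≫ (𝟙 X)⟦(1 : ℤ)⟧' = 𝟙 V ≫ h; simp))

/-- Stable objects of phase `φ`: nonzero semistable objects of phase `φ` which have no proper
nonzero subobject in the category `P φ` (the short exact sequences of `P φ` are the distinguished
triangles with three vertices in `P φ`). -/
def PreStab.Stable (σ : PreStab C) (φ : ℝ) (X : C) : Prop :=
  σ.P φ X ∧ ¬ IsZero X ∧ ∀ (A B : C) (f : A ⟶ X) (g : X ⟶ B) (h : B ⟶ A⟦(1 : ℤ)⟧),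
    Triangle.mk f g h ∈ distTriang C → σ.P φ A → σ.P φ B → IsZero A ∨ IsZero B

/-- the extension-closed subcategory generated by the semistable objects with phases in `S` -/
inductive Gen (P : ℝ → C → Prop) (S : Set ℝ) : C → Prop
  | zero {X : C} (hX : IsZero X) : Gen P S X
  | ss {φ : ℝ} {X : C} (hφ : φ ∈ S) (hX : P φ X) : Gen P S X
  | ext (T : Triangle C) (hT : T ∈ distTriang C) (h₁ : Gen P S T.obj₁) (h₃ : Gen P S T.obj₃) :
      Gen P S T.obj₂

namespace Gen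

variable {P : ℝ → C → Prop} {S S' : Set ℝ}

theorem mono (h : S ⊆ S') {X : C} (hX : Gen P S X) : Gen P S' X := by
  induction hX with
  | zero h => exact .zero h
  | ss hφ hX => exact .ss (h hφ) hX
  | ext T hT _ _ h₁ h₃ => exact .ext T hT h₁ h₃

theorem ofIso {X Y : C} (e : X ≅ Y) (hX : Gen P S X) : Gen P S Y := by
  refine .ext (Triangle.mk e.hom (0 : Y ⟶ 0) 0) ?_ hX (.zero (isZero_zero C))
  exact (Triangle.distinguished_iff_of_isZero₃ _ (isZero_zero C)).2 (show IsIso e.hom from inferInstance)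

theorem shift_one (σ : PreStab C) {S : Set ℝ} {X : C} (hX : Gen σ.P S X) :
    Gen σ.P {s | s - 1 ∈ S} (X⟦(1 : ℤ)⟧) := by
  induction hX with
  | zero h => exact .zero (Functor.map_isZero _ h)
  | @ss φ X hφ hX =>
    exact .ss (φ := φ + 1) (by simpa using hφ) ((σ.shift φ X).2 hX)
  | ext T hT _ _ h₁ h₃ =>
    exact .ext ((Triangle.shiftFunctor C 1).obj T) (Triangle.shift_distinguished T hT 1) h₁ h₃

theorem shift_neg (σ : PreStab C) {S : Set ℝ} {X : C} (hX : Gen σ.P S X) :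
    Gen σ.P {s | s + 1 ∈ S} (X⟦(-1 : ℤ)⟧) := by
  induction hX with
  | zero h => exact .zero (Functor.map_isZero _ h)
  | @ss φ X hφ hX =>
    refine .ss (φ := φ - 1) (by simpa using hφ) ((σ.shift _ _).1 ?_)
    rw [sub_add_cancel]
    exact σ.iso (shiftNegShift X (1 : ℤ)).symm hX
  | ext T hT _ _ h₁ h₃ =>
    exact .ext ((Triangle.shiftFunctor C (-1)).obj T) (Triangle.shift_distinguished T hT (-1)) h₁ h₃

theorem hom_zero (σ : PreStab C) {S S' : Set ℝ} (h : ∀ s ∈ S, ∀ s' ∈ S', s' < s) {X Y : C}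
    (hX : Gen σ.P S X) (hY : Gen σ.P S' Y) (f : X ⟶ Y) : f = 0 := by
  have key : ∀ {φ : ℝ} {X : C}, φ ∈ S → σ.P φ X → ∀ {Y : C}, Gen σ.P S' Y → ∀ f : X ⟶ Y, f = 0 := by
    intro φ X hφ hX Y hY
    induction hY with
    | zero h => intro f; exact h.eq_of_tgt _ _
    | ss hφ' hY => intro f; exact σ.hom (h _ hφ _ hφ') hX hY f
    | ext T hT _ _ h₁ h₃ =>
      intro f
      obtain ⟨g, rfl⟩ := T.coyoneda_exact₂ hT f (h₃ _)
      rw [h₁ g, zero_comp]
  induction hX with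
  | zero h => exact h.eq_of_src _ _
  | ss hφ hX => exact key hφ hX hY f
  | ext T hT _ _ h₁ h₃ =>
    obtain ⟨g, rfl⟩ := T.yoneda_exact₂ hT f (h₁ _)
    rw [h₃ g, comp_zero]

theorem isZero (σ : PreStab C) {S S' : Set ℝ} (h : ∀ s ∈ S, ∀ s' ∈ S', s' < s) {X : C}
    (hX : Gen σ.P S X) (hY : Gen σ.P S' X) : IsZero X :=
  (IsZero.iff_id_eq_zero X).2 (hom_zero σ h hX hY _)

/-- the third object of a triangle -/
theorem third (σ : PreStab C) {S : Set ℝ} (T : Triangle C) (hT : T ∈ distTriang C)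
    (h₂ : Gen σ.P S T.obj₂) (h₁ : Gen σ.P {s | s + 1 ∈ S} T.obj₁) : Gen σ.P S T.obj₃ := by
  refine .ext T.rotate (rot_of_distTriang T hT) h₂ ?_
  exact (shift_one σ h₁).mono (fun s hs => by simpa using hs)

/-- the first object of a triangle -/
theorem first (σ : PreStab C) {S : Set ℝ} (T : Triangle C) (hT : T ∈ distTriang C)
    (h₂ : Gen σ.P S T.obj₂) (h₃ : Gen σ.P {s | s - 1 ∈ S} T.obj₃) : Gen σ.P S T.obj₁ := by
  refine .ext T.invRotate (inv_rot_of_distTriang T hT) ?_ h₂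
  exact (shift_neg σ h₃).mono (fun s hs => by simpa using hs)

end Gen

namespace PreStab

variable (σ : PreStab C)

theorem Z_zero {X : C} (h : IsZero X) : σ.Z X = 0 := by
  have h1 := σ.add _ (contractible_distinguished X)
  have h2 := σ.add _ (contractible_distinguished₁ X)
  have h3 : σ.Z (0 : C) = 0 := by simpa using h1
  have h4 := σ.add (Triangle.mk (0 : X ⟶ 0) (0 : (0 : C) ⟶ 0) 0)
    ((Triangle.distinguished_iff_of_isZero₃ _ (isZero_zero C)).2 (by
      refine ⟨0, ?_, ?_⟩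
      · exact h.eq_of_src _ _
      · exact (isZero_zero C).eq_of_src _ _))
  have h5 : σ.Z (0 : C) = σ.Z X + σ.Z (0 : C) := h4
  rw [h3] at h5
  simpa using h5.symm

theorem Z_iso {X Y : C} (e : X ≅ Y) : σ.Z X = σ.Z Y := by
  have h := σ.add (Triangle.mk e.hom (0 : Y ⟶ 0) 0)
    ((Triangle.distinguished_iff_of_isZero₃ _ (isZero_zero C)).2 (show IsIso e.hom from
      inferInstance))
  have h' : σ.Z Y = σ.Z X + σ.Z (0 : C) := h
  rw [σ.Z_zero (isZero_zero C), add_zero] at h'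
  exact h'.symm

theorem Z_shift (X : C) : σ.Z (X⟦(1 : ℤ)⟧) = - σ.Z X := by
  have h : σ.Z (0 : C) = σ.Z X + σ.Z (X⟦(1 : ℤ)⟧) :=
    σ.add _ (rot_of_distTriang _ (contractible_distinguished X))
  rw [σ.Z_zero (isZero_zero C)] at h
  linear_combination -h

theorem HN_le {a b : ℝ} {X : C} (h : HN σ.P a b X) : a ≤ b := by
  induction h with
  | one _ => exact le_rfl
  | step T hT _ _ hφ ih => exact hφ.le.trans ih

theorem HN_gen {a b : ℝ} {X : C} (h : HN σ.P a b X) : Gen σ.P (Set.Icc a b) X := by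
  induction h with
  | @one φ X hX => exact .ss (Set.left_mem_Icc.2 le_rfl) hX
  | @step φ a b T hT h₁ h₃ hφ ih =>
    refine .ext T hT (ih.mono (Set.Icc_subset_Icc_left hφ.le)) (.ss ?_ h₃)
    exact Set.left_mem_Icc.2 (hφ.le.trans (σ.HN_le h₁))

end PreStab

/-- Harder-Narasimhan filtrations with nonzero factors -/
inductive HNn (P : ℝ → C → Prop) : ℝ → ℝ → C → Prop
  | one {φ : ℝ} {X : C} (hX : P φ X) (h0 : ¬ IsZero X) : HNn P φ φ X
  | step {φ a b : ℝ} (T : Triangle C) (hT : T ∈ distTriang C) (h₁ : HNn P a b T.obj₁)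
      (h₃ : P φ T.obj₃) (h0 : ¬ IsZero T.obj₃) (hφ : φ < a) : HNn P φ b T.obj₂

namespace PreStab

variable (σ : PreStab C)

theorem HNn_iso {a b : ℝ} {X Y : C} (h : HNn σ.P a b X) (e : X ≅ Y) : HNn σ.P a b Y := by
  cases h with
  | one hX h0 => exact .one (σ.iso e hX) (fun h => h0 (h.of_iso e))
  | step T hT h₁ h₃ h0 hφ =>
    exact .step (Triangle.mk (T.mor₁ ≫ e.hom) (e.inv ≫ T.mor₂) T.mor₃) (dist_mid hT e) h₁ h₃ h0 hφ

theorem HNn_HN {a b : ℝ} {X : C} (h : HNn σ.P a b X) : HN σ.P a b X := by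
  induction h with
  | one hX _ => exact .one hX
  | step T hT _ h₃ _ hφ ih => exact .step T hT ih h₃ hφ

theorem HN_nonzero {a b : ℝ} {X : C} (h : HN σ.P a b X) :
    IsZero X ∨ ∃ a' b', a ≤ a' ∧ b' ≤ b ∧ HNn σ.P a' b' X := by
  induction h with
  | @one φ X hX =>
    by_cases h0 : IsZero X
    · exact Or.inl h0
    · exact Or.inr ⟨φ, φ, le_rfl, le_rfl, .one hX h0⟩
  | @step φ a b T hT h₁ h₃ hφ ih =>
    by_cases h0 : IsZero T.obj₃
    · have : IsIso T.mor₁ := (Triangle.distinguished_iff_of_isZero₃ _ h0).1 hT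
      rcases ih with ih | ⟨a', b', ha, hb, ih⟩
      · exact Or.inl (T.isZero₂_of_isZero₁₃ hT ih h0)
      · exact Or.inr ⟨a', b', hφ.le.trans ha, hb, σ.HNn_iso ih (asIso T.mor₁)⟩
    · rcases ih with ih | ⟨a', b', ha, hb, ih⟩
      · have : IsIso T.mor₂ := (Triangle.distinguished_iff_of_isZero₁ _ ih).1 hT
        refine Or.inr ⟨φ, φ, le_rfl, hφ.le.trans (σ.HN_le h₁), ?_⟩
        exact .one (σ.iso (asIso T.mor₂).symm h₃) (fun h => h0 (h.of_iso (asIso T.mor₂).symm))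
      · exact Or.inr ⟨φ, b', le_rfl, hb, .step T hT ih h₃ h0 (hφ.trans_le ha)⟩

theorem HNn_low {a b : ℝ} {X : C} (h : HNn σ.P a b X) :
    ∃ A : C, σ.P a A ∧ ∃ f : X ⟶ A, f ≠ 0 := by
  cases h with
  | @one _ _ hX h0 => exact ⟨X, hX, 𝟙 X, fun h => h0 ((IsZero.iff_id_eq_zero X).2 h)⟩
  | @step φ a _ T hT h₁ h₃ h0 hφ =>
    refine ⟨T.obj₃, h₃, T.mor₂, fun h => h0 ?_⟩
    rw [IsZero.iff_id_eq_zero]
    obtain ⟨g, hg⟩ := T.yoneda_exact₃ hT (𝟙 T.obj₃) (by rw [h, zero_comp])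
    rw [hg, Gen.hom_zero σ ?_ (Gen.shift_one σ (σ.HN_gen (σ.HNn_HN h₁)))
      (Gen.ss (Set.mem_singleton _) h₃) g, comp_zero]
    rintro s hs s' rfl
    have : a ≤ s - 1 := hs.1
    linarith

theorem HNn_top {a b : ℝ} {X : C} (h : HNn σ.P a b X) :
    a ≤ b ∧ ∃ A : C, σ.P b A ∧ ∃ f : A ⟶ X, f ≠ 0 := by
  induction h with
  | @one _ X hX h0 => exact ⟨le_rfl, X, hX, 𝟙 X, fun h => h0 ((IsZero.iff_id_eq_zero X).2 h)⟩
  | @step φ a b T hT h₁ h₃ h0 hφ ih =>
    obtain ⟨hab, A, hA, f, hf⟩ := ih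
    refine ⟨hφ.le.trans hab, A, hA, f ≫ T.mor₁, fun h => hf ?_⟩
    obtain ⟨g, hg⟩ := T.invRotate.coyoneda_exact₂ (inv_rot_of_distTriang T hT) f h
    have hg0 : g = 0 := by
      refine Gen.hom_zero σ ?_ (Gen.ss (Set.mem_singleton _) hA)
        (Gen.shift_neg σ (Gen.ss (Set.mem_singleton _) h₃)) g
      rintro s hs s' hs'
      rw [Set.mem_singleton_iff] at hs
      have : s' + 1 = φ := hs'
      linarith
    rw [hg, hg0]
    exact zero_comp

theorem gen_inter {s t : ℝ} {X : C} (h₁ : Gen σ.P (Set.Ioi s) X) (h₂ : Gen σ.P (Set.Iic t) X) :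
    Gen σ.P (Set.Ioc s t) X := by
  obtain ⟨a, b, h⟩ := σ.hn X
  rcases σ.HN_nonzero h with h | ⟨a', b', _, _, h⟩
  · exact .zero h
  · refine (σ.HN_gen (σ.HNn_HN h)).mono ?_
    have ha : s < a' := by
      by_contra hc
      rw [not_lt] at hc
      obtain ⟨A, hA, f, hf⟩ := σ.HNn_low h
      refine hf (Gen.hom_zero σ ?_ h₁ (Gen.ss (Set.mem_singleton _) hA) f)
      rintro s₁ hs₁ s' rfl
      exact lt_of_le_of_lt hc hs₁
    have hb : b' ≤ t := by
      by_contra hc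
      rw [not_le] at hc
      obtain ⟨_, A, hA, f, hf⟩ := σ.HNn_top h
      refine hf (Gen.hom_zero σ ?_ (Gen.ss (Set.mem_singleton _) hA) h₂ f)
      rintro s₁ hs₁ s' hs'
      rw [Set.mem_singleton_iff] at hs₁
      rw [hs₁]
      exact lt_of_le_of_lt hs' hc
    exact fun x hx => ⟨ha.trans_le hx.1, hx.2.trans hb⟩

end PreStab

end Pool.Agent.Helper445_GMF
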