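import Pool.Agent.Helper445_GMF.Kos
import Pool.Agent.Helper445_GMF.Mass

/-!
The tower of Koszul extensions of a matrix factorization.
-/

set_option autoImplicit false
set_option linter.unusedSectionVars false

open CategoryTheory Matrix Pretriangulated Limits

namespace Pool.Agent.Helper445_GMF

variable {L : LG}

theorem OK.perm {l l' : List (L.A × L.A × L.G)} (h : l.Perm l') (hl : OK L l) : OK L l' :=
  fun p hp => hl p (h.mem_iff.2 hp)

/-- the tower of cones of the first entries of a list -/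
@[reducible] def tw (E : MF L) (l : List (L.A × L.A × L.G)) (hl : OK L l) : MF L :=
  kMF E.g 0 (Submodule.zero_mem _) E.D E.hD' L.W E.sq l hl (by rw [zero_mul, add_zero])

/-- the Koszul matrix factorization -/
@[reducible] def kos {I : Type} [Fintype I] [DecidableEq I] (g : I → L.G)
    (l : List (L.A × L.A × L.G)) (hl : OK L l) (hs : (l.map fun p => p.1 * p.2.1).sum = L.W) :
    MF L :=
  kMF g 1 (SetLike.one_mem_graded _) 0 Hg_zero 0 (by simp) l hl (by rw [one_mul, zero_add, hs])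

theorem twist_Z (E : MF L) {x : L.A} {a : L.G} (hx : x ∈ L.pc a) :
    x • (1 : Matrix E.I E.I L.A) ∈ Z (E.ts (-a) 1 (one_mul 1)) E :=
  ⟨Hg_eq (Hg_x E.g hx) (fun i j => by
    show E.g i - E.g j + a = E.g i - (E.g j + -a) + 0; abel), by
    show E.D * (x • 1) = (x • 1) * ((1 : ℂ) • E.D)
    rw [one_smul, Matrix.mul_smul, Matrix.smul_mul, Matrix.mul_one, Matrix.one_mul]⟩

/-- multiplication by a homogeneous element -/
noncomputable def xm (E : MF L) {x : L.A} {a : L.G} (hx : x ∈ L.pc a) :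
    E.ts (-a) 1 (one_mul 1) ⟶ E := hm _ (twist_Z E hx)

section pure

variable {A : Type} [CommRing A] [Algebra ℂ A] {I : Type} [Fintype I] [DecidableEq I]

theorem pu_cons (x y : A) (D : Matrix I I A) :
    fromBlocks D (x • 1) ((0 * y) • 1) (-D) = fromBlocks D (x • 1) 0 (sgn 1 • ((1 : ℂ) • D)) := by
  simp

theorem pu_swap (x y z w : A) (T : Matrix I I A) :
    fromBlocks (fromBlocks T (x • 1) ((0 * z) • 1) (-T)) (y • 1) ((0 * w) • 1)
      (-fromBlocks T (x • 1) ((0 * z) • 1) (-T)) *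
    (fromBlocks (fromBlocks 1 0 0 0) (fromBlocks 0 0 1 0) (fromBlocks 0 1 0 0)
      (fromBlocks 0 0 0 (-1)) : Matrix ((I ⊕ I) ⊕ (I ⊕ I)) ((I ⊕ I) ⊕ (I ⊕ I)) A) =
    (fromBlocks (fromBlocks 1 0 0 0) (fromBlocks 0 0 1 0) (fromBlocks 0 1 0 0)
      (fromBlocks 0 0 0 (-1)) : Matrix ((I ⊕ I) ⊕ (I ⊕ I)) ((I ⊕ I) ⊕ (I ⊕ I)) A) *
    fromBlocks (fromBlocks T (y • 1) ((0 * w) • 1) (-T)) (x • 1) ((0 * z) • 1)
      (-fromBlocks T (y • 1) ((0 * w) • 1) (-T)) := by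
  rw [← fromBlocks_one]
  simp [fromBlocks_neg]

theorem pu_swap2 :
    (fromBlocks (fromBlocks 1 0 0 0) (fromBlocks 0 0 1 0) (fromBlocks 0 1 0 0)
      (fromBlocks 0 0 0 (-1)) : Matrix ((I ⊕ I) ⊕ (I ⊕ I)) ((I ⊕ I) ⊕ (I ⊕ I)) A) *
    (fromBlocks (fromBlocks 1 0 0 0) (fromBlocks 0 0 1 0) (fromBlocks 0 1 0 0)
      (fromBlocks 0 0 0 (-1)) : Matrix ((I ⊕ I) ⊕ (I ⊕ I)) ((I ⊕ I) ⊕ (I ⊕ I)) A) = 1 := by
  rw [← fromBlocks_one, ← fromBlocks_one]
  simp

end pure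

theorem tw_swap_Hg {I : Type} [DecidableEq I] (g : I → L.G) (p q : L.A × L.A × L.G)
    (l : List (L.A × L.A × L.G)) :
    (fromBlocks (fromBlocks 1 0 0 0) (fromBlocks 0 0 1 0) (fromBlocks 0 1 0 0)
      (fromBlocks 0 0 0 (-1)) :
        Matrix ((Cu I l ⊕ Cu I l) ⊕ (Cu I l ⊕ Cu I l)) ((Cu I l ⊕ Cu I l) ⊕ (Cu I l ⊕ Cu I l))
          L.A) ∈ Hg (cg g (p :: q :: l)) (cg g (q :: p :: l)) 0 := by
  rintro ((i | i) | (i | i)) ((j | j) | (j | j))
  · exact Hg_eq (Hg_one (cg g l)) (fun i j => by simp only [cg, Sum.elim_inl]) i j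
  · exact Submodule.zero_mem _
  · exact Submodule.zero_mem _
  · exact Submodule.zero_mem _
  · exact Submodule.zero_mem _
  · exact Submodule.zero_mem _
  · exact Hg_eq (g := cg g l) (h := cg g l) (a := 0)
      (g' := fun c => cg g l c + -p.2.2 + (1 : ℤ) • L.ς)
      (h' := fun c => cg g l c + -p.2.2 + (1 : ℤ) • L.ς) (b := 0)
      (Hg_one (cg g l)) (fun i j => by abel) i j
  · exact Submodule.zero_mem _
  · exact Submodule.zero_mem _
  · exact Hg_eq (g := cg g l) (h := cg g l) (a := 0)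
      (g' := fun c => cg g l c + -q.2.2 + (1 : ℤ) • L.ς)
      (h' := fun c => cg g l c + -q.2.2 + (1 : ℤ) • L.ς) (b := 0)
      (Hg_one (cg g l)) (fun i j => by abel) i j
  · exact Submodule.zero_mem _
  · exact Submodule.zero_mem _
  · exact Submodule.zero_mem _
  · exact Submodule.zero_mem _
  · exact Submodule.zero_mem _
  · exact Submodule.neg_mem _ (Hg_eq (g := cg g l) (h := cg g l) (a := 0)
      (g' := fun c => cg g l c + -q.2.2 + (1 : ℤ) • L.ς + -p.2.2 + (1 : ℤ) • L.ς)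
      (h' := fun c => cg g l c + -p.2.2 + (1 : ℤ) • L.ς + -q.2.2 + (1 : ℤ) • L.ς) (b := 0)
      (Hg_one (cg g l)) (fun i j => by abel) i j)

theorem tw_swap (E : MF L) (p q : L.A × L.A × L.G) (l : List (L.A × L.A × L.G))
    (hl : OK L (p :: q :: l)) (hl' : OK L (q :: p :: l)) :
    SIso (tw E (p :: q :: l) hl) (tw E (q :: p :: l) hl') := by
  exact ⟨fromBlocks (fromBlocks 1 0 0 0) (fromBlocks 0 0 1 0) (fromBlocks 0 1 0 0)
      (fromBlocks 0 0 0 (-1)), ⟨tw_swap_Hg E.g p q l, pu_swap _ _ _ _ _⟩,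
    fromBlocks (fromBlocks 1 0 0 0) (fromBlocks 0 0 1 0) (fromBlocks 0 1 0 0)
      (fromBlocks 0 0 0 (-1)), ⟨tw_swap_Hg E.g q p l, pu_swap _ _ _ _ _⟩, pu_swap2, pu_swap2⟩

theorem tw_cons (E : MF L) (p : L.A × L.A × L.G) {l l' : List (L.A × L.A × L.G)}
    (hl : OK L (p :: l)) (hl' : OK L (p :: l'))
    (h : SIso (tw E l hl.tail) (tw E l' hl'.tail)) :
    SIso (tw E (p :: l) hl) (tw E (p :: l') hl') := by
  obtain ⟨f, hf, f', hf', h1, h2⟩ := h
  refine ⟨fromBlocks f 0 0 f, ⟨Hg_blocks hf.1 Hg_zero Hg_zero (Hg_eq hf.1 fun i j => by abel), ?_⟩,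
    fromBlocks f' 0 0 f', ⟨Hg_blocks hf'.1 Hg_zero Hg_zero (Hg_eq hf'.1 fun i j => by abel), ?_⟩,
    ?_, ?_⟩
  · have e := hf.2
    show fromBlocks (kM 0 E.D l') (p.1 • 1) ((0 * p.2.1) • 1) (-kM 0 E.D l') *
      fromBlocks f 0 0 f = fromBlocks f 0 0 f *
      fromBlocks (kM 0 E.D l) (p.1 • 1) ((0 * p.2.1) • 1) (-kM 0 E.D l)
    rw [fromBlocks_multiply, fromBlocks_multiply]
    simp [e]
  · have e := hf'.2
    show fromBlocks (kM 0 E.D l) (p.1 • 1) ((0 * p.2.1) • 1) (-kM 0 E.D l) *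
      fromBlocks f' 0 0 f' = fromBlocks f' 0 0 f' *
      fromBlocks (kM 0 E.D l') (p.1 • 1) ((0 * p.2.1) • 1) (-kM 0 E.D l')
    rw [fromBlocks_multiply, fromBlocks_multiply]
    simp [e]
  · rw [fromBlocks_multiply, ← fromBlocks_one]
    simp [h1]
  · rw [fromBlocks_multiply, ← fromBlocks_one]
    simp [h2]

theorem tw_perm (E : MF L) {l l' : List (L.A × L.A × L.G)} (h : l.Perm l') (hl : OK L l)
    (hl' : OK L l') : SIso (tw E l hl) (tw E l' hl') := by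
  induction h with
  | nil => exact SIso.refl _
  | @cons p l l' _ ih => exact tw_cons E p hl hl' (ih hl.tail hl'.tail)
  | swap p q l => exact tw_swap E q p l hl hl'
  | @trans l₁ l₂ l₃ h₁ h₂ ih₁ ih₂ =>
    exact (ih₁ hl (hl.perm h₁)).trans (ih₂ (hl.perm h₁) hl')

/-- the tower is a cone -/
theorem tw_cone (E : MF L) (p : L.A × L.A × L.G) (l : List (L.A × L.A × L.G))
    (hl : OK L (p :: l)) :
    SIso (tw E (p :: l) hl) (cone (X := (tw E l hl.tail).ts (-p.2.2) 1 (one_mul 1))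
      (Y := tw E l hl.tail) (p.1 • 1) (twist_Z _ hl.head.1)) := by
  have e : (tw E (p :: l) hl).D = (cone (X := (tw E l hl.tail).ts (-p.2.2) 1 (one_mul 1))
      (Y := tw E l hl.tail) (p.1 • 1) (twist_Z _ hl.head.1)).D :=
    pu_cons p.1 p.2.1 (kM 0 E.D l)
  refine ⟨1, ⟨Hg_one (cg E.g (p :: l)), ?_⟩, 1, ⟨Hg_one (cg E.g (p :: l)), ?_⟩, ?_, ?_⟩
  · rw [← e]
    exact (Matrix.mul_one _).trans (Matrix.one_mul _).symm
  · rw [← e]
    exact (Matrix.mul_one _).trans (Matrix.one_mul _).symm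
  · exact Matrix.one_mul _
  · exact Matrix.one_mul _

end Pool.Agent.Helper445_GMF
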