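import Pool.Agent.Helper445_GMF.Gep
import Pool.Agent.Helper445_GMF.Tower
import Pool.Agent.Helper445_GMF.Ind

/-!
The functors between the matrix factorizations of `W` and of `W + z ^ 2`.
-/

set_option autoImplicit false
set_option linter.unusedSectionVars false

open CategoryTheory Matrix Pretriangulated Limits MvPolynomial

namespace Pool.Agent.Helper445_GMF

variable {n m : ℕ} {a : Fin n → ℕ} {b : Fin m → ℕ} {d : ℕ} {W : MvPolynomial (Fin n) ℂ}
  {V : MvPolynomial (Fin m) ℂ}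

/-- The situation of a potential `W` and a potential `V = W + z ^ 2`. -/
structure Dbl (hW : IsWeightedHomogeneous a W d) (hV : IsWeightedHomogeneous b V d) where
  /-- the inclusion -/
  up : MvPolynomial (Fin n) ℂ →ₐ[ℂ] MvPolynomial (Fin m) ℂ
  /-- the restriction -/
  dn : MvPolynomial (Fin m) ℂ →ₐ[ℂ] MvPolynomial (Fin n) ℂ
  /-- the new variable -/
  z : MvPolynomial (Fin m) ℂ
  /-- its degree -/
  β : Gd d
  hup : ∀ g p, IsWeightedHomogeneous (wt a d) p g → IsWeightedHomogeneous (wt b d) (up p) g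
  hdn : ∀ g p, IsWeightedHomogeneous (wt b d) p g → IsWeightedHomogeneous (wt a d) (dn p) g
  du : ∀ p, dn (up p) = p
  hz : IsWeightedHomogeneous (wt b d) z β
  hβ : β + β = sig d + sig d
  dz : dn z = 0
  eq : V = up W + z * z
  reg : ∀ p, z * p = 0 → p = 0
  div : ∀ g p, IsWeightedHomogeneous (wt b d) p g → ∃ q, IsWeightedHomogeneous (wt b d) q (g - β) ∧
    p = up (dn p) + z * q
  null : ∀ Y : MF (lg b d V hV), z • (1 : Matrix Y.I Y.I (MvPolynomial (Fin m) ℂ)) ∈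
    N (Y.ts (-β) 1 (one_mul 1)) Y

namespace Dbl

variable {hW : IsWeightedHomogeneous a W d} {hV : IsWeightedHomogeneous b V d} (H : Dbl hW hV)

section bc

theorem map_sq {I : Type} [Fintype I] [DecidableEq I] {R S : Type} [CommRing R] [CommRing S]
    [Algebra ℂ R] [Algebra ℂ S] (f : R →ₐ[ℂ] S) (D : Matrix I I R) (w : R)
    (h : D * D = w • (1 : Matrix I I R)) : D.map f * D.map f = f w • (1 : Matrix I I S) := by
  rw [← Matrix.map_mul, h]
  ext i j
  by_cases hij : i = j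
  · subst hij
    simp
  · simp [Matrix.one_apply_ne hij]

theorem map_add' {I J : Type} {R S : Type} [CommRing R] [CommRing S]
    [Algebra ℂ R] [Algebra ℂ S] (f : R →ₐ[ℂ] S) (M N : Matrix I J R) :
    (M + N).map f = M.map f + N.map f := Matrix.map_add _ (fun x y => map_add f x y) _ _

theorem map_smul' {I J : Type} {R S : Type} [CommRing R] [CommRing S]
    [Algebra ℂ R] [Algebra ℂ S] (f : R →ₐ[ℂ] S) (c : ℂ) (M : Matrix I J R) :
    (c • M).map f = c • M.map f := by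
  ext i j
  exact map_smul f c _

theorem map_one' {I : Type} [DecidableEq I] {R S : Type} [CommRing R] [CommRing S]
    [Algebra ℂ R] [Algebra ℂ S] (f : R →ₐ[ℂ] S) :
    (1 : Matrix I I R).map f = 1 := Matrix.map_one _ (map_zero f) (map_one f)

theorem dn_W : H.dn V = W :=
  (congrArg H.dn H.eq).trans (by rw [map_add, map_mul, H.du, H.dz, mul_zero, add_zero])

/-- the restriction to `z = 0` -/
@[reducible] noncomputable def bc (X : MF (lg b d V hV)) : MF (lg a d W hW) where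
  I := X.I
  g := X.g
  D := X.D.map H.dn
  hD i j := H.hdn _ _ (X.hD i j)
  sq := by
    rw [map_sq H.dn X.D V X.sq, H.dn_W]

theorem dn_Hg {I J : Type} {g : I → Gd d} {h : J → Gd d} {c : Gd d}
    {f : Matrix J I (MvPolynomial (Fin m) ℂ)} (hf : f ∈ Hg (L := lg b d V hV) g h c) :
    f.map H.dn ∈ Hg (L := lg a d W hW) g h c := fun i j => H.hdn _ _ (hf i j)

theorem up_Hg {I J : Type} {g : I → Gd d} {h : J → Gd d} {c : Gd d}
    {f : Matrix J I (MvPolynomial (Fin n) ℂ)} (hf : f ∈ Hg (L := lg a d W hW) g h c) :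
    f.map H.up ∈ Hg (L := lg b d V hV) g h c := fun i j => H.hup _ _ (hf i j)

theorem bc_Z {X Y : MF (lg b d V hV)} {f : Matrix Y.I X.I (MvPolynomial (Fin m) ℂ)}
    (hf : f ∈ Z X Y) : f.map H.dn ∈ Z (H.bc X) (H.bc Y) :=
  ⟨H.dn_Hg hf.1, by
    show Y.D.map H.dn * f.map H.dn = f.map H.dn * X.D.map H.dn
    rw [← Matrix.map_mul, hf.2, Matrix.map_mul]⟩

theorem bc_N {X Y : MF (lg b d V hV)} {f : Matrix Y.I X.I (MvPolynomial (Fin m) ℂ)}
    (hf : f ∈ N X Y) : f.map H.dn ∈ N (H.bc X) (H.bc Y) := by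
  obtain ⟨s, hs, rfl⟩ := hf
  refine ⟨s.map H.dn, H.dn_Hg hs, ?_⟩
  rw [map_add', Matrix.map_mul, Matrix.map_mul]

/-- the restriction functor -/
noncomputable def bcF : MF (lg b d V hV) ⥤ MF (lg a d W hW) where
  obj X := H.bc X
  map {X Y} φ := Quotient.liftOn φ (fun f => cl (X := H.bc X) (Y := H.bc Y) (f.1.map H.dn)
    (H.bc_Z f.2)) (fun x y h => cl_eq_iff.2 (by
      have := H.bc_N h
      rwa [Matrix.map_sub _ (fun x y => map_sub H.dn x y)] at this))
  map_id X := cl_congr (map_one' _)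
  map_comp {X Y V} φ ψ := by
    obtain ⟨f, hf, rfl⟩ := hm_surj φ
    obtain ⟨f', hf', rfl⟩ := hm_surj ψ
    exact cl_congr Matrix.map_mul

theorem bcF_hm {X Y : MF (lg b d V hV)} {f : Matrix Y.I X.I (MvPolynomial (Fin m) ℂ)}
    (hf : f ∈ Z X Y) : H.bcF.map (hm f hf) =
      hm (X := H.bc X) (Y := H.bc Y) (f.map H.dn) (H.bc_Z hf) := rfl

instance : H.bcF.Additive where
  map_add {X Y φ ψ} := by
    obtain ⟨f, hf, rfl⟩ := hm_surj φ
    obtain ⟨f', hf', rfl⟩ := hm_surj ψ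
    exact hm_congr (map_add' _ _ _)

theorem bc_tri (T : Triangle (MF (lg b d V hV))) (hT : T ∈ distTriang (MF (lg b d V hV))) :
    ∃ (f : H.bc T.obj₁ ⟶ H.bc T.obj₂) (g : H.bc T.obj₂ ⟶ H.bc T.obj₃)
      (h : H.bc T.obj₃ ⟶ (H.bc T.obj₁)⟦(1 : ℤ)⟧),
      Triangle.mk f g h ∈ distTriang (MF (lg a d W hW)) := by
  obtain ⟨X, Y, f, hf, ⟨e⟩⟩ := hT
  have hD : (H.bc (cone f hf)).D = (cone (X := H.bc X) (Y := H.bc Y) (f.map H.dn)
      (H.bc_Z hf)).D := by
    show (fromBlocks Y.D f 0 (sgn 1 • X.D)).map H.dn =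
      fromBlocks (Y.D.map H.dn) (f.map H.dn) 0 (sgn 1 • X.D.map H.dn)
    rw [fromBlocks_map, map_smul', Matrix.map_zero _ (map_zero _)]
  have e3 : H.bc (cone f hf) ≅ cone (X := H.bc X) (Y := H.bc Y) (f.map H.dn) (H.bc_Z hf) := by
    refine isoOf' (X := H.bc (cone f hf)) (Y := cone (X := H.bc X) (Y := H.bc Y) (f.map H.dn)
      (H.bc_Z hf)) (1 : Matrix (Y.I ⊕ X.I) (Y.I ⊕ X.I) (MvPolynomial (Fin n) ℂ))
      (1 : Matrix (Y.I ⊕ X.I) (Y.I ⊕ X.I) (MvPolynomial (Fin n) ℂ))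
      ⟨one_Hg_of_eq (L := lg a d W hW) (fun i => rfl), ?_⟩
      ⟨one_Hg_of_eq (L := lg a d W hW) (fun i => rfl), ?_⟩
      (Matrix.one_mul _) (Matrix.one_mul _)
    · rw [hD]; exact (Matrix.mul_one _).trans (Matrix.one_mul _).symm
    · rw [hD]; exact (Matrix.mul_one _).trans (Matrix.one_mul _).symm
  have i1 : H.bc T.obj₁ ≅ H.bc X := H.bcF.mapIso (Triangle.π₁.mapIso e)
  have i2 : H.bc T.obj₂ ≅ H.bc Y := H.bcF.mapIso (Triangle.π₂.mapIso e)
  have i3 : H.bc T.obj₃ ≅ H.bc (cone f hf) := H.bcF.mapIso (Triangle.π₃.mapIso e)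
  exact exists_dist_of_iso (dist_tri (X := H.bc X) (Y := H.bc Y) (f.map H.dn) (H.bc_Z hf))
    i1 i2 (i3 ≪≫ e3)

end bc

end Dbl

end Pool.Agent.Helper445_GMF
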