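import Pool.Agent.Helper445_GMF.Sq

/-!
The Koszul extension functor from the matrix factorizations of `W` to those of `W + z ^ 2`.
-/

set_option autoImplicit false
set_option linter.unusedSectionVars false

open CategoryTheory Matrix Pretriangulated Limits MvPolynomial

namespace Pool.Agent.Helper445_GMF

section pure

variable {A : Type} [CommRing A] [Algebra ℂ A] {I J : Type} [Fintype I] [DecidableEq I]
  [Fintype J] [DecidableEq J]

theorem pu_J (DY : Matrix J J A) (DX : Matrix I I A) (f : Matrix J I A) (z : A) :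
    (fromBlocks (fromBlocks DY (z • 1) ((1 * z) • 1) (-DY)) (fromBlocks f 0 0 f) 0
      (sgn 1 • fromBlocks DX (z • 1) ((1 * z) • 1) (-DX))) *
    (fromBlocks (fromBlocks 1 0 0 0) (fromBlocks 0 0 1 0) (fromBlocks 0 1 0 0)
      (fromBlocks 0 0 0 (-1)) : Matrix ((J ⊕ J) ⊕ (I ⊕ I)) ((J ⊕ I) ⊕ (J ⊕ I)) A) =
    (fromBlocks (fromBlocks 1 0 0 0) (fromBlocks 0 0 1 0) (fromBlocks 0 1 0 0)
      (fromBlocks 0 0 0 (-1)) : Matrix ((J ⊕ J) ⊕ (I ⊕ I)) ((J ⊕ I) ⊕ (J ⊕ I)) A) *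
    fromBlocks (fromBlocks DY f 0 (sgn 1 • DX)) (z • 1) ((1 * z) • 1)
      (-fromBlocks DY f 0 (sgn 1 • DX)) := by
  rw [← fromBlocks_one]
  simp [fromBlocks_neg]

theorem pu_J2 (DY : Matrix J J A) (DX : Matrix I I A) (f : Matrix J I A) (z : A) :
    fromBlocks (fromBlocks DY f 0 (sgn 1 • DX)) (z • 1) ((1 * z) • 1)
      (-fromBlocks DY f 0 (sgn 1 • DX)) *
    (fromBlocks (fromBlocks 1 0 0 0) (fromBlocks 0 0 1 0) (fromBlocks 0 1 0 0)
      (fromBlocks 0 0 0 (-1)) : Matrix ((J ⊕ I) ⊕ (J ⊕ I)) ((J ⊕ J) ⊕ (I ⊕ I)) A) =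
    (fromBlocks (fromBlocks 1 0 0 0) (fromBlocks 0 0 1 0) (fromBlocks 0 1 0 0)
      (fromBlocks 0 0 0 (-1)) : Matrix ((J ⊕ I) ⊕ (J ⊕ I)) ((J ⊕ J) ⊕ (I ⊕ I)) A) *
    (fromBlocks (fromBlocks DY (z • 1) ((1 * z) • 1) (-DY)) (fromBlocks f 0 0 f) 0
      (sgn 1 • fromBlocks DX (z • 1) ((1 * z) • 1) (-DX))) := by
  rw [← fromBlocks_one]
  simp [fromBlocks_neg]

theorem pu_J3 :
    (fromBlocks (fromBlocks 1 0 0 0) (fromBlocks 0 0 1 0) (fromBlocks 0 1 0 0)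
      (fromBlocks 0 0 0 (-1)) : Matrix ((J ⊕ I) ⊕ (J ⊕ I)) ((J ⊕ J) ⊕ (I ⊕ I)) A) *
    (fromBlocks (fromBlocks 1 0 0 0) (fromBlocks 0 0 1 0) (fromBlocks 0 1 0 0)
      (fromBlocks 0 0 0 (-1)) : Matrix ((J ⊕ J) ⊕ (I ⊕ I)) ((J ⊕ I) ⊕ (J ⊕ I)) A) = 1 := by
  rw [← fromBlocks_one, ← fromBlocks_one]
  simp

theorem pu_J4 :
    (fromBlocks (fromBlocks 1 0 0 0) (fromBlocks 0 0 1 0) (fromBlocks 0 1 0 0)
      (fromBlocks 0 0 0 (-1)) : Matrix ((J ⊕ J) ⊕ (I ⊕ I)) ((J ⊕ I) ⊕ (J ⊕ I)) A) *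
    (fromBlocks (fromBlocks 1 0 0 0) (fromBlocks 0 0 1 0) (fromBlocks 0 1 0 0)
      (fromBlocks 0 0 0 (-1)) : Matrix ((J ⊕ I) ⊕ (J ⊕ I)) ((J ⊕ J) ⊕ (I ⊕ I)) A) = 1 := by
  rw [← fromBlocks_one, ← fromBlocks_one, ← fromBlocks_one]
  simp

theorem pu_tl (D D' : Matrix J J A) (E E' : Matrix I I A) (z w : A) (f : Matrix J I A)
    (s1 s2 s3 s4 : Matrix J I A)
    (h : fromBlocks f 0 0 f = fromBlocks D (z • 1) (w • 1) D' * fromBlocks s1 s2 s3 s4 +
      fromBlocks s1 s2 s3 s4 * fromBlocks E (z • 1) (w • 1) E') :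
    f = (D * s1 + z • s3) + (s1 * E + w • s2) := by
  rw [fromBlocks_multiply, fromBlocks_multiply, fromBlocks_add] at h
  have h1 := (fromBlocks_inj.1 h).1
  rw [h1]
  simp

end pure

variable {L : LG}

theorem LG.one_mem (L : LG) : (1 : L.A) ∈ L.pc 0 := SetLike.one_mem_graded _

theorem J_Hg {I J : Type} [DecidableEq I] [DecidableEq J] (gY : J → L.G) (gX : I → L.G) (β : L.G)
    (gX1 : I → L.G) (h : ∀ i, gX1 i = gX i + (1 : ℤ) • L.ς) :
    (fromBlocks (fromBlocks 1 0 0 0) (fromBlocks 0 0 1 0) (fromBlocks 0 1 0 0)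
      (fromBlocks 0 0 0 (-1)) : Matrix ((J ⊕ J) ⊕ (I ⊕ I)) ((J ⊕ I) ⊕ (J ⊕ I)) L.A) ∈
    Hg (Sum.elim (Sum.elim gY gX1) (fun c => Sum.elim gY gX1 c + -β + (1 : ℤ) • L.ς))
      (Sum.elim (Sum.elim gY (fun c => gY c + -β + (1 : ℤ) • L.ς))
        (fun c => Sum.elim gX (fun c => gX c + -β + (1 : ℤ) • L.ς) c + (1 : ℤ) • L.ς)) 0 := by
  rintro ((i | i) | (i | i)) ((j | j) | (j | j))
  · exact Hg_one gY i j
  · exact Submodule.zero_mem _
  · exact Submodule.zero_mem _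
  · exact Submodule.zero_mem _
  · exact Submodule.zero_mem _
  · exact Submodule.zero_mem _
  · exact Hg_one (fun c => gY c + -β + (1 : ℤ) • L.ς) i j
  · exact Submodule.zero_mem _
  · exact Submodule.zero_mem _
  · exact Hg_eq (g := gX) (h := gX) (a := 0) (g' := gX1)
      (h' := fun c => gX c + (1 : ℤ) • L.ς) (b := 0) (Hg_one gX)
      (fun i j => by rw [h]; abel) i j
  · exact Submodule.zero_mem _
  · exact Submodule.zero_mem _
  · exact Submodule.zero_mem _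
  · exact Submodule.zero_mem _
  · exact Submodule.zero_mem _
  · exact Submodule.neg_mem _ (Hg_eq (g := gX) (h := gX) (a := 0)
      (g' := fun c => gX1 c + -β + (1 : ℤ) • L.ς)
      (h' := fun c => gX c + -β + (1 : ℤ) • L.ς + (1 : ℤ) • L.ς) (b := 0) (Hg_one gX)
      (fun i j => by rw [h]; abel) i j)

theorem J_Hg2 {I J : Type} [DecidableEq I] [DecidableEq J] (gY : J → L.G) (gX : I → L.G) (β : L.G)
    (gX1 : I → L.G) (h : ∀ i, gX1 i = gX i + (1 : ℤ) • L.ς) :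
    (fromBlocks (fromBlocks 1 0 0 0) (fromBlocks 0 0 1 0) (fromBlocks 0 1 0 0)
      (fromBlocks 0 0 0 (-1)) : Matrix ((J ⊕ I) ⊕ (J ⊕ I)) ((J ⊕ J) ⊕ (I ⊕ I)) L.A) ∈
    Hg (Sum.elim (Sum.elim gY (fun c => gY c + -β + (1 : ℤ) • L.ς))
        (fun c => Sum.elim gX (fun c => gX c + -β + (1 : ℤ) • L.ς) c + (1 : ℤ) • L.ς))
      (Sum.elim (Sum.elim gY gX1) (fun c => Sum.elim gY gX1 c + -β + (1 : ℤ) • L.ς)) 0 := by
  rintro ((i | i) | (i | i)) ((j | j) | (j | j))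
  · exact Hg_one gY i j
  · exact Submodule.zero_mem _
  · exact Submodule.zero_mem _
  · exact Submodule.zero_mem _
  · exact Submodule.zero_mem _
  · exact Submodule.zero_mem _
  · exact Hg_eq (g := gX) (h := gX) (a := 0) (h' := gX1)
      (g' := fun c => gX c + (1 : ℤ) • L.ς) (b := 0) (Hg_one gX)
      (fun i j => by rw [h]; abel) i j
  · exact Submodule.zero_mem _
  · exact Submodule.zero_mem _
  · exact Hg_one (fun c => gY c + -β + (1 : ℤ) • L.ς) i j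
  · exact Submodule.zero_mem _
  · exact Submodule.zero_mem _
  · exact Submodule.zero_mem _
  · exact Submodule.zero_mem _
  · exact Submodule.zero_mem _
  · exact Submodule.neg_mem _ (Hg_eq (g := gX) (h := gX) (a := 0)
      (h' := fun c => gX1 c + -β + (1 : ℤ) • L.ς)
      (g' := fun c => gX c + -β + (1 : ℤ) • L.ς + (1 : ℤ) • L.ς) (b := 0) (Hg_one gX)
      (fun i j => by rw [h]; abel) i j)

variable {n m : ℕ} {a : Fin n → ℕ} {b : Fin m → ℕ} {d : ℕ} {W : MvPolynomial (Fin n) ℂ}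
  {V : MvPolynomial (Fin m) ℂ}

namespace Dbl

variable {hW : IsWeightedHomogeneous a W d} {hV : IsWeightedHomogeneous b V d} (H : Dbl hW hV)

/-- the list of the Koszul extension -/
@[reducible] def kl : List (MvPolynomial (Fin m) ℂ × MvPolynomial (Fin m) ℂ × Gd d) :=
  [(H.z, H.z, H.β)]

theorem kl_OK : OK (lg b d V hV) H.kl := by
  intro p hp
  rw [List.mem_singleton] at hp
  subst hp
  refine ⟨H.hz, ?_⟩
  have : sig d + sig d - H.β = H.β := by rw [← H.hβ]; abel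
  exact LG.mem_of_eq (L := lg b d V hV) H.hz this.symm

theorem kl_sum : H.up W + 1 * (H.kl.map fun p => p.1 * p.2.1).sum = V := by
  have : (H.kl.map fun p => p.1 * p.2.1).sum = H.z * H.z := by simp
  rw [this, one_mul]
  exact H.eq.symm

/-- the Koszul extension of a matrix factorization -/
@[reducible] noncomputable def J (X : MF (lg a d W hW)) : MF (lg b d V hV) :=
  kMF (L := lg b d V hV) X.g 1 (LG.one_mem (lg b d V hV)) (X.D.map H.up) (H.up_Hg X.hD')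
    (H.up W) (map_sq H.up X.D W X.sq) H.kl H.kl_OK H.kl_sum

theorem J_Z {X Y : MF (lg a d W hW)} {f : Matrix Y.I X.I (MvPolynomial (Fin n) ℂ)}
    (hf : f ∈ Z X Y) : kE (f.map H.up) H.kl ∈ Z (H.J X) (H.J Y) :=
  ⟨kE_Hg (H.up_Hg hf.1) _, by
    refine kM_kE 1 _ _ _ ?_ _
    rw [← Matrix.map_mul, hf.2, Matrix.map_mul]⟩

theorem J_N {X Y : MF (lg a d W hW)} {f : Matrix Y.I X.I (MvPolynomial (Fin n) ℂ)}
    (hf : f ∈ N X Y) : kE (f.map H.up) H.kl ∈ N (H.J X) (H.J Y) := by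
  obtain ⟨s, hs, rfl⟩ := hf
  refine ⟨kO (s.map H.up) H.kl, kO_Hg (H.up_Hg hs) _, ?_⟩
  refine (kM_kO 1 _ _ _ _ ?_ _).symm
  rw [map_add', Matrix.map_mul, Matrix.map_mul]

theorem kE_sub {A G : Type} [CommRing A] [Algebra ℂ A] [AddCommGroup G] {I J : Type} [Fintype I]
    [DecidableEq I] [Fintype J] [DecidableEq J] (F F' : Matrix J I A) (l : List (A × A × G)) :
    kE (F - F') l = kE F l - kE F' l := by
  have : kE ((F - F') + F') l = kE (F - F') l + kE F' l := kE_add _ _ _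
  rw [sub_add_cancel] at this
  rw [this, add_sub_cancel_right]

/-- the Koszul extension functor -/
noncomputable def JF : MF (lg a d W hW) ⥤ MF (lg b d V hV) where
  obj X := H.J X
  map {X Y} φ := Quotient.liftOn φ (fun f => cl (X := H.J X) (Y := H.J Y)
    (kE (f.1.map H.up) H.kl) (H.J_Z f.2)) (fun x y h => cl_eq_iff.2 (by
      have := H.J_N h
      rwa [Matrix.map_sub _ (fun x y => map_sub H.up x y), kE_sub] at this))
  map_id X := by
    refine cl_congr ?_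
    rw [map_one', kE_one]
  map_comp {X Y V} φ ψ := by
    obtain ⟨f, hf, rfl⟩ := hm_surj φ
    obtain ⟨f', hf', rfl⟩ := hm_surj ψ
    refine cl_congr ?_
    rw [Matrix.map_mul, kE_mul]

instance : H.JF.Additive where
  map_add {X Y φ ψ} := by
    obtain ⟨f, hf, rfl⟩ := hm_surj φ
    obtain ⟨f', hf', rfl⟩ := hm_surj ψ
    exact hm_congr ((congrArg (fun M => kE M H.kl) (map_add' H.up f f')).trans (kE_add _ _ _))

theorem J_tri (T : Triangle (MF (lg a d W hW))) (hT : T ∈ distTriang (MF (lg a d W hW))) :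
    ∃ (f : H.J T.obj₁ ⟶ H.J T.obj₂) (g : H.J T.obj₂ ⟶ H.J T.obj₃)
      (h : H.J T.obj₃ ⟶ (H.J T.obj₁)⟦(1 : ℤ)⟧),
      Triangle.mk f g h ∈ distTriang (MF (lg b d V hV)) := by
  obtain ⟨X, Y, f, hf, ⟨e⟩⟩ := hT
  have hD : (cone f hf).D.map H.up = fromBlocks (Y.D.map H.up) (f.map H.up) 0
      (sgn 1 • X.D.map H.up) := by
    show (fromBlocks Y.D f 0 (sgn 1 • X.D)).map H.up = _
    rw [fromBlocks_map, map_smul', Matrix.map_zero _ (map_zero _)]
  have hg : ∀ i, (X.sh 1).g i = X.g i + (1 : ℤ) • sig d := fun i => rfl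
  have e3 : H.J (cone f hf) ≅ cone (X := H.J X) (Y := H.J Y) (kE (f.map H.up) H.kl)
      (H.J_Z hf) := by
    refine isoOf' (X := H.J (cone f hf)) (Y := cone (X := H.J X) (Y := H.J Y)
      (kE (f.map H.up) H.kl) (H.J_Z hf))
      (fromBlocks (fromBlocks 1 0 0 0) (fromBlocks 0 0 1 0) (fromBlocks 0 1 0 0)
        (fromBlocks 0 0 0 (-1)))
      (fromBlocks (fromBlocks 1 0 0 0) (fromBlocks 0 0 1 0) (fromBlocks 0 1 0 0)
        (fromBlocks 0 0 0 (-1)))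
      ⟨J_Hg (L := lg b d V hV) Y.g X.g H.β (X.sh 1).g hg, ?_⟩
      ⟨J_Hg2 (L := lg b d V hV) Y.g X.g H.β (X.sh 1).g hg, ?_⟩ pu_J3 pu_J4
    · have := pu_J (Y.D.map H.up) (X.D.map H.up) (f.map H.up) H.z
      rw [← hD] at this
      exact this
    · have := pu_J2 (Y.D.map H.up) (X.D.map H.up) (f.map H.up) H.z
      rw [← hD] at this
      exact this
  have i1 : H.J T.obj₁ ≅ H.J X := H.JF.mapIso (Triangle.π₁.mapIso e)
  have i2 : H.J T.obj₂ ≅ H.J Y := H.JF.mapIso (Triangle.π₂.mapIso e)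
  have i3 : H.J T.obj₃ ≅ H.J (cone f hf) := H.JF.mapIso (Triangle.π₃.mapIso e)
  exact exists_dist_of_iso (dist_tri (X := H.J X) (Y := H.J Y) (kE (f.map H.up) H.kl)
    (H.J_Z hf)) i1 i2 (i3 ≪≫ e3)

end Dbl

end Pool.Agent.Helper445_GMF
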