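import Pool.Agent.Helper445_GMF.Gep

/-!
Gepner type stability conditions are compatible with all twists.
-/

set_option autoImplicit false
set_option linter.unusedSectionVars false

open CategoryTheory Matrix Pretriangulated Limits MvPolynomial

namespace Pool.Agent.Helper445_GMF

variable {n : ℕ} {a : Fin n → ℕ} {d : ℕ} {W : MvPolynomial (Fin n) ℂ}
  {hW : IsWeightedHomogeneous a W d}

/-- the sign of an element of the grading group -/
noncomputable def chi (d : ℕ) (g : Gd d) : ℂ := if g.1.2 = 0 then 1 else -1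

theorem zmod2 (p : ZMod 2) : p = 0 ∨ p = 1 := by revert p; decide

theorem chi_sq (g : Gd d) : chi d g * chi d g = 1 := by
  unfold chi; split_ifs <;> norm_num

theorem smul_tau_snd (k : ℕ) : (k • tau d).1.2 = 0 := by
  simp [tau]

theorem chi_entry {x : MvPolynomial (Fin n) ℂ} {g g' : Gd d}
    (hx : IsWeightedHomogeneous (wt a d) x (g - g' + sig d)) :
    (chi d g') • x = -(chi d g • x) := by
  by_cases h0 : x = 0
  · subst h0; simp
  · obtain ⟨m, hm⟩ := exists_coeff_ne_zero h0
    have h1 := hx hm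
    rw [weight_wt] at h1
    have h2 := smul_tau_snd (d := d) (Finsupp.weight a m)
    rw [h1] at h2
    have h3 : g.1.2 - g'.1.2 + 1 = 0 := h2
    have h4 : chi d g' = - chi d g := by
      unfold chi
      revert h3
      generalize g.1.2 = x
      generalize g'.1.2 = y
      intro h3
      rcases zmod2 x with rfl | rfl <;> rcases zmod2 y with rfl | rfl
      · exact absurd h3 (by decide)
      · rw [if_neg (by decide), if_pos rfl]
      · rw [if_pos rfl, if_neg (by decide), neg_neg]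
      · exact absurd h3 (by decide)
    rw [h4, neg_smul]

theorem sign_iso (X : MF (lg a d W hW)) :
    Nonempty (X.ts ((1 : ℤ) • sig d) 1 (one_mul 1) ≅ X.sh 1) := by
  have hU : Matrix.diagonal (fun i => C (chi d (X.g i)) : X.I → MvPolynomial (Fin n) ℂ) ∈
      Hg (L := lg a d W hW) (X.ts ((1 : ℤ) • sig d) 1 (one_mul 1)).g (X.sh 1).g 0 := by
    intro i j
    by_cases hij : i = j
    · subst hij
      rw [Matrix.diagonal_apply_eq]
      refine LG.mem_of_eq (L := lg a d W hW) (isWeightedHomogeneous_C (wt a d) _) ?_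
      show 0 = X.g i + (1 : ℤ) • sig d - (X.g i + (1 : ℤ) • sig d) + 0
      abel
    · rw [Matrix.diagonal_apply_ne _ hij]
      exact Submodule.zero_mem _
  have hU' : Matrix.diagonal (fun i => C (chi d (X.g i)) : X.I → MvPolynomial (Fin n) ℂ) ∈
      Hg (L := lg a d W hW) (X.sh 1).g (X.ts ((1 : ℤ) • sig d) 1 (one_mul 1)).g 0 := hU
  have hsq : Matrix.diagonal (fun i => C (chi d (X.g i)) : X.I → MvPolynomial (Fin n) ℂ) *
      Matrix.diagonal (fun i => C (chi d (X.g i))) = 1 := by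
    rw [Matrix.diagonal_mul_diagonal]
    have : (fun i => C (chi d (X.g i)) * C (chi d (X.g i)) : X.I → MvPolynomial (Fin n) ℂ) =
        fun _ => 1 := by
      funext i
      rw [← C_mul, chi_sq, C_1]
    rw [this, Matrix.diagonal_one]
  have key : X.D * Matrix.diagonal (fun i => C (chi d (X.g i)) : X.I → MvPolynomial (Fin n) ℂ) =
      -(Matrix.diagonal (fun i => C (chi d (X.g i)) : X.I → MvPolynomial (Fin n) ℂ) * X.D) := by
    ext1 i j
    rw [Matrix.neg_apply, Matrix.mul_diagonal, Matrix.diagonal_mul, mul_comm]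
    have := chi_entry (X.hD i j)
    rwa [smul_eq_C_mul, smul_eq_C_mul] at this
  refine ⟨isoOf' (X := X.ts ((1 : ℤ) • sig d) 1 (one_mul 1)) (Y := X.sh 1)
    (Matrix.diagonal (fun i => C (chi d (X.g i)))) (Matrix.diagonal (fun i => C (chi d (X.g i))))
    ⟨hU, ?_⟩ ⟨hU', ?_⟩ hsq hsq⟩
  · show (sgn 1 • X.D) * _ = _ * ((1 : ℂ) • X.D)
    rw [sgn_one, Matrix.smul_mul, key]
    simp
  · show ((1 : ℂ) • X.D) * _ = _ * (sgn 1 • X.D)
    rw [sgn_one, Matrix.smul_mul, key]
    simp

/-- Gepner type with respect to the twist by one and `2 / d` -/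
def Gep (σ : PreStab (MF (lg a d W hW))) : Prop :=
  (∀ (φ : ℝ) (X : MF (lg a d W hW)),
    σ.P (φ + 2 / d) (X.ts (tau d) 1 (one_mul 1)) ↔ σ.P φ X) ∧
  ∀ X : MF (lg a d W hW),
    σ.Z (X.ts (tau d) 1 (one_mul 1)) = Complex.exp (2 * Real.pi * Complex.I / d) * σ.Z X

theorem Gep.comp_tau {σ : PreStab (MF (lg a d W hW))} (h : Gep σ) :
    Comp σ (tau d) (2 / d) := by
  refine ⟨h.1, fun s X => ?_⟩
  refine σ.F_map (Φ := fun X => X.ts (tau d) 1 (one_mul 1)) (c := 2 / d)
    (fun X hX => ts_isZero _ X hX) (fun T hT => ts_dist _ T hT)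
    (fun φ X hX => (h.1 φ X).2 hX) (fun X => ?_) s X
  rw [h.2 X]
  congr 2
  push_cast
  ring

theorem Gep.comp_sig (σ : PreStab (MF (lg a d W hW))) : Comp σ (sig d) 1 := by
  have := Comp.shift σ (fun X => sign_iso X)
  rw [one_smul] at this
  exact this

theorem gd_form (g : Gd d) : ∃ k : ℤ, g = k • tau d ∨ g = k • tau d + sig d := by
  obtain ⟨⟨t, p⟩, hg⟩ := g
  have hg' : (t : ZMod 2) = (d : ZMod 2) * p := hg
  rcases zmod2 p with rfl | rfl
  · have h1 : (t : ZMod 2) = 0 := by rw [hg']; simp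
    rw [ZMod.intCast_zmod_eq_zero_iff_dvd] at h1
    obtain ⟨k, hk⟩ := h1
    refine ⟨k, Or.inl ?_⟩
    ext
    · simp [tau]; rw [hk]; push_cast; ring
    · simp [tau]
  · have h1 : ((t - d : ℤ) : ZMod 2) = 0 := by
      push_cast
      rw [hg']; simp
    rw [ZMod.intCast_zmod_eq_zero_iff_dvd] at h1
    obtain ⟨k, hk⟩ := h1
    refine ⟨k, Or.inr ?_⟩
    ext
    · simp [tau, sig]; push_cast at hk; linarith
    · simp [tau, sig]

theorem Gep.comp (hd : 0 < d) {σ : PreStab (MF (lg a d W hW))} (h : Gep σ) (g : Gd d) :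
    Comp σ g (th d g / d) := by
  have hd' : (d : ℝ) ≠ 0 := Nat.cast_ne_zero.2 hd.ne'
  obtain ⟨k, rfl | rfl⟩ := gd_form g
  · have := h.comp_tau.zsmul k
    have e : (k : ℝ) * (2 / d) = (th d (k • tau d) : ℤ) / d := by
      simp [th, tau]; ring
    rwa [e] at this
  · have := (h.comp_tau.zsmul k).add (Gep.comp_sig σ)
    have e : (k : ℝ) * (2 / d) + 1 = (th d (k • tau d + sig d) : ℤ) / d := by
      simp [th, tau, sig]; field_simp
    rwa [e] at this

theorem Gep.tw (hd : 0 < d) {σ : PreStab (MF (lg a d W hW))} (h : Gep σ) : Tw σ d (th d) where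
  P g φ X hX := ((h.comp hd g).1 φ X).2 hX
  F g s X := (h.comp hd g).2 s X
  neg _ := rfl

end Pool.Agent.Helper445_GMF
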