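import Pool.Agent.Helper445_GMF.Sq2
import Pool.Agent.Helper445_GMF.Idem
import Pool.Agent.Helper445_GMF.TwPoly

/-!
Stability conditions for `W` and for `W + z ^ 2`.
-/

set_option autoImplicit false
set_option linter.unusedSectionVars false

open CategoryTheory Matrix Pretriangulated Limits MvPolynomial

namespace Pool.Agent.Helper445_GMF

theorem ret_of_iso {C : Type*} [Category C] {E K K' : C} (e : K ≅ K') (i : E ⟶ K') (q : K' ⟶ E)
    (h : i ≫ q = 𝟙 E) : ∃ (i : E ⟶ K) (q : K ⟶ E), i ≫ q = 𝟙 E :=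
  ⟨i ≫ e.inv, e.hom ≫ q, by rw [Category.assoc, Iso.inv_hom_id_assoc, h]⟩

section gen

variable {L : LG}

/-- if the multiplication by `x` is null-homotopic then the object is a retract of the cone -/
theorem tw_ret (E : MF L) (p : L.A × L.A × L.G) (hl : OK L [p])
    (h : p.1 • (1 : Matrix E.I E.I L.A) ∈ N (E.ts (-p.2.2) 1 (one_mul 1)) E) :
    ∃ (i : E ⟶ tw E [p] hl) (q : tw E [p] hl ⟶ E), i ≫ q = 𝟙 E := by
  obtain ⟨e⟩ := (tw_cone E p [] hl).iso
  have hT : tri (X := E.ts (-p.2.2) 1 (one_mul 1)) (Y := E) (p.1 • 1) (twist_Z E hl.head.1) ∈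
    distTriang (MF L) := dist_tri (X := E.ts (-p.2.2) 1 (one_mul 1)) (Y := E) _ _
  obtain ⟨g, hg⟩ : ∃ g : cone (X := E.ts (-p.2.2) 1 (one_mul 1)) (Y := E) (p.1 • 1)
      (twist_Z E hl.head.1) ⟶ E, 𝟙 E = cin (X := E.ts (-p.2.2) 1 (one_mul 1)) (Y := E)
      (p.1 • 1) (twist_Z E hl.head.1) ≫ g :=
    Triangle.yoneda_exact₂ _ hT (𝟙 E) (by
      have : hm (X := E.ts (-p.2.2) 1 (one_mul 1)) (Y := E) (p.1 • 1)
        (twist_Z E hl.head.1) = 0 := hm_eq_zero_iff.2 h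
      show hm (X := E.ts (-p.2.2) 1 (one_mul 1)) (Y := E) (p.1 • 1)
        (twist_Z E hl.head.1) ≫ 𝟙 E = 0
      rw [this, zero_comp])
  exact ret_of_iso e _ g hg.symm

theorem tw_gen (σ : PreStab (MF L)) {φ : ℝ} (E : MF L) (p : L.A × L.A × L.G) (hl : OK L [p])
    (h : σ.P φ E) (h' : σ.P φ ((E.ts (-p.2.2) 1 (one_mul 1))⟦(1 : ℤ)⟧)) :
    Gen σ.P {φ} (tw E [p] hl) := by
  obtain ⟨e⟩ := (tw_cone E p [] hl).iso
  let T := tri (X := E.ts (-p.2.2) 1 (one_mul 1)) (Y := E) (p.1 • 1) (twist_Z E hl.head.1)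
  have hT : T ∈ distTriang (MF L) := dist_tri (X := E.ts (-p.2.2) 1 (one_mul 1)) (Y := E) _ _
  have h1 : Gen σ.P {φ} T.obj₃ := .ext T.rotate (rot_of_distTriang T hT)
    (.ss (Set.mem_singleton _) h) (.ss (Set.mem_singleton _) h')
  exact Gen.ofIso e.symm h1

end gen

variable {n m : ℕ} {a : Fin n → ℕ} {b : Fin m → ℕ} {d : ℕ} {W : MvPolynomial (Fin n) ℂ}
  {V : MvPolynomial (Fin m) ℂ}

namespace Dbl

variable {hW : IsWeightedHomogeneous a W d} {hV : IsWeightedHomogeneous b V d} (H : Dbl hW hV)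

/-- matrices which vanish for `z = 0` are divisible by `z` -/
theorem exists_quot {I J : Type} {g : I → Gd d} {h : J → Gd d} {c : Gd d}
    {f : Matrix J I (MvPolynomial (Fin m) ℂ)} (hf : f ∈ Hg (L := lg b d V hV) g h c) :
    ∃ q ∈ Hg (L := lg b d V hV) g h (c - H.β), f = (f.map H.dn).map H.up + H.z • q := by
  have h1 : ∀ i j, ∃ q, IsWeightedHomogeneous (wt b d) q (h i - g j + c - H.β) ∧
      f i j = H.up (H.dn (f i j)) + H.z * q := fun i j => H.div _ _ (hf i j)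
  choose q hq hq' using h1
  refine ⟨Matrix.of q, fun i j => ?_, ?_⟩
  · exact LG.mem_of_eq (L := lg b d V hV) (hq i j) (by abel)
  · ext1 i j
    exact hq' i j

theorem z_cancel {I J : Type} {f g : Matrix J I (MvPolynomial (Fin m) ℂ)}
    (h : H.z • f = H.z • g) : f = g := by
  ext1 i j
  have h1 : H.z * f i j = H.z * g i j := congrFun (congrFun h i) j
  have h2 := H.reg (f i j - g i j) (by rw [mul_sub, h1, sub_self])
  exact sub_eq_zero.1 h2

theorem bc_faith (X Y : MF (lg b d V hV)) (h : ∀ f : H.bcF.obj X ⟶ H.bcF.obj Y, f = 0)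
    (f : X ⟶ Y) : f = 0 := by
  obtain ⟨f, hf, rfl⟩ := hm_surj f
  have h1 : f.map H.dn ∈ N (H.bc X) (H.bc Y) := hm_eq_zero_iff.1 (h (hm _ (H.bc_Z hf)))
  obtain ⟨s, hs, es⟩ := h1
  have ht : s.map H.up ∈ Hg (L := lg b d V hV) X.g Y.g (-sig d) := H.up_Hg hs
  obtain ⟨f0, hf0⟩ : ∃ f0, f0 = f - (Y.D * s.map H.up + s.map H.up * X.D) := ⟨_, rfl⟩
  have hn : Y.D * s.map H.up + s.map H.up * X.D ∈ N X Y := ⟨_, ht, rfl⟩
  have hf0Z : f0 ∈ Z X Y := by
    rw [hf0]; exact Z_sub hf (N_le_Z _ _ hn)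
  have hdd : ∀ M : Matrix Y.I X.I (MvPolynomial (Fin n) ℂ), (M.map H.up).map H.dn = M := by
    intro M
    ext1 i j
    exact H.du _
  have hf0d : f0.map H.dn = 0 := by
    rw [hf0, Matrix.map_sub _ (fun x y => map_sub H.dn x y), map_add', Matrix.map_mul,
      Matrix.map_mul, hdd, es]
    exact sub_self _
  obtain ⟨q, hq, eq⟩ := H.exists_quot hf0Z.1
  rw [hf0d, Matrix.map_zero _ (map_zero _), zero_add] at eq
  have hqZ : q ∈ Z X (Y.ts (-H.β) 1 (one_mul 1)) := by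
    refine ⟨Hg_eq (L := lg b d V hV) hq (fun i j => ?_), ?_⟩
    · show Y.g i - X.g j + (0 - H.β) = Y.g i + -H.β - X.g j + 0
      abel
    · show ((1 : ℂ) • Y.D) * q = q * X.D
      rw [one_smul]
      refine H.z_cancel ?_
      rw [← Matrix.mul_smul, ← Matrix.smul_mul, ← eq]
      exact hf0Z.2
  have h2 := N_mul_right (H.null Y) hqZ
  have h3 : H.z • (1 : Matrix Y.I Y.I (MvPolynomial (Fin m) ℂ)) * q = f0 := by
    rw [Matrix.smul_mul, Matrix.one_mul, ← eq]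
  rw [h3] at h2
  refine hm_eq_zero_iff.2 ?_
  have h4 : f = f0 + (Y.D * s.map H.up + s.map H.up * X.D) := by
    rw [hf0, sub_add_cancel]
  rw [h4]
  exact N_add h2 hn

theorem J_faith (X Y : MF (lg a d W hW)) (h : ∀ f : H.JF.obj X ⟶ H.JF.obj Y, f = 0)
    (f : X ⟶ Y) : f = 0 := by
  obtain ⟨f, hf, rfl⟩ := hm_surj f
  have h1 : kE (f.map H.up) H.kl ∈ N (H.J X) (H.J Y) := hm_eq_zero_iff.1 (h (hm _ (H.J_Z hf)))
  obtain ⟨s, hs, es⟩ := h1
  obtain ⟨s1, s2, s3, s4, rfl⟩ : ∃ s1 s2 s3 s4 : Matrix Y.I X.I (MvPolynomial (Fin m) ℂ),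
      s = fromBlocks s1 s2 s3 s4 := ⟨_, _, _, _, (fromBlocks_toBlocks s).symm⟩
  have h2 := pu_tl (Y.D.map H.up) (-Y.D.map H.up) (X.D.map H.up) (-X.D.map H.up) H.z (1 * H.z)
    (f.map H.up) s1 s2 s3 s4 es
  refine hm_eq_zero_iff.2 ⟨s1.map H.dn, ?_, ?_⟩
  · exact H.dn_Hg (fun i j => hs (Sum.inl i) (Sum.inl j))
  · have hdd : ∀ {I J : Type} (M : Matrix I J (MvPolynomial (Fin n) ℂ)),
        (M.map H.up).map H.dn = M := by
      intro I J M
      ext1 i j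
      exact H.du _
    have hz : ∀ (c : MvPolynomial (Fin m) ℂ) (M : Matrix Y.I X.I (MvPolynomial (Fin m) ℂ)),
        H.dn c = 0 → (c • M).map H.dn = 0 := by
      intro c M hc
      ext1 i j
      show H.dn (c * M i j) = 0
      rw [map_mul, hc, zero_mul]
    have h3 := congrArg (fun M => M.map H.dn) h2
    rw [hdd, map_add', map_add', map_add', Matrix.map_mul, Matrix.map_mul, hdd, hdd, hz _ _ H.dz,
      hz _ _ (by rw [one_mul]; exact H.dz), add_zero, add_zero] at h3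
    exact h3

theorem up_dn_sq (X : MF (lg b d V hV)) : (X.D.map H.dn).map H.up * (X.D.map H.dn).map H.up =
    H.up W • (1 : Matrix X.I X.I (MvPolynomial (Fin m) ℂ)) :=
  map_sq H.up _ W (H.bc X).sq

theorem J_bc_iso (X : MF (lg b d V hV)) : Nonempty (H.J (H.bc X) ≅ tw X H.kl H.kl_OK) := by
  obtain ⟨B, hB, eB⟩ := H.exists_quot (hV := hV) X.hD'
  have hch : Chain (L := lg b d V hV) X.g X.D H.kl ((X.D.map H.dn).map H.up) := by
    refine .cons (L := lg b d V hV) .nil eB hB (H.z_cancel ?_)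
    rw [smul_add, ← Matrix.mul_smul, ← Matrix.smul_mul]
    have h3 : H.z • B = X.D - (X.D.map H.dn).map H.up := eq_sub_of_add_eq' eB.symm
    rw [h3, Matrix.mul_sub, Matrix.sub_mul, H.up_dn_sq, X.sq, smul_smul]
    have h4 : (lg b d V hV).W = H.up W + H.z * H.z := H.eq
    rw [h4, add_smul]
    abel
  obtain ⟨U, hU, U', hU', h1, h2, h3⟩ := hch.key
  have h3' : kM 0 X.D H.kl * U' = U' * kM 1 ((X.D.map H.dn).map H.up) H.kl := by
    have h5 : U' * (kM 1 ((X.D.map H.dn).map H.up) H.kl * U) * U' =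
        U' * (U * kM 0 X.D H.kl) * U' := by rw [h3]
    rw [← Matrix.mul_assoc U' U, h1, Matrix.one_mul, Matrix.mul_assoc, Matrix.mul_assoc, h2,
      Matrix.mul_one] at h5
    exact h5.symm
  exact ⟨isoOf' (X := H.J (H.bc X)) (Y := tw X H.kl H.kl_OK) U' U ⟨hU', h3'⟩ ⟨hU, h3⟩ h2 h1⟩

theorem zl_OK : OK (lg a d W hW) [((0 : MvPolynomial (Fin n) ℂ), (0 : MvPolynomial (Fin n) ℂ),
    H.β)] := by
  intro p hp
  rw [List.mem_singleton] at hp
  subst hp
  exact ⟨Submodule.zero_mem _, Submodule.zero_mem _⟩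

theorem bc_J_iso (X : MF (lg a d W hW)) : Nonempty (H.bc (H.J X) ≅
    tw X [((0 : MvPolynomial (Fin n) ℂ), (0 : MvPolynomial (Fin n) ℂ), H.β)] H.zl_OK) := by
  have hD : (H.bc (H.J X)).D = (tw X [((0 : MvPolynomial (Fin n) ℂ),
      (0 : MvPolynomial (Fin n) ℂ), H.β)] H.zl_OK).D := by
    show (fromBlocks (X.D.map H.up) (H.z • 1) ((1 * H.z) • 1) (-(X.D.map H.up))).map H.dn =
      fromBlocks X.D ((0 : MvPolynomial (Fin n) ℂ) • 1)
        (((0 : MvPolynomial (Fin n) ℂ) * 0) • 1) (-X.D)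
    have hdd : (X.D.map H.up).map H.dn = X.D := by
      ext1 i j
      exact H.du _
    have hdd' : (-X.D.map H.up).map H.dn = -X.D := by
      ext1 i j
      show H.dn (-H.up _) = _
      rw [map_neg, H.du]
      rfl
    have hz : ∀ (c : MvPolynomial (Fin m) ℂ) (M : Matrix X.I X.I (MvPolynomial (Fin m) ℂ)),
        H.dn c = 0 → (c • M).map H.dn = 0 := by
      intro c M hc
      ext1 i j
      show H.dn (c * M i j) = 0
      rw [map_mul, hc, zero_mul]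
    rw [fromBlocks_map, hdd, hdd', hz _ _ H.dz, hz _ _ (by rw [one_mul]; exact H.dz)]
    simp
  refine ⟨isoOf' (X := H.bc (H.J X)) (Y := tw X [((0 : MvPolynomial (Fin n) ℂ),
      (0 : MvPolynomial (Fin n) ℂ), H.β)] H.zl_OK)
      (1 : Matrix (X.I ⊕ X.I) (X.I ⊕ X.I) (MvPolynomial (Fin n) ℂ))
      (1 : Matrix (X.I ⊕ X.I) (X.I ⊕ X.I) (MvPolynomial (Fin n) ℂ))
      ⟨one_Hg_of_eq (L := lg a d W hW) (fun i => ?_), ?_⟩
      ⟨one_Hg_of_eq (L := lg a d W hW) (fun i => ?_), ?_⟩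
      (Matrix.one_mul _) (Matrix.one_mul _)⟩
  · rcases i with i | i <;> rfl
  · rw [← hD]; exact (Matrix.mul_one _).trans (Matrix.one_mul _).symm
  · rcases i with i | i <;> rfl
  · rw [← hD]; exact (Matrix.mul_one _).trans (Matrix.one_mul _).symm

end Dbl

end Pool.Agent.Helper445_GMF
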