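import Pool.Agent.Helper445_GMF.Sq4

/-!
The potentials `W` and `W + z ^ 2`.
-/

set_option autoImplicit false
set_option linter.unusedSectionVars false

open CategoryTheory Matrix Pretriangulated Limits MvPolynomial

namespace Pool.Agent.Helper445_GMF

theorem hom_mem {n m : ℕ} {a : Fin n → ℕ} {b : Fin m → ℕ} {d : ℕ}
    {f : MvPolynomial (Fin n) ℂ →ₐ[ℂ] MvPolynomial (Fin m) ℂ}
    (hf : ∀ i, IsWeightedHomogeneous (wt b d) (f (X i)) (wt a d i)) {g : Gd d}
    {p : MvPolynomial (Fin n) ℂ} (hp : IsWeightedHomogeneous (wt a d) p g) :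
    IsWeightedHomogeneous (wt b d) (f p) g := by
  have h0 : f = aeval (fun i => f (X i)) := aeval_unique f
  rw [h0, p.as_sum, map_sum]
  refine IsWeightedHomogeneous.sum _ _ _ fun m hm => ?_
  rw [aeval_monomial, Finsupp.prod]
  have h1 : Finsupp.weight (wt a d) m = g := hp (mem_support_iff.1 hm)
  rw [← h1, algebraMap_eq, ← zero_add (Finsupp.weight (wt a d) m)]
  refine (isWeightedHomogeneous_C _ _).mul ?_
  rw [Finsupp.weight_apply, Finsupp.sum]
  refine IsWeightedHomogeneous.prod _ _ _ fun i _ => ?_
  exact (hf i).pow _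

variable {n : ℕ} {a : Fin n → ℕ} {b d : ℕ} {W : MvPolynomial (Fin n) ℂ}

/-- the weights of the variables of `W + z ^ 2` -/
abbrev sna (a : Fin n → ℕ) (b : ℕ) : Fin (n + 1) → ℕ := Fin.snoc (α := fun _ => ℕ) a b

theorem sna_cast (i : Fin n) : wt (sna a b) d i.castSucc = wt a d i := by
  unfold wt sna
  rw [Fin.snoc_castSucc]

theorem sna_last : wt (sna a b) d (Fin.last n) = b • tau d := by
  unfold wt sna
  rw [Fin.snoc_last]

/-- setting the last variable to zero -/
noncomputable def dn0 (n : ℕ) : MvPolynomial (Fin (n + 1)) ℂ →ₐ[ℂ] MvPolynomial (Fin n) ℂ :=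
  aeval (Fin.lastCases 0 X : Fin (n + 1) → MvPolynomial (Fin n) ℂ)

theorem dn0_cast (i : Fin n) : dn0 n (X i.castSucc) = X i := by
  rw [dn0, aeval_X, Fin.lastCases_castSucc]

theorem dn0_last : dn0 n (X (Fin.last n)) = 0 := by
  rw [dn0, aeval_X, Fin.lastCases_last]

theorem dvd_last (p : MvPolynomial (Fin (n + 1)) ℂ) :
    X (Fin.last n) ∣ p - rename Fin.castSucc (dn0 n p) := by
  rw [← Ideal.mem_span_singleton, ← Ideal.Quotient.eq]
  have h : (Ideal.Quotient.mkₐ ℂ (Ideal.span {(X (Fin.last n) : MvPolynomial (Fin (n + 1)) ℂ)})) =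
      (Ideal.Quotient.mkₐ ℂ (Ideal.span {(X (Fin.last n) :
        MvPolynomial (Fin (n + 1)) ℂ)})).comp ((rename Fin.castSucc).comp (dn0 n)) := by
    refine algHom_ext fun j => ?_
    rw [AlgHom.comp_apply, AlgHom.comp_apply]
    induction j using Fin.lastCases with
    | last =>
      rw [dn0_last, map_zero, map_zero]
      exact Ideal.Quotient.eq_zero_iff_mem.2 (Ideal.mem_span_singleton_self _)
    | cast j =>
      rw [dn0_cast, rename_X]
  exact congrArg (fun f => f p) h

/-- the potentials `W` and `W + z ^ 2` -/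
noncomputable def dbl (hb : 2 * b = d) (hW : IsWeightedHomogeneous a W d)
    (hV : IsWeightedHomogeneous (sna a b) (rename Fin.castSucc W + X (Fin.last n) ^ 2) d) :
    Dbl hW hV where
  up := rename Fin.castSucc
  dn := dn0 n
  z := X (Fin.last n)
  β := b • tau d
  hup g p hp := hom_mem (fun i => by
    rw [rename_X, ← sna_cast (b := b)]
    exact isWeightedHomogeneous_X _ _ _) hp
  hdn g p hp := hom_mem (fun i => by
    induction i using Fin.lastCases with
    | last =>
      rw [dn0_last]
      exact isWeightedHomogeneous_zero _ _ _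
    | cast j =>
      rw [dn0_cast, sna_cast]
      exact isWeightedHomogeneous_X _ _ _) hp
  du p := by
    have h : (dn0 n).comp (rename Fin.castSucc) = AlgHom.id ℂ (MvPolynomial (Fin n) ℂ) := by
      refine algHom_ext fun i => ?_
      rw [AlgHom.comp_apply, rename_X, dn0_cast]
      rfl
    exact congrArg (fun f => f p) h
  hz := by
    rw [← sna_last (a := a)]
    exact isWeightedHomogeneous_X _ _ _
  hβ := by
    rw [← add_smul, ← d_tau, ← hb]
    congr 1
    ring
  dz := dn0_last
  eq := by rw [pow_two]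
  reg p hp := by
    rcases mul_eq_zero.1 hp with h | h
    · exact absurd h (X_ne_zero _)
    · exact h
  div g p hp := by
    obtain ⟨q, hq⟩ := dvd_last p
    refine ⟨q, ?_, by rw [← hq]; ring⟩
    have h1 : IsWeightedHomogeneous (wt (sna a b) d) (X (Fin.last n) * q) g := by
      rw [← hq]
      refine hp.sub ?_
      refine hom_mem (a := a) (fun i => ?_) (hom_mem (a := sna a b) (fun i => ?_) hp)
      · rw [rename_X, ← sna_cast (b := b)]
        exact isWeightedHomogeneous_X _ _ _
      · induction i using Fin.lastCases with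
        | last =>
          rw [dn0_last]
          exact isWeightedHomogeneous_zero _ _ _
        | cast j =>
          rw [dn0_cast, sna_cast]
          exact isWeightedHomogeneous_X _ _ _
    intro m hm
    have h2 : coeff (m + Finsupp.single (Fin.last n) 1) (X (Fin.last n) * q) ≠ 0 := by
      rwa [mul_comm, coeff_mul_X]
    have h3 := h1 h2
    rw [map_add, Finsupp.weight_single, one_smul, sna_last] at h3
    rw [← h3]; abel
  null Y := by
    have h1 : (X (Fin.last n) : MvPolynomial (Fin (n + 1)) ℂ) ^ 1 ∈ Ideal.span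
        (Set.range fun j => pderiv j (rename Fin.castSucc W + X (Fin.last n) ^ 2)) := by
      have h2 : pderiv (Fin.last n) (rename Fin.castSucc W + X (Fin.last n) ^ 2) =
          C 2 * X (Fin.last n) := by
        rw [map_add]
        have h3 : pderiv (Fin.last n) (rename Fin.castSucc W) = 0 := by
          refine pderiv_eq_zero_of_notMem_vars ?_
          intro h
          have h4 := vars_rename Fin.castSucc W h
          rw [Finset.mem_image] at h4
          obtain ⟨i, _, hi⟩ := h4
          exact absurd hi (Fin.castSucc_lt_last i).ne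
        rw [h3, zero_add, pow_two, Derivation.leibniz, pderiv_X_self]
        simp only [smul_eq_mul, mul_one]
        rw [show (C 2 : MvPolynomial (Fin (n + 1)) ℂ) = 2 from map_ofNat C 2]
        ring
      have h5 : (X (Fin.last n) : MvPolynomial (Fin (n + 1)) ℂ) ^ 1 = C (1 / 2) *
          pderiv (Fin.last n) (rename Fin.castSucc W + X (Fin.last n) ^ 2) := by
        rw [h2, ← mul_assoc, ← C_mul]
        norm_num
      rw [h5]
      exact Ideal.mul_mem_left _ _ (Ideal.subset_span ⟨Fin.last n, rfl⟩)
    obtain ⟨s, hs, es⟩ := exists_hty hV h1 Y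
    refine ⟨s, ?_, ?_⟩
    · intro i j
      refine LG.mem_of_eq (L := lg (sna a b) d _ hV) (hs i j) ?_
      rw [one_smul, sna_last]
      show Y.g i - Y.g j + (b • tau d - sig d) = Y.g i - (Y.g j + -(b • tau d)) + -sig d
      abel
    · show X (Fin.last n) • 1 = Y.D * s + s * ((1 : ℂ) • Y.D)
      rw [one_smul, es, pow_one]

theorem sq_wh (hb : 2 * b = d) (hW : IsWeightedHomogeneous a W d) :
    IsWeightedHomogeneous (sna a b) (rename Fin.castSucc W + X (Fin.last n) ^ 2) d := by
  have h1 : IsWeightedHomogeneous (sna a b) (rename Fin.castSucc W) d := by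
    have h0 : (rename Fin.castSucc : MvPolynomial (Fin n) ℂ →ₐ[ℂ] MvPolynomial (Fin (n + 1)) ℂ) =
        aeval (fun i : Fin n => (X i.castSucc : MvPolynomial (Fin (n + 1)) ℂ)) :=
      algHom_ext fun i => by rw [rename_X, aeval_X]
    rw [h0, W.as_sum, map_sum]
    refine IsWeightedHomogeneous.sum _ _ _ fun m hm => ?_
    rw [aeval_monomial, Finsupp.prod]
    have h1 : Finsupp.weight a m = d := hW (mem_support_iff.1 hm)
    rw [← h1, algebraMap_eq, ← zero_add (Finsupp.weight a m)]
    refine (isWeightedHomogeneous_C _ _).mul ?_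
    rw [Finsupp.weight_apply, Finsupp.sum]
    refine IsWeightedHomogeneous.prod _ _ _ fun i _ => ?_
    have h2 : IsWeightedHomogeneous (sna a b) (X i.castSucc : MvPolynomial (Fin (n + 1)) ℂ)
        (a i) := by
      have := isWeightedHomogeneous_X ℂ (sna a b) i.castSucc
      rwa [sna, Fin.snoc_castSucc] at this
    exact h2.pow _
  have h3 : IsWeightedHomogeneous (sna a b) ((X (Fin.last n) : MvPolynomial (Fin (n + 1)) ℂ) ^ 2)
      d := by
    have := (isWeightedHomogeneous_X ℂ (sna a b) (Fin.last n)).pow 2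
    rwa [sna, Fin.snoc_last, smul_eq_mul, hb] at this
  exact h1.add h3

theorem isolated_sq (hs : ∀ x : Fin n → ℂ, (∀ i, eval x (pderiv i W) = 0) ↔ x = 0)
    (x : Fin (n + 1) → ℂ) :
    (∀ i, eval x (pderiv i (rename Fin.castSucc W + X (Fin.last n) ^ 2)) = 0) ↔ x = 0 := by
  have h1 : ∀ i : Fin n, eval x (pderiv i.castSucc (rename Fin.castSucc W +
      X (Fin.last n) ^ 2)) = eval (fun j => x j.castSucc) (pderiv i W) := by
    intro i
    rw [map_add, pderiv_rename (Fin.castSucc_injective n), pow_two, Derivation.leibniz,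
      pderiv_X_of_ne (Fin.castSucc_lt_last i).ne', smul_zero, add_zero, add_zero, eval_rename]
    rfl
  have h2 : eval x (pderiv (Fin.last n) (rename Fin.castSucc W + X (Fin.last n) ^ 2)) =
      2 * x (Fin.last n) := by
    have h3 : pderiv (Fin.last n) (rename Fin.castSucc W) = 0 := by
      refine pderiv_eq_zero_of_notMem_vars ?_
      intro h
      have h4 := vars_rename Fin.castSucc W h
      rw [Finset.mem_image] at h4
      obtain ⟨i, _, hi⟩ := h4
      exact absurd hi (Fin.castSucc_lt_last i).ne
    rw [map_add, h3, zero_add, pow_two, Derivation.leibniz, pderiv_X_self]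
    simp only [smul_eq_mul, mul_one, map_add, eval_X]
    ring
  constructor
  · intro h
    have h5 : (fun j => x (Fin.castSucc j)) = 0 := (hs _).1 fun i => by rw [← h1]; exact h _
    have h6 : x (Fin.last n) = 0 := by
      have := h (Fin.last n)
      rw [h2] at this
      simpa using this
    funext i
    induction i using Fin.lastCases with
    | last => exact h6
    | cast j => exact congrFun h5 j
  · rintro rfl i
    induction i using Fin.lastCases with
    | last => rw [h2]; simp
    | cast j =>
      rw [h1]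
      exact (hs _).2 rfl j

theorem hasGepner_sq (ha : ∀ i, 0 < a i) (hd : 0 < d) (hb : 2 * b = d)
    (hW : IsWeightedHomogeneous a W d)
    (hV : IsWeightedHomogeneous (sna a b) (rename Fin.castSucc W + X (Fin.last n) ^ 2) d)
    (hs : ∀ x : Fin n → ℂ, (∀ i, eval x (pderiv i W) = 0) ↔ x = 0) :
    HasGepner hW ↔ HasGepner hV := by
  have hb' : ∀ i, 0 < sna a b i := by
    intro i
    induction i using Fin.lastCases with
    | last => rw [sna, Fin.snoc_last]; omega
    | cast j => rw [sna, Fin.snoc_castSucc]; exact ha j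
  constructor
  · rintro ⟨σ, hZ, hσ, _⟩
    obtain ⟨σ', hZ', hσ'⟩ := (dbl hb hW hV).up_gep hb' hd hZ hσ
    exact ⟨σ', hZ', hσ', num_supp hb' hd (isolated_sq hs) σ' hσ'⟩
  · rintro ⟨σ, hZ, hσ, _⟩
    obtain ⟨σ', hZ', hσ'⟩ := (dbl hb hW hV).dn_gep ha hd hZ hσ
    exact ⟨σ', hZ', hσ', num_supp ha hd hs σ' hσ'⟩

end Pool.Agent.Helper445_GMF
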