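import Pool.Agent.Helper445_GMF.Lin

/-!
Stability of the Koszul matrix factorizations.
-/

set_option autoImplicit false
set_option linter.unusedSectionVars false

open CategoryTheory Matrix Pretriangulated Limits MvPolynomial

namespace Pool.Agent.Helper445_GMF

section general

variable {L : LG} (l : List (L.A × L.A × L.G)) (hl : OK L l)
  (hs : (l.map fun p => p.1 * p.2.1).sum = L.W)
  {σ : PreStab (MF L)} {d : ℕ} (hd : 0 < d) {θ : L.G → ℤ} (hθ : Tw σ d θ)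

include hd hθ

/-- the mass of the basic Koszul matrix factorization -/
theorem M_kos' (ψ : ℝ) {I : Type} [Fintype I] [DecidableEq I] (g : I → L.G) :
    σ.M d ψ (kos g l hl hs) =
      Fintype.card I * σ.M d ψ (kos (fun _ : Fin 1 => (0 : L.G)) l hl hs) := by
  obtain ⟨e⟩ := kos_re l hl hs g (Fintype.equivFin I).symm
  rw [σ.M_iso hd ψ e, M_kos l hl hs hd hθ]

/-- the mass of the tower -/
theorem M_tower (ψ : ℝ) (E : MF L) (hc : Chain E.g E.D l 0) :
    σ.M d ψ (tw E l hl) =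
      Fintype.card E.I * σ.M d ψ (kos (fun _ : Fin 1 => (0 : L.G)) l hl hs) := by
  obtain ⟨U, hU, U', hU', h1, h2, h3⟩ := hc.key
  have h : SIso (tw E l hl) (kos E.g l hl hs) := by
    refine ⟨U, ⟨hU, h3⟩, U', ⟨hU', ?_⟩, h1, h2⟩
    show kM 0 E.D l * U' = U' * kM 1 0 l
    calc kM 0 E.D l * U' = U' * (U * kM 0 E.D l) * U' := by
          rw [← Matrix.mul_assoc U', h1, Matrix.one_mul]
      _ = U' * kM 1 0 l * (U * U') := by rw [← h3]; simp only [Matrix.mul_assoc]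
      _ = U' * kM 1 0 l := by rw [h2, Matrix.mul_one]
  obtain ⟨e⟩ := h.iso
  rw [σ.M_iso hd ψ e, M_kos' l hl hs hd hθ]

theorem M_tower_le (ψ : ℝ) (E : MF L) : σ.M d ψ (tw E l hl) ≤ 2 ^ l.length * σ.M d ψ E := by
  have h := tw_le hd hθ ψ E l [] (by rwa [List.append_nil]) (fun p hp => by simp at hp)
  have h2 : σ.M d ψ (tw E (l ++ []) (by rwa [List.append_nil])) = σ.M d ψ (tw E l hl) := by
    congr 1
    congr 1
    exact List.append_nil l
  rw [h2] at h
  exact h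

end general

section poly

variable {n : ℕ} {a : Fin n → ℕ} {d : ℕ} {W : MvPolynomial (Fin n) ℂ}
  {hW : IsWeightedHomogeneous a W d}

/-- the phase of an element of the grading group, multiplied by `d` -/
def th (d : ℕ) (g : Gd d) : ℤ := g.1.1

theorem W_const (hd : 0 < d) (hW : IsWeightedHomogeneous a W d) : constantCoeff W = 0 := by
  by_contra hc
  have h := hW (d := 0) (by simpa [constantCoeff] using hc)
  simp at h
  omega

theorem full_sum (hd : 0 < d) (hW : IsWeightedHomogeneous a W d) :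
    ((ps hW (List.finRange n)).map fun p => p.1 * p.2.1).sum = (lg a d W hW).W := by
  rw [ps_sum, ev_full, W_const hd hW, map_zero, sub_zero]

/-- the mass of the standard Koszul matrix factorization -/
noncomputable def kw (hd : 0 < d) (hW : IsWeightedHomogeneous a W d)
    (σ : PreStab (MF (lg a d W hW))) (ψ : ℝ) : ℝ :=
  σ.M d ψ (kos (L := lg a d W hW) (fun _ : Fin 1 => (0 : Gd d)) (ps hW (List.finRange n))
    (ps_OK hW _) (full_sum hd hW))

variable (ha : ∀ i, 0 < a i) (hd : 0 < d) {σ : PreStab (MF (lg a d W hW))}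
  (hθ : Tw σ d (th d))

/-- reduced matrix factorizations -/
def Red0 (E : MF (lg a d W hW)) : Prop := ∀ i j, constantCoeff (E.D i j) = 0

theorem red_iff (E : MF (lg a d W hW)) : Rd (aug ha hd hW) E ↔ Red0 E := by
  unfold Rd Red0
  refine forall_congr' fun i => forall_congr' fun j => ?_
  have : (aug ha hd hW).ε (E.D i j) = constantCoeff (E.D i j) := by
    show aeval (0 : Fin n → ℂ) (E.D i j) = _
    rw [aeval_zero]; rfl
  rw [this]

include hθ

theorem M_tw_red (ψ : ℝ) {E : MF (lg a d W hW)} (hE : Red0 E) :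
    σ.M d ψ (tw E (ps hW (List.finRange n)) (ps_OK hW _)) =
      Fintype.card E.I * kw hd hW σ ψ := by
  have h0 : E.D.map (ev (List.finRange n)) = 0 := by
    ext1 i j
    show ev (List.finRange n) (E.D i j) = 0
    rw [ev_full, hE i j, map_zero]
  have hc := chain hW E (List.finRange n)
  rw [h0] at hc
  exact M_tower _ _ (full_sum hd hW) hd hθ ψ E hc

include ha

/-- the mass inequality -/
theorem mass_le (ψ : ℝ) (E : MF (lg a d W hW)) :
    rk E * kw hd hW σ ψ ≤ 2 ^ n * σ.M d ψ E := by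
  obtain ⟨Y, ⟨e⟩, hY, hr⟩ := rk_spec (aug ha hd hW) E
  rw [red_iff] at hr
  rw [σ.M_iso hd ψ e, ← hY, ← M_tw_red hd hθ ψ hr]
  have := M_tower_le (ps hW (List.finRange n)) (ps_OK hW _) hd hθ ψ Y
  rwa [ps_length, List.length_finRange] at this

/-- equality in the mass inequality -/
theorem null_of_mass {φ : ℝ} {E : MF (lg a d W hW)} (hE : σ.P φ E) (h2 : ∀ i, 2 * a i < d)
    (h : ∀ ψ, rk E * kw hd hW σ ψ = 2 ^ n * σ.M d ψ E) : 2 ^ n ∣ rk E := by
  obtain ⟨Y, ⟨e⟩, hY, hr⟩ := rk_spec (aug ha hd hW) E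
  rw [red_iff] at hr
  have hYP : σ.P φ Y := σ.iso e hE
  rw [← hY]
  refine dvd_of_null h2 Y hr fun i => ?_
  obtain ⟨p, hp, hp1, hp2⟩ := ps_mem hW (List.finRange n) (List.mem_finRange i)
  have key : ∀ ψ, σ.M d ψ (cone (X := Y.ts (-p.2.2) 1 (one_mul 1)) (Y := Y) (p.1 • 1)
      (twist_Z Y (ps_OK hW _ p hp).1)) = 2 * σ.M d ψ Y := by
    intro ψ
    refine tw_one hd hθ ψ Y (ps hW (List.finRange n)) (ps_OK hW _) ?_ p hp
    rw [M_tw_red hd hθ ψ hr, ps_length, List.length_finRange, hY, h ψ, σ.M_iso hd ψ e]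
  have hlt : ((th d p.2.2 : ℤ) : ℝ) / d < 1 := by
    rw [hp2, div_lt_one (by exact_mod_cast hd)]
    have e1 : th d (wt a d i) = 2 * a i := by
      simp [th, wt, tau]; ring
    rw [e1]
    exact_mod_cast h2 i
  obtain ⟨s, _, es⟩ := null_of_eq hd hθ hYP (ps_OK hW _ p hp).1 hlt key
  refine ⟨s, ?_⟩
  rw [hp1] at es
  rw [es]
  show Y.D * s + s * ((1 : ℂ) • Y.D) = _
  rw [one_smul]

omit hθ ha in
theorem rk_of_isZero {X : MF (lg a d W hW)} (h : IsZero X) : rk X = 0 := by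
  have e : X ≅ zeroMF (lg a d W hW) := h.iso (by
    rw [IsZero.iff_id_eq_zero]
    exact hm_congr (by ext x; exact x.elim))
  have := rk_le e
  have h0 : Fintype.card (zeroMF (lg a d W hW)).I = 0 := Fintype.card_eq_zero_iff.2
    (inferInstanceAs (IsEmpty Empty))
  omega

/-- the core of the proof: a semistable quotient of minimal phase is everything -/
theorem core (h2 : ∀ i, 2 * a i < d) {X : MF (lg a d W hW)} (hr : rk X = 2 ^ n)
    (hM : ∀ ψ, σ.M d ψ X = kw hd hW σ ψ) {φ : ℝ} (T : Triangle (MF (lg a d W hW)))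
    (hT : T ∈ distTriang (MF (lg a d W hW))) (e : T.obj₂ ≅ X)
    (h₁ : Gen σ.P (Set.Ici φ) T.obj₁) (h₃ : σ.P φ T.obj₃) (h0 : ¬ IsZero T.obj₃) :
    IsZero T.obj₁ := by
  have hrk : rk X ≤ rk T.obj₁ + rk T.obj₃ := by rw [← rk_iso e]; exact rk_tri T hT
  have hsum : ∀ ψ, σ.M d ψ X = σ.M d ψ T.obj₁ + σ.M d ψ T.obj₃ := fun ψ => by
    rw [← σ.M_iso hd ψ e]; exact σ.M_hn hd ψ T hT h₁ h₃
  have hk0 : ∀ ψ, 0 ≤ kw hd hW σ ψ := fun ψ => σ.M_nonneg hd ψ _
  have m1 := fun ψ => mass_le ha hd hθ ψ T.obj₁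
  have m3 := fun ψ => mass_le ha hd hθ ψ T.obj₃
  have hrk' : ((2 : ℝ) ^ n) ≤ rk T.obj₁ + rk T.obj₃ := by
    have : ((rk X : ℕ) : ℝ) ≤ ((rk T.obj₁ + rk T.obj₃ : ℕ) : ℝ) := by exact_mod_cast hrk
    rw [hr] at this
    push_cast at this
    exact this
  have eq3 : ∀ ψ, rk T.obj₃ * kw hd hW σ ψ = 2 ^ n * σ.M d ψ T.obj₃ := fun ψ => by
    have a1 := m1 ψ
    have a3 := m3 ψ
    have a2 := mul_le_mul_of_nonneg_right hrk' (hk0 ψ)
    have a4 := hsum ψ
    rw [hM ψ] at a4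
    have a5 : (2 : ℝ) ^ n * kw hd hW σ ψ = 2 ^ n * σ.M d ψ T.obj₁ + 2 ^ n * σ.M d ψ T.obj₃ := by
      rw [← mul_add, ← a4]
    linarith
  have eqs : ∀ ψ, (rk T.obj₁ + rk T.obj₃ : ℝ) * kw hd hW σ ψ = 2 ^ n * kw hd hW σ ψ := fun ψ => by
    have a1 := m1 ψ
    have a3 := m3 ψ
    have a2 := mul_le_mul_of_nonneg_right hrk' (hk0 ψ)
    have a4 := hsum ψ
    rw [hM ψ] at a4
    have a5 : (2 : ℝ) ^ n * kw hd hW σ ψ = 2 ^ n * σ.M d ψ T.obj₁ + 2 ^ n * σ.M d ψ T.obj₃ := by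
      rw [← mul_add, ← a4]
    linarith
  have hdvd := null_of_mass ha hd hθ h₃ h2 eq3
  have hne : rk T.obj₃ ≠ 0 := fun h => h0 (rk_zero h)
  have hge : 2 ^ n ≤ rk T.obj₃ := Nat.le_of_dvd (Nat.pos_of_ne_zero hne) hdvd
  have hpos : 0 < kw hd hW σ (φ - 1 / 2) := by
    have b1 := σ.M_pos hd (φ - 1 / 2) h₃ h0 0 (by simp; norm_num) (by simp)
    have b2 := eq3 (φ - 1 / 2)
    by_contra hc
    have b3 : kw hd hW σ (φ - 1 / 2) = 0 := le_antisymm (not_lt.1 hc) (hk0 _)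
    rw [b3, mul_zero] at b2
    have b4 : (0 : ℝ) < 2 ^ n * σ.M d (φ - 1 / 2) T.obj₃ := by positivity
    linarith
  have b5 := mul_right_cancel₀ hpos.ne' (eqs (φ - 1 / 2))
  have b6 : rk T.obj₁ + rk T.obj₃ = 2 ^ n := by exact_mod_cast b5
  exact rk_zero (by omega)

/-- every object of minimal rank and minimal mass is stable -/
theorem stable_of_mass (h2 : ∀ i, 2 * a i < d) {X : MF (lg a d W hW)} (hr : rk X = 2 ^ n)
    (hM : ∀ ψ, σ.M d ψ X = kw hd hW σ ψ) : ∃ φ, σ.Stable φ X := by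
  have hX0 : ¬ IsZero X := fun h => by
    rw [rk_of_isZero h] at hr
    have : 0 < 2 ^ n := by positivity
    omega
  obtain ⟨x, y, hx⟩ := σ.hn X
  rcases σ.HN_nonzero hx with h | ⟨x', y', _, _, h⟩
  · exact absurd h hX0
  · cases h with
    | one hP h0 =>
      refine ⟨x', hP, h0, fun A B f g h hT hA hB => ?_⟩
      by_cases hB0 : IsZero B
      · exact Or.inr hB0
      · exact Or.inl (core ha hd hθ h2 hr hM (φ := x') _ hT (Iso.refl _)
          (.ss (Set.mem_Ici.2 le_rfl) hA) hB hB0)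
    | step T hT h₁ h₃ h0 hφ =>
      exfalso
      have h5 := core ha hd hθ h2 hr hM T hT (Iso.refl _)
        ((σ.HN_gen (σ.HNn_HN h₁)).mono fun z hz => hφ.le.trans hz.1) h₃ h0
      obtain ⟨A, hA, f, hf⟩ := σ.HNn_low h₁
      exact hf (h5.eq_of_src _ _)

end poly

end Pool.Agent.Helper445_GMF
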