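import Pool.Agent.Helper445_GMF.Inj

/-!
The morphisms to the Koszul matrix factorizations.
-/

set_option autoImplicit false
set_option linter.unusedSectionVars false

open CategoryTheory Matrix Pretriangulated Limits MvPolynomial

namespace Pool.Agent.Helper445_GMF

variable {n : ℕ} {a : Fin n → ℕ} {d : ℕ} {W : MvPolynomial (Fin n) ℂ}

/-- the Koszul matrix factorization with generators of degrees `g` -/
noncomputable abbrev KK (hd : 0 < d) (hW : IsWeightedHomogeneous a W d) {I : Type} [Fintype I]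
    [DecidableEq I] (g : I → Gd d) : MF (lg a d W hW) :=
  kos (L := lg a d W hW) g (ps hW (List.finRange n)) (ps_OK hW _) (full_sum hd hW)

theorem const_of_mem {x : MvPolynomial (Fin n) ℂ} {c : Gd d}
    (hx : IsWeightedHomogeneous (wt a d) x c) (h : c ≠ 0) : constantCoeff x = 0 := by
  by_contra hc
  have h1 := hx (d := 0) (by simpa [constantCoeff] using hc)
  rw [map_zero] at h1
  exact h h1.symm

theorem wq_const (hW : IsWeightedHomogeneous a W d) {i : Fin n} (h : a i ≠ d)
    (L : List (Fin n)) : constantCoeff (wq hW i L) = 0 := by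
  refine const_of_mem (wq_mem hW i L) fun h1 => h ?_
  have h2 : (wt a d i).1.1 = (sig d + sig d).1.1 := by rw [sub_eq_zero.1 h1]
  have h3 : (wt a d i).1.1 = a i * 2 := by simp [wt, tau]
  have h4 : (sig d + sig d).1.1 = (d : ℤ) + d := rfl
  omega

theorem const_smul_one {I : Type} [DecidableEq I] {x : MvPolynomial (Fin n) ℂ}
    (hx : constantCoeff x = 0) (i j : I) :
    constantCoeff ((x • (1 : Matrix I I (MvPolynomial (Fin n) ℂ))) i j) = 0 := by
  rw [Matrix.smul_apply, smul_eq_mul, map_mul, hx, zero_mul]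

theorem kM_red (hW : IsWeightedHomogeneous a W d) (had : ∀ i, a i ≠ d) {I : Type} [Fintype I]
    [DecidableEq I] (L : List (Fin n)) : ∀ i j,
    constantCoeff (kM 1 (0 : Matrix I I (MvPolynomial (Fin n) ℂ)) (ps hW L) i j) = 0 := by
  induction L with
  | nil => intro i j; exact map_zero _
  | cons m L ih =>
    rintro (i | i) (j | j)
    · exact ih i j
    · exact const_smul_one (constantCoeff_X ℂ m) i j
    · exact const_smul_one (by
        show constantCoeff (1 * wq hW m L) = 0
        rw [one_mul, wq_const hW (had m)]) i j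
    · show constantCoeff (-(kM 1 (0 : Matrix I I (MvPolynomial (Fin n) ℂ)) (ps hW L) i j)) = 0
      rw [map_neg, ih i j, neg_zero]

theorem KK_red (hd : 0 < d) (hW : IsWeightedHomogeneous a W d) (had : ∀ i, a i ≠ d) {I : Type}
    [Fintype I] [DecidableEq I] (g : I → Gd d) : Red0 (KK hd hW g) := kM_red hW had _

theorem exists_lift {L : LG} (E : MF L) (l : List (L.A × L.A × L.G)) (hl : OK L l)
    (hs : (l.map fun p => p.1 * p.2.1).sum = L.W) (hc : Chain E.g E.D l 0) {I : Type} [Fintype I]
    [DecidableEq I] (g : I → L.G) (F : Matrix I E.I L.A) (hF : F ∈ Hg E.g g 0) :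
    ∃ M ∈ Z E (kos g l hl hs), M.submatrix (tp l) id = F := by
  obtain ⟨U, hU, _, _, _, _, h3, h4⟩ := hc.key'
  have h5 : kM 1 (0 : Matrix I I L.A) l * kE F l = kE F l * kM 1 (0 : Matrix E.I E.I L.A) l :=
    kM_kE 1 0 0 F (by simp) l
  have h7 := kM_inc E.D l
  refine ⟨kE F l * U * inc l, ⟨Hg_mul (Hg_mul (kE_Hg hF l) hU (add_zero _)) (inc_Hg E.g l)
    (add_zero _), ?_⟩, ?_⟩
  · show kM 1 (0 : Matrix I I L.A) l * (kE F l * U * inc l) = kE F l * U * inc l * E.D
    generalize (inc l : Matrix (Cu E.I l) E.I L.A) = J at h7 ⊢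
    have e1 : kE F l * U * J * E.D = kE F l * U * (kM 0 E.D l * J) :=
      (Matrix.mul_assoc _ _ _).trans (congrArg (fun M => kE F l * U * M) h7.symm)
    rw [e1]
    calc kM 1 (0 : Matrix I I L.A) l * (kE F l * U * J) =
          (kM 1 (0 : Matrix I I L.A) l * kE F l) * U * J := by simp only [Matrix.mul_assoc]
      _ = kE F l * (kM 1 (0 : Matrix E.I E.I L.A) l * U) * J := by
          rw [h5]; simp only [Matrix.mul_assoc]
      _ = kE F l * U * (kM 0 E.D l * J) := by rw [h3]; simp only [Matrix.mul_assoc]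
  · rw [← prj_mul l (kE F l * U * inc l), ← Matrix.mul_assoc, ← Matrix.mul_assoc, prj_kE,
      Matrix.mul_assoc F, prj_mul, Matrix.mul_assoc, mul_inc]
    have : (U.submatrix (tp l) id).submatrix id (tp l) = 1 := by
      ext1 i j; exact h4 i j
    rw [this, Matrix.mul_one]

theorem cg_tp {L : LG} {I : Type} (g : I → L.G) (l : List (L.A × L.A × L.G)) (i : I) :
    cg g l (tp l i) = g i := by
  induction l with
  | nil => rfl
  | cons p l ih => exact ih

theorem const_mul_left {I J K : Type} [Fintype J] {M : Matrix I J (MvPolynomial (Fin n) ℂ)}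
    (hM : ∀ i j, constantCoeff (M i j) = 0) (M' : Matrix J K (MvPolynomial (Fin n) ℂ)) (i : I)
    (k : K) : constantCoeff ((M * M') i k) = 0 := by
  rw [Matrix.mul_apply, map_sum]
  exact Finset.sum_eq_zero fun j _ => by rw [map_mul, hM, zero_mul]

theorem const_mul_right {I J K : Type} [Fintype J] {M : Matrix J K (MvPolynomial (Fin n) ℂ)}
    (hM : ∀ i j, constantCoeff (M i j) = 0) (M' : Matrix I J (MvPolynomial (Fin n) ℂ)) (i : I)
    (k : K) : constantCoeff ((M' * M) i k) = 0 := by
  rw [Matrix.mul_apply, map_sum]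
  exact Finset.sum_eq_zero fun j _ => by rw [map_mul, hM, mul_zero]

theorem N_const {hW : IsWeightedHomogeneous a W d} {X Y : MF (lg a d W hW)} (hX : Red0 X)
    (hY : Red0 Y) {f : Matrix Y.I X.I (MvPolynomial (Fin n) ℂ)} (hf : f ∈ N X Y) (i : Y.I)
    (j : X.I) : constantCoeff (f i j) = 0 := by
  obtain ⟨s, _, rfl⟩ := hf
  rw [Matrix.add_apply, map_add, const_mul_left hY, const_mul_right hX, add_zero]

section

variable {hd : 0 < d} {hW : IsWeightedHomogeneous a W d} (had : ∀ i, a i ≠ d) {I : Type}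
  [Fintype I] [DecidableEq I] (g : I → Gd d) {E : MF (lg a d W hW)} (hE : Red0 E)

/-- the top component at the origin -/
noncomputable def topm : (E ⟶ KK hd hW g) →ₗ[ℂ] ({q : I × E.I // E.g q.2 = g q.1} → ℂ) where
  toFun φ q := Quotient.liftOn φ
    (fun f => constantCoeff (f.1 (tp (ps hW (List.finRange n)) q.1.1) q.1.2)) (by
      intro f f' h
      have h1 := N_const (X := E) (Y := KK hd hW g) hE (KK_red hd hW had g) h
        (tp (ps hW (List.finRange n)) q.1.1) q.1.2
      rw [Matrix.sub_apply, map_sub] at h1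
      exact sub_eq_zero.1 h1)
  map_add' φ ψ := by
    obtain ⟨f, hf, rfl⟩ := hm_surj φ
    obtain ⟨f', hf', rfl⟩ := hm_surj ψ
    funext q
    exact map_add (constantCoeff) _ _
  map_smul' c φ := by
    obtain ⟨f, hf, rfl⟩ := hm_surj φ
    funext q
    show constantCoeff ((c • f) (tp (ps hW (List.finRange n)) q.1.1) q.1.2) = _
    rw [Matrix.smul_apply, constantCoeff_smul]
    rfl

theorem topm_hm {f : Matrix (KK hd hW g).I E.I (MvPolynomial (Fin n) ℂ)}
    (hf : f ∈ Z E (KK hd hW g)) (q : {q : I × E.I // E.g q.2 = g q.1}) :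
    topm had g hE (hm f hf) q =
      constantCoeff (f (tp (ps hW (List.finRange n)) q.1.1) q.1.2) := rfl

theorem topm_inj : Function.Injective (topm (hd := hd) had g hE) := by
  rw [injective_iff_map_eq_zero]
  intro φ hφ
  obtain ⟨f, hf, rfl⟩ := hm_surj φ
  refine hm_eq_zero_iff.2 (inj hW hd g E f hf fun i j => ?_)
  by_cases h : E.g j = g i
  · exact congrFun hφ ⟨(i, j), h⟩
  · refine const_of_mem (hf.1 _ _) fun h0 => h ?_
    have h1 : cg (L := lg a d W hW) g (ps hW (List.finRange n))
      (tp (ps hW (List.finRange n)) i) - E.g j + 0 = 0 := h0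
    rw [cg_tp, add_zero] at h1
    exact (sub_eq_zero.1 h1).symm

theorem topm_surj : Function.Surjective (topm (hd := hd) had g hE) := by
  intro v
  have h0 : E.D.map (ev (List.finRange n)) = 0 := by
    ext1 i j
    show ev (List.finRange n) (E.D i j) = 0
    rw [ev_full, hE i j, map_zero]
  have hc := chain hW E (List.finRange n)
  rw [h0] at hc
  have hF : (Matrix.of fun i j => if h : E.g j = g i then C (v ⟨(i, j), h⟩) else 0 :
      Matrix I E.I (MvPolynomial (Fin n) ℂ)) ∈ Hg (L := lg a d W hW) E.g g 0 := by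
    intro i j
    show IsWeightedHomogeneous (wt a d) (if h : E.g j = g i then C (v ⟨(i, j), h⟩) else 0)
      (g i - E.g j + 0)
    split_ifs with h
    · rw [h, sub_self, add_zero]
      exact isWeightedHomogeneous_C _ _
    · exact isWeightedHomogeneous_zero _ _ _
  obtain ⟨M, hM, hM2⟩ := exists_lift E (ps hW (List.finRange n)) (ps_OK hW _) (full_sum hd hW) hc g
    _ hF
  refine ⟨hm M hM, ?_⟩
  funext q
  rw [topm_hm]
  have h9 : M (tp (ps hW (List.finRange n)) q.1.1) q.1.2 =
      if h : E.g q.1.2 = g q.1.1 then C (v ⟨(q.1.1, q.1.2), h⟩) else 0 :=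
    congrFun (congrFun hM2 q.1.1) q.1.2
  rw [h9, dif_pos q.2, constantCoeff_C]

/-- the morphisms to the Koszul matrix factorizations -/
noncomputable def tope : (E ⟶ KK hd hW g) ≃ₗ[ℂ] ({q : I × E.I // E.g q.2 = g q.1} → ℂ) :=
  LinearEquiv.ofBijective (topm had g hE) ⟨topm_inj had g hE, topm_surj had g hE⟩

include had hE

theorem rank_KK : Module.rank ℂ (E ⟶ KK hd hW g) =
    (Fintype.card {q : I × E.I // E.g q.2 = g q.1} : ℕ) := by
  rw [(tope had g hE).rank_eq, rank_fun']

theorem finrank_KK : Module.finrank ℂ (E ⟶ KK hd hW g) =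
    Fintype.card {q : I × E.I // E.g q.2 = g q.1} := by
  rw [(tope had g hE).finrank_eq, Module.finrank_fintype_fun_eq_card]

end

end Pool.Agent.Helper445_GMF
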