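import Pool.Agent.Helper445_GMF.Tower

/-!
Masses in the tower.
-/

set_option autoImplicit false
set_option linter.unusedSectionVars false

open CategoryTheory Matrix Pretriangulated Limits

namespace Pool.Agent.Helper445_GMF

variable {L : LG}

/-- compatibility of a stability condition with the twists -/
structure Tw (σ : PreStab (MF L)) (d : ℕ) (θ : L.G → ℤ) : Prop where
  P : ∀ (g : L.G) (φ : ℝ) (X : MF L), σ.P φ X → σ.P (φ + θ g / d) (X.ts g 1 (one_mul 1))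
  F : ∀ (g : L.G) (s : ℝ) (X : MF L), σ.F s (X.ts g 1 (one_mul 1)) = σ.F (s - θ g / d) X
  neg : ∀ g : L.G, θ (-g) = - θ g

variable {σ : PreStab (MF L)} {d : ℕ} (hd : 0 < d) {θ : L.G → ℤ} (hθ : Tw σ d θ)

include hd hθ

theorem M_tw (ψ : ℝ) (g : L.G) (X : MF L) :
    σ.M d ψ (X.ts g 1 (one_mul 1)) = σ.M d ψ X :=
  σ.M_rot hd ψ (θ g) fun s => hθ.F g s X

omit hθ in
theorem M_cone (ψ : ℝ) {X Y : MF L} (f : Matrix Y.I X.I L.A) (hf : f ∈ Z X Y) :
    σ.M d ψ (cone f hf) ≤ σ.M d ψ Y + σ.M d ψ X := by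
  have h := σ.M_sub hd ψ (tri f hf).rotate (rot_of_distTriang _ (dist_tri f hf))
  rw [← σ.M_shift hd ψ X]
  exact h

theorem tw_step (ψ : ℝ) (E : MF L) (p : L.A × L.A × L.G) (l : List (L.A × L.A × L.G))
    (hl : OK L (p :: l)) : σ.M d ψ (tw E (p :: l) hl) ≤ 2 * σ.M d ψ (tw E l hl.tail) := by
  obtain ⟨e⟩ := (tw_cone E p l hl).iso
  rw [σ.M_iso hd ψ e]
  refine (M_cone hd ψ _ _).trans ?_
  rw [M_tw hd hθ ψ]
  linarith

theorem tw_le (ψ : ℝ) (E : MF L) (l' l : List (L.A × L.A × L.G)) (hl : OK L (l' ++ l))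
    (hl2 : OK L l) : σ.M d ψ (tw E (l' ++ l) hl) ≤ 2 ^ l'.length * σ.M d ψ (tw E l hl2) := by
  induction l' with
  | nil => simp
  | cons p l' ih =>
    refine (tw_step hd hθ ψ E p (l' ++ l) hl).trans ?_
    have := ih hl.tail
    rw [List.length_cons, pow_succ]
    linarith

omit hd hθ in
theorem tw_nil (E : MF L) (h : OK L []) : tw E [] h = E := rfl

/-- equality propagates to the first step, in any order -/
theorem tw_one (ψ : ℝ) (E : MF L) (l : List (L.A × L.A × L.G)) (hl : OK L l)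
    (h : 2 ^ l.length * σ.M d ψ E ≤ σ.M d ψ (tw E l hl)) (p : L.A × L.A × L.G) (hp : p ∈ l) :
    σ.M d ψ (cone (X := E.ts (-p.2.2) 1 (one_mul 1)) (Y := E) (p.1 • 1)
      (twist_Z E (hl p hp).1)) = 2 * σ.M d ψ E := by
  classical
  obtain ⟨l', hl'⟩ : ∃ l', l.Perm (l' ++ [p]) := by
    obtain ⟨s, t, rfl⟩ := List.append_of_mem hp
    refine ⟨s ++ t, ?_⟩
    have h1 : (s ++ p :: t).Perm (p :: (s ++ t)) := List.perm_middle
    exact h1.trans (List.perm_append_singleton p (s ++ t)).symm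
  have hok : OK L (l' ++ [p]) := hl.perm hl'
  have hok1 : OK L [p] := fun q hq => hok q (List.mem_append_right _ hq)
  obtain ⟨e⟩ := (tw_perm E hl' hl hok).iso
  have h1 := tw_le hd hθ ψ E l' [p] hok hok1
  rw [← σ.M_iso hd ψ e] at h1
  obtain ⟨e2⟩ := (tw_cone E p [] hok1).iso
  rw [σ.M_iso hd ψ e2] at h1
  have h2 := M_cone hd (σ := σ) ψ (X := (tw E [] hok1.tail).ts (-p.2.2) 1 (one_mul 1))
    (Y := tw E [] hok1.tail) (p.1 • 1) (twist_Z _ hok1.head.1)
  rw [M_tw hd hθ ψ] at h2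
  have h3 : l.length = l'.length + 1 := by
    rw [hl'.length_eq, List.length_append, List.length_singleton]
  rw [h3, pow_succ] at h
  have h4 : (0 : ℝ) < 2 ^ l'.length := by positivity
  have h5 : σ.M d ψ (tw E [] hok1.tail) = σ.M d ψ E := rfl
  rw [h5] at h2
  have h6 : 2 ^ l'.length * (2 * σ.M d ψ E) ≤ 2 ^ l'.length *
    σ.M d ψ (cone (X := (tw E [] hok1.tail).ts (-p.2.2) 1 (one_mul 1))
      (Y := tw E [] hok1.tail) (p.1 • 1) (twist_Z _ hok1.head.1)) := by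
    linarith
  have h7 := le_of_mul_le_mul_left h6 h4
  refine le_antisymm ?_ h7
  exact h2.trans (by linarith)

/-- if the mass of the cone is maximal then multiplication by `x` is null-homotopic -/
theorem null_of_eq {φ : ℝ} {E : MF L} (hE : σ.P φ E) {x : L.A} {a : L.G} (hx : x ∈ L.pc a)
    (ha : (θ a : ℝ) / d < 1)
    (h : ∀ ψ, σ.M d ψ (cone (X := E.ts (-a) 1 (one_mul 1)) (Y := E) (x • 1) (twist_Z E hx)) =
      2 * σ.M d ψ E) : x • (1 : Matrix E.I E.I L.A) ∈ N (E.ts (-a) 1 (one_mul 1)) E := by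
  have hdist := rot_of_distTriang _ (dist_tri (X := E.ts (-a) 1 (one_mul 1)) (Y := E) (x • 1)
    (twist_Z E hx))
  set s : ℝ := φ + (1 - θ a / d) / 2 with hs
  have h1 := h s
  have h2 : σ.M d s (E.ts (-a) 1 (one_mul 1)) = σ.M d s E := M_tw hd hθ s (-a) E
  have h3 : σ.M d s ((E.ts (-a) 1 (one_mul 1))⟦(1 : ℤ)⟧) = σ.M d s E := by
    rw [σ.M_shift hd, h2]
  have h4 := σ.M_eq hd s 0 _ hdist (by
    refine h1.trans ?_
    show 2 * σ.M d s E = σ.M d s E + σ.M d s ((E.ts (-a) 1 (one_mul 1))⟦(1 : ℤ)⟧)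
    rw [h3]; ring)
  have h5 : σ.P (φ + θ (-a) / d + 1) ((E.ts (-a) 1 (one_mul 1))⟦(1 : ℤ)⟧) :=
    (σ.shift _ _).2 (hθ.P (-a) φ E hE)
  have e5 : ((θ (-a) : ℤ) : ℝ) / d = -((θ a : ℝ) / d) := by rw [hθ.neg]; push_cast; ring
  rw [e5] at h5
  have h6 := σ.F_strict _ hdist hE h5 (s := s + ((0 : ℤ) : ℝ) / d)
    (by rw [hs]; simp; linarith) (by rw [hs]; simp; linarith) h4
  have h7 : -(hm (X := E.ts (-a) 1 (one_mul 1)) (Y := E) (x • 1) (twist_Z E hx))⟦(1 : ℤ)⟧' = 0 := h6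
  rw [neg_eq_zero] at h7
  have h8 : hm (X := E.ts (-a) 1 (one_mul 1)) (Y := E) (x • 1) (twist_Z E hx) = 0 :=
    (shiftFunctor (MF L) (1 : ℤ)).map_injective (by rw [h7, Functor.map_zero])
  exact hm_eq_zero_iff.1 h8

/-- if multiplication by every `x` is null-homotopic then the mass of the tower is maximal -/
theorem tw_split (ψ : ℝ) (E : MF L) (l : List (L.A × L.A × L.G)) (hl : OK L l)
    (h : ∀ p ∈ l, p.1 • (1 : Matrix E.I E.I L.A) ∈ N (E.ts (-p.2.2) 1 (one_mul 1)) E) :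
    σ.M d ψ (tw E l hl) = 2 ^ l.length * σ.M d ψ E := by
  induction l with
  | nil => rw [List.length_nil, pow_zero, one_mul]; rfl
  | cons p l ih =>
    have ih := ih hl.tail fun q hq => h q (List.mem_cons_of_mem _ hq)
    obtain ⟨e⟩ := (tw_cone E p l hl).iso
    rw [σ.M_iso hd ψ e]
    have hdist := rot_of_distTriang _ (dist_tri (X := (tw E l hl.tail).ts (-p.2.2) 1 (one_mul 1))
      (Y := tw E l hl.tail) (p.1 • 1) (twist_Z _ hl.head.1))
    have h0 : hm (X := (tw E l hl.tail).ts (-p.2.2) 1 (one_mul 1))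
      (Y := tw E l hl.tail) (p.1 • 1) (twist_Z _ hl.head.1) = 0 := by
      rw [hm_eq_zero_iff]
      obtain ⟨s, hs, es⟩ := h p List.mem_cons_self
      refine ⟨kO s l, ?_, ?_⟩
      · refine Hg_eq (kO_Hg hs l) fun i j => ?_
        have := cg_add E.g (-p.2.2) l j
        show cg E.g l i - cg (fun i => E.g i + -p.2.2) l j + -L.ς =
          cg E.g l i - (cg E.g l j + -p.2.2) + -L.ς
        rw [this]
      · have es' : E.D * s + s * E.D = p.1 • 1 := by
          rw [es]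
          show E.D * s + s * E.D = E.D * s + s * ((1 : ℂ) • E.D)
          rw [one_smul]
        have := kM_kO 0 E.D E.D s (p.1 • 1) es' l
        rw [kE_smul, kE_one] at this
        show p.1 • 1 = kM 0 E.D l * kO s l + kO s l * ((1 : ℂ) • kM 0 E.D l)
        rw [one_smul, this]
    have h1 := σ.M_split hd ψ _ hdist (by
      show -(hm (X := (tw E l hl.tail).ts (-p.2.2) 1 (one_mul 1))
        (Y := tw E l hl.tail) (p.1 • 1) (twist_Z _ hl.head.1))⟦(1 : ℤ)⟧' = 0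
      rw [h0, Functor.map_zero, neg_zero])
    have h2 : σ.M d ψ (((tw E l hl.tail).ts (-p.2.2) 1 (one_mul 1))⟦(1 : ℤ)⟧) =
      σ.M d ψ (tw E l hl.tail) := by
      rw [σ.M_shift hd, M_tw hd hθ]
    refine h1.trans ?_
    show σ.M d ψ (tw E l hl.tail) +
      σ.M d ψ (((tw E l hl.tail).ts (-p.2.2) 1 (one_mul 1))⟦(1 : ℤ)⟧) = _
    rw [h2, ih, List.length_cons, pow_succ]
    ring

end Pool.Agent.Helper445_GMF
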