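import Pool.Agent.Helper445_GMF.ZInv
import Pool.Agent.Helper445_GMF.DefT
import Pool.Agent.Helper445_GMF.Coa5

/-!
From t-structures to coarse slicings.
-/

set_option autoImplicit false
set_option linter.unusedSectionVars false

open CategoryTheory Matrix Pretriangulated Limits MvPolynomial

namespace Pool.Agent.Helper445_GMF

section num

theorem Hp.rot {s c : ℝ} {z : ℂ} (h : Hp s (Complex.exp (Complex.I * Real.pi * c) * z)) :
    Hp (s - c) z := by
  unfold Hp at h ⊢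
  rw [PreStab.im_rot, PreStab.im_rot] at h
  have e : s + 1 / 2 - c = s - c + 1 / 2 := by ring
  rwa [e] at h

theorem Hp.rot' {s c : ℝ} {z : ℂ} (h : Hp (s - c) z) :
    Hp s (Complex.exp (Complex.I * Real.pi * c) * z) := by
  unfold Hp at h ⊢
  rw [PreStab.im_rot, PreStab.im_rot]
  have e : s + 1 / 2 - c = s - c + 1 / 2 := by ring
  rwa [e]

/-- a number in a half-plane -/
theorem Hp.lt {s r φ : ℝ} (hr : 0 < r) (h : Hp s (r * Complex.exp (Complex.I * Real.pi * φ)))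
    (h1 : s - 1 < φ) : s < φ := by
  by_contra hc
  rw [not_lt] at hc
  have hpi := Real.pi_pos
  unfold Hp at h
  rw [PreStab.im_exp, PreStab.im_exp] at h
  have h2 : Real.sin (Real.pi * (φ - s)) ≤ 0 :=
    Real.sin_nonpos_of_nonpos_of_neg_pi_le (by nlinarith) (by nlinarith)
  rcases h with h | ⟨h, h'⟩
  · have := mul_nonpos_of_nonneg_of_nonpos hr.le h2
    linarith
  · have h3 : φ = s := by
      by_contra h4
      have h5 : φ < s := lt_of_le_of_ne hc h4
      have h6 : Real.sin (Real.pi * (φ - s)) < 0 :=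
        Real.sin_neg_of_neg_of_neg_pi_lt (by nlinarith) (by nlinarith)
      have := mul_neg_of_pos_of_neg hr h6
      linarith
    subst h3
    have h4 : Real.pi * (φ - (φ + 1 / 2)) = -(Real.pi / 2) := by ring
    rw [h4, Real.sin_neg, Real.sin_pi_div_two] at h'
    linarith

theorem hp_zero {z : ℂ} : Hp 0 z ↔ 0 < z.im ∨ (z.im = 0 ∧ z.re < 0) := by
  have h1 : PreStab.im 0 z = z.im := by simp [PreStab.im]
  have h2 : PreStab.im (0 + 1 / 2) z = - z.re := by
    unfold PreStab.im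
    have : -(Complex.I * Real.pi * ((0 + 1 / 2 : ℝ) : ℂ)) = -(Real.pi / 2 * Complex.I) := by
      push_cast; ring
    rw [this, Complex.exp_neg, Complex.exp_pi_div_two_mul_I, Complex.inv_I]
    simp
  unfold Hp
  rw [h1, h2]
  simp

theorem Hp.polar {z : ℂ} (h : Hp 0 z) : ∃ r φ : ℝ, 0 < r ∧ 0 < φ ∧ φ ≤ 1 ∧
    z = r * Complex.exp (Complex.I * Real.pi * φ) := by
  have hpi := Real.pi_pos
  have h' := hp_zero.1 h
  have hz : z ≠ 0 := by
    rintro rfl
    simp at h'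
  have ha0 : 0 < Complex.arg z := by
    rcases h' with h' | h'
    · refine lt_of_le_of_ne (Complex.arg_nonneg_iff.2 h'.le) ?_
      intro h
      have := (Complex.arg_eq_zero_iff.1 h.symm).2
      linarith
    · rw [Complex.arg_eq_pi_iff.2 ⟨h'.2, h'.1⟩]
      exact hpi
  refine ⟨‖z‖, Complex.arg z / Real.pi, norm_pos_iff.2 hz, div_pos ha0 hpi, ?_, ?_⟩
  · rw [div_le_one hpi]
    exact Complex.arg_le_pi z
  · have h2 : Complex.I * Real.pi * ((Complex.arg z / Real.pi : ℝ) : ℂ) =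
        Complex.arg z * Complex.I := by
      have : (Real.pi : ℂ) ≠ 0 := Complex.ofReal_ne_zero.2 hpi.ne'
      push_cast
      field_simp
    rw [h2, Complex.norm_mul_exp_arg_mul_I]

/-- the phase of a complex number is unique in an interval of length less than two -/
theorem polar_unique {r r' φ φ' : ℝ} (hr : 0 < r) (hr' : 0 < r')
    (e : (r : ℂ) * Complex.exp (Complex.I * Real.pi * φ) =
      r' * Complex.exp (Complex.I * Real.pi * φ'))
    (h : φ' - φ < 2) (h' : φ - φ' < 2) : φ = φ' := by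
  have key : ∀ {r r' φ φ' : ℝ}, 0 < r → 0 < r' →
      (r : ℂ) * Complex.exp (Complex.I * Real.pi * φ) =
      r' * Complex.exp (Complex.I * Real.pi * φ') → φ' - φ < 2 → ¬ φ < φ' := by
    intro r r' φ φ' hr hr' e h hlt
    have hpi := Real.pi_pos
    have h1 := PreStab.im_exp φ φ r
    have h2 := PreStab.im_exp φ φ' r'
    rw [e, h2, sub_self, mul_zero, Real.sin_zero, mul_zero] at h1
    have h3 : Real.sin (Real.pi * (φ' - φ)) = 0 := by
      rcases mul_eq_zero.1 h1 with h | h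
      · exact absurd h hr'.ne'
      · exact h
    have h4 : φ' - φ = 1 := by
      obtain ⟨k, hk⟩ := Real.sin_eq_zero_iff.1 h3
      have h5 : (k : ℝ) = φ' - φ := by
        have : Real.pi * (φ' - φ - k) = 0 := by linarith
        rcases mul_eq_zero.1 this with h | h
        · exact absurd h hpi.ne'
        · linarith
      have h6 : (0 : ℝ) < k := by rw [h5]; linarith
      have h7 : (k : ℝ) < 2 := by rw [h5]; linarith
      have h8 : k = 1 := by
        have h9 : 0 < k := by exact_mod_cast h6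
        have h10 : k < 2 := by exact_mod_cast h7
        omega
      rw [← h5, h8]
      norm_num
    have h5 := PreStab.im_exp (φ - 1 / 2) φ r
    have h6 := PreStab.im_exp (φ - 1 / 2) φ' r'
    rw [e, h6] at h5
    have e1 : Real.pi * (φ - (φ - 1 / 2)) = Real.pi / 2 := by ring
    have e2 : Real.pi * (φ' - (φ - 1 / 2)) = Real.pi / 2 + Real.pi := by
      have : φ' = φ + 1 := by linarith
      rw [this]; ring
    rw [e1, e2, Real.sin_add_pi, Real.sin_pi_div_two] at h5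
    linarith
  rcases lt_trichotomy φ φ' with h1 | h1 | h1
  · exact absurd h1 (key hr hr' e h)
  · exact h1
  · exact absurd h1 (key hr' hr e.symm h')

/-- the numbers with phases in `(s, t]` -/
def Ph (s t : ℝ) (z : ℂ) : Prop := ∃ r φ : ℝ, 0 < r ∧ s < φ ∧ φ ≤ t ∧
  z = r * Complex.exp (Complex.I * Real.pi * φ)

theorem Ph.rot {s t c : ℝ} {z : ℂ} (h : Ph s t (Complex.exp (Complex.I * Real.pi * c) * z)) :
    Ph (s - c) (t - c) z := by
  obtain ⟨r, φ, hr, h1, h2, e⟩ := h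
  refine ⟨r, φ - c, hr, by linarith, by linarith, ?_⟩
  have h3 : z = Complex.exp (-(Complex.I * Real.pi * c)) *
      (Complex.exp (Complex.I * Real.pi * c) * z) := by
    rw [← mul_assoc, ← Complex.exp_add, neg_add_cancel, Complex.exp_zero, one_mul]
  rw [h3, e, mul_left_comm, ← Complex.exp_add]
  congr 2
  push_cast
  ring

theorem Ph.hp {s t u : ℝ} {z : ℂ} (h : Ph s t z) (h1 : u ≤ s) (h2 : t ≤ u + 1) : Hp u z := by
  obtain ⟨r, φ, hr, h3, h4, e⟩ := h
  have hpi := Real.pi_pos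
  unfold Hp
  rw [e, PreStab.im_exp, PreStab.im_exp]
  rcases lt_or_eq_of_le (h4.trans h2) with h5 | h5
  · exact Or.inl (mul_pos hr (Real.sin_pos_of_pos_of_lt_pi (mul_pos hpi (by linarith))
      (by nlinarith)))
  · refine Or.inr ⟨?_, ?_⟩
    · have : Real.pi * (φ - u) = Real.pi := by rw [h5]; ring
      rw [this, Real.sin_pi, mul_zero]
    · have : Real.pi * (φ - (u + 1 / 2)) = Real.pi / 2 := by rw [h5]; ring
      rw [this, Real.sin_pi_div_two, mul_one]
      exact hr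

theorem Ph.false {s t s' t' : ℝ} {z : ℂ} (h : Ph s t z) (h' : Ph s' t' z) (h1 : t ≤ s')
    (h2 : t' ≤ s + 2) : False := by
  obtain ⟨r, φ, hr, h3, h4, e⟩ := h
  obtain ⟨r', φ', hr', h3', h4', e'⟩ := h'
  have := polar_unique hr hr' (e.symm.trans e') (by linarith) (by linarith)
  linarith

theorem Ph.inter {s t s' t' : ℝ} {z : ℂ} (h : Ph s t z) (h' : Ph s' t' z) (h1 : t ≤ s' + 2)
    (h2 : t' ≤ s + 2) : Ph s t' z := by
  obtain ⟨r, φ, hr, h3, h4, e⟩ := h
  obtain ⟨r', φ', hr', h3', h4', e'⟩ := h'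
  have := polar_unique hr hr' (e.symm.trans e') (by linarith) (by linarith)
  exact ⟨r, φ, hr, h3, by linarith, e⟩

theorem ph_arg {ε : ℝ} (h1 : ε ≤ 1) {z : ℂ} :
    Ph 0 ε z ↔ 0 < Complex.arg z ∧ Complex.arg z ≤ Real.pi * ε := by
  have hpi := Real.pi_pos
  constructor
  · rintro ⟨r, φ, hr, h2, h3, e⟩
    have h4 : Complex.arg z = Real.pi * φ := by
      have e2 : z = r * Complex.exp (((Real.pi * φ : ℝ) : ℂ) * Complex.I) := by
        rw [e]; congr 2; push_cast; ring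
      rw [e2, Complex.arg_real_mul _ hr, Complex.arg_exp_mul_I]
      rw [toIocMod_eq_self]
      constructor
      · have := mul_pos hpi h2
        linarith
      · have : φ ≤ 1 := h3.trans h1
        nlinarith
    rw [h4]
    exact ⟨mul_pos hpi h2, mul_le_mul_of_nonneg_left h3 hpi.le⟩
  · rintro ⟨h2, h3⟩
    have hz : z ≠ 0 := by
      rintro rfl
      rw [Complex.arg_zero] at h2
      exact lt_irrefl _ h2
    refine ⟨‖z‖, Complex.arg z / Real.pi, norm_pos_iff.2 hz, div_pos h2 hpi, ?_, ?_⟩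
    · rw [div_le_iff₀ hpi]
      linarith
    · have h4 : Complex.I * Real.pi * ((Complex.arg z / Real.pi : ℝ) : ℂ) =
          Complex.arg z * Complex.I := by
        have : (Real.pi : ℂ) ≠ 0 := Complex.ofReal_ne_zero.2 hpi.ne'
        push_cast
        field_simp
      rw [h4, Complex.norm_mul_exp_arg_mul_I]

end num

section twist

variable {L : LG}

theorem hz_of_ts {X Y : MF L} {g : L.G}
    (h : ∀ f : X.ts g 1 (one_mul 1) ⟶ Y.ts g 1 (one_mul 1), f = 0) (f : X ⟶ Y) : f = 0 := by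
  obtain ⟨f, hf, rfl⟩ := hm_surj f
  have h1 := hm_eq_zero_iff.1 (h (hm f (ts_Z hf)))
  obtain ⟨s, hs, es⟩ := h1
  refine hm_eq_zero_iff.2 ⟨s, Hg_eq hs fun i j => ?_, ?_⟩
  · show Y.g i + g - (X.g j + g) + -L.ς = Y.g i - X.g j + -L.ς
    abel
  · rw [es]
    show ((1 : ℂ) • Y.D) * s + s * ((1 : ℂ) • X.D) = _
    rw [one_smul, one_smul]

theorem hz_iso {X Y X' Y' : MF L} (e : Nonempty (X' ≅ X)) (e' : Nonempty (Y' ≅ Y))
    (h : ∀ f : X ⟶ Y, f = 0) (f : X' ⟶ Y') : f = 0 := by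
  obtain ⟨e⟩ := e
  obtain ⟨e'⟩ := e'
  have h1 := h (e.inv ≫ f ≫ e'.hom)
  rw [← cancel_epi e.inv, ← cancel_mono e'.hom, Category.assoc, h1]
  simp

theorem hz_ts {X Y : MF L} (g : L.G) (h : ∀ f : X ⟶ Y, f = 0)
    (f : X.ts g 1 (one_mul 1) ⟶ Y.ts g 1 (one_mul 1)) : f = 0 := by
  refine hz_of_ts (g := -g) (fun f => hz_iso ?_ ?_ h f) f
  · obtain ⟨e1⟩ := ts_iso X (add_neg_cancel g)
    obtain ⟨e2⟩ := ts_zero X
    exact ⟨e1 ≪≫ e2⟩
  · obtain ⟨e1⟩ := ts_iso Y (add_neg_cancel g)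
    obtain ⟨e2⟩ := ts_zero Y
    exact ⟨e1 ≪≫ e2⟩

end twist

variable {n : ℕ} {a : Fin n → ℕ} {d : ℕ} {W : MvPolynomial (Fin n) ℂ}
  {hW : IsWeightedHomogeneous a W d}

/-- the shift functor is a twist -/
theorem shift_iso (X : MF (lg a d W hW)) :
    Nonempty (X⟦(1 : ℤ)⟧ ≅ X.ts (sig d) 1 (one_mul 1)) := by
  obtain ⟨e⟩ := sign_iso X
  refine ⟨e.symm ≪≫ idm X (one_mul 1) (one_mul 1) (one_smul ℤ (sig d)) rfl⟩

variable (hW) in
/-- monotone bounded t-structures with positive hearts -/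
structure TS where
  /-- the aisle -/
  U : MF (lg a d W hW) → Prop
  iso : ∀ {X Y : MF (lg a d W hW)}, (X ≅ Y) → U X → U Y
  m0 : ∀ X : MF (lg a d W hW), U X → U (X.ts (sig d) 1 (one_mul 1))
  tr : ∀ X : MF (lg a d W hW), ∃ (A B : MF (lg a d W hW)) (f : A ⟶ X) (g : X ⟶ B)
    (h : B ⟶ A⟦(1 : ℤ)⟧), Triangle.mk f g h ∈ distTriang (MF (lg a d W hW)) ∧ U A ∧ Ro U B
  up : ∀ X : MF (lg a d W hW), ∃ k : ℤ, U (X.ts (k • sig d) 1 (one_mul 1))
  dn : ∀ X : MF (lg a d W hW), ∃ k : ℤ, Ro U (X.ts (k • sig d) 1 (one_mul 1))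
  m1 : ∀ X : MF (lg a d W hW), U X → U (X.ts (tau d) 1 (one_mul 1))
  pos : ∀ X : MF (lg a d W hW), U X → Ro U (X.ts (-tau d) 1 (one_mul 1)) → ¬ IsZero X →
    Ph 0 (2 / d) (ZG X)

namespace TS

variable (T : TS hW)

theorem ts_congr {X : MF (lg a d W hW)} {a b c : Gd d} (h : a + b = c) :
    T.U ((X.ts a 1 (one_mul 1)).ts b 1 (one_mul 1)) ↔ T.U (X.ts c 1 (one_mul 1)) := by
  obtain ⟨e⟩ := ts_iso X h
  exact ⟨T.iso e, T.iso e.symm⟩

theorem ts_congr' {X : MF (lg a d W hW)} {a c : Gd d} (h : a = c) :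
    T.U (X.ts a 1 (one_mul 1)) ↔ T.U (X.ts c 1 (one_mul 1)) := by
  subst h
  exact Iff.rfl

theorem ts_z {X : MF (lg a d W hW)} : T.U (X.ts 0 1 (one_mul 1)) ↔ T.U X := by
  obtain ⟨e⟩ := ts_zero X
  exact ⟨T.iso e, T.iso e.symm⟩

/-- the aisle is closed under the twist by `g` -/
def S (g : Gd d) : Prop := ∀ X, T.U X → T.U (X.ts g 1 (one_mul 1))

theorem S_zero : T.S 0 := fun _ h => T.ts_z.2 h

theorem S_add {g h : Gd d} (hg : T.S g) (hh : T.S h) : T.S (g + h) :=
  fun _ hX => (T.ts_congr rfl).1 (hh _ (hg _ hX))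

theorem S_nsmul {g : Gd d} (hg : T.S g) (k : ℕ) : T.S (k • g) := by
  induction k with
  | zero => rw [zero_smul]; exact T.S_zero
  | succ k ih => rw [succ_nsmul]; exact T.S_add ih hg

theorem U_shift {X : MF (lg a d W hW)} (h : T.U X) : T.U (X⟦(1 : ℤ)⟧) := by
  obtain ⟨e⟩ := shift_iso X
  exact T.iso e.symm (T.m0 X h)

theorem Ro_iso {X Y : MF (lg a d W hW)} (e : X ≅ Y) (h : Ro T.U X) : Ro T.U Y :=
  fun A hA f => hz_iso ⟨Iso.refl A⟩ ⟨e.symm⟩ (h A hA) f

theorem Ro_congr {X : MF (lg a d W hW)} {a b c : Gd d} (h : a + b = c) :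
    Ro T.U ((X.ts a 1 (one_mul 1)).ts b 1 (one_mul 1)) ↔ Ro T.U (X.ts c 1 (one_mul 1)) := by
  obtain ⟨e⟩ := ts_iso X h
  exact ⟨T.Ro_iso e, T.Ro_iso e.symm⟩

/-- if the aisle is closed under the twist by `-g`, then the coaisle is closed under the twist
by `g` -/
theorem Ro_ts {g : Gd d} (hg : T.S (-g)) {X : MF (lg a d W hW)} (h : Ro T.U X) :
    Ro T.U (X.ts g 1 (one_mul 1)) := by
  intro Y hY f
  have h1 : ∀ f : Y.ts (-g) 1 (one_mul 1) ⟶ X, f = 0 := h _ (hg _ hY)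
  obtain ⟨e1⟩ := ts_iso X (add_neg_cancel g)
  obtain ⟨e2⟩ := ts_zero X
  have h2 : ∀ f : Y.ts (-g) 1 (one_mul 1) ⟶ (X.ts g 1 (one_mul 1)).ts (-g) 1 (one_mul 1), f = 0 :=
    hz_iso ⟨Iso.refl _⟩ ⟨e1 ≪≫ e2⟩ h1
  exact hz_of_ts (L := lg a d W hW) (X := Y) (Y := X.ts g 1 (one_mul 1)) (g := -g) h2 f

theorem U_ext (Δ : Triangle (MF (lg a d W hW))) (hT : Δ ∈ distTriang (MF (lg a d W hW)))
    (h₁ : T.U Δ.obj₁) (h₃ : T.U Δ.obj₃) : T.U Δ.obj₂ := by
  obtain ⟨A, B, f, g, k, hT', hA, hB⟩ := T.tr Δ.obj₂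
  have h2 : g = 0 := by
    obtain ⟨l, rfl⟩ := Δ.yoneda_exact₂ hT g (hB _ h₁ _)
    rw [hB _ h₃ l, comp_zero]
  have h3 : IsZero B := by
    rw [IsZero.iff_id_eq_zero]
    obtain ⟨l, hl⟩ := Triangle.yoneda_exact₃ _ hT' (𝟙 B) (by
      show g ≫ 𝟙 B = 0
      rw [h2, zero_comp])
    rw [hl, hB _ (T.U_shift hA) l]
    exact comp_zero
  have h5 : IsIso f := (Triangle.distinguished_iff_of_isZero₃ _ h3).1 hT'
  exact T.iso (asIso f) hA

theorem U_third (Δ : Triangle (MF (lg a d W hW))) (hT : Δ ∈ distTriang (MF (lg a d W hW)))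
    (h₂ : T.U Δ.obj₂) (h₁ : T.U (Δ.obj₁⟦(1 : ℤ)⟧)) : T.U Δ.obj₃ :=
  T.U_ext Δ.rotate (rot_of_distTriang Δ hT) h₂ h₁

theorem Ph_ts {s t : ℝ} {X : MF (lg a d W hW)} {g : Gd d}
    (h : Ph s t (ZG (X.ts g 1 (one_mul 1)))) :
    Ph (s - ((th d g : ℤ) / d : ℝ)) (t - ((th d g : ℤ) / d : ℝ)) (ZG X) := by
  rw [ZG_ts'] at h
  have e : gam d g = Complex.exp (Complex.I * Real.pi * (((th d g : ℤ) / d : ℝ) : ℂ)) := by
    unfold gam th
    congr 1
    push_cast
    ring
  rw [e] at h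
  exact h.rot

/-- the key step: the aisle is closed under the twists by `sig - j tau` for `2 j ≤ d` -/
theorem S_key (hd : 0 < d) (j : ℕ) (hj : 2 * j ≤ d) : T.S (sig d - j • tau d) := by
  induction j with
  | zero => rw [zero_smul, sub_zero]; exact T.m0
  | succ j ih =>
    have ih := ih (by omega)
    intro X hX
    obtain ⟨A, B, f, g, k, hT, hA, hB⟩ := T.tr (X.ts (sig d - (j + 1) • tau d) 1 (one_mul 1))
    by_cases h0 : IsZero B
    · have h5 : IsIso f := (Triangle.distinguished_iff_of_isZero₃ _ h0).1 hT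
      exact T.iso (asIso f) hA
    · exfalso
      have hd' : (0 : ℝ) < d := Nat.cast_pos.2 hd
      have hz : ∀ g : Gd d, ¬ IsZero (B.ts g 1 (one_mul 1)) := by
        intro g h
        have h4 := ts_isZero (-g) _ h
        obtain ⟨e1⟩ := ts_iso B (add_neg_cancel g)
        obtain ⟨e2⟩ := ts_zero B
        exact h0 (h4.of_iso (e1 ≪≫ e2).symm)
      -- `B(1)` is in the slice
      have h1 : T.U (B.ts (tau d) 1 (one_mul 1)) := by
        obtain ⟨f', g', k', hT'⟩ := ts_dist (tau d) _ hT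
        refine T.U_third _ hT' ?_ (T.U_shift (T.m1 _ hA))
        refine (T.ts_congr (c := sig d - j • tau d) ?_).2 (ih _ hX)
        rw [add_smul, one_smul]; abel
      have h2 : Ro T.U ((B.ts (tau d) 1 (one_mul 1)).ts (-tau d) 1 (one_mul 1)) := by
        obtain ⟨e1⟩ := ts_iso B (add_neg_cancel (tau d))
        obtain ⟨e2⟩ := ts_zero B
        exact T.Ro_iso (e1 ≪≫ e2).symm hB
      have h4 := Ph_ts (T.pos _ h1 h2 (hz _))
      -- the second twist is in the slice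
      have h8 : T.U (B.ts ((j + 1) • tau d - sig d) 1 (one_mul 1)) := by
        obtain ⟨f', g', k', hT'⟩ := ts_dist ((j + 1) • tau d - sig d) _ hT
        refine T.U_third _ hT' ?_ ?_
        · refine (T.ts_congr (c := 0) ?_).2 (T.ts_z.2 hX)
          abel
        · have h9 := T.S_nsmul T.m1 (j + 1) _ hA
          obtain ⟨e⟩ := shift_iso (A.ts ((j + 1) • tau d - sig d) 1 (one_mul 1))
          exact T.iso e.symm ((T.ts_congr (by abel)).2 h9)
      have h10 : Ro T.U ((B.ts ((j + 1) • tau d - sig d) 1 (one_mul 1)).ts (-tau d) 1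
          (one_mul 1)) := by
        refine (T.Ro_congr (c := j • tau d - sig d) (by rw [add_smul, one_smul]; abel)).2
          (T.Ro_ts ?_ hB)
        rw [neg_sub]
        exact ih
      have h13 := Ph_ts (T.pos _ h8 h10 (hz _))
      -- the contradiction
      have e2 : ((th d (tau d) : ℤ) : ℝ) = 2 := by simp [th, tau]
      rw [e2] at h4
      have e3 : ((th d ((j + 1) • tau d - sig d) : ℤ) : ℝ) = 2 * (j + 1) - d := by
        simp [th, tau, sig]; ring
      rw [e3] at h13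
      have hj' : (2 * ((j : ℝ) + 1)) / d ≤ 1 := by
        rw [div_le_one hd']
        exact_mod_cast hj
      have e4 : 0 - (2 * ((j : ℝ) + 1) - d) / d = 1 - 2 * ((j : ℝ) + 1) / d := by
        field_simp; ring
      have e5 : 2 / (d : ℝ) - (2 * ((j : ℝ) + 1) - d) / d = 1 - 2 * (j : ℝ) / d := by
        field_simp; ring
      rw [e4, e5] at h13
      have h14 : (0 : ℝ) ≤ 2 * (j : ℝ) / d := by positivity
      have h15 : (2 : ℝ) / d ≤ (2 * ((j : ℝ) + 1)) / d := by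
        refine div_le_div_of_nonneg_right ?_ hd'.le
        have : (0 : ℝ) ≤ j := Nat.cast_nonneg j
        linarith
      exact h4.false h13 (by linarith) (by linarith)

end TS

end Pool.Agent.Helper445_GMF
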