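import Pool.Agent.Helper445_GMF.TS2

/-!
The mass bound for t-structures.
-/

set_option autoImplicit false
set_option linter.unusedSectionVars false

open CategoryTheory Matrix Pretriangulated Triangulated Limits MvPolynomial ZeroObject

namespace Pool.Agent.Helper445_GMF

namespace Coa

universe v u

variable {C : Type u} [Category.{v} C] [Preadditive C] [HasZeroObject C] [HasShift C ℤ]
  [∀ n : ℤ, (shiftFunctor C n).Additive] [Pretriangulated C] [IsTriangulated C]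
  {D : ℕ} (σ : Coa C D) (hD : 2 ≤ D)

include hD

theorem M_pos {X : C} (h0 : ¬ IsZero X) : 0 < σ.M X := by
  obtain ⟨a, ha⟩ := σ.up X
  obtain ⟨b, hb⟩ := σ.dn X
  have h1 : ∀ z : ℤ, σ.V z X → a ≤ z := by
    intro z hz
    by_contra hc
    exact h0 (σ.isZero (by omega : z ≤ a) ha hz)
  obtain ⟨c, hc, hc'⟩ := Int.exists_least_of_bdd (P := fun z => σ.V z X) ⟨a, h1⟩ ⟨b, hb⟩
  obtain ⟨A, B, f, g, k, hT, hA, hB⟩ := σ.tr (c - 1) X
  have hA0 : ¬ IsZero A := by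
    intro h
    have hiso : IsIso g := (Triangle.distinguished_iff_of_isZero₁ _ h).1 hT
    have h2 := hc' (c - 1) (σ.V_iso (asIso g).symm hB)
    omega
  have hA1 : σ.V c A := σ.V_first _ hT hc (σ.V_mono (by omega) (σ.V_shiftn' hB))
  have hS : σ.Sl (c - 1) A := ⟨hA, by rw [sub_add_cancel]; exact hA1⟩
  have h3 := (σ.sec hD hS hA0).1
  have h4 : σ.F (c - 1) X = PreStab.im (((c - 1 : ℤ) : ℝ) / D) (σ.Z A) := by
    rw [F, σ.tz_eq (f := f) (g := g) (h := k) ⟨hT, hA, hB⟩]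
  have h5 : σ.F (c - 1 + D) X = 0 := σ.F_V (σ.V_mono (by omega) hc)
  have h6 : 0 < σ.H (c - 1) X := by
    rw [H, h5, add_zero, h4]
    exact h3
  have h7 : σ.H (c - 1) X ≤ σ.M X := by
    unfold M
    have h8 := σ.M_fin (by omega) X
    rw [finsum_eq_sum_of_support_subset _ (s := h8.toFinset) (by simp)]
    refine Finset.single_le_sum (f := fun m => σ.H m X) (fun m _ => σ.H_nonneg (by omega) m X) ?_
    rw [Set.Finite.mem_toFinset, Function.mem_support]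
    exact h6.ne'
  linarith

theorem M_le {m : ℤ} {E : C} (hE : σ.Sl m E) : σ.M E ≤ D * ‖σ.Z E‖ := by
  have h1 := σ.M_supp (by omega) hE.1 hE.2
  unfold M
  have h2 : (Function.support fun j : ℤ => σ.H j E) ⊆ ↑(Finset.Ioo (m - D) (m + 1)) := by
    rw [Finset.coe_Ioo]; exact h1
  rw [finsum_eq_sum_of_support_subset _ h2]
  have h3 : ∀ j ∈ Finset.Ioo (m - (D : ℤ)) (m + 1), σ.H j E ≤ ‖σ.Z E‖ := by
    intro j hj
    rw [Finset.mem_Ioo] at hj
    have hF : σ.F (j + D) E = 0 := σ.F_V (σ.V_mono (by omega) hE.2)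
    rw [H, hF, add_zero, σ.F_U (σ.anti (by omega) hE.1)]
    exact im_le' _ _
  refine (Finset.sum_le_card_nsmul _ _ _ h3).trans (le_of_eq ?_)
  rw [nsmul_eq_mul, Int.card_Ioo]
  congr 1
  have : (m + 1 - (m - (D : ℤ)) - 1).toNat = D := by omega
  rw [this]

end Coa

variable {n : ℕ} {a : Fin n → ℕ} {d : ℕ} {W : MvPolynomial (Fin n) ℂ}
  {hW : IsWeightedHomogeneous a W d}

/-- the values of the central charge on objects of bounded rank are finite in number -/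
theorem ZG_fin (ha : ∀ i, 0 < a i) (hd : 0 < d) (N : ℕ) :
    {z : ℂ | ∃ E : MF (lg a d W hW), rk E ≤ N ∧ ZG E = z}.Finite := by
  have hd' : (d : ℂ) ≠ 0 := Nat.cast_ne_zero.2 hd.ne'
  let G : Set ℂ := Set.range fun k : Fin (2 * d) => Complex.exp (Real.pi * Complex.I * (k : ℂ) / d)
  have hG : G.Finite := Set.finite_range _
  have hmem : ∀ g : Gd d, gam d g ∈ G := by
    intro g
    have h1 : 0 ≤ g.1.1 % (2 * d : ℤ) := Int.emod_nonneg _ (by omega)
    have h2 : g.1.1 % (2 * d : ℤ) < 2 * d := Int.emod_lt_of_pos _ (by omega)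
    refine ⟨⟨(g.1.1 % (2 * d : ℤ)).toNat, by omega⟩, ?_⟩
    have h3 : (((g.1.1 % (2 * d : ℤ)).toNat : ℕ) : ℂ) = ((g.1.1 % (2 * d : ℤ) : ℤ) : ℂ) := by
      rw [← Int.cast_natCast, Int.toNat_of_nonneg h1]
    show Complex.exp (Real.pi * Complex.I * (((g.1.1 % (2 * d : ℤ)).toNat : ℕ) : ℂ) / d) = gam d g
    rw [h3]
    unfold gam
    have h4 : ((g.1.1 : ℤ) : ℂ) = ((g.1.1 % (2 * d : ℤ) : ℤ) : ℂ) +
        2 * d * ((g.1.1 / (2 * d : ℤ) : ℤ) : ℂ) := by
      have := Int.emod_add_mul_ediv g.1.1 (2 * d : ℤ)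
      have h5 := congrArg (fun x : ℤ => (x : ℂ)) this
      push_cast at h5
      exact h5.symm
    rw [h4]
    have h5 : Real.pi * Complex.I * (((g.1.1 % (2 * d : ℤ) : ℤ) : ℂ) +
        2 * d * ((g.1.1 / (2 * d : ℤ) : ℤ) : ℂ)) / d =
        Real.pi * Complex.I * ((g.1.1 % (2 * d : ℤ) : ℤ) : ℂ) / d +
          ((g.1.1 / (2 * d : ℤ) : ℤ) : ℂ) * (2 * Real.pi * Complex.I) := by
      field_simp
    rw [h5, Complex.exp_add, Complex.exp_int_mul_two_pi_mul_I, mul_one]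
  have : Finite G := hG.to_subtype
  have hfin : (⋃ r ∈ Finset.range (N + 1), Set.range fun f : Fin r → G =>
      ∑ j, ((f j : G) : ℂ)).Finite := by
    refine Set.Finite.biUnion (Finset.finite_toSet _) fun r _ => Set.finite_range _
  refine hfin.subset ?_
  rintro z ⟨E, hE, rfl⟩
  obtain ⟨Y, ⟨e⟩, hY, _⟩ := rk_spec (aug ha hd hW) E
  rw [Set.mem_iUnion₂]
  refine ⟨rk E, Finset.mem_range.2 (by omega), ?_⟩
  have eI : Fin (rk E) ≃ Y.I := (Fintype.equivFinOfCardEq hY).symm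
  refine ⟨fun j => ⟨gam d (Y.g (eI j)), hmem _⟩, ?_⟩
  rw [ZG_iso ha hd e]
  exact Equiv.sum_comp eI (fun i => gam d (Y.g i))

namespace TS

variable (T : TS hW) (ha : ∀ i, 0 < a i) (hd : 0 < d) {D q p : ℕ} {η : Gd d} (hη : th d η = q)
  (hq : 0 < q) (hqD : q * D = d) (hqp : q * p = 2) (hD : 2 ≤ D)
  (hdiv : ∀ g : Gd d, (q : ℤ) ∣ th d g)

theorem coa_U (g : Gd d) (k : ℤ) (hk : th d g = q * k) {m : ℤ} {X : MF (lg a d W hW)}
    (h : (T.coa ha hd D q p η hη hq hqD hqp hD).U (m - k) X) :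
    (T.coa ha hd D q p η hη hq hqD hqp hD).U m (X.ts g 1 (one_mul 1)) := by
  refine (T.ts_congr rfl).2 (T.mono' hd ?_ h)
  rw [th_add, th_neg, th_neg, th_zsmul, th_zsmul, hη, hk]
  linarith

theorem coa_V (g : Gd d) (k : ℤ) (hk : th d g = q * k) {m : ℤ} {X : MF (lg a d W hW)}
    (h : (T.coa ha hd D q p η hη hq hqD hqp hD).V (m - k) X) :
    (T.coa ha hd D q p η hη hq hqD hqp hD).V m (X.ts g 1 (one_mul 1)) := by
  intro Y hY f
  have h1 : (T.coa ha hd D q p η hη hq hqD hqp hD).U (m - k) (Y.ts (-g) 1 (one_mul 1)) := by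
    refine T.coa_U ha hd hη hq hqD hqp hD (-g) (-k) (by rw [th_neg, hk]; ring) ?_
    rw [sub_neg_eq_add, sub_add_cancel]
    exact hY
  have h2 : ∀ f : Y.ts (-g) 1 (one_mul 1) ⟶ (X.ts g 1 (one_mul 1)).ts (-g) 1 (one_mul 1), f = 0 :=
    hz_iso ⟨Iso.refl _⟩ (ts_ts_iso X g) (h _ h1)
  exact hz_of_ts (L := lg a d W hW) (X := Y) (Y := X.ts g 1 (one_mul 1)) (g := -g) h2 f

include hq hqD in
theorem gam_exp (g : Gd d) (k : ℤ) (hk : th d g = q * k) :
    gam d g = Complex.exp (Complex.I * Real.pi * ((k / D : ℝ) : ℂ)) := by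
  unfold gam
  congr 1
  have h1 : (g.1.1 : ℂ) = q * k := by
    have h2 : g.1.1 = q * k := hk
    rw [h2]; push_cast; ring
  have h3 : (d : ℂ) = q * D := by exact_mod_cast hqD.symm
  have hq' : (q : ℂ) ≠ 0 := by exact_mod_cast hq.ne'
  rw [h1, h3]
  have h4 : (Real.pi : ℂ) * Complex.I * ((q : ℂ) * k) / (q * D) =
      Real.pi * Complex.I * (((q : ℂ) * k) / (q * D)) := by ring
  rw [h4, mul_div_mul_left _ _ hq']
  push_cast
  ring

theorem coa_F (g : Gd d) (k : ℤ) (hk : th d g = q * k) (m : ℤ) (X : MF (lg a d W hW)) :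
    (T.coa ha hd D q p η hη hq hqD hqp hD).F m (X.ts g 1 (one_mul 1)) =
      (T.coa ha hd D q p η hη hq hqD hqp hD).F (m - k) X := by
  obtain ⟨A, B, f, g', h, hT, hA, hB⟩ := (T.coa ha hd D q p η hη hq hqD hqp hD).tr (m - k) X
  obtain ⟨f1, g1, h1, hT1⟩ := ts_dist g _ hT
  unfold Coa.F
  have e1 : (T.coa ha hd D q p η hη hq hqD hqp hD).tz m (X.ts g 1 (one_mul 1)) =
      (T.coa ha hd D q p η hη hq hqD hqp hD).Z (A.ts g 1 (one_mul 1)) :=
    (T.coa ha hd D q p η hη hq hqD hqp hD).tz_eq (m := m) (f := f1) (g := g1) (h := h1)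
      ⟨hT1, T.coa_U ha hd hη hq hqD hqp hD g k hk hA, T.coa_V ha hd hη hq hqD hqp hD g k hk hB⟩
  have e2 : (T.coa ha hd D q p η hη hq hqD hqp hD).tz (m - k) X = (T.coa ha hd D q p η hη hq hqD hqp hD).Z A :=
    (T.coa ha hd D q p η hη hq hqD hqp hD).tz_eq (m := m - k) (f := f) (g := g') (h := h) ⟨hT, hA, hB⟩
  rw [e1, e2]
  show PreStab.im (m / D) (ZG (A.ts g 1 (one_mul 1))) = PreStab.im (((m - k : ℤ) : ℝ) / D) (ZG A)
  rw [ZG_ts', gam_exp hq hqD g k hk, PreStab.im_rot]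
  congr 1
  push_cast
  ring

include hdiv in
theorem coa_MFun : MFun (T.coa ha hd D q p η hη hq hqD hqp hD).M where
  iso e := (T.coa ha hd D q p η hη hq hqD hqp hD).M_iso e
  sub Δ hΔ := (T.coa ha hd D q p η hη hq hqD hqp hD).M_sub (by omega) Δ hΔ
  shift X := (T.coa ha hd D q p η hη hq hqD hqp hD).M_shift (by omega) X
  tw g X := by
    obtain ⟨k, hk⟩ := hdiv g
    exact (T.coa ha hd D q p η hη hq hqD hqp hD).M_rot k fun m => T.coa_F ha hd hη hq hqD hqp hD g k hk m X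
  biprod X Y := (T.coa ha hd D q p η hη hq hqD hqp hD).M_biprod (by omega) X Y
  zero X h := (T.coa ha hd D q p η hη hq hqD hqp hD).M_zero (by omega) h

include hdiv in
theorem coa_fin (had : ∀ i, a i < d) : (T.coa ha hd D q p η hη hq hqD hqp hD).Fin' := by
  set σ := T.coa ha hd D q p η hη hq hqD hqp hD with hσ
  have hM := T.coa_MFun ha hd hη hq hqD hqp hD hdiv
  rw [← hσ] at hM
  have hK := σ.M_pos hD (MFun.KS_ne (hW := hW) ha hd had)
  intro m R
  obtain ⟨N, hN⟩ := exists_nat_ge (2 ^ n * (D * R) / σ.M (MFun.KS hd hW))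
  refine (ZG_fin (hW := hW) ha hd N).subset ?_
  rintro z ⟨E, hE, _, rfl, hR⟩
  refine ⟨E, ?_, rfl⟩
  have h1 := hM.mass_le ha hd E
  have h2 := σ.M_le hD hE
  have h3 : (0 : ℝ) < 2 ^ n := by positivity
  have h4 : (rk E : ℝ) ≤ N := by
    refine le_trans ?_ hN
    rw [le_div_iff₀ hK]
    calc (rk E : ℝ) * σ.M (MFun.KS hd hW) ≤ 2 ^ n * σ.M E := h1
      _ ≤ 2 ^ n * (D * ‖σ.Z E‖) := mul_le_mul_of_nonneg_left h2 h3.le
      _ ≤ 2 ^ n * (D * R) := by
        refine mul_le_mul_of_nonneg_left ?_ h3.le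
        exact mul_le_mul_of_nonneg_left hR (Nat.cast_nonneg D)
  exact_mod_cast h4

end TS

end Pool.Agent.Helper445_GMF
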