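import Pool.Agent.Helper445_GMF.Trunc

/-!
Words in a simple-minded collection.
-/

set_option autoImplicit false
set_option linter.unusedSectionVars false

open CategoryTheory Pretriangulated Triangulated Limits ZeroObject

namespace Pool.Agent.Helper445_GMF

universe v u

variable {C : Type u} [Category.{v} C] [Preadditive C] [HasZeroObject C] [HasShift C ℤ]
  [∀ n : ℤ, (shiftFunctor C n).Additive] [Pretriangulated C] [IsTriangulated C]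

theorem rot3_aux {X Y Z : C} {p : X ⟶ Y} {q : Y ⟶ Z} {r : Z ⟶ X⟦(1 : ℤ)⟧}
    (hd : Triangle.mk p q r ∈ distTriang C) :
    Triangle.mk (-p⟦(1 : ℤ)⟧') (-q⟦(1 : ℤ)⟧') (-r⟦(1 : ℤ)⟧') ∈ distTriang C :=
  rot_of_distTriang _ (rot_of_distTriang _ (rot_of_distTriang _ hd))

theorem cone_sh {X Y A : C} {m₁ : X⟦(1 : ℤ)⟧ ⟶ Y⟦(1 : ℤ)⟧} {m₃ : Y⟦(1 : ℤ)⟧ ⟶ A⟦(1 : ℤ)⟧}
    {m : A⟦(1 : ℤ)⟧ ⟶ X⟦(1 : ℤ)⟧⟦(1 : ℤ)⟧} (H : Triangle.mk m₁ m₃ m ∈ distTriang C)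
    (p : X ⟶ Y) (hp : p⟦(1 : ℤ)⟧' = m₁) :
    ∃ (q : Y ⟶ A) (r : A ⟶ X⟦(1 : ℤ)⟧), Triangle.mk p q r ∈ distTriang C := by
  obtain ⟨Z', q', r', hd⟩ := distinguished_cocone_triangle p
  have hd1 := rot3_aux hd
  let ne : Y⟦(1 : ℤ)⟧ ≅ Y⟦(1 : ℤ)⟧ := ⟨-𝟙 _, -𝟙 _, by simp, by simp⟩
  let e1 : Arrow.mk (Triangle.mk (-p⟦(1 : ℤ)⟧') (-q'⟦(1 : ℤ)⟧') (-r'⟦(1 : ℤ)⟧')).mor₁ ≅
      Arrow.mk (Triangle.mk m₁ m₃ m).mor₁ :=
    Arrow.isoMk (Iso.refl _) ne (by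
      show 𝟙 _ ≫ m₁ = (-(shiftFunctor C (1 : ℤ)).map p) ≫ (-𝟙 _)
      rw [← hp]
      simp)
  obtain ⟨e2, _⟩ := exists_iso_of_arrow_iso _ _ hd1 H e1
  let e3 : Z'⟦(1 : ℤ)⟧ ≅ A⟦(1 : ℤ)⟧ := Triangle.π₃.mapIso e2
  let e4 : Z' ≅ A := (shiftFunctor C (1 : ℤ)).preimageIso e3
  refine ⟨q' ≫ e4.hom, e4.inv ≫ r', ?_⟩
  refine isomorphic_distinguished _ hd _
    (Triangle.isoMk _ _ (Iso.refl _) (Iso.refl _) e4.symm ?_ ?_ ?_)
  · show p ≫ 𝟙 Y = 𝟙 X ≫ p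
    simp
  · show (q' ≫ e4.hom) ≫ e4.inv = 𝟙 Y ≫ q'
    simp
  · show (e4.inv ≫ r') ≫ (𝟙 X)⟦(1 : ℤ)⟧' = e4.inv ≫ r'
    simp

/-- two arrows with isomorphic cones after a shift -/
theorem oct_co {X Y V A B Y' : C} {a : X ⟶ Y} {u : Y ⟶ V} {b : V ⟶ X⟦(1 : ℤ)⟧}
    (H₁ : Triangle.mk a u b ∈ distTriang C) {c : A ⟶ V} {v : V ⟶ B} {e : B ⟶ A⟦(1 : ℤ)⟧}
    (H₂ : Triangle.mk c v e ∈ distTriang C) {f : Y' ⟶ Y} {g : Y ⟶ B} {h : B ⟶ Y'⟦(1 : ℤ)⟧}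
    (H₃ : Triangle.mk f g h ∈ distTriang C) (comm : u ≫ v = g) :
    ∃ (p : X ⟶ Y') (q : Y' ⟶ A) (r : A ⟶ X⟦(1 : ℤ)⟧),
      Triangle.mk p q r ∈ distTriang C ∧ p ≫ f = a := by
  have R₁ : Triangle.mk u b (-a⟦(1 : ℤ)⟧') ∈ distTriang C := rot_of_distTriang _ H₁
  have R₂ : Triangle.mk v e (-c⟦(1 : ℤ)⟧') ∈ distTriang C := rot_of_distTriang _ H₂
  have R₃ : Triangle.mk g h (-f⟦(1 : ℤ)⟧') ∈ distTriang C := rot_of_distTriang _ H₃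
  obtain ⟨m₁, m₃, -, hc, -, -, hm⟩ := someOctahedron comm R₁ R₂ R₃
  obtain ⟨p, hp⟩ := (shiftFunctor C (1 : ℤ)).map_surjective m₁
  obtain ⟨q, r, hd⟩ := cone_sh hm p hp
  refine ⟨p, q, r, hd, ?_⟩
  apply (shiftFunctor C (1 : ℤ)).map_injective
  rw [← hp, Preadditive.comp_neg, neg_inj] at hc
  rw [Functor.map_comp, hc]

/-- associativity of extensions -/
theorem assocL {X Y V A B : C} {a : X ⟶ Y} {u : Y ⟶ V} {b : V ⟶ X⟦(1 : ℤ)⟧}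
    (H₁ : Triangle.mk a u b ∈ distTriang C) {c : A ⟶ V} {v : V ⟶ B} {e : B ⟶ A⟦(1 : ℤ)⟧}
    (H₂ : Triangle.mk c v e ∈ distTriang C) :
    ∃ (Y' : C) (f : Y' ⟶ Y) (h : B ⟶ Y'⟦(1 : ℤ)⟧) (p : X ⟶ Y') (q : Y' ⟶ A)
      (r : A ⟶ X⟦(1 : ℤ)⟧), Triangle.mk f (u ≫ v) h ∈ distTriang C ∧
      Triangle.mk p q r ∈ distTriang C ∧ p ≫ f = a := by
  obtain ⟨Y', f, h, H₃⟩ := distinguished_cocone_triangle₁ (u ≫ v)
  obtain ⟨p, q, r, h1, h2⟩ := oct_co H₁ H₂ H₃ rfl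
  exact ⟨Y', f, h, p, q, r, H₃, h1, h2⟩

/-- associativity of extensions -/
theorem assocR {A' A A'' X B : C} {f₁ : A' ⟶ A} {g₁ : A ⟶ A''} {h₁ : A'' ⟶ A'⟦(1 : ℤ)⟧}
    (H₁ : Triangle.mk f₁ g₁ h₁ ∈ distTriang C) {f₂ : A ⟶ X} {g₂ : X ⟶ B} {h₂ : B ⟶ A⟦(1 : ℤ)⟧}
    (H₂ : Triangle.mk f₂ g₂ h₂ ∈ distTriang C) :
    ∃ (V : C) (g : X ⟶ V) (h : V ⟶ A'⟦(1 : ℤ)⟧) (m₁ : A'' ⟶ V) (m₃ : V ⟶ B),
      Triangle.mk (f₁ ≫ f₂) g h ∈ distTriang C ∧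
      Triangle.mk m₁ m₃ (h₂ ≫ g₁⟦(1 : ℤ)⟧') ∈ distTriang C ∧ g ≫ m₃ = g₂ := by
  obtain ⟨V, g, h, H₃⟩ := distinguished_cocone_triangle (f₁ ≫ f₂)
  obtain ⟨m₁, m₃, -, -, h3, -, hm⟩ := someOctahedron rfl H₁ H₂ H₃
  exact ⟨V, g, h, m₁, m₃, H₃, hm, h3⟩

/-- a triangle with an isomorphic third object -/
theorem dist_third {X Y V V' : C} {f : X ⟶ Y} {g : Y ⟶ V} {h : V ⟶ X⟦(1 : ℤ)⟧}
    (hT : Triangle.mk f g h ∈ distTriang C) (e : V ≅ V') :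
    Triangle.mk f (g ≫ e.hom) (e.inv ≫ h) ∈ distTriang C :=
  isomorphic_distinguished _ hT _
    (Triangle.isoMk _ _ (Iso.refl _) (Iso.refl _) e.symm
      (by show f ≫ 𝟙 Y = 𝟙 X ≫ f; simp)
      (by show (g ≫ e.hom) ≫ e.inv = 𝟙 Y ≫ g; simp)
      (by show (e.inv ≫ h) ≫ (𝟙 X)⟦(1 : ℤ)⟧' = e.inv ≫ h; simp))

/-- a triangle with an isomorphic first object -/
theorem dist_first {X X' Y V : C} {f : X ⟶ Y} {g : Y ⟶ V} {h : V ⟶ X⟦(1 : ℤ)⟧}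
    (hT : Triangle.mk f g h ∈ distTriang C) (e : X ≅ X') :
    Triangle.mk (e.inv ≫ f) g (h ≫ e.hom⟦(1 : ℤ)⟧') ∈ distTriang C :=
  isomorphic_distinguished _ hT _
    (Triangle.isoMk _ _ e.symm (Iso.refl _) (Iso.refl _)
      (by show (e.inv ≫ f) ≫ 𝟙 Y = e.inv ≫ f; simp)
      (by show g ≫ 𝟙 V = 𝟙 Y ≫ g; simp)
      (by
        show (h ≫ (shiftFunctor C (1 : ℤ)).map e.hom) ≫ (shiftFunctor C (1 : ℤ)).map e.inv =
          𝟙 V ≫ h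
        rw [Category.assoc, ← Functor.map_comp]
        simp))

theorem ex_y2 {X Y V : C} {f : X ⟶ Y} {g : Y ⟶ V} {h : V ⟶ X⟦(1 : ℤ)⟧}
    (H : Triangle.mk f g h ∈ distTriang C) {Z : C} (φ : Y ⟶ Z) (h0 : f ≫ φ = 0) :
    ∃ c : V ⟶ Z, φ = g ≫ c := Triangle.yoneda_exact₂ _ H φ h0

theorem ex_y3 {X Y V : C} {f : X ⟶ Y} {g : Y ⟶ V} {h : V ⟶ X⟦(1 : ℤ)⟧}
    (H : Triangle.mk f g h ∈ distTriang C) {Z : C} (φ : V ⟶ Z) (h0 : g ≫ φ = 0) :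
    ∃ c : X⟦(1 : ℤ)⟧ ⟶ Z, φ = h ≫ c := Triangle.yoneda_exact₃ _ H φ h0

theorem ex_c2 {X Y V : C} {f : X ⟶ Y} {g : Y ⟶ V} {h : V ⟶ X⟦(1 : ℤ)⟧}
    (H : Triangle.mk f g h ∈ distTriang C) {Z : C} (φ : Z ⟶ Y) (h0 : φ ≫ g = 0) :
    ∃ c : Z ⟶ X, φ = c ≫ f := Triangle.coyoneda_exact₂ _ H φ h0

theorem ex_c3 {X Y V : C} {f : X ⟶ Y} {g : Y ⟶ V} {h : V ⟶ X⟦(1 : ℤ)⟧}
    (H : Triangle.mk f g h ∈ distTriang C) {Z : C} (φ : Z ⟶ V) (h0 : φ ≫ h = 0) :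
    ∃ c : Z ⟶ Y, φ = c ≫ g := Triangle.coyoneda_exact₃ _ H φ h0

theorem cocone_iso {A Y S S' Y' : C} {f' : A ⟶ Y} {g' : Y ⟶ S'} {h' : S' ⟶ A⟦(1 : ℤ)⟧}
    (hT' : Triangle.mk f' g' h' ∈ distTriang C) {f : Y' ⟶ Y} {g : Y ⟶ S}
    {h : S ⟶ Y'⟦(1 : ℤ)⟧} (hT : Triangle.mk f g h ∈ distTriang C) (c : S' ⟶ S) (hc : IsIso c)
    (e : g = g' ≫ c) : Nonempty (A ≅ Y') := by
  obtain ⟨a, ha1, ha2⟩ := complete_distinguished_triangle_morphism₁ _ _ hT' hT (𝟙 Y) c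
    (by show g' ≫ c = 𝟙 Y ≫ g; rw [Category.id_comp, e])
  let φ : Triangle.mk f' g' h' ⟶ Triangle.mk f g h :=
    { hom₁ := a
      hom₂ := 𝟙 Y
      hom₃ := c
      comm₁ := ha1
      comm₂ := by show g' ≫ c = 𝟙 Y ≫ g; rw [Category.id_comp, e]
      comm₃ := ha2 }
  have h1 : IsIso φ.hom₁ := isIso₁_of_isIso₂₃ φ hT' hT
    (show IsIso (𝟙 Y) from inferInstance) hc
  exact ⟨@asIso _ _ _ _ φ.hom₁ h1⟩

/-- a simple-minded collection `S i k = S i [k]` -/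
structure Smc {ι : Type} (S : ι → ℤ → C) : Prop where
  nz : ∀ i k, ¬ IsZero (S i k)
  sh : ∀ i k, Nonempty ((S i k)⟦(1 : ℤ)⟧ ≅ S i (k + 1))
  hom : ∀ i j k l, l < k → ∀ f : S i k ⟶ S j l, f = 0
  hom0 : ∀ i j k, ∀ f : S i k ⟶ S j k, f = 0 ∨ IsIso f

/-- sorted words -/
inductive Srt {ι : Type} (S : ι → ℤ → C) : ℤ → ℕ → C → Prop
  | nil {k : ℤ} {X : C} (h0 : IsZero X) : Srt S k 0 X
  | snoc {k k' : ℤ} {m : ℕ} {A X : C} (i : ι) (f : A ⟶ X) (g : X ⟶ S i k')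
      (h : S i k' ⟶ A⟦(1 : ℤ)⟧) (hT : Triangle.mk f g h ∈ distTriang C) (hk : k ≤ k')
      (hA : Srt S k' m A) : Srt S k (m + 1) X

namespace Srt

variable {ι : Type} {S : ι → ℤ → C}

theorem ofIso {k : ℤ} {m : ℕ} {X Y : C} (h : Srt S k m X) (e : X ≅ Y) : Srt S k m Y := by
  cases h with
  | nil h0 => exact nil (h0.of_iso e.symm)
  | snoc i f g h hT hk hA => exact snoc i _ _ _ (dist_mid hT e) hk hA

theorem mono {j k : ℤ} {m : ℕ} {X : C} (h : Srt S k m X) (hj : j ≤ k) : Srt S j m X := by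
  cases h with
  | nil h0 => exact nil h0
  | snoc i f g h hT hk hA => exact snoc i _ _ _ hT (hj.trans hk) hA

variable (hS : Smc S)

include hS

theorem hom_zero {k : ℤ} {m : ℕ} {X : C} (h : Srt S k m X) : ∀ {j : ℤ}, j < k →
    ∀ (i : ι) (f : X ⟶ S i j), f = 0 := by
  induction h with
  | nil h0 => intro j hj i f; exact h0.eq_of_src _ _
  | snoc i' f' g' h' hT hk hA ih =>
    intro j hj i f
    obtain ⟨l, hl⟩ := Triangle.yoneda_exact₂ _ hT f (ih (hj.trans_le hk) i (f' ≫ f))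
    have : l = 0 := hS.hom _ _ _ _ (hj.trans_le hk) l
    rw [hl, this]
    exact comp_zero

/-- insertion of a letter -/
theorem ins (j : ℤ) (i : ι) : ∀ {k : ℤ} {m : ℕ} {A X : C}, Srt S k m A → ∀ (f : A ⟶ X)
    (g : X ⟶ S i j) (h : S i j ⟶ A⟦(1 : ℤ)⟧), Triangle.mk f g h ∈ distTriang C →
    ∃ m', m' ≤ m + 1 ∧ Srt S (min k j) m' X := by
  intro k m A X hA
  induction hA generalizing X with
  | @nil k A h0 =>
    intro f g h hT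
    exact ⟨1, le_rfl, snoc i f g h hT (min_le_right _ _) (nil h0)⟩
  | @snoc k k' m A' A i' f' g' h' hT' hk hA' ih =>
    intro f g h hT
    rcases le_or_gt j k' with hj | hj
    · have h1 : Srt S k' (m + 1) A := snoc i' f' g' h' hT' le_rfl hA'
      exact ⟨m + 2, le_rfl, snoc i f g h hT (min_le_right _ _) (h1.mono hj)⟩
    · obtain ⟨V, g1, h1, m₁, m₃, H1, H2, -⟩ := assocR hT' hT
      obtain ⟨e⟩ := hS.sh i' k'
      have h2 : (h ≫ g'⟦(1 : ℤ)⟧' = 0) ∨ IsIso (h ≫ g'⟦(1 : ℤ)⟧') := by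
        rcases lt_or_eq_of_le (Int.add_one_le_iff.2 hj) with hj2 | hj2
        · left
          have := hS.hom _ _ _ _ hj2 ((h ≫ g'⟦(1 : ℤ)⟧') ≫ e.hom)
          rw [← cancel_mono e.hom, this, zero_comp]
        · subst hj2
          rcases hS.hom0 i i' _ ((h ≫ g'⟦(1 : ℤ)⟧') ≫ e.hom) with h3 | h3
          · left
            rw [← cancel_mono e.hom, h3, zero_comp]
          · right
            have h4 : h ≫ g'⟦(1 : ℤ)⟧' = ((h ≫ g'⟦(1 : ℤ)⟧') ≫ e.hom) ≫ e.inv := by simp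
            rw [h4]
            infer_instance
      rcases h2 with h2 | h2
      · obtain ⟨eV, -, -⟩ := exists_iso_binaryBiproduct_of_distTriang _ H2 h2
        let eV' : V ≅ (S i j ⊞ S i' k') := eV ≪≫ biprod.braiding _ _
        have H3 := dist_third H1 eV'
        obtain ⟨Y', f2, h2', p, q, r, H4, H5, -⟩ := assocL H3
          (binaryBiproductTriangle_distinguished (S i j) (S i' k'))
        obtain ⟨m', hm', hY'⟩ := ih p q r H5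
        refine ⟨m' + 1, by omega, ?_⟩
        rw [min_eq_left hj.le] at hY'
        exact snoc i' _ _ _ H4 ((min_le_left _ _).trans hk) hY'
      · have h3 : IsZero V := (Triangle.isZero₂_iff_isIso₃ _ H2).2 h2
        have h4 : IsIso (f' ≫ f) := (Triangle.isZero₃_iff_isIso₁ _ H1).1 h3
        exact ⟨m, by omega, (hA'.ofIso (asIso (f' ≫ f))).mono ((min_le_left _ _).trans hk)⟩

theorem sh1 {k : ℤ} {m : ℕ} {X : C} (h : Srt S k m X) : Srt S (k + 1) m (X⟦(1 : ℤ)⟧) := by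
  induction h with
  | nil h0 => exact nil ((shiftFunctor C (1 : ℤ)).map_isZero h0)
  | @snoc k k' m A X i f g h hT hk hA ih =>
    obtain ⟨e⟩ := hS.sh i k'
    exact snoc i _ _ _ (dist_third (rot3_aux hT) e) (by omega) ih

omit hS in
theorem shiftNeg_iso {X Y : C} (e : X⟦(1 : ℤ)⟧ ≅ Y) : Nonempty (Y⟦(-1 : ℤ)⟧ ≅ X) :=
  ⟨(shiftFunctor C (-1 : ℤ)).mapIso e.symm ≪≫ shiftShiftNeg X (1 : ℤ)⟩

theorem shn {k : ℤ} {m : ℕ} {X : C} (h : Srt S k m X) : Srt S (k - 1) m (X⟦(-1 : ℤ)⟧) := by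
  induction h with
  | nil h0 => exact nil ((shiftFunctor C (-1 : ℤ)).map_isZero h0)
  | @snoc k k' m A X i f g h hT hk hA ih =>
    obtain ⟨e⟩ := hS.sh i (k' - 1)
    rw [sub_add_cancel] at e
    obtain ⟨e'⟩ := shiftNeg_iso e
    have h1 := Triangle.shift_distinguished _ hT (-1 : ℤ)
    exact snoc i _ _ _ (dist_third h1 e') (by omega) ih

theorem last_ne {k : ℤ} {m : ℕ} {A X : C} {i : ι} {f : A ⟶ X} {g : X ⟶ S i k}
    {h : S i k ⟶ A⟦(1 : ℤ)⟧} (hT : Triangle.mk f g h ∈ distTriang C) (hA : Srt S k m A) :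
    g ≠ 0 := by
  intro h0
  obtain ⟨l, hl⟩ := Triangle.yoneda_exact₃ _ hT (𝟙 (S i k)) (by
    show g ≫ 𝟙 _ = 0
    rw [h0, zero_comp])
  have h1 : l = 0 := (hA.sh1 hS).hom_zero hS (by omega) i l
  apply hS.nz i k
  rw [IsZero.iff_id_eq_zero, hl, h1]
  exact comp_zero

/-- the cocone of a nonzero morphism to a letter is shorter -/
theorem cut (i : ι) (l : ℤ) : ∀ (m : ℕ) {Y : C}, Srt S l m Y → ∀ (g : Y ⟶ S i l), g ≠ 0 →
    ∀ {Y' : C} (f : Y' ⟶ Y) (h : S i l ⟶ Y'⟦(1 : ℤ)⟧), Triangle.mk f g h ∈ distTriang C →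
    ∃ m' < m, Srt S l m' Y' := by
  intro m
  induction m with
  | zero =>
    intro Y hY g hg
    cases hY with
    | nil h0 => exact absurd (h0.eq_of_src _ _) hg
  | succ m ih =>
    intro Y hY g hg Y' f h hT
    cases hY with
    | @snoc _ k' _ A _ i' f' g' h' hT' hk hA =>
      by_cases h0 : f' ≫ g = 0
      · obtain ⟨c, hc⟩ := ex_y2 hT' g h0
        have hc0 : c ≠ 0 := by
          rintro rfl
          exact hg (by rw [hc, comp_zero])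
        rcases lt_or_eq_of_le hk with hk' | hk'
        · exact absurd (hS.hom _ _ _ _ hk' c) hc0
        · subst hk'
          have hc1 : IsIso c := (hS.hom0 _ _ _ c).resolve_left hc0
          obtain ⟨e⟩ := cocone_iso hT' hT c hc1 hc
          exact ⟨m, by omega, hA.ofIso e⟩
      · obtain ⟨A', x, y, hA'⟩ := distinguished_cocone_triangle₁ (f' ≫ g)
        obtain ⟨m'', hm'', h1⟩ := ih (hA.mono hk) (f' ≫ g) h0 x y hA'
        have R₂ : Triangle.mk g h (-f⟦(1 : ℤ)⟧') ∈ distTriang C := rot_of_distTriang _ hT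
        have R₃ : Triangle.mk (f' ≫ g) y (-x⟦(1 : ℤ)⟧') ∈ distTriang C :=
          rot_of_distTriang _ hA'
        obtain ⟨m₁, m₃, -, -, -, -, hm⟩ := someOctahedron rfl hT' R₂ R₃
        have hm2 := rot_of_distTriang _ hm
        obtain ⟨p, hp⟩ := (shiftFunctor C (1 : ℤ)).map_surjective m₃
        obtain ⟨q, r, hd⟩ := cone_sh hm2 p hp
        obtain ⟨m', hm', h2⟩ := ins hS k' i' h1 p q r hd
        rw [min_eq_left hk] at h2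
        exact ⟨m', by omega, h2⟩

theorem ret_aux {i : ι} {k : ℤ} {m : ℕ} {Y X X' : C}
    (ih : ∀ m' < m, ∀ {k : ℤ} {Y : C}, Srt S k m' Y → ∀ X X' : C, (Y ≅ X ⊞ X') →
      (∃ k m, Srt S k m X) ∧ (∃ k m, Srt S k m X')) (hY : Srt S k m Y) (e : Y ≅ X' ⊞ X)
    (a : X ⟶ S i k) (ha : a ≠ 0) : (∃ k m, Srt S k m X) ∧ (∃ k m, Srt S k m X') := by
  have H₁ := dist_mid (binaryBiproductTriangle_distinguished X' X) e.symm
  obtain ⟨X1, x, y, H₂⟩ := distinguished_cocone_triangle₁ a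
  obtain ⟨Y1, f, h, p, q, r, H₃, H₄, hp⟩ := assocL H₁ H₂
  have h1 : (e.symm.inv ≫ biprod.snd) ≫ a ≠ 0 := by
    intro h0
    apply ha
    have : biprod.inr ≫ e.inv ≫ (e.symm.inv ≫ biprod.snd) ≫ a = a := by simp
    rw [← this, h0]
    simp
  obtain ⟨m', hm', hY1⟩ := cut hS i k m hY _ h1 f h H₃
  have h2 : Mono p := by
    have h3 : p ≫ (f ≫ e.hom ≫ biprod.fst) = 𝟙 X' := by
      rw [← Category.assoc, hp]
      simp
    exact mono_of_mono_fac h3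
  have h3 : r = 0 := (Triangle.mor₃_eq_zero_iff_mono₁ _ H₄).2 h2
  obtain ⟨e1, -, -⟩ := exists_iso_binaryBiproduct_of_distTriang _ H₄ h3
  obtain ⟨h4, k1, m1, h5⟩ := ih m' hm' hY1 X' X1 e1
  obtain ⟨m2, -, h6⟩ := ins hS k i h5 x a y H₂
  exact ⟨⟨_, _, h6⟩, h4⟩

/-- words are closed under direct summands -/
theorem retract : ∀ (m : ℕ) {k : ℤ} {Y : C}, Srt S k m Y → ∀ X X' : C, (Y ≅ X ⊞ X') →
    (∃ k m, Srt S k m X) ∧ (∃ k m, Srt S k m X') := by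
  intro m
  induction m using Nat.strong_induction_on with
  | _ m ih =>
    intro k Y hY X X' e
    cases hY with
    | nil h0 =>
      have h1 : IsZero X := by
        rw [IsZero.iff_id_eq_zero]
        have : 𝟙 X = (biprod.inl ≫ e.inv) ≫ (e.hom ≫ biprod.fst) := by simp
        rw [this, h0.eq_zero_of_tgt (biprod.inl ≫ e.inv), zero_comp]
      have h2 : IsZero X' := by
        rw [IsZero.iff_id_eq_zero]
        have : 𝟙 X' = (biprod.inr ≫ e.inv) ≫ (e.hom ≫ biprod.snd) := by simp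
        rw [this, h0.eq_zero_of_tgt (biprod.inr ≫ e.inv), zero_comp]
      exact ⟨⟨0, 0, nil h1⟩, ⟨0, 0, nil h2⟩⟩
    | @snoc _ k' m A _ i f g h hT hk hA =>
      have hg := last_ne hS hT hA
      have hY' : Srt S k' (m + 1) Y := snoc i f g h hT le_rfl hA
      by_cases h0 : biprod.inl ≫ e.inv ≫ g = 0
      · have h1 : biprod.inr ≫ e.inv ≫ g ≠ 0 := by
          intro h1
          apply hg
          have h2 : e.inv ≫ g = 0 := by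
            apply biprod.hom_ext'
            · rw [h0, comp_zero]
            · rw [h1, comp_zero]
          rw [← cancel_epi e.inv, h2, comp_zero]
        exact (ret_aux hS ih hY' e _ h1).symm
      · exact ret_aux hS ih hY' (e ≪≫ biprod.braiding _ _) _ h0

end Srt

end Pool.Agent.Helper445_GMF
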