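import Pool.Agent.Helper445_GMF.Tot
import Pool.Agent.Helper445_GMF.Sq3
import Pool.Agent.Helper445_GMF.Wrd

/-!
Closed classes of graded matrix factorizations containing the Koszul matrix factorizations.
-/

set_option autoImplicit false
set_option linter.unusedSectionVars false

open CategoryTheory Matrix Pretriangulated Triangulated Limits MvPolynomial ZeroObject

namespace Pool.Agent.Helper445_GMF

theorem ret_comp {C : Type*} [Category C] {A B D : C} (i : A ⟶ B) (q : B ⟶ A) (h : i ≫ q = 𝟙 A)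
    (i' : B ⟶ D) (q' : D ⟶ B) (h' : i' ≫ q' = 𝟙 B) :
    ∃ (j : A ⟶ D) (r : D ⟶ A), j ≫ r = 𝟙 A :=
  ⟨i ≫ i', q' ≫ q, by rw [Category.assoc, ← Category.assoc i', h', Category.id_comp, h]⟩

section general

variable {L : LG}

/-- classes closed under isomorphisms and extensions -/
structure Cls (P : MF L → Prop) : Prop where
  iso : ∀ {X Y : MF L}, (X ≅ Y) → P X → P Y
  zero : ∀ {X : MF L}, IsZero X → P X
  ext : ∀ {X Y V : MF L} {f : X ⟶ Y} {g : Y ⟶ V} {h : V ⟶ X⟦(1 : ℤ)⟧},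
    Triangle.mk f g h ∈ distTriang (MF L) → P X → P V → P Y

variable {P : MF L → Prop} (hP : Cls P)

include hP

theorem Cls.kos_fin {l : List (L.A × L.A × L.G)} (hl : OK L l)
    (hs : (l.map fun p => p.1 * p.2.1).sum = L.W) (m : ℕ) (g : Fin m → L.G)
    (h : ∀ i, P (kos (fun _ : Fin 1 => g i) l hl hs)) : P (kos g l hl hs) := by
  induction m with
  | zero =>
    apply hP.zero
    rw [IsZero.iff_id_eq_zero, ← km_one, ← km_zero]
    exact hm_congr (congrArg (fun F => kE F l) (by ext i; exact i.elim0))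
  | succ m ih =>
    obtain ⟨e1⟩ := kos_re l hl hs g (finSumFinEquiv : Fin m ⊕ Fin 1 ≃ Fin (m + 1))
    have e3 : (fun j => g ((finSumFinEquiv : Fin m ⊕ Fin 1 ≃ Fin (m + 1)) j)) =
        Sum.elim (fun i => g (finSumFinEquiv (Sum.inl i)))
          (fun _ : Fin 1 => g (Fin.last m)) := by
      funext j
      rcases j with j | j
      · rfl
      · rw [Sum.elim_inr]
        congr 1
        ext
        simp
    obtain ⟨e2⟩ := kos_sum l hl hs (fun i => g ((finSumFinEquiv : Fin m ⊕ Fin 1 ≃ Fin (m + 1))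
      (Sum.inl i))) (fun _ : Fin 1 => g (Fin.last m))
    rw [e3] at e1
    refine hP.iso (e1 ≪≫ e2).symm ?_
    exact hP.ext (binaryBiproductTriangle_distinguished _ _) (ih _ fun i => h _) (h _)

theorem Cls.kos {l : List (L.A × L.A × L.G)} (hl : OK L l)
    (hs : (l.map fun p => p.1 * p.2.1).sum = L.W) {I : Type} [Fintype I] [DecidableEq I]
    (g : I → L.G) (h : ∀ i, P (kos (fun _ : Fin 1 => g i) l hl hs)) : P (kos g l hl hs) := by
  obtain ⟨e1⟩ := kos_re l hl hs g (Fintype.equivFin I).symm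
  refine hP.iso e1.symm ?_
  exact hP.kos_fin hl hs _ _ fun i => h _

omit hP in
/-- a direct summand -/
theorem ret_biprod {X Y : MF L} (i : X ⟶ Y) (q : Y ⟶ X) (h : i ≫ q = 𝟙 X) :
    ∃ V : MF L, Nonempty (Y ≅ X ⊞ V) := by
  obtain ⟨V, g, k, hd⟩ := distinguished_cocone_triangle i
  have h1 : Mono i := by
    have : Mono (i ≫ q) := by rw [h]; infer_instance
    exact mono_of_mono i q
  have h2 : k = 0 := (Triangle.mor₃_eq_zero_iff_mono₁ _ hd).2 h1
  obtain ⟨e, -, -⟩ := exists_iso_binaryBiproduct_of_distTriang _ hd h2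
  exact ⟨V, ⟨e⟩⟩

omit hP in
/-- the cone of a twisted multiplication -/
theorem cone_tz (T : MF L) {x : L.A} {b : L.G} (hx : x ∈ L.pc b) (γ γ' : L.G) (h : γ' + b = γ) :
    Nonempty ((cone (X := T.ts (-b) 1 (one_mul 1)) (Y := T) (x • 1) (twist_Z T hx)).ts γ 1
      (one_mul 1) ≅
      cone (X := T.ts γ' 1 (one_mul 1)) (Y := T.ts γ 1 (one_mul 1)) (x • 1) (tz_Z γ hx h)) := by
  subst h
  have hg : ∀ i : T.I ⊕ T.I, Sum.elim T.g ((T.ts (-b) 1 (one_mul 1)).sh 1).g i + (γ' + b) =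
      Sum.elim (T.ts (γ' + b) 1 (one_mul 1)).g ((T.ts γ' 1 (one_mul 1)).sh 1).g i := by
    rintro (i | i)
    · rfl
    · show T.g i + -b + (1 : ℤ) • L.ς + (γ' + b) = T.g i + γ' + (1 : ℤ) • L.ς
      abel
  refine ⟨isoOf' (X := (cone (X := T.ts (-b) 1 (one_mul 1)) (Y := T) (x • 1)
    (twist_Z T hx)).ts (γ' + b) 1 (one_mul 1))
    (Y := cone (X := T.ts γ' 1 (one_mul 1)) (Y := T.ts (γ' + b) 1 (one_mul 1)) (x • 1)
      (tz_Z (γ' + b) hx rfl))
    (1 : Matrix (T.I ⊕ T.I) (T.I ⊕ T.I) L.A) (1 : Matrix (T.I ⊕ T.I) (T.I ⊕ T.I) L.A)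
    ⟨one_Hg_of_eq hg, ?_⟩ ⟨one_Hg_of_eq fun i => (hg i).symm, ?_⟩ (Matrix.one_mul _)
    (Matrix.one_mul _)⟩
  · show (fromBlocks ((1 : ℂ) • T.D) (x • 1) 0 (sgn 1 • ((1 : ℂ) • T.D))) * 1 =
      1 * ((1 : ℂ) • fromBlocks T.D (x • 1) 0 (sgn 1 • ((1 : ℂ) • T.D)))
    simp
  · show ((1 : ℂ) • fromBlocks T.D (x • 1) 0 (sgn 1 • ((1 : ℂ) • T.D))) * 1 =
      1 * (fromBlocks ((1 : ℂ) • T.D) (x • 1) 0 (sgn 1 • ((1 : ℂ) • T.D)))
    simp

/-- powers of a homogeneous element -/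
theorem Cls.cone_pow (htw : ∀ (g : L.G) (X : MF L), P X → P (X.ts g 1 (one_mul 1))) (T : MF L)
    {x : L.A} {b : L.G} (hx : x ∈ L.pc b)
    (h : P (cone (X := T.ts (-b) 1 (one_mul 1)) (Y := T) (x • 1) (twist_Z T hx))) (k : ℕ) :
    ∀ γ γ' : L.G, ∀ hγ : γ' + k • b = γ, ∃ (V : MF L) (g : T.ts γ 1 (one_mul 1) ⟶ V)
      (u : V ⟶ (T.ts γ' 1 (one_mul 1))⟦(1 : ℤ)⟧), Triangle.mk
      (hm (X := T.ts γ' 1 (one_mul 1)) (Y := T.ts γ 1 (one_mul 1)) _ (tz_Z γ (xpow_mem hx k) hγ))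
      g u ∈ distTriang (MF L) ∧ P V := by
  induction k with
  | zero =>
    intro γ γ' hγ
    obtain ⟨V, g, u, hd⟩ := distinguished_cocone_triangle
      (hm (X := T.ts γ' 1 (one_mul 1)) (Y := T.ts γ 1 (one_mul 1)) _ (tz_Z γ (xpow_mem hx 0) hγ))
    refine ⟨V, g, u, hd, hP.zero ?_⟩
    rw [zero_smul, add_zero] at hγ
    subst hγ
    have h1 : hm (X := T.ts γ' 1 (one_mul 1)) (Y := T.ts γ' 1 (one_mul 1)) _
        (tz_Z γ' (xpow_mem hx 0) (by rw [zero_smul, add_zero])) = 𝟙 _ := by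
      rw [hm_id]
      exact hm_congr (by rw [pow_zero, one_smul])
    have h2 : IsIso (hm (X := T.ts γ' 1 (one_mul 1)) (Y := T.ts γ' 1 (one_mul 1)) _
        (tz_Z γ' (xpow_mem hx 0) (by rw [zero_smul, add_zero]))) := by
      rw [h1]; infer_instance
    exact (Triangle.isZero₃_iff_isIso₁ _ hd).2 h2
  | succ k ih =>
    intro γ γ' hγ
    obtain ⟨V, g, u, hd, hV⟩ := ih γ (γ' + b) (by rw [← hγ, succ_nsmul]; abel)
    have hd1 : Triangle.mk (hm (X := T.ts γ' 1 (one_mul 1)) (Y := T.ts (γ' + b) 1 (one_mul 1)) _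
        (tz_Z (γ' + b) hx rfl)) _ _ ∈ distTriang (MF L) :=
      dist_tri (X := T.ts γ' 1 (one_mul 1)) (Y := T.ts (γ' + b) 1 (one_mul 1)) (x • 1)
        (tz_Z (γ' + b) hx rfl)
    obtain ⟨V', g', u', m₁, m₃, H1, H2, -⟩ := assocR hd1 hd
    obtain ⟨e⟩ := cone_tz T hx (γ' + b) γ' rfl
    have e1 : hm (X := T.ts γ' 1 (one_mul 1)) (Y := T.ts (γ' + b) 1 (one_mul 1)) _
        (tz_Z (γ' + b) hx rfl) ≫ hm (X := T.ts (γ' + b) 1 (one_mul 1))
          (Y := T.ts γ 1 (one_mul 1)) _ (tz_Z γ (xpow_mem hx k)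
            (by rw [← hγ, succ_nsmul]; abel)) =
        hm (X := T.ts γ' 1 (one_mul 1)) (Y := T.ts γ 1 (one_mul 1)) _
          (tz_Z γ (xpow_mem hx (k + 1)) hγ) := by
      rw [hm_comp]
      refine hm_congr ?_
      rw [Matrix.smul_mul, Matrix.one_mul, smul_smul, pow_succ]
    rw [e1] at H1
    exact ⟨V', g', u', H1, hP.ext H2 (hP.iso e (htw _ _ h)) hV⟩

theorem Cls.of_cone (hret : ∀ {X Y : MF L} (i : X ⟶ Y) (q : Y ⟶ X), i ≫ q = 𝟙 X → P Y → P X)
    (htw : ∀ (g : L.G) (X : MF L), P X → P (X.ts g 1 (one_mul 1))) (T : MF L)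
    {x : L.A} {b : L.G} (hx : x ∈ L.pc b)
    (h : P (cone (X := T.ts (-b) 1 (one_mul 1)) (Y := T) (x • 1) (twist_Z T hx))) (N' : ℕ)
    (hN : x ^ N' • (1 : Matrix T.I T.I L.A) ∈
      N (T.ts (0 - N' • b) 1 (one_mul 1)) (T.ts 0 1 (one_mul 1))) : P T := by
  obtain ⟨V, g, u, hd, hV⟩ := hP.cone_pow htw T hx h N' 0 (0 - N' • b) (by abel)
  obtain ⟨c, hc⟩ := ex_y2 hd (𝟙 _) (by
    rw [Category.comp_id]
    exact hm_eq_zero_iff.2 hN)
  obtain ⟨e⟩ := ts_zero T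
  exact hP.iso e (hret g c hc.symm hV)

end general

variable {n : ℕ} {a : Fin n → ℕ} {d : ℕ} {W : MvPolynomial (Fin n) ℂ}
  {hd : 0 < d} {hW : IsWeightedHomogeneous a W d} (ha : ∀ i, 0 < a i) (had : ∀ i, a i ≠ d)
  {P : MF (lg a d W hW) → Prop} (hP : Cls P)

include hP in
theorem Cls.tower (hret : ∀ {X Y : MF (lg a d W hW)} (i : X ⟶ Y) (q : Y ⟶ X),
      i ≫ q = 𝟙 X → P Y → P X)
    (htw : ∀ (g : Gd d) (X : MF (lg a d W hW)), P X → P (X.ts g 1 (one_mul 1)))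
    {F : MF (lg a d W hW)} {N' : ℕ}
    (hN : ∀ i, (X i : MvPolynomial (Fin n) ℂ) ^ N' ∈ Ideal.span (Set.range fun j => pderiv j W))
    (L : List (Fin n)) (hB : P (tw F (ps hW L) (ps_OK hW L))) : P F := by
  induction L with
  | nil => exact hB
  | cons i L ih =>
    have h1 : P (cone (X := (tw F (ps hW L) (ps_OK hW L)).ts (-(wt a d i)) 1 (one_mul 1))
        (Y := tw F (ps hW L) (ps_OK hW L)) (X i • 1)
        (twist_Z _ (isWeightedHomogeneous_X ℂ (wt a d) i))) := by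
      obtain ⟨e⟩ := (tw_cone F (X i, wq hW i L, wt a d i) (ps hW L) (ps_OK hW (i :: L))).iso
      exact hP.iso e hB
    obtain ⟨s, hs, es⟩ := exists_hty hW (hN i) F
    refine ih ?_
    exact Cls.of_cone (L := lg a d W hW) hP hret htw _
      (isWeightedHomogeneous_X ℂ (wt a d) i) h1 N'
      (tw_hty (L := lg a d W hW) (ps hW L) (ps_OK hW L) hs es 0)

include hd ha hP in
/-- a class closed under extensions, twists and retracts which contains the Koszul matrix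
factorization contains everything -/
theorem Cls.all (hret : ∀ {X Y : MF (lg a d W hW)} (i : X ⟶ Y) (q : Y ⟶ X),
      i ≫ q = 𝟙 X → P Y → P X)
    (htw : ∀ (g : Gd d) (X : MF (lg a d W hW)), P X → P (X.ts g 1 (one_mul 1)))
    (hs : ∀ x : Fin n → ℂ, (∀ i, eval x (pderiv i W) = 0) → x = 0)
    (hK : ∀ g : Gd d, P (KK hd hW (fun _ : Fin 1 => g))) (F : MF (lg a d W hW)) : P F := by
  obtain ⟨F', ⟨e⟩, -, hR⟩ := rk_spec (aug ha hd hW) F
  have hR' : Red0 F' := (red_iff ha hd F').1 hR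
  refine hP.iso e.symm ?_
  obtain ⟨N', hN⟩ := jac_pow_all hs
  refine hP.tower hret htw hN (List.finRange n) ?_
  have h0 : F'.D.map (ev (List.finRange n)) = 0 := by
    ext1 i j
    show ev (List.finRange n) (F'.D i j) = 0
    rw [ev_full, hR' i j, map_zero]
  have hc := chain hW F' (List.finRange n)
  rw [h0] at hc
  obtain ⟨e⟩ := tw_iso_kos (ps hW (List.finRange n)) (ps_OK hW _) (full_sum hd hW) F' hc
  exact hP.iso e.symm (Cls.kos (L := lg a d W hW) hP _ _ _ fun i => hK _)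

/-- If all variables are null-homotopic on `F` then `F` is a retract of its Koszul tower. -/
theorem ret_tower {F : MF (lg a d W hW)}
    (h : ∀ i, (X i : MvPolynomial (Fin n) ℂ) • (1 : Matrix F.I F.I (MvPolynomial (Fin n) ℂ)) ∈
      N (F.ts (-(wt a d i)) 1 (one_mul 1)) F) (L : List (Fin n)) :
    ∃ (i : F ⟶ tw F (ps hW L) (ps_OK hW L)) (q : tw F (ps hW L) (ps_OK hW L) ⟶ F),
      i ≫ q = 𝟙 F := by
  induction L with
  | nil => exact ⟨𝟙 F, 𝟙 F, Category.comp_id _⟩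
  | cons j L ih =>
    obtain ⟨s, hs, es⟩ := h j
    have hs' : s ∈ Hg (L := lg a d W hW) F.g F.g (wt a d j - sig d) :=
      Hg_eq (L := lg a d W hW) hs fun i j' => by
        show F.g i - (F.g j' + -wt a d j) + -sig d = F.g i - F.g j' + (wt a d j - sig d)
        abel
    have es' : F.D * s + s * F.D = (X j : MvPolynomial (Fin n) ℂ) • 1 := by
      have : (X j : MvPolynomial (Fin n) ℂ) • (1 : Matrix F.I F.I (MvPolynomial (Fin n) ℂ)) =
        F.D * s + s * ((1 : ℂ) • F.D) := es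
      rw [one_smul] at this
      exact this.symm
    have h1 := tw_hty (L := lg a d W hW) (ps hW L) (ps_OK hW L) hs' es' 0
    obtain ⟨e⟩ := (tw_cone F (X j, wq hW j L, wt a d j) (ps hW L) (ps_OK hW (j :: L))).iso
    obtain ⟨ez⟩ := ts_zero (tw F (ps hW L) (ps_OK hW L))
    set T : MF (lg a d W hW) := tw F (ps hW L) (ps_OK hW L) with hT
    have h2 : (X j : MvPolynomial (Fin n) ℂ) • (1 : Matrix T.I T.I (MvPolynomial (Fin n) ℂ)) ∈
        N (T.ts (-(wt a d j)) 1 (one_mul 1)) T := by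
      obtain ⟨s', hs', es'⟩ := h1
      refine ⟨s', Hg_eq (L := lg a d W hW) hs' fun i j' => ?_, ?_⟩
      · show T.g i + 0 - (T.g j' + (0 - wt a d j)) + -sig d =
          T.g i - (T.g j' + -wt a d j) + -sig d
        abel
      · have : (X j : MvPolynomial (Fin n) ℂ) • (1 : Matrix T.I T.I (MvPolynomial (Fin n) ℂ)) =
          ((1 : ℂ) • T.D) * s' + s' * ((1 : ℂ) • T.D) := es'
        rw [one_smul] at this
        rw [this]
        show T.D * s' + s' * T.D = T.D * s' + s' * ((1 : ℂ) • T.D)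
        rw [one_smul]
    have hT' : tri (X := T.ts (-(wt a d j)) 1 (one_mul 1)) (Y := T) (X j • 1)
        (twist_Z T (isWeightedHomogeneous_X ℂ (wt a d) j)) ∈ distTriang (MF (lg a d W hW)) :=
      dist_tri (X := T.ts (-(wt a d j)) 1 (one_mul 1)) (Y := T) _ _
    obtain ⟨g, hg⟩ : ∃ g : cone (X := T.ts (-(wt a d j)) 1 (one_mul 1)) (Y := T) (X j • 1)
        (twist_Z T (isWeightedHomogeneous_X ℂ (wt a d) j)) ⟶ T, 𝟙 T =
        cin (X := T.ts (-(wt a d j)) 1 (one_mul 1)) (Y := T)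
        (X j • 1) (twist_Z T (isWeightedHomogeneous_X ℂ (wt a d) j)) ≫ g :=
      Triangle.yoneda_exact₂ _ hT' (𝟙 T) (by
        have : hm (X := T.ts (-(wt a d j)) 1 (one_mul 1)) (Y := T) (X j • 1)
          (twist_Z T (isWeightedHomogeneous_X ℂ (wt a d) j)) = 0 := hm_eq_zero_iff.2 h2
        show hm (X := T.ts (-(wt a d j)) 1 (one_mul 1)) (Y := T) (X j • 1)
          (twist_Z T (isWeightedHomogeneous_X ℂ (wt a d) j)) ≫ 𝟙 T = 0
        rw [this, zero_comp])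
    obtain ⟨i', q', h'⟩ := ret_of_iso e _ g hg.symm
    obtain ⟨i, q, hiq⟩ := ih
    exact ret_comp i q hiq i' q' h'

end Pool.Agent.Helper445_GMF
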