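import Pool.Agent.Helper445_GMF.Jac

/-!
The total dimension of the morphism spaces is at most a constant times the product of the ranks.
-/

set_option autoImplicit false
set_option linter.unusedSectionVars false

open CategoryTheory Matrix Pretriangulated Limits MvPolynomial Cardinal

namespace Pool.Agent.Helper445_GMF

section general

variable {L : LG} (l : List (L.A × L.A × L.G)) (hl : OK L l)
  (hs : (l.map fun p => p.1 * p.2.1).sum = L.W)

theorem kos_ts {I : Type} [Fintype I] [DecidableEq I] (g : I → L.G) (γ : L.G) :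
    Nonempty ((kos g l hl hs).ts γ 1 (one_mul 1) ≅ kos (fun i => g i + γ) l hl hs) := by
  have hg : ∀ i, cg (fun i => g i + γ) l i = cg g l i + γ := fun i => cg_add g γ l i
  refine ⟨isoOf' (X := (kos g l hl hs).ts γ 1 (one_mul 1))
    (Y := kos (fun i => g i + γ) l hl hs) (1 : Matrix (Cu I l) (Cu I l) L.A)
    (1 : Matrix (Cu I l) (Cu I l) L.A) ⟨one_Hg_of_eq fun i => (hg i).symm, ?_⟩
    ⟨one_Hg_of_eq hg, ?_⟩ (Matrix.one_mul _) (Matrix.one_mul _)⟩
  · show kM 1 0 l * 1 = 1 * ((1 : ℂ) • kM 1 0 l)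
    rw [one_smul, Matrix.mul_one, Matrix.one_mul]
  · show ((1 : ℂ) • kM 1 0 l) * 1 = 1 * kM 1 0 l
    rw [one_smul, Matrix.mul_one, Matrix.one_mul]

theorem tw_iso_kos (E : MF L) (hc : Chain E.g E.D l 0) :
    Nonempty (tw E l hl ≅ kos E.g l hl hs) := by
  obtain ⟨U, hU, U', hU', h1, h2, h3⟩ := hc.key
  have h : SIso (tw E l hl) (kos E.g l hl hs) := by
    refine ⟨U, ⟨hU, h3⟩, U', ⟨hU', ?_⟩, h1, h2⟩
    show kM 0 E.D l * U' = U' * kM 1 0 l
    calc kM 0 E.D l * U' = U' * (U * kM 0 E.D l) * U' := by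
          rw [← Matrix.mul_assoc U', h1, Matrix.one_mul]
      _ = U' * kM 1 0 l * (U * U') := by rw [← h3]; simp only [Matrix.mul_assoc]
      _ = U' * kM 1 0 l := by rw [h2, Matrix.mul_one]
  exact h.iso

/-- a homotopy on `F` gives a homotopy on the tower -/
theorem tw_hty {F : MF L} {x : L.A} {c : L.G} {s : Matrix F.I F.I L.A}
    (hs : s ∈ Hg F.g F.g (c - L.ς)) (es : F.D * s + s * F.D = x • 1) (γ : L.G) :
    x • (1 : Matrix (tw F l hl).I (tw F l hl).I L.A) ∈
      N ((tw F l hl).ts (γ - c) 1 (one_mul 1)) ((tw F l hl).ts γ 1 (one_mul 1)) := by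
  refine ⟨kO s l, Hg_eq (kO_Hg hs l) fun i j => ?_, ?_⟩
  · show cg F.g l i - cg F.g l j + (c - L.ς) = cg F.g l i + γ - (cg F.g l j + (γ - c)) + -L.ς
    abel
  · have h1 := kM_kO 0 F.D F.D s _ es l
    rw [kE_smul, kE_one] at h1
    show x • (1 : Matrix (Cu F.I l) (Cu F.I l) L.A) =
      ((1 : ℂ) • kM 0 F.D l) * kO s l + kO s l * ((1 : ℂ) • kM 0 F.D l)
    rw [one_smul, h1]

end general

variable {n : ℕ} {a : Fin n → ℕ} {d : ℕ} {W : MvPolynomial (Fin n) ℂ}
  {hd : 0 < d} {hW : IsWeightedHomogeneous a W d} (had : ∀ i, a i ≠ d)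

include had in
theorem Bd_KK {I : Type} [Fintype I] [DecidableEq I] (g : I → Gd d) {E : MF (lg a d W hW)}
    (hE : Red0 E) : Bd E (KK hd hW g) (Fintype.card I * Fintype.card E.I) := by
  classical
  intro S
  have h1 : ∀ γ ∈ S, Module.rank ℂ (E ⟶ (KK hd hW g).ts γ 1 (one_mul 1)) =
      ((∑ q : I × E.I, if E.g q.2 = g q.1 + γ then 1 else 0 : ℕ) : Cardinal) := by
    intro γ _
    obtain ⟨e⟩ := kos_ts (L := lg a d W hW) (ps hW (List.finRange n)) (ps_OK hW _)
      (full_sum hd hW) g γ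
    rw [rank_iso E e, rank_KK (hd := hd) had (fun i => g i + γ) hE, Fintype.card_subtype,
      Finset.card_filter]
  rw [Finset.sum_congr rfl h1]
  have h2 : ∑ γ ∈ S, ∑ q : I × E.I, (if E.g q.2 = g q.1 + γ then 1 else 0 : ℕ) ≤
      Fintype.card I * Fintype.card E.I := by
    rw [Finset.sum_comm, ← Fintype.card_prod]
    calc ∑ q : I × E.I, ∑ γ ∈ S, (if E.g q.2 = g q.1 + γ then 1 else 0 : ℕ) ≤
          ∑ _q : I × E.I, 1 := by
          refine Finset.sum_le_sum fun q _ => ?_
          rw [← Finset.card_filter]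
          refine Finset.card_le_one.2 fun γ hγ γ' hγ' => ?_
          have e1 := (Finset.mem_filter.1 hγ).2
          have e2 := (Finset.mem_filter.1 hγ').2
          rw [e1] at e2
          exact add_left_cancel e2
      _ = Fintype.card (I × E.I) := by simp
  exact_mod_cast h2

theorem Bd_tower {E F : MF (lg a d W hW)} {N' : ℕ}
    (hN : ∀ i, (X i : MvPolynomial (Fin n) ℂ) ^ N' ∈ Ideal.span (Set.range fun j => pderiv j W))
    (L : List (Fin n)) {B : ℕ} (hB : Bd E (tw F (ps hW L) (ps_OK hW L)) B) :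
    Bd E F (N' ^ L.length * B) := by
  induction L generalizing B with
  | nil =>
    rw [List.length_nil, pow_zero, one_mul]
    exact hB
  | cons i L ih =>
    have h1 : Bd E (cone (X := (tw F (ps hW L) (ps_OK hW L)).ts (-(wt a d i)) 1 (one_mul 1))
        (Y := tw F (ps hW L) (ps_OK hW L)) (X i • 1)
        (twist_Z _ (isWeightedHomogeneous_X ℂ (wt a d) i))) B := by
      obtain ⟨e⟩ := (tw_cone F (X i, wq hW i L, wt a d i) (ps hW L) (ps_OK hW (i :: L))).iso
      exact hB.iso e.symm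
    obtain ⟨s, hs, es⟩ := exists_hty hW (hN i) F
    have h2 : Bd E (tw F (ps hW L) (ps_OK hW L)) (N' * B) :=
      Bd.step (L := lg a d W hW) (isWeightedHomogeneous_X ℂ (wt a d) i) E N'
        (fun γ => tw_hty (L := lg a d W hW) (ps hW L) (ps_OK hW L) hs es γ) h1
    have h3 := ih h2
    rw [List.length_cons, pow_succ, mul_assoc]
    exact h3

include had in
/-- The total dimension of the morphism spaces between reduced matrix factorizations. -/
theorem Bd_main {E F : MF (lg a d W hW)} (hd : 0 < d) (hE : Red0 E) (hF : Red0 F) {N' : ℕ}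
    (hN : ∀ i, (X i : MvPolynomial (Fin n) ℂ) ^ N' ∈ Ideal.span (Set.range fun j => pderiv j W)) :
    Bd E F (N' ^ n * (Fintype.card F.I * Fintype.card E.I)) := by
  have h0 : F.D.map (ev (List.finRange n)) = 0 := by
    ext1 i j
    show ev (List.finRange n) (F.D i j) = 0
    rw [ev_full, hF i j, map_zero]
  have hc := chain hW F (List.finRange n)
  rw [h0] at hc
  obtain ⟨e⟩ := tw_iso_kos (ps hW (List.finRange n)) (ps_OK hW _) (full_sum hd hW) F hc
  have h1 := Bd_tower (hW := hW) hN (List.finRange n) ((Bd_KK (hd := hd) had F.g hE).iso e)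
  rwa [List.length_finRange] at h1

end Pool.Agent.Helper445_GMF
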