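import Pool.Agent.Helper445_GMF.Cone

/-!
The homotopy category is pretriangulated.
-/

set_option autoImplicit false
set_option linter.unusedSectionVars false

open CategoryTheory Matrix Pretriangulated

namespace Pool.Agent.Helper445_GMF

variable {L : LG}

/-- distinguished triangles: the triangles isomorphic to the triangle of a mapping cone -/
def dist (L : LG) : Set (Triangle (MF L)) :=
  {T | ∃ (X Y : MF L) (f : Matrix Y.I X.I L.A) (hf : f ∈ Z X Y), Nonempty (T ≅ tri f hf)}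

theorem dist_iso (T₁ : Triangle (MF L)) (h : T₁ ∈ dist L) (T₂ : Triangle (MF L)) (e : T₂ ≅ T₁) :
    T₂ ∈ dist L := by
  obtain ⟨X, Y, f, hf, ⟨e'⟩⟩ := h
  exact ⟨X, Y, f, hf, ⟨e ≪≫ e'⟩⟩

theorem dist_tri {X Y : MF L} (f : Matrix Y.I X.I L.A) (hf : f ∈ Z X Y) : tri f hf ∈ dist L :=
  ⟨X, Y, f, hf, ⟨Iso.refl _⟩⟩

open Limits in
theorem dist_contr (X : MF L) : contractibleTriangle X ∈ dist L := by
  refine ⟨X, X, 1, Z_one X, ⟨Triangle.isoMk _ _ (Iso.refl _) (Iso.refl _)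
    ((isZero_zero _).iso (cone_id_isZero X)) ?_ ?_ ?_⟩⟩
  · exact (Category.comp_id _).trans (Category.id_comp _).symm
  · exact (cone_id_isZero X).eq_of_tgt _ _
  · exact (isZero_zero _).eq_of_src _ _

theorem dist_rot' (T : Triangle (MF L)) (h : T ∈ dist L) : T.rotate ∈ dist L := by
  obtain ⟨X, Y, f, hf, ⟨e⟩⟩ := h
  exact dist_iso _ (dist_iso _ (dist_tri _ _) _ (triRot f hf)) _ ((rotate (MF L)).mapIso e)

section pure

variable {A : Type} [CommRing A] [Algebra ℂ A] {I J : Type} [Fintype I] [DecidableEq I]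
  [Fintype J] [DecidableEq J]

theorem pu_sh1 (c : ℂ) (D : Matrix J J A) (E : Matrix I I A) (f : Matrix J I A) :
    (c • (fromBlocks D f 0 (sgn 1 • E) : Matrix (J ⊕ I) (J ⊕ I) A)) *
      (c • (1 : Matrix (J ⊕ I) (J ⊕ I) A)) =
      (c • (1 : Matrix (J ⊕ I) (J ⊕ I) A)) *
        (fromBlocks (c • D) (c • f) 0 (sgn 1 • (c • E)) : Matrix (J ⊕ I) (J ⊕ I) A) := by
  simp

theorem pu_sh1' (c : ℂ) (D : Matrix J J A) (E : Matrix I I A) (f : Matrix J I A) :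
    (fromBlocks (c • D) (c • f) 0 (sgn 1 • (c • E)) : Matrix (J ⊕ I) (J ⊕ I) A) *
      (c • (1 : Matrix (J ⊕ I) (J ⊕ I) A)) =
      (c • (1 : Matrix (J ⊕ I) (J ⊕ I) A)) *
        (c • (fromBlocks D f 0 (sgn 1 • E) : Matrix (J ⊕ I) (J ⊕ I) A)) := by
  simp

theorem pu_sh2 (c : ℂ) (hc : c * c = 1) :
    (c • (1 : Matrix J J A)) * (c • (1 : Matrix J J A)) = 1 := by
  simp [smul_smul, hc]

theorem pu_sh3 (c : ℂ) (hc : c * c = 1) :
    (c • (1 : Matrix (J ⊕ I) (J ⊕ I) A)) * (c • (fromRows 1 0 : Matrix (J ⊕ I) J A)) =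
      fromRows 1 0 := by
  rw [Matrix.smul_mul, Matrix.mul_smul, smul_smul, hc, one_smul, Matrix.one_mul]

theorem pu_sh4 (c : ℂ) :
    c • ((1 : Matrix I I A) * (fromCols 0 1 : Matrix I (J ⊕ I) A)) =
      (fromCols 0 1 : Matrix I (J ⊕ I) A) * (c • (1 : Matrix (J ⊕ I) (J ⊕ I) A)) := by
  rw [Matrix.mul_smul, Matrix.mul_one, Matrix.one_mul]

end pure

theorem sgn_eq (n : ℤ) : ((n.negOnePow : ℤ) : ℂ) = sgn n := rfl

theorem units_smul_hm {X Y : MF L} (n : ℤ) {f : Matrix Y.I X.I L.A} (hf : f ∈ Z X Y) :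
    n.negOnePow • hm f hf = hm (sgn n • f) (Z_csmul _ hf) := by
  rcases Int.even_or_odd n with h | h
  · rw [Int.negOnePow_even n h, one_smul]
    refine hm_congr ?_
    rw [sgn, Int.negOnePow_even n h]
    simp
  · rw [Int.negOnePow_odd n h, Units.neg_smul, one_smul]
    refine hm_congr ?_
    rw [sgn, Int.negOnePow_odd n h]
    simp

theorem shiftAdd'_hom_app (X : MF L) (m n k : ℤ) (h : m + n = k) :
    (shiftFunctorAdd' (MF L) m n k h).hom.app X =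
      hm (X := X.sh k) (Y := (X.sh m).sh n) 1 (add_Z X m n k h) := by
  subst h
  rw [shiftFunctorAdd'_eq_shiftFunctorAdd]
  rfl

theorem shiftAdd'_inv_app (X : MF L) (m n k : ℤ) (h : m + n = k) :
    (shiftFunctorAdd' (MF L) m n k h).inv.app X =
      hm (X := (X.sh m).sh n) (Y := X.sh k) 1 (add_Z' X m n k h) := by
  subst h
  rw [shiftFunctorAdd'_eq_shiftFunctorAdd]
  rfl

theorem comm_Z (X : MF L) (m n : ℤ) :
    (1 : Matrix X.I X.I L.A) ∈ Z ((X.sh m).sh n) ((X.sh n).sh m) := by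
  have h := Z_mul (add_Z X n m (m + n) (add_comm n m)) (add_Z' X m n (m + n) rfl)
  rwa [Matrix.one_mul] at h

theorem shiftComm_hom_app (X : MF L) (m n : ℤ) :
    (shiftFunctorComm (MF L) m n).hom.app X =
      hm (X := (X.sh m).sh n) (Y := (X.sh n).sh m) 1 (comm_Z X m n) := by
  rw [shiftFunctorComm_eq (MF L) m n _ rfl]
  show (shiftFunctorAdd' (MF L) m n (m + n) rfl).inv.app X ≫
    (shiftFunctorAdd' (MF L) n m (m + n) (add_comm n m)).hom.app X = _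
  rw [shiftAdd'_hom_app, shiftAdd'_inv_app]
  exact hm_congr (Matrix.one_mul _)

/-- the shift of a closed morphism, with a sign -/
theorem sh_Z {X Y : MF L} {f : Matrix Y.I X.I L.A} (hf : f ∈ Z X Y) (n : ℤ) :
    sgn n • f ∈ Z (X.sh n) (Y.sh n) := Z_csmul _ (ts_Z hf)

theorem sh_g (X Y : MF L) (n : ℤ) (i : Y.I ⊕ X.I) :
    Sum.elim Y.g (X.sh 1).g i + n • L.ς = Sum.elim (Y.sh n).g ((X.sh n).sh 1).g i := by
  rcases i with i | i
  · rfl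
  · show X.g i + (1 : ℤ) • L.ς + n • L.ς = X.g i + n • L.ς + (1 : ℤ) • L.ς
    abel

theorem one_Hg_of_eq {I : Type} [DecidableEq I] {g g' : I → L.G} (h : ∀ i, g i = g' i) :
    (1 : Matrix I I L.A) ∈ Hg g g' 0 :=
  Hg_eq (Hg_one g) (fun i j => by rw [h i])

theorem comp_map_id {X Y : MF L} (a : X ⟶ Y⟦(1 : ℤ)⟧) : a ≫ (𝟙 Y)⟦(1 : ℤ)⟧' = a := by
  rw [CategoryTheory.Functor.map_id, Category.comp_id]

/-- the cone of a shift -/
noncomputable def shIso {X Y : MF L} (f : Matrix Y.I X.I L.A) (hf : f ∈ Z X Y) (n : ℤ) :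
    (cone f hf).sh n ≅ cone (X := X.sh n) (Y := Y.sh n) (sgn n • f) (sh_Z hf n) :=
  isoOf' (X := (cone f hf).sh n) (Y := cone (X := X.sh n) (Y := Y.sh n) (sgn n • f) (sh_Z hf n))
    (sgn n • (1 : Matrix (Y.I ⊕ X.I) (Y.I ⊕ X.I) L.A))
    (sgn n • (1 : Matrix (Y.I ⊕ X.I) (Y.I ⊕ X.I) L.A))
    ⟨Hg_csmul _ (one_Hg_of_eq (fun i => sh_g X Y n i)),
      pu_sh1' (sgn n) Y.D X.D f⟩
    ⟨Hg_csmul _ (one_Hg_of_eq (fun i => (sh_g X Y n i).symm)),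
      pu_sh1 (sgn n) Y.D X.D f⟩
    (pu_sh2 (sgn n) (sgn_sq n))
    (pu_sh2 (sgn n) (sgn_sq n))

/-- the shift of a standard triangle -/
noncomputable def triSh {X Y : MF L} (f : Matrix Y.I X.I L.A) (hf : f ∈ Z X Y) (n : ℤ) :
    (Triangle.shiftFunctor (MF L) n).obj (tri f hf) ≅
      tri (X := X.sh n) (Y := Y.sh n) (sgn n • f) (sh_Z hf n) := by
  refine Triangle.isoMk _ _ (Iso.refl _) (Iso.refl _) (shIso f hf n) ?_ ?_ ?_
  · refine Eq.trans (Category.comp_id _) (Eq.trans ?_ (Category.id_comp _).symm)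
    exact units_smul_hm n (ts_Z hf)
  · refine Eq.trans ?_ (Category.id_comp _).symm
    show (n.negOnePow • (cin f hf)⟦n⟧') ≫ (shIso f hf n).hom = _
    rw [show n.negOnePow • (cin f hf)⟦n⟧' = _ from units_smul_hm n (ts_Z (cin_Z f hf))]
    exact hm_congr (pu_sh3 (sgn n) (sgn_sq n))
  · refine Eq.trans (comp_map_id (n.negOnePow • (cpr f hf)⟦n⟧' ≫
      (shiftFunctorComm (MF L) 1 n).hom.app X)) ?_
    rw [shiftComm_hom_app]
    refine Eq.trans (units_smul_hm n (Z_mul (comm_Z X 1 n) (ts_Z (cpr_Z f hf)))) ?_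
    exact hm_congr (pu_sh4 (sgn n))

theorem dist_sh (T : Triangle (MF L)) (h : T ∈ dist L) (n : ℤ) :
    (Triangle.shiftFunctor (MF L) n).obj T ∈ dist L := by
  obtain ⟨X, Y, f, hf, ⟨e⟩⟩ := h
  exact dist_iso _ (dist_iso _ (dist_tri _ _) _ (triSh f hf n)) _
    ((Triangle.shiftFunctor (MF L) n).mapIso e)

theorem dist_invRot (T : Triangle (MF L)) (h : T ∈ dist L) : T.invRotate ∈ dist L :=
  dist_iso _ (dist_sh _ (dist_rot' _ (dist_rot' T h)) (-1)) _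
    ((invRotateIsoRotateRotateShiftFunctorNegOne _).app T)

theorem dist_rot (T : Triangle (MF L)) : T ∈ dist L ↔ T.rotate ∈ dist L :=
  ⟨dist_rot' T, fun h => dist_iso _ (dist_invRot T.rotate h) _
    ((triangleRotation _).unitIso.app T)⟩

/-- the morphism of cones -/
theorem tr3_Z {X Y X' Y' : MF L} {f : Matrix Y.I X.I L.A} (hf : f ∈ Z X Y)
    {f' : Matrix Y'.I X'.I L.A} (hf' : f' ∈ Z X' Y') {a : Matrix X'.I X.I L.A}
    {b : Matrix Y'.I Y.I L.A} {s : Matrix Y'.I X.I L.A} (ha : a ∈ Z X X') (hb : b ∈ Z Y Y')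
    (hs : s ∈ Hg X.g Y'.g (-L.ς)) (h : b * f - f' * a = Y'.D * s + s * X.D) :
    (fromBlocks b s 0 a : Matrix (Y'.I ⊕ X'.I) (Y.I ⊕ X.I) L.A) ∈ Z (cone f hf) (cone f' hf') :=
  ⟨Hg_blocks hb.1 (Hg_eq hs (fun i j => by
      show Y'.g i - X.g j + -L.ς = Y'.g i - (X.g j + (1 : ℤ) • L.ς) + 0
      rw [one_smul]; abel)) Hg_zero (ts_Z (a := (1 : ℤ) • L.ς) (c := sgn 1) (hc := sgn_sq 1) ha).1,
    pu_tr3a Y.D X.D f Y'.D X'.D f' a b s ha.2 hb.2 h⟩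

theorem iso_hom_id₁ {C : Type*} [Category C] [HasShift C ℤ] {T₁ T₂ : Triangle C} (e : T₁ ≅ T₂)
    {X : C} (a : T₁.obj₁ ⟶ X) : e.hom.hom₁ ≫ e.inv.hom₁ ≫ a = a := by
  simp

theorem iso_hom_id₁' {C : Type*} [Category C] [HasShift C ℤ] {T₁ T₂ : Triangle C} (e : T₁ ≅ T₂) :
    e.hom.hom₁ ≫ e.inv.hom₁ = 𝟙 _ := by
  simp

theorem tr3_of_iso {C : Type*} [Category C] [HasShift C ℤ] {T₁ T₂ T₁' T₂' : Triangle C}
    (e : T₁ ≅ T₁') (e' : T₂ ≅ T₂')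
    (H : ∀ (a : T₁'.obj₁ ⟶ T₂'.obj₁) (b : T₁'.obj₂ ⟶ T₂'.obj₂), T₁'.mor₁ ≫ b = a ≫ T₂'.mor₁ →
      ∃ c : T₁'.obj₃ ⟶ T₂'.obj₃, T₁'.mor₂ ≫ c = b ≫ T₂'.mor₂ ∧
        T₁'.mor₃ ≫ a⟦(1 : ℤ)⟧' = c ≫ T₂'.mor₃)
    (a : T₁.obj₁ ⟶ T₂.obj₁) (b : T₁.obj₂ ⟶ T₂.obj₂) (h : T₁.mor₁ ≫ b = a ≫ T₂.mor₁) :
    ∃ c : T₁.obj₃ ⟶ T₂.obj₃, T₁.mor₂ ≫ c = b ≫ T₂.mor₂ ∧
      T₁.mor₃ ≫ a⟦(1 : ℤ)⟧' = c ≫ T₂.mor₃ := by
  obtain ⟨c, hc1, hc2⟩ := H (e.inv.hom₁ ≫ a ≫ e'.hom.hom₁) (e.inv.hom₂ ≫ b ≫ e'.hom.hom₂) (by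
    have h1 := e.inv.comm₁
    have h2 := e'.hom.comm₁
    rw [← Category.assoc, h1, Category.assoc, ← Category.assoc T₁.mor₁, h, Category.assoc,
      Category.assoc, h2, Category.assoc])
  refine ⟨e.hom.hom₃ ≫ c ≫ e'.inv.hom₃, ?_, ?_⟩
  · have h1 := e.hom.comm₂
    have h2 := e'.inv.comm₂
    rw [← Category.assoc, h1, Category.assoc, ← Category.assoc T₁'.mor₂, hc1]
    simp only [Category.assoc]
    rw [h2]
    simp
  · have h1 := e.hom.comm₃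
    have h2 := e'.inv.comm₃
    rw [Category.assoc, Category.assoc, ← h2, ← Category.assoc c, ← hc2]
    simp only [Category.assoc]
    rw [← Category.assoc e.hom.hom₃, ← h1]
    simp only [Category.assoc, ← Functor.map_comp, iso_hom_id₁, iso_hom_id₁', Category.comp_id]

theorem dist_tr3 (T₁ T₂ : Triangle (MF L)) (h₁ : T₁ ∈ dist L) (h₂ : T₂ ∈ dist L)
    (a : T₁.obj₁ ⟶ T₂.obj₁) (b : T₁.obj₂ ⟶ T₂.obj₂) (h : T₁.mor₁ ≫ b = a ≫ T₂.mor₁) :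
    ∃ c : T₁.obj₃ ⟶ T₂.obj₃, T₁.mor₂ ≫ c = b ≫ T₂.mor₂ ∧ T₁.mor₃ ≫ a⟦(1 : ℤ)⟧' = c ≫ T₂.mor₃ := by
  obtain ⟨X, Y, f, hf, ⟨e⟩⟩ := h₁
  obtain ⟨X', Y', f', hf', ⟨e'⟩⟩ := h₂
  refine tr3_of_iso e e' ?_ a b h
  intro a b h
  obtain ⟨α, hα, rfl⟩ := hm_surj (X := X) (Y := X') a
  obtain ⟨β, hβ, rfl⟩ := hm_surj (X := Y) (Y := Y') b
  obtain ⟨s, hs, es⟩ := hm_eq_iff.1 h
  exact ⟨hm (X := cone f hf) (Y := cone f' hf') (fromBlocks β s 0 α)
    (tr3_Z hf hf' hα hβ hs es), hm_congr (pu_tr3b β α s), hm_congr (pu_tr3c β α s)⟩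

noncomputable instance : Pretriangulated (MF L) where
  distinguishedTriangles := dist L
  isomorphic_distinguished := dist_iso
  contractible_distinguished := dist_contr
  distinguished_cocone_triangle {X Y} φ := by
    obtain ⟨f, hf, rfl⟩ := hm_surj φ
    exact ⟨cone f hf, cin f hf, cpr f hf, dist_tri f hf⟩
  rotate_distinguished_triangle := dist_rot
  complete_distinguished_triangle_morphism T₁ T₂ h₁ h₂ a b h := dist_tr3 T₁ T₂ h₁ h₂ a b h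

end Pool.Agent.Helper445_GMF
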