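import Pool.Agent.Helper445_GMF.Slice

/-!
Truncations and the mass function of a stability condition.
-/

set_option autoImplicit false
set_option linter.unusedSectionVars false

open CategoryTheory Pretriangulated Triangulated Limits ZeroObject

namespace Pool.Agent.Helper445_GMF

universe v u

variable {C : Type u} [Category.{v} C] [Preadditive C] [HasZeroObject C] [HasShift C ℤ]
  [∀ n : ℤ, (shiftFunctor C n).Additive] [Pretriangulated C] [IsTriangulated C]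

namespace PreStab

variable (σ : PreStab C)

/-- truncation triangles -/
def IsTr (s : ℝ) {A X B : C} (f : A ⟶ X) (g : X ⟶ B) (h : B ⟶ A⟦(1 : ℤ)⟧) : Prop :=
  Triangle.mk f g h ∈ distTriang C ∧ Gen σ.P (Set.Ioi s) A ∧ Gen σ.P (Set.Iic s) B

theorem isTr_id {s : ℝ} {X : C} (hX : Gen σ.P (Set.Ioi s) X) :
    σ.IsTr s (𝟙 X) (0 : X ⟶ 0) 0 :=
  ⟨contractible_distinguished X, hX, .zero (isZero_zero C)⟩

theorem isTr_zero {s : ℝ} {X : C} (hX : Gen σ.P (Set.Iic s) X) :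
    σ.IsTr s (0 : (0 : C) ⟶ X) (𝟙 X) 0 :=
  ⟨contractible_distinguished₁ X, .zero (isZero_zero C), hX⟩

theorem exists_tr (s : ℝ) (X : C) : ∃ (A B : C) (f : A ⟶ X) (g : X ⟶ B) (h : B ⟶ A⟦(1 : ℤ)⟧),
    σ.IsTr s f g h := by
  obtain ⟨a, b, hX⟩ := σ.hn X
  induction hX with
  | @one φ X hX =>
    rcases lt_or_ge s φ with hs | hs
    · exact ⟨_, _, _, _, _, σ.isTr_id (.ss hs hX)⟩
    · exact ⟨_, _, _, _, _, σ.isTr_zero (.ss hs hX)⟩
  | @step φ a b T hT h₁ h₃ hφ ih =>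
    rcases lt_or_ge s φ with hs | hs
    · refine ⟨_, _, _, _, _, σ.isTr_id ((σ.HN_gen (.step T hT h₁ h₃ hφ)).mono ?_)⟩
      exact fun x hx => lt_of_lt_of_le hs hx.1
    · obtain ⟨A, B, f, g, h, hfg, hA, hB⟩ := ih
      obtain ⟨V, v, w, hV⟩ := distinguished_cocone_triangle (f ≫ T.mor₁)
      have o := someOctahedron rfl hfg hT hV
      exact ⟨A, V, _, v, w, hV, hA, .ext _ o.mem hB (.ss hs h₃)⟩

/-- the central charge of the part of `X` with phases bigger than `s` -/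
noncomputable def tz (s : ℝ) (X : C) : ℂ := σ.Z (σ.exists_tr s X).choose

theorem tr_unique {s : ℝ} {A X B A' B' : C} {f : A ⟶ X} {g : X ⟶ B} {h : B ⟶ A⟦(1 : ℤ)⟧}
    {f' : A' ⟶ X} {g' : X ⟶ B'} {h' : B' ⟶ A'⟦(1 : ℤ)⟧} (H : σ.IsTr s f g h)
    (H' : σ.IsTr s f' g' h') : σ.Z A = σ.Z A' := by
  have h0 : f ≫ g' = 0 := Gen.hom_zero σ (fun _ hs _ hs' => lt_of_le_of_lt hs' hs) H.2.1 H'.2.2 _
  obtain ⟨k, hk⟩ := Triangle.coyoneda_exact₂ _ H'.1 f h0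
  obtain ⟨Q, v, w, hQ⟩ := distinguished_cocone_triangle k
  have o := someOctahedron hk.symm hQ H'.1 H.1
  have h1 : Gen σ.P (Set.Iic s) Q := Gen.first σ _ o.mem H.2.2
    (H'.2.2.mono (fun x (hx : x ≤ s) => (by linarith : x - 1 ≤ s)))
  have h2 : Gen σ.P (Set.Ioi s) Q := Gen.third σ _ hQ H'.2.1
    (H.2.1.mono (fun x (hx : s < x) => (by linarith : s < x + 1)))
  have h3 : IsZero Q := Gen.isZero σ (fun _ hs _ hs' => lt_of_le_of_lt hs' hs) h2 h1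
  have h4 : σ.Z A' = σ.Z A + σ.Z Q := σ.add _ hQ
  rw [h4, σ.Z_zero h3, add_zero]

theorem tz_eq {s : ℝ} {A X B : C} {f : A ⟶ X} {g : X ⟶ B} {h : B ⟶ A⟦(1 : ℤ)⟧}
    (H : σ.IsTr s f g h) : σ.tz s X = σ.Z A := by
  obtain ⟨B', f', g', h', H'⟩ := (σ.exists_tr s X).choose_spec
  exact σ.tr_unique H' H

theorem tz_iso (s : ℝ) {X Y : C} (e : X ≅ Y) : σ.tz s X = σ.tz s Y := by
  obtain ⟨A, B, f, g, h, H⟩ := σ.exists_tr s X
  rw [σ.tz_eq H, σ.tz_eq (f := f ≫ e.hom) (g := e.inv ≫ g) (h := h) ⟨dist_mid H.1 e, H.2⟩]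

theorem tz_of_gt {s : ℝ} {X : C} (hX : Gen σ.P (Set.Ioi s) X) : σ.tz s X = σ.Z X :=
  σ.tz_eq (σ.isTr_id hX)

theorem tz_of_le {s : ℝ} {X : C} (hX : Gen σ.P (Set.Iic s) X) : σ.tz s X = 0 := by
  rw [σ.tz_eq (σ.isTr_zero hX), σ.Z_zero (isZero_zero C)]

theorem tz_shift (s : ℝ) (X : C) : σ.tz s (X⟦(1 : ℤ)⟧) = - σ.tz (s - 1) X := by
  obtain ⟨A, B, f, g, h, H⟩ := σ.exists_tr (s - 1) X
  rw [σ.tz_eq H, ← σ.Z_shift A]
  have h1 := Triangle.shift_distinguished _ H.1 1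
  refine σ.tz_eq (f := ((Triangle.shiftFunctor C 1).obj (Triangle.mk f g h)).mor₁)
    (g := ((Triangle.shiftFunctor C 1).obj (Triangle.mk f g h)).mor₂)
    (h := ((Triangle.shiftFunctor C 1).obj (Triangle.mk f g h)).mor₃) ⟨h1, ?_, ?_⟩
  · exact (Gen.shift_one σ H.2.1).mono (fun x (hx : s - 1 < x - 1) => (by linarith : s < x))
  · exact (Gen.shift_one σ H.2.2).mono (fun x (hx : x - 1 ≤ s - 1) => (by linarith : x ≤ s))

/-- the fundamental inequality behind the triangle inequality for masses -/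
theorem lemS (T : Triangle C) (hT : T ∈ distTriang C) (s : ℝ) :
    ∃ Q : C, Gen σ.P (Set.Ioc s (s + 1)) Q ∧
      σ.Z Q = σ.tz s T.obj₁ + σ.tz s T.obj₃ - σ.tz s T.obj₂ := by
  obtain ⟨XU, XV, fX, gX, hX, HX⟩ := σ.exists_tr s T.obj₁
  obtain ⟨YU, YV, fY, gY, hY, HY⟩ := σ.exists_tr s T.obj₂
  obtain ⟨ZU, ZV, fZ, gZ, hZ, HZ⟩ := σ.exists_tr s T.obj₃
  obtain ⟨Z', v', w', h'⟩ := distinguished_cocone_triangle (fX ≫ T.mor₁)
  have o1 := someOctahedron rfl HX.1 hT h'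
  have h0 : (fX ≫ T.mor₁) ≫ gY = 0 :=
    Gen.hom_zero σ (fun _ hs _ hs' => lt_of_le_of_lt hs' hs) HX.2.1 HY.2.2 _
  obtain ⟨k, hk⟩ := Triangle.coyoneda_exact₂ _ HY.1 (fX ≫ T.mor₁) h0
  obtain ⟨ZU', v'', w'', h''⟩ := distinguished_cocone_triangle k
  have o2 := someOctahedron hk.symm h'' HY.1 h'
  obtain ⟨C', v3, w3, h3⟩ := distinguished_cocone_triangle (o2.m₁ ≫ o1.m₃)
  have o3 := someOctahedron rfl o2.mem (rot_of_distTriang _ o1.mem) h3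
  have hC' : Gen σ.P (Set.Iic (s + 1)) C' := by
    refine .ext _ o3.mem (HY.2.2.mono fun x (hx : x ≤ s) => (by linarith : x ≤ s + 1)) ?_
    exact (Gen.shift_one σ HX.2.2).mono fun x (hx : x - 1 ≤ s) => (by linarith : x ≤ s + 1)
  have hZU' : Gen σ.P (Set.Ioi s) ZU' := Gen.third σ _ h'' HY.2.1
    (HX.2.1.mono fun x (hx : s < x) => (by linarith : s < x + 1))
  have h0' : (o2.m₁ ≫ o1.m₃) ≫ gZ = 0 :=
    Gen.hom_zero σ (fun _ hs _ hs' => lt_of_le_of_lt hs' hs) hZU' HZ.2.2 _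
  obtain ⟨l, hl⟩ := Triangle.coyoneda_exact₂ _ HZ.1 _ h0'
  obtain ⟨Q, v4, w4, h4⟩ := distinguished_cocone_triangle l
  have o4 := someOctahedron hl.symm h4 HZ.1 h3
  refine ⟨Q, σ.gen_inter ?_ ?_, ?_⟩
  · exact Gen.third σ _ h4 HZ.2.1 (hZU'.mono fun x (hx : s < x) => (by linarith : s < x + 1))
  · exact Gen.first σ _ o4.mem hC'
      (HZ.2.2.mono fun x (hx : x ≤ s) => (by linarith : x - 1 ≤ s + 1))
  · rw [σ.tz_eq HX, σ.tz_eq HY, σ.tz_eq HZ]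
    have e1 : σ.Z ZU = σ.Z ZU' + σ.Z Q := σ.add _ h4
    have e2 : σ.Z YU = σ.Z XU + σ.Z ZU' := σ.add _ h''
    rw [e1, e2]
    ring

end PreStab

end Pool.Agent.Helper445_GMF
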