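import Pool.Agent.Helper445_GMF.MFun
import Pool.Agent.Helper445_GMF.DefG

/-!
The central charge `Z_G` is well defined on the homotopy category and additive on triangles.
-/

set_option autoImplicit false
set_option linter.unusedSectionVars false

open CategoryTheory Matrix Pretriangulated Limits MvPolynomial

namespace Pool.Agent.Helper445_GMF

variable {n : ℕ} {a : Fin n → ℕ} {d : ℕ} {W : MvPolynomial (Fin n) ℂ}
  {hW : IsWeightedHomogeneous a W d}

/-- the contribution of a generator -/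
noncomputable def gam (d : ℕ) (g : Gd d) : ℂ :=
  Complex.exp (Real.pi * Complex.I * (g.1.1 : ℂ) / d)

theorem gam_add (g h : Gd d) : gam d (g + h) = gam d g * gam d h := by
  unfold gam
  rw [← Complex.exp_add]
  congr 1
  show Real.pi * Complex.I * ((g.1.1 + h.1.1 : ℤ) : ℂ) / d = _
  push_cast
  ring

theorem gam_zero : gam d 0 = 1 := by
  unfold gam
  have : ((0 : Gd d).1.1 : ℂ) = 0 := by simp
  rw [this]
  simp

theorem gam_sig (hd : 0 < d) : gam d (sig d) = -1 := by
  have hd' : (d : ℂ) ≠ 0 := Nat.cast_ne_zero.2 hd.ne'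
  unfold gam
  have : ((sig d).1.1 : ℂ) = d := by simp [sig]
  rw [this, mul_div_assoc, div_self hd', mul_one, Complex.exp_pi_mul_I]

theorem ZG_ts' (X : MF (lg a d W hW)) (g : Gd d) :
    ZG (X.ts g 1 (one_mul 1)) = gam d g * ZG X := by
  unfold ZG
  rw [Finset.mul_sum]
  refine Finset.sum_congr rfl fun i _ => ?_
  have := gam_add (X.g i) g
  rw [mul_comm] at this
  exact this

/-- the diagonal matrix of the contributions of the generators -/
noncomputable def Gam {I : Type} [DecidableEq I] (g : I → Gd d) : Matrix I I ℂ :=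
  Matrix.diagonal fun i => gam d (g i)

theorem Gam_trace (X : MF (lg a d W hW)) : (Gam X.g).trace = ZG X := by
  unfold Gam
  rw [Matrix.trace_diagonal]
  rfl

theorem Gam_comm (ha : ∀ i, 0 < a i) (hd : 0 < d) {I J : Type} [Fintype I] [DecidableEq I]
    [Fintype J] [DecidableEq J] {g : I → Gd d} {h : J → Gd d} {c : Gd d}
    {f : Matrix J I (MvPolynomial (Fin n) ℂ)} (hf : f ∈ Hg (L := lg a d W hW) g h c) :
    Gam h * f.map constantCoeff = gam d (-c) • (f.map constantCoeff * Gam g) := by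
  ext i j
  rw [Matrix.smul_apply]
  unfold Gam
  rw [Matrix.diagonal_mul, Matrix.mul_diagonal, Matrix.map_apply, smul_eq_mul]
  by_cases h0 : constantCoeff (f i j) = 0
  · rw [h0]; simp
  · have h1 : h i - g j + c = 0 := by
      refine ((aug ha hd hW).h _ _ (hf i j) ?_).1
      show aeval (0 : Fin n → ℂ) (f i j) ≠ 0
      rw [aeval_zero]
      exact h0
    have h2 : h i = -c + g j := by
      rw [← sub_eq_zero]
      rw [← h1]
      abel
    rw [h2, gam_add]
    ring

theorem ZG_aux (ha : ∀ i, 0 < a i) (hd : 0 < d) {X Y : MF (lg a d W hW)}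
    {f : Matrix Y.I X.I (MvPolynomial (Fin n) ℂ)} {f' : Matrix X.I Y.I (MvPolynomial (Fin n) ℂ)}
    (h : f' * f - 1 ∈ N X X) :
    ZG X = (Gam X.g * (f'.map constantCoeff * f.map constantCoeff)).trace := by
  obtain ⟨s, hs, es⟩ := h
  have e1 : f'.map constantCoeff * f.map constantCoeff = 1 + (X.D.map constantCoeff *
      s.map constantCoeff + s.map constantCoeff * X.D.map constantCoeff) := by
    have e2 : f' * f = 1 + (X.D * s + s * X.D) := by
      rw [← es]; abel
    have e3 := congrArg (fun M : Matrix X.I X.I (MvPolynomial (Fin n) ℂ) =>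
      M.map (constantCoeff : MvPolynomial (Fin n) ℂ →+* ℂ)) e2
    simp only at e3
    rw [Matrix.map_mul, Matrix.map_add _ (fun a b => map_add _ a b),
      Matrix.map_add _ (fun a b => map_add _ a b), Matrix.map_mul, Matrix.map_mul,
      Matrix.map_one _ (map_zero _) (map_one _)] at e3
    exact e3
  have e4 := Gam_comm ha hd (hW := hW) X.hD'
  have e5 : gam d (-(sig d)) = -1 := by
    have h1 := gam_add (d := d) (sig d) (-(sig d))
    rw [add_neg_cancel, gam_zero, gam_sig hd] at h1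
    linear_combination h1
  have e6 : gam d (-(lg a d W hW).ς) = -1 := e5
  rw [e6, neg_smul, one_smul] at e4
  rw [e1, Matrix.mul_add, Matrix.mul_one, Matrix.trace_add, Gam_trace, Matrix.mul_add,
    Matrix.trace_add, ← Matrix.mul_assoc, e4, ← Matrix.mul_assoc,
    Matrix.trace_mul_comm (Gam X.g * s.map constantCoeff), Matrix.neg_mul, Matrix.trace_neg,
    Matrix.mul_assoc]
  ring

theorem ZG_iso (ha : ∀ i, 0 < a i) (hd : 0 < d) {X Y : MF (lg a d W hW)} (e : X ≅ Y) :
    ZG X = ZG Y := by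
  obtain ⟨f, hf, f', hf', h, h'⟩ := heq_iff.2 ⟨e⟩
  rw [ZG_aux ha hd h, ZG_aux ha hd h']
  have e4 := Gam_comm ha hd (hW := hW) hf.1
  rw [neg_zero, gam_zero, one_smul] at e4
  rw [← Matrix.mul_assoc, ← Matrix.mul_assoc, e4, Matrix.mul_assoc (f.map constantCoeff),
    Matrix.trace_mul_comm (f.map constantCoeff)]

theorem ZG_cone (hd : 0 < d) {X Y : MF (lg a d W hW)}
    (f : Matrix Y.I X.I (MvPolynomial (Fin n) ℂ)) (hf : f ∈ Z X Y) :
    ZG (cone f hf) = ZG Y - ZG X := by
  have h2 : ZG (cone f hf) = ∑ i : Y.I ⊕ X.I, gam d (Sum.elim Y.g (X.sh 1).g i) := rfl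
  rw [h2, Fintype.sum_sum_type, sub_eq_add_neg]
  congr 1
  have h3 : ZG X = ∑ i, gam d (X.g i) := rfl
  rw [h3, ← Finset.sum_neg_distrib]
  refine Finset.sum_congr rfl fun i _ => ?_
  show gam d (X.g i + (1 : ℤ) • sig d) = _
  rw [one_smul, gam_add, gam_sig hd, mul_neg_one]

theorem ZG_add (ha : ∀ i, 0 < a i) (hd : 0 < d) (T : Triangle (MF (lg a d W hW)))
    (hT : T ∈ distTriang (MF (lg a d W hW))) : ZG T.obj₂ = ZG T.obj₁ + ZG T.obj₃ := by
  obtain ⟨X, Y, f, hf, ⟨e⟩⟩ := hT
  have h1 : ZG T.obj₁ = ZG X := ZG_iso ha hd (Triangle.π₁.mapIso e)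
  have h2 : ZG T.obj₂ = ZG Y := ZG_iso ha hd (Triangle.π₂.mapIso e)
  have h3 : ZG T.obj₃ = ZG (cone f hf) := ZG_iso ha hd (Triangle.π₃.mapIso e)
  rw [h1, h2, h3, ZG_cone hd]
  ring

end Pool.Agent.Helper445_GMF
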